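import Pool.Agent.W_3283e1_h53.Er

set_option autoImplicit false

namespace W3283g

open Complex W3283e1 W3283f MeasureTheory Filter Topology

/-- The Laplace transform of a function `e` with `∫_0^∞ |e v| e^{-σv} dv < ∞` for all `σ > 0` is
holomorphic on `Re s > 0` (`hasDerivAt_integral_of_dominated_loc_of_deriv_le`, the derivative of the
integrand is dominated by `v e^{-σv} |e v| ≤ C |e v| e^{-σv/2}`). -/
theorem lap_diff (e : ℝ → ℝ) (he : Measurable e)
    (h : ∀ σ : ℝ, 0 < σ → IntegrableOn (fun v : ℝ => e v * Real.exp (-(σ * v))) (Set.Ioi 0)) :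
    DifferentiableOn ℂ (fun s : ℂ => ∫ v in Set.Ioi (0 : ℝ), (e v : ℂ) * Complex.exp (-(s * v)))
      {s : ℂ | 0 < s.re} := by
  intro s0 hs0
  have hs0' : 0 < s0.re := hs0
  have ho : IsOpen {s : ℂ | s0.re / 2 < s.re} := isOpen_lt continuous_const Complex.continuous_re
  have hnorm : ∀ (s : ℂ) (v : ℝ), ‖Complex.exp (-(s * v))‖ = Real.exp (-(s.re * v)) := by
    intro s v
    rw [Complex.norm_exp, neg_re, mul_re, ofReal_re, ofReal_im, mul_zero, sub_zero]
  have hmeas : ∀ s : ℂ, AEStronglyMeasurable (fun v : ℝ => (e v : ℂ) * Complex.exp (-(s * v)))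
      (volume.restrict (Set.Ioi 0)) := by
    intro s
    have h1 : Measurable (fun v : ℝ => (e v : ℂ)) := Complex.measurable_ofReal.comp he
    have h2 : Continuous (fun v : ℝ => Complex.exp (-(s * v))) := by fun_prop
    exact (h1.mul h2.measurable).aestronglyMeasurable
  have hmeas' : ∀ s : ℂ, AEStronglyMeasurable
      (fun v : ℝ => (e v : ℂ) * (Complex.exp (-(s * v)) * (-(v : ℂ))))
      (volume.restrict (Set.Ioi 0)) := by
    intro s
    have h1 : Measurable (fun v : ℝ => (e v : ℂ)) := Complex.measurable_ofReal.comp he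
    have h2 : Continuous (fun v : ℝ => Complex.exp (-(s * v)) * (-(v : ℂ))) := by fun_prop
    exact (h1.mul h2.measurable).aestronglyMeasurable
  have key := hasDerivAt_integral_of_dominated_loc_of_deriv_le
    (μ := volume.restrict (Set.Ioi (0 : ℝ)))
    (F := fun (s : ℂ) (v : ℝ) => (e v : ℂ) * Complex.exp (-(s * v)))
    (F' := fun (s : ℂ) (v : ℝ) => (e v : ℂ) * (Complex.exp (-(s * v)) * (-(v : ℂ))))
    (x₀ := s0) (s := {s : ℂ | s0.re / 2 < s.re})
    (bound := fun v => ‖e v * Real.exp (-(s0.re / 4 * v))‖ * (4 / s0.re))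
    (ho.mem_nhds (by
      change s0.re / 2 < s0.re
      linarith))
    (Filter.Eventually.of_forall hmeas)
    (by
      refine Integrable.mono (h s0.re hs0') (hmeas s0) (Filter.Eventually.of_forall fun v => ?_)
      rw [norm_mul, norm_mul, hnorm, Complex.norm_real, Real.norm_eq_abs (Real.exp _), abs_of_pos
        (Real.exp_pos _)])
    (hmeas' s0)
    (by
      refine (ae_restrict_mem measurableSet_Ioi).mono fun v hv => ?_
      intro s hs
      have hv0 : 0 < v := hv
      have hs' : s0.re / 2 < s.re := hs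
      rw [norm_mul, norm_mul, norm_mul, hnorm, norm_neg, Complex.norm_real, Complex.norm_real,
        mul_assoc, Real.norm_eq_abs (Real.exp _), abs_of_pos (Real.exp_pos _),
        Real.norm_of_nonneg hv0.le]
      refine mul_le_mul_of_nonneg_left ?_ (norm_nonneg _)
      have h1 : Real.exp (-(s.re * v)) ≤
          Real.exp (-(s0.re / 4 * v)) * Real.exp (-(s0.re / 4 * v)) := by
        rw [← Real.exp_add]
        apply Real.exp_le_exp.2
        have := mul_lt_mul_of_pos_right hs' hv0
        linarith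
      have h2 : s0.re / 4 * v ≤ Real.exp (s0.re / 4 * v) := by
        have := Real.add_one_le_exp (s0.re / 4 * v)
        linarith
      have h3 : Real.exp (-(s0.re / 4 * v)) * Real.exp (s0.re / 4 * v) = 1 := by
        rw [← Real.exp_add, neg_add_cancel, Real.exp_zero]
      have h4 : v = 4 / s0.re * (s0.re / 4 * v) := by
        field_simp
      calc Real.exp (-(s.re * v)) * v
          ≤ (Real.exp (-(s0.re / 4 * v)) * Real.exp (-(s0.re / 4 * v))) * v := by gcongr
        _ = Real.exp (-(s0.re / 4 * v)) * (Real.exp (-(s0.re / 4 * v)) *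
              (s0.re / 4 * v)) * (4 / s0.re) := by
            field_simp
        _ ≤ Real.exp (-(s0.re / 4 * v)) * (Real.exp (-(s0.re / 4 * v)) *
              Real.exp (s0.re / 4 * v)) * (4 / s0.re) := by gcongr
        _ = Real.exp (-(s0.re / 4 * v)) * (4 / s0.re) := by rw [h3, mul_one])
    ((h (s0.re / 4) (by linarith)).norm.mul_const _)
    (Filter.Eventually.of_forall fun v s _ => by
      have h1 : HasDerivAt (fun s : ℂ => -(s * v)) (-(v : ℂ)) s := by
        have h2 := ((hasDerivAt_id s).mul_const (-(v : ℂ)))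
        rw [one_mul] at h2
        refine h2.congr_of_eventuallyEq (Filter.Eventually.of_forall fun z => ?_)
        show -(z * (v : ℂ)) = z * -(v : ℂ)
        ring
      exact (h1.cexp).const_mul _)
  exact key.2.differentiableAt.differentiableWithinAt

/-- If `er` is square integrable on `(b,∞)` then it is integrable against `e^{-σu}` on `(0,∞)` for every
`σ > 0`: on `(b,∞)` by Cauchy-Schwarz, `|e| e^{-σu} ≤ (e² + e^{-2σu})/2`; on `(0,b]` by
`er_int` (with `σ = 1`). -/
theorem er_int_of_sq (α : ℕ → ℂ) (hα : ∀ p : ℕ, p.Prime → p ≠ 2 → ‖α p‖ ^ 2 = p) (κ : ℝ)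
    (r : ℕ) (b : ℝ) (hb : 0 < b)
    (h : IntegrableOn (fun u : ℝ => (er α κ r u) ^ 2) (Set.Ioi b)) (σ : ℝ) (hσ : 0 < σ) :
    IntegrableOn (fun u : ℝ => er α κ r u * Real.exp (-(σ * u))) (Set.Ioi 0) := by
  have hm : Measurable (fun u : ℝ => er α κ r u * Real.exp (-(σ * u))) :=
    (er_meas α κ r).mul (by fun_prop)
  rw [← Set.Ioc_union_Ioi_eq_Ioi hb.le]
  refine IntegrableOn.union ?_ ?_
  · have h1 : IntegrableOn (fun u : ℝ => er α κ r u * Real.exp (-(1 * u))) (Set.Ioc 0 b) :=
      (er_int α hα κ r 1 (by norm_num)).mono_set Set.Ioc_subset_Ioi_self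
    have h2 : Integrable (fun u : ℝ => (er α κ r u * Real.exp (-(1 * u))) *
        Real.exp ((1 - σ) * u)) (volume.restrict (Set.Ioc 0 b)) := by
      refine Integrable.mul_bdd (c := Real.exp (|1 - σ| * b)) h1 ?_ ?_
      · have : Continuous (fun u : ℝ => Real.exp ((1 - σ) * u)) := by fun_prop
        exact this.aestronglyMeasurable
      · refine (ae_restrict_mem measurableSet_Ioc).mono fun u hu => ?_
        rw [Real.norm_of_nonneg (Real.exp_pos _).le]
        apply Real.exp_le_exp.2
        calc (1 - σ) * u ≤ |1 - σ| * u := mul_le_mul_of_nonneg_right (le_abs_self _) hu.1.le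
          _ ≤ |1 - σ| * b := mul_le_mul_of_nonneg_left hu.2 (abs_nonneg _)
    refine h2.congr (Filter.Eventually.of_forall fun u => ?_)
    beta_reduce
    rw [mul_assoc, ← Real.exp_add]
    congr 2
    ring
  · have h1 : Integrable (fun u : ℝ => (er α κ r u) ^ 2 + Real.exp (-(2 * σ) * u))
        (volume.restrict (Set.Ioi b)) :=
      h.add (integrableOn_exp_mul_Ioi (by linarith) b)
    refine Integrable.mono h1 hm.aestronglyMeasurable (Filter.Eventually.of_forall fun u => ?_)
    have h2 : Real.exp (-(2 * σ) * u) = Real.exp (-(σ * u)) ^ 2 := by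
      rw [← Real.exp_nat_mul]
      congr 1
      push_cast
      ring
    rw [h2, norm_mul, Real.norm_eq_abs (Real.exp _), abs_of_pos (Real.exp_pos _),
      Real.norm_eq_abs, Real.norm_of_nonneg (add_nonneg (sq_nonneg _) (sq_nonneg _)),
      ← sq_abs (er α κ r u)]
    nlinarith [sq_nonneg (|er α κ r u| - Real.exp (-(σ * u))), abs_nonneg (er α κ r u),
      Real.exp_pos (-(σ * u)), sq_nonneg (|er α κ r u|), sq_nonneg (Real.exp (-(σ * u)))]

/-- The converse: `Gt s = s ∫ er e^{-su} - r (γ + log s) + κ` is a holomorphic continuation of `GG`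
to `Re s > 0` (`lap_diff`, `er_transform`), so `logderF` gives `L(1+s) ≠ 0` there. -/
theorem l2_rh (α : ℕ → ℂ) (L W : ℂ → ℂ) (hD : DataF α L W) (κ : ℝ) (r : ℕ) (b : ℝ) (hb : 0 < b)
    (h : IntegrableOn (fun u : ℝ => (er α κ r u) ^ 2) (Set.Ioi b)) :
    ∀ s : ℂ, 0 < s.re → L (1 + s) ≠ 0 := by
  have hα := hD.norm_α
  have hlap := lap_diff (er α κ r) (er_meas α κ r)
    (fun σ hσ => er_int_of_sq α hα κ r b hb h σ hσ)
  have hG : DifferentiableOn ℂ (fun s : ℂ => s * (∫ v in Set.Ioi (0 : ℝ),
      (er α κ r v : ℂ) * Complex.exp (-(s * v))) -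
      r * ((Real.eulerMascheroniConstant : ℂ) + Complex.log s) + κ) {s : ℂ | 0 < s.re} := by
    refine ((differentiableOn_id.mul hlap).sub ?_).add_const _
    intro s hs
    exact (((Complex.differentiableAt_log (Or.inl hs)).const_add _).const_mul
      _).differentiableWithinAt
  obtain ⟨q, -, hq⟩ := logderF α L W hD _ hG (by
    intro s hs
    rw [er_transform α hα κ r s hs]
    ring)
  exact fun s hs => (hq s hs).1

end W3283g
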