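import Pool.Agent.W_MP_3283e1_h19.FinH

set_option autoImplicit false

namespace W3283g

open Complex W3283e1 W3283f MeasureTheory Filter Topology

/-- `log (P(e^u) / (C u^r))`, where `κ = log C`. -/
noncomputable def er (α : ℕ → ℂ) (κ : ℝ) (r : ℕ) (u : ℝ) : ℝ :=
  AA α (Real.exp u) - κ - r * Real.log u

/-- `AA_meas`. -/
theorem er_meas (α : ℕ → ℂ) (κ : ℝ) (r : ℕ) : Measurable (er α κ r) :=
  (((AA_meas α).comp Real.measurable_exp).sub_const κ).sub (Real.measurable_log.const_mul _)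

/-- the dominating function -/
noncomputable def Er_D (b u : ℝ) : ℝ :=
  (1 + u ^ (2 : ℝ) + u ^ (-(1 / 2) : ℝ)) * Real.exp (-(b * u))

theorem Er_D_int (b : ℝ) (hb : 0 < b) : IntegrableOn (Er_D b) (Set.Ioi 0) := by
  have h : ∀ s : ℝ, -1 < s → IntegrableOn (fun x : ℝ => x ^ s * Real.exp (-(b * x))) (Set.Ioi 0) := by
    intro s hs
    refine (integrableOn_rpow_mul_exp_neg_mul_rpow hs one_pos hb).congr_fun (fun x _ => ?_)
      measurableSet_Ioi
    show x ^ s * Real.exp (-b * x ^ (1 : ℝ)) = x ^ s * Real.exp (-(b * x))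
    rw [Real.rpow_one, neg_mul]
  have h0 := h 0 (by norm_num)
  have h2 := h 2 (by norm_num)
  have h3 := h (-(1 / 2)) (by norm_num)
  refine ((h0.add h2).add h3).congr_fun (fun x _ => ?_) measurableSet_Ioi
  unfold Er_D
  rw [Pi.add_apply, Pi.add_apply, Real.rpow_zero]
  ring

theorem Er_log (u : ℝ) (hu : 0 < u) :
    |Real.log u| ≤ 2 * (1 + u ^ (2 : ℝ) + u ^ (-(1 / 2) : ℝ)) := by
  have h1 : 0 ≤ u ^ (-(1 / 2) : ℝ) := Real.rpow_nonneg hu.le _
  have h2 : u ^ (2 : ℝ) = u ^ 2 := by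
    rw [show (2 : ℝ) = ((2 : ℕ) : ℝ) by norm_num, Real.rpow_natCast]
  rw [h2]
  rw [abs_le]
  constructor
  · have h3 := Real.log_le_sub_one_of_pos (Real.rpow_pos_of_pos hu (-(1 / 2) : ℝ))
    rw [Real.log_rpow hu] at h3
    nlinarith [sq_nonneg u]
  · have h3 := Real.log_le_sub_one_of_pos hu
    nlinarith [sq_nonneg (u - 1)]

theorem Er_ulog (u : ℝ) (hu : 0 < u) :
    |u * Real.log u| ≤ 2 * (1 + u ^ (2 : ℝ) + u ^ (-(1 / 2) : ℝ)) := by
  have h1 : 0 ≤ u ^ (-(1 / 2) : ℝ) := Real.rpow_nonneg hu.le _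
  have h2 : u ^ (2 : ℝ) = u ^ 2 := by
    rw [show (2 : ℝ) = ((2 : ℕ) : ℝ) by norm_num, Real.rpow_natCast]
  rw [h2, abs_le]
  constructor
  · have h3 := Real.log_le_sub_one_of_pos (inv_pos.2 hu)
    rw [Real.log_inv] at h3
    have h4 := mul_le_mul_of_nonneg_left h3 hu.le
    have h5 : u * (u⁻¹ - 1) = 1 - u := by
      field_simp
    rw [h5] at h4
    nlinarith [sq_nonneg u]
  · have h3 := Real.log_le_sub_one_of_pos hu
    have h4 := mul_le_mul_of_nonneg_left h3 hu.le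
    nlinarith [sq_nonneg (u - 1)]

theorem Er_norm_exp (s : ℂ) (u : ℝ) : ‖Complex.exp (-(s * u))‖ = Real.exp (-(s.re * u)) := by
  rw [Complex.norm_exp]
  congr 1
  simp

theorem Er_meas1 (s : ℂ) : Measurable
    (fun u : ℝ => (Real.log u : ℂ) * Complex.exp (-(s * u))) := by
  have h1 : Measurable fun u : ℝ => (Real.log u : ℂ) :=
    Complex.measurable_ofReal.comp Real.measurable_log
  have h2 : Measurable fun u : ℝ => Complex.exp (-(s * u)) := by
    have : Continuous fun u : ℝ => Complex.exp (-(s * u)) := by fun_prop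
    exact this.measurable
  exact h1.mul h2

theorem Er_meas2 (s : ℂ) : Measurable
    (fun u : ℝ => -(u : ℂ) * ((Real.log u : ℂ) * Complex.exp (-(s * u)))) := by
  have h1 : Measurable fun u : ℝ => -(u : ℂ) := by
    have : Continuous fun u : ℝ => -(u : ℂ) := by fun_prop
    exact this.measurable
  exact h1.mul (Er_meas1 s)

theorem Er_int1 (s : ℂ) (hs : 0 < s.re) :
    IntegrableOn (fun u : ℝ => (Real.log u : ℂ) * Complex.exp (-(s * u))) (Set.Ioi 0) := by
  refine Integrable.mono' ((Er_D_int s.re hs).const_mul 2) (Er_meas1 s).aestronglyMeasurable ?_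
  refine (ae_restrict_iff' measurableSet_Ioi).2 (Eventually.of_forall fun u hu => ?_)
  have hu' : 0 < u := hu
  rw [norm_mul, Er_norm_exp, Complex.norm_real, Real.norm_eq_abs]
  unfold Er_D
  rw [← mul_assoc]
  exact mul_le_mul_of_nonneg_right (Er_log u hu') (Real.exp_pos _).le

theorem Er_bound2 (s : ℂ) (b u : ℝ) (hu : 0 < u) (hb : b ≤ s.re) :
    ‖-(u : ℂ) * ((Real.log u : ℂ) * Complex.exp (-(s * u)))‖ ≤ 2 * Er_D b u := by
  rw [norm_mul, norm_mul, norm_neg, Er_norm_exp, Complex.norm_real, Complex.norm_real,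
    Real.norm_eq_abs, Real.norm_eq_abs, ← mul_assoc, ← abs_mul]
  unfold Er_D
  rw [← mul_assoc]
  refine mul_le_mul (Er_ulog u hu) ?_ (Real.exp_pos _).le ?_
  · refine Real.exp_le_exp.2 (neg_le_neg ?_)
    exact mul_le_mul_of_nonneg_right hb hu.le
  · exact (abs_nonneg _).trans (Er_ulog u hu)

theorem Er_int2 (s : ℂ) (hs : 0 < s.re) :
    IntegrableOn (fun u : ℝ => -(u : ℂ) * ((Real.log u : ℂ) * Complex.exp (-(s * u))))
      (Set.Ioi 0) := by
  refine Integrable.mono' ((Er_D_int s.re hs).const_mul 2) (Er_meas2 s).aestronglyMeasurable ?_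
  refine (ae_restrict_iff' measurableSet_Ioi).2 (Eventually.of_forall fun u hu => ?_)
  exact Er_bound2 s s.re u hu le_rfl

theorem Er_deriv (s : ℂ) (hs : 0 < s.re) :
    HasDerivAt (fun s : ℂ => ∫ u in Set.Ioi (0 : ℝ), (Real.log u : ℂ) * Complex.exp (-(s * u)))
      (∫ u in Set.Ioi (0 : ℝ), -(u : ℂ) * ((Real.log u : ℂ) * Complex.exp (-(s * u)))) s := by
  have hb : 0 < s.re / 2 := by linarith
  have hnhds : {z : ℂ | s.re / 2 < z.re} ∈ 𝓝 s :=
    (isOpen_lt continuous_const Complex.continuous_re).mem_nhds (by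
      show s.re / 2 < s.re
      linarith)
  refine (hasDerivAt_integral_of_dominated_loc_of_deriv_le
    (F := fun (z : ℂ) (u : ℝ) => (Real.log u : ℂ) * Complex.exp (-(z * u)))
    (F' := fun (z : ℂ) (u : ℝ) => -(u : ℂ) * ((Real.log u : ℂ) * Complex.exp (-(z * u))))
    (bound := fun u => 2 * Er_D (s.re / 2) u) hnhds
    (Eventually.of_forall fun z => (Er_meas1 z).aestronglyMeasurable) (Er_int1 s hs)
    (Er_meas2 s).aestronglyMeasurable ?_ ((Er_D_int _ hb).const_mul 2) ?_).2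
  · refine (ae_restrict_iff' measurableSet_Ioi).2 (Eventually.of_forall fun u hu z hz => ?_)
    exact Er_bound2 z _ u hu (le_of_lt hz)
  · refine Eventually.of_forall fun u z _ => ?_
    have h1 : HasDerivAt (fun z : ℂ => -(z * (u : ℂ))) (-(u : ℂ)) z := by
      have h0 := ((hasDerivAt_id z).mul_const (u : ℂ)).neg
      rw [one_mul] at h0
      exact h0
    have h2 := (h1.cexp).const_mul (Real.log u : ℂ)
    refine h2.congr_deriv ?_
    ring

theorem Er_exp (s : ℂ) (hs : 0 < s.re) :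
    IntegrableOn (fun u : ℝ => Complex.exp (-(s * u))) (Set.Ioi 0) ∧
      ∫ u in Set.Ioi (0 : ℝ), Complex.exp (-(s * u)) = 1 / s := by
  have h1 : (-s).re < 0 := by
    rw [Complex.neg_re]
    linarith
  have h2 := integrableOn_exp_mul_complex_Ioi h1 0
  have h3 := integral_exp_mul_complex_Ioi h1 0
  have e : ∀ u : ℝ, Complex.exp (-s * u) = Complex.exp (-(s * u)) := fun u => by rw [neg_mul]
  simp only [e] at h2 h3
  refine ⟨h2, ?_⟩
  rw [h3]
  simp

theorem Er_tendsto (s : ℂ) (hs : 0 < s.re) : Tendsto (fun u : ℝ =>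
    ((u * Real.log u : ℝ) : ℂ) * Complex.exp (-(s * u))) atTop (𝓝 0) := by
  rw [tendsto_zero_iff_norm_tendsto_zero]
  have h1 : Tendsto (fun u : ℝ => u ^ (2 : ℝ) * Real.exp (-s.re * u)) atTop (𝓝 0) :=
    tendsto_rpow_mul_exp_neg_mul_atTop_nhds_zero 2 s.re hs
  refine squeeze_zero' (Eventually.of_forall fun u => norm_nonneg _) ?_ h1
  filter_upwards [eventually_ge_atTop (1 : ℝ)] with u hu
  have h2 : u ^ (2 : ℝ) = u ^ 2 := by
    rw [show (2 : ℝ) = ((2 : ℕ) : ℝ) by norm_num, Real.rpow_natCast]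
  rw [norm_mul, Er_norm_exp, Complex.norm_real, Real.norm_eq_abs, h2, neg_mul]
  refine mul_le_mul_of_nonneg_right ?_ (Real.exp_pos _).le
  have h3 := Real.log_le_sub_one_of_pos (show 0 < u by linarith)
  have h4 := Real.log_nonneg hu
  rw [abs_of_nonneg (by positivity)]
  nlinarith

theorem Er_ibp (s : ℂ) (hs : 0 < s.re) :
    (∫ u in Set.Ioi (0 : ℝ), (Real.log u : ℂ) * Complex.exp (-(s * u))) + 1 / s +
      s * (∫ u in Set.Ioi (0 : ℝ), -(u : ℂ) * ((Real.log u : ℂ) * Complex.exp (-(s * u)))) = 0 := by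
  have hi1 := Er_int1 s hs
  have hi2 := (Er_int2 s hs).const_mul s
  have hi3 := (Er_exp s hs).1
  have key := integral_Ioi_of_hasDerivAt_of_tendsto (a := 0) (m := (0 : ℂ))
    (f := fun u : ℝ => ((u * Real.log u : ℝ) : ℂ) * Complex.exp (-(s * u)))
    (f' := fun u : ℝ => (Real.log u : ℂ) * Complex.exp (-(s * u)) + Complex.exp (-(s * u)) +
      s * (-(u : ℂ) * ((Real.log u : ℂ) * Complex.exp (-(s * u))))) ?_ ?_ ?_ (Er_tendsto s hs)
  · have h2 : ∫ u in Set.Ioi (0 : ℝ), ((Real.log u : ℂ) * Complex.exp (-(s * u)) +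
        Complex.exp (-(s * u)) + s * (-(u : ℂ) * ((Real.log u : ℂ) * Complex.exp (-(s * u))))) =
        (∫ u in Set.Ioi (0 : ℝ), (Real.log u : ℂ) * Complex.exp (-(s * u))) +
        (∫ u in Set.Ioi (0 : ℝ), Complex.exp (-(s * u))) +
        s * ∫ u in Set.Ioi (0 : ℝ), -(u : ℂ) * ((Real.log u : ℂ) * Complex.exp (-(s * u))) := by
      rw [← integral_const_mul, ← integral_add hi1 hi3]
      exact integral_add (hi1.add hi3) hi2
    rw [h2, (Er_exp s hs).2] at key
    rw [key]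
    simp
  · refine Continuous.continuousWithinAt ?_
    exact (Complex.continuous_ofReal.comp Real.continuous_mul_log).mul (by fun_prop)
  · intro u hu
    have hu' : 0 < u := hu
    have h1 : HasDerivAt (fun u : ℝ => ((u * Real.log u : ℝ) : ℂ)) ((Real.log u + 1 : ℝ) : ℂ) u :=
      (Real.hasDerivAt_mul_log hu'.ne').ofReal_comp
    have h2 : HasDerivAt (fun u : ℝ => Complex.exp (-(s * (u : ℂ))))
        (Complex.exp (-(s * (u : ℂ))) * -s) u := by
      have h3 : HasDerivAt (fun u : ℝ => -(s * (u : ℂ))) (-s) u := by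
        have h4 : HasDerivAt (fun u : ℝ => (u : ℂ)) 1 u := Complex.ofRealCLM.hasDerivAt
        have h5 := (h4.const_mul s).neg
        rw [mul_one] at h5
        exact h5
      exact h3.cexp
    refine (h1.mul h2).congr_deriv ?_
    push_cast
    ring
  · exact (hi1.add hi3).add hi2

theorem Er_one : ∫ u in Set.Ioi (0 : ℝ), (Real.log u : ℂ) * Complex.exp (-(1 * u)) =
    -(Real.eulerMascheroniConstant : ℂ) := by
  have h1 : ∫ u in Set.Ioi (0 : ℝ), (Real.log u : ℂ) * Complex.exp (-(1 * u)) =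
      ∫ u in Set.Ioi (0 : ℝ), ((Real.exp (-u) * Real.log u : ℝ) : ℂ) := by
    refine setIntegral_congr_fun measurableSet_Ioi fun u _ => ?_
    push_cast
    rw [one_mul, mul_comm]
  have h3 : ∫ t in Set.Ioi (0 : ℝ), ((Real.exp (-t) * Real.log t : ℝ) : ℂ) =
      ((∫ t in Set.Ioi (0 : ℝ), Real.exp (-t) * Real.log t : ℝ) : ℂ) := integral_ofReal
  rw [h1, h3, gamF_val]
  push_cast
  rfl

/-- `∫_0^∞ log u e^{-su} du = -(γ + log s)/s` for `Re s > 0`.  For real `s = σ > 0` substitute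
`v = σ u` in `gamF_val` (`∫ e^{-v} log v = -γ`) and use `∫ e^{-v} = 1`.  Both sides are holomorphic
on `Re s > 0` (differentiate under the integral, or split `log u` into its parts on `(0,1)` and
`(1,∞)`), so they agree by the identity theorem. -/
theorem lap_log (s : ℂ) (hs : 0 < s.re) :
    IntegrableOn (fun u : ℝ => (Real.log u : ℂ) * Complex.exp (-(s * u))) (Set.Ioi 0) ∧
      ∫ u in Set.Ioi (0 : ℝ), (Real.log u : ℂ) * Complex.exp (-(s * u)) =
        -((Real.eulerMascheroniConstant : ℂ) + Complex.log s) / s := by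
  refine ⟨Er_int1 s hs, ?_⟩
  have hopen : IsOpen {z : ℂ | 0 < z.re} := isOpen_lt continuous_const Complex.continuous_re
  have hconv : IsPreconnected {z : ℂ | 0 < z.re} :=
    (convex_halfSpace_re_gt 0).isPreconnected
  have hd : ∀ z : ℂ, 0 < z.re → HasDerivAt (fun z : ℂ =>
      z * (∫ u in Set.Ioi (0 : ℝ), (Real.log u : ℂ) * Complex.exp (-(z * u))) + Complex.log z)
      0 z := by
    intro z hz
    have h1 := (hasDerivAt_id z).mul (Er_deriv z hz)
    have hz' : z ∈ Complex.slitPlane := Or.inl hz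
    have h2 := h1.add (Complex.hasDerivAt_log hz')
    refine h2.congr_deriv ?_
    have h3 := Er_ibp z hz
    rw [one_div] at h3
    rw [one_mul]
    simp only [id_eq]
    rw [← h3]
    ring
  have hconst := hopen.is_const_of_deriv_eq_zero hconv
    (fun z hz => (hd z hz).differentiableAt.differentiableWithinAt)
    (fun z hz => (hd z hz).deriv) hs (show (1 : ℂ) ∈ {z : ℂ | 0 < z.re} by simp)
  rw [Er_one, Complex.log_one, one_mul, add_zero] at hconst
  have hs0 : s ≠ 0 := by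
    rintro rfl
    simp at hs
  rw [eq_div_iff hs0]
  linear_combination hconst

theorem Er_AA_bound (α : ℕ → ℂ) (hα : ∀ p : ℕ, p.Prime → p ≠ 2 → ‖α p‖ ^ 2 = p) (u : ℝ) :
    |AA α (Real.exp u)| ≤ 14 * Real.exp (u / 2) := by
  rw [Real.exp_half]
  exact abs_AA_le α hα _ (Real.exp_pos u).le

theorem Er_AA_int (α : ℕ → ℂ) (hα : ∀ p : ℕ, p.Prime → p ≠ 2 → ‖α p‖ ^ 2 = p) (s : ℂ)
    (hs : 1 / 2 < s.re) : IntegrableOn
      (fun u : ℝ => (AA α (Real.exp u) : ℂ) * Complex.exp (-(s * u))) (Set.Ioi 0) := by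
  have h1 : IntegrableOn (fun u : ℝ => 14 * Real.exp (-(s.re - 1 / 2) * u)) (Set.Ioi 0) :=
    (exp_neg_integrableOn_Ioi 0 (by linarith)).const_mul 14
  refine Integrable.mono' h1 ?_ ?_
  · have h2 : Measurable fun u : ℝ => (AA α (Real.exp u) : ℂ) :=
      Complex.measurable_ofReal.comp ((AA_meas α).comp Real.measurable_exp)
    have h3 : Measurable fun u : ℝ => Complex.exp (-(s * u)) := by
      have : Continuous fun u : ℝ => Complex.exp (-(s * u)) := by fun_prop
      exact this.measurable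
    exact (h2.mul h3).aestronglyMeasurable
  · refine Eventually.of_forall fun u => ?_
    rw [norm_mul, Er_norm_exp, Complex.norm_real, Real.norm_eq_abs]
    calc |AA α (Real.exp u)| * Real.exp (-(s.re * u))
        ≤ 14 * Real.exp (u / 2) * Real.exp (-(s.re * u)) :=
          mul_le_mul_of_nonneg_right (Er_AA_bound α hα u) (Real.exp_pos _).le
      _ = 14 * Real.exp (-(s.re - 1 / 2) * u) := by
          rw [mul_assoc, ← Real.exp_add]
          congr 2
          ring

theorem Er_int (α : ℕ → ℂ) (hα : ∀ p : ℕ, p.Prime → p ≠ 2 → ‖α p‖ ^ 2 = p) (κ : ℝ) (r : ℕ)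
    (s : ℂ) (hs : 1 / 2 < s.re) :
    (fun u : ℝ => (er α κ r u : ℂ) * Complex.exp (-(s * u))) =
      fun u : ℝ => (AA α (Real.exp u) : ℂ) * Complex.exp (-(s * u)) -
        (κ : ℂ) * Complex.exp (-(s * u)) -
          (r : ℂ) * ((Real.log u : ℂ) * Complex.exp (-(s * u))) := by
  funext u
  unfold er
  push_cast
  ring

/-- `|AA (e^u)| ≤ 14 e^{u/2}` (`abs_AA_le`), and `log u` is integrable against `e^{-σu}` on `(0,∞)`
(near `0` by `intervalIntegral.intervalIntegrable_log'` or `|log u| ≤ 2 u^{-1/2}`; for `u ≥ 1`,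
`0 ≤ log u ≤ u`). -/
theorem er_int (α : ℕ → ℂ) (hα : ∀ p : ℕ, p.Prime → p ≠ 2 → ‖α p‖ ^ 2 = p) (κ : ℝ) (r : ℕ)
    (σ : ℝ) (hσ : 1 / 2 < σ) :
    IntegrableOn (fun u : ℝ => er α κ r u * Real.exp (-(σ * u))) (Set.Ioi 0) := by
  have hσ' : 1 / 2 < (σ : ℂ).re := by simpa using hσ
  have hσ0 : 0 < (σ : ℂ).re := by linarith
  have h1 : IntegrableOn (fun u : ℝ => (er α κ r u : ℂ) * Complex.exp (-((σ : ℂ) * u)))
      (Set.Ioi 0) := by
    rw [Er_int α hα κ r σ hσ']
    exact ((Er_AA_int α hα σ hσ').sub ((Er_exp σ hσ0).1.const_mul _)).sub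
      ((lap_log σ hσ0).1.const_mul _)
  have h2 := Integrable.re h1
  refine h2.congr (Eventually.of_forall fun u => ?_)
  have h3 : (er α κ r u : ℂ) * Complex.exp (-((σ : ℂ) * u)) =
      ((er α κ r u * Real.exp (-(σ * u)) : ℝ) : ℂ) := by
    push_cast
    rfl
  dsimp only
  rw [h3]
  exact Complex.ofReal_re _

theorem Er_subst (α : ℕ → ℂ) (s : ℂ) :
    ∫ u in Set.Ioi (0 : ℝ), (AA α (Real.exp u) : ℂ) * Complex.exp (-(s * u)) =
      ∫ t in Set.Ioi (1 : ℝ), (AA α t : ℂ) * (t : ℂ) ^ (-(s + 1)) := by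
  have himg : Real.exp '' Set.Ioi (0 : ℝ) = Set.Ioi 1 := by
    ext t
    constructor
    · rintro ⟨u, hu, rfl⟩
      exact Real.one_lt_exp_iff.2 hu
    · intro ht
      have ht' : 1 < t := ht
      exact ⟨Real.log t, Real.log_pos ht', Real.exp_log (by linarith)⟩
  have h1 := integral_image_eq_integral_abs_deriv_smul (s := Set.Ioi (0 : ℝ)) measurableSet_Ioi
    (fun u _ => (Real.hasDerivAt_exp u).hasDerivWithinAt) Real.exp_injective.injOn
    (fun t : ℝ => (AA α t : ℂ) * (t : ℂ) ^ (-(s + 1)))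
  rw [himg] at h1
  rw [h1]
  refine setIntegral_congr_fun measurableSet_Ioi fun u _ => ?_
  rw [abs_of_pos (Real.exp_pos u), Complex.real_smul, Complex.ofReal_exp]
  have h2 : Complex.exp (u : ℂ) ^ (-(s + 1)) = Complex.exp ((u : ℂ) * (-(s + 1))) := by
    rw [← Complex.ofReal_exp, Complex.cpow_def_of_ne_zero (by
      rw [Complex.ofReal_exp]
      exact Complex.exp_ne_zero _), ← Complex.ofReal_log (Real.exp_pos u).le, Real.log_exp]
  rw [h2]
  have h3 : Complex.exp (-(s * u)) = Complex.exp (u : ℂ) * Complex.exp ((u : ℂ) * (-(s + 1))) := by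
    rw [← Complex.exp_add]
    congr 1
    ring
  rw [h3]
  ring

/-- `GG_int` with the substitution `t = e^u` (`MeasureTheory.integral_comp_...` for `exp` on `(0,∞)`),
`lap_log` and `∫_0^∞ e^{-su} du = 1/s`. -/
theorem er_transform (α : ℕ → ℂ) (hα : ∀ p : ℕ, p.Prime → p ≠ 2 → ‖α p‖ ^ 2 = p) (κ : ℝ) (r : ℕ)
    (s : ℂ) (hs : 1 / 2 < s.re) :
    s * ∫ u in Set.Ioi (0 : ℝ), (er α κ r u : ℂ) * Complex.exp (-(s * u)) =
      GG α s + r * ((Real.eulerMascheroniConstant : ℂ) + Complex.log s) - κ := by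
  have hs0 : 0 < s.re := by linarith
  have hsne : s ≠ 0 := by
    rintro rfl
    simp at hs0
  have i1 := Er_AA_int α hα s hs
  have i2 := (Er_exp s hs0).1.const_mul (κ : ℂ)
  have i3 := (lap_log s hs0).1.const_mul (r : ℂ)
  have h1 : ∫ u in Set.Ioi (0 : ℝ), (er α κ r u : ℂ) * Complex.exp (-(s * u)) =
      (∫ u in Set.Ioi (0 : ℝ), (AA α (Real.exp u) : ℂ) * Complex.exp (-(s * u))) -
        (κ : ℂ) * (1 / s) -
          (r : ℂ) * (-((Real.eulerMascheroniConstant : ℂ) + Complex.log s) / s) := by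
    rw [← (lap_log s hs0).2, ← (Er_exp s hs0).2, ← integral_const_mul, ← integral_const_mul,
      ← integral_sub i1 i2, Er_int α hα κ r s hs]
    exact integral_sub (i1.sub i2) i3
  rw [h1, Er_subst, GG_int α hα s hs]
  field_simp
  ring

/-- `AA α (e^u)` is locally constant in `u` away from the logarithms of natural numbers. -/
theorem er_cont (α : ℕ → ℂ) (κ : ℝ) (r : ℕ) :
    ∀ᵐ u ∂(volume.restrict (Set.Ioi (0 : ℝ))), ContinuousAt (er α κ r) u := by
  have h1 : ∀ᵐ u : ℝ, u ∉ Set.range (fun n : ℕ => Real.log (n : ℝ)) :=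
    (Set.countable_range _).ae_notMem volume
  rw [ae_restrict_iff' measurableSet_Ioi]
  filter_upwards [h1] with u hu hu0
  have hu0' : 0 < u := hu0
  have hne : ∀ n : ℕ, (n : ℝ) ≠ Real.exp u := by
    intro n hn
    exact hu ⟨n, by dsimp only; rw [hn, Real.log_exp]⟩
  have hfl : (⌊Real.exp u⌋₊ : ℝ) < Real.exp u :=
    lt_of_le_of_ne (Nat.floor_le (Real.exp_pos u).le) (hne _)
  have hfl2 : Real.exp u < ⌊Real.exp u⌋₊ + 1 := Nat.lt_floor_add_one _
  have hAA : ContinuousAt (AA α) (Real.exp u) := by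
    have hnh : Set.Ioo (⌊Real.exp u⌋₊ : ℝ) (⌊Real.exp u⌋₊ + 1) ∈ 𝓝 (Real.exp u) :=
      Ioo_mem_nhds hfl hfl2
    have h2 : (fun _ : ℝ => AA α (Real.exp u)) =ᶠ[𝓝 (Real.exp u)] AA α := by
      filter_upwards [hnh] with y hy
      have h3 : ⌊y⌋₊ = ⌊Real.exp u⌋₊ := by
        rw [Nat.floor_eq_iff ((Nat.cast_nonneg _).trans hy.1.le)]
        exact ⟨hy.1.le, hy.2⟩
      unfold AA
      rw [h3]
    exact continuousAt_const.congr h2
  have h4 : ContinuousAt (fun u => AA α (Real.exp u)) u :=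
    ContinuousAt.comp (f := Real.exp) (g := AA α) hAA Real.continuous_exp.continuousAt
  exact (h4.sub continuousAt_const).sub
    (continuousAt_const.mul (Real.continuousAt_log hu0'.ne'))

/-- Jumps: for `0 < u ≤ v`, `er` is bounded on compact subsets of `(0,∞)`:
`|er u| ≤ 14 e^{b/2} + |κ| + r (|log a| + |log b|)` for `a ≤ u ≤ b`, `0 < a`. -/
theorem er_loc (α : ℕ → ℂ) (hα : ∀ p : ℕ, p.Prime → p ≠ 2 → ‖α p‖ ^ 2 = p) (κ : ℝ) (r : ℕ)
    (a b : ℝ) (ha : 0 < a) (u : ℝ) (hu : u ∈ Set.Icc a b) :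
    |er α κ r u| ≤ 14 * Real.exp (b / 2) + |κ| + r * (|Real.log a| + |Real.log b|) := by
  have hu0 : 0 < u := lt_of_lt_of_le ha hu.1
  have h1 := Er_AA_bound α hα u
  have h2 : Real.exp (u / 2) ≤ Real.exp (b / 2) := Real.exp_le_exp.2 (by linarith [hu.2])
  have h3 : |Real.log u| ≤ |Real.log a| + |Real.log b| := by
    have h4 := Real.log_le_log ha hu.1
    have h5 := Real.log_le_log hu0 hu.2
    have h6 := neg_abs_le (Real.log a)
    have h7 := le_abs_self (Real.log b)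
    have h8 := abs_nonneg (Real.log a)
    have h9 := abs_nonneg (Real.log b)
    rw [abs_le]
    constructor <;> linarith
  have h4 : |(r : ℝ) * Real.log u| ≤ r * (|Real.log a| + |Real.log b|) := by
    rw [abs_mul, abs_of_nonneg (Nat.cast_nonneg r)]
    exact mul_le_mul_of_nonneg_left h3 (Nat.cast_nonneg r)
  unfold er
  have h5 := abs_sub (AA α (Real.exp u) - κ) ((r : ℝ) * Real.log u)
  have h6 := abs_sub (AA α (Real.exp u)) κ
  linarith

end W3283g
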