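import Mathlib

set_option autoImplicit false

namespace W3283g

open Complex MeasureTheory Filter Topology

/-- The Gaussian integral along a vertical line: with `w = u - v`, the exponent is
`σ w + ε σ²/2 - ε t²/2 + i t (w + ε σ)`, and `∫ exp (-ε t²/2 + i b t) dt = √(2π/ε) exp (-b²/(2ε))`. -/
theorem gauss_kernel (ε : ℝ) (hε : 0 < ε) (σ w : ℝ) :
    Integrable (fun t : ℝ =>
      Complex.exp (((σ : ℂ) + t * I) * w + ε * ((σ : ℂ) + t * I) ^ 2 / 2)) ∧
    ∫ t : ℝ, Complex.exp (((σ : ℂ) + t * I) * w + ε * ((σ : ℂ) + t * I) ^ 2 / 2) =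
      ((Real.sqrt (2 * Real.pi / ε) * Real.exp (-(w ^ 2) / (2 * ε)) : ℝ) : ℂ) := by
  have hεc : (ε : ℂ) ≠ 0 := ofReal_ne_zero.2 hε.ne'
  have hb : (-((ε : ℂ) / 2)).re < 0 := by
    have : (-((ε : ℂ) / 2)) = ((-(ε / 2) : ℝ) : ℂ) := by push_cast; ring
    rw [this, ofReal_re]
    linarith
  have h1 : (fun t : ℝ => Complex.exp (((σ : ℂ) + t * I) * w + ε * ((σ : ℂ) + t * I) ^ 2 / 2)) =
      (fun t : ℝ => Complex.exp (-((ε : ℂ) / 2) * t ^ 2 + (I * (w + ε * σ)) * t +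
        (σ * w + ε * σ ^ 2 / 2))) := by
    funext t
    congr 1
    linear_combination ((ε : ℂ) * t ^ 2 / 2) * I_sq
  rw [h1]
  refine ⟨integrable_cexp_quadratic' hb _ _, ?_⟩
  rw [integral_cexp_quadratic hb]
  have h2 : (Real.pi : ℂ) / -(-((ε : ℂ) / 2)) = ((2 * Real.pi / ε : ℝ) : ℂ) := by
    push_cast
    field_simp
  have h3 : (σ : ℂ) * w + ε * σ ^ 2 / 2 - (I * (w + ε * σ)) ^ 2 / (4 * (-((ε : ℂ) / 2))) =
      ((-(w ^ 2) / (2 * ε) : ℝ) : ℂ) := by
    rw [mul_pow, I_sq]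
    push_cast
    field_simp
    ring
  have h4 : ((2 * Real.pi / ε : ℝ) : ℂ) ^ (1 / 2 : ℂ) = ((Real.sqrt (2 * Real.pi / ε) : ℝ) : ℂ) := by
    rw [Real.sqrt_eq_rpow, Complex.ofReal_cpow (by positivity)]
    norm_num
  rw [h2, h3, h4, ofReal_mul, ofReal_exp]

theorem GauRep_bd (ε : ℝ) (hε : 0 < ε) (σ u v : ℝ) :
    Real.exp (σ * v) * Real.exp (-(v - u) ^ 2 / (2 * ε)) ≤ Real.exp (σ * u + ε * σ ^ 2 / 2) := by
  rw [← Real.exp_add]
  apply Real.exp_le_exp.2
  have h1 : 0 ≤ ((v - u) - ε * σ) ^ 2 / (2 * ε) := by positivity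
  have h2 : ((v - u) - ε * σ) ^ 2 / (2 * ε) =
      (v - u) ^ 2 / (2 * ε) - (v - u) * σ + ε * σ ^ 2 / 2 := by
    field_simp
    ring
  rw [neg_div]
  linarith

theorem GauRep_int (e : ℝ → ℝ) (σ : ℝ)
    (hint : IntegrableOn (fun v : ℝ => e v * Real.exp (-(σ * v))) (Set.Ioi 0)) (ε : ℝ)
    (hε : 0 < ε) (u : ℝ) :
    Integrable (fun z : ℝ × ℝ => ((e z.2 : ℂ) * Complex.exp (-(((σ : ℂ) + z.1 * I) * z.2))) *
        Complex.exp (((σ : ℂ) + z.1 * I) * u + ε * ((σ : ℂ) + z.1 * I) ^ 2 / 2))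
      (volume.prod (volume.restrict (Set.Ioi 0))) := by
  have h1 := (gauss_kernel ε hε σ u).1
  have h2 : Integrable (fun v : ℝ => ((e v * Real.exp (-(σ * v)) : ℝ) : ℂ))
      (volume.restrict (Set.Ioi 0)) := hint.ofReal
  have h3 := h1.mul_prod h2
  have h4 : Continuous (fun z : ℝ × ℝ => Complex.exp (-((z.1 * z.2 : ℝ) : ℂ) * I)) := by
    fun_prop
  have h5 := h3.bdd_mul (c := 1) (f := fun z : ℝ × ℝ => Complex.exp (-((z.1 * z.2 : ℝ) : ℂ) * I))
    h4.aestronglyMeasurable (by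
      refine Filter.Eventually.of_forall fun z => ?_
      have : (-((z.1 * z.2 : ℝ) : ℂ) * I) = (((-(z.1 * z.2) : ℝ)) : ℂ) * I := by push_cast; ring
      rw [this, Complex.norm_exp_ofReal_mul_I])
  refine h5.congr (Filter.Eventually.of_forall fun z => ?_)
  beta_reduce
  have h6 : Complex.exp (-(((σ : ℂ) + z.1 * I) * z.2)) =
      Complex.exp (-((z.1 * z.2 : ℝ) : ℂ) * I) * ((Real.exp (-(σ * z.2)) : ℝ) : ℂ) := by
    rw [ofReal_exp, ← Complex.exp_add]
    congr 1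
    push_cast
    ring
  have h7 : ((e z.2 * Real.exp (-(σ * z.2)) : ℝ) : ℂ) =
      (e z.2 : ℂ) * ((Real.exp (-(σ * z.2)) : ℝ) : ℂ) := ofReal_mul _ _
  rw [h6, h7]
  ring

/-- Gaussian means as integrals of the Laplace transform: multiply `gauss_kernel` with `w = u - v` by
`e v` and integrate over `v > 0`; Fubini, since
`|e v| ‖exp (...)‖ = |e v| exp (σ (u - v) + ε (σ² - t²)/2)` is integrable over `(0,∞) × ℝ`. -/
theorem gauss_rep (e : ℝ → ℝ) (he : Measurable e) (σ : ℝ)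
    (hint : IntegrableOn (fun v : ℝ => e v * Real.exp (-(σ * v))) (Set.Ioi 0)) (ε : ℝ)
    (hε : 0 < ε) (u : ℝ) :
    IntegrableOn (fun v : ℝ => e v * Real.exp (-(v - u) ^ 2 / (2 * ε))) (Set.Ioi 0) ∧
    Integrable (fun t : ℝ =>
      (∫ v in Set.Ioi (0 : ℝ), (e v : ℂ) * Complex.exp (-(((σ : ℂ) + t * I) * v))) *
        Complex.exp (((σ : ℂ) + t * I) * u + ε * ((σ : ℂ) + t * I) ^ 2 / 2)) ∧
    ((∫ v in Set.Ioi (0 : ℝ), e v * Real.exp (-(v - u) ^ 2 / (2 * ε)) : ℝ) : ℂ) =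
      (Real.sqrt (ε / (2 * Real.pi)) : ℂ) * ∫ t : ℝ,
        (∫ v in Set.Ioi (0 : ℝ), (e v : ℂ) * Complex.exp (-(((σ : ℂ) + t * I) * v))) *
          Complex.exp (((σ : ℂ) + t * I) * u + ε * ((σ : ℂ) + t * I) ^ 2 / 2) := by
  have hG := GauRep_int e σ hint ε hε u
  refine ⟨?_, ?_, ?_⟩
  · have h1 : Integrable (fun v : ℝ => (e v * Real.exp (-(σ * v))) *
        (Real.exp (σ * v) * Real.exp (-(v - u) ^ 2 / (2 * ε)))) (volume.restrict (Set.Ioi 0)) := by
      refine Integrable.mul_bdd (c := Real.exp (σ * u + ε * σ ^ 2 / 2)) hint ?_ ?_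
      · have : Continuous (fun v : ℝ => Real.exp (σ * v) * Real.exp (-(v - u) ^ 2 / (2 * ε))) := by
          fun_prop
        exact this.aestronglyMeasurable
      · refine Filter.Eventually.of_forall fun v => ?_
        rw [Real.norm_of_nonneg (by positivity)]
        exact GauRep_bd ε hε σ u v
    refine h1.congr (Filter.Eventually.of_forall fun v => ?_)
    have h2 : Real.exp (-(σ * v)) * Real.exp (σ * v) = 1 := by
      rw [← Real.exp_add, neg_add_cancel, Real.exp_zero]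
    calc (e v * Real.exp (-(σ * v))) * (Real.exp (σ * v) * Real.exp (-(v - u) ^ 2 / (2 * ε)))
        = e v * (Real.exp (-(σ * v)) * Real.exp (σ * v)) * Real.exp (-(v - u) ^ 2 / (2 * ε)) := by
          ring
      _ = e v * Real.exp (-(v - u) ^ 2 / (2 * ε)) := by rw [h2, mul_one]
  · have h1 := hG.integral_prod_left
    refine h1.congr (Filter.Eventually.of_forall fun t => ?_)
    beta_reduce
    dsimp only
    exact integral_mul_const (L := ℂ) _ _
  · have h1 : ∫ t : ℝ, (∫ v in Set.Ioi (0 : ℝ),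
        (e v : ℂ) * Complex.exp (-(((σ : ℂ) + t * I) * v))) *
          Complex.exp (((σ : ℂ) + t * I) * u + ε * ((σ : ℂ) + t * I) ^ 2 / 2) =
        ∫ t : ℝ, ∫ v in Set.Ioi (0 : ℝ), ((e v : ℂ) * Complex.exp (-(((σ : ℂ) + t * I) * v))) *
          Complex.exp (((σ : ℂ) + t * I) * u + ε * ((σ : ℂ) + t * I) ^ 2 / 2) := by
      congr 1
      funext t
      exact (integral_mul_const (L := ℂ) _ _).symm
    rw [h1, integral_integral_swap (f := fun t v : ℝ =>
      ((e v : ℂ) * Complex.exp (-(((σ : ℂ) + t * I) * v))) *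
        Complex.exp (((σ : ℂ) + t * I) * u + ε * ((σ : ℂ) + t * I) ^ 2 / 2)) hG]
    have h2 : ∀ v : ℝ, ∫ t : ℝ, ((e v : ℂ) * Complex.exp (-(((σ : ℂ) + t * I) * v))) *
        Complex.exp (((σ : ℂ) + t * I) * u + ε * ((σ : ℂ) + t * I) ^ 2 / 2) =
        ((Real.sqrt (2 * Real.pi / ε) * (e v * Real.exp (-(v - u) ^ 2 / (2 * ε))) : ℝ) : ℂ) := by
      intro v
      have h3 := (gauss_kernel ε hε σ (u - v)).2
      have h4 : ∀ t : ℝ, ((e v : ℂ) * Complex.exp (-(((σ : ℂ) + t * I) * v))) *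
          Complex.exp (((σ : ℂ) + t * I) * u + ε * ((σ : ℂ) + t * I) ^ 2 / 2) =
          (e v : ℂ) * Complex.exp (((σ : ℂ) + t * I) * ((u - v : ℝ) : ℂ) +
            ε * ((σ : ℂ) + t * I) ^ 2 / 2) := by
        intro t
        rw [mul_assoc, ← Complex.exp_add]
        congr 2
        push_cast
        ring
      simp only [h4]
      rw [integral_const_mul, h3, ← ofReal_mul]
      congr 1
      have h5 : (u - v) ^ 2 = (v - u) ^ 2 := by ring
      rw [h5]
      ring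
    simp only [h2]
    rw [integral_complex_ofReal, ← ofReal_mul, integral_const_mul, ← mul_assoc,
      ← Real.sqrt_mul (by positivity)]
    have h6 : ε / (2 * Real.pi) * (2 * Real.pi / ε) = 1 := by
      have := Real.pi_pos
      field_simp
    rw [h6, Real.sqrt_one, one_mul]

end W3283g
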