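import Mathlib

set_option autoImplicit false

namespace W3283g

open Complex MeasureTheory Filter Topology

/-- the standard Gaussian density -/
noncomputable def Moll_phi (x : ℝ) : ℝ := (Real.sqrt (2 * Real.pi))⁻¹ * Real.exp (-(x ^ 2) / 2)

lemma Moll_phi_nonneg (x : ℝ) : 0 ≤ Moll_phi x := by
  unfold Moll_phi
  positivity

lemma Moll_phi_int : ∫ x, Moll_phi x = 1 := by
  unfold Moll_phi
  rw [integral_const_mul]
  have h := integral_gaussian (1 / 2)
  have h1 : ∀ x : ℝ, Real.exp (-(x ^ 2) / 2) = Real.exp (-(1 / 2) * x ^ 2) := by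
    intro x; congr 1; ring
  simp_rw [h1]
  rw [h]
  have h2 : Real.pi / (1 / 2) = 2 * Real.pi := by ring
  rw [h2]
  exact inv_mul_cancel₀ (Real.sqrt_pos.2 (by positivity)).ne'

lemma Moll_phi_tend : Tendsto (fun x : ℝ => ‖x‖ ^ Module.finrank ℝ ℝ * Moll_phi x)
    (Bornology.cobounded ℝ) (𝓝 0) := by
  have h1 : Tendsto (fun r : ℝ => (Real.sqrt (2 * Real.pi))⁻¹ * (r * Real.exp (-(r ^ 2) / 2)))
      atTop (𝓝 0) := by
    have h2 : Tendsto (fun r : ℝ => r * Real.exp (-(r ^ 2) / 2)) atTop (𝓝 0) := by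
      have h3 : Tendsto (fun r : ℝ => 1 / r) atTop (𝓝 0) := by
        simpa using tendsto_inv_atTop_zero (𝕜 := ℝ)
      have h4 : Tendsto (fun r : ℝ => 2 * (1 / r)) atTop (𝓝 0) := by
        simpa using h3.const_mul 2
      refine tendsto_of_tendsto_of_tendsto_of_le_of_le' tendsto_const_nhds h4 ?_ ?_
      · filter_upwards [eventually_ge_atTop 0] with r hr
        positivity
      · filter_upwards [eventually_gt_atTop 0] with r hr
        have h5 := Real.add_one_le_exp (r ^ 2 / 2)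
        have h6 : Real.exp (r ^ 2 / 2) * Real.exp (-(r ^ 2) / 2) = 1 := by
          rw [← Real.exp_add]
          have : r ^ 2 / 2 + -(r ^ 2) / 2 = 0 := by ring
          rw [this, Real.exp_zero]
        have h7 := Real.exp_pos (-(r ^ 2) / 2)
        have h8 : r ^ 2 / 2 * Real.exp (-(r ^ 2) / 2) ≤ 1 := by nlinarith
        rw [mul_one_div, le_div_iff₀ hr]
        nlinarith
    simpa using h2.const_mul (Real.sqrt (2 * Real.pi))⁻¹
  have h3 := h1.comp (tendsto_norm_cobounded_atTop (E := ℝ))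
  refine h3.congr ?_
  intro x
  unfold Moll_phi
  simp only [Function.comp_apply, Module.finrank_self, pow_one, Real.norm_eq_abs, sq_abs]
  ring

/-- Gaussian approximate identity.  `(2πε)^{-1/2} ∫_{v>0} (e v - e u) exp (-(v-u)²/(2ε)) dv → 0` : for
`|v - u| ≤ δ` by continuity at `u`; for `|v - u| > δ` bound
`exp (-(v-u)²/(2ε)) ≤ exp (-δ²/(4ε)) exp (-(v-u)²/(4ε))
≤ exp (-δ²/(4ε)) exp (-(v-u)²/4)` for `ε ≤ 1`, and `∫_{v>0} (|e v| + |e u|) exp (-(v-u)²/4) dv < ∞` because
`exp (-(v-u)²/4) ≤ C exp (-v)`.  And `(2πε)^{-1/2} ∫_{v>0} exp (-(v-u)²/(2ε)) dv → 1` for `u > 0`. -/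
theorem moll (e : ℝ → ℝ) (he : Measurable e)
    (hint : IntegrableOn (fun v : ℝ => e v * Real.exp (-v)) (Set.Ioi 0)) (u : ℝ) (hu : 0 < u)
    (hc : ContinuousAt e u) :
    Tendsto (fun ε : ℝ => (Real.sqrt (2 * Real.pi * ε))⁻¹ *
      ∫ v in Set.Ioi (0 : ℝ), e v * Real.exp (-(v - u) ^ 2 / (2 * ε))) (𝓝[>] 0) (𝓝 (e u)) := by
  set h : ℝ → ℝ := fun v => (Set.Ioi (0 : ℝ)).indicator
    (fun v => e v * Real.exp (-(v - u) ^ 2 / 2)) v with hh
  have hhi : Integrable h := by
    rw [hh]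
    rw [integrable_indicator_iff measurableSet_Ioi]
    refine Integrable.mono' (hint.norm.const_mul (Real.exp (u + 1 / 2))) ?_ ?_
    · apply Measurable.aestronglyMeasurable
      apply he.mul
      fun_prop
    · rw [ae_restrict_iff' measurableSet_Ioi]
      apply Eventually.of_forall
      intro v _
      show ‖e v * Real.exp (-(v - u) ^ 2 / 2)‖ ≤ Real.exp (u + 1 / 2) * ‖e v * Real.exp (-v)‖
      rw [norm_mul, norm_mul, Real.norm_of_nonneg (Real.exp_pos _).le,
        Real.norm_of_nonneg (Real.exp_pos _).le]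
      have h1 : Real.exp (-(v - u) ^ 2 / 2) ≤ Real.exp (u + 1 / 2) * Real.exp (-v) := by
        rw [← Real.exp_add]
        apply Real.exp_le_exp.2
        nlinarith [sq_nonneg (v - u - 1)]
      calc ‖e v‖ * Real.exp (-(v - u) ^ 2 / 2) ≤ ‖e v‖ * (Real.exp (u + 1 / 2) * Real.exp (-v)) :=
            mul_le_mul_of_nonneg_left h1 (norm_nonneg _)
        _ = Real.exp (u + 1 / 2) * (‖e v‖ * Real.exp (-v)) := by ring
  have hhu : h u = e u := by
    rw [hh]
    simp only [Set.indicator_of_mem (show u ∈ Set.Ioi (0 : ℝ) from hu)]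
    simp
  have hhc : ContinuousAt h u := by
    have h1 : ContinuousAt (fun v => e v * Real.exp (-(v - u) ^ 2 / 2)) u := by
      apply hc.mul
      fun_prop
    refine h1.congr ?_
    filter_upwards [Ioi_mem_nhds hu] with v hv
    rw [hh]
    simp only [Set.indicator_of_mem hv]
  have key := tendsto_integral_comp_smul_smul_of_integrable' (μ := (volume : Measure ℝ))
    Moll_phi_nonneg Moll_phi_int Moll_phi_tend hhi hhc
  rw [hhu] at key
  -- the scaling parameter
  have hcε : Tendsto (fun ε : ℝ => Real.sqrt ((1 - ε) / ε)) (𝓝[>] 0) atTop := by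
    have h1 : Tendsto (fun ε : ℝ => ε⁻¹ - 1) (𝓝[>] 0) atTop :=
      tendsto_atTop_add_const_right _ (-1) tendsto_inv_nhdsGT_zero
    have h2 : Tendsto (fun ε : ℝ => Real.sqrt (ε⁻¹ - 1)) (𝓝[>] 0) atTop :=
      Real.tendsto_sqrt_atTop.comp h1
    refine h2.congr' ?_
    filter_upwards [self_mem_nhdsWithin] with ε hε
    have hε' : ε ≠ 0 := ne_of_gt hε
    congr 1
    field_simp
  have key2 := key.comp hcε
  have hsq : Tendsto (fun ε : ℝ => (Real.sqrt (1 - ε))⁻¹) (𝓝[>] 0) (𝓝 1) := by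
    have h1 : ContinuousAt (fun ε : ℝ => (Real.sqrt (1 - ε))⁻¹) 0 := by
      apply ContinuousAt.inv₀
      · fun_prop
      · simp
    have h2 : Tendsto (fun ε : ℝ => (Real.sqrt (1 - ε))⁻¹) (𝓝 0) (𝓝 ((Real.sqrt (1 - 0))⁻¹)) := h1
    have h3 := h2.mono_left (nhdsWithin_le_nhds (s := Set.Ioi (0 : ℝ)))
    simpa using h3
  have key3 := hsq.mul key2
  rw [one_mul] at key3
  refine key3.congr' ?_
  filter_upwards [Ioo_mem_nhdsGT (show (0 : ℝ) < 1 by norm_num)] with ε hε
  obtain ⟨hε0, hε1⟩ := hε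
  simp only [Function.comp_apply, Module.finrank_self, pow_one, smul_eq_mul]
  have h1 : 0 < 1 - ε := by linarith
  have hs1 : 0 < Real.sqrt (1 - ε) := Real.sqrt_pos.2 h1
  have hcoef : ∀ x : ℝ, Real.sqrt ((1 - ε) / ε) *
      Moll_phi (Real.sqrt ((1 - ε) / ε) * (u - x)) * h x =
      Real.sqrt (1 - ε) * ((Real.sqrt (2 * Real.pi * ε))⁻¹ * (Set.Ioi (0 : ℝ)).indicator
        (fun v => e v * Real.exp (-(v - u) ^ 2 / (2 * ε))) x) := by
    intro x
    by_cases hx : x ∈ Set.Ioi (0 : ℝ)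
    · rw [hh]
      simp only [Set.indicator_of_mem hx]
      unfold Moll_phi
      have h2 : (Real.sqrt ((1 - ε) / ε) * (u - x)) ^ 2 = (1 - ε) / ε * (u - x) ^ 2 := by
        rw [mul_pow, Real.sq_sqrt (div_nonneg h1.le hε0.le)]
      rw [h2]
      have h3 : Real.exp (-((1 - ε) / ε * (u - x) ^ 2) / 2) * Real.exp (-(x - u) ^ 2 / 2) =
          Real.exp (-(x - u) ^ 2 / (2 * ε)) := by
        rw [← Real.exp_add]
        congr 1
        field_simp
        ring
      have h4 : Real.sqrt ((1 - ε) / ε) * (Real.sqrt (2 * Real.pi))⁻¹ =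
          Real.sqrt (1 - ε) * (Real.sqrt (2 * Real.pi * ε))⁻¹ := by
        have h5 : Real.sqrt (2 * Real.pi * ε) = Real.sqrt (2 * Real.pi) * Real.sqrt ε :=
          Real.sqrt_mul (by positivity) ε
        rw [Real.sqrt_div h1.le, h5]
        have h6 : Real.sqrt (2 * Real.pi) ≠ 0 := (Real.sqrt_pos.2 (by positivity)).ne'
        have h7 : Real.sqrt ε ≠ 0 := (Real.sqrt_pos.2 hε0).ne'
        rw [mul_inv, div_eq_mul_inv]
        ring
      calc Real.sqrt ((1 - ε) / ε) * ((Real.sqrt (2 * Real.pi))⁻¹ *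
            Real.exp (-((1 - ε) / ε * (u - x) ^ 2) / 2)) * (e x * Real.exp (-(x - u) ^ 2 / 2))
          = (Real.sqrt ((1 - ε) / ε) * (Real.sqrt (2 * Real.pi))⁻¹) * (e x *
            (Real.exp (-((1 - ε) / ε * (u - x) ^ 2) / 2) * Real.exp (-(x - u) ^ 2 / 2))) := by ring
        _ = _ := by rw [h3, h4]; ring
    · rw [hh]
      simp only [Set.indicator_of_notMem hx, mul_zero]
  simp_rw [hcoef]
  rw [integral_const_mul, integral_const_mul, integral_indicator measurableSet_Ioi,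
    ← mul_assoc, inv_mul_cancel₀ hs1.ne', one_mul]

end W3283g
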