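import Mathlib

set_option autoImplicit false

namespace W3283g

open Complex MeasureTheory Filter Topology

/-- Moving the line of integration from `Re s = 1` to `Re s = σ`.  The integrand
`F s = E s exp (s u + ε s²/2)` is holomorphic for `Re s > 0`, and on `σ ≤ Re s ≤ 1`
`‖F s‖ ≤ C (1 + |Im s|) exp (|u|) exp (ε (1 - (Im s)²)/2)`.  Apply
`Complex.integral_boundary_rect_eq_zero_of_differentiableOn` to `[σ,1] × [-T,T]` and let
`T → ∞`: the horizontal sides tend to `0`, the vertical sides to the integrals over `ℝ`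
(`MeasureTheory.intervalIntegral_tendsto_integral`). -/
theorem shift (E : ℂ → ℂ) (hE : DifferentiableOn ℂ E {s : ℂ | 0 < s.re}) (σ : ℝ) (hσ : 0 < σ)
    (hσ1 : σ ≤ 1) (C : ℝ)
    (hC : ∀ s : ℂ, σ ≤ s.re → s.re ≤ 1 → ‖E s‖ ≤ C * (1 + |s.im|)) (ε : ℝ) (hε : 0 < ε)
    (u : ℝ) :
    Integrable (fun t : ℝ => E ((σ : ℂ) + t * I) *
      Complex.exp (((σ : ℂ) + t * I) * u + ε * ((σ : ℂ) + t * I) ^ 2 / 2)) ∧
    ∫ t : ℝ, E ((1 : ℂ) + t * I) *
        Complex.exp (((1 : ℂ) + t * I) * u + ε * ((1 : ℂ) + t * I) ^ 2 / 2) =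
      ∫ t : ℝ, E ((σ : ℂ) + t * I) *
        Complex.exp (((σ : ℂ) + t * I) * u + ε * ((σ : ℂ) + t * I) ^ 2 / 2) := by
  have hC0 : 0 ≤ C := by
    have h1 := hC (1 : ℂ) (by simpa using hσ1) (by simp)
    have h2 := norm_nonneg (E 1)
    simp at h1
    linarith
  set F : ℂ → ℂ := fun s => E s * Complex.exp (s * u + ε * s ^ 2 / 2) with hF
  have hFd : DifferentiableOn ℂ F {s : ℂ | 0 < s.re} := by
    apply hE.mul
    apply Differentiable.differentiableOn
    fun_prop
  -- the bound
  set G : ℝ → ℝ := fun t => C * Real.exp (|u| + ε / 2) *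
    ((1 + |t|) * Real.exp (-(ε / 2) * t ^ 2)) with hG
  have hFb : ∀ s : ℂ, σ ≤ s.re → s.re ≤ 1 → ‖F s‖ ≤ G s.im := by
    intro s h1 h2
    simp only [hF, hG]
    rw [norm_mul, Complex.norm_exp]
    have h3 : (s * u + ε * s ^ 2 / 2 : ℂ).re = s.re * u + ε * (s.re ^ 2 - s.im ^ 2) / 2 := by
      have : (s * u + ε * s ^ 2 / 2 : ℂ) = s * (u : ℂ) + ((ε / 2 : ℝ) : ℂ) * s ^ 2 := by
        push_cast
        ring
      rw [this]
      simp only [Complex.add_re, Complex.mul_re, Complex.ofReal_re, Complex.ofReal_im, mul_zero,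
        zero_mul, sub_zero, pow_two]
      ring
    rw [h3]
    have h4 : s.re * u + ε * (s.re ^ 2 - s.im ^ 2) / 2 ≤
        (|u| + ε / 2) + (-(ε / 2) * s.im ^ 2) := by
      have h5 : s.re * u ≤ |u| := by
        have h6 : |s.re * u| ≤ 1 * |u| := by
          rw [abs_mul]
          apply mul_le_mul_of_nonneg_right _ (abs_nonneg _)
          rw [abs_of_nonneg (by linarith)]
          exact h2
        have := le_abs_self (s.re * u)
        linarith
      have h7 : s.re ^ 2 ≤ 1 := by
        have : 0 ≤ s.re := by linarith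
        nlinarith
      nlinarith
    calc ‖E s‖ * Real.exp (s.re * u + ε * (s.re ^ 2 - s.im ^ 2) / 2)
        ≤ (C * (1 + |s.im|)) * Real.exp ((|u| + ε / 2) + (-(ε / 2) * s.im ^ 2)) := by
          apply mul_le_mul (hC s h1 h2) (Real.exp_le_exp.mpr h4) (Real.exp_pos _).le
          have := abs_nonneg s.im
          positivity
      _ = _ := by
          rw [Real.exp_add]
          ring
  have hGi : Integrable G := by
    apply Integrable.const_mul
    have hb : 0 < ε / 2 := by positivity
    have h1 := integrable_exp_neg_mul_sq hb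
    have h2 := (integrable_mul_exp_neg_mul_sq hb).norm
    have h3 := h1.add h2
    refine h3.congr (Filter.Eventually.of_forall fun t => ?_)
    simp only [Pi.add_apply, norm_mul, Real.norm_eq_abs, Real.abs_exp]
    ring
  have hline : ∀ a : ℝ, σ ≤ a → a ≤ 1 → Integrable (fun t : ℝ => F ((a : ℂ) + t * I)) := by
    intro a h1 h2
    apply hGi.mono'
    · apply Continuous.aestronglyMeasurable
      rw [← continuousOn_univ]
      apply hFd.continuousOn.comp (f := fun t : ℝ => ((a : ℂ) + t * I)) (by fun_prop)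
      intro t _
      simp
      linarith
    · filter_upwards with t
      have := hFb ((a : ℂ) + t * I) (by simpa using h1) (by simpa using h2)
      simpa using this
  refine ⟨hline σ le_rfl hσ1, ?_⟩
  have hline1 : Integrable (fun t : ℝ => F ((1 : ℂ) + t * I)) := by
    have := hline 1 hσ1 le_rfl
    simpa using this
  -- the rectangle
  have hrect : ∀ T : ℝ, 0 ≤ T → ‖(∫ y in (-T)..T, F ((1 : ℂ) + y * I)) -
      ∫ y in (-T)..T, F ((σ : ℂ) + y * I)‖ ≤ 2 * G T := by
    intro T hT
    have h1 := Complex.integral_boundary_rect_eq_zero_of_differentiableOn F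
      ((σ : ℂ) + (-T : ℝ) * I) ((1 : ℂ) + (T : ℝ) * I) (hFd.mono ?_)
    · simp only [Complex.add_re, Complex.add_im, Complex.ofReal_re, Complex.ofReal_im,
        Complex.mul_re, Complex.mul_im, Complex.I_re, Complex.I_im, Complex.one_re,
        Complex.one_im, mul_zero, mul_one, zero_mul, sub_zero, add_zero, zero_add,
        Complex.ofReal_one, smul_eq_mul] at h1
      set J₁ := ∫ x in σ..1, F (↑x + ((-T : ℝ) : ℂ) * I) with hJ₁
      set J₂ := ∫ x in σ..1, F (↑x + (T : ℂ) * I) with hJ₂
      have hJ : ∀ T' : ℝ, |T'| = T → ‖∫ x in σ..1, F (↑x + (T' : ℂ) * I)‖ ≤ G T := by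
        intro T' hT'
        have h2 : ‖∫ x in σ..1, F (↑x + (T' : ℂ) * I)‖ ≤ G T * |1 - σ| := by
          apply intervalIntegral.norm_integral_le_of_norm_le_const
          intro x hx
          rw [Set.uIoc_of_le hσ1] at hx
          have h3 := hFb (↑x + (T' : ℂ) * I) (by simpa using hx.1.le) (by simpa using hx.2)
          refine h3.trans (le_of_eq ?_)
          simp only [hG, Complex.add_im, Complex.ofReal_im, Complex.mul_im, Complex.ofReal_re,
            Complex.I_im, Complex.I_re, mul_one, mul_zero, add_zero, zero_add]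
          rw [hT', abs_of_nonneg hT, ← sq_abs T', hT']
        have h4 : |1 - σ| ≤ 1 := by
          rw [abs_of_nonneg (by linarith)]
          linarith
        have h5 : 0 ≤ G T := by
          simp only [hG]
          have := abs_nonneg T
          positivity
        nlinarith
      have hJ1 : ‖J₁‖ ≤ G T := by
        apply hJ
        rw [abs_neg, abs_of_nonneg hT]
      have hJ2 : ‖J₂‖ ≤ G T := by
        apply hJ
        rw [abs_of_nonneg hT]
      have h6 : I * ((∫ y in (-T)..T, F ((1 : ℂ) + y * I)) -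
          ∫ y in (-T)..T, F ((σ : ℂ) + y * I)) = J₂ - J₁ := by
        linear_combination h1
      have h7 : ‖(∫ y in (-T)..T, F ((1 : ℂ) + y * I)) -
          ∫ y in (-T)..T, F ((σ : ℂ) + y * I)‖ = ‖J₂ - J₁‖ := by
        rw [← h6, norm_mul, Complex.norm_I, one_mul]
      rw [h7]
      refine (norm_sub_le _ _).trans ?_
      linarith
    · intro s hs
      rw [Complex.mem_reProdIm] at hs
      have h2 := hs.1
      simp only [Complex.add_re, Complex.ofReal_re, Complex.mul_re, Complex.I_re, mul_zero,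
        Complex.ofReal_im, Complex.I_im, zero_mul, sub_zero, add_zero, Complex.one_re,
        mul_one, sub_self] at h2
      rw [Set.uIcc_of_le hσ1] at h2
      simp only [Set.mem_setOf_eq]
      linarith [h2.1]
  have hG0 : Tendsto (fun T : ℝ => 2 * G T) atTop (𝓝 0) := by
    have h1 : Tendsto (fun T : ℝ => (8 / ε * C * Real.exp (|u| + ε / 2)) *
        ((ε / 2 * T) ^ 1 * Real.exp (-(ε / 2 * T)))) atTop (𝓝 0) := by
      have h2 := (Real.tendsto_pow_mul_exp_neg_atTop_nhds_zero 1).comp
        (tendsto_id.const_mul_atTop (by positivity : (0 : ℝ) < ε / 2))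
      have h3 := h2.const_mul (8 / ε * C * Real.exp (|u| + ε / 2))
      simpa using h3
    refine squeeze_zero' ?_ ?_ h1
    · filter_upwards with T
      simp only [hG]
      have := abs_nonneg T
      positivity
    · filter_upwards [eventually_ge_atTop (1 : ℝ)] with T hT
      simp only [hG]
      rw [abs_of_nonneg (by linarith : (0 : ℝ) ≤ T)]
      have h3 : Real.exp (-(ε / 2) * T ^ 2) ≤ Real.exp (-(ε / 2 * T)) := by
        apply Real.exp_le_exp.mpr
        have : T ≤ T ^ 2 := by nlinarith
        have h4 : 0 < ε / 2 := by positivity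
        nlinarith
      have h4 : (1 + T) * Real.exp (-(ε / 2) * T ^ 2) ≤ (2 * T) * Real.exp (-(ε / 2 * T)) := by
        apply mul_le_mul _ h3 (Real.exp_pos _).le (by linarith)
        linarith
      calc 2 * (C * Real.exp (|u| + ε / 2) * ((1 + T) * Real.exp (-(ε / 2) * T ^ 2)))
          ≤ 2 * (C * Real.exp (|u| + ε / 2) * ((2 * T) * Real.exp (-(ε / 2 * T)))) := by
            gcongr
        _ = _ := by
            field_simp
            ring
  have ht1 := intervalIntegral_tendsto_integral hline1 tendsto_neg_atTop_atBot tendsto_id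
  have ht2 := intervalIntegral_tendsto_integral (hline σ le_rfl hσ1) tendsto_neg_atTop_atBot
    tendsto_id
  have ht3 := ht1.sub ht2
  have ht4 : Tendsto (fun T : ℝ => (∫ y in (-T)..(id T), F ((1 : ℂ) + y * I)) -
      ∫ y in (-T)..(id T), F ((σ : ℂ) + y * I)) atTop (𝓝 0) := by
    apply squeeze_zero_norm' _ hG0
    filter_upwards [eventually_ge_atTop (0 : ℝ)] with T hT
    exact hrect T hT
  have h5 := tendsto_nhds_unique ht3 ht4
  exact sub_eq_zero.mp h5

end W3283g
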