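import Pool.Agent.W_3283e1_h53.Pla
import Pool.Agent.W_3283e1_h53.GauRep
import Pool.Agent.W_3283e1_h53.Moll
import Pool.Agent.W_3283e1_h53.Shift

set_option autoImplicit false

namespace W3283g

open Complex MeasureTheory Filter Topology

/-- For `0 < σ ≤ 1` and `0 < ε` put
`A u = (2πε)^{-1/2} ∫_{v>0} e v exp (-(v-u)²/(2ε)) dv`.  By `gauss_rep` (with `σ = 1`) and
`shift`, `A u = (1/(2π)) e^{σu} ∫ w t e^{iut} dt` with
`w t = E(σ+it) exp (ε (σ+it)²/2)` (`(2πε)^{-1/2} √(ε/(2π)) = 1/(2π)`), so `schur` gives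
`∫ ‖A u‖² e^{-2σu} du ≤ (2π)^{-2} · 2π ∫ ‖w‖² ≤ e^{εσ²} B / (2π) ≤ e^{ε} B/(2π)`. -/
theorem l2_eps (e : ℝ → ℝ) (he : Measurable e)
    (hint : IntegrableOn (fun v : ℝ => e v * Real.exp (-v)) (Set.Ioi 0)) (E : ℂ → ℂ)
    (hE : DifferentiableOn ℂ E {s : ℂ | 0 < s.re})
    (hEe : ∀ t : ℝ, E ((1 : ℂ) + t * I) =
      ∫ v in Set.Ioi (0 : ℝ), (e v : ℂ) * Complex.exp (-(((1 : ℂ) + t * I) * v)))
    (σ : ℝ) (hσ : 0 < σ) (hσ1 : σ ≤ 1) (C : ℝ)
    (hC : ∀ s : ℂ, σ ≤ s.re → s.re ≤ 1 → ‖E s‖ ≤ C * (1 + |s.im|)) (B : ℝ)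
    (hB : ∫⁻ t : ℝ, ‖E ((σ : ℂ) + t * I)‖ₑ ^ 2 ≤ ENNReal.ofReal B) (ε : ℝ) (hε : 0 < ε) :
    ∫⁻ u : ℝ, ENNReal.ofReal (((Real.sqrt (2 * Real.pi * ε))⁻¹ *
      ∫ v in Set.Ioi (0 : ℝ), e v * Real.exp (-(v - u) ^ 2 / (2 * ε))) ^ 2 *
        Real.exp (-(2 * σ * u))) ≤ ENNReal.ofReal (Real.exp ε * B) := by
  have hpi := Real.pi_pos
  -- the integrable weight
  have hint1 : IntegrableOn (fun v : ℝ => e v * Real.exp (-(1 * v))) (Set.Ioi 0) := by
    simpa only [one_mul] using hint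
  set w : ℝ → ℂ := fun t => E ((σ : ℂ) + t * I) *
    Complex.exp (ε * ((σ : ℂ) + t * I) ^ 2 / 2) with hw
  have hwi : Integrable w := by
    have := (shift E hE σ hσ hσ1 C hC ε hε 0).1
    refine this.congr (Eventually.of_forall fun t => ?_)
    simp [hw]
  have hkey : ∀ u : ℝ, (((Real.sqrt (2 * Real.pi * ε))⁻¹ *
      ∫ v in Set.Ioi (0 : ℝ), e v * Real.exp (-(v - u) ^ 2 / (2 * ε)) : ℝ) : ℂ) =
      ((2 * Real.pi)⁻¹ * Real.exp (σ * u) : ℝ) * ∫ t : ℝ, w t * Complex.exp (u * t * I) := by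
    intro u
    obtain ⟨-, -, hrep⟩ := gauss_rep e he 1 hint1 ε hε u
    have h1 : (∫ t : ℝ, (∫ v in Set.Ioi (0 : ℝ), (e v : ℂ) *
        Complex.exp (-((((1 : ℝ) : ℂ) + t * I) * v))) *
          Complex.exp ((((1 : ℝ) : ℂ) + t * I) * u + ε * (((1 : ℝ) : ℂ) + t * I) ^ 2 / 2)) =
        ∫ t : ℝ, E ((1 : ℂ) + t * I) *
          Complex.exp (((1 : ℂ) + t * I) * u + ε * ((1 : ℂ) + t * I) ^ 2 / 2) := by
      refine integral_congr_ae (Eventually.of_forall fun t => ?_)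
      simp only [ofReal_one]
      rw [← hEe t]
    have h2 : (∫ t : ℝ, E ((σ : ℂ) + t * I) *
        Complex.exp (((σ : ℂ) + t * I) * u + ε * ((σ : ℂ) + t * I) ^ 2 / 2)) =
        (Real.exp (σ * u) : ℂ) * ∫ t : ℝ, w t * Complex.exp (u * t * I) := by
      rw [← integral_const_mul]
      refine integral_congr_ae (Eventually.of_forall fun t => ?_)
      simp only [hw]
      rw [ofReal_exp]
      have h3 : Complex.exp (((σ : ℂ) + t * I) * u + ε * ((σ : ℂ) + t * I) ^ 2 / 2) =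
          Complex.exp ((σ * u : ℝ) : ℂ) * (Complex.exp (ε * ((σ : ℂ) + t * I) ^ 2 / 2) *
            Complex.exp (u * t * I)) := by
        rw [← Complex.exp_add, ← Complex.exp_add]
        congr 1
        push_cast
        ring
      rw [h3]
      ring
    have hcoef : (Real.sqrt (2 * Real.pi * ε))⁻¹ * Real.sqrt (ε / (2 * Real.pi)) =
        (2 * Real.pi)⁻¹ := by
      have h1 : ε / (2 * Real.pi) = (2 * Real.pi * ε) / (2 * Real.pi) ^ 2 := by
        field_simp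
      have h2 : 0 < Real.sqrt (2 * Real.pi * ε) := Real.sqrt_pos.2 (by positivity)
      rw [h1, Real.sqrt_div' _ (by positivity), Real.sqrt_sq (by positivity)]
      field_simp
    rw [ofReal_mul, hrep, h1, (shift E hE σ hσ hσ1 C hC ε hε u).2, h2, ← mul_assoc, ← ofReal_mul,
      hcoef, ← mul_assoc, ← ofReal_mul]
  have hpt : ∀ u : ℝ, ENNReal.ofReal (((Real.sqrt (2 * Real.pi * ε))⁻¹ *
      ∫ v in Set.Ioi (0 : ℝ), e v * Real.exp (-(v - u) ^ 2 / (2 * ε))) ^ 2 *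
        Real.exp (-(2 * σ * u))) = ENNReal.ofReal (((2 * Real.pi)⁻¹) ^ 2) *
          ‖∫ t : ℝ, w t * Complex.exp (u * t * I)‖ₑ ^ 2 := by
    intro u
    have h1 := congrArg norm (hkey u)
    rw [Complex.norm_real, Real.norm_eq_abs] at h1
    rw [norm_mul, Complex.norm_real, Real.norm_eq_abs,
      abs_of_pos (by positivity : (0 : ℝ) < (2 * Real.pi)⁻¹ * Real.exp (σ * u))] at h1
    rw [← sq_abs, h1, ← ofReal_norm, ← ENNReal.ofReal_pow (norm_nonneg _),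
      ← ENNReal.ofReal_mul (by positivity)]
    congr 1
    have h2 : Real.exp (σ * u) ^ 2 * Real.exp (-(2 * σ * u)) = 1 := by
      rw [← Real.exp_nat_mul, ← Real.exp_add]
      have : ((2 : ℕ) : ℝ) * (σ * u) + -(2 * σ * u) = 0 := by push_cast; ring
      rw [this, Real.exp_zero]
    calc ((2 * Real.pi)⁻¹ * Real.exp (σ * u) * ‖∫ t : ℝ, w t * Complex.exp (u * t * I)‖) ^ 2 *
          Real.exp (-(2 * σ * u)) = ((2 * Real.pi)⁻¹) ^ 2 *
            ‖∫ t : ℝ, w t * Complex.exp (u * t * I)‖ ^ 2 *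
            (Real.exp (σ * u) ^ 2 * Real.exp (-(2 * σ * u))) := by ring
      _ = _ := by rw [h2, mul_one]
  simp_rw [hpt]
  rw [lintegral_const_mul' _ _ ENNReal.ofReal_ne_top]
  have hw2 : ∫⁻ t : ℝ, ‖w t‖ₑ ^ 2 ≤ ENNReal.ofReal (Real.exp ε) * ENNReal.ofReal B := by
    refine le_trans ?_ (mul_le_mul_right hB _)
    rw [← lintegral_const_mul' _ _ ENNReal.ofReal_ne_top]
    refine lintegral_mono fun t => ?_
    simp only [hw]
    rw [enorm_mul, mul_pow, mul_comm]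
    refine mul_le_mul_left ?_ _
    rw [← ofReal_norm, ← ENNReal.ofReal_pow (norm_nonneg _)]
    refine ENNReal.ofReal_le_ofReal ?_
    rw [Complex.norm_exp, ← Real.exp_nat_mul]
    refine Real.exp_le_exp.2 ?_
    have h1 : ((ε : ℂ) * ((σ : ℂ) + t * I) ^ 2 / 2) =
        ((ε * (σ ^ 2 - t ^ 2) / 2 : ℝ) : ℂ) + ((ε * σ * t : ℝ) : ℂ) * I := by
      push_cast
      linear_combination (ε * t ^ 2 / 2 : ℂ) * Complex.I_sq
    rw [h1]
    simp only [add_re, ofReal_re, mul_re, I_re, mul_zero, ofReal_im, I_im, mul_one, sub_self,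
      add_zero]
    push_cast
    have h2 : σ ^ 2 ≤ 1 := by nlinarith
    nlinarith [sq_nonneg t, mul_nonneg hε.le (sq_nonneg t)]
  calc ENNReal.ofReal (((2 * Real.pi)⁻¹) ^ 2) *
        ∫⁻ u : ℝ, ‖∫ t : ℝ, w t * Complex.exp (u * t * I)‖ₑ ^ 2
      ≤ ENNReal.ofReal (((2 * Real.pi)⁻¹) ^ 2) * (ENNReal.ofReal (2 * Real.pi) *
        (ENNReal.ofReal (Real.exp ε) * ENNReal.ofReal B)) :=
        mul_le_mul_right ((schur w hwi).trans (mul_le_mul_right hw2 _)) _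
    _ = ENNReal.ofReal ((2 * Real.pi)⁻¹) * (ENNReal.ofReal (Real.exp ε) * ENNReal.ofReal B) := by
        rw [← mul_assoc, ← ENNReal.ofReal_mul (by positivity)]
        congr 2
        field_simp
    _ ≤ 1 * (ENNReal.ofReal (Real.exp ε) * ENNReal.ofReal B) := by
        refine mul_le_mul_left ?_ _
        rw [ENNReal.ofReal_le_one]
        refine inv_le_one_of_one_le₀ ?_
        linarith [Real.pi_gt_three]
    _ = ENNReal.ofReal (Real.exp ε * B) := by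
        rw [one_mul, ENNReal.ofReal_mul (Real.exp_nonneg _)]

/-- measurability of the Gaussian means -/
theorem L2lem_meas (e : ℝ → ℝ) (he : Measurable e) (ε σ : ℝ) :
    Measurable (fun u : ℝ => ENNReal.ofReal (((Real.sqrt (2 * Real.pi * ε))⁻¹ *
      ∫ v in Set.Ioi (0 : ℝ), e v * Real.exp (-(v - u) ^ 2 / (2 * ε))) ^ 2 *
        Real.exp (-(2 * σ * u)))) := by
  have h1 : Measurable (fun u : ℝ =>
      ∫ v in Set.Ioi (0 : ℝ), e v * Real.exp (-(v - u) ^ 2 / (2 * ε))) := by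
    refine (StronglyMeasurable.integral_prod_right (ν := volume.restrict (Set.Ioi (0 : ℝ)))
      (f := fun u v => e v * Real.exp (-(v - u) ^ 2 / (2 * ε))) ?_).measurable
    refine Measurable.stronglyMeasurable ?_
    exact (he.comp measurable_snd).mul (by fun_prop)
  exact ENNReal.measurable_ofReal.comp (((h1.const_mul _).pow_const 2).mul (by fun_prop))

/-- The `L²` criterion: let `ε → 0` in `l2_eps` (`moll` at the points of continuity, Fatou
`lintegral_liminf_le` along `ε = 1/n`), then `σ → 0` (Fatou again along `σ = σ1/n`). -/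
theorem l2_crit (e : ℝ → ℝ) (he : Measurable e)
    (hcont : ∀ᵐ u ∂(volume.restrict (Set.Ioi (0 : ℝ))), ContinuousAt e u)
    (hint : IntegrableOn (fun v : ℝ => e v * Real.exp (-v)) (Set.Ioi 0)) (E : ℂ → ℂ)
    (hE : DifferentiableOn ℂ E {s : ℂ | 0 < s.re})
    (hEe : ∀ t : ℝ, E ((1 : ℂ) + t * I) =
      ∫ v in Set.Ioi (0 : ℝ), (e v : ℂ) * Complex.exp (-(((1 : ℂ) + t * I) * v)))
    (hC : ∀ σ : ℝ, 0 < σ → ∃ C : ℝ, ∀ s : ℂ, σ ≤ s.re → s.re ≤ 1 → ‖E s‖ ≤ C * (1 + |s.im|))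
    (B σ1 : ℝ) (hσ1 : 0 < σ1)
    (hB : ∀ σ : ℝ, 0 < σ → σ ≤ σ1 → ∫⁻ t : ℝ, ‖E ((σ : ℂ) + t * I)‖ₑ ^ 2 ≤ ENNReal.ofReal B) :
    IntegrableOn (fun u : ℝ => (e u) ^ 2) (Set.Ioi 0) := by
  obtain ⟨ρ, hρ, hρ1, hρσ⟩ : ∃ ρ : ℝ, 0 < ρ ∧ ρ ≤ 1 ∧ ρ ≤ σ1 :=
    ⟨min 1 σ1, by positivity, min_le_left _ _, min_le_right _ _⟩
  have hn0 : ∀ n : ℕ, 0 < 1 / ((n : ℝ) + 1) := fun n => by positivity
  have hn1 : ∀ n : ℕ, 1 / ((n : ℝ) + 1) ≤ 1 := fun n => by
    rw [div_le_one (by positivity)]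
    have : (0 : ℝ) ≤ n := Nat.cast_nonneg n
    linarith
  have hnt : Tendsto (fun n : ℕ => 1 / ((n : ℝ) + 1)) atTop (𝓝 0) :=
    tendsto_one_div_add_atTop_nhds_zero_nat
  have hstep : ∀ σ : ℝ, 0 < σ → σ ≤ ρ → ∫⁻ u in Set.Ioi (0 : ℝ),
      ENNReal.ofReal ((e u) ^ 2 * Real.exp (-(2 * σ * u))) ≤ ENNReal.ofReal B := by
    intro σ hσ hσρ
    obtain ⟨C, hC'⟩ := hC σ hσ
    set f : ℕ → ℝ → ENNReal := fun n u => ENNReal.ofReal
      (((Real.sqrt (2 * Real.pi * (1 / ((n : ℝ) + 1))))⁻¹ *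
      ∫ v in Set.Ioi (0 : ℝ), e v * Real.exp (-(v - u) ^ 2 / (2 * (1 / ((n : ℝ) + 1))))) ^ 2 *
        Real.exp (-(2 * σ * u))) with hf
    have hlim : ∀ᵐ u ∂(volume.restrict (Set.Ioi (0 : ℝ))), Tendsto (fun n => f n u) atTop
        (𝓝 (ENNReal.ofReal ((e u) ^ 2 * Real.exp (-(2 * σ * u))))) := by
      filter_upwards [hcont, ae_restrict_mem measurableSet_Ioi] with u hu hu0
      have h1 := moll e he hint u hu0 hu
      have h2 : Tendsto (fun n : ℕ => 1 / ((n : ℝ) + 1)) atTop (𝓝[>] 0) :=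
        tendsto_nhdsWithin_iff.2 ⟨hnt, Eventually.of_forall fun n => hn0 n⟩
      have h3 := h1.comp h2
      exact (ENNReal.continuous_ofReal.tendsto _).comp ((h3.pow 2).mul_const _)
    calc ∫⁻ u in Set.Ioi (0 : ℝ), ENNReal.ofReal ((e u) ^ 2 * Real.exp (-(2 * σ * u)))
        = ∫⁻ u in Set.Ioi (0 : ℝ), liminf (fun n => f n u) atTop :=
          lintegral_congr_ae (hlim.mono fun u hu => hu.liminf_eq.symm)
      _ ≤ liminf (fun n => ∫⁻ u in Set.Ioi (0 : ℝ), f n u) atTop :=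
          lintegral_liminf_le fun n => L2lem_meas e he _ _
      _ ≤ liminf (fun n : ℕ => ENNReal.ofReal (Real.exp (1 / ((n : ℝ) + 1)) * B)) atTop := by
          refine liminf_le_liminf (Eventually.of_forall fun n => ?_)
          exact (setLIntegral_le_lintegral _ _).trans
            (l2_eps e he hint E hE hEe σ hσ (hσρ.trans hρ1) C hC' B
              (hB σ hσ (hσρ.trans hρσ)) _ (hn0 n))
      _ = ENNReal.ofReal B := by
          refine Tendsto.liminf_eq ?_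
          have h1 : Tendsto (fun n : ℕ => Real.exp (1 / ((n : ℝ) + 1)) * B) atTop
              (𝓝 (Real.exp 0 * B)) :=
            ((Real.continuous_exp.tendsto 0).comp hnt).mul_const B
          rw [Real.exp_zero, one_mul] at h1
          exact (ENNReal.continuous_ofReal.tendsto _).comp h1
  have hfin : ∫⁻ u in Set.Ioi (0 : ℝ), ENNReal.ofReal ((e u) ^ 2) ≤ ENNReal.ofReal B := by
    set g : ℕ → ℝ → ENNReal := fun n u =>
      ENNReal.ofReal ((e u) ^ 2 * Real.exp (-(2 * (ρ * (1 / ((n : ℝ) + 1))) * u))) with hg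
    have hlim : ∀ u : ℝ, Tendsto (fun n => g n u) atTop (𝓝 (ENNReal.ofReal ((e u) ^ 2))) := by
      intro u
      have h1 : Tendsto (fun n : ℕ => -(2 * (ρ * (1 / ((n : ℝ) + 1))) * u)) atTop
          (𝓝 (-(2 * (ρ * 0) * u))) := (((hnt.const_mul ρ).const_mul 2).mul_const u).neg
      have h2 : Tendsto (fun n : ℕ => (e u) ^ 2 *
          Real.exp (-(2 * (ρ * (1 / ((n : ℝ) + 1))) * u))) atTop
          (𝓝 ((e u) ^ 2 * Real.exp (-(2 * (ρ * 0) * u)))) :=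
        ((Real.continuous_exp.tendsto _).comp h1).const_mul _
      have h3 : (e u) ^ 2 * Real.exp (-(2 * (ρ * 0) * u)) = (e u) ^ 2 := by simp
      rw [h3] at h2
      exact (ENNReal.continuous_ofReal.tendsto _).comp h2
    calc ∫⁻ u in Set.Ioi (0 : ℝ), ENNReal.ofReal ((e u) ^ 2)
        = ∫⁻ u in Set.Ioi (0 : ℝ), liminf (fun n => g n u) atTop :=
          lintegral_congr fun u => (hlim u).liminf_eq.symm
      _ ≤ liminf (fun n => ∫⁻ u in Set.Ioi (0 : ℝ), g n u) atTop := by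
          refine lintegral_liminf_le fun n => ?_
          exact ENNReal.measurable_ofReal.comp ((he.pow_const 2).mul (by fun_prop))
      _ ≤ liminf (fun _ : ℕ => ENNReal.ofReal B) atTop := by
          refine liminf_le_liminf (Eventually.of_forall fun n => ?_)
          refine hstep _ (mul_pos hρ (hn0 n)) ?_
          calc ρ * (1 / ((n : ℝ) + 1)) ≤ ρ * 1 := mul_le_mul_of_nonneg_left (hn1 n) hρ.le
            _ = ρ := mul_one ρ
      _ = ENNReal.ofReal B := liminf_const _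
  refine ⟨(he.pow_const 2).aestronglyMeasurable, ?_⟩
  rw [hasFiniteIntegral_iff_ofReal (Eventually.of_forall fun u => sq_nonneg _)]
  exact lt_of_le_of_lt hfin ENNReal.ofReal_lt_top

end W3283g
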