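import Pool.Agent.W_3283e1_h53.NearZ

set_option autoImplicit false

namespace W3283g

open Complex W3283e1 W3283f MeasureTheory Filter Topology

theorem NearR_GG (α : ℕ → ℂ) (hα : ∀ p : ℕ, p.Prime → p ≠ 2 → ‖α p‖ ^ 2 = p) (s : ℂ)
    (hs : 1 / 2 < s.re) : DifferentiableAt ℂ (GG α) s := by
  have h1 : LSeries.abscissaOfAbsConv (fun n => (el α n : ℂ)) < s.re := by
    have h2 := (summable_el α hα (((1 / 2 + s.re) / 2 : ℝ) : ℂ) (by
      rw [Complex.ofReal_re]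
      linarith)).abscissaOfAbsConv_le
    refine lt_of_le_of_lt h2 ?_
    rw [Complex.ofReal_re]
    exact_mod_cast (by linarith : (1 / 2 + s.re) / 2 < s.re)
  exact (LSeries_hasDerivAt h1).differentiableAt

theorem NearR_L (L : ℂ → ℂ) (hL : DifferentiableOn ℂ L {s : ℂ | 3 / 4 < s.re}) (s : ℂ)
    (hs : 0 < s.re) : AnalyticAt ℂ (fun s : ℂ => L (1 + s)) s := by
  have ho3 : IsOpen {s : ℂ | 3 / 4 < s.re} := isOpen_lt continuous_const Complex.continuous_re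
  have a1 : AnalyticAt ℂ L (1 + s) := by
    apply hL.analyticAt
    apply ho3.mem_nhds
    change 3 / 4 < (1 + s).re
    rw [Complex.add_re, Complex.one_re]
    linarith
  have a2 : AnalyticAt ℂ (fun s : ℂ => 1 + s) s := analyticAt_const.add analyticAt_id
  exact a1.fun_comp a2

/-- the identity of `Q_full` on the half plane of positive real part -/
theorem NearR_ext (α : ℕ → ℂ) (L : ℂ → ℂ)
    (hL : DifferentiableOn ℂ L {s : ℂ | 3 / 4 < s.re}) (Q Gt : ℂ → ℂ)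
    (hQ : ∀ s : ℂ, 0 ≤ s.re → AnalyticAt ℂ Q s ∧ Q s ≠ 0)
    (hid : ∀ s : ℂ, 1 / 2 < s.re → (L (1 + s)) ^ 2 * Complex.exp (2 * GG α s) = Q s)
    (hG : DifferentiableOn ℂ Gt {s : ℂ | 0 < s.re})
    (hGG : ∀ s : ℂ, 1 / 2 < s.re → Gt s = GG α s) :
    ∀ s : ℂ, 0 < s.re → (L (1 + s)) ^ 2 * Complex.exp (2 * Gt s) = Q s := by
  have ho : IsOpen {s : ℂ | 0 < s.re} := isOpen_lt continuous_const Complex.continuous_re
  have ho2 : IsOpen {s : ℂ | 1 / 2 < s.re} := isOpen_lt continuous_const Complex.continuous_re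
  have hf : AnalyticOnNhd ℂ (fun s => (L (1 + s)) ^ 2 * Complex.exp (2 * Gt s))
      {s : ℂ | 0 < s.re} := by
    intro s hs
    have a3 : AnalyticAt ℂ (fun s : ℂ => L (1 + s)) s := NearR_L L hL s hs
    have a4 : AnalyticAt ℂ Gt s := hG.analyticAt (ho.mem_nhds hs)
    exact (a3.pow 2).mul (analyticAt_const.mul a4).cexp
  have hg : AnalyticOnNhd ℂ Q {s : ℂ | 0 < s.re} := by
    intro s hs
    have hs' : 0 < s.re := hs
    exact (hQ s hs'.le).1
  have hc : IsPreconnected {s : ℂ | 0 < s.re} := (convex_halfSpace_re_gt 0).isPreconnected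
  have h1 : (1 : ℂ) ∈ {s : ℂ | 0 < s.re} := by
    change 0 < (1 : ℂ).re
    rw [Complex.one_re]
    norm_num
  have he : (fun s => (L (1 + s)) ^ 2 * Complex.exp (2 * Gt s)) =ᶠ[nhds 1] Q := by
    have h2 : (1 : ℂ) ∈ {s : ℂ | 1 / 2 < s.re} := by
      change 1 / 2 < (1 : ℂ).re
      rw [Complex.one_re]
      norm_num
    filter_upwards [ho2.mem_nhds h2] with s hs
    have hs' : 1 / 2 < s.re := hs
    rw [hGG s hs', hid s hs']
  exact fun s hs => hf.eqOn_of_preconnected_of_eventuallyEq hg hc h1 he hs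

/-- The continuation of `GG` under the Riemann hypothesis: `log_ext` with
`U = {Re s > 0}`, `V = {Re s > 1/2}`, `f = Q / L(1+s)²`, `G = GG α`. -/
theorem Gt_exists (α : ℕ → ℂ) (L W : ℂ → ℂ) (hD : DataR α L W)
    (hRH : ∀ s : ℂ, 0 < s.re → L (1 + s) ≠ 0) :
    ∃ Gt : ℂ → ℂ, DifferentiableOn ℂ Gt {s : ℂ | 0 < s.re} ∧
      ∀ s : ℂ, 1 / 2 < s.re → Gt s = GG α s := by
  obtain ⟨Q, hQ, _, _, hid⟩ := Q_full α L W hD
  have ho : IsOpen {s : ℂ | 0 < s.re} := isOpen_lt continuous_const Complex.continuous_re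
  have hUc : Convex ℝ {s : ℂ | 0 < s.re} := convex_halfSpace_re_gt 0
  have hVc : IsPreconnected {s : ℂ | 1 / 2 < s.re} :=
    (convex_halfSpace_re_gt (1 / 2)).isPreconnected
  have hVn : ({s : ℂ | 1 / 2 < s.re}).Nonempty := by
    refine ⟨1, ?_⟩
    change 1 / 2 < (1 : ℂ).re
    rw [Complex.one_re]
    norm_num
  have hVU : {s : ℂ | 1 / 2 < s.re} ⊆ {s : ℂ | 0 < s.re} := by
    intro s hs
    have hs' : 1 / 2 < s.re := hs
    change 0 < s.re
    linarith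
  have c1 : AnalyticOnNhd ℂ (fun s => Q s / (L (1 + s)) ^ 2) {s : ℂ | 0 < s.re} := by
    intro s hs
    have hs' : 0 < s.re := hs
    exact (hQ s hs'.le).1.div ((NearR_L L hD.L_diff s hs').pow 2) (pow_ne_zero 2 (hRH s hs'))
  have c2 : ∀ s ∈ {s : ℂ | 0 < s.re}, (fun s => Q s / (L (1 + s)) ^ 2) s ≠ 0 := by
    intro s hs
    have hs' : 0 < s.re := hs
    exact div_ne_zero (hQ s hs'.le).2 (pow_ne_zero 2 (hRH s hs'))
  have c3 : ContinuousOn (GG α) {s : ℂ | 1 / 2 < s.re} := by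
    intro s hs
    exact (NearR_GG α hD.norm_α s hs).continuousAt.continuousWithinAt
  have c4 : ∀ s ∈ {s : ℂ | 1 / 2 < s.re},
      Complex.exp (2 * GG α s) = (fun s => Q s / (L (1 + s)) ^ 2) s := by
    intro s hs
    have hs' : 1 / 2 < s.re := hs
    change Complex.exp (2 * GG α s) = Q s / (L (1 + s)) ^ 2
    rw [← hid s hs', mul_div_cancel_left₀ _ (pow_ne_zero 2 (hRH s (by linarith)))]
  obtain ⟨g, hg1, _, hg3⟩ := log_ext {s : ℂ | 0 < s.re} {s : ℂ | 1 / 2 < s.re} ho hUc hVc hVn hVU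
    (fun s => Q s / (L (1 + s)) ^ 2) (GG α) c1 c2 c3 c4
  exact ⟨g, hg1.differentiableOn, fun s hs => hg3 s hs⟩

/-- Near `0`: `ext_at` with `U` a small ball about `0` (`Q` is analytic and nonzero at `0`, `L1 0 ≠ 0`),
`V = U ∩ {Re s > 0}` (convex), `G = Gt + r log s`; `exp (2 G) = s^{2r} Q / L(1+s)² = Q / L1²`
by `extF` (the `Q` of `extF` agrees with that of `Q_full` on `Re s > 1/2`, hence on `Re s > 0`).
`G` is real on the positive reals: `log_real` on `[σ1, 1]`, `Greal_real`. -/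
theorem near0 (α : ℕ → ℂ) (L W : ℂ → ℂ) (hD : DataR α L W) (r : ℕ) (l : ℝ) (hl : l ≠ 0)
    (hlim : Tendsto (fun s : ℂ => L (1 + s) / s ^ r) (𝓝[≠] 0) (𝓝 (l : ℂ)))
    (hRH : ∀ s : ℂ, 0 < s.re → L (1 + s) ≠ 0) (Gt : ℂ → ℂ)
    (hGt : DifferentiableOn ℂ Gt {s : ℂ | 0 < s.re})
    (hGG : ∀ s : ℂ, 1 / 2 < s.re → Gt s = GG α s) :
    ∃ (δ : ℝ) (Λ : ℂ → ℂ), 0 < δ ∧ AnalyticOnNhd ℂ Λ (Metric.ball 0 δ) ∧
      Λ 0 = (Real.log (Real.sqrt 2 / |l|) : ℂ) ∧
      ∀ s ∈ Metric.ball (0 : ℂ) δ, 0 < s.re → Gt s + r * Complex.log s = Λ s := by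
  obtain ⟨Q, hQ, hQ0, hQp, hid⟩ := Q_full α L W hD
  obtain ⟨L1, hL1a, hL10, hL1⟩ := L1_exists L hD.L_diff r l hlim
  have hext := NearR_ext α L hD.L_diff Q Gt hQ hid hGt hGG
  have ho : IsOpen {s : ℂ | 0 < s.re} := isOpen_lt continuous_const Complex.continuous_re
  have hQ0a := hQ 0 (by simp)
  have hlC : (l : ℂ) ≠ 0 := by exact_mod_cast hl
  have hL1c : ContinuousAt L1 0 := by
    refine (hL1a 0 ?_).continuousAt
    change -(1 / 4) < (0 : ℂ).re
    rw [Complex.zero_re]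
    norm_num
  have hev : ∀ᶠ s in 𝓝 (0 : ℂ), AnalyticAt ℂ Q s ∧ Q s ≠ 0 ∧ L1 s ≠ 0 := by
    refine hQ0a.1.eventually_analyticAt.and ?_
    refine (hQ0a.1.continuousAt.eventually_ne hQ0a.2).and ?_
    exact hL1c.eventually_ne (by rw [hL10]; exact hlC)
  obtain ⟨δ0, hδ0, hball⟩ := Metric.eventually_nhds_iff_ball.1 hev
  set δ : ℝ := min δ0 (1 / 4) with hδdef
  have hδ : 0 < δ := lt_min hδ0 (by norm_num)
  have hδ4 : δ ≤ 1 / 4 := min_le_right _ _
  have hδb : δ ≤ δ0 := min_le_left _ _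
  have hreal_re : ∀ s ∈ Metric.ball (0 : ℂ) δ, -(1 / 4) < s.re := by
    intro s hs
    rw [mem_ball_zero_iff] at hs
    have h1 := Complex.abs_re_le_norm s
    have h2 := neg_abs_le s.re
    linarith
  have hUf : ∀ s ∈ Metric.ball (0 : ℂ) δ,
      AnalyticAt ℂ Q s ∧ Q s ≠ 0 ∧ -(1 / 4) < s.re ∧ L1 s ≠ 0 := by
    intro s hs
    have h1 := hball s (Metric.ball_subset_ball hδb hs)
    exact ⟨h1.1, h1.2.1, hreal_re s hs, h1.2.2⟩
  have hVc : IsPreconnected (Metric.ball (0 : ℂ) δ ∩ {s : ℂ | 0 < s.re}) :=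
    ((convex_ball (0 : ℂ) δ).inter (convex_halfSpace_re_gt 0)).isPreconnected
  have hσ1 : 0 < δ / 2 := by linarith
  have hσV : ((δ / 2 : ℝ) : ℂ) ∈ Metric.ball (0 : ℂ) δ ∩ {s : ℂ | 0 < s.re} := by
    constructor
    · rw [mem_ball_zero_iff, Complex.norm_real, Real.norm_eq_abs, abs_of_pos hσ1]
      linarith
    · change 0 < ((δ / 2 : ℝ) : ℂ).re
      rw [Complex.ofReal_re]
      exact hσ1
  have hGc : ContinuousOn (fun s : ℂ => Gt s + r * Complex.log s)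
      (Metric.ball (0 : ℂ) δ ∩ {s : ℂ | 0 < s.re}) := by
    intro s hs
    have hs' : 0 < s.re := hs.2
    have h1 : ContinuousAt Gt s := (hGt.analyticAt (ho.mem_nhds hs.2)).continuousAt
    have h2 : ContinuousAt Complex.log s := continuousAt_clog (Or.inl hs')
    exact (h1.add (continuousAt_const.mul h2)).continuousWithinAt
  have hGf : ∀ z ∈ Metric.ball (0 : ℂ) δ ∩ {s : ℂ | 0 < s.re},
      Complex.exp (2 * (Gt z + r * Complex.log z)) = Q z / (L1 z) ^ 2 := by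
    intro z hz
    have hz' : 0 < z.re := hz.2
    have hz0 : z ≠ 0 := by
      rintro rfl
      simp at hz'
    have h1 := hext z hz'
    have h2 := hL1 z (hreal_re z hz.1) hz0
    have h3 : L1 z ≠ 0 := (hUf z hz.1).2.2.2
    have h4 : Complex.exp (2 * (Gt z + r * Complex.log z)) = Complex.exp (2 * Gt z) * (z ^ r) ^ 2 := by
      have h5 : 2 * (Gt z + r * Complex.log z) = 2 * Gt z + ((r * 2 : ℕ) : ℂ) * Complex.log z := by
        push_cast
        ring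
      rw [h5, Complex.exp_add, Complex.exp_nat_mul, Complex.exp_log hz0, ← pow_mul]
    rw [h4, eq_div_iff (pow_ne_zero 2 h3), ← h1, h2]
    ring
  have hGr : (Gt ((δ / 2 : ℝ) : ℂ) + r * Complex.log ((δ / 2 : ℝ) : ℂ)).im = 0 := by
    have h1 : (Gt ((δ / 2 : ℝ) : ℂ)).im = 0 := by
      refine log_real Gt (δ / 2) 1 ?_ ?_ ?_ (δ / 2) ⟨le_rfl, by linarith⟩
      · intro x hx
        have hx0 : 0 < x := lt_of_lt_of_le hσ1 hx.1
        refine (hGt.analyticAt (ho.mem_nhds ?_)).continuousAt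
        change 0 < (x : ℂ).re
        rw [Complex.ofReal_re]
        exact hx0
      · intro x hx
        have hx0 : 0 < x := lt_of_lt_of_le hσ1 hx.1
        have hxre : 0 < (x : ℂ).re := by rw [Complex.ofReal_re]; exact hx0
        have h2 := hext x hxre
        have h3 := LR_eq α L W hD x hx0.le
        have h4 := hRH x hxre
        rw [h3] at h2 h4
        have h5 : LR L x ≠ 0 := by exact_mod_cast h4
        have h6 : Complex.exp (2 * Gt x) = Q x * ((((LR L x) ^ 2)⁻¹ : ℝ) : ℂ) := by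
          rw [← h2]
          push_cast
          field_simp
        obtain ⟨q1, q2⟩ := hQp x hx0.le
        rw [h6, Complex.re_mul_ofReal, Complex.im_mul_ofReal, q2, zero_mul]
        exact ⟨by positivity, rfl⟩
      · rw [hGG _ (by rw [Complex.ofReal_re]; norm_num)]
        exact Greal_real α hD.norm_α 1 (by norm_num)
    have h2 : (Complex.log ((δ / 2 : ℝ) : ℂ)).im = 0 := by
      rw [← Complex.ofReal_log hσ1.le, Complex.ofReal_im]
    have h3 : ((r : ℂ) * Complex.log ((δ / 2 : ℝ) : ℂ)).im = 0 := by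
      rw [Complex.mul_im, h2, Complex.natCast_im]
      ring
    rw [Complex.add_im, h1, h3, add_zero]
  obtain ⟨Λ, hΛ1, hΛ2, hΛ3⟩ := ext_at α L W hD r l hl Q hQ0 hQp L1 hL1a hL10 hL1
    (Metric.ball 0 δ) (Metric.ball (0 : ℂ) δ ∩ {s : ℂ | 0 < s.re}) Metric.isOpen_ball
    (convex_ball _ _) (Metric.mem_ball_self hδ) hUf Set.inter_subset_left hVc (δ / 2) hσ1 hσV
    (fun s => Gt s + r * Complex.log s) hGc hGf hGr
  exact ⟨δ, Λ, hδ, hΛ1, hΛ3, fun s hs hs' => (hΛ2 s ⟨hs, hs'⟩).symm⟩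

end W3283g
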