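import Pool.Agent.W_3283e1_h53.GtB
import Pool.Agent.W_3283e1_h53.NearR
import Pool.Agent.W_3283e1_h53.Er
import Pool.Agent.W_3283e1_h53.L2lem

set_option autoImplicit false

namespace W3283g

open Complex W3283e1 W3283f MeasureTheory Filter Topology

/-- The continued transform of `er`. -/
noncomputable def Et (Gt : ℂ → ℂ) (κ : ℝ) (r : ℕ) (s : ℂ) : ℂ :=
  (Gt s + r * ((Real.eulerMascheroniConstant : ℂ) + Complex.log s) - κ) / s

theorem EtB_dslope (U : Set ℂ) (g : ℂ → ℂ) (hg : AnalyticOnNhd ℂ g U) (ρ : ℂ) (hρ : ρ ∈ U) :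
    AnalyticOnNhd ℂ (dslope g ρ) U := by
  intro z hz
  by_cases hzρ : z = ρ
  · subst hzρ
    obtain ⟨p, hp⟩ := hg z hz
    exact ⟨p.fslope, hp.has_fpower_series_dslope_fslope⟩
  · have h1 : AnalyticAt ℂ (fun w => (w - ρ)⁻¹ * (g w - g ρ)) z :=
      ((analyticAt_id.sub analyticAt_const).inv (sub_ne_zero.2 hzρ)).mul
        ((hg z hz).sub analyticAt_const)
    refine h1.congr ?_
    filter_upwards [isOpen_ne.mem_nhds hzρ] with w hw
    rw [dslope_of_ne _ hw, slope_def_field, div_eq_inv_mul]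

/-- From `near0`: `Et = (Λ s - Λ 0)/s` for `Re s > 0`, `‖s‖ < δ`, as
`lGold l r = log (√2/|l|) + r γ`; bounded for `‖s‖ ≤ δ/2` (`dslope`). -/
theorem Et_near (Gt Λ : ℂ → ℂ) (r : ℕ) (l δ : ℝ) (hδ : 0 < δ)
    (hΛ : AnalyticOnNhd ℂ Λ (Metric.ball 0 δ)) (hΛ0 : Λ 0 = (Real.log (Real.sqrt 2 / |l|) : ℂ))
    (h : ∀ s ∈ Metric.ball (0 : ℂ) δ, 0 < s.re → Gt s + r * Complex.log s = Λ s) :
    ∃ B : ℝ, ∀ s : ℂ, 0 < s.re → ‖s‖ ≤ δ / 2 → ‖Et Gt (lGold l r) r s‖ ≤ B := by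
  have hmem : (0 : ℂ) ∈ Metric.ball (0 : ℂ) δ := Metric.mem_ball_self hδ
  have hD := EtB_dslope (Metric.ball 0 δ) Λ hΛ 0 hmem
  have hsub : Metric.closedBall (0 : ℂ) (δ / 2) ⊆ Metric.ball 0 δ :=
    Metric.closedBall_subset_ball (by linarith)
  obtain ⟨B, hB⟩ := (isCompact_closedBall (0 : ℂ) (δ / 2)).exists_bound_of_continuousOn
    ((hD.continuousOn).mono hsub)
  refine ⟨B, fun s hs hsn => ?_⟩
  have hs1 : s ∈ Metric.closedBall (0 : ℂ) (δ / 2) := by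
    rw [Metric.mem_closedBall, dist_zero_right]; exact hsn
  have hs0 : s ≠ 0 := by
    rintro rfl
    simp at hs
  have h1 : Et Gt (lGold l r) r s = dslope Λ 0 s := by
    rw [dslope_of_ne _ hs0, slope_def_field, sub_zero, hΛ0, ← h s (hsub hs1) hs]
    unfold Et lGold
    congr 1
    push_cast
    ring
  rw [h1]
  exact hB s hs1

theorem EtB_norm_log (s : ℂ) : ‖Complex.log s‖ ≤ |Real.log ‖s‖| + Real.pi := by
  have h1 := Complex.norm_le_abs_re_add_abs_im (Complex.log s)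
  rw [Complex.log_re, Complex.log_im] at h1
  have h2 := Complex.abs_arg_le_pi s
  linarith

theorem EtB_num (Gt : ℂ → ℂ) (κ : ℝ) (r : ℕ) (s : ℂ) (l : ℝ) (hl : ‖Complex.log s‖ ≤ l) :
    ‖Gt s + r * ((Real.eulerMascheroniConstant : ℂ) + Complex.log s) - κ‖ ≤
      ‖Gt s‖ + (r * (1 + l) + |κ|) := by
  have h1 : ‖((Real.eulerMascheroniConstant : ℂ) + Complex.log s)‖ ≤ 1 + l := by
    refine (norm_add_le _ _).trans ?_
    have h2 : ‖(Real.eulerMascheroniConstant : ℂ)‖ ≤ 1 := by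
      rw [Complex.norm_real, Real.norm_eq_abs, abs_le]
      have h3 := Real.one_half_lt_eulerMascheroniConstant
      have h4 := Real.eulerMascheroniConstant_lt_two_thirds
      constructor <;> linarith
    linarith
  have h5 : ‖(r : ℂ) * ((Real.eulerMascheroniConstant : ℂ) + Complex.log s)‖ ≤ r * (1 + l) := by
    rw [norm_mul, Complex.norm_natCast]
    exact mul_le_mul_of_nonneg_left h1 (Nat.cast_nonneg r)
  have h6 : ‖(κ : ℂ)‖ = |κ| := by rw [Complex.norm_real, Real.norm_eq_abs]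
  calc ‖Gt s + r * ((Real.eulerMascheroniConstant : ℂ) + Complex.log s) - κ‖
      ≤ ‖Gt s + r * ((Real.eulerMascheroniConstant : ℂ) + Complex.log s)‖ + ‖(κ : ℂ)‖ :=
        norm_sub_le _ _
    _ ≤ (‖Gt s‖ + ‖(r : ℂ) * ((Real.eulerMascheroniConstant : ℂ) + Complex.log s)‖) +
        ‖(κ : ℂ)‖ := by gcongr; exact norm_add_le _ _
    _ ≤ ‖Gt s‖ + (r * (1 + l) + |κ|) := by rw [h6]; linarith

/-- Local bound. -/
theorem EtB_loc (Gt : ℂ → ℂ) (κ : ℝ) (r : ℕ) (C : ℝ) (hC : 0 < C) (τ σ : ℝ)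
    (h2 : ∫⁻ t in Set.Icc (τ - 1 / 4) (τ + 1 / 4), ‖Gt ((σ : ℂ) + t * I)‖ₑ ^ 2 ≤
        ENNReal.ofReal (C * (Real.log (2 + |τ|)) ^ 2)) (B0 d l : ℝ) (hd : 0 < d) (hl : 0 ≤ l)
    (h : ∀ t ∈ Set.Icc (τ - 1 / 4) (τ + 1 / 4), ‖Et Gt κ r ((σ : ℂ) + t * I)‖ ≤ B0 ∨
      (d ≤ ‖(σ : ℂ) + t * I‖ ∧ ‖Complex.log ((σ : ℂ) + t * I)‖ ≤ l)) :
    ∫⁻ t in Set.Icc (τ - 1 / 4) (τ + 1 / 4), ‖Et Gt κ r ((σ : ℂ) + t * I)‖ₑ ^ 2 ≤
      ENNReal.ofReal (B0 ^ 2 + (2 * (r * (1 + l) + |κ|) ^ 2 +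
        2 * (C * (Real.log (2 + |τ|)) ^ 2)) / d ^ 2) := by
  have hd2 : 0 < d ^ 2 := pow_pos hd 2
  set Q := r * (1 + l) + |κ| with hQ
  have hQ0 : 0 ≤ Q := by positivity
  have hpt : ∀ t ∈ Set.Icc (τ - 1 / 4) (τ + 1 / 4),
      ‖Et Gt κ r ((σ : ℂ) + t * I)‖ₑ ^ 2 ≤ ENNReal.ofReal (B0 ^ 2 + 2 * Q ^ 2 / d ^ 2) +
        ENNReal.ofReal (2 / d ^ 2) * ‖Gt ((σ : ℂ) + t * I)‖ₑ ^ 2 := by
    intro t ht
    rw [← ofReal_norm, ← ofReal_norm, ← ENNReal.ofReal_pow (norm_nonneg _),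
      ← ENNReal.ofReal_pow (norm_nonneg _), ← ENNReal.ofReal_mul (by positivity),
      ← ENNReal.ofReal_add (by positivity) (by positivity)]
    apply ENNReal.ofReal_le_ofReal
    rcases h t ht with h1 | ⟨h1, h3⟩
    · have h4 : ‖Et Gt κ r ((σ : ℂ) + t * I)‖ ^ 2 ≤ B0 ^ 2 :=
        pow_le_pow_left₀ (norm_nonneg _) h1 2
      have h5 : 0 ≤ 2 * Q ^ 2 / d ^ 2 := by positivity
      have h6 : 0 ≤ 2 / d ^ 2 * ‖Gt ((σ : ℂ) + t * I)‖ ^ 2 := by positivity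
      linarith
    · have h4 := EtB_num Gt κ r ((σ : ℂ) + t * I) l h3
      rw [← hQ] at h4
      have h5 : ‖Et Gt κ r ((σ : ℂ) + t * I)‖ ≤ (‖Gt ((σ : ℂ) + t * I)‖ + Q) / d := by
        unfold Et
        rw [_root_.norm_div]
        exact div_le_div₀ (by positivity) h4 hd h1
      have h6 : ‖Et Gt κ r ((σ : ℂ) + t * I)‖ ^ 2 ≤ ((‖Gt ((σ : ℂ) + t * I)‖ + Q) / d) ^ 2 :=
        pow_le_pow_left₀ (norm_nonneg _) h5 2
      have h7 : ((‖Gt ((σ : ℂ) + t * I)‖ + Q) / d) ^ 2 ≤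
          2 * Q ^ 2 / d ^ 2 + 2 / d ^ 2 * ‖Gt ((σ : ℂ) + t * I)‖ ^ 2 := by
        have h8 : 2 * Q ^ 2 / d ^ 2 + 2 / d ^ 2 * ‖Gt ((σ : ℂ) + t * I)‖ ^ 2 =
            (2 * Q ^ 2 + 2 * ‖Gt ((σ : ℂ) + t * I)‖ ^ 2) / d ^ 2 := by ring
        rw [h8, div_pow]
        apply div_le_div_of_nonneg_right _ hd2.le
        nlinarith [sq_nonneg (‖Gt ((σ : ℂ) + t * I)‖ - Q)]
      have h9 : 0 ≤ B0 ^ 2 := sq_nonneg _
      linarith
  calc ∫⁻ t in Set.Icc (τ - 1 / 4) (τ + 1 / 4), ‖Et Gt κ r ((σ : ℂ) + t * I)‖ₑ ^ 2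
      ≤ ∫⁻ t in Set.Icc (τ - 1 / 4) (τ + 1 / 4), (ENNReal.ofReal (B0 ^ 2 + 2 * Q ^ 2 / d ^ 2) +
        ENNReal.ofReal (2 / d ^ 2) * ‖Gt ((σ : ℂ) + t * I)‖ₑ ^ 2) :=
        setLIntegral_mono' measurableSet_Icc hpt
    _ = ENNReal.ofReal (B0 ^ 2 + 2 * Q ^ 2 / d ^ 2) *
          volume (Set.Icc (τ - 1 / 4) (τ + 1 / 4)) +
        ENNReal.ofReal (2 / d ^ 2) *
          ∫⁻ t in Set.Icc (τ - 1 / 4) (τ + 1 / 4), ‖Gt ((σ : ℂ) + t * I)‖ₑ ^ 2 := by
        rw [lintegral_add_left measurable_const, setLIntegral_const,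
          lintegral_const_mul' _ _ ENNReal.ofReal_ne_top]
    _ ≤ ENNReal.ofReal (B0 ^ 2 + 2 * Q ^ 2 / d ^ 2) * 1 +
        ENNReal.ofReal (2 / d ^ 2) * ENNReal.ofReal (C * (Real.log (2 + |τ|)) ^ 2) := by
        gcongr
        rw [Real.volume_Icc]
        rw [← ENNReal.ofReal_one]
        apply ENNReal.ofReal_le_ofReal
        linarith
    _ = ENNReal.ofReal (B0 ^ 2 + (2 * Q ^ 2 +
        2 * (C * (Real.log (2 + |τ|)) ^ 2)) / d ^ 2) := by
        rw [mul_one, ← ENNReal.ofReal_mul (by positivity),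
          ← ENNReal.ofReal_add (by positivity) (by positivity)]
        congr 1
        ring

theorem EtB_log_le (m : ℝ) (hm : 1 ≤ m) : Real.log (2 + m / 2) ≤ 8 * m ^ ((1 : ℝ) / 4) := by
  have h0 : (0 : ℝ) < m := by linarith
  have h1 : Real.log (2 + m / 2) ≤ (2 + m / 2) ^ ((1 : ℝ) / 4) / (1 / 4) :=
    Real.log_le_rpow_div (by linarith) (by norm_num)
  have h2 : (2 + m / 2) ^ ((1 : ℝ) / 4) ≤ (16 * m) ^ ((1 : ℝ) / 4) :=
    Real.rpow_le_rpow (by linarith) (by linarith) (by norm_num)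
  have h3 : (16 * m) ^ ((1 : ℝ) / 4) = 2 * m ^ ((1 : ℝ) / 4) := by
    rw [Real.mul_rpow (by norm_num) h0.le]
    congr 1
    rw [show (16 : ℝ) = 2 ^ (4 : ℝ) by norm_num, ← Real.rpow_mul (by norm_num)]
    norm_num
  rw [h3] at h2
  have h4 : (2 + m / 2) ^ ((1 : ℝ) / 4) / (1 / 4) = 4 * (2 + m / 2) ^ ((1 : ℝ) / 4) := by ring
  linarith

/-- Uniform `L²` bound on vertical lines.  Cover `ℝ` by the intervals `I_m` of radius `1/4` about `m/2`,
`m ∈ ℤ`.  For `m ≠ 0` and `t ∈ I_m`, `‖σ+it‖ ≥ |m|/4`, `‖log (σ+it)‖ ≤ log (2 + |t|) + 5`, so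
`∫_{I_m} ‖Et‖² ≤ (16/m²) · 3 (C log² (2 + |m|/2) + ...)`, summable over `m`.  For `m = 0`:
if `σ ≤ δ/4`, the part `|t| ≤ δ/4` is bounded by `Et_near` and on the rest `‖s‖ ≥ δ/4`, so
`∫ ≤ (16/δ²) · 3 (...)`.  Take `σ ≤ σ1 = min (1/32) (δ/4)`. -/
theorem Et_L2 (Gt : ℂ → ℂ) (κ : ℝ) (r : ℕ) (hGt : DifferentiableOn ℂ Gt {s : ℂ | 0 < s.re})
    (C : ℝ) (hC : 0 < C)
    (h2 : ∀ τ σ : ℝ, 0 < σ → σ ≤ 1 / 32 →
      ∫⁻ t in Set.Icc (τ - 1 / 4) (τ + 1 / 4), ‖Gt ((σ : ℂ) + t * I)‖ₑ ^ 2 ≤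
        ENNReal.ofReal (C * (Real.log (2 + |τ|)) ^ 2))
    (δ B : ℝ) (hδ : 0 < δ) (hB : ∀ s : ℂ, 0 < s.re → ‖s‖ ≤ δ → ‖Et Gt κ r s‖ ≤ B) :
    ∃ σ1 B' : ℝ, 0 < σ1 ∧ ∀ σ : ℝ, 0 < σ → σ ≤ σ1 →
      ∫⁻ t : ℝ, ‖Et Gt κ r ((σ : ℂ) + t * I)‖ₑ ^ 2 ≤ ENNReal.ofReal B' := by
  -- the constants
  obtain ⟨K, hK⟩ : ∃ K : ℝ, K = 16 * (2 * (r * 15 + |κ|) ^ 2 + 128 * C) := ⟨_, rfl⟩
  obtain ⟨l0, hl0⟩ : ∃ l0 : ℝ, l0 = |Real.log δ| + Real.pi := ⟨_, rfl⟩
  obtain ⟨K0, hK0⟩ : ∃ K0 : ℝ, K0 = B ^ 2 + (2 * (r * (1 + l0) + |κ|) ^ 2 +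
        2 * (C * (Real.log (2 + |(0 : ℝ)|)) ^ 2)) / δ ^ 2 := ⟨_, rfl⟩
  have hl00 : 0 ≤ l0 := by rw [hl0]; positivity
  have hK00 : 0 ≤ K0 := by rw [hK0]; positivity
  have hKn : 0 ≤ K := by rw [hK]; positivity
  obtain ⟨c, hc⟩ : ∃ c : ℤ → ℝ, c = fun m : ℤ => (if m = 0 then K0 else 0) +
    K * |(m : ℝ)| ^ (-((3 : ℝ) / 2)) := ⟨_, rfl⟩
  have hcn : ∀ m, 0 ≤ c m := by
    intro m
    rw [hc]
    simp only
    have h1 : 0 ≤ |(m : ℝ)| ^ (-((3 : ℝ) / 2)) := Real.rpow_nonneg (abs_nonneg _) _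
    have h3 : 0 ≤ (if m = 0 then K0 else 0) := by split_ifs <;> linarith
    have h4 := mul_nonneg hKn h1
    linarith
  have hcs : Summable c := by
    rw [hc]
    apply Summable.add
    · exact (hasSum_ite_eq (0 : ℤ) K0).summable
    · exact (Real.summable_abs_int_rpow (by norm_num : (1 : ℝ) < 3 / 2)).mul_left K
  refine ⟨1 / 32, ∑' m, c m, by norm_num, ?_⟩
  intro σ hσ hσ1
  have hcov : (⋃ m : ℤ, Set.Icc ((m : ℝ) / 2 - 1 / 4) ((m : ℝ) / 2 + 1 / 4)) = Set.univ := by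
    apply Set.eq_univ_of_forall
    intro t
    rw [Set.mem_iUnion]
    refine ⟨round (2 * t), ?_⟩
    have h1 := abs_sub_round (2 * t)
    rw [abs_le] at h1
    rw [Set.mem_Icc]
    constructor <;> linarith [h1.1, h1.2]
  have hm : ∀ m : ℤ, ∫⁻ t in Set.Icc ((m : ℝ) / 2 - 1 / 4) ((m : ℝ) / 2 + 1 / 4),
      ‖Et Gt κ r ((σ : ℂ) + t * I)‖ₑ ^ 2 ≤ ENNReal.ofReal (c m) := by
    intro m
    have hre : ∀ t : ℝ, ((σ : ℂ) + t * I).re = σ := fun t => by simp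
    have him : ∀ t : ℝ, ((σ : ℂ) + t * I).im = t := fun t => by simp
    by_cases hm0 : m = 0
    · subst hm0
      have h3 : c 0 = K0 := by
        rw [hc]
        simp only [if_true, Int.cast_zero, abs_zero]
        rw [Real.zero_rpow (by norm_num), mul_zero, add_zero]
      rw [h3, hK0]
      have h4 : ((0 : ℤ) : ℝ) / 2 = 0 := by simp
      rw [h4]
      refine EtB_loc Gt κ r C hC 0 σ (h2 0 σ hσ hσ1) B δ l0 hδ hl00 ?_
      intro t ht
      by_cases h5 : ‖(σ : ℂ) + t * I‖ ≤ δ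
      · left
        exact hB _ (by rw [hre]; exact hσ) h5
      · right
        push Not at h5
        refine ⟨h5.le, (EtB_norm_log _).trans ?_⟩
        rw [hl0]
        have h6 : ‖(σ : ℂ) + t * I‖ ≤ 1 := by
          have h7 := Complex.norm_le_abs_re_add_abs_im ((σ : ℂ) + t * I)
          rw [hre, him, abs_of_pos hσ] at h7
          have h8 : |t| ≤ 1 / 4 := by
            rw [abs_le]
            constructor <;> linarith [ht.1, ht.2]
          linarith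
        have h9 : Real.log δ ≤ Real.log ‖(σ : ℂ) + t * I‖ := Real.log_le_log hδ h5.le
        have h10 : Real.log ‖(σ : ℂ) + t * I‖ ≤ 0 := Real.log_nonpos (norm_nonneg _) h6
        rw [abs_of_nonpos h10, abs_of_nonpos (h9.trans h10)]
        linarith
    · have hm1 : (1 : ℝ) ≤ |(m : ℝ)| := by
        have := Int.one_le_abs hm0
        have h3 : ((1 : ℤ) : ℝ) ≤ ((|m| : ℤ) : ℝ) := by exact_mod_cast this
        simpa using h3
      set M := |(m : ℝ)| with hM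
      have hM0 : 0 < M := by linarith
      have hL := EtB_log_le M hm1
      have hL0 : 0 ≤ Real.log (2 + M / 2) := Real.log_nonneg (by linarith)
      have hτ : |(m : ℝ) / 2| = M / 2 := by
        rw [abs_div, abs_of_pos (by norm_num : (0 : ℝ) < 2)]
      have h5 := EtB_loc Gt κ r C hC ((m : ℝ) / 2) σ (h2 _ σ hσ hσ1) 0 (M / 4)
        (6 + Real.log (2 + M / 2)) (by linarith) (by linarith) (by
          intro t ht
          right
          have ht1 : M / 4 ≤ |t| := by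
            have h6 : |(m : ℝ) / 2| ≤ |t| + 1 / 4 := by
              have h7 : (m : ℝ) / 2 = t + ((m : ℝ) / 2 - t) := by ring
              rw [h7]
              refine (abs_add_le _ _).trans ?_
              have h8 : |(m : ℝ) / 2 - t| ≤ 1 / 4 := by
                rw [abs_le]
                constructor <;> linarith [ht.1, ht.2]
              linarith
            rw [hτ] at h6
            linarith
          have ht2 : |t| ≤ M / 2 + 1 / 4 := by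
            have h7 : t = (m : ℝ) / 2 + (t - (m : ℝ) / 2) := by ring
            rw [h7]
            refine (abs_add_le _ _).trans ?_
            rw [hτ]
            have h8 : |t - (m : ℝ) / 2| ≤ 1 / 4 := by
              rw [abs_le]
              constructor <;> linarith [ht.1, ht.2]
            linarith
          have h9 : |t| ≤ ‖(σ : ℂ) + t * I‖ := by
            have := Complex.abs_im_le_norm ((σ : ℂ) + t * I)
            rwa [him] at this
          have h10 : ‖(σ : ℂ) + t * I‖ ≤ 2 + M / 2 := by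
            have h7 := Complex.norm_le_abs_re_add_abs_im ((σ : ℂ) + t * I)
            rw [hre, him, abs_of_pos hσ] at h7
            linarith
          refine ⟨ht1.trans h9, (EtB_norm_log _).trans ?_⟩
          have h11 : Real.log ‖(σ : ℂ) + t * I‖ ≤ Real.log (2 + M / 2) :=
            Real.log_le_log (by linarith) h10
          have h12 : -2 ≤ Real.log ‖(σ : ℂ) + t * I‖ := by
            have h13 : Real.log (1 / 4) ≤ Real.log ‖(σ : ℂ) + t * I‖ :=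
              Real.log_le_log (by norm_num) (by linarith)
            have h14 : Real.log (1 / 4) = -(2 * Real.log 2) := by
              rw [one_div, Real.log_inv, show (4 : ℝ) = 2 ^ 2 by norm_num, Real.log_pow]
              push_cast
              ring
            have h15 := Real.log_two_lt_d9
            linarith
          have h16 : |Real.log ‖(σ : ℂ) + t * I‖| ≤ 2 + Real.log (2 + M / 2) := by
            rw [abs_le]
            constructor <;> linarith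
          have h17 := Real.pi_lt_four
          linarith)
      refine h5.trans (ENNReal.ofReal_le_ofReal ?_)
      have hcm : c m = K * M ^ (-((3 : ℝ) / 2)) := by
        rw [hc]
        simp only [if_neg hm0, zero_add]
        rw [← hM]
      rw [hcm, hτ]
      set q := M ^ ((1 : ℝ) / 4) with hq
      have hq1 : 1 ≤ q := Real.one_le_rpow hm1 (by norm_num)
      have hq2 : q ^ 2 = M ^ ((1 : ℝ) / 2) := by
        rw [hq, ← Real.rpow_natCast, ← Real.rpow_mul hM0.le]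
        norm_num
      have hMr : M ^ (-((3 : ℝ) / 2)) = q ^ 2 / M ^ 2 := by
        rw [hq2, ← Real.rpow_natCast M 2, ← Real.rpow_sub hM0]
        norm_num
      rw [hMr, hK]
      have h20 : (r : ℝ) * (1 + (6 + Real.log (2 + M / 2))) + |κ| ≤ (r * 15 + |κ|) * q := by
        have h21 : 1 + (6 + Real.log (2 + M / 2)) ≤ 15 * q := by linarith
        have h22 := mul_le_mul_of_nonneg_left h21 (Nat.cast_nonneg (α := ℝ) r)
        have h23 : |κ| ≤ |κ| * q := le_mul_of_one_le_right (abs_nonneg κ) hq1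
        linarith
      have h24 : 0 ≤ (r : ℝ) * (1 + (6 + Real.log (2 + M / 2))) + |κ| := by positivity
      have h25 : ((r : ℝ) * (1 + (6 + Real.log (2 + M / 2))) + |κ|) ^ 2 ≤
          ((r * 15 + |κ|) * q) ^ 2 := pow_le_pow_left₀ h24 h20 2
      have h26 : Real.log (2 + M / 2) ^ 2 ≤ (8 * q) ^ 2 := pow_le_pow_left₀ hL0 hL 2
      have h27 : C * Real.log (2 + M / 2) ^ 2 ≤ C * (8 * q) ^ 2 :=
        mul_le_mul_of_nonneg_left h26 hC.le
      have h28 : 16 * (2 * (r * 15 + |κ|) ^ 2 + 128 * C) * (q ^ 2 / M ^ 2) =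
          (2 * ((r * 15 + |κ|) * q) ^ 2 + 2 * (C * (8 * q) ^ 2)) / (M / 4) ^ 2 := by
        field_simp
        ring
      rw [h28, zero_pow two_ne_zero, zero_add]
      apply div_le_div_of_nonneg_right _ (by positivity)
      linarith
  calc ∫⁻ t : ℝ, ‖Et Gt κ r ((σ : ℂ) + t * I)‖ₑ ^ 2
      = ∫⁻ t in ⋃ m : ℤ, Set.Icc ((m : ℝ) / 2 - 1 / 4) ((m : ℝ) / 2 + 1 / 4),
          ‖Et Gt κ r ((σ : ℂ) + t * I)‖ₑ ^ 2 := by rw [hcov, Measure.restrict_univ]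
    _ ≤ ∑' m : ℤ, ∫⁻ t in Set.Icc ((m : ℝ) / 2 - 1 / 4) ((m : ℝ) / 2 + 1 / 4),
          ‖Et Gt κ r ((σ : ℂ) + t * I)‖ₑ ^ 2 := lintegral_iUnion_le _ _
    _ ≤ ∑' m : ℤ, ENNReal.ofReal (c m) := ENNReal.tsum_le_tsum hm
    _ = ENNReal.ofReal (∑' m, c m) := (ENNReal.ofReal_tsum_of_nonneg hcn hcs).symm

/-- Pointwise: for `σ ≤ Re s ≤ 1`, `‖s‖ ≥ σ`, `log (2 + |t|) ≤ 2 + |t|`,
`‖log s‖ ≤ |log ‖s‖| + π`. -/
theorem Et_pt (Gt : ℂ → ℂ) (κ : ℝ) (r : ℕ) (C : ℝ) (hC : 0 < C)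
    (h1 : ∀ s : ℂ, 0 < s.re → s.re ≤ 1 →
      ‖Gt s‖ ≤ C * Real.log (2 + |s.im|) * (1 + |Real.log s.re|)) (σ : ℝ) (hσ : 0 < σ) :
    ∃ C' : ℝ, ∀ s : ℂ, σ ≤ s.re → s.re ≤ 1 → ‖Et Gt κ r s‖ ≤ C' * (1 + |s.im|) := by
  refine ⟨(2 * C * (1 + |Real.log σ|) + (r * (1 + (|Real.log σ| + 1 + Real.pi)) + |κ|)) / σ, ?_⟩
  intro s hs hs1
  have hre : 0 < s.re := hσ.trans_le hs
  have hT : 1 ≤ 1 + |s.im| := by linarith [abs_nonneg s.im]
  have hn1 : σ ≤ ‖s‖ := hs.trans (Complex.re_le_norm s)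
  have hn2 : ‖s‖ ≤ 1 + |s.im| := by
    have := Complex.norm_le_abs_re_add_abs_im s
    rw [abs_of_pos hre] at this
    linarith
  have hlog : |Real.log ‖s‖| ≤ |Real.log σ| + (1 + |s.im|) := by
    have h3 : Real.log σ ≤ Real.log ‖s‖ := Real.log_le_log hσ hn1
    have h4 : Real.log ‖s‖ ≤ Real.log (1 + |s.im|) := Real.log_le_log (hσ.trans_le hn1) hn2
    have h5 : Real.log (1 + |s.im|) ≤ 1 + |s.im| - 1 := Real.log_le_sub_one_of_pos (by linarith)
    have h6 := neg_abs_le (Real.log σ)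
    have h7 := abs_nonneg (Real.log σ)
    rw [abs_le]
    constructor <;> linarith
  have hL : ‖Complex.log s‖ ≤ |Real.log σ| + (1 + |s.im|) + Real.pi :=
    (EtB_norm_log s).trans (by linarith)
  have hN := EtB_num Gt κ r s _ hL
  have hG : ‖Gt s‖ ≤ 2 * C * (1 + |Real.log σ|) * (1 + |s.im|) := by
    have h3 := h1 s hre hs1
    have h4 : Real.log (2 + |s.im|) ≤ 2 * (1 + |s.im|) := by
      have := Real.log_le_sub_one_of_pos (by linarith [abs_nonneg s.im] : 0 < 2 + |s.im|)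
      linarith
    have h5 : |Real.log s.re| ≤ |Real.log σ| := by
      have h6 : Real.log σ ≤ Real.log s.re := Real.log_le_log hσ hs
      have h7 : Real.log s.re ≤ 0 := Real.log_nonpos hre.le hs1
      rw [abs_of_nonpos h7, abs_of_nonpos (h6.trans h7)]
      linarith
    have h8 : C * Real.log (2 + |s.im|) * (1 + |Real.log s.re|) ≤
        C * (2 * (1 + |s.im|)) * (1 + |Real.log σ|) := by
      gcongr
    linarith
  have hQ : (r : ℝ) * (1 + (|Real.log σ| + (1 + |s.im|) + Real.pi)) + |κ| ≤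
      (r * (1 + (|Real.log σ| + 1 + Real.pi)) + |κ|) * (1 + |s.im|) := by
    have h3 : 1 + (|Real.log σ| + (1 + |s.im|) + Real.pi) ≤
        (1 + (|Real.log σ| + 1 + Real.pi)) * (1 + |s.im|) := by
      have h4 : 0 ≤ (1 + |Real.log σ| + Real.pi) * |s.im| := by positivity
      nlinarith
    have h5 := mul_le_mul_of_nonneg_left h3 (Nat.cast_nonneg (α := ℝ) r)
    have h6 : |κ| ≤ |κ| * (1 + |s.im|) := le_mul_of_one_le_right (abs_nonneg κ) hT
    linarith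
  unfold Et
  rw [_root_.norm_div, div_mul_eq_mul_div]
  apply div_le_div₀ (by positivity) _ hσ hn1
  refine hN.trans ?_
  linarith

/-- The Riemann hypothesis implies square integrability: `Gt_exists`, `Gt_bounds`, `near0`,
`Et_near`, `Et_L2`, `Et_pt`, `er_meas`, `er_cont`, `er_int` (`σ = 1`), `er_transform`,
`l2_crit`. -/
theorem rh_l2 (α : ℕ → ℂ) (L W : ℂ → ℂ) (hD : DataR α L W) (K A : ℝ) (hG : Grw L W K A) (r : ℕ)
    (l : ℝ) (hl : l ≠ 0)
    (hlim : Tendsto (fun s : ℂ => L (1 + s) / s ^ r) (𝓝[≠] 0) (𝓝 (l : ℂ)))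
    (hRH : ∀ s : ℂ, 0 < s.re → L (1 + s) ≠ 0) :
    IntegrableOn (fun u : ℝ => (er α (lGold l r) r u) ^ 2) (Set.Ioi 0) := by
  obtain ⟨Gt, hGt, hGG⟩ := Gt_exists α L W hD hRH
  obtain ⟨C, hC, h2, h1⟩ := Gt_bounds α L W hD.toDataF K A hG hRH Gt hGt hGG
  obtain ⟨δ, Λ, hδ, hΛ, hΛ0, hΛe⟩ := near0 α L W hD r l hl hlim hRH Gt hGt hGG
  obtain ⟨B, hB⟩ := Et_near Gt Λ r l δ hδ hΛ hΛ0 hΛe
  obtain ⟨σ1, B', hσ1, hB'⟩ := Et_L2 Gt (lGold l r) r hGt C hC h2 (δ / 2) B (by linarith) hB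
  have hopen : IsOpen {s : ℂ | 0 < s.re} := isOpen_lt continuous_const Complex.continuous_re
  refine l2_crit (er α (lGold l r) r) (er_meas α _ r) (er_cont α _ r) ?_ (Et Gt (lGold l r) r) ?_
    ?_ ?_ B' σ1 hσ1 hB'
  · have h3 := er_int α hD.norm_α (lGold l r) r 1 (by norm_num)
    simpa only [one_mul] using h3
  · intro s hs
    have hs' : 0 < s.re := hs
    have hs0 : s ≠ 0 := by
      rintro rfl
      simp at hs'
    have h3 : DifferentiableAt ℂ Gt s := (hGt s hs).differentiableAt (hopen.mem_nhds hs)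
    have h4 : DifferentiableAt ℂ Complex.log s :=
      (Complex.hasStrictDerivAt_log (Or.inl hs')).hasDerivAt.differentiableAt
    apply DifferentiableAt.differentiableWithinAt
    unfold Et
    exact ((h3.add (((differentiableAt_const _).add h4).const_mul _)).sub
      (differentiableAt_const _)).div differentiableAt_id hs0
  · intro t
    have hre : ((1 : ℂ) + t * I).re = 1 := by simp
    have h3 := er_transform α hD.norm_α (lGold l r) r ((1 : ℂ) + t * I) (by rw [hre]; norm_num)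
    have hs0 : (1 : ℂ) + t * I ≠ 0 := by
      intro h
      have := congrArg Complex.re h
      rw [hre] at this
      simp at this
    unfold Et
    rw [hGG _ (by rw [hre]; norm_num), ← h3, mul_div_cancel_left₀ _ hs0]
  · intro σ hσ
    exact Et_pt Gt (lGold l r) r C hC h1 σ hσ

end W3283g
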