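import Pool.Agent.W_3283e1_h53.Setup
import Pool.Agent.W_3283e1_h53.EtB
import Pool.Agent.W_3283e1_h53.Conv

set_option autoImplicit false

namespace W3283g

open Complex W3283e1 W3283f MeasureTheory Filter Topology

/-- The substitution `x = e^u`
(`MeasureTheory.integrableOn_image_iff_integrableOn_abs_deriv_smul` for `exp` on `(b,∞)`). -/
theorem cv_log (f : ℝ → ℝ) (b : ℝ) :
    IntegrableOn (fun x : ℝ => f (Real.log x) / x) (Set.Ioi (Real.exp b)) ↔
      IntegrableOn f (Set.Ioi b) := by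
  have h := integrableOn_image_iff_integrableOn_abs_deriv_smul (s := Set.Ioi b) (f := Real.exp)
    (f' := Real.exp) measurableSet_Ioi
    (fun x _ => (Real.hasDerivAt_exp x).hasDerivWithinAt) Real.exp_injective.injOn
    (fun x : ℝ => f (Real.log x) / x)
  have himg : Real.exp '' Set.Ioi b = Set.Ioi (Real.exp b) := by
    ext x
    constructor
    · rintro ⟨u, hu, rfl⟩
      exact Real.exp_lt_exp.2 hu
    · intro hx
      have hx0 : 0 < x := (Real.exp_pos b).trans hx
      exact ⟨Real.log x, (Real.lt_log_iff_exp_lt hx0).2 hx, Real.exp_log hx0⟩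
  rw [himg] at h
  rw [h]
  have he : (fun x : ℝ => |Real.exp x| • (f (Real.log (Real.exp x)) / Real.exp x)) = f := by
    funext x
    rw [Real.log_exp, abs_of_pos (Real.exp_pos x), smul_eq_mul]
    field_simp
  rw [he]

/-- `bsdProd` depends only on `⌊x⌋₊`, so it is measurable and takes finitely many (positive) values on
bounded sets. -/
theorem bsd_meas (a b : ℤ) : Measurable (bsdProd a b) := by
  have h : bsdProd a b = (fun m : ℕ => ∏ p ∈ (Finset.range (m + 1)).filter
      (fun p : ℕ => Nat.Prime p ∧ ¬ ((p : ℤ) ∣ 16 * (4 * a ^ 3 + 27 * b ^ 2))),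
      (npts a b p : ℝ) / (p : ℝ)) ∘ (fun x : ℝ => ⌊x⌋₊) := rfl
  rw [h]
  exact measurable_from_top.comp Nat.measurable_floor

/-- On `(2, b]` the integrand is bounded (`bsd_pos`, `bsd_meas`; `log x` is between `log 2` and `log b`). -/
theorem l2_loc (a b : ℤ) (C : ℝ) (hC : 0 < C) (r : ℕ) (y : ℝ) :
    IntegrableOn (fun x : ℝ => (Real.log (bsdProd a b x / (C * (Real.log x) ^ r))) ^ 2 / x)
      (Set.Ioc 2 y) := by
  set Q : ℕ → ℝ := fun m : ℕ => ∏ p ∈ (Finset.range (m + 1)).filter
      (fun p : ℕ => Nat.Prime p ∧ ¬ ((p : ℤ) ∣ 16 * (4 * a ^ 3 + 27 * b ^ 2))),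
      (npts a b p : ℝ) / (p : ℝ) with hQ
  set S : ℝ := ∑ m ∈ Finset.range (⌊y⌋₊ + 1), |Real.log (Q m)| with hS
  set T : ℝ := |Real.log (Real.log 2)| + |Real.log (Real.log y)| with hT
  have hSb : ∀ x : ℝ, x ≤ y → |Real.log (bsdProd a b x)| ≤ S := by
    intro x hx
    have h1 : bsdProd a b x = Q ⌊x⌋₊ := rfl
    rw [h1, hS]
    apply Finset.single_le_sum (f := fun m => |Real.log (Q m)|) (fun m _ => abs_nonneg _)
    rw [Finset.mem_range]
    exact Nat.lt_succ_of_le (Nat.floor_le_floor hx)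
  have hl2 : 0 < Real.log 2 := Real.log_pos (by norm_num)
  have hTb : ∀ x : ℝ, 2 < x → x ≤ y → |Real.log (Real.log x)| ≤ T := by
    intro x hx hxy
    have h1 : Real.log 2 ≤ Real.log x := Real.log_le_log (by norm_num) hx.le
    have h2 : Real.log x ≤ Real.log y := Real.log_le_log (by linarith) hxy
    have h3 : Real.log (Real.log 2) ≤ Real.log (Real.log x) := Real.log_le_log hl2 h1
    have h4 : Real.log (Real.log x) ≤ Real.log (Real.log y) :=
      Real.log_le_log (by linarith) h2
    rw [hT, abs_le]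
    have h5 := neg_abs_le (Real.log (Real.log 2))
    have h6 := le_abs_self (Real.log (Real.log y))
    have h7 := abs_nonneg (Real.log (Real.log 2))
    have h8 := abs_nonneg (Real.log (Real.log y))
    constructor <;> linarith
  have hmeas : Measurable (fun x : ℝ =>
      (Real.log (bsdProd a b x / (C * (Real.log x) ^ r))) ^ 2 / x) := by
    have h1 := bsd_meas a b
    have h2 : Measurable (fun x : ℝ => C * (Real.log x) ^ r) :=
      (Real.measurable_log.pow_const r).const_mul C
    exact ((Real.measurable_log.comp (h1.div h2)).pow_const 2).div measurable_id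
  refine Measure.integrableOn_of_bounded (M := (S + |Real.log C| + r * T) ^ 2)
    (by rw [Real.volume_Ioc]; exact ENNReal.ofReal_ne_top) hmeas.aestronglyMeasurable ?_
  rw [ae_restrict_iff' measurableSet_Ioc]
  refine Filter.Eventually.of_forall fun x hx => ?_
  have hx2 : 2 < x := hx.1
  have hlx : 0 < Real.log x := Real.log_pos (by linarith)
  have hb := bsd_pos a b x
  have hlog : Real.log (bsdProd a b x / (C * (Real.log x) ^ r)) =
      Real.log (bsdProd a b x) - (Real.log C + r * Real.log (Real.log x)) := by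
    rw [Real.log_div hb.ne' (mul_pos hC (pow_pos hlx r)).ne',
      Real.log_mul hC.ne' (pow_pos hlx r).ne', Real.log_pow]
  have h1 : |Real.log (bsdProd a b x / (C * (Real.log x) ^ r))| ≤ S + |Real.log C| + r * T := by
    rw [hlog]
    have e1 := abs_sub (Real.log (bsdProd a b x)) (Real.log C + r * Real.log (Real.log x))
    have e2 := abs_add_le (Real.log C) (r * Real.log (Real.log x))
    have e3 : |(r : ℝ) * Real.log (Real.log x)| ≤ r * T := by
      rw [abs_mul, abs_of_nonneg (Nat.cast_nonneg r : (0 : ℝ) ≤ r)]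
      exact mul_le_mul_of_nonneg_left (hTb x hx2 hx.2) (Nat.cast_nonneg r)
    have e4 := hSb x hx.2
    linarith
  rw [Real.norm_eq_abs, abs_div, abs_of_pos (by linarith : 0 < x), abs_pow]
  have h2 : |Real.log (bsdProd a b x / (C * (Real.log x) ^ r))| ^ 2 ≤
      (S + |Real.log C| + r * T) ^ 2 := pow_le_pow_left₀ (abs_nonneg _) h1 2
  refine le_trans (div_le_self (by positivity) (by linarith)) h2

/-- `rh_l2` for the curves: `grw_fam`, `dataR_fam`, `h.hlim'` (with `l/V ≠ 0`). -/
theorem su_l2 (k : ℕ) (c : ℤ) (n f i j : ℕ) (L : ℂ → ℂ) (r : ℕ) (l V : ℝ)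
    (h : SU k c n f i j L r l V) (hRH : ∀ s : ℂ, 1 < s.re → L s ≠ 0) :
    IntegrableOn (fun u : ℝ => (er (alF n j) (lGold (l / V) r) r u) ^ 2) (Set.Ioi 0) := by
  obtain ⟨K, A, hG⟩ := grw_fam n j h.hj h.hn h.hs
  apply rh_l2 (alF n j) (LLF n j) WW (dataR_fam n j h.hj h.hn h.hs) K A hG r (l / V)
    (div_ne_zero h.hl h.hV.ne') h.hlim'
  intro s hs h0
  have h1 := (h.hzero s hs.le).2 h0
  refine hRH (1 + s) ?_ h1
  rw [Complex.add_re, Complex.one_re]
  linarith

/-- The `L²` criterion for the curves.  `→`: `su_l2`, restricted to `(log (max k 3), ∞)`, and `cv_log`,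
`h.hP`, `l2_loc`.  `←`: `l2_rh` with `b = log (max k 3)`, and `L(1+s) = 0 ↔ LLF(1+s) = 0`. -/
theorem main_l2 (k : ℕ) (c : ℤ) (n f i j : ℕ) (L : ℂ → ℂ) (r : ℕ) (l V : ℝ)
    (h : SU k c n f i j L r l V) :
    (∀ s : ℂ, 1 < s.re → L s ≠ 0) ↔
      IntegrableOn (fun x : ℝ => (Real.log (bsdProd (c * k ^ 2) 0 x /
        (Real.sqrt 2 * Real.exp (r * Real.eulerMascheroniConstant) / |l| *
          (Real.log x) ^ r))) ^ 2 / x) (Set.Ioi 2) := by
  set C : ℝ := Real.sqrt 2 * Real.exp (r * Real.eulerMascheroniConstant) / |l| with hC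
  have hC0 : 0 < C := by
    rw [hC]
    have := abs_pos.2 h.hl
    have h2 : 0 < Real.sqrt 2 := Real.sqrt_pos.2 (by norm_num)
    positivity
  set M : ℝ := max (k : ℝ) 3 with hM
  have hMk : (k : ℝ) ≤ M := le_max_left _ _
  have hM3 : 3 ≤ M := le_max_right _ _
  set b : ℝ := Real.log M with hb
  have hb0 : 0 < b := Real.log_pos (by linarith)
  have hexp : Real.exp b = M := Real.exp_log (by linarith)
  have hcv := cv_log (fun u : ℝ => (er (alF n j) (lGold (l / V) r) r u) ^ 2) b
  rw [hexp] at hcv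
  have hcongr : ∀ x ∈ Set.Ioi M, (fun x : ℝ => (Real.log (bsdProd (c * k ^ 2) 0 x /
        (C * (Real.log x) ^ r))) ^ 2 / x) x =
      (fun x : ℝ => (fun u : ℝ => (er (alF n j) (lGold (l / V) r) r u) ^ 2) (Real.log x) / x) x := by
    intro x hx
    have hx' : M < x := hx
    have h1 := h.hP x (by linarith) (by linarith)
    show (Real.log (bsdProd (c * k ^ 2) 0 x / (C * (Real.log x) ^ r))) ^ 2 / x =
      (er (alF n j) (lGold (l / V) r) r (Real.log x)) ^ 2 / x
    rw [h1]
  have hIoi := integrableOn_congr_fun (μ := volume) hcongr measurableSet_Ioi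
  constructor
  · intro hRH
    have h1 := su_l2 k c n f i j L r l V h hRH
    have h2 : IntegrableOn (fun u : ℝ => (er (alF n j) (lGold (l / V) r) r u) ^ 2)
        (Set.Ioi b) := h1.mono_set (Set.Ioi_subset_Ioi hb0.le)
    have h3 := hIoi.2 (hcv.2 h2)
    have h4 := l2_loc (c * k ^ 2) 0 C hC0 r M
    have h5 : Set.Ioi (2 : ℝ) = Set.Ioc 2 M ∪ Set.Ioi M :=
      (Set.Ioc_union_Ioi_eq_Ioi (by linarith)).symm
    rw [h5]
    exact h4.union h3
  · intro hF s hs
    have h1 := hF.mono_set (Set.Ioi_subset_Ioi (by linarith : (2 : ℝ) ≤ M))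
    have h2 := hcv.1 (hIoi.1 h1)
    have h3 := l2_rh (alF n j) (LLF n j) WW (dataF_fam n j h.hj h.hn h.hs) (lGold (l / V) r) r b
      hb0 h2 (s - 1) (by rw [Complex.sub_re, Complex.one_re]; linarith)
    intro h0
    apply h3
    have h4 := h.hzero (s - 1) (by rw [Complex.sub_re, Complex.one_re]; linarith)
    rw [← h4, add_sub_cancel]
    exact h0

end W3283g
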