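import Pool.Agent.W_3283e1_h53.LogExt
import Pool.Agent.W_MP_3283e1_h19.FinH

set_option autoImplicit false

namespace W3283g

open Complex W3283e1 W3283f MeasureTheory Filter Topology

/-- `QF_exists` and `qR_exists` for the same function
`Q s = 2 W(2s) ZZ(s) t2(s) exp(R s) / (W(s) ZZ(2s) t2(2s))` (copy the two proofs). -/
theorem Q_full (α : ℕ → ℂ) (L W : ℂ → ℂ) (hD : DataR α L W) :
    ∃ Q : ℂ → ℂ, (∀ s : ℂ, 0 ≤ s.re → AnalyticAt ℂ Q s ∧ Q s ≠ 0) ∧ Q 0 = 2 ∧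
      (∀ σ : ℝ, 0 ≤ σ → 0 < (Q σ).re ∧ (Q σ).im = 0) ∧
      ∀ s : ℂ, 1 / 2 < s.re → (L (1 + s)) ^ 2 * Complex.exp (2 * GG α s) = Q s := by
  obtain ⟨R, hR, hR0, hRr, hid⟩ := identF α L W hD.toDataF
  have h2 : Differentiable ℂ (fun s : ℂ => 2 * s) := (differentiable_const _).mul differentiable_id
  have hre : ∀ s : ℂ, (2 * s).re = 2 * s.re := by
    intro s
    simp
  have hden : ∀ s : ℂ, 0 ≤ s.re → W s * ZZ (2 * s) * t2 (2 * s) ≠ 0 := by
    intro s hs
    refine mul_ne_zero (mul_ne_zero (hD.W_ne s hs) (ZZ_ne _ ?_)) (t2_ne _ ?_)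
    · rw [hre]; linarith
    · rw [hre]; linarith
  have hnum : ∀ s : ℂ, 0 ≤ s.re → 2 * W (2 * s) * ZZ s * t2 s * Complex.exp (R s) ≠ 0 := by
    intro s hs
    refine mul_ne_zero (mul_ne_zero (mul_ne_zero (mul_ne_zero two_ne_zero (hD.W_ne _ ?_))
      (ZZ_ne _ hs)) (t2_ne _ ?_)) (Complex.exp_ne_zero _)
    · rw [hre]; linarith
    · linarith
  have hopen : IsOpen {s : ℂ | -(1 / 10) < s.re} := isOpen_lt continuous_const Complex.continuous_re
  refine ⟨fun s => (2 * W (2 * s) * ZZ s * t2 s * Complex.exp (R s)) /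
    (W s * ZZ (2 * s) * t2 (2 * s)), fun s hs => ⟨?_, div_ne_zero (hnum s hs) (hden s hs)⟩,
    ?_, ?_, ?_⟩
  · have a1 : AnalyticAt ℂ (fun s => W (2 * s)) s := (hD.W_diff.comp h2).analyticAt s
    have a2 : AnalyticAt ℂ ZZ s := ZZ_diff.analyticAt s
    have a3 : AnalyticAt ℂ t2 s := t2_diff.analyticAt s
    have a4 : AnalyticAt ℂ R s := by
      apply hR.analyticAt
      apply hopen.mem_nhds
      change -(1 / 10) < s.re
      linarith
    have a5 : AnalyticAt ℂ W s := hD.W_diff.analyticAt s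
    have a6 : AnalyticAt ℂ (fun s => ZZ (2 * s)) s := (ZZ_diff.comp h2).analyticAt s
    have a7 : AnalyticAt ℂ (fun s => t2 (2 * s)) s := (t2_diff.comp h2).analyticAt s
    exact ((((analyticAt_const.mul a1).mul a2).mul a3).mul a4.cexp).div ((a5.mul a6).mul a7)
      (hden s hs)
  · have h0 := hden 0 le_rfl
    have h1 := hnum 0 le_rfl
    simp only [mul_zero] at h0 h1
    show (2 * W (2 * 0) * ZZ 0 * t2 0 * Complex.exp (R 0)) /
      (W 0 * ZZ (2 * 0) * t2 (2 * 0)) = 2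
    rw [mul_zero, hR0, Complex.exp_zero, div_eq_iff h0]
    ring
  · intro σ hσ
    obtain ⟨w, hw, ew⟩ := Greal_pos (hD.W_pos σ hσ)
    obtain ⟨w2, hw2, ew2⟩ := Greal_pos (hD.W_pos (2 * σ) (by linarith))
    obtain ⟨z, hz, ez⟩ := Greal_pos (ZZ_pos σ hσ)
    obtain ⟨z2, hz2, ez2⟩ := Greal_pos (ZZ_pos (2 * σ) (by linarith))
    obtain ⟨t, ht, et⟩ := Greal_pos (t2_pos σ (by linarith))
    obtain ⟨t', ht', et'⟩ := Greal_pos (t2_pos (2 * σ) (by linarith))
    push_cast at ew2 ez2 et'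
    have hRe : R σ = ((R σ).re : ℂ) := Complex.ext (by simp) (by simp [hRr σ (by linarith)])
    have hq : (2 * W (2 * (σ : ℂ)) * ZZ σ * t2 σ * Complex.exp (R σ)) /
        (W σ * ZZ (2 * (σ : ℂ)) * t2 (2 * (σ : ℂ))) =
        ((2 * w2 * z * t * Real.exp (R σ).re / (w * z2 * t') : ℝ) : ℂ) := by
      rw [ew, ew2, ez, ez2, et, et', hRe]
      push_cast
      simp
    show 0 < ((2 * W (2 * (σ : ℂ)) * ZZ σ * t2 σ * Complex.exp (R σ)) /
        (W σ * ZZ (2 * (σ : ℂ)) * t2 (2 * (σ : ℂ)))).re ∧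
      ((2 * W (2 * (σ : ℂ)) * ZZ σ * t2 σ * Complex.exp (R σ)) /
        (W σ * ZZ (2 * (σ : ℂ)) * t2 (2 * (σ : ℂ)))).im = 0
    rw [hq, Complex.ofReal_re, Complex.ofReal_im]
    exact ⟨by positivity, rfl⟩
  · intro s hs
    rw [eq_div_iff (hden s (by linarith))]
    rw [← hid s hs]
    ring

/-- Division by `s^r` (removable singularity at `0`:
`Complex.analyticAt_of_differentiable_on_punctured_nhds_of_continuousAt` for the function equal
to `L(1+s)/s^r` for `s ≠ 0` and to `l` at `0`). -/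
theorem L1_exists (L : ℂ → ℂ) (hL : DifferentiableOn ℂ L {s : ℂ | 3 / 4 < s.re}) (r : ℕ) (l : ℂ)
    (hlim : Tendsto (fun s : ℂ => L (1 + s) / s ^ r) (𝓝[≠] 0) (𝓝 l)) :
    ∃ L1 : ℂ → ℂ, AnalyticOnNhd ℂ L1 {s : ℂ | -(1 / 4) < s.re} ∧ L1 0 = l ∧
      ∀ s : ℂ, -(1 / 4) < s.re → s ≠ 0 → L (1 + s) = s ^ r * L1 s := by
  classical
  have ho3 : IsOpen {s : ℂ | 3 / 4 < s.re} := isOpen_lt continuous_const Complex.continuous_re
  have ho4 : IsOpen {s : ℂ | -(1 / 4) < s.re} := isOpen_lt continuous_const Complex.continuous_re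
  have hd : ∀ s : ℂ, -(1 / 4) < s.re → s ≠ 0 →
      AnalyticAt ℂ (fun s : ℂ => L (1 + s) / s ^ r) s := by
    intro s hs h0
    have a1 : AnalyticAt ℂ L (1 + s) := by
      apply hL.analyticAt
      apply ho3.mem_nhds
      change 3 / 4 < (1 + s).re
      rw [Complex.add_re, Complex.one_re]
      linarith
    have a2 : AnalyticAt ℂ (fun s : ℂ => 1 + s) s := analyticAt_const.add analyticAt_id
    have a3 : AnalyticAt ℂ (fun s : ℂ => L (1 + s)) s := a1.fun_comp a2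
    exact a3.div (analyticAt_id.pow r) (pow_ne_zero r h0)
  have hev : ∀ s : ℂ, s ≠ 0 → (Function.update (fun s : ℂ => L (1 + s) / s ^ r) 0 l)
      =ᶠ[𝓝 s] fun s : ℂ => L (1 + s) / s ^ r := by
    intro s hs
    filter_upwards [isOpen_ne.mem_nhds hs] with z hz
    exact Function.update_of_ne hz _ _
  have hd' : ∀ s : ℂ, -(1 / 4) < s.re → s ≠ 0 →
      AnalyticAt ℂ (Function.update (fun s : ℂ => L (1 + s) / s ^ r) 0 l) s :=
    fun s hs h0 => (hd s hs h0).congr (hev s h0).symm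
  refine ⟨Function.update (fun s : ℂ => L (1 + s) / s ^ r) 0 l, ?_, Function.update_self _ _ _, ?_⟩
  · intro s hs
    have hs' : -(1 / 4) < s.re := hs
    by_cases h0 : s = 0
    · subst h0
      apply Complex.analyticAt_of_differentiable_on_punctured_nhds_of_continuousAt
      · rw [eventually_nhdsWithin_iff]
        filter_upwards [ho4.mem_nhds hs] with z hz hz0
        exact (hd' z hz hz0).differentiableAt
      · rw [continuousAt_update_same]
        exact hlim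
    · exact hd' s hs' h0
  · intro s hs h0
    rw [Function.update_of_ne h0, mul_div_cancel₀]
    exact pow_ne_zero r h0

/-- A continuous function on a real segment whose doubled exponential is positive is real on it if
it is real at one end: `2 Im F` is continuous with values in `2πℤ`. -/
theorem log_real (F : ℂ → ℂ) (a b : ℝ) (hF : ∀ x ∈ Set.Icc a b, ContinuousAt F (x : ℂ))
    (hpos : ∀ x ∈ Set.Icc a b, 0 < (Complex.exp (2 * F x)).re ∧ (Complex.exp (2 * F x)).im = 0)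
    (hb : (F b).im = 0) : ∀ x ∈ Set.Icc a b, (F x).im = 0 := by
  intro x hx
  have hab : a ≤ b := hx.1.trans hx.2
  have hbm : b ∈ Set.Icc a b := ⟨hab, le_rfl⟩
  have hc : ContinuousOn (fun x : ℝ => 2 * F (x : ℂ)) (Set.Icc a b) := by
    intro y hy
    have h1 : ContinuousAt (fun x : ℝ => F (x : ℂ)) y :=
      ContinuousAt.comp (f := fun x : ℝ => (x : ℂ)) (hF y hy) Complex.continuous_ofReal.continuousAt
    exact (continuousAt_const.mul h1).continuousWithinAt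
  have hre : ContinuousOn (fun x : ℝ => (Complex.exp (2 * F (x : ℂ))).re) (Set.Icc a b) :=
    Complex.continuous_re.comp_continuousOn hc.cexp
  have hlc : ContinuousOn (fun x : ℝ => ((Real.log (Complex.exp (2 * F (x : ℂ))).re : ℝ) : ℂ))
      (Set.Icc a b) :=
    Complex.continuous_ofReal.comp_continuousOn (hre.log fun y hy => (hpos y hy).1.ne')
  have hexp : ∀ y ∈ Set.Icc a b, Complex.exp (2 * F (y : ℂ)) =
      Complex.exp ((Real.log (Complex.exp (2 * F (y : ℂ))).re : ℝ) : ℂ) := by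
    intro y hy
    rw [← Complex.ofReal_exp, Real.exp_log (hpos y hy).1]
    exact Complex.ext (by simp) (by simp [(hpos y hy).2])
  have hbe : 2 * F (b : ℂ) = ((Real.log (Complex.exp (2 * F (b : ℂ))).re : ℝ) : ℂ) := by
    have h1 : 2 * F (b : ℂ) = ((2 * (F b).re : ℝ) : ℂ) :=
      Complex.ext (by simp) (by simp [hb])
    rw [h1, ← Complex.ofReal_exp, Complex.ofReal_re, Real.log_exp]
  have hmain := Complex.isCoveringMap_exp.eqOn_of_comp_eqOn
    (isPreconnected_Icc (a := a) (b := b)) hc hlc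
    (fun z hz => Subtype.ext (hexp z hz)) hbm hbe hx
  have h2 : 2 * F (x : ℂ) = ((Real.log (Complex.exp (2 * F (x : ℂ))).re : ℝ) : ℂ) := hmain
  have h3 := congrArg Complex.im h2
  rw [Complex.ofReal_im] at h3
  simpa using h3

/-- Extension of `G = (1/2) log (Q / L1²)` from `V` to a convex neighbourhood `U` of `0`, and the value
at `0`.  `log_ext` with `f = Q / L1²`.  On the real segment from `0` to `σ1` (in `U` by convexity)
`f` is real and positive (`Q` by `Q_full`; `L1` is real on the reals, being the limit or quotient of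
real values), so by `log_real` the extension is real at `0`, where its doubled
exponential is `2 / l²`; hence the value `(1/2) log (2/l²) = log (√2/|l|)`. -/
theorem ext_at (α : ℕ → ℂ) (L W : ℂ → ℂ) (hD : DataR α L W) (r : ℕ) (l : ℝ) (hl : l ≠ 0)
    (Q : ℂ → ℂ) (hQ0 : Q 0 = 2) (hQp : ∀ σ : ℝ, 0 ≤ σ → 0 < (Q σ).re ∧ (Q σ).im = 0)
    (L1 : ℂ → ℂ) (hL1a : AnalyticOnNhd ℂ L1 {s : ℂ | -(1 / 4) < s.re}) (hL10 : L1 0 = l)
    (hL1 : ∀ s : ℂ, -(1 / 4) < s.re → s ≠ 0 → L (1 + s) = s ^ r * L1 s)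
    (U V : Set ℂ) (hU : IsOpen U) (hUc : Convex ℝ U) (h0 : (0 : ℂ) ∈ U)
    (hUf : ∀ s ∈ U, AnalyticAt ℂ Q s ∧ Q s ≠ 0 ∧ -(1 / 4) < s.re ∧ L1 s ≠ 0)
    (hVU : V ⊆ U) (hVc : IsPreconnected V) (σ1 : ℝ) (hσ1 : 0 < σ1) (hσV : (σ1 : ℂ) ∈ V)
    (G : ℂ → ℂ) (hG : ContinuousOn G V) (hGf : ∀ z ∈ V, Complex.exp (2 * G z) = Q z / (L1 z) ^ 2)
    (hGr : (G σ1).im = 0) :
    ∃ Λ : ℂ → ℂ, AnalyticOnNhd ℂ Λ U ∧ (∀ z ∈ V, Λ z = G z) ∧
      Λ 0 = (Real.log (Real.sqrt 2 / |l|) : ℂ) := by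
  have hfa : AnalyticOnNhd ℂ (fun z => Q z / (L1 z) ^ 2) U := fun z hz =>
    (hUf z hz).1.div ((hL1a z (hUf z hz).2.2.1).pow 2) (pow_ne_zero 2 (hUf z hz).2.2.2)
  obtain ⟨g, hga, hgf, hgV⟩ := log_ext U V hU hUc hVc ⟨_, hσV⟩ hVU (fun z => Q z / (L1 z) ^ 2) G
    hfa (fun z hz => div_ne_zero (hUf z hz).2.1 (pow_ne_zero 2 (hUf z hz).2.2.2)) hG hGf
  refine ⟨g, hga, hgV, ?_⟩
  have hseg : ∀ x ∈ Set.Icc (0 : ℝ) σ1, (x : ℂ) ∈ U := by
    intro x hx
    have h1 := hUc h0 (hVU hσV) (a := 1 - x / σ1) (b := x / σ1)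
      (by rw [sub_nonneg, div_le_one hσ1]; exact hx.2) (div_nonneg hx.1 hσ1.le) (by ring)
    have h2 : (1 - x / σ1) • (0 : ℂ) + (x / σ1) • (σ1 : ℂ) = (x : ℂ) := by
      rw [smul_zero, zero_add, Complex.real_smul, ← Complex.ofReal_mul, div_mul_cancel₀ _ hσ1.ne']
    rwa [h2] at h1
  have hL1r : ∀ x : ℝ, 0 ≤ x → (L1 x).im = 0 := by
    intro x hx
    rcases hx.eq_or_lt with h | h
    · rw [← h, Complex.ofReal_zero, hL10, Complex.ofReal_im]
    · have h1 := hL1 (x : ℂ) (by rw [Complex.ofReal_re]; linarith)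
        (by exact_mod_cast h.ne')
      have h2 := hD.L_real (1 + x) (by linarith)
      push_cast at h2
      rw [h1, ← Complex.ofReal_pow, Complex.im_ofReal_mul] at h2
      exact (mul_eq_zero.1 h2).resolve_left (pow_pos h r).ne'
  have hpos : ∀ x ∈ Set.Icc (0 : ℝ) σ1, 0 < (Complex.exp (2 * g x)).re ∧
      (Complex.exp (2 * g x)).im = 0 := by
    intro x hx
    obtain ⟨q, hq, eq⟩ := Greal_pos (hQp x hx.1)
    have hne := (hUf _ (hseg x hx)).2.2.2
    have hLe : L1 x = ((L1 x).re : ℂ) :=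
      Complex.ext (by simp) (by simp [hL1r x hx.1])
    have hre0 : (L1 x).re ≠ 0 := by
      intro h
      rw [h, Complex.ofReal_zero] at hLe
      exact hne hLe
    have h3 : Complex.exp (2 * g x) = ((q / (L1 x).re ^ 2 : ℝ) : ℂ) := by
      rw [hgf _ (hseg x hx)]
      show Q x / (L1 x) ^ 2 = _
      rw [eq]
      push_cast
      rw [← hLe]
    rw [h3, Complex.ofReal_re, Complex.ofReal_im]
    exact ⟨by positivity, rfl⟩
  have hre : (g 0).im = 0 := by
    have := log_real g 0 σ1 (fun x hx => (hga _ (hseg x hx)).continuousAt) hpos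
      (by rw [hgV _ hσV]; exact hGr) 0 ⟨le_rfl, hσ1.le⟩
    rwa [Complex.ofReal_zero] at this
  have hg0 : g 0 = ((g 0).re : ℂ) := Complex.ext (by simp) (by simp [hre])
  have hl2 : (0 : ℝ) < l ^ 2 := by positivity
  have h4 : Real.exp (2 * (g 0).re) = 2 / l ^ 2 := by
    have h5 := hgf 0 h0
    rw [hg0] at h5
    have h6 : Complex.exp (2 * (((g 0).re : ℝ) : ℂ)) = ((Real.exp (2 * (g 0).re) : ℝ) : ℂ) := by
      push_cast
      rfl
    rw [h6] at h5
    have h7 : Q 0 / (L1 0) ^ 2 = ((2 / l ^ 2 : ℝ) : ℂ) := by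
      rw [hQ0, hL10]
      push_cast
      rfl
    have h8 : ((Real.exp (2 * (g 0).re) : ℝ) : ℂ) = ((2 / l ^ 2 : ℝ) : ℂ) := h5.trans h7
    exact_mod_cast h8
  have h9 : (g 0).re = Real.log (Real.sqrt 2 / |l|) := by
    have h10 : 2 * (g 0).re = Real.log (2 / l ^ 2) := by rw [← h4, Real.log_exp]
    have h11 : (2 : ℝ) / l ^ 2 = (Real.sqrt 2 / |l|) ^ 2 := by
      rw [div_pow, Real.sq_sqrt (by norm_num), sq_abs]
    rw [h11, Real.log_pow] at h10
    push_cast at h10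
    linarith
  rw [hg0, h9]

end W3283g
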