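import Pool.Agent.W_3283e1_h53.GauLap
import Pool.Agent.W_3283e1_h53.Conv
import Pool.Agent.W_3283e1_h53.NearZ

set_option autoImplicit false

namespace W3283g

open Complex W3283e1 W3283f MeasureTheory Filter Topology

/-- If `|gm u| ≤ K_ε e^{εu}` for `u ≥ 1` and every `ε > 0` then `gm` is integrable against `e^{-σu}` on
`(0,∞)` for every `σ > 0`: on `(1,∞)` by the bound with `ε = σ/2`; on `(0,1]` by `gm_lap` with
`s = 1` (`er_int`), as `e^{-σu}` and `e^{-(1+c/2)u}` are comparable there. -/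
theorem gm_int (α : ℕ → ℂ) (hα : ∀ p : ℕ, p.Prime → p ≠ 2 → ‖α p‖ ^ 2 = p) (κ0 : ℝ) (r : ℕ)
    (c : ℝ) (hc : 0 < c)
    (h : ∀ ε : ℝ, 0 < ε → ∃ K : ℝ, ∀ u : ℝ, 1 ≤ u →
      |gm (er α κ0 r) c u| ≤ K * Real.exp (ε * u)) (σ : ℝ) (hσ : 0 < σ) :
    IntegrableOn (fun u : ℝ => gm (er α κ0 r) c u * Real.exp (-(σ * u))) (Set.Ioi 0) := by
  set e := er α κ0 r with he
  have hem : Measurable e := er_meas α κ0 r
  have hgm : Measurable (gm e c) := gm_meas e hem c
  have hm : Measurable (fun u : ℝ => gm e c u * Real.exp (-(σ * u))) :=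
    hgm.mul (by fun_prop)
  have hi := (gm_lap e hem c 1 hc one_pos (er_int α hα κ0 r 1 (by norm_num))).1
  rw [← Set.Ioc_union_Ioi_eq_Ioi (zero_le_one' ℝ)]
  refine IntegrableOn.union ?_ ?_
  · have h1 := hi.mono_set (Set.Ioc_subset_Ioi_self : Set.Ioc (0 : ℝ) 1 ⊆ Set.Ioi 0)
    refine Integrable.mono' (h1.norm.const_mul (Real.exp |1 + c / 2 - σ|))
      hm.aestronglyMeasurable ?_
    refine (ae_restrict_iff' measurableSet_Ioc).2 (Eventually.of_forall fun u hu => ?_)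
    have e1 : Real.exp (-(σ * u)) =
        Real.exp ((1 + c / 2 - σ) * u) * Real.exp (-((1 + c * 1 ^ 2 / 2) * u)) := by
      rw [← Real.exp_add]
      congr 1
      ring
    have e2 : (1 + c / 2 - σ) * u ≤ |1 + c / 2 - σ| := by
      have h3 := le_abs_self (1 + c / 2 - σ)
      have h4 := abs_nonneg (1 + c / 2 - σ)
      nlinarith [hu.1, hu.2]
    rw [e1, mul_left_comm, norm_mul]
    refine mul_le_mul_of_nonneg_right ?_ (norm_nonneg _)
    rw [Real.norm_eq_abs, abs_of_pos (Real.exp_pos _)]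
    exact Real.exp_le_exp.2 e2
  · obtain ⟨K, hK⟩ := h (σ / 2) (half_pos hσ)
    have h1 : IntegrableOn (fun u : ℝ => K * Real.exp (-(σ / 2) * u)) (Set.Ioi 1) :=
      (integrableOn_exp_mul_Ioi (by linarith) 1).const_mul K
    refine Integrable.mono' h1 hm.aestronglyMeasurable ?_
    refine (ae_restrict_iff' measurableSet_Ioi).2 (Eventually.of_forall fun u hu => ?_)
    have hu1 : (1 : ℝ) ≤ u := le_of_lt hu
    have e1 : K * Real.exp (-(σ / 2) * u) = K * Real.exp (σ / 2 * u) * Real.exp (-(σ * u)) := by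
      rw [mul_assoc, ← Real.exp_add]
      congr 2
      ring
    rw [e1, norm_mul, Real.norm_eq_abs, Real.norm_eq_abs, abs_of_pos (Real.exp_pos _)]
    exact mul_le_mul_of_nonneg_right (hK u hu1) (Real.exp_pos _).le

theorem GauBwd_GG (α : ℕ → ℂ) (hα : ∀ p : ℕ, p.Prime → p ≠ 2 → ‖α p‖ ^ 2 = p) (s : ℂ)
    (hs : 1 / 2 < s.re) : DifferentiableAt ℂ (GG α) s := by
  have h1 : LSeries.abscissaOfAbsConv (fun n => (el α n : ℂ)) < s.re := by
    have h2 := (summable_el α hα (((1 / 2 + s.re) / 2 : ℝ) : ℂ) (by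
      rw [Complex.ofReal_re]
      linarith)).abscissaOfAbsConv_le
    refine lt_of_le_of_lt h2 ?_
    rw [Complex.ofReal_re]
    exact_mod_cast (by linarith : (1 / 2 + s.re) / 2 < s.re)
  exact (LSeries_hasDerivAt h1).differentiableAt

theorem GauBwd_iff {c : ℝ} (hc : 0 < c) {s : ℂ} (h0 : 0 < s.re) :
    c * s.im ^ 2 < c * s.re ^ 2 + 2 * s.re ↔ ‖((s.im : ℂ) + (1 / c : ℝ) * I)‖ < s.re + 1 / c := by
  have hb : 0 < 1 / c := by positivity
  rw [Complex.norm_add_mul_I, Real.sqrt_lt' (by positivity)]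
  have h1 : c * (s.re ^ 2 + 2 * s.re * (1 / c) - s.im ^ 2) =
      c * s.re ^ 2 + 2 * s.re - c * s.im ^ 2 := by
    field_simp
  constructor
  · intro h
    have h2 : 0 < c * (s.re ^ 2 + 2 * s.re * (1 / c) - s.im ^ 2) := by
      rw [h1]; linarith
    have h3 := (mul_pos_iff_of_pos_left hc).1 h2
    nlinarith [h3]
  · intro h
    have h3 : 0 < s.re ^ 2 + 2 * s.re * (1 / c) - s.im ^ 2 := by nlinarith [h]
    have h2 := mul_pos hc h3
    rw [h1] at h2
    linarith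

theorem GauBwd_convex {c : ℝ} (hc : 0 < c) (a : ℝ) (ha : 0 ≤ a) :
    Convex ℝ {s : ℂ | a < s.re ∧ c * s.im ^ 2 < c * s.re ^ 2 + 2 * s.re} := by
  intro x hx y hy p q hp hq hpq
  have hx0 : 0 < x.re := lt_of_le_of_lt ha hx.1
  have hy0 : 0 < y.re := lt_of_le_of_lt ha hy.1
  have hx2 := (GauBwd_iff hc hx0).1 hx.2
  have hy2 := (GauBwd_iff hc hy0).1 hy.2
  have hre : (p • x + q • y).re = p * x.re + q * y.re := by
    simp
  have him : (p • x + q • y).im = p * x.im + q * y.im := by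
    simp
  have h1 : a < (p • x + q • y).re := by
    rw [hre]
    have e : a = p * a + q * a := by rw [← add_mul, hpq, one_mul]
    rcases hp.eq_or_lt with rfl | hp
    · have hq1 : q = 1 := by linarith
      subst hq1
      simpa using hy.1
    · have e1 := mul_lt_mul_of_pos_left hx.1 hp
      have e2 := mul_le_mul_of_nonneg_left hy.1.le hq
      linarith
  refine ⟨h1, ?_⟩
  rw [GauBwd_iff hc (lt_of_le_of_lt ha h1), hre, him]
  have e3 : (((p * x.im + q * y.im : ℝ) : ℂ) + ((1 / c : ℝ) : ℂ) * I) =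
      (p : ℂ) * ((x.im : ℂ) + ((1 / c : ℝ) : ℂ) * I) +
        (q : ℂ) * ((y.im : ℂ) + ((1 / c : ℝ) : ℂ) * I) := by
    have e4 : (p : ℂ) + (q : ℂ) = 1 := by exact_mod_cast hpq
    push_cast
    linear_combination (-(1 / (c : ℂ)) * I) * e4
  rw [e3]
  have e5 := norm_add_le ((p : ℂ) * ((x.im : ℂ) + ((1 / c : ℝ) : ℂ) * I))
    ((q : ℂ) * ((y.im : ℂ) + ((1 / c : ℝ) : ℂ) * I))
  rw [norm_mul, norm_mul, Complex.norm_real, Complex.norm_real, Real.norm_of_nonneg hp,
    Real.norm_of_nonneg hq] at e5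
  refine lt_of_le_of_lt e5 ?_
  have e6 : p * x.re + q * y.re + 1 / c = p * (x.re + 1 / c) + q * (y.re + 1 / c) := by
    linear_combination (-(1 / c)) * hpq
  rw [e6]
  rcases hp.eq_or_lt with rfl | hp
  · have hq1 : q = 1 := by linarith
    subst hq1
    simpa using hy2
  · have e1 := mul_lt_mul_of_pos_left hx2 hp
    have e2 := mul_le_mul_of_nonneg_left hy2.le hq
    linarith

theorem GauBwd_open (c a : ℝ) :
    IsOpen {s : ℂ | a < s.re ∧ c * s.im ^ 2 < c * s.re ^ 2 + 2 * s.re} :=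
  (isOpen_lt continuous_const Complex.continuous_re).inter
    (isOpen_lt (continuous_const.mul (Complex.continuous_im.pow 2))
      ((continuous_const.mul (Complex.continuous_re.pow 2)).add
        (continuous_const.mul Complex.continuous_re)))

theorem GauBwd_L (L : ℂ → ℂ) (hL : DifferentiableOn ℂ L {s : ℂ | 3 / 4 < s.re}) (s : ℂ)
    (hs : 0 < s.re) : AnalyticAt ℂ (fun s : ℂ => L (1 + s)) s := by
  have ho3 : IsOpen {s : ℂ | 3 / 4 < s.re} := isOpen_lt continuous_const Complex.continuous_re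
  have a1 : AnalyticAt ℂ L (1 + s) := by
    apply hL.analyticAt
    apply ho3.mem_nhds
    change 3 / 4 < (1 + s).re
    rw [Complex.add_re, Complex.one_re]
    linarith
  have a2 : AnalyticAt ℂ (fun s : ℂ => 1 + s) s := analyticAt_const.add analyticAt_id
  exact a1.fun_comp a2

/-- A region criterion: if `GG` has a holomorphic continuation `Gt` to the open region
`Ω = {σ > 0, c t² < c σ² + 2 σ}` then `L(1+s) ≠ 0` on `Ω`.  `Ω` is convex
(`√(t² + b²) < σ + b`, `b = 1/c`), as is `Ω ∩ {Re s > 1/2}`.  `Gt` and `GG` are analytic on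
`Ω ∩ {Re s > 1/2}` and agree on the reals `> 1/2`, so they agree there (identity theorem,
`AnalyticOnNhd.eqOn_of_preconnected_of_frequently_eq` at `1`); the identity
`L(1+s)² exp(2 Gt) = Q` (`Q_full` or `QF_exists`) extends to `Ω`, and `Q ≠ 0`. -/
theorem reg_crit (α : ℕ → ℂ) (L W : ℂ → ℂ) (hD : DataF α L W) (c : ℝ) (hc : 0 < c) (Gt : ℂ → ℂ)
    (hG : DifferentiableOn ℂ Gt {s : ℂ | 0 < s.re ∧ c * s.im ^ 2 < c * s.re ^ 2 + 2 * s.re})
    (hGG : ∀ σ : ℝ, 1 / 2 < σ → Gt σ = GG α σ) (s : ℂ) (h0 : 0 < s.re)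
    (h1 : c * s.im ^ 2 < c * s.re ^ 2 + 2 * s.re) : L (1 + s) ≠ 0 := by
  obtain ⟨Q, hQ, hid⟩ := QF_exists α L W hD
  have ho := GauBwd_open c 0
  have ho2 := GauBwd_open c (1 / 2)
  have hmem : ∀ a : ℝ, a < 1 →
      (1 : ℂ) ∈ {s : ℂ | a < s.re ∧ c * s.im ^ 2 < c * s.re ^ 2 + 2 * s.re} := by
    intro a ha
    change a < (1 : ℂ).re ∧ c * (1 : ℂ).im ^ 2 < c * (1 : ℂ).re ^ 2 + 2 * (1 : ℂ).re
    rw [Complex.one_re, Complex.one_im]
    exact ⟨ha, by nlinarith⟩
  -- `Gt = GG` on the smaller region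
  have hA1 : AnalyticOnNhd ℂ Gt
      {s : ℂ | 1 / 2 < s.re ∧ c * s.im ^ 2 < c * s.re ^ 2 + 2 * s.re} := by
    intro z hz
    have hz1 : 1 / 2 < z.re := hz.1
    exact hG.analyticAt (ho.mem_nhds ⟨by linarith, hz.2⟩)
  have hA2 : AnalyticOnNhd ℂ (GG α)
      {s : ℂ | 1 / 2 < s.re ∧ c * s.im ^ 2 < c * s.re ^ 2 + 2 * s.re} := by
    have hd : DifferentiableOn ℂ (GG α)
        {s : ℂ | 1 / 2 < s.re ∧ c * s.im ^ 2 < c * s.re ^ 2 + 2 * s.re} :=
      fun z hz => (GauBwd_GG α hD.norm_α z hz.1).differentiableWithinAt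
    exact hd.analyticOnNhd ho2
  have ht : Tendsto (fun σ : ℝ => (σ : ℂ)) (𝓝[≠] 1) (𝓝[≠] 1) := by
    refine tendsto_nhdsWithin_of_tendsto_nhds_of_eventually_within _ ?_ ?_
    · exact (Complex.continuous_ofReal.tendsto' 1 1 (by simp)).mono_left nhdsWithin_le_nhds
    · filter_upwards [self_mem_nhdsWithin] with σ hσ hσ1
      have h5 : (σ : ℂ) = 1 := hσ1
      have h6 : σ = 1 := by exact_mod_cast h5
      exact hσ h6
  have hfr : ∃ᶠ z in 𝓝[≠] (1 : ℂ), Gt z = GG α z := by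
    refine ht.frequently (Eventually.frequently ?_)
    have h3 : ∀ᶠ σ : ℝ in 𝓝 1, 1 / 2 < σ := lt_mem_nhds (by norm_num)
    filter_upwards [nhdsWithin_le_nhds h3] with σ hσ
    exact hGG σ hσ
  have hEq : Set.EqOn Gt (GG α)
      {s : ℂ | 1 / 2 < s.re ∧ c * s.im ^ 2 < c * s.re ^ 2 + 2 * s.re} :=
    hA1.eqOn_of_preconnected_of_frequently_eq hA2
      (GauBwd_convex hc (1 / 2) (by norm_num)).isPreconnected (hmem _ (by norm_num)) hfr
  -- the identity on the region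
  have hf : AnalyticOnNhd ℂ (fun s => (L (1 + s)) ^ 2 * Complex.exp (2 * Gt s))
      {s : ℂ | 0 < s.re ∧ c * s.im ^ 2 < c * s.re ^ 2 + 2 * s.re} := by
    intro z hz
    exact ((GauBwd_L L hD.L_diff z hz.1).pow 2).mul
      (analyticAt_const.mul (hG.analyticAt (ho.mem_nhds hz))).cexp
  have hg : AnalyticOnNhd ℂ Q
      {s : ℂ | 0 < s.re ∧ c * s.im ^ 2 < c * s.re ^ 2 + 2 * s.re} :=
    fun z hz => (hQ z (le_of_lt hz.1)).1
  have he : (fun s => (L (1 + s)) ^ 2 * Complex.exp (2 * Gt s)) =ᶠ[nhds 1] Q := by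
    filter_upwards [ho2.mem_nhds (hmem (1 / 2) (by norm_num))] with z hz
    rw [hEq hz]
    exact hid z hz.1
  have hfin := hf.eqOn_of_preconnected_of_eventuallyEq hg
    (GauBwd_convex hc 0 le_rfl).isPreconnected (hmem 0 one_pos) he
    (show s ∈ {s : ℂ | 0 < s.re ∧ c * s.im ^ 2 < c * s.re ^ 2 + 2 * s.re} from ⟨h0, h1⟩)
  intro hL0
  apply (hQ s h0.le).2
  rw [← hfin]
  simp only
  rw [hL0]
  ring

/-- The converse.  `M(z) = ∫_0^∞ gm u e^{-zu} du` is holomorphic for `Re z > 0` (`gm_int`, `gm_meas`,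
`lap_diff`).  For `s ∈ Ω`, `Re (s + c s²/2) > 0`.  Put
`Gt s = s (1 + c s) M(s + c s²/2) - r (γ + log s) + κ0`; for real `s > 1/2` it equals `GG α s` by
`gm_lap`, `er_int`, `er_transform`.  Apply `reg_crit`. -/
theorem gau_bwd (α : ℕ → ℂ) (L W : ℂ → ℂ) (hD : DataR α L W) (κ0 : ℝ) (r : ℕ) (c : ℝ)
    (hc : 0 < c)
    (h : ∀ ε : ℝ, 0 < ε → ∃ K : ℝ, ∀ u : ℝ, 1 ≤ u →
      |gm (er α κ0 r) c u| ≤ K * Real.exp (ε * u)) (s : ℂ) (h0 : 0 < s.re)
    (h1 : c * s.im ^ 2 < c * s.re ^ 2 + 2 * s.re) : L (1 + s) ≠ 0 := by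
  have hα := hD.norm_α
  have hint := gm_int α hα κ0 r c hc h
  set e := er α κ0 r with he
  have hem : Measurable e := er_meas α κ0 r
  have hgm : Measurable (gm e c) := gm_meas e hem c
  have hM := lap_diff (gm e c) hgm (fun σ hσ => hint σ hσ)
  have hoM : IsOpen {s : ℂ | 0 < s.re} := isOpen_lt continuous_const Complex.continuous_re
  set M : ℂ → ℂ := fun s : ℂ =>
    ∫ v in Set.Ioi (0 : ℝ), (gm e c v : ℂ) * Complex.exp (-(s * v)) with hMdef
  refine reg_crit α L W hD.toDataF c hc (fun s => s * (1 + c * s) * M (s + c * s ^ 2 / 2) -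
    r * ((Real.eulerMascheroniConstant : ℂ) + Complex.log s) + κ0) ?_ ?_ s h0 h1
  · intro z hz
    have hz0 : 0 < z.re := hz.1
    have hre : 0 < (z + c * z ^ 2 / 2).re := by
      have e1 : (z + c * z ^ 2 / 2).re = z.re + c * (z.re ^ 2 - z.im ^ 2) / 2 := by
        have e2 : z + c * z ^ 2 / 2 = z + ((c / 2 : ℝ) : ℂ) * (z * z) := by
          push_cast; ring
        rw [e2, Complex.add_re, Complex.re_ofReal_mul, Complex.mul_re]
        ring
      rw [e1]
      have := hz.2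
      linarith
    have d1 : DifferentiableAt ℂ M (z + c * z ^ 2 / 2) :=
      hM.differentiableAt (hoM.mem_nhds hre)
    have d2 : DifferentiableAt ℂ (fun s : ℂ => s + c * s ^ 2 / 2) z := by fun_prop
    have d3 : DifferentiableAt ℂ (fun s : ℂ => M (s + c * s ^ 2 / 2)) z :=
      DifferentiableAt.comp z (g := M) (f := fun s : ℂ => s + c * s ^ 2 / 2) d1 d2
    have d4 : DifferentiableAt ℂ Complex.log z :=
      (Complex.hasStrictDerivAt_log (Or.inl hz0)).hasDerivAt.differentiableAt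
    have d5 : DifferentiableAt ℂ (fun s : ℂ => s * (1 + c * s)) z := by fun_prop
    exact (((d5.mul d3).sub (((differentiableAt_const _).add d4).const_mul _)).add
      (differentiableAt_const _)).differentiableWithinAt
  · intro σ hσ
    have hσ0 : 0 < σ := by linarith
    have hg := (gm_lap e hem c σ hc hσ0 (er_int α hα κ0 r σ hσ)).2
    have ht := er_transform α hα κ0 r (σ : ℂ) (by rw [Complex.ofReal_re]; exact hσ)
    have hr1 : M ((σ : ℂ) + c * (σ : ℂ) ^ 2 / 2) =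
        ((∫ u in Set.Ioi (0 : ℝ), gm e c u * Real.exp (-((σ + c * σ ^ 2 / 2) * u)) : ℝ) : ℂ) := by
      rw [← integral_complex_ofReal]
      simp only [hMdef]
      refine integral_congr_ae (Eventually.of_forall fun u => ?_)
      simp only
      push_cast
      rfl
    have hr2 : (∫ u in Set.Ioi (0 : ℝ), (e u : ℂ) * Complex.exp (-((σ : ℂ) * u))) =
        ((∫ u in Set.Ioi (0 : ℝ), e u * Real.exp (-(σ * u)) : ℝ) : ℂ) := by
      rw [← integral_complex_ofReal]
      refine integral_congr_ae (Eventually.of_forall fun u => ?_)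
      simp only
      push_cast
      rfl
    rw [hr2] at ht
    change (σ : ℂ) * (1 + c * σ) * M ((σ : ℂ) + c * (σ : ℂ) ^ 2 / 2) -
      r * ((Real.eulerMascheroniConstant : ℂ) + Complex.log σ) + κ0 = GG α σ
    rw [hr1, hg]
    have hne : (1 : ℂ) + c * σ ≠ 0 := by
      have : (1 : ℝ) + c * σ ≠ 0 := by positivity
      exact_mod_cast this
    push_cast at ht ⊢
    have e1 : (σ : ℂ) * (1 + c * σ) *
        (((∫ v in Set.Ioi (0 : ℝ), e v * Real.exp (-(σ * v)) : ℝ) : ℂ) / (1 + c * σ)) =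
        σ * ((∫ v in Set.Ioi (0 : ℝ), e v * Real.exp (-(σ * v)) : ℝ) : ℂ) := by
      rw [mul_assoc, mul_div_cancel₀ _ hne]
    rw [e1]
    linear_combination ht

end W3283g
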