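import Pool.Agent.W_3283e1_h53.PrimC
import Pool.Agent.W_3283e1_h53.GauRep

set_option autoImplicit false

namespace W3283g

open Complex MeasureTheory Filter Topology

/-- The Gaussian mean of `e` over the window of width `√(c u)` about `u`. -/
noncomputable def gm (e : ℝ → ℝ) (c u : ℝ) : ℝ :=
  (Real.sqrt (2 * Real.pi * (c * u)))⁻¹ *
    ∫ v in Set.Ioi (0 : ℝ), e v * Real.exp (-(v - u) ^ 2 / (2 * (c * u)))

theorem GauDec_sqrt_sub {x y : ℝ} (hy : 0 ≤ y) (hxy : y ≤ x) :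
    Real.sqrt x - Real.sqrt y ≤ Real.sqrt (x - y) := by
  have h : Real.sqrt x ≤ Real.sqrt y + Real.sqrt (x - y) := by
    rw [Real.sqrt_le_iff]
    refine ⟨by positivity, ?_⟩
    have h1 := Real.sq_sqrt hy
    have h2 := Real.sq_sqrt (sub_nonneg.2 hxy)
    have h3 := mul_nonneg (Real.sqrt_nonneg y) (Real.sqrt_nonneg (x - y))
    nlinarith
  linarith

/-- the comparison set is compact -/
theorem GauDec_compact (σ0 c : ℝ) (hc : 0 < c) :
    IsCompact {s : ℂ | 0 ≤ s.re ∧ s.re ≤ σ0 ∧ c * s.im ^ 2 ≤ c * s.re ^ 2 + 2 * s.re} := by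
  refine Metric.isCompact_of_isClosed_isBounded ?_ ?_
  · have h1 : IsClosed {s : ℂ | 0 ≤ s.re} := isClosed_le continuous_const Complex.continuous_re
    have h2 : IsClosed {s : ℂ | s.re ≤ σ0} := isClosed_le Complex.continuous_re continuous_const
    have h3 : IsClosed {s : ℂ | c * s.im ^ 2 ≤ c * s.re ^ 2 + 2 * s.re} :=
      isClosed_le (continuous_const.mul (Complex.continuous_im.pow 2))
        ((continuous_const.mul (Complex.continuous_re.pow 2)).add
          (continuous_const.mul Complex.continuous_re))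
    exact h1.inter (h2.inter h3)
  · rw [isBounded_iff_forall_norm_le]
    refine ⟨|σ0| + (|σ0| + 2 / c), ?_⟩
    rintro s ⟨h1, h2, h3⟩
    refine (Complex.norm_le_abs_re_add_abs_im s).trans ?_
    have hσ : 0 ≤ σ0 := h1.trans h2
    rw [abs_of_nonneg hσ, abs_of_nonneg h1]
    have h4 : |s.im| ≤ σ0 + 2 / c := by
      rw [← Real.sqrt_sq_eq_abs, Real.sqrt_le_iff]
      refine ⟨by positivity, ?_⟩
      have h5 : c * s.im ^ 2 ≤ c * σ0 ^ 2 + 2 * σ0 := by
        refine h3.trans ?_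
        have : s.re ^ 2 ≤ σ0 ^ 2 := by nlinarith
        nlinarith
      have h6 : c * (σ0 + 2 / c) ^ 2 = c * σ0 ^ 2 + 4 * σ0 + 4 / c := by
        field_simp
        ring
      have h7 : 0 < 4 / c := by positivity
      have h8 : c * s.im ^ 2 ≤ c * (σ0 + 2 / c) ^ 2 := by rw [h6]; linarith
      exact le_of_mul_le_mul_left h8 hc
    linarith

/-- The set `{c t² ≤ c σ² + 2 σ, 0 ≤ σ ≤ σ0}` is compact, so `U` contains a `δ`-neighbourhood of it.
With `b = 1/c`, `0 < κ < b/2`, put `h t = √(t² + b² - 2 b κ) - b` (so that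
`Re (s + c s²/2) = -κ` on `s = h t + i t`) and `T = √((σ0+b)² - b² + 2 b κ)`, so `h (±T) = σ0`,
`|h'| ≤ 1`.  If `κ` is small then `h t + i t` and `σ0 + i t` are in `U` for `|t| ≤ T`: with
`T0 = √((σ0+b)² - b²)`, `t' = t T0/T`, `h0 t' = √(t'^2+b²) - b ∈ [0, σ0]`, the point `h0 t' + i t'`
is in the compact set and `|t - t'| ≤ T - T0`, `|h t - h0 t'| ≤ √(2 b κ) + |t - t'|`
(`√(A) - √(A - d) ≤ √d`); the same for `σ0 + i t'`. -/
theorem gau_path (σ0 c : ℝ) (hσ0 : 0 < σ0) (hc : 0 < c) (U : Set ℂ) (hU : IsOpen U)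
    (hreg : ∀ s : ℂ, 0 ≤ s.re → s.re ≤ σ0 → c * s.im ^ 2 ≤ c * s.re ^ 2 + 2 * s.re → s ∈ U) :
    ∃ (κ T : ℝ) (h h' : ℝ → ℝ), 0 < κ ∧ 0 < T ∧ h T = σ0 ∧ h (-T) = σ0 ∧
      (∀ t : ℝ, HasDerivAt h (h' t) t) ∧ Continuous h' ∧ (∀ t : ℝ, |h' t| ≤ 1) ∧
      (∀ t : ℝ, h t + c * ((h t) ^ 2 - t ^ 2) / 2 = -κ) ∧
      (∀ t ∈ Set.Icc (-T) T, (h t : ℂ) + t * I ∈ U) ∧
      ∀ t ∈ Set.Icc (-T) T, (σ0 : ℂ) + t * I ∈ U := by
  obtain ⟨b, hb0, hbc⟩ : ∃ b : ℝ, 0 < b ∧ b * c = 1 :=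
    ⟨1 / c, by positivity, by field_simp⟩
  obtain ⟨δ, hδ, hth⟩ := (GauDec_compact σ0 c hc).exists_thickening_subset_open hU
    (fun s hs => hreg s hs.1 hs.2.1 hs.2.2)
  obtain ⟨κ, hκ, hκ1, hκ2⟩ : ∃ κ : ℝ, 0 < κ ∧ 4 * κ ≤ b ∧ 8 * b * κ < δ ^ 2 := by
    refine ⟨min (b / 4) (δ ^ 2 / (16 * b)), by positivity, ?_, ?_⟩
    · have := min_le_left (b / 4) (δ ^ 2 / (16 * b))
      linarith
    · have h1 := min_le_right (b / 4) (δ ^ 2 / (16 * b))
      have h2 : 8 * b * (δ ^ 2 / (16 * b)) = δ ^ 2 / 2 := by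
        field_simp
        norm_num
      have h3 : 8 * b * min (b / 4) (δ ^ 2 / (16 * b)) ≤ 8 * b * (δ ^ 2 / (16 * b)) :=
        mul_le_mul_of_nonneg_left h1 (by positivity)
      have h4 : 0 < δ ^ 2 := by positivity
      linarith
  have hbκ : 0 < b * κ := by positivity
  obtain ⟨a, ha⟩ : ∃ a : ℝ, a = b ^ 2 - 2 * b * κ := ⟨_, rfl⟩
  have ha0 : 0 < a := by rw [ha]; nlinarith
  have hpos : ∀ t : ℝ, 0 < t ^ 2 + a := fun t => by positivity
  obtain ⟨T0, hT0, hT0s⟩ : ∃ T0 : ℝ, 0 < T0 ∧ T0 ^ 2 = (σ0 + b) ^ 2 - b ^ 2 := by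
    have h1 : 0 < (σ0 + b) ^ 2 - b ^ 2 := by nlinarith [mul_pos hσ0 hb0]
    exact ⟨Real.sqrt ((σ0 + b) ^ 2 - b ^ 2), Real.sqrt_pos.2 h1, Real.sq_sqrt h1.le⟩
  obtain ⟨T, hT, hTs⟩ : ∃ T : ℝ, 0 < T ∧ T ^ 2 = (σ0 + b) ^ 2 - a := by
    have h1 : 0 < (σ0 + b) ^ 2 - a := by rw [ha]; nlinarith [mul_pos hσ0 hb0]
    exact ⟨Real.sqrt ((σ0 + b) ^ 2 - a), Real.sqrt_pos.2 h1, Real.sq_sqrt h1.le⟩
  have hTT : T ^ 2 - T0 ^ 2 = 2 * b * κ := by rw [hTs, hT0s, ha]; ring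
  have hT0T : T0 ≤ T := by
    have : T0 ^ 2 ≤ T ^ 2 := by linarith
    exact le_of_sq_le_sq this hT.le
  have hq : Real.sqrt (2 * b * κ) ≤ δ / 2 - 0 ∧ Real.sqrt (2 * b * κ) < δ / 2 := by
    have h1 : Real.sqrt (2 * b * κ) < δ / 2 := by
      rw [Real.sqrt_lt' (by positivity)]
      nlinarith
    exact ⟨by linarith, h1⟩
  have hTd : T - T0 ≤ Real.sqrt (2 * b * κ) := by
    have := GauDec_sqrt_sub (x := T ^ 2) (y := T0 ^ 2) (by positivity) (by linarith)
    rwa [Real.sqrt_sq hT.le, Real.sqrt_sq hT0.le, hTT] at this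
  have hcmp : ∀ t ∈ Set.Icc (-T) T, ∃ t' : ℝ, |t'| ≤ T0 ∧ |t - t'| ≤ Real.sqrt (2 * b * κ) ∧
      t' ^ 2 ≤ t ^ 2 ∧ t ^ 2 ≤ t' ^ 2 + 2 * b * κ := by
    intro t ht
    have htT : |t| ≤ T := abs_le.2 ht
    refine ⟨t * (T0 / T), ?_, ?_, ?_, ?_⟩
    · rw [abs_mul, abs_of_pos (div_pos hT0 hT)]
      calc |t| * (T0 / T) ≤ T * (T0 / T) := by gcongr
        _ = T0 := by field_simp
    · have h1 : t - t * (T0 / T) = t * ((T - T0) / T) := by field_simp
      rw [h1, abs_mul, abs_of_nonneg (div_nonneg (by linarith) hT.le)]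
      calc |t| * ((T - T0) / T) ≤ T * ((T - T0) / T) := by
            have : 0 ≤ (T - T0) / T := div_nonneg (by linarith) hT.le
            gcongr
        _ = T - T0 := by field_simp
        _ ≤ _ := hTd
    · rw [mul_pow, div_pow]
      have h1 : T0 ^ 2 / T ^ 2 ≤ 1 := by
        rw [div_le_one (by positivity)]
        linarith
      nlinarith [sq_nonneg t]
    · rw [mul_pow, div_pow]
      have h1 : t ^ 2 - t ^ 2 * (T0 ^ 2 / T ^ 2) = t ^ 2 / T ^ 2 * (T ^ 2 - T0 ^ 2) := by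
        field_simp
      have h2 : t ^ 2 / T ^ 2 ≤ 1 := by
        rw [div_le_one (by positivity)]
        exact sq_le_sq' (by linarith [ht.1]) ht.2
      rw [hTT] at h1
      nlinarith
  have hnear : ∀ z w : ℂ, 0 ≤ w.re → w.re ≤ σ0 → c * w.im ^ 2 ≤ c * w.re ^ 2 + 2 * w.re →
      |z.re - w.re| + |z.im - w.im| < δ → z ∈ U := by
    intro z w h1 h2 h3 h4
    refine hth (Metric.mem_thickening_iff.2 ⟨w, ⟨h1, h2, h3⟩, ?_⟩)
    rw [dist_eq_norm]
    refine lt_of_le_of_lt (Complex.norm_le_abs_re_add_abs_im _) ?_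
    simpa using h4
  refine ⟨κ, T, fun t => Real.sqrt (t ^ 2 + a) - b, fun t => t / Real.sqrt (t ^ 2 + a), hκ, hT,
    ?_, ?_, ?_, ?_, ?_, ?_, ?_, ?_⟩
  · have : T ^ 2 + a = (σ0 + b) ^ 2 := by rw [hTs]; ring
    simp only [this]
    rw [Real.sqrt_sq (by positivity)]
    ring
  · have : (-T) ^ 2 + a = (σ0 + b) ^ 2 := by rw [neg_sq, hTs]; ring
    simp only [this]
    rw [Real.sqrt_sq (by positivity)]
    ring
  · intro t
    have h1 : HasDerivAt (fun t : ℝ => t ^ 2 + a) (2 * t) t := by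
      simpa using ((hasDerivAt_id t).pow 2).add_const a
    have h2 := (h1.sqrt (hpos t).ne').sub_const b
    refine h2.congr_deriv ?_
    have := Real.sqrt_pos.2 (hpos t)
    field_simp
  · refine Continuous.div continuous_id ?_ fun t => (Real.sqrt_pos.2 (hpos t)).ne'
    fun_prop
  · intro t
    have h1 := Real.sqrt_pos.2 (hpos t)
    simp only [abs_div, abs_of_pos h1]
    rw [div_le_one h1]
    refine Real.abs_le_sqrt ?_
    linarith
  · intro t
    have h1 : Real.sqrt (t ^ 2 + a) ^ 2 = t ^ 2 + a := Real.sq_sqrt (hpos t).le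
    have h2 : (Real.sqrt (t ^ 2 + a) - b) ^ 2 - t ^ 2 =
        2 * b ^ 2 - 2 * b * κ - 2 * b * Real.sqrt (t ^ 2 + a) := by
      rw [sub_sq, h1, ha]
      ring
    simp only []
    rw [h2]
    have h3 : c * (2 * b ^ 2 - 2 * b * κ - 2 * b * Real.sqrt (t ^ 2 + a)) / 2 =
        (b * c) * (b - κ - Real.sqrt (t ^ 2 + a)) := by ring
    rw [h3, hbc]
    ring
  · intro t ht
    obtain ⟨t', h1, h2, h3, h4⟩ := hcmp t ht
    have hp' : 0 ≤ t' ^ 2 + b ^ 2 := by positivity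
    have hs' : Real.sqrt (t' ^ 2 + b ^ 2) ^ 2 = t' ^ 2 + b ^ 2 := Real.sq_sqrt hp'
    have hlb : b ≤ Real.sqrt (t' ^ 2 + b ^ 2) := by
      refine Real.le_sqrt_of_sq_le ?_
      nlinarith [sq_nonneg t']
    have hub : Real.sqrt (t' ^ 2 + b ^ 2) ≤ σ0 + b := by
      rw [Real.sqrt_le_iff]
      refine ⟨by positivity, ?_⟩
      have h5 : t' ^ 2 ≤ T0 ^ 2 := sq_le_sq' (by linarith [(abs_le.1 h1).1]) (abs_le.1 h1).2
      linarith
    refine hnear _ (((Real.sqrt (t' ^ 2 + b ^ 2) - b : ℝ) : ℂ) + t' * I) ?_ ?_ ?_ ?_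
    · simp [-ofReal_sub]; linarith
    · simp [-ofReal_sub]; linarith
    · simp only [add_re, ofReal_re, mul_re, I_re, mul_zero, ofReal_im, I_im, mul_one, sub_self,
        add_zero, add_im, mul_im, zero_add]
      have h5 : c * (Real.sqrt (t' ^ 2 + b ^ 2) - b) ^ 2 =
          c * (t' ^ 2) + 2 * (b * c) * b - 2 * (b * c) * Real.sqrt (t' ^ 2 + b ^ 2) := by
        rw [sub_sq, hs']
        ring
      rw [h5, hbc]
      linarith
    · simp only [add_re, ofReal_re, mul_re, I_re, mul_zero, ofReal_im, I_im, mul_one, sub_self,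
        add_zero, add_im, mul_im, zero_add]
      have h5 : |Real.sqrt (t ^ 2 + a) - b - (Real.sqrt (t' ^ 2 + b ^ 2) - b)| ≤
          Real.sqrt (2 * b * κ) := by
        have h6 : Real.sqrt (t ^ 2 + a) ≤ Real.sqrt (t' ^ 2 + b ^ 2) :=
          Real.sqrt_le_sqrt (by rw [ha]; linarith)
        have h7 := GauDec_sqrt_sub (x := t' ^ 2 + b ^ 2) (y := t ^ 2 + a) (hpos t).le
          (by rw [ha]; linarith)
        have h8 : Real.sqrt (t' ^ 2 + b ^ 2 - (t ^ 2 + a)) ≤ Real.sqrt (2 * b * κ) :=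
          Real.sqrt_le_sqrt (by rw [ha]; linarith)
        rw [abs_le]
        constructor <;> linarith [Real.sqrt_nonneg (2 * b * κ)]
      linarith [hq.2]
  · intro t ht
    obtain ⟨t', h1, h2, h3, h4⟩ := hcmp t ht
    refine hnear _ ((σ0 : ℂ) + t' * I) ?_ ?_ ?_ ?_
    · simp; linarith
    · simp
    · simp only [add_re, ofReal_re, mul_re, I_re, mul_zero, ofReal_im, I_im, mul_one, sub_self,
        add_zero, add_im, mul_im, zero_add]
      have h5 : t' ^ 2 ≤ T0 ^ 2 := sq_le_sq' (by linarith [(abs_le.1 h1).1]) (abs_le.1 h1).2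
      have h6 : c * t' ^ 2 ≤ c * T0 ^ 2 := mul_le_mul_of_nonneg_left h5 hc.le
      have h7 : c * T0 ^ 2 = c * σ0 ^ 2 + 2 * (b * c) * σ0 := by rw [hT0s]; ring
      rw [hbc] at h7
      linarith
    · simp only [add_re, ofReal_re, mul_re, I_re, mul_zero, ofReal_im, I_im, mul_one, sub_self,
        add_zero, add_im, mul_im, zero_add, abs_zero]
      linarith [hq.2]

/-- Exponential decay of the Gaussian means.  By `gauss_rep` with `σ = σ0`, `ε = c u`, the integral is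
`√(c u/(2π)) ∫ F(σ0 + i t) dt` with `F s = (∫ e e^{-sv}) exp (u (s + c s²/2))`.  For `|t| ≥ T`
(`T`, `κ`, `h` of `gau_path`): `Re (s + c s²/2) = σ0 + c(σ0² - t²)/2 = -κ - c (t² - T²)/2`, so this part is
at most `N exp (-κ u) ∫ exp (-c (t² - T²)/2) dt` for `u ≥ 1`, `N = ∫ |e v| e^{-σ0 v} dv`.  For
`|t| ≤ T` replace the transform by `E` (`hEe`) and use `path_eq`: on the path
`|exp (u (s + c s²/2))| = exp (-κ u)` and `E` is bounded (compact path), `|h' + i| ≤ 2`.  The factor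
`√(c u/(2π)) (2π c u)^{-1/2} = 1/(2π)`. -/
theorem gau_dec (e : ℝ → ℝ) (he : Measurable e) (σ0 c : ℝ) (hσ0 : 0 < σ0) (hc : 0 < c)
    (hint : IntegrableOn (fun v : ℝ => e v * Real.exp (-(σ0 * v))) (Set.Ioi 0))
    (U : Set ℂ) (hU : IsOpen U) (hUc : Convex ℝ U)
    (hreg : ∀ s : ℂ, 0 ≤ s.re → s.re ≤ σ0 → c * s.im ^ 2 ≤ c * s.re ^ 2 + 2 * s.re → s ∈ U)
    (E : ℂ → ℂ) (hE : DifferentiableOn ℂ E U)
    (hEe : ∀ t : ℝ, (σ0 : ℂ) + t * I ∈ U → E ((σ0 : ℂ) + t * I) =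
      ∫ v in Set.Ioi (0 : ℝ), (e v : ℂ) * Complex.exp (-(((σ0 : ℂ) + t * I) * v))) :
    ∃ κ K : ℝ, 0 < κ ∧ ∀ u : ℝ, 1 ≤ u → |gm e c u| ≤ K * Real.exp (-(κ * u)) := by
  obtain ⟨κ, T, h, h', hκ, hT, hhT, hhmT, hder, hcont, hh1, hid, hpath, hseg⟩ :=
    gau_path σ0 c hσ0 hc U hU hreg
  have hcp0 : ContinuousOn (fun t : ℝ => (h t : ℂ) + t * I) (Set.Icc (-T) T) := by
    refine ContinuousOn.add ?_ (by fun_prop)
    exact continuous_ofReal.comp_continuousOn fun t _ => (hder t).continuousAt.continuousWithinAt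
  have hcp : ContinuousOn (fun t : ℝ => E ((h t : ℂ) + t * I)) (Set.Icc (-T) T) :=
    hE.continuousOn.comp hcp0 hpath
  obtain ⟨M, hM⟩ := isCompact_Icc.exists_bound_of_continuousOn hcp
  have hM0 : 0 ≤ M := (norm_nonneg _).trans (hM T ⟨by linarith, le_rfl⟩)
  set N : ℝ := ∫ v in Set.Ioi (0 : ℝ), ‖e v * Real.exp (-(σ0 * v))‖ with hN
  have hN0 : 0 ≤ N := integral_nonneg fun v => norm_nonneg _
  have hGi : Integrable (fun t : ℝ => Real.exp (-(c * (t ^ 2 - T ^ 2) / 2))) := by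
    have h1 := (integrable_exp_neg_mul_sq (b := c / 2) (by positivity)).mul_const
      (Real.exp (c * T ^ 2 / 2))
    refine h1.congr (Eventually.of_forall fun t => ?_)
    simp only []
    rw [← Real.exp_add]
    congr 1
    ring
  set G : ℝ := ∫ t : ℝ, Real.exp (-(c * (t ^ 2 - T ^ 2) / 2)) with hG
  refine ⟨κ, (2 * Real.pi)⁻¹ * (N * G + M * 2 * (2 * T)), hκ, fun u hu => ?_⟩
  have hu0 : 0 < u := by linarith
  obtain ⟨-, hFi, hrep⟩ := gauss_rep e he σ0 hint (c * u) (by positivity) u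
  set L : ℝ → ℂ := fun t => ∫ v in Set.Ioi (0 : ℝ),
    (e v : ℂ) * Complex.exp (-(((σ0 : ℂ) + t * I) * v)) with hL
  set F : ℝ → ℂ := fun t => L t *
    Complex.exp (((σ0 : ℂ) + t * I) * u + ((c * u : ℝ) : ℂ) * ((σ0 : ℂ) + t * I) ^ 2 / 2) with hF
  have hLN : ∀ t : ℝ, ‖L t‖ ≤ N := by
    intro t
    refine (norm_integral_le_integral_norm _).trans (le_of_eq ?_)
    refine integral_congr_ae (Eventually.of_forall fun v => ?_)
    simp only [norm_mul, Complex.norm_exp, Complex.norm_real, Real.norm_eq_abs, Real.abs_exp]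
    congr 2
    simp
  have hid0 : σ0 + c * (σ0 ^ 2 - T ^ 2) / 2 = -κ := by rw [← hid T, hhT]
  have hexp : ∀ t : ℝ, ‖Complex.exp (((σ0 : ℂ) + t * I) * u +
      ((c * u : ℝ) : ℂ) * ((σ0 : ℂ) + t * I) ^ 2 / 2)‖ =
      Real.exp (-(κ * u)) * Real.exp (-(u * (c * (t ^ 2 - T ^ 2) / 2))) := by
    intro t
    rw [Complex.norm_exp, ← Real.exp_add]
    congr 1
    have h1 : (((σ0 : ℂ) + t * I) * u + ((c * u : ℝ) : ℂ) * ((σ0 : ℂ) + t * I) ^ 2 / 2) =
        ((u * (σ0 + c * (σ0 ^ 2 - t ^ 2) / 2) : ℝ) : ℂ) +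
          ((u * (t + c * σ0 * t) : ℝ) : ℂ) * I := by
      push_cast
      linear_combination (c * u * t ^ 2 / 2 : ℂ) * Complex.I_sq
    rw [h1]
    simp only [add_re, ofReal_re, mul_re, I_re, mul_zero, ofReal_im, I_im, mul_one, sub_self,
      add_zero]
    have h2 : σ0 + c * (σ0 ^ 2 - t ^ 2) / 2 = -κ - c * (t ^ 2 - T ^ 2) / 2 := by
      rw [← hid0]; ring
    rw [h2]
    ring
  have hsplit : ∫ t : ℝ, F t = (∫ t in Set.Ioc (-T) T, F t) + ∫ t in (Set.Ioc (-T) T)ᶜ, F t :=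
    (integral_add_compl measurableSet_Ioc hFi).symm
  -- the far part
  have hfar : ‖∫ t in (Set.Ioc (-T) T)ᶜ, F t‖ ≤ N * Real.exp (-(κ * u)) * G := by
    have h1 : ∀ᵐ t ∂(volume.restrict (Set.Ioc (-T) T)ᶜ), ‖F t‖ ≤
        N * Real.exp (-(κ * u)) * Real.exp (-(c * (t ^ 2 - T ^ 2) / 2)) := by
      refine (ae_restrict_iff' measurableSet_Ioc.compl).2 (Eventually.of_forall fun t ht => ?_)
      have ht2 : T ^ 2 ≤ t ^ 2 := by
        rw [Set.mem_compl_iff, Set.mem_Ioc, not_and_or] at ht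
        rcases ht with ht | ht
        · have : t ≤ -T := not_lt.1 ht
          nlinarith
        · have : T < t := not_le.1 ht
          nlinarith
      rw [hF]
      simp only []
      rw [norm_mul, hexp, mul_assoc]
      refine mul_le_mul (hLN t) ?_ (by positivity) hN0
      refine mul_le_mul_of_nonneg_left ?_ (Real.exp_nonneg _)
      refine Real.exp_le_exp.2 (neg_le_neg ?_)
      have h2 : 0 ≤ c * (t ^ 2 - T ^ 2) / 2 := by
        have := mul_nonneg hc.le (sub_nonneg.2 ht2)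
        linarith
      nlinarith
    refine (norm_integral_le_of_norm_le ((hGi.const_mul _).restrict) h1).trans ?_
    rw [hG, ← integral_const_mul]
    refine setIntegral_le_integral (hGi.const_mul _) (Eventually.of_forall fun t => ?_)
    positivity
  -- the near part
  have hnear : ‖∫ t in Set.Ioc (-T) T, F t‖ ≤ M * 2 * Real.exp (-(κ * u)) * (2 * T) := by
    set Q : ℂ → ℂ := fun s => E s * Complex.exp (s * u + ((c * u : ℝ) : ℂ) * s ^ 2 / 2) with hQ
    have hQd : DifferentiableOn ℂ Q U := by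
      refine hE.mul ?_
      refine DifferentiableOn.cexp ?_
      fun_prop
    have h1 := path_eq U hU hUc Q hQd σ0 T hT.le h h' (fun t _ => hder t) hcont.continuousOn
      hhT hhmT hpath hseg
    have h2 : (∫ t in Set.Ioc (-T) T, F t) * I = ∫ t in (-T)..T, Q ((σ0 : ℂ) + t * I) * I := by
      rw [intervalIntegral.integral_mul_const, intervalIntegral.integral_of_le (by linarith)]
      congr 1
      refine setIntegral_congr_fun measurableSet_Ioc fun t ht => ?_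
      have := hEe t (hseg t ⟨ht.1.le, ht.2⟩)
      simp only [hF, hQ, hL]
      rw [this]
    have h3 : ‖(∫ t in Set.Ioc (-T) T, F t)‖ = ‖(∫ t in Set.Ioc (-T) T, F t) * I‖ := by
      rw [norm_mul, Complex.norm_I, mul_one]
    rw [h3, h2, h1]
    have h4 : ∀ t ∈ Set.uIoc (-T) T, ‖Q ((h t : ℂ) + t * I) * ((h' t : ℂ) + I)‖ ≤
        M * 2 * Real.exp (-(κ * u)) := by
      intro t ht
      rw [Set.uIoc_of_le (by linarith)] at ht
      have ht' : t ∈ Set.Icc (-T) T := ⟨ht.1.le, ht.2⟩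
      have h5 : ‖(h' t : ℂ) + I‖ ≤ 2 := by
        refine (norm_add_le _ _).trans ?_
        rw [Complex.norm_real, Complex.norm_I, Real.norm_eq_abs]
        linarith [hh1 t]
      have h6 : ‖Complex.exp (((h t : ℂ) + t * I) * u +
          ((c * u : ℝ) : ℂ) * ((h t : ℂ) + t * I) ^ 2 / 2)‖ = Real.exp (-(κ * u)) := by
        rw [Complex.norm_exp]
        congr 1
        have h7 : (((h t : ℂ) + t * I) * u + ((c * u : ℝ) : ℂ) * ((h t : ℂ) + t * I) ^ 2 / 2) =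
            ((u * (h t + c * ((h t) ^ 2 - t ^ 2) / 2) : ℝ) : ℂ) +
              ((u * (t + c * h t * t) : ℝ) : ℂ) * I := by
          push_cast
          linear_combination (c * u * t ^ 2 / 2 : ℂ) * Complex.I_sq
        rw [h7, hid t]
        simp only [add_re, ofReal_re, mul_re, I_re, mul_zero, ofReal_im, I_im, mul_one, sub_self,
          add_zero]
        ring
      simp only [hQ]
      rw [norm_mul, norm_mul, h6]
      calc ‖E ((h t : ℂ) + t * I)‖ * Real.exp (-(κ * u)) * ‖(h' t : ℂ) + I‖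
          ≤ M * Real.exp (-(κ * u)) * 2 := by
            refine mul_le_mul (mul_le_mul_of_nonneg_right (hM t ht') (Real.exp_nonneg _)) h5
              (norm_nonneg _) (by positivity)
        _ = M * 2 * Real.exp (-(κ * u)) := by ring
    refine (intervalIntegral.norm_integral_le_of_norm_le_const h4).trans (le_of_eq ?_)
    rw [sub_neg_eq_add, abs_of_pos (by linarith)]
    ring
  -- assembly
  have hnorm : |∫ v in Set.Ioi (0 : ℝ), e v * Real.exp (-(v - u) ^ 2 / (2 * (c * u)))| =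
      Real.sqrt (c * u / (2 * Real.pi)) * ‖∫ t : ℝ, F t‖ := by
    have h1 := congrArg norm hrep
    rw [norm_mul, Complex.norm_real, Complex.norm_real, Real.norm_eq_abs, Real.norm_eq_abs,
      abs_of_nonneg (Real.sqrt_nonneg _)] at h1
    exact h1
  have hcoef : (Real.sqrt (2 * Real.pi * (c * u)))⁻¹ * Real.sqrt (c * u / (2 * Real.pi)) =
      (2 * Real.pi)⁻¹ := by
    have h1 : c * u / (2 * Real.pi) = (2 * Real.pi * (c * u)) / (2 * Real.pi) ^ 2 := by
      have := Real.pi_pos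
      field_simp
    have h2 : 0 < Real.sqrt (2 * Real.pi * (c * u)) := Real.sqrt_pos.2 (by positivity)
    rw [h1, Real.sqrt_div' _ (by positivity), Real.sqrt_sq (by positivity)]
    field_simp
  unfold gm
  rw [abs_mul, hnorm, abs_of_nonneg (inv_nonneg.2 (Real.sqrt_nonneg _)), ← mul_assoc, hcoef,
    mul_assoc]
  refine mul_le_mul_of_nonneg_left ?_ (by positivity)
  rw [hsplit]
  refine (norm_add_le _ _).trans ((add_le_add hnear hfar).trans (le_of_eq ?_))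
  ring

end W3283g
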