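import Pool.Agent.W_3283e1_h53.RegExt
import Pool.Agent.W_3283e1_h53.GauDec
import Pool.Agent.W_3283e1_h53.Er

set_option autoImplicit false

namespace W3283g

open Complex W3283e1 W3283f MeasureTheory Filter Topology

/-- The Gaussian means of `er` decay exponentially if `L(1+s)` has no zeros in the region.
`U`, `Λ` from `reg_ext`; `E = dslope Λ 0` is holomorphic on `U`, and for `Re s > 1/2`, `s ∈ U`:
`E s = (Λ s - Λ 0)/s = (GG s + r log s - log (√2/|l|))/s = ∫ er e^{-su} du` by `er_transform`, as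
`lGold l r = log (√2/|l|) + r γ`.  Apply `gau_dec` with `σ0 = 3/4`. -/
theorem gau_fwd (α : ℕ → ℂ) (L W : ℂ → ℂ) (hD : DataR α L W) (r : ℕ) (l : ℝ) (hl : l ≠ 0)
    (hlim : Tendsto (fun s : ℂ => L (1 + s) / s ^ r) (𝓝[≠] 0) (𝓝 (l : ℂ))) (c : ℝ)
    (hc : 0 < c)
    (hz : ∀ s : ℂ, 0 < s.re → s.re ≤ 1 / 2 → c * s.im ^ 2 ≤ c * s.re ^ 2 + 2 * s.re →
      L (1 + s) ≠ 0) :
    ∃ κ K : ℝ, 0 < κ ∧ ∀ u : ℝ, 1 ≤ u →
      |gm (er α (lGold l r) r) c u| ≤ K * Real.exp (-(κ * u)) := by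
  obtain ⟨U, Λ, hU, hUc, hmem, hΛ, hΛ0, hid⟩ := reg_ext α L W hD r l hl hlim c hc hz
  have hα : ∀ p : ℕ, p.Prime → p ≠ 2 → ‖α p‖ ^ 2 = p := hD.norm_α
  have h0 : (0 : ℂ) ∈ U := by
    apply hmem
    · simp
    · simp
    · simp
  refine gau_dec (er α (lGold l r) r) (er_meas α _ r) (3 / 4) c (by norm_num) hc
    (er_int α hα _ r (3 / 4) (by norm_num)) U hU hUc
    (fun s h1 h2 h3 => hmem s h1 (by linarith) h3) (dslope Λ 0) ?_ ?_
  · exact (Complex.differentiableOn_dslope (hU.mem_nhds h0)).2 hΛ.differentiableOn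
  · intro t ht
    set s : ℂ := ((3 / 4 : ℝ) : ℂ) + t * I with hs
    have hre : s.re = 3 / 4 := by
      rw [hs]
      simp
    have hs0 : s ≠ 0 := by
      intro h
      rw [h] at hre
      norm_num at hre
    have h1 := er_transform α hα (lGold l r) r s (by rw [hre]; norm_num)
    have h2 := hid s ht (by rw [hre]; norm_num)
    rw [dslope_of_ne _ hs0, slope_def_field, sub_zero, div_eq_iff hs0, mul_comm, h1, hΛ0, ← h2]
    unfold lGold
    push_cast
    ring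

end W3283g
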