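import Pool.Agent.W_3283e1_h53.NumA

set_option autoImplicit false

namespace W3283g

open Complex MeasureTheory Filter Topology

theorem NumB_exp {a : ℝ} (h0 : 0 ≤ a) (h1 : a ≤ 1) :
    |Real.exp (-a) - (1 - a + a ^ 2 / 2 - a ^ 3 / 6 + a ^ 4 / 24 - a ^ 5 / 120 + a ^ 6 / 720 -
      a ^ 7 / 5040)| ≤ a ^ 8 * (9 / (40320 * 8)) := by
  have h := Real.exp_bound (x := -a) (by rw [abs_neg, abs_of_nonneg h0]; exact h1) (n := 8)
    (by norm_num)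
  have e : ∑ m ∈ Finset.range 8, (-a) ^ m / (m.factorial : ℝ) =
      1 - a + a ^ 2 / 2 - a ^ 3 / 6 + a ^ 4 / 24 - a ^ 5 / 120 + a ^ 6 / 720 - a ^ 7 / 5040 := by
    simp only [Finset.sum_range_succ, Finset.sum_range_zero, Nat.factorial]
    norm_num
    ring
  rw [e, abs_neg, abs_of_nonneg h0] at h
  refine h.trans (le_of_eq ?_)
  norm_num [Nat.factorial]

/-- Enclosure of the exponential from an enclosure of the argument. -/
theorem NumB_enc {α a1 a2 y1 y2 : ℝ} (h0 : 0 ≤ a1) (h1 : a1 ≤ α) (h2 : α ≤ a2) (h3 : a2 ≤ 1)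
    (hy1 : y1 + a2 ^ 8 * (9 / (40320 * 8)) ≤ 1 - a2 + a2 ^ 2 / 2 - a2 ^ 3 / 6 + a2 ^ 4 / 24 -
      a2 ^ 5 / 120 + a2 ^ 6 / 720 - a2 ^ 7 / 5040)
    (hy2 : 1 - a1 + a1 ^ 2 / 2 - a1 ^ 3 / 6 + a1 ^ 4 / 24 -
      a1 ^ 5 / 120 + a1 ^ 6 / 720 - a1 ^ 7 / 5040 + a1 ^ 8 * (9 / (40320 * 8)) ≤ y2) :
    y1 ≤ Real.exp (-α) ∧ Real.exp (-α) ≤ y2 := by
  have k1 := abs_le.1 (NumB_exp (a := a2) (by linarith) h3)
  have k2 := abs_le.1 (NumB_exp (a := a1) h0 (by linarith))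
  have m1 : Real.exp (-a2) ≤ Real.exp (-α) := Real.exp_le_exp.2 (by linarith)
  have m2 : Real.exp (-α) ≤ Real.exp (-a1) := Real.exp_le_exp.2 (by linarith)
  constructor
  · linarith [k1.1]
  · linarith [k2.2]

theorem NumB_pi : 3.1415 ≤ Real.pi ∧ Real.pi ≤ 3.1416 :=
  ⟨Real.pi_gt_d4.le, Real.pi_lt_d4.le⟩

theorem NumB_sqrt : 1.4142 ≤ Real.sqrt 2 ∧ Real.sqrt 2 ≤ 1.41422 := by
  constructor
  · apply Real.le_sqrt_of_sq_le
    norm_num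
  · rw [Real.sqrt_le_left (by norm_num)]
    norm_num

theorem NumB_pisqrt : 3.1415 * 1.4142 ≤ Real.pi * Real.sqrt 2 ∧
    Real.pi * Real.sqrt 2 ≤ 3.1416 * 1.41422 := by
  obtain ⟨p1, p2⟩ := NumB_pi
  obtain ⟨s1, s2⟩ := NumB_sqrt
  exact ⟨mul_le_mul p1 s1 (by norm_num) (by linarith),
    mul_le_mul p2 s2 (by linarith) (by norm_num)⟩

theorem NumB_tl {X x2 : ℝ} (h0 : 0 ≤ X) (h : X ≤ x2) (h1 : x2 < 1) : tl X ≤ tl x2 := by
  unfold tl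
  have hx0 : 0 ≤ x2 := h0.trans h
  have h4 : X ^ 4 ≤ x2 ^ 4 := pow_le_pow_left₀ h0 h 4
  have h13 : X ^ 13 ≤ x2 ^ 13 := pow_le_pow_left₀ h0 h 13
  have h5 : x2 ^ 4 < 1 := pow_lt_one₀ hx0 h1 (by norm_num)
  have h6 : 0 < 1 - x2 ^ 4 := by linarith
  have h7 : 1 - x2 ^ 4 ≤ 1 - X ^ 4 := by linarith
  have h8 : 0 ≤ X ^ 4 := by positivity
  have h9 : 0 < 1 - X ^ 4 := lt_of_lt_of_le h6 h7
  have k1 : 13 / (1 - X ^ 4) ≤ 13 / (1 - x2 ^ 4) :=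
    div_le_div_of_nonneg_left (by norm_num) h6 h7
  have k2 : 4 * X ^ 4 / (1 - X ^ 4) ^ 2 ≤ 4 * x2 ^ 4 / (1 - x2 ^ 4) ^ 2 :=
    div_le_div₀ (by positivity) (by linarith) (by positivity) (pow_le_pow_left₀ h6.le h7 2)
  have k3 : 0 ≤ 13 / (1 - X ^ 4) + 4 * X ^ 4 / (1 - X ^ 4) ^ 2 := by positivity
  exact mul_le_mul (by linarith) (add_le_add k1 k2) k3 (by positivity)

theorem NumB_lo {α a2 X x1 x2 : ℝ} (m n : ℕ) (hα : 0 < α) (ha : α ≤ a2) (h0 : 0 ≤ x1)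
    (h1 : x1 ≤ X) (h2 : X ≤ x2) (hn : 0 ≤ x1 ^ m - x2 ^ n) :
    (x1 ^ m - x2 ^ n) / a2 ≤ (X ^ m - X ^ n) / α := by
  have k1 : x1 ^ m ≤ X ^ m := pow_le_pow_left₀ h0 h1 m
  have k2 : X ^ n ≤ x2 ^ n := pow_le_pow_left₀ (h0.trans h1) h2 n
  exact div_le_div₀ (by linarith) (by linarith) hα ha

theorem NumB_fin1 {p1 p2 p3 q1 q2 q3 r R u U v V w W : ℝ} (h1 : p1 ≤ q1) (h2 : p2 ≤ q2)
    (h3 : p3 ≤ q3) (h4 : r ≤ R) (h5 : u ≤ U) (h6 : v ≤ V) (h7 : w ≤ W)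
    (h : 0 < 64 / 100 * p1 + 94 / 100 * p2 + 11 / 10 * p3 - R - (U + V + W)) :
    0 < 64 / 100 * q1 + 94 / 100 * q2 + 11 / 10 * q3 - r - (u + v + w) := by
  linarith

theorem NumB_fin2 {p0 p1 p2 p3 q0 q1 q2 q3 r R u U v V w W : ℝ} (h0 : p0 ≤ q0) (h1 : p1 ≤ q1)
    (h2 : p2 ≤ q2) (h3 : p3 ≤ q3) (h4 : r ≤ R) (h5 : u ≤ U) (h6 : v ≤ V) (h7 : w ≤ W)
    (h : 0 < 86 / 100 * p0 + 66 / 100 * p1 + 45 / 100 * p2 + 27 / 100 * p3 - R - (U + V + W)) :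
    0 < 86 / 100 * q0 + 66 / 100 * q1 + 45 / 100 * q2 + 27 / 100 * q3 - r - (u + v + w) := by
  linarith

theorem NumB_neg_core {α a1 a2 X x1 x2 : ℝ} (h1 : 0 < a1) (h2 : a1 ≤ α) (h3 : α ≤ a2)
    (h4 : 0 < x1) (h5 : x1 ≤ X) (h6 : X ≤ x2) (h7 : x2 < 1)
    (n1 : 0 ≤ x1 ^ 2 - x2 ^ 3) (n2 : 0 ≤ x1 ^ 3 - x2 ^ 4) (n3 : 0 ≤ x1 ^ 4 - x2 ^ 16)
    (hn : 0 < 64 / 100 * ((x1 ^ 2 - x2 ^ 3) / a2) + 94 / 100 * ((x1 ^ 3 - x2 ^ 4) / a2) +
      11 / 10 * ((x1 ^ 4 - x2 ^ 16) / a2) - x2 ^ 65 * (64 / a1 + 1 / a1 ^ 2) -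
      (2 * x2 ^ 5 / (25 * a1 ^ 2) + 3 * x2 ^ 9 / (81 * a1 ^ 2) +
        (3 / 2 * x2 ^ 13 * (13 / (1 - x2 ^ 4) + 4 * x2 ^ 4 / (1 - x2 ^ 4) ^ 2)) /
          (169 * a1 ^ 2))) :
    0 < 64 / 100 * (X ^ 2 - X ^ 3) / α + 94 / 100 * (X ^ 3 - X ^ 4) / α +
      11 / 10 * (X ^ 4 - X ^ 16) / α - X ^ 65 * (64 / α + 1 / α ^ 2) -
      (2 * X ^ 5 / (25 * α ^ 2) + 3 * X ^ 9 / (81 * α ^ 2) + tl X / (169 * α ^ 2)) := by
  have hα : 0 < α := lt_of_lt_of_le h1 h2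
  have hX : 0 < X := lt_of_lt_of_le h4 h5
  have hx2 : 0 < x2 := lt_of_lt_of_le hX h6
  have k1 := NumB_lo 2 3 hα h3 h4.le h5 h6 n1
  have k2 := NumB_lo 3 4 hα h3 h4.le h5 h6 n2
  have k3 := NumB_lo 4 16 hα h3 h4.le h5 h6 n3
  have ha2 : a1 ^ 2 ≤ α ^ 2 := pow_le_pow_left₀ h1.le h2 2
  have k4 : X ^ 65 * (64 / α + 1 / α ^ 2) ≤ x2 ^ 65 * (64 / a1 + 1 / a1 ^ 2) := by
    refine mul_le_mul (pow_le_pow_left₀ hX.le h6 65) ?_ (by positivity) (by positivity)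
    exact add_le_add (div_le_div_of_nonneg_left (by norm_num) h1 h2)
      (div_le_div_of_nonneg_left (by norm_num) (by positivity) ha2)
  have k5 : 2 * X ^ 5 / (25 * α ^ 2) ≤ 2 * x2 ^ 5 / (25 * a1 ^ 2) :=
    div_le_div₀ (by positivity) (by linarith [pow_le_pow_left₀ hX.le h6 5]) (by positivity)
      (by linarith)
  have k6 : 3 * X ^ 9 / (81 * α ^ 2) ≤ 3 * x2 ^ 9 / (81 * a1 ^ 2) :=
    div_le_div₀ (by positivity) (by linarith [pow_le_pow_left₀ hX.le h6 9]) (by positivity)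
      (by linarith)
  have htl := NumB_tl hX.le h6 h7
  have htl0 : 0 ≤ tl x2 := by
    unfold tl
    have : x2 ^ 4 < 1 := pow_lt_one₀ hx2.le h7 (by norm_num)
    have : 0 < 1 - x2 ^ 4 := by linarith
    positivity
  have k7 : tl X / (169 * α ^ 2) ≤ tl x2 / (169 * a1 ^ 2) :=
    div_le_div₀ htl0 htl (by positivity) (by linarith)
  have e : tl x2 = 3 / 2 * x2 ^ 13 * (13 / (1 - x2 ^ 4) + 4 * x2 ^ 4 / (1 - x2 ^ 4) ^ 2) := rfl
  rw [← e] at hn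
  rw [mul_div_assoc, mul_div_assoc, mul_div_assoc]
  exact NumB_fin1 k1 k2 k3 k4 k5 k6 k7 hn

theorem NumB_pos_core {α a1 a2 X x1 x2 : ℝ} (h1 : 0 < a1) (h2 : a1 ≤ α) (h3 : α ≤ a2)
    (h4 : 0 < x1) (h5 : x1 ≤ X) (h6 : X ≤ x2) (h7 : x2 < 1)
    (n1 : 0 ≤ x1 ^ 1 - x2 ^ 2) (n2 : 0 ≤ x1 ^ 2 - x2 ^ 3) (n3 : 0 ≤ x1 ^ 3 - x2 ^ 4)
    (n4 : 0 ≤ x1 ^ 4 - x2 ^ 5)
    (hn : 0 < 86 / 100 * ((x1 ^ 1 - x2 ^ 2) / a2) + 66 / 100 * ((x1 ^ 2 - x2 ^ 3) / a2) +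
      45 / 100 * ((x1 ^ 3 - x2 ^ 4) / a2) + 27 / 100 * ((x1 ^ 4 - x2 ^ 5) / a2) -
      x2 ^ 8 * (8 / (5 * a1) + 1 / (5 * a1 ^ 2)) -
      (2 * x2 ^ 5 * (1 / (5 * a1) + 1 / (50 * a1 ^ 2)) +
        3 * x2 ^ 9 * (1 / (9 * a1) + 1 / (162 * a1 ^ 2)) +
        (3 / 2 * x2 ^ 13 * (13 / (1 - x2 ^ 4) + 4 * x2 ^ 4 / (1 - x2 ^ 4) ^ 2)) *
          (1 / (13 * a1) + 1 / (338 * a1 ^ 2)))) :
    0 < 86 / 100 * (X - X ^ 2) / α + 66 / 100 * (X ^ 2 - X ^ 3) / α +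
      45 / 100 * (X ^ 3 - X ^ 4) / α + 27 / 100 * (X ^ 4 - X ^ 5) / α -
      X ^ 8 * (8 / (5 * α) + 1 / (5 * α ^ 2)) -
      (2 * X ^ 5 * (1 / (5 * α) + 1 / (50 * α ^ 2)) +
        3 * X ^ 9 * (1 / (9 * α) + 1 / (162 * α ^ 2)) +
        tl X * (1 / (13 * α) + 1 / (338 * α ^ 2))) := by
  have hα : 0 < α := lt_of_lt_of_le h1 h2
  have hX : 0 < X := lt_of_lt_of_le h4 h5
  have hx2 : 0 < x2 := lt_of_lt_of_le hX h6
  have k0 := NumB_lo 1 2 hα h3 h4.le h5 h6 n1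
  have k1 := NumB_lo 2 3 hα h3 h4.le h5 h6 n2
  have k2 := NumB_lo 3 4 hα h3 h4.le h5 h6 n3
  have k3 := NumB_lo 4 5 hα h3 h4.le h5 h6 n4
  have ha2 : a1 ^ 2 ≤ α ^ 2 := pow_le_pow_left₀ h1.le h2 2
  have hf : ∀ p q c : ℝ, 0 < p → 0 < q → 0 ≤ c →
      c / (p * α) + 1 / (q * α ^ 2) ≤ c / (p * a1) + 1 / (q * a1 ^ 2) := by
    intro p q c hp hq hc
    refine add_le_add (div_le_div_of_nonneg_left hc (by positivity) ?_)
      (div_le_div_of_nonneg_left (by norm_num) (by positivity) ?_)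
    · exact mul_le_mul_of_nonneg_left h2 hp.le
    · exact mul_le_mul_of_nonneg_left ha2 hq.le
  have k4 : X ^ 8 * (8 / (5 * α) + 1 / (5 * α ^ 2)) ≤
      x2 ^ 8 * (8 / (5 * a1) + 1 / (5 * a1 ^ 2)) :=
    mul_le_mul (pow_le_pow_left₀ hX.le h6 8) (hf 5 5 8 (by norm_num) (by norm_num) (by norm_num))
      (by positivity) (by positivity)
  have k5 : 2 * X ^ 5 * (1 / (5 * α) + 1 / (50 * α ^ 2)) ≤
      2 * x2 ^ 5 * (1 / (5 * a1) + 1 / (50 * a1 ^ 2)) :=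
    mul_le_mul (by linarith [pow_le_pow_left₀ hX.le h6 5])
      (hf 5 50 1 (by norm_num) (by norm_num) (by norm_num)) (by positivity) (by positivity)
  have k6 : 3 * X ^ 9 * (1 / (9 * α) + 1 / (162 * α ^ 2)) ≤
      3 * x2 ^ 9 * (1 / (9 * a1) + 1 / (162 * a1 ^ 2)) :=
    mul_le_mul (by linarith [pow_le_pow_left₀ hX.le h6 9])
      (hf 9 162 1 (by norm_num) (by norm_num) (by norm_num)) (by positivity) (by positivity)
  have htl := NumB_tl hX.le h6 h7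
  have htl0 : 0 ≤ tl x2 := by
    unfold tl
    have : x2 ^ 4 < 1 := pow_lt_one₀ hx2.le h7 (by norm_num)
    have : 0 < 1 - x2 ^ 4 := by linarith
    positivity
  have k7 : tl X * (1 / (13 * α) + 1 / (338 * α ^ 2)) ≤
      tl x2 * (1 / (13 * a1) + 1 / (338 * a1 ^ 2)) :=
    mul_le_mul htl (hf 13 338 1 (by norm_num) (by norm_num) (by norm_num)) (by positivity) htl0
  have e : tl x2 = 3 / 2 * x2 ^ 13 * (13 / (1 - x2 ^ 4) + 4 * x2 ^ 4 / (1 - x2 ^ 4) ^ 2) := rfl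
  rw [← e] at hn
  rw [pow_one X] at k0
  rw [mul_div_assoc, mul_div_assoc, mul_div_assoc, mul_div_assoc]
  exact NumB_fin2 k0 k1 k2 k3 k4 k5 k6 k7 hn

/-- The numerical inequality for weights of the first kind, `X = e^{-α}`.  The values of the left side
are about 1.79, 1.65, 0.62 for `α = π√2/20, π/12, π√2/28`.  Enclose `α` and `X` in short intervals
(`Real.pi_gt_d4`, `Real.pi_lt_d4`, `Real.sqrt` bounds, `Real.exp_bound'` or
`Real.exp_approx` for `e^{-α}`), and estimate every term by its extreme values. -/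
theorem num_neg (α : ℝ) (h : α = Real.pi * (Real.sqrt 2 / (4 * 5)) ∨ α = Real.pi * (1 / (4 * 3)) ∨
      α = Real.pi * (Real.sqrt 2 / (4 * 7))) :
    0 < 64 / 100 * (Real.exp (-α) ^ 2 - Real.exp (-α) ^ 3) / α +
      94 / 100 * (Real.exp (-α) ^ 3 - Real.exp (-α) ^ 4) / α +
      11 / 10 * (Real.exp (-α) ^ 4 - Real.exp (-α) ^ 16) / α -
      Real.exp (-α) ^ 65 * (64 / α + 1 / α ^ 2) -
      (2 * Real.exp (-α) ^ 5 / (25 * α ^ 2) + 3 * Real.exp (-α) ^ 9 / (81 * α ^ 2) +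
        tl (Real.exp (-α)) / (169 * α ^ 2)) := by
  rcases h with h | h | h
  · have e : α = Real.pi * Real.sqrt 2 / 20 := by rw [h]; ring
    have h1 : 0.2221 ≤ α := by rw [e]; linarith [NumB_pisqrt.1]
    have h2 : α ≤ 0.2222 := by rw [e]; linarith [NumB_pisqrt.2]
    obtain ⟨h3, h4⟩ := NumB_enc (y1 := 0.8007) (y2 := 0.8009) (by norm_num) h1 h2 (by norm_num)
      (by norm_num) (by norm_num)
    exact NumB_neg_core (by norm_num) h1 h2 (by norm_num) h3 h4 (by norm_num) (by norm_num)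
      (by norm_num) (by norm_num) (by norm_num)
  · have e : α = Real.pi / 12 := by rw [h]; ring
    have h1 : 0.2617 ≤ α := by rw [e]; linarith [NumB_pi.1]
    have h2 : α ≤ 0.2618 := by rw [e]; linarith [NumB_pi.2]
    obtain ⟨h3, h4⟩ := NumB_enc (y1 := 0.7696) (y2 := 0.7698) (by norm_num) h1 h2 (by norm_num)
      (by norm_num) (by norm_num)
    exact NumB_neg_core (by norm_num) h1 h2 (by norm_num) h3 h4 (by norm_num) (by norm_num)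
      (by norm_num) (by norm_num) (by norm_num)
  · have e : α = Real.pi * Real.sqrt 2 / 28 := by rw [h]; ring
    have h1 : 0.1586 ≤ α := by rw [e]; linarith [NumB_pisqrt.1]
    have h2 : α ≤ 0.1587 := by rw [e]; linarith [NumB_pisqrt.2]
    obtain ⟨h3, h4⟩ := NumB_enc (y1 := 0.8532) (y2 := 0.8534) (by norm_num) h1 h2 (by norm_num)
      (by norm_num) (by norm_num)
    exact NumB_neg_core (by norm_num) h1 h2 (by norm_num) h3 h4 (by norm_num) (by norm_num)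
      (by norm_num) (by norm_num) (by norm_num)

/-- The numerical inequality for weights of the second kind.  The values of the left side are about
0.224, 0.388, 0.331 for `α = π√2/4, π/4, π√2/12`. -/
theorem num_pos (α : ℝ) (h : α = Real.pi * (Real.sqrt 2 / (4 * 1)) ∨ α = Real.pi * (1 / (4 * 1)) ∨
      α = Real.pi * (Real.sqrt 2 / (4 * 3))) :
    0 < 86 / 100 * (Real.exp (-α) - Real.exp (-α) ^ 2) / α +
      66 / 100 * (Real.exp (-α) ^ 2 - Real.exp (-α) ^ 3) / α +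
      45 / 100 * (Real.exp (-α) ^ 3 - Real.exp (-α) ^ 4) / α +
      27 / 100 * (Real.exp (-α) ^ 4 - Real.exp (-α) ^ 5) / α -
      Real.exp (-α) ^ 8 * (8 / (5 * α) + 1 / (5 * α ^ 2)) -
      (2 * Real.exp (-α) ^ 5 * (1 / (5 * α) + 1 / (50 * α ^ 2)) +
        3 * Real.exp (-α) ^ 9 * (1 / (9 * α) + 1 / (162 * α ^ 2)) +
        tl (Real.exp (-α)) * (1 / (13 * α) + 1 / (338 * α ^ 2))) := by
  rcases h with h | h | h
  · have e : α = Real.pi * Real.sqrt 2 / 4 := by rw [h]; ring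
    have h1 : 1.1106 ≤ α := by rw [e]; linarith [NumB_pisqrt.1]
    have h2 : α ≤ 1.1108 := by rw [e]; linarith [NumB_pisqrt.2]
    obtain ⟨h3, h4⟩ := NumB_enc (α := α / 2) (a1 := 0.5553) (a2 := 0.5554) (y1 := 0.5738)
      (y2 := 0.574) (by norm_num) (by linarith) (by linarith) (by norm_num)
      (by norm_num) (by norm_num)
    have e2 : Real.exp (-α) = Real.exp (-(α / 2)) ^ 2 := by
      rw [← Real.exp_nat_mul]
      congr 1
      push_cast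
      ring
    have h5 : (0.5738 : ℝ) ^ 2 ≤ Real.exp (-α) := by
      rw [e2]
      exact pow_le_pow_left₀ (by norm_num) h3 2
    have h6 : Real.exp (-α) ≤ (0.574 : ℝ) ^ 2 := by
      rw [e2]
      exact pow_le_pow_left₀ (Real.exp_pos _).le h4 2
    exact NumB_pos_core (by norm_num) h1 h2 (by norm_num) h5 h6 (by norm_num) (by norm_num)
      (by norm_num) (by norm_num) (by norm_num) (by norm_num)
  · have e : α = Real.pi / 4 := by rw [h]; ring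
    have h1 : 0.7853 ≤ α := by rw [e]; linarith [NumB_pi.1]
    have h2 : α ≤ 0.7854 := by rw [e]; linarith [NumB_pi.2]
    obtain ⟨h3, h4⟩ := NumB_enc (y1 := 0.4559) (y2 := 0.456) (by norm_num) h1 h2 (by norm_num)
      (by norm_num) (by norm_num)
    exact NumB_pos_core (by norm_num) h1 h2 (by norm_num) h3 h4 (by norm_num) (by norm_num)
      (by norm_num) (by norm_num) (by norm_num) (by norm_num)
  · have e : α = Real.pi * Real.sqrt 2 / 12 := by rw [h]; ring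
    have h1 : 0.3702 ≤ α := by rw [e]; linarith [NumB_pisqrt.1]
    have h2 : α ≤ 0.3703 := by rw [e]; linarith [NumB_pisqrt.2]
    obtain ⟨h3, h4⟩ := NumB_enc (y1 := 0.6905) (y2 := 0.6906) (by norm_num) h1 h2 (by norm_num)
      (by norm_num) (by norm_num)
    exact NumB_pos_core (by norm_num) h1 h2 (by norm_num) h3 h4 (by norm_num) (by norm_num)
      (by norm_num) (by norm_num) (by norm_num) (by norm_num)

end W3283g
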