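import Pool.Agent.W_MP_3283e1_h19.ThF

set_option autoImplicit false

namespace W3283g

open Complex W3283e1 W3283f

theorem NumC_le (n j m : ℕ) : |aFam n j m| ≤ |(cc 1 m).re| := by
  unfold aFam
  rw [abs_mul, abs_mul, abs_pow]
  have ha := thf_jac_le m n
  have hb : |((ZMod.χ₈ (m : ZMod 8) : ℤ) : ℝ)| ^ j ≤ 1 :=
    pow_le_one₀ (abs_nonneg _) (thf_chi8_le _)
  calc |((jacobiSym m n : ℤ) : ℝ)| * |((ZMod.χ₈ (m : ZMod 8) : ℤ) : ℝ)| ^ j * |(cc 1 m).re|
      ≤ 1 * 1 * |(cc 1 m).re| := by gcongr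
    _ = |(cc 1 m).re| := by ring

theorem NumC_re (m : ℕ) : (cc 1 m).re = ∑ z ∈ prF m, (z.1 : ℝ) := by
  unfold cc
  rw [Complex.re_sum]
  refine Finset.sum_congr rfl fun z _ => ?_
  rw [pow_one, prim_re]

theorem NumC_abs (m : ℕ) (z : ℤ × ℤ) (hz : z ∈ prF m) :
    |z.1| ≤ (Nat.sqrt m : ℤ) ∧ |z.2| ≤ (Nat.sqrt m : ℤ) := by
  have h := (mem_prF m z).1 hz
  have key : ∀ a : ℤ, a ^ 2 ≤ m → |a| ≤ (Nat.sqrt m : ℤ) := by
    intro a ha
    have h1 : a.natAbs ^ 2 ≤ m := by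
      zify
      rw [sq_abs]
      exact ha
    have h2 := Nat.le_sqrt'.2 h1
    rw [Int.abs_eq_natAbs]
    exact_mod_cast h2
  exact ⟨key _ (by nlinarith [h.2.2, sq_nonneg z.2]), key _ (by nlinarith [h.2.2, sq_nonneg z.1])⟩

theorem NumC_card (m : ℕ) : (prF m).card ≤ Nat.sqrt m + 1 := by
  have h1 : (prF m).card ≤ (Finset.Icc (-((Nat.sqrt m / 2 : ℕ) : ℤ)) ((Nat.sqrt m / 2 : ℕ) : ℤ)).card := by
    refine Finset.card_le_card_of_injOn (fun z => z.2 / 2) ?_ ?_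
    · intro z hz
      have h2 := (mem_prF m z).1 hz
      have h3 := (NumC_abs m z hz).2
      rw [abs_le] at h3
      simp only [Finset.coe_Icc, Set.mem_Icc]
      omega
    · intro z hz z' hz' hzz
      have h2 := (mem_prF m z).1 hz
      have h3 := (mem_prF m z').1 hz'
      simp only at hzz
      have h4 : z.2 = z'.2 := by omega
      have h5 : z.1 ^ 2 = z'.1 ^ 2 := by
        have h6 := h2.2.2
        rw [h4] at h6
        linarith [h3.2.2]
      rcases sq_eq_sq_iff_eq_or_eq_neg.1 h5 with h6 | h6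
      · exact Prod.ext h6 h4
      · exfalso
        omega
  rw [Int.card_Icc] at h1
  omega

/-- The number of primary Gaussian integers of norm `m` is at most `√m + 1`: `B` is even with
`|B| ≤ √m`, and `B` determines `A` (`A² = m - B²` gives `A` up to sign and `A ≡ 1 + B mod 4` with `A`
odd picks the sign).  Hence `|cc 1 m| ≤ (√m + 1) √m ≤ (3/2) m` for `m ≥ 4`, and
`|aFam n j m| ≤ |Re cc 1 m|` (`thf_jac_le`, `thf_chi8_le`). -/
theorem coef_bd (n j m : ℕ) (hm : 4 ≤ m) : |aFam n j m| ≤ 3 / 2 * m := by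
  refine (NumC_le n j m).trans ?_
  rw [NumC_re]
  set s := Nat.sqrt m with hs
  have h1 : |∑ z ∈ prF m, (z.1 : ℝ)| ≤ ∑ z ∈ prF m, (s : ℝ) := by
    refine (Finset.abs_sum_le_sum_abs _ _).trans (Finset.sum_le_sum fun z hz => ?_)
    have h2 := (NumC_abs m z hz).1
    exact_mod_cast h2
  rw [Finset.sum_const, nsmul_eq_mul] at h1
  have h2 : ((prF m).card : ℝ) ≤ (s : ℝ) + 1 := by exact_mod_cast NumC_card m
  have h3 : 2 ≤ s := by
    rw [hs, Nat.le_sqrt]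
    omega
  have h4 : s * s ≤ m := Nat.sqrt_le m
  have h5 : (2 : ℝ) ≤ (s : ℝ) := by exact_mod_cast h3
  have h6 : (s : ℝ) * s ≤ m := by exact_mod_cast h4
  nlinarith [mul_le_mul_of_nonneg_right h2 (by linarith : (0 : ℝ) ≤ s)]

/-- `A` odd and `B` even give `A² + B² ≡ 1 mod 4`. -/
theorem coef_zero (n j m : ℕ) (hm : m % 4 ≠ 1) : aFam n j m = 0 := by
  have h0 : prF m = ∅ := by
    rw [Finset.eq_empty_iff_forall_notMem]
    intro z hz
    obtain ⟨h1, h2, h3⟩ := (mem_prF m z).1 hz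
    obtain ⟨b, hb⟩ : ∃ b, z.2 = 2 * b := ⟨z.2 / 2, by omega⟩
    obtain ⟨a, ha⟩ : ∃ a, z.1 = 2 * a + 1 := ⟨z.1 / 2, by omega⟩
    rw [ha, hb] at h3
    have h4 : (m : ℤ) = 4 * (a ^ 2 + a + b ^ 2) + 1 := by linarith
    omega
  have h1 := NumC_le n j m
  rw [NumC_re, h0, Finset.sum_empty, abs_zero] at h1
  exact abs_eq_zero.1 (le_antisymm h1 (abs_nonneg _))

/-- `prF 5 = {(-1, 2), (-1, -2)}`. -/
theorem coef_5 (n j : ℕ) : |aFam n j 5| ≤ 2 := by
  refine (NumC_le n j 5).trans ?_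
  have h : prF 5 = {(-1, 2), (-1, -2)} := by
    unfold prF
    decide
  rw [NumC_re, h, Finset.sum_pair (by decide)]
  norm_num

/-- `prF 9 = {(-3, 0)}`. -/
theorem coef_9 (n j : ℕ) : |aFam n j 9| ≤ 3 := by
  refine (NumC_le n j 9).trans ?_
  have h : prF 9 = {(-3, 0)} := by
    unfold prF
    decide
  rw [NumC_re, h, Finset.sum_singleton]
  norm_num

end W3283g
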