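import Mathlib

set_option autoImplicit false

namespace W3283g

/-- `x - x³/6 ≤ sin x` for `x ≥ 0`: the derivative of `sin x - x + x³/6` is `cos x - 1 + x²/2 ≥ 0`
(`Real.one_sub_sq_div_two_le_cos`). -/
theorem sin_low (x : ℝ) (hx : 0 ≤ x) : x - x ^ 3 / 6 ≤ Real.sin x := by
  exact Real.sin_ge_sub_cube hx

lemma NumW_half {t : ℝ} (ht : 1 ≤ t) : ∃ s : ℝ, 1 ≤ s ∧ s ^ 2 = t ∧
    Real.cosh (Real.log t / 2) = (s + s⁻¹) / 2 ∧ Real.sinh (Real.log t / 2) = (s - s⁻¹) / 2 := by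
  have ht0 : 0 < t := by linarith
  refine ⟨√t, Real.one_le_sqrt.mpr ht, Real.sq_sqrt ht0.le, ?_, ?_⟩
  · rw [Real.cosh_eq, Real.exp_neg, Real.exp_half, Real.exp_log ht0]
  · rw [Real.sinh_eq, Real.exp_neg, Real.exp_half, Real.exp_log ht0]

lemma NumW_sinh_le {l x : ℝ} (hl0 : 0 ≤ l) (hl : l ≤ 1) (hx : 0 ≤ x) :
    Real.sinh (l * x) ≤ l * Real.sinh x := by
  have hd : ∀ y : ℝ, HasDerivAt (fun y => l * Real.sinh y - Real.sinh (l * y))
      (l * Real.cosh y - Real.cosh (l * y) * l) y := by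
    intro y
    have h1 : HasDerivAt (fun y => l * Real.sinh y) (l * Real.cosh y) y :=
      (Real.hasDerivAt_sinh y).const_mul l
    have h3 : HasDerivAt (fun y : ℝ => l * y) l y := by
      simpa using (hasDerivAt_id y).const_mul l
    exact h1.sub h3.sinh
  have hmono : MonotoneOn (fun y => l * Real.sinh y - Real.sinh (l * y)) (Set.Ici 0) := by
    apply monotoneOn_of_deriv_nonneg (convex_Ici 0)
    · exact fun y _ => (hd y).continuousAt.continuousWithinAt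
    · exact fun y _ => (hd y).differentiableAt.differentiableWithinAt
    · intro y hy
      rw [interior_Ici] at hy
      have hy0 : 0 < y := hy
      rw [(hd y).deriv]
      have h4 : Real.cosh (l * y) ≤ Real.cosh y := by
        rw [Real.cosh_le_cosh, abs_of_nonneg (by positivity), abs_of_nonneg hy0.le]
        nlinarith
      nlinarith
  have h5 := hmono (Set.mem_Ici.mpr le_rfl) (Set.mem_Ici.mpr hx) hx
  simp only [Real.sinh_zero, mul_zero, sub_zero] at h5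
  linarith

lemma NumW_sin_div {τ v : ℝ} (hτ0 : 0 < τ) (hτ : τ ≤ 3 / 4) (hv : 0 ≤ v)
    (hv2 : 3 / 4 * v ≤ Real.pi) :
    4 / 3 * Real.sin (3 / 4 * v) ≤ Real.sin (τ * v) / τ := by
  rw [le_div_iff₀ hτ0]
  have hx : 3 / 4 * v ∈ Set.Icc 0 Real.pi := ⟨by positivity, hv2⟩
  have hy : (0 : ℝ) ∈ Set.Icc 0 Real.pi := ⟨le_rfl, Real.pi_pos.le⟩
  have h1 := strictConcaveOn_sin_Icc.concaveOn.2 hx hy (show 0 ≤ 4 / 3 * τ by positivity)
    (show 0 ≤ 1 - 4 / 3 * τ by linarith) (by ring)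
  simp only [smul_eq_mul, Real.sin_zero, mul_zero, add_zero] at h1
  rw [show 4 / 3 * τ * (3 / 4 * v) = τ * v by ring] at h1
  linarith

lemma NumW_mul {c w b : ℝ} (hc : 1 ≤ c) (hb : b ≤ w) (hb0 : 0 ≤ b) : b ≤ c * w := by
  nlinarith

lemma NumW_sin_ge {x0 x : ℝ} (h0 : 0 ≤ x0) (h1 : x0 ≤ x) (h2 : x ≤ Real.pi - x0) :
    x0 - x0 ^ 3 / 6 ≤ Real.sin x := by
  refine (Real.sin_ge_sub_cube h0).trans ?_
  by_cases hx : x ≤ Real.pi / 2
  · exact Real.sin_le_sin_of_le_of_le_pi_div_two (by linarith [Real.pi_pos]) hx h1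
  · rw [← Real.sin_pi_sub x]
    exact Real.sin_le_sin_of_le_of_le_pi_div_two (by linarith [Real.pi_pos])
      (by linarith) (by linarith)

lemma NumW_cosh_le {σ v : ℝ} (hσ0 : 0 ≤ σ) (hσ : σ ≤ 1 / 2) (hv : 0 ≤ v) :
    Real.cosh (σ * v) ≤ Real.cosh (v / 2) := by
  rw [Real.cosh_le_cosh, abs_of_nonneg (by positivity), abs_of_nonneg (by positivity)]
  nlinarith

lemma NumW_log4 : Real.log 4 = 2 * Real.log 2 := by
  rw [show (4 : ℝ) = 2 ^ 2 by norm_num, Real.log_pow]; push_cast; ring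

lemma NumW_log8 : Real.log 8 = 3 * Real.log 2 := by
  rw [show (8 : ℝ) = 2 ^ 3 by norm_num, Real.log_pow]; push_cast; ring

lemma NumW_log16 : Real.log 16 = 4 * Real.log 2 := by
  rw [show (16 : ℝ) = 2 ^ 4 by norm_num, Real.log_pow]; push_cast; ring

lemma NumW_log65 : Real.log 65 ≤ 6 * Real.log 2 + 1 / 64 := by
  have h1 : Real.log 65 = Real.log (2 ^ 6) + Real.log (65 / 64) := by
    rw [← Real.log_mul (by norm_num) (by norm_num)]; norm_num
  have h2 : Real.log (65 / 64) ≤ 65 / 64 - 1 := Real.log_le_sub_one_of_pos (by norm_num)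
  rw [h1, Real.log_pow]
  push_cast
  linarith

lemma NumW_log {a b t : ℝ} (ha : 0 < a) (h1 : a ≤ t) (h2 : t ≤ b) :
    Real.log a ≤ Real.log t ∧ Real.log t ≤ Real.log b :=
  ⟨Real.log_le_log ha h1, Real.log_le_log (ha.trans_le h1) h2⟩

/-- The weight `cosh(σv) sin(τv)/τ`, `v = log t`.  Upper bound: `cosh(σv) ≤ cosh(v/2) ≤ e^{v/2}`,
`|sin(τv)/τ| ≤ v ≤ 2 sinh(v/2)`, and `2 sinh(v/2) e^{v/2} = t - 1`.  Lower bounds: for
`0 ≤ v ≤ 4π/3` (this covers `t ≤ 65`) `sin(τv)/τ ≥ (4/3) sin(3v/4)` (`sin` is concave on `[0,π]`, so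
`sin(x)/x` decreases), which is `≥ 0`; for `t ∈ [2,8]` use that `sin` is increasing on `[0,π/2]` and
`sin_low` at `3 log 2/4`, `3 log 3/4`, `3 log 4/4`; for `t ∈ [8,16]`,
`|3v/4 - π/2| ≤ 0.51` and `cos y ≥ 1 - y²/2`. -/
theorem wt_neg (σ τ : ℝ) (hσ0 : 0 ≤ σ) (hσ : σ ≤ 1 / 2) (hτ0 : 0 < τ) (hτ : τ ≤ 3 / 4) :
    (∀ t : ℝ, 1 ≤ t → |Real.cosh (σ * Real.log t) * (Real.sin (τ * Real.log t) / τ)| ≤ t - 1) ∧
    (∀ t : ℝ, 1 ≤ t → t ≤ 65 →
      0 ≤ Real.cosh (σ * Real.log t) * (Real.sin (τ * Real.log t) / τ)) ∧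
    (∀ t : ℝ, 2 ≤ t → t ≤ 3 →
      64 / 100 ≤ Real.cosh (σ * Real.log t) * (Real.sin (τ * Real.log t) / τ)) ∧
    (∀ t : ℝ, 3 ≤ t → t ≤ 4 →
      94 / 100 ≤ Real.cosh (σ * Real.log t) * (Real.sin (τ * Real.log t) / τ)) ∧
    (∀ t : ℝ, 4 ≤ t → t ≤ 16 →
      11 / 10 ≤ Real.cosh (σ * Real.log t) * (Real.sin (τ * Real.log t) / τ)) := by
  have l2 := Real.log_two_gt_d9
  have u2 := Real.log_two_lt_d9
  have l3 := Real.log_three_gt_d9
  have hpi := Real.pi_gt_d2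
  have h4 := NumW_log4
  have h16 := NumW_log16
  have h65 := NumW_log65
  have l65 : Real.log 4 ≤ Real.log 16 := Real.log_le_log (by norm_num) (by norm_num)
  have u3 : Real.log 3 ≤ Real.log 4 := Real.log_le_log (by norm_num) (by norm_num)
  refine ⟨?_, ?_, ?_, ?_, ?_⟩
  · intro t ht
    have hv : 0 ≤ Real.log t := Real.log_nonneg ht
    obtain ⟨s, hs1, hs2, hc, hsh⟩ := NumW_half ht
    have h1 := NumW_cosh_le hσ0 hσ hv
    have h2 : |Real.sin (τ * Real.log t) / τ| ≤ Real.log t := by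
      rw [abs_div, abs_of_pos hτ0, div_le_iff₀ hτ0]
      refine (Real.abs_sin_le_abs).trans ?_
      rw [abs_of_nonneg (by positivity)]
      linarith
    have h3 : Real.log t / 2 ≤ Real.sinh (Real.log t / 2) :=
      Real.self_le_sinh_iff.mpr (by positivity)
    rw [abs_mul, abs_of_pos (Real.cosh_pos _)]
    have h5 : Real.cosh (σ * Real.log t) * |Real.sin (τ * Real.log t) / τ| ≤
        Real.cosh (Real.log t / 2) * (2 * Real.sinh (Real.log t / 2)) :=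
      mul_le_mul h1 (h2.trans (by linarith)) (abs_nonneg _) (Real.cosh_pos _).le
    refine h5.trans ?_
    rw [hc, hsh, ← hs2]
    have hs0 : 0 < s := by linarith
    have h6 : s * s⁻¹ = 1 := mul_inv_cancel₀ hs0.ne'
    have h7 : (s + s⁻¹) / 2 * (2 * ((s - s⁻¹) / 2)) = (s ^ 2 - s⁻¹ ^ 2) / 2 := by ring
    rw [h7]
    nlinarith [sq_nonneg (s - s⁻¹)]
  · intro t ht1 ht2
    have hv : 0 ≤ Real.log t := Real.log_nonneg ht1
    have hv2 : Real.log t ≤ Real.log 65 := Real.log_le_log (by linarith) ht2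
    refine mul_nonneg (Real.cosh_pos _).le (div_nonneg ?_ hτ0.le)
    refine Real.sin_nonneg_of_nonneg_of_le_pi (by positivity) ?_
    have : τ * Real.log t ≤ 3 / 4 * Real.log 65 := mul_le_mul hτ hv2 hv (by norm_num)
    linarith
  · intro t ht1 ht2
    obtain ⟨h1, h2⟩ := NumW_log (by norm_num) ht1 ht2
    have hv : 0 ≤ Real.log t := by linarith
    have h5 := NumW_sin_ge (x0 := 51 / 100) (x := 3 / 4 * Real.log t) (by norm_num) (by linarith)
      (by linarith)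
    have h6 := NumW_sin_div hτ0 hτ hv (by linarith)
    refine NumW_mul (Real.one_le_cosh _) (le_trans ?_ h6) (by norm_num)
    norm_num at h5
    linarith
  · intro t ht1 ht2
    obtain ⟨h1, h2⟩ := NumW_log (by norm_num) ht1 ht2
    have hv : 0 ≤ Real.log t := by linarith
    have h5 := NumW_sin_ge (x0 := 8 / 10) (x := 3 / 4 * Real.log t) (by norm_num) (by linarith)
      (by linarith)
    have h6 := NumW_sin_div hτ0 hτ hv (by linarith)
    refine NumW_mul (Real.one_le_cosh _) (le_trans ?_ h6) (by norm_num)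
    norm_num at h5
    linarith
  · intro t ht1 ht2
    obtain ⟨h1, h2⟩ := NumW_log (by norm_num) ht1 ht2
    have hv : 0 ≤ Real.log t := by linarith
    have h5 := NumW_sin_ge (x0 := 103 / 100) (x := 3 / 4 * Real.log t) (by norm_num) (by linarith)
      (by linarith)
    have h6 := NumW_sin_div hτ0 hτ hv (by linarith)
    refine NumW_mul (Real.one_le_cosh _) (le_trans ?_ h6) (by norm_num)
    norm_num at h5
    linarith

/-- The weight `sinh(σv)/σ ≥ v`, at most `2 sinh(v/2) ≤ 2 sinh(v/2) e^{v/2} = t - 1`. -/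
theorem wt_sinh (σ : ℝ) (hσ0 : 0 < σ) (hσ : σ ≤ 1 / 2) :
    (∀ t : ℝ, 1 ≤ t → |Real.sinh (σ * Real.log t) / σ| ≤ t - 1) ∧
    (∀ t : ℝ, 1 ≤ t → t ≤ 65 → 0 ≤ Real.sinh (σ * Real.log t) / σ) ∧
    (∀ t : ℝ, 2 ≤ t → t ≤ 3 → 64 / 100 ≤ Real.sinh (σ * Real.log t) / σ) ∧
    (∀ t : ℝ, 3 ≤ t → t ≤ 4 → 94 / 100 ≤ Real.sinh (σ * Real.log t) / σ) ∧
    (∀ t : ℝ, 4 ≤ t → t ≤ 16 → 11 / 10 ≤ Real.sinh (σ * Real.log t) / σ) := by
  have l2 := Real.log_two_gt_d9
  have l3 := Real.log_three_gt_d9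
  have h4 := NumW_log4
  have key : ∀ t : ℝ, 1 ≤ t → Real.log t ≤ Real.sinh (σ * Real.log t) / σ := by
    intro t ht
    have hv : 0 ≤ Real.log t := Real.log_nonneg ht
    rw [le_div_iff₀ hσ0, mul_comm]
    exact Real.self_le_sinh_iff.mpr (by positivity)
  refine ⟨?_, ?_, ?_, ?_, ?_⟩
  · intro t ht
    have hv : 0 ≤ Real.log t := Real.log_nonneg ht
    obtain ⟨s, hs1, hs2, -, hsh⟩ := NumW_half ht
    rw [abs_of_nonneg (hv.trans (key t ht)), div_le_iff₀ hσ0]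
    have h1 := NumW_sinh_le (l := 2 * σ) (x := Real.log t / 2) (by positivity) (by linarith)
      (by positivity)
    rw [show 2 * σ * (Real.log t / 2) = σ * Real.log t by ring, hsh] at h1
    refine h1.trans ?_
    have hs0 : 0 < s := by linarith
    have h6 : s * s⁻¹ = 1 := mul_inv_cancel₀ hs0.ne'
    have h7 : s⁻¹ ≤ 1 := inv_le_one_of_one_le₀ hs1
    have h8 : 0 < s⁻¹ := inv_pos.mpr hs0
    have h9 : s - s⁻¹ ≤ s ^ 2 - 1 := by nlinarith
    rw [← hs2]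
    nlinarith
  · intro t ht1 _
    exact (Real.log_nonneg ht1).trans (key t ht1)
  · intro t ht1 ht2
    obtain ⟨h1, h2⟩ := NumW_log (by norm_num) ht1 ht2
    have := key t (by linarith)
    linarith
  · intro t ht1 ht2
    obtain ⟨h1, h2⟩ := NumW_log (by norm_num) ht1 ht2
    have := key t (by linarith)
    linarith
  · intro t ht1 ht2
    obtain ⟨h1, h2⟩ := NumW_log (by norm_num) ht1 ht2
    have := key t (by linarith)
    linarith

/-- The weight `cosh(σv) cos(τv)`, `v = log t`.  Upper bounds: `cosh(v/2) = (t^{1/2} + t^{-1/2})/2 ≤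
(1+t)/2`, and `≤ t/5` for `t ≥ 8`.  Lower bounds: `cos(τv) ≥ cos(3v/4)` for `3v/4 ≤ π`,
`cos y ≥ 1 - y²/2` at `y = 3 log 2/4`, `3 log 3/4`, `3 log 4/4`, `3 log 5/4`; `3 log 8/4 ≤ π/2`. -/
theorem wt_pos (σ τ : ℝ) (hσ0 : 0 ≤ σ) (hσ : σ ≤ 1 / 2) (hτ0 : 0 ≤ τ) (hτ : τ ≤ 3 / 4) :
    (∀ t : ℝ, 1 ≤ t → |Real.cosh (σ * Real.log t) * Real.cos (τ * Real.log t)| ≤ (1 + t) / 2) ∧
    (∀ t : ℝ, 8 ≤ t → |Real.cosh (σ * Real.log t) * Real.cos (τ * Real.log t)| ≤ t / 5) ∧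
    (∀ t : ℝ, 1 ≤ t → t ≤ 8 → 0 ≤ Real.cosh (σ * Real.log t) * Real.cos (τ * Real.log t)) ∧
    (∀ t : ℝ, 1 ≤ t → t ≤ 2 →
      86 / 100 ≤ Real.cosh (σ * Real.log t) * Real.cos (τ * Real.log t)) ∧
    (∀ t : ℝ, 2 ≤ t → t ≤ 3 →
      66 / 100 ≤ Real.cosh (σ * Real.log t) * Real.cos (τ * Real.log t)) ∧
    (∀ t : ℝ, 3 ≤ t → t ≤ 4 →
      45 / 100 ≤ Real.cosh (σ * Real.log t) * Real.cos (τ * Real.log t)) ∧
    (∀ t : ℝ, 4 ≤ t → t ≤ 5 →
      27 / 100 ≤ Real.cosh (σ * Real.log t) * Real.cos (τ * Real.log t)) := by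
  have u2 := Real.log_two_lt_d9
  have u3 := Real.log_three_lt_d9
  have u5 := Real.log_five_lt_d9
  have hpi := Real.pi_gt_d2
  have h4 := NumW_log4
  have h8 := NumW_log8
  have hup : ∀ t : ℝ, 1 ≤ t → |Real.cosh (σ * Real.log t) * Real.cos (τ * Real.log t)| ≤
      Real.cosh (Real.log t / 2) := by
    intro t ht
    have hv : 0 ≤ Real.log t := Real.log_nonneg ht
    have h1 := NumW_cosh_le hσ0 hσ hv
    rw [abs_mul, abs_of_pos (Real.cosh_pos _)]
    calc Real.cosh (σ * Real.log t) * |Real.cos (τ * Real.log t)|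
        ≤ Real.cosh (Real.log t / 2) * 1 :=
          mul_le_mul h1 (Real.abs_cos_le_one _) (abs_nonneg _) (Real.cosh_pos _).le
      _ = Real.cosh (Real.log t / 2) := mul_one _
  have hlow : ∀ t y b : ℝ, 1 ≤ t → Real.log t ≤ y → 0 ≤ b → b ≤ 1 - (3 / 4 * y) ^ 2 / 2 →
      b ≤ Real.cosh (σ * Real.log t) * Real.cos (τ * Real.log t) := by
    intro t y b ht hy hb0 hb
    have hv : 0 ≤ Real.log t := Real.log_nonneg ht
    refine NumW_mul (Real.one_le_cosh _) (le_trans ?_ Real.one_sub_sq_div_two_le_cos) hb0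
    have h1 : 0 ≤ τ * Real.log t := by positivity
    have h2 : τ * Real.log t ≤ 3 / 4 * y := mul_le_mul hτ hy hv (by norm_num)
    nlinarith
  refine ⟨?_, ?_, ?_, ?_, ?_, ?_, ?_⟩
  · intro t ht
    obtain ⟨s, hs1, hs2, hc, -⟩ := NumW_half ht
    refine (hup t ht).trans ?_
    have hs0 : 0 < s := by linarith
    have h6 : s * s⁻¹ = 1 := mul_inv_cancel₀ hs0.ne'
    have h7 : s⁻¹ ≤ 1 := inv_le_one_of_one_le₀ hs1
    rw [hc, ← hs2]
    nlinarith
  · intro t ht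
    obtain ⟨s, hs1, hs2, hc, -⟩ := NumW_half (show (1 : ℝ) ≤ t by linarith)
    refine (hup t (by linarith)).trans ?_
    have hs0 : 0 < s := by linarith
    have h6 : s * s⁻¹ = 1 := mul_inv_cancel₀ hs0.ne'
    have h7 : 2828 / 1000 ≤ s := by nlinarith
    have h8 : 0 < s⁻¹ := inv_pos.mpr hs0
    rw [hc, ← hs2]
    have h9 : (s + s⁻¹) / 2 ≤ s ^ 2 / 5 ↔ 5 * (s + s⁻¹) ≤ 2 * s ^ 2 := by
      constructor <;> intro h <;> linarith
    rw [h9]
    have h10 : 5 * (s ^ 2 + 1) ≤ 2 * s ^ 3 := by nlinarith [sq_nonneg s]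
    have h11 : 5 * (s + s⁻¹) = 5 * (s ^ 2 + 1) * s⁻¹ := by field_simp
    have h12 : 2 * s ^ 2 = 2 * s ^ 3 * s⁻¹ := by field_simp
    rw [h11, h12]
    exact mul_le_mul_of_nonneg_right h10 h8.le
  · intro t ht1 ht2
    obtain ⟨h1, h2⟩ := NumW_log (by norm_num) ht1 ht2
    have hv : 0 ≤ Real.log t := Real.log_nonneg ht1
    refine mul_nonneg (Real.cosh_pos _).le ?_
    have h5 : 0 ≤ τ * Real.log t := by positivity
    have h6 : τ * Real.log t ≤ 3 / 4 * Real.log 8 := mul_le_mul hτ h2 hv (by norm_num)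
    refine Real.cos_nonneg_of_neg_pi_div_two_le_of_le (by linarith) (by linarith)
  · intro t ht1 ht2
    obtain ⟨h1, h2⟩ := NumW_log (by norm_num) ht1 ht2
    exact hlow t (6932 / 10000) _ (by linarith) (by linarith) (by norm_num) (by norm_num)
  · intro t ht1 ht2
    obtain ⟨h1, h2⟩ := NumW_log (by norm_num) ht1 ht2
    exact hlow t (10987 / 10000) _ (by linarith) (by linarith) (by norm_num) (by norm_num)
  · intro t ht1 ht2
    obtain ⟨h1, h2⟩ := NumW_log (by norm_num) ht1 ht2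
    exact hlow t (13863 / 10000) _ (by linarith) (by linarith) (by norm_num) (by norm_num)
  · intro t ht1 ht2
    obtain ⟨h1, h2⟩ := NumW_log (by norm_num) ht1 ht2
    exact hlow t (16095 / 10000) _ (by linarith) (by linarith) (by norm_num) (by norm_num)

end W3283g
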