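import Pool.Agent.W_3283e1_h53.NumI
import Pool.Agent.W_3283e1_h53.NumB
import Pool.Agent.W_3283e1_h53.NumC
import Pool.Agent.W_3283e1_h53.NumW
import Pool.Agent.W_MP_3283e1_h19.DatR

set_option autoImplicit false

namespace W3283g

open Complex W3283e1 W3283f MeasureTheory Filter Topology

lemma NumD_cpow (t : ℝ) (ht : 0 < t) (s : ℂ) :
    ((t : ℂ) ^ s).re = Real.exp (s.re * Real.log t) * Real.cos (s.im * Real.log t) ∧
    ((t : ℂ) ^ s).im = Real.exp (s.re * Real.log t) * Real.sin (s.im * Real.log t) := by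
  have h1 : (t : ℂ) ≠ 0 := by exact_mod_cast ht.ne'
  rw [Complex.cpow_def_of_ne_zero h1, ← Complex.ofReal_log ht.le, Complex.exp_re, Complex.exp_im]
  have h2 : ((Real.log t : ℂ) * s).re = s.re * Real.log t := by
    rw [Complex.re_ofReal_mul, mul_comm]
  have h3 : ((Real.log t : ℂ) * s).im = s.im * Real.log t := by
    rw [Complex.im_ofReal_mul, mul_comm]
  rw [h2, h3]
  exact ⟨rfl, rfl⟩

lemma NumD_re (a : ℕ → ℝ) (κ ε : ℝ) (h : ThData a κ ε) (s : ℂ) :
    (LamG a κ s).re = ∫ t in Set.Ioi (1 : ℝ),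
      (((t : ℂ) ^ s + ε * (t : ℂ) ^ (-s)) * (Th a κ t : ℂ)).re := by
  obtain ⟨h1, h2⟩ := lam_split a κ ε h s
  rw [h2]
  exact (Complex.reCLM.integral_comp_comm h1).symm

lemma NumD_im (a : ℕ → ℝ) (κ ε : ℝ) (h : ThData a κ ε) (s : ℂ) :
    (LamG a κ s).im = ∫ t in Set.Ioi (1 : ℝ),
      (((t : ℂ) ^ s + ε * (t : ℂ) ^ (-s)) * (Th a κ t : ℂ)).im := by
  obtain ⟨h1, h2⟩ := lam_split a κ ε h s
  rw [h2]
  exact (Complex.imCLM.integral_comp_comm h1).symm

lemma NumD_abs_mul (σ v : ℝ) (hv : 0 ≤ v) : |σ * v| = |σ| * v := by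
  rw [abs_mul, abs_of_nonneg hv]

lemma NumD_re_pos (a : ℕ → ℝ) (κ : ℝ) (h : ThData a κ 1) (s : ℂ) :
    (LamG a κ s).re = 2 * ∫ t in Set.Ioi (1 : ℝ),
      (Real.cosh (|s.re| * Real.log t) * Real.cos (|s.im| * Real.log t)) * Th a κ t := by
  rw [NumD_re a κ 1 h s, ← integral_const_mul]
  refine setIntegral_congr_fun measurableSet_Ioi fun t ht => ?_
  have ht1 : (1 : ℝ) < t := ht
  have ht0 : (0 : ℝ) < t := lt_trans one_pos ht1
  have hv : 0 ≤ Real.log t := Real.log_nonneg ht1.le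
  obtain ⟨h1, -⟩ := NumD_cpow t ht0 s
  obtain ⟨h2, -⟩ := NumD_cpow t ht0 (-s)
  rw [Complex.re_mul_ofReal, Complex.add_re, Complex.ofReal_one, one_mul, h1, h2,
    ← NumD_abs_mul _ _ hv, ← NumD_abs_mul _ _ hv, Real.cosh_abs, Real.cos_abs, Real.cosh_eq,
    Complex.neg_re, Complex.neg_im, neg_mul, neg_mul, Real.cos_neg]
  ring

lemma NumD_re_neg (a : ℕ → ℝ) (κ : ℝ) (h : ThData a κ (-1)) (σ : ℝ) (hσ : 0 < σ) :
    (LamG a κ σ).re = 2 * σ * ∫ t in Set.Ioi (1 : ℝ),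
      (Real.sinh (σ * Real.log t) / σ) * Th a κ t := by
  rw [NumD_re a κ (-1) h σ, ← integral_const_mul]
  refine setIntegral_congr_fun measurableSet_Ioi fun t ht => ?_
  have ht1 : (1 : ℝ) < t := ht
  have ht0 : (0 : ℝ) < t := lt_trans one_pos ht1
  obtain ⟨h1, -⟩ := NumD_cpow t ht0 (σ : ℂ)
  obtain ⟨h2, -⟩ := NumD_cpow t ht0 (-(σ : ℂ))
  rw [Complex.re_mul_ofReal, Complex.add_re, Complex.re_ofReal_mul, h1, h2, Complex.neg_re,
    Complex.neg_im, Complex.ofReal_re, Complex.ofReal_im, neg_zero, zero_mul, Real.cos_zero,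
    Real.sinh_eq, neg_mul]
  field_simp
  ring

lemma NumD_im_neg (a : ℕ → ℝ) (κ : ℝ) (h : ThData a κ (-1)) (s : ℂ) (hs : s.im ≠ 0) :
    (LamG a κ s).im = 2 * s.im * ∫ t in Set.Ioi (1 : ℝ),
      (Real.cosh (|s.re| * Real.log t) * (Real.sin (|s.im| * Real.log t) / |s.im|)) *
        Th a κ t := by
  rw [NumD_im a κ (-1) h s, ← integral_const_mul]
  refine setIntegral_congr_fun measurableSet_Ioi fun t ht => ?_
  have ht1 : (1 : ℝ) < t := ht
  have ht0 : (0 : ℝ) < t := lt_trans one_pos ht1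
  have hv : 0 ≤ Real.log t := Real.log_nonneg ht1.le
  obtain ⟨-, h1⟩ := NumD_cpow t ht0 s
  obtain ⟨-, h2⟩ := NumD_cpow t ht0 (-s)
  have h3 : Real.sin (|s.im| * Real.log t) / |s.im| = Real.sin (s.im * Real.log t) / s.im := by
    rcases abs_choice s.im with h4 | h4
    · rw [h4]
    · rw [h4, neg_mul, Real.sin_neg, neg_div_neg_eq]
  rw [h3, Complex.im_mul_ofReal, Complex.add_im, Complex.im_ofReal_mul, h1, h2,
    ← NumD_abs_mul _ _ hv, Real.cosh_abs, Real.cosh_eq, Complex.neg_re, Complex.neg_im,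
    neg_mul s.re, neg_mul s.im, Real.sin_neg]
  field_simp

lemma NumD_tl (α : ℝ) (hα : 0 < α) : 0 ≤ tl (Real.exp (-α)) := by
  have h0 := Real.exp_pos (-α)
  have h1 : Real.exp (-α) < 1 := by
    rw [← Real.exp_zero]
    exact Real.exp_lt_exp.mpr (by linarith)
  have h2 : Real.exp (-α) ^ 4 < 1 := pow_lt_one₀ h0.le h1 (by norm_num)
  have h3 : 0 < 1 - Real.exp (-α) ^ 4 := by linarith
  unfold tl
  positivity

lemma NumD_log : ContinuousOn Real.log (Set.Ici (1 : ℝ)) :=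
  Real.continuousOn_log.mono fun t ht => by
    have h1 : (1 : ℝ) ≤ t := ht
    have h2 : t ≠ 0 := by linarith
    exact h2

lemma NumD_lin (c : ℝ) : ContinuousOn (fun t => c * Real.log t) (Set.Ici (1 : ℝ)) :=
  continuousOn_const.mul NumD_log

lemma NumD_Th (a : ℕ → ℝ) (κ ε : ℝ) (h : ThData a κ ε) : ContinuousOn (Th a κ) (Set.Ici 1) :=
  (Th_cont a κ ε h).mono fun t ht => by
    have h1 : (1 : ℝ) ≤ t := ht
    exact Set.mem_Ioi.mpr (by linarith)

lemma NumD_near (n j : ℕ) (ε : ℝ) (h : ThData (aFam n j) (kF n j) ε) : ∀ t : ℝ, 1 ≤ t →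
    |Th (aFam n j) (kF n j) t - Real.exp (-(Real.pi * kF n j * t))| ≤
      2 * Real.exp (-(5 * (Real.pi * kF n j) * t)) + 3 * Real.exp (-(9 * (Real.pi * kF n j) * t)) +
      tl (Real.exp (-(Real.pi * kF n j))) * Real.exp (-(13 * (Real.pi * kF n j) * (t - 1))) :=
  fun t ht => th_near (aFam n j) (kF n j) ε h (fun m hm => coef_zero n j m hm) (coef_5 n j)
    (coef_9 n j) (fun m hm => coef_bd n j m (by omega)) t ht

lemma NumD_dat_pos (n j : ℕ) (hnj : (n = 1 ∧ j = 0) ∨ (n = 1 ∧ j = 1) ∨ (n = 3 ∧ j = 0)) :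
    ThData (aFam n j) (kF n j) 1 ∧ Odd n ∧
    (Real.pi * kF n j = Real.pi * (Real.sqrt 2 / (4 * 1)) ∨
      Real.pi * kF n j = Real.pi * (1 / (4 * 1)) ∨
      Real.pi * kF n j = Real.pi * (Real.sqrt 2 / (4 * 3))) := by
  rcases hnj with ⟨rfl, rfl⟩ | ⟨rfl, rfl⟩ | ⟨rfl, rfl⟩
  · have h := thData_fam 1 0 (Or.inl rfl) (by decide) squarefree_one
    have he : eF 1 0 = 1 := by
      unfold eF
      simp
    rw [he] at h
    refine ⟨h, by decide, Or.inl ?_⟩
    unfold kF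
    norm_num
  · have h := thData_fam 1 1 (Or.inr rfl) (by decide) squarefree_one
    have he : eF 1 1 = 1 := by
      unfold eF
      simp
    rw [he] at h
    refine ⟨h, by decide, Or.inr (Or.inl ?_)⟩
    unfold kF
    norm_num
  · have h := thData_fam 3 0 (Or.inl rfl) (by decide) (Nat.prime_three.prime.squarefree)
    have he : eF 3 0 = 1 := by
      unfold eF
      have h1 : ZMod.χ₄ ((3 : ℕ) : ZMod 4) = -1 := by decide
      have h2 : jacobiSym 2 3 = -1 := by norm_num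
      rw [h1, if_pos rfl, h2]
      norm_num
    rw [he] at h
    refine ⟨h, by decide, Or.inr (Or.inr ?_)⟩
    unfold kF
    norm_num

lemma NumD_dat_neg (n j : ℕ) (hnj : (n = 5 ∧ j = 0) ∨ (n = 3 ∧ j = 1) ∨ (n = 7 ∧ j = 0)) :
    ThData (aFam n j) (kF n j) (-1) ∧ Odd n ∧
    (Real.pi * kF n j = Real.pi * (Real.sqrt 2 / (4 * 5)) ∨
      Real.pi * kF n j = Real.pi * (1 / (4 * 3)) ∨
      Real.pi * kF n j = Real.pi * (Real.sqrt 2 / (4 * 7))) := by
  rcases hnj with ⟨rfl, rfl⟩ | ⟨rfl, rfl⟩ | ⟨rfl, rfl⟩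
  · have h := thData_fam 5 0 (Or.inl rfl) (by decide) (Nat.prime_five.prime.squarefree)
    have he : eF 5 0 = -1 := by
      unfold eF
      have h1 : ZMod.χ₄ ((5 : ℕ) : ZMod 4) = 1 := by decide
      have h2 : jacobiSym 2 5 = -1 := by norm_num
      rw [h1, if_pos rfl, h2]
      norm_num
    rw [he] at h
    refine ⟨h, by decide, Or.inl ?_⟩
    unfold kF
    norm_num
  · have h := thData_fam 3 1 (Or.inr rfl) (by decide) (Nat.prime_three.prime.squarefree)
    have he : eF 3 1 = -1 := by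
      unfold eF
      have h1 : ZMod.χ₄ ((3 : ℕ) : ZMod 4) = -1 := by decide
      rw [h1, if_neg (by norm_num)]
      norm_num
    rw [he] at h
    refine ⟨h, by decide, Or.inr (Or.inl ?_)⟩
    unfold kF
    norm_num
  · have h := thData_fam 7 0 (Or.inl rfl) (by decide)
      ((by norm_num : Nat.Prime 7).prime.squarefree)
    have he : eF 7 0 = -1 := by
      unfold eF
      have h1 : ZMod.χ₄ ((7 : ℕ) : ZMod 4) = -1 := by decide
      have h2 : jacobiSym 2 7 = 1 := by norm_num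
      rw [h1, if_pos rfl, h2]
      norm_num
    rw [he] at h
    refine ⟨h, by decide, Or.inr (Or.inr ?_)⟩
    unfold kF
    norm_num

lemma NumD_LLF (n j : ℕ) (s : ℂ) :
    LLF n j (1 + s) = LamG_fac (kF n j) s * uF n j (1 + s) * LamG (aFam n j) (kF n j) s := by
  unfold LLF
  rw [LamG_fac_eq]
  ring

/-- The three cases with sign `+1`: `eF n j = 1` (`decide`/computation of the symbols).
`LamG s = 2 ∫ cosh(s v) Th dt` (`lam_split`, `v = log t`), real part
`2 ∫ cosh(σv) cos(τv) Th(t) dt` with `σ = |Re s|`, `τ = |Im s|` (the weight is even in both); positive by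
`int_pos` with `α = π kF n j`, `T = tl (e^{-α})`, `F = Th`, `th_near` (`coef_bd`, `coef_zero`, `coef_5`,
`coef_9`), `wt_pos`, `num_pos`. -/
theorem zf_pos (n j : ℕ) (hnj : (n = 1 ∧ j = 0) ∨ (n = 1 ∧ j = 1) ∨ (n = 3 ∧ j = 0)) (s : ℂ)
    (h0 : |s.re| ≤ 1 / 2) (h1 : |s.im| ≤ 3 / 4) : LamG (aFam n j) (kF n j) s ≠ 0 := by
  obtain ⟨hT, -, hα⟩ := NumD_dat_pos n j hnj
  have hpk : 0 < Real.pi * kF n j := mul_pos Real.pi_pos hT.κpos
  obtain ⟨w1, w2, w3, w4, w5, w6, w7⟩ := wt_pos |s.re| |s.im| (abs_nonneg _) h0 (abs_nonneg _) h1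
  have hw : ContinuousOn (fun t => Real.cosh (|s.re| * Real.log t) *
      Real.cos (|s.im| * Real.log t)) (Set.Ici (1 : ℝ)) :=
    (Real.continuous_cosh.comp_continuousOn (NumD_lin _)).mul
      (Real.continuous_cos.comp_continuousOn (NumD_lin _))
  obtain ⟨-, h2⟩ := int_pos (Real.pi * kF n j) (tl (Real.exp (-(Real.pi * kF n j)))) hpk
    (NumD_tl _ hpk) _ (Th (aFam n j) (kF n j)) hw (NumD_Th _ _ _ hT) w1 w2 w3 w4 w5 w6 w7
    (NumD_near n j 1 hT)
  have h3 := num_pos _ hα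
  have h4 := lt_of_lt_of_le h3 h2
  have h5 := NumD_re_pos _ _ hT s
  intro hz
  rw [hz, Complex.zero_re] at h5
  linarith

/-- The three cases with sign `-1`: `eF n j = -1`, `LamG s = 2 ∫ sinh(s v) Th dt`.  For real `σ` the value
is `2σ ∫ (sinh(σv)/σ) Th ≥ 2 D σ` by `int_neg`, `wt_sinh`, `num_neg`; `LamG 0 = 0`.  For `Im s = τ ≠ 0`
the imaginary part is `2τ ∫ cosh(σv) (sin(τv)/τ) Th` (weight even in `σ` and `τ`), nonzero by `int_neg`,
`wt_neg`, `num_neg`; for `τ = 0` use the real case and that `LamG` is odd (`LamG_basic`). -/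
theorem zf_neg (n j : ℕ) (hnj : (n = 5 ∧ j = 0) ∨ (n = 3 ∧ j = 1) ∨ (n = 7 ∧ j = 0)) :
    (∀ s : ℂ, |s.re| ≤ 1 / 2 → |s.im| ≤ 3 / 4 → s ≠ 0 → LamG (aFam n j) (kF n j) s ≠ 0) ∧
    LamG (aFam n j) (kF n j) 0 = 0 ∧
    ∃ D : ℝ, 0 < D ∧ ∀ σ : ℝ, 0 < σ → σ ≤ 1 / 2 →
      D * σ ≤ (LamG (aFam n j) (kF n j) σ).re := by
  obtain ⟨hT, -, hα⟩ := NumD_dat_neg n j hnj
  have hpk : 0 < Real.pi * kF n j := mul_pos Real.pi_pos hT.κpos
  have hodd := (LamG_basic _ _ _ hT).2.1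
  have h3 := num_neg _ hα
  obtain ⟨D, hD⟩ : ∃ D : ℝ, D = 64 / 100 * (Real.exp (-(Real.pi * kF n j)) ^ 2 -
      Real.exp (-(Real.pi * kF n j)) ^ 3) / (Real.pi * kF n j) +
      94 / 100 * (Real.exp (-(Real.pi * kF n j)) ^ 3 - Real.exp (-(Real.pi * kF n j)) ^ 4) /
        (Real.pi * kF n j) +
      11 / 10 * (Real.exp (-(Real.pi * kF n j)) ^ 4 - Real.exp (-(Real.pi * kF n j)) ^ 16) /
        (Real.pi * kF n j) -
      Real.exp (-(Real.pi * kF n j)) ^ 65 * (64 / (Real.pi * kF n j) +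
        1 / (Real.pi * kF n j) ^ 2) -
      (2 * Real.exp (-(Real.pi * kF n j)) ^ 5 / (25 * (Real.pi * kF n j) ^ 2) +
        3 * Real.exp (-(Real.pi * kF n j)) ^ 9 / (81 * (Real.pi * kF n j) ^ 2) +
        tl (Real.exp (-(Real.pi * kF n j))) / (169 * (Real.pi * kF n j) ^ 2)) := ⟨_, rfl⟩
  rw [← hD] at h3
  have hreal : ∀ σ : ℝ, 0 < σ → σ ≤ 1 / 2 →
      2 * D * σ ≤ (LamG (aFam n j) (kF n j) σ).re := by
    intro σ hσ0 hσ
    obtain ⟨w1, w2, w3, w4, w5⟩ := wt_sinh σ hσ0 hσ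
    have hw : ContinuousOn (fun t => Real.sinh (σ * Real.log t) / σ) (Set.Ici (1 : ℝ)) :=
      (Real.continuous_sinh.comp_continuousOn (NumD_lin _)).div_const _
    obtain ⟨-, h2⟩ := int_neg (Real.pi * kF n j) (tl (Real.exp (-(Real.pi * kF n j)))) hpk
      (NumD_tl _ hpk) _ (Th (aFam n j) (kF n j)) hw (NumD_Th _ _ _ hT) w1 w2 w3 w4 w5
      (NumD_near n j _ hT)
    rw [← hD] at h2
    rw [NumD_re_neg _ _ hT σ hσ0]
    have h4 := mul_le_mul_of_nonneg_left h2 (by positivity : (0 : ℝ) ≤ 2 * σ)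
    linarith
  have hposre : ∀ σ : ℝ, 0 < σ → σ ≤ 1 / 2 → LamG (aFam n j) (kF n j) σ ≠ 0 := by
    intro σ hσ0 hσ hz
    have h4 := hreal σ hσ0 hσ
    rw [hz, Complex.zero_re] at h4
    have h5 : 0 < 2 * D * σ := by positivity
    linarith
  refine ⟨?_, ?_, 2 * D, by positivity, hreal⟩
  · intro s hs1 hs2 hs0
    by_cases him : s.im = 0
    · have hsr : s = ((s.re : ℝ) : ℂ) := by
        apply Complex.ext
        · rw [Complex.ofReal_re]
        · rw [Complex.ofReal_im, him]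
      have hre : s.re ≠ 0 := by
        intro hc
        apply hs0
        rw [hsr, hc, Complex.ofReal_zero]
      rcases lt_or_gt_of_ne hre with hlt | hgt
      · have h4 := hposre (-s.re) (by linarith) (by
          have := (abs_le.mp hs1).1
          linarith)
        intro hz
        apply h4
        have h5 := hodd s
        rw [hz, mul_zero] at h5
        rw [Complex.ofReal_neg, ← hsr]
        exact h5
      · have h4 := hposre s.re hgt (abs_le.mp hs1).2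
        rw [← hsr] at h4
        exact h4
    · obtain ⟨w1, w2, w3, w4, w5⟩ := wt_neg |s.re| |s.im| (abs_nonneg _) hs1 (abs_pos.mpr him) hs2
      have hw : ContinuousOn (fun t => Real.cosh (|s.re| * Real.log t) *
          (Real.sin (|s.im| * Real.log t) / |s.im|)) (Set.Ici (1 : ℝ)) :=
        (Real.continuous_cosh.comp_continuousOn (NumD_lin _)).mul
          ((Real.continuous_sin.comp_continuousOn (NumD_lin _)).div_const _)
      obtain ⟨-, h2⟩ := int_neg (Real.pi * kF n j) (tl (Real.exp (-(Real.pi * kF n j)))) hpk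
        (NumD_tl _ hpk) _ (Th (aFam n j) (kF n j)) hw (NumD_Th _ _ _ hT) w1 w2 w3 w4 w5
        (NumD_near n j _ hT)
      rw [← hD] at h2
      have h4 := lt_of_lt_of_le h3 h2
      have h5 := NumD_im_neg _ _ hT s him
      intro hz
      rw [hz, Complex.zero_im] at h5
      have h6 := mul_ne_zero (mul_ne_zero two_ne_zero him) h4.ne'
      exact h6 h5.symm
  · have h4 := hodd 0
    rw [neg_zero] at h4
    have h5 : (2 : ℂ) * LamG (aFam n j) (kF n j) 0 = 0 := by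
      push_cast at h4
      linear_combination h4
    exact (mul_eq_zero.mp h5).resolve_left two_ne_zero

/-- Consequences for `LLF` (`LLF n j (1+s) = LamG_fac (kF n j) s * LamG s * uF n j (1+s)`,
`LamG_fac_ne`, `uF_good`) and for the order `r` of vanishing at `1`.  If `LLF n j 1 ≠ 0` then
`LLF(1+s)/s^r` can converge to a nonzero number only for `r = 0`.  In the second case
`LLF n j 1 = 0` excludes `r = 0`, and `‖LLF(1+σ)‖ ≥ D' σ` excludes `r ≥ 2`. -/
theorem small_fam (n j : ℕ) (r : ℕ) (l : ℝ) (hl : l ≠ 0)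
    (hlim : Tendsto (fun s : ℂ => LLF n j (1 + s) / s ^ r) (𝓝[≠] 0) (𝓝 (l : ℂ)))
    (hnj : ((n = 1 ∧ j = 0) ∨ (n = 1 ∧ j = 1) ∨ (n = 3 ∧ j = 0)) ∨
      (n = 5 ∧ j = 0) ∨ (n = 3 ∧ j = 1) ∨ (n = 7 ∧ j = 0)) :
    (∀ s : ℂ, 0 < s.re → s.re ≤ 1 / 2 → |s.im| ≤ 3 / 4 → LLF n j (1 + s) ≠ 0) ∧
    (((n = 1 ∧ j = 0) ∨ (n = 1 ∧ j = 1) ∨ (n = 3 ∧ j = 0)) → r = 0) ∧
    (((n = 5 ∧ j = 0) ∨ (n = 3 ∧ j = 1) ∨ (n = 7 ∧ j = 0)) → r = 1) := by
  have hdat : Odd n ∧ ∃ ε : ℝ, ThData (aFam n j) (kF n j) ε := by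
    rcases hnj with h | h
    · obtain ⟨h1, h2, -⟩ := NumD_dat_pos n j h
      exact ⟨h2, 1, h1⟩
    · obtain ⟨h1, h2, -⟩ := NumD_dat_neg n j h
      exact ⟨h2, -1, h1⟩
  obtain ⟨hodd, ε, hT⟩ := hdat
  have hG : ∀ s : ℂ, -(1 / 4) < s.re → LamG_fac (kF n j) s * uF n j (1 + s) ≠ 0 := by
    intro s hs
    refine mul_ne_zero (LamG_fac_ne _ hT.κpos s (by linarith)) (uF_good n j hodd (1 + s) ?_).2
    rw [Complex.add_re, Complex.one_re]
    linarith
  have hGc : ContinuousAt (fun s : ℂ => LamG_fac (kF n j) s * uF n j (1 + s)) 0 := by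
    have h1 : ContinuousAt (uF n j) (1 + 0) :=
      (uF_good n j hodd (1 + 0) (by rw [add_zero, Complex.one_re]; norm_num)).1.continuousAt
    have h2 : ContinuousAt (fun s : ℂ => uF n j (1 + s)) 0 :=
      ContinuousAt.comp (f := fun s : ℂ => 1 + s) (g := uF n j) h1
        (continuous_const.add continuous_id).continuousAt
    exact ((LamG_fac_diff _ hT.κpos).continuous.continuousAt).mul h2
  have hLc : ContinuousAt (fun s : ℂ => LLF n j (1 + s)) 0 := by
    have h1 : (fun s : ℂ => LLF n j (1 + s)) = fun s : ℂ =>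
        (LamG_fac (kF n j) s * uF n j (1 + s)) * LamG (aFam n j) (kF n j) s := by
      funext s
      exact NumD_LLF n j s
    rw [h1]
    exact hGc.mul (LamG_basic _ _ _ hT).1.continuous.continuousAt
  have hLim : Tendsto (fun s : ℂ => LLF n j (1 + s)) (𝓝[≠] 0) (𝓝 (LLF n j (1 + 0))) :=
    hLc.tendsto.mono_left nhdsWithin_le_nhds
  have hid : Tendsto (fun s : ℂ => s) (𝓝[≠] 0) (𝓝 0) := tendsto_id.mono_left nhdsWithin_le_nhds
  have hpow : ∀ k : ℕ, k ≠ 0 → Tendsto (fun s : ℂ => s ^ k) (𝓝[≠] 0) (𝓝 0) := by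
    intro k hk
    have h1 := hid.pow k
    rwa [zero_pow hk] at h1
  have hlc : (l : ℂ) ≠ 0 := by exact_mod_cast hl
  refine ⟨?_, ?_, ?_⟩
  · intro s hs0 hs1 hs2
    have habs : |s.re| ≤ 1 / 2 := by rw [abs_of_pos hs0]; exact hs1
    have hL : LamG (aFam n j) (kF n j) s ≠ 0 := by
      rcases hnj with h | h
      · exact zf_pos n j h s habs hs2
      · refine (zf_neg n j h).1 s habs hs2 ?_
        rintro rfl
        rw [Complex.zero_re] at hs0
        exact lt_irrefl _ hs0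
    rw [NumD_LLF]
    exact mul_ne_zero (hG s (by linarith)) hL
  · intro h
    by_contra hr
    have h1 := hlim.mul (hpow r hr)
    rw [mul_zero] at h1
    have h2 : Tendsto (fun s : ℂ => LLF n j (1 + s)) (𝓝[≠] 0) (𝓝 0) := by
      refine h1.congr' ?_
      filter_upwards [self_mem_nhdsWithin] with s hs
      have hs' : s ≠ 0 := hs
      exact div_mul_cancel₀ _ (pow_ne_zero _ hs')
    have h3 := tendsto_nhds_unique h2 hLim
    have h4 : LLF n j (1 + 0) ≠ 0 := by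
      rw [NumD_LLF]
      refine mul_ne_zero (hG 0 (by rw [Complex.zero_re]; norm_num)) (zf_pos n j h 0 ?_ ?_)
      · rw [Complex.zero_re, abs_zero]; norm_num
      · rw [Complex.zero_im, abs_zero]; norm_num
    exact h4 h3.symm
  · intro h
    obtain ⟨-, hz, D, hD, hb⟩ := zf_neg n j h
    have hL0 : LLF n j (1 + 0) = 0 := by rw [NumD_LLF, hz, mul_zero]
    by_contra hr
    rcases Nat.eq_zero_or_pos r with hr0 | hrpos
    · subst hr0
      have h1 : Tendsto (fun s : ℂ => LLF n j (1 + s)) (𝓝[≠] 0) (𝓝 (l : ℂ)) := by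
        refine hlim.congr fun s => ?_
        rw [pow_zero, div_one]
      have h2 := tendsto_nhds_unique h1 hLim
      rw [hL0] at h2
      exact hlc h2
    · obtain ⟨k, hk⟩ : ∃ k, r = k + 2 := ⟨r - 2, by omega⟩
      subst hk
      have h1 := hlim.mul (hpow (k + 1) (Nat.succ_ne_zero k))
      rw [mul_zero] at h1
      have h2 : Tendsto (fun s : ℂ => LLF n j (1 + s) / s) (𝓝[≠] 0) (𝓝 0) := by
        refine h1.congr' ?_
        filter_upwards [self_mem_nhdsWithin] with s hs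
        have hs' : s ≠ 0 := hs
        rw [show k + 2 = (k + 1) + 1 by ring, pow_succ s (k + 1)]
        field_simp
      -- along the positive real axis
      have hreal : Tendsto (fun σ : ℝ => (σ : ℂ)) (𝓝[>] 0) (𝓝[≠] 0) := by
        refine tendsto_nhdsWithin_iff.mpr ⟨?_, ?_⟩
        · have h3 : Tendsto (fun σ : ℝ => (σ : ℂ)) (𝓝 0) (𝓝 ((0 : ℝ) : ℂ)) :=
            Complex.continuous_ofReal.continuousAt.tendsto
          rw [Complex.ofReal_zero] at h3
          exact h3.mono_left nhdsWithin_le_nhds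
        · filter_upwards [self_mem_nhdsWithin] with σ hσ
          have hσ' : (0 : ℝ) < σ := hσ
          have h4 : (σ : ℂ) ≠ 0 := by exact_mod_cast hσ'.ne'
          exact h4
      have h3 := (h2.comp hreal).norm
      rw [norm_zero] at h3
      have h4 : Tendsto (fun σ : ℝ => ‖LamG_fac (kF n j) (σ : ℂ) * uF n j (1 + (σ : ℂ))‖ * D)
          (𝓝[>] 0) (𝓝 (‖LamG_fac (kF n j) 0 * uF n j (1 + 0)‖ * D)) := by
        have h5 : Tendsto (fun s : ℂ => LamG_fac (kF n j) s * uF n j (1 + s)) (𝓝[≠] 0)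
            (𝓝 (LamG_fac (kF n j) 0 * uF n j (1 + 0))) :=
          hGc.tendsto.mono_left nhdsWithin_le_nhds
        exact ((h5.comp hreal).norm).mul_const D
      have h5 : ∀ᶠ σ : ℝ in 𝓝[>] 0,
          ‖LamG_fac (kF n j) (σ : ℂ) * uF n j (1 + (σ : ℂ))‖ * D ≤
            ‖((fun s : ℂ => LLF n j (1 + s) / s) ∘ fun σ : ℝ => (σ : ℂ)) σ‖ := by
        have h6 : Set.Ioo (0 : ℝ) (1 / 2) ∈ 𝓝[>] (0 : ℝ) := Ioo_mem_nhdsGT (by norm_num)
        filter_upwards [h6] with σ hσ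
        have hσ0 : 0 < σ := hσ.1
        have h7 := hb σ hσ.1 hσ.2.le
        have h8 : D * σ ≤ ‖LamG (aFam n j) (kF n j) σ‖ := h7.trans (Complex.re_le_norm _)
        simp only [Function.comp_apply]
        rw [NumD_LLF, _root_.norm_div, norm_mul _ (LamG (aFam n j) (kF n j) (σ : ℂ)), Complex.norm_real,
          Real.norm_of_nonneg hσ0.le, le_div_iff₀ hσ0, mul_assoc]
        exact mul_le_mul_of_nonneg_left h8 (norm_nonneg _)
      have h9 := le_of_tendsto_of_tendsto h4 h3 h5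
      have h10 : 0 < ‖LamG_fac (kF n j) 0 * uF n j (1 + 0)‖ * D :=
        mul_pos (norm_pos_iff.mpr (hG 0 (by rw [Complex.zero_re]; norm_num))) hD
      linarith

end W3283g
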