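import Pool.Agent.W_3283e1_h53.Setup
import Pool.Agent.W_3283e1_h53.GauFwd
import Pool.Agent.W_3283e1_h53.GauBwd
import Pool.Agent.W_3283e1_h53.NumD
import Pool.Agent.W_3283e1_h53.FinH3

set_option autoImplicit false

namespace W3283g

open Complex W3283e1 W3283f MeasureTheory Filter Topology

/-- The Gaussian mean of the logarithm of the normalized product. -/
noncomputable def gP (a b : ℤ) (C : ℝ) (r : ℕ) (A U : ℝ) : ℝ :=
  (Real.sqrt (2 * Real.pi * (A * U)))⁻¹ *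
    ∫ u in Set.Ioi (0 : ℝ), Real.log (bsdProd a b (Real.exp u) / (C * u ^ r)) *
      Real.exp (-(u - U) ^ 2 / (2 * (A * U)))

theorem FinH1_floor (a b : ℤ) (x : ℝ) : bsdProd a b x = bsdProd a b ((⌊x⌋₊ : ℕ) : ℝ) := by
  unfold bsdProd
  rw [Nat.floor_natCast]

/-- The difference of the two functions is bounded on bounded sets. -/
theorem FinH1_bd (a b : ℤ) (C : ℝ) (hC : 0 < C) (r : ℕ) (α : ℕ → ℂ)
    (hα : ∀ p : ℕ, p.Prime → p ≠ 2 → ‖α p‖ ^ 2 = p) (κ0 B : ℝ) :
    ∃ M : ℝ, 0 ≤ M ∧ ∀ u : ℝ, 0 < u → u < B →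
      |Real.log (bsdProd a b (Real.exp u) / (C * u ^ r)) - er α κ0 r u| ≤ M := by
  refine ⟨(∑ N ∈ Finset.range (⌊Real.exp B⌋₊ + 1), |Real.log (bsdProd a b (N : ℝ))|) +
    |Real.log C| + 14 * Real.sqrt (Real.exp B) + |κ0|, by positivity, ?_⟩
  intro u hu huB
  have h1 : Real.log (bsdProd a b (Real.exp u) / (C * u ^ r)) - er α κ0 r u =
      Real.log (bsdProd a b (Real.exp u)) - Real.log C - AA α (Real.exp u) + κ0 := by
    have h2 : C * u ^ r ≠ 0 := by positivity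
    rw [Real.log_div (bsd_pos a b _).ne' h2, Real.log_mul hC.ne' (by positivity), Real.log_pow]
    unfold er
    ring
  rw [h1]
  have h2 : |Real.log (bsdProd a b (Real.exp u))| ≤
      ∑ N ∈ Finset.range (⌊Real.exp B⌋₊ + 1), |Real.log (bsdProd a b (N : ℝ))| := by
    rw [FinH1_floor]
    have h3 : ⌊Real.exp u⌋₊ ∈ Finset.range (⌊Real.exp B⌋₊ + 1) := by
      rw [Finset.mem_range, Nat.lt_succ_iff]
      exact Nat.floor_le_floor (Real.exp_le_exp.2 huB.le)
    exact Finset.single_le_sum (f := fun N : ℕ => |Real.log (bsdProd a b (N : ℝ))|)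
      (fun _ _ => abs_nonneg _) h3
  have h3 : |AA α (Real.exp u)| ≤ 14 * Real.sqrt (Real.exp B) := by
    refine (abs_AA_le α hα _ (Real.exp_pos u).le).trans ?_
    have := Real.sqrt_le_sqrt (Real.exp_le_exp.2 huB.le)
    linarith
  calc |Real.log (bsdProd a b (Real.exp u)) - Real.log C - AA α (Real.exp u) + κ0|
      ≤ |Real.log (bsdProd a b (Real.exp u)) - Real.log C - AA α (Real.exp u)| + |κ0| :=
        abs_add_le _ _
    _ ≤ |Real.log (bsdProd a b (Real.exp u)) - Real.log C| + |AA α (Real.exp u)| + |κ0| := by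
        have := abs_sub (Real.log (bsdProd a b (Real.exp u)) - Real.log C) (AA α (Real.exp u))
        linarith
    _ ≤ |Real.log (bsdProd a b (Real.exp u))| + |Real.log C| + |AA α (Real.exp u)| + |κ0| := by
        have := abs_sub (Real.log (bsdProd a b (Real.exp u))) (Real.log C)
        linarith
    _ ≤ _ := by linarith

/-- The difference of two integrals is bounded by the integral of the difference, without
integrability of the two functions. -/
theorem FinH1_sub (f g : ℝ → ℝ) (μ : Measure ℝ) (h : Integrable (fun u => f u - g u) μ) :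
    |(∫ u, f u ∂μ) - ∫ u, g u ∂μ| ≤ ∫ u, |f u - g u| ∂μ := by
  by_cases hg : Integrable g μ
  · have hf : Integrable f μ := by
      have h2 := h.add hg
      refine h2.congr ?_
      filter_upwards with u
      simp
    rw [← integral_sub hf hg]
    exact abs_integral_le_integral_abs
  · have hf : ¬ Integrable f μ := by
      intro hf
      apply hg
      have h2 := hf.sub h
      refine h2.congr ?_
      filter_upwards with u
      simp
    rw [integral_undef hf, integral_undef hg, sub_zero, abs_zero]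
    exact integral_nonneg fun u => abs_nonneg _

/-- The means of `log (P/(C u^r))` and of `er` differ by an exponentially small amount: the two functions
agree for `u ≥ log k`, `u > 0`, and for `0 < u < b = log k` their difference
`log P(e^u) - log C - AA (e^u) + κ0` is bounded (`r log u` cancels; `bsd_meas`, `abs_AA_le`);
for `U ≥ 2b`, `(u - U)² ≥ U²/4` there, so the difference is
`≤ K e^{-U/(8A)}`; for `1 ≤ U ≤ 2b` it is bounded. -/
theorem gP_near (a b : ℤ) (C : ℝ) (hC : 0 < C) (r : ℕ) (α : ℕ → ℂ)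
    (hα : ∀ p : ℕ, p.Prime → p ≠ 2 → ‖α p‖ ^ 2 = p) (κ0 : ℝ) (k : ℕ)
    (h : ∀ x : ℝ, (k : ℝ) ≤ x → 1 < x →
      Real.log (bsdProd a b x / (C * (Real.log x) ^ r)) = er α κ0 r (Real.log x)) (A : ℝ)
    (hA : 0 < A) :
    ∃ κ K : ℝ, 0 < κ ∧ ∀ U : ℝ, 1 ≤ U →
      |gP a b C r A U - gm (er α κ0 r) A U| ≤ K * Real.exp (-(κ * U)) := by
  obtain ⟨B, hB0, hB⟩ : ∃ B : ℝ, 0 < B ∧ (k : ℝ) ≤ Real.exp B := by
    refine ⟨(k : ℝ) + 1, by positivity, ?_⟩
    have := Real.add_one_le_exp ((k : ℝ) + 1)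
    linarith
  obtain ⟨M, hM0, hM⟩ := FinH1_bd a b C hC r α hα κ0 B
  set g : ℝ → ℝ := fun u => Real.log (bsdProd a b (Real.exp u) / (C * u ^ r)) - er α κ0 r u
    with hg
  have hgm : Measurable g := by
    refine Measurable.sub ?_ (er_meas α κ0 r)
    refine Real.measurable_log.comp ?_
    exact ((bsd_meas a b).comp Real.measurable_exp).div (by fun_prop)
  have hg0 : ∀ u : ℝ, 0 < u → B ≤ u → g u = 0 := by
    intro u hu hBu
    have h1 := h (Real.exp u) (hB.trans (Real.exp_le_exp.2 hBu)) (Real.one_lt_exp_iff.2 hu)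
    rw [Real.log_exp] at h1
    simp only [hg]
    rw [h1, sub_self]
  have hgM : ∀ u : ℝ, 0 < u → |g u| ≤ (Set.Ioo 0 B).indicator (fun _ => M) u := by
    intro u hu
    by_cases h2 : u < B
    · rw [Set.indicator_of_mem (show u ∈ Set.Ioo 0 B from ⟨hu, h2⟩)]
      exact hM u hu h2
    · rw [hg0 u hu (not_lt.1 h2), abs_zero]
      exact Set.indicator_nonneg (fun _ _ => hM0) u
  refine ⟨1 / (8 * A), (Real.sqrt (2 * Real.pi * A))⁻¹ * (M * B * Real.exp (B / (4 * A))),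
    by positivity, ?_⟩
  intro U hU
  set G : ℝ → ℝ := fun u => Real.exp (-(u - U) ^ 2 / (2 * (A * U))) with hG
  have hAU : 0 < A * U := by positivity
  have hG1 : ∀ u : ℝ, 0 < u → u < B →
      G u ≤ Real.exp (B / (4 * A)) * Real.exp (-(1 / (8 * A) * U)) := by
    intro u hu huB
    simp only [hG]
    rw [← Real.exp_add]
    refine Real.exp_le_exp.2 ?_
    rw [div_le_iff₀ (by positivity)]
    have h2 : (B / (4 * A) + -(1 / (8 * A) * U)) * (2 * (A * U)) = B * U / 2 - U ^ 2 / 4 := by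
      field_simp
      ring
    rw [h2]
    rcases le_total (2 * B) U with h3 | h3
    · nlinarith
    · nlinarith [sq_nonneg (u - U)]
  have hdom : Integrable ((Set.Ioo 0 B).indicator fun _ : ℝ =>
      M * (Real.exp (B / (4 * A)) * Real.exp (-(1 / (8 * A) * U)))) (volume.restrict (Set.Ioi 0)) := by
    refine Integrable.restrict ?_
    rw [integrable_indicator_iff measurableSet_Ioo]
    exact integrableOn_const (by simp)
  have hbd : ∀ u : ℝ, 0 < u → |g u * G u| ≤ (Set.Ioo 0 B).indicator (fun _ : ℝ =>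
      M * (Real.exp (B / (4 * A)) * Real.exp (-(1 / (8 * A) * U)))) u := by
    intro u hu
    by_cases h2 : u < B
    · rw [Set.indicator_of_mem (show u ∈ Set.Ioo 0 B from ⟨hu, h2⟩), abs_mul]
      have h3 := hM u hu h2
      have h4 := hG1 u hu h2
      have h5 : |G u| = G u := abs_of_pos (Real.exp_pos _)
      rw [h5]
      exact mul_le_mul h3 h4 (Real.exp_pos _).le hM0
    · rw [hg0 u hu (not_lt.1 h2), zero_mul, abs_zero]
      exact Set.indicator_nonneg (fun _ _ => by positivity) u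
  have hgG : Measurable fun u => g u * G u := hgm.mul (by fun_prop)
  have hpos : ∀ᵐ u : ℝ ∂(volume.restrict (Set.Ioi (0 : ℝ))), 0 < u :=
    ae_restrict_mem measurableSet_Ioi
  have hint : Integrable (fun u => g u * G u) (volume.restrict (Set.Ioi 0)) := by
    refine Integrable.mono' hdom hgG.aestronglyMeasurable ?_
    filter_upwards [hpos] with u hu
    exact hbd u hu
  have hval : ∫ u in Set.Ioi (0 : ℝ), |g u * G u| ≤
      M * B * Real.exp (B / (4 * A)) * Real.exp (-(1 / (8 * A) * U)) := by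
    have h2 : ∫ u in Set.Ioi (0 : ℝ), |g u * G u| ≤ ∫ u in Set.Ioi (0 : ℝ),
        (Set.Ioo 0 B).indicator (fun _ : ℝ =>
          M * (Real.exp (B / (4 * A)) * Real.exp (-(1 / (8 * A) * U)))) u := by
      refine integral_mono_ae hint.abs hdom ?_
      filter_upwards [hpos] with u hu
      exact hbd u hu
    refine h2.trans (le_of_eq ?_)
    rw [setIntegral_indicator measurableSet_Ioo, setIntegral_const]
    have h3 : Set.Ioi (0 : ℝ) ∩ Set.Ioo 0 B = Set.Ioo 0 B := by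
      rw [Set.inter_eq_right]
      exact fun u hu => hu.1
    rw [h3, Real.volume_real_Ioo_of_le hB0.le, smul_eq_mul]
    ring
  unfold gP gm
  rw [← mul_sub, abs_mul]
  have h5 := FinH1_sub (fun u => Real.log (bsdProd a b (Real.exp u) / (C * u ^ r)) *
      Real.exp (-(u - U) ^ 2 / (2 * (A * U))))
    (fun u => er α κ0 r u * Real.exp (-(u - U) ^ 2 / (2 * (A * U))))
    (volume.restrict (Set.Ioi 0)) (by
      refine hint.congr ?_
      filter_upwards with u
      simp only [hg, hG]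
      ring)
  have h6 : ∀ u : ℝ, Real.log (bsdProd a b (Real.exp u) / (C * u ^ r)) *
      Real.exp (-(u - U) ^ 2 / (2 * (A * U))) -
      er α κ0 r u * Real.exp (-(u - U) ^ 2 / (2 * (A * U))) = g u * G u := by
    intro u
    simp only [hg, hG]
    ring
  simp only [h6] at h5
  have h7 : |(Real.sqrt (2 * Real.pi * (A * U)))⁻¹| ≤ (Real.sqrt (2 * Real.pi * A))⁻¹ := by
    rw [abs_of_nonneg (by positivity)]
    refine inv_anti₀ (by positivity) (Real.sqrt_le_sqrt ?_)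
    have h8 : A ≤ A * U := by nlinarith
    have h9 : 0 < 2 * Real.pi := by positivity
    nlinarith
  calc |(Real.sqrt (2 * Real.pi * (A * U)))⁻¹| * _
      ≤ (Real.sqrt (2 * Real.pi * A))⁻¹ *
        (M * B * Real.exp (B / (4 * A)) * Real.exp (-(1 / (8 * A) * U))) :=
        mul_le_mul h7 (h5.trans hval) (abs_nonneg _) (by positivity)
    _ = _ := by ring

theorem FinH1_C (l : ℝ) (hl : l ≠ 0) (r : ℕ) :
    0 < Real.sqrt 2 * Real.exp (r * Real.eulerMascheroniConstant) / |l| := by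
  have := abs_pos.2 hl
  positivity

theorem FinH1_near (k : ℕ) (c : ℤ) (n f i j : ℕ) (L : ℂ → ℂ) (r : ℕ) (l V : ℝ)
    (h : SU k c n f i j L r l V) (A : ℝ) (hA : 0 < A) :
    ∃ κ K : ℝ, 0 < κ ∧ ∀ U : ℝ, 1 ≤ U →
      |gP (c * k ^ 2) 0 (Real.sqrt 2 * Real.exp (r * Real.eulerMascheroniConstant) / |l|)
        r A U - gm (er (alF n j) (lGold (l / V) r) r) A U| ≤ K * Real.exp (-(κ * U)) :=
  gP_near (c * k ^ 2) 0 _ (FinH1_C l h.hl r) r (alF n j) (dataR_fam n j h.hj h.hn h.hs).norm_α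
    (lGold (l / V) r) k h.hP A hA

/-- Zero free region `→` exponential decay: `gau_fwd` for `LLF n j` (`dataR_fam`, `h.hlim'`, `h.hzero`),
`gP_near` (`h.hP`). -/
theorem main_fwd (k : ℕ) (c : ℤ) (n f i j : ℕ) (L : ℂ → ℂ) (r : ℕ) (l V : ℝ)
    (h : SU k c n f i j L r l V) (A : ℝ) (hA : 0 < A)
    (hz : ∀ s : ℂ, 1 < s.re → s.re ≤ 3 / 2 →
      A * s.im ^ 2 ≤ A * (s.re - 1) ^ 2 + 2 * (s.re - 1) → L s ≠ 0) :
    ∃ κ K : ℝ, 0 < κ ∧ ∀ U : ℝ, 1 ≤ U →
      |gP (c * k ^ 2) 0 (Real.sqrt 2 * Real.exp (r * Real.eulerMascheroniConstant) / |l|)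
        r A U| ≤ K * Real.exp (-(κ * U)) := by
  obtain ⟨κ₁, K₁, hκ₁, h1⟩ := FinH1_near k c n f i j L r l V h A hA
  obtain ⟨κ₂, K₂, hκ₂, h2⟩ := gau_fwd (alF n j) (LLF n j) WW (dataR_fam n j h.hj h.hn h.hs) r
    (l / V) (div_ne_zero h.hl h.hV.ne') h.hlim' A hA (by
      intro s hs0 hs1 hs2 h0
      have h3 := (h.hzero s hs0.le).2 h0
      refine hz (1 + s) ?_ ?_ ?_ h3
      · rw [Complex.add_re, Complex.one_re]
        linarith
      · rw [Complex.add_re, Complex.one_re]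
        linarith
      · rw [Complex.add_re, Complex.one_re, Complex.add_im, Complex.one_im, zero_add]
        have h4 : 1 + s.re - 1 = s.re := by ring
        rw [h4]
        exact hs2)
  refine ⟨min κ₁ κ₂, |K₁| + |K₂|, lt_min hκ₁ hκ₂, ?_⟩
  intro U hU
  have h3 := h1 U hU
  have h4 := h2 U hU
  have h5 : ∀ κ K : ℝ, min κ₁ κ₂ ≤ κ →
      K * Real.exp (-(κ * U)) ≤ |K| * Real.exp (-(min κ₁ κ₂ * U)) := by
    intro κ K hκ
    refine mul_le_mul (le_abs_self K) (Real.exp_le_exp.2 ?_) (Real.exp_pos _).le (abs_nonneg _)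
    have := mul_le_mul_of_nonneg_right hκ (by linarith : (0 : ℝ) ≤ U)
    linarith
  have h6 := h5 κ₁ K₁ (min_le_left _ _)
  have h7 := h5 κ₂ K₂ (min_le_right _ _)
  set x := gP (c * k ^ 2) 0 (Real.sqrt 2 * Real.exp (r * Real.eulerMascheroniConstant) / |l|)
        r A U with hx
  set y := gm (er (alF n j) (lGold (l / V) r) r) A U with hy
  have h8 : |x| ≤ |x - y| + |y| := by
    have := abs_add_le (x - y) y
    simpa using this
  rw [add_mul]
  linarith

/-- Subexponential growth `→` zero free region: `gau_bwd` and `gP_near`. -/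
theorem main_bwd (k : ℕ) (c : ℤ) (n f i j : ℕ) (L : ℂ → ℂ) (r : ℕ) (l V : ℝ)
    (h : SU k c n f i j L r l V) (A : ℝ) (hA : 0 < A)
    (hyp : ∀ ε : ℝ, 0 < ε → ∃ K : ℝ, ∀ U : ℝ, 1 ≤ U →
      |gP (c * k ^ 2) 0 (Real.sqrt 2 * Real.exp (r * Real.eulerMascheroniConstant) / |l|)
        r A U| ≤ K * Real.exp (ε * U)) (s : ℂ) (h0 : 1 < s.re)
    (h1 : A * s.im ^ 2 < A * (s.re - 1) ^ 2 + 2 * (s.re - 1)) : L s ≠ 0 := by
  obtain ⟨κ₁, K₁, hκ₁, h2⟩ := FinH1_near k c n f i j L r l V h A hA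
  have h3 : ∀ ε : ℝ, 0 < ε → ∃ K : ℝ, ∀ u : ℝ, 1 ≤ u →
      |gm (er (alF n j) (lGold (l / V) r) r) A u| ≤ K * Real.exp (ε * u) := by
    intro ε hε
    obtain ⟨K, hK⟩ := hyp ε hε
    refine ⟨K + |K₁|, fun U hU => ?_⟩
    have h4 := h2 U hU
    have h5 := hK U hU
    have h6 : K₁ * Real.exp (-(κ₁ * U)) ≤ |K₁| * Real.exp (ε * U) := by
      refine mul_le_mul (le_abs_self K₁) (Real.exp_le_exp.2 ?_) (Real.exp_pos _).le (abs_nonneg _)
      have h7 : 0 ≤ κ₁ * U := by positivity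
      have h8 : 0 ≤ ε * U := by positivity
      linarith
    set x := gP (c * k ^ 2) 0 (Real.sqrt 2 * Real.exp (r * Real.eulerMascheroniConstant) / |l|)
          r A U with hx
    set y := gm (er (alF n j) (lGold (l / V) r) r) A U with hy
    have h8 : |y| ≤ |x - y| + |x| := by
      have := abs_add_le (y - x) x
      rw [abs_sub_comm y x] at this
      simpa using this
    rw [add_mul]
    linarith
  have h4 := gau_bwd (alF n j) (LLF n j) WW (dataR_fam n j h.hj h.hn h.hs) (lGold (l / V) r) r A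
    hA h3 (s - 1) (by
      rw [Complex.sub_re, Complex.one_re]
      linarith) (by
      rw [Complex.sub_re, Complex.one_re, Complex.sub_im, Complex.one_im, sub_zero]
      exact h1)
  intro h5
  apply h4
  refine (h.hzero (s - 1) ?_).1 ?_
  · rw [Complex.sub_re, Complex.one_re]
    linarith
  · rw [add_sub_cancel]
    exact h5

/-- From `main_fwd` and `main_bwd`: every `s` with `Re s > 1` lies in the open region for small `A`. -/
theorem main_rhg (k : ℕ) (c : ℤ) (n f i j : ℕ) (L : ℂ → ℂ) (r : ℕ) (l V : ℝ)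
    (h : SU k c n f i j L r l V) :
    (∀ s : ℂ, 1 < s.re → L s ≠ 0) ↔
      ∀ A : ℝ, 0 < A → ∃ κ K : ℝ, 0 < κ ∧ ∀ U : ℝ, 1 ≤ U →
        |gP (c * k ^ 2) 0 (Real.sqrt 2 * Real.exp (r * Real.eulerMascheroniConstant) / |l|)
          r A U| ≤ K * Real.exp (-(κ * U)) := by
  constructor
  · intro hz A hA
    exact main_fwd k c n f i j L r l V h A hA fun s hs _ _ => hz s hs
  · intro hd s hs
    have h0 : 0 < s.re - 1 := by linarith
    have hA : 0 < (s.re - 1) / (s.im ^ 2 + 1) := by positivity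
    obtain ⟨κ, K, hκ, hK⟩ := hd _ hA
    refine main_bwd k c n f i j L r l V h _ hA ?_ s hs ?_
    · intro ε hε
      refine ⟨|K|, fun U hU => (hK U hU).trans ?_⟩
      refine mul_le_mul (le_abs_self K) (Real.exp_le_exp.2 ?_) (Real.exp_pos _).le (abs_nonneg _)
      have h7 : 0 ≤ κ * U := by positivity
      have h8 : 0 ≤ ε * U := by positivity
      linarith
    · have h2 : (s.re - 1) / (s.im ^ 2 + 1) * s.im ^ 2 < s.re - 1 := by
        rw [div_mul_eq_mul_div, div_lt_iff₀ (by positivity)]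
        nlinarith
      have h3 : 0 ≤ (s.re - 1) / (s.im ^ 2 + 1) * (s.re - 1) ^ 2 := by positivity
      linarith

/-- The unconditional cases: `small_fam`, `main_fwd`; `k = 2^i n f²` with `n` odd and squarefree forces
`(n, j)` for the small `k` (case analysis), and `A t² ≤ A σ² + 2σ`, `σ ≤ 1/2`, `A ≥ 16/5` give
`t² ≤ 1/4 + 5/16 = 9/16`. -/
theorem main_small (k : ℕ) (c : ℤ) (n f i j : ℕ) (L : ℂ → ℂ) (r : ℕ) (l V : ℝ)
    (h : SU k c n f i j L r l V) (hsm : (c = -1 ∧ k ≤ 7) ∨ (c = 1 ∧ k ≤ 4)) :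
    (((c = -1 ∧ 5 ≤ k) ∨ (c = 1 ∧ k = 3)) → r = 1) ∧
    (¬ ((c = -1 ∧ 5 ≤ k) ∨ (c = 1 ∧ k = 3)) → r = 0) ∧
    ∀ A : ℝ, 16 / 5 ≤ A → ∃ κ K : ℝ, 0 < κ ∧ ∀ U : ℝ, 1 ≤ U →
      |gP (c * k ^ 2) 0 (Real.sqrt 2 * Real.exp (r * Real.eulerMascheroniConstant) / |l|)
        r A U| ≤ K * Real.exp (-(κ * U)) := by
  have hk7 : k ≤ 7 := by
    rcases hsm with h1 | h1
    · exact h1.2
    · omega
  have hkp := h.hk
  have hn0 : 0 < n := h.hn.pos
  have hkf := h.hkf
  have hi : i = 0 ∨ i = 1 := by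
    rcases h.hcase with h1 | h1 | h1 | h1
    · exact Or.inl h1.2.1
    · exact Or.inr h1.2.1
    · exact Or.inl h1.2.1
    · exact Or.inr h1.2.1
  have h2i : 2 ^ i = 1 + i := by
    rcases hi with rfl | rfl <;> norm_num
  rw [h2i] at hkf
  have hf0 : f ≠ 0 := by
    rintro rfl
    simp at hkf
    omega
  have hf3 : f < 3 := by
    by_contra hf
    have hf' : 3 ≤ f := not_lt.1 hf
    have h1 : 9 ≤ f ^ 2 := by nlinarith
    have h2 : 1 ≤ (1 + i) * n := Nat.mul_pos (by omega) hn0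
    have h3 : 9 ≤ (1 + i) * n * f ^ 2 := by nlinarith
    omega
  obtain ⟨m, hm⟩ := h.hn
  have hcase := h.hcase
  have hf12 : f = 1 ∨ f = 2 := by omega
  have hdat : ((f = 1 ∧ k = n) ∨ (f = 2 ∧ k = 4 * n)) ∧ i = 0 ∨
      ((f = 1 ∧ k = 2 * n) ∨ (f = 2 ∧ k = 8 * n)) ∧ i = 1 := by
    rcases hi with rfl | rfl <;> rcases hf12 with rfl | rfl
    · left; refine ⟨Or.inl ⟨rfl, ?_⟩, rfl⟩; omega
    · left; refine ⟨Or.inr ⟨rfl, ?_⟩, rfl⟩; omega
    · right; refine ⟨Or.inl ⟨rfl, ?_⟩, rfl⟩; omega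
    · right; refine ⟨Or.inr ⟨rfl, ?_⟩, rfl⟩; omega
  have hpos : ((c = -1 ∧ 5 ≤ k) ∨ (c = 1 ∧ k = 3)) →
      ((n = 5 ∧ j = 0) ∨ (n = 3 ∧ j = 1) ∨ (n = 7 ∧ j = 0)) := by
    intro h1
    omega
  have hneg : ¬ ((c = -1 ∧ 5 ≤ k) ∨ (c = 1 ∧ k = 3)) →
      ((n = 1 ∧ j = 0) ∨ (n = 1 ∧ j = 1) ∨ (n = 3 ∧ j = 0)) := by
    intro h1
    omega
  have hnj : ((n = 1 ∧ j = 0) ∨ (n = 1 ∧ j = 1) ∨ (n = 3 ∧ j = 0)) ∨
      (n = 5 ∧ j = 0) ∨ (n = 3 ∧ j = 1) ∨ (n = 7 ∧ j = 0) := by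
    by_cases h1 : (c = -1 ∧ 5 ≤ k) ∨ (c = 1 ∧ k = 3)
    · exact Or.inr (hpos h1)
    · exact Or.inl (hneg h1)
  obtain ⟨hz, hr0, hr1⟩ := small_fam n j r (l / V) (div_ne_zero h.hl h.hV.ne') h.hlim' hnj
  refine ⟨fun h1 => hr1 (hpos h1), fun h1 => hr0 (hneg h1), ?_⟩
  intro A hA
  have hA0 : 0 < A := by linarith
  refine main_fwd k c n f i j L r l V h A hA0 ?_
  intro s h1 h2 h3 h4
  have h5 : 0 < (s - 1).re := by
    rw [Complex.sub_re, Complex.one_re]
    linarith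
  refine hz (s - 1) h5 ?_ ?_ ?_
  · rw [Complex.sub_re, Complex.one_re]
    linarith
  · rw [Complex.sub_im, Complex.one_im, sub_zero]
    refine abs_le_of_sq_le_sq ?_ (by norm_num)
    set σ := s.re - 1 with hσ
    have hσ0 : 0 < σ := by linarith
    have hσ1 : σ ≤ 1 / 2 := by linarith
    have h6 : A * s.im ^ 2 ≤ A * (9 / 16) := by
      have h7 : σ ^ 2 ≤ 1 / 4 := by nlinarith
      have h8 : A * σ ^ 2 ≤ A * (1 / 4) := mul_le_mul_of_nonneg_left h7 hA0.le
      linarith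
    have h7 := le_of_mul_le_mul_left h6 hA0
    linarith
  · refine (h.hzero (s - 1) h5.le).1 ?_
    rw [add_sub_cancel]
    exact h4

end W3283g
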