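import Pool.Agent.W_3283e1_h53.FinH3

set_option autoImplicit false

namespace W3283g

open Complex W3283e1 W3283f MeasureTheory Filter Topology

/-- The logarithm of the product is bounded on bounded sets. -/
theorem Ces_bd (a b : ℤ) (y : ℝ) : ∃ S : ℝ, 0 ≤ S ∧ ∀ x : ℝ, x ≤ y →
    |Real.log (bsdProd a b x)| ≤ S := by
  set Q : ℕ → ℝ := fun m : ℕ => ∏ p ∈ (Finset.range (m + 1)).filter
      (fun p : ℕ => Nat.Prime p ∧ ¬ ((p : ℤ) ∣ 16 * (4 * a ^ 3 + 27 * b ^ 2))),
      (npts a b p : ℝ) / (p : ℝ) with hQ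
  refine ⟨∑ m ∈ Finset.range (⌊y⌋₊ + 1), |Real.log (Q m)|,
    Finset.sum_nonneg fun m _ => abs_nonneg _, fun x hx => ?_⟩
  have h1 : bsdProd a b x = Q ⌊x⌋₊ := rfl
  rw [h1]
  apply Finset.single_le_sum (f := fun m => |Real.log (Q m)|) (fun m _ => abs_nonneg _)
  rw [Finset.mem_range]
  exact Nat.lt_succ_of_le (Nat.floor_le_floor hx)

/-- `log (P/(C u^r))` and `er` differ by a bounded function which vanishes for `u ≥ log (max k 1)`,
`u > 0`: for `u < log k` the difference is `log P(e^u) - log C - AA α (e^u) + κ0` (the terms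
`r log u` cancel), and `|log P(e^u)|`, `|AA α (e^u)|` are bounded there (`bsd_pos`, finitely many
values; `abs_AA_le`).  Measurability: `bsd_meas`, `er_meas`. -/
theorem ces_near (a b : ℤ) (C : ℝ) (hC : 0 < C) (r : ℕ) (α : ℕ → ℂ)
    (hα : ∀ p : ℕ, p.Prime → p ≠ 2 → ‖α p‖ ^ 2 = p) (κ0 : ℝ) (k : ℕ)
    (h : ∀ x : ℝ, (k : ℝ) ≤ x → 1 < x →
      Real.log (bsdProd a b x / (C * (Real.log x) ^ r)) = er α κ0 r (Real.log x)) :
    ∃ (d : ℝ → ℝ) (u1 K : ℝ), 0 < u1 ∧ Measurable d ∧ (∀ u, |d u| ≤ K) ∧ (∀ u, u1 ≤ u → d u = 0) ∧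
      ∀ u : ℝ, 0 < u →
        Real.log (bsdProd a b (Real.exp u) / (C * u ^ r)) = er α κ0 r u + d u := by
  classical
  set u1 : ℝ := Real.log (max (k : ℝ) 3) with hu1
  have hM3 : (3 : ℝ) ≤ max (k : ℝ) 3 := le_max_right _ _
  have hu10 : 0 < u1 := Real.log_pos (by linarith)
  have hexp : Real.exp u1 = max (k : ℝ) 3 := Real.exp_log (by linarith)
  obtain ⟨S, hS0, hS⟩ := Ces_bd a b (Real.exp u1)
  set f : ℝ → ℝ := fun u => Real.log (bsdProd a b (Real.exp u)) - Real.log C -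
    AA α (Real.exp u) + κ0 with hf
  have hfm : Measurable f :=
    (((Real.measurable_log.comp ((bsd_meas a b).comp Real.measurable_exp)).sub_const _).sub
      ((AA_meas α).comp Real.measurable_exp)).add_const _
  set T : Set ℝ := Set.Ioo 0 u1 with hT
  refine ⟨T.indicator f, u1, S + |Real.log C| + 14 * Real.exp (u1 / 2) + |κ0|, hu10,
    hfm.indicator measurableSet_Ioo, fun u => ?_, fun u hu => ?_, fun u hu => ?_⟩
  · by_cases hu : u ∈ T
    · rw [Set.indicator_of_mem hu]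
      have h1 : Real.exp u ≤ Real.exp u1 := Real.exp_le_exp.2 hu.2.le
      have h2 := hS _ h1
      have h3 := Er_AA_bound α hα u
      have h4 : Real.exp (u / 2) ≤ Real.exp (u1 / 2) := Real.exp_le_exp.2 (by linarith [hu.2])
      have h5 := abs_add_le (Real.log (bsdProd a b (Real.exp u)) - Real.log C -
        AA α (Real.exp u)) κ0
      have h6 := abs_sub (Real.log (bsdProd a b (Real.exp u)) - Real.log C) (AA α (Real.exp u))
      have h7 := abs_sub (Real.log (bsdProd a b (Real.exp u))) (Real.log C)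
      show |Real.log (bsdProd a b (Real.exp u)) - Real.log C - AA α (Real.exp u) + κ0| ≤ _
      linarith
    · rw [Set.indicator_of_notMem hu, abs_zero]
      positivity
  · apply Set.indicator_of_notMem
    intro h'
    exact absurd h'.2 (not_lt.2 hu)
  · by_cases hu' : u < u1
    · rw [Set.indicator_of_mem (show u ∈ T from ⟨hu, hu'⟩)]
      rw [Real.log_div (bsd_pos a b _).ne' (mul_pos hC (pow_pos hu r)).ne',
        Real.log_mul hC.ne' (pow_pos hu r).ne', Real.log_pow]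
      show _ = er α κ0 r u + (Real.log (bsdProd a b (Real.exp u)) - Real.log C -
        AA α (Real.exp u) + κ0)
      unfold er
      ring
    · rw [Set.indicator_of_notMem (fun h' => hu' h'.2), add_zero]
      have h1 : max (k : ℝ) 3 ≤ Real.exp u := by
        rw [← hexp]
        exact Real.exp_le_exp.2 (not_lt.1 hu')
      have h2 := h (Real.exp u) ((le_max_left _ _).trans h1) (by linarith)
      rw [Real.log_exp] at h2
      exact h2

theorem Ces_loc (e : ℝ → ℝ)
    (hint : IntegrableOn (fun u : ℝ => e u * Real.exp (-(1 * u))) (Set.Ioi 0)) (U : ℝ) :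
    IntegrableOn e (Set.Ioc 0 U) := by
  have h1 : IntegrableOn (fun u : ℝ => e u * Real.exp (-(1 * u))) (Set.Ioc 0 U) :=
    hint.mono_set Set.Ioc_subset_Ioi_self
  have h2 : IntegrableOn (fun u : ℝ => Real.exp u * (e u * Real.exp (-(1 * u)))) (Set.Ioc 0 U) := by
    refine Integrable.bdd_mul (c := Real.exp U) h1 ?_ ?_
    · exact Real.continuous_exp.aestronglyMeasurable
    · rw [ae_restrict_iff' measurableSet_Ioc]
      refine Eventually.of_forall fun u hu => ?_
      rw [Real.norm_of_nonneg (Real.exp_pos _).le]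
      exact Real.exp_le_exp.2 hu.2
  refine h2.congr_fun (fun u _ => ?_) measurableSet_Ioc
  have h3 : Real.exp u * Real.exp (-(1 * u)) = 1 := by
    rw [← Real.exp_add]
    simp
  calc Real.exp u * (e u * Real.exp (-(1 * u))) =
        e u * (Real.exp u * Real.exp (-(1 * u))) := by ring
    _ = e u := by rw [h3, mul_one]

theorem Ces_Fmeas (e : ℝ → ℝ) (he : Measurable e) :
    Measurable (fun U : ℝ => ∫ u in Set.Ioc 0 U, e u) := by
  have hS : MeasurableSet {p : ℝ × ℝ | 0 < p.2 ∧ p.2 ≤ p.1} :=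
    (measurableSet_lt measurable_const measurable_snd).inter
      (measurableSet_le measurable_snd measurable_fst)
  have h1 : StronglyMeasurable (fun p : ℝ × ℝ =>
      ({p : ℝ × ℝ | 0 < p.2 ∧ p.2 ≤ p.1}).indicator (fun p => e p.2) p) :=
    ((he.comp measurable_snd).indicator hS).stronglyMeasurable
  have h2 : StronglyMeasurable (fun U : ℝ => ∫ u : ℝ,
      ({p : ℝ × ℝ | 0 < p.2 ∧ p.2 ≤ p.1}).indicator (fun p => e p.2) (U, u)) :=
    StronglyMeasurable.integral_prod_right' (ν := volume) h1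
  have h3 : (fun U : ℝ => ∫ u in Set.Ioc 0 U, e u) = fun U : ℝ => ∫ u : ℝ,
      ({p : ℝ × ℝ | 0 < p.2 ∧ p.2 ≤ p.1}).indicator (fun p => e p.2) (U, u) := by
    funext U
    rw [← integral_indicator measurableSet_Ioc]
    rfl
  rw [h3]
  exact h2.measurable

theorem Ces_Fbd (e : ℝ → ℝ)
    (hloc : ∀ U : ℝ, IntegrableOn e (Set.Ioc 0 U))
    (h : Tendsto (fun U : ℝ => U⁻¹ * ∫ u in Set.Ioc 0 U, e u) atTop (𝓝 0)) :
    ∃ M : ℝ, 0 ≤ M ∧ ∀ U : ℝ, 0 < U → |∫ u in Set.Ioc 0 U, e u| ≤ M + U := by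
  have h1 : ∀ᶠ U : ℝ in atTop, |U⁻¹ * ∫ u in Set.Ioc 0 U, e u| < 1 := by
    have := (tendsto_order.1 h.abs).2 1 (by rw [abs_zero]; exact one_pos)
    exact this
  obtain ⟨U0, hU0⟩ := eventually_atTop.1 h1
  refine ⟨∫ u in Set.Ioc 0 U0, |e u|, integral_nonneg fun u => abs_nonneg _, fun U hU => ?_⟩
  have hnn : 0 ≤ ∫ u in Set.Ioc 0 U0, |e u| := integral_nonneg fun u => abs_nonneg _
  rcases le_or_gt U0 U with hle | hlt
  · have h2 := hU0 U hle
    rw [abs_mul, abs_of_pos (inv_pos.2 hU), inv_mul_lt_iff₀ hU, mul_one] at h2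
    linarith
  · have h2 : |∫ u in Set.Ioc 0 U, e u| ≤ ∫ u in Set.Ioc 0 U, |e u| :=
      abs_integral_le_integral_abs
    have h3 : ∫ u in Set.Ioc 0 U, |e u| ≤ ∫ u in Set.Ioc 0 U0, |e u| :=
      setIntegral_mono_set (hloc U0).abs (Eventually.of_forall fun u => abs_nonneg _)
        (HasSubset.Subset.eventuallyLE (Set.Ioc_subset_Ioc_right hlt.le))
    linarith

theorem Ces_Fint (F : ℝ → ℝ) (hF : Measurable F) (M : ℝ) (hM : 0 ≤ M)
    (hb : ∀ U : ℝ, 0 < U → |F U| ≤ M + U) (σ : ℝ) (hσ : 0 < σ) :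
    IntegrableOn (fun v : ℝ => F v * Real.exp (-(σ * v))) (Set.Ioi 0) := by
  refine Integrable.mono' ((Er_D_int σ hσ).const_mul (M + 1)) ?_ ?_
  · have h1 : Continuous (fun v : ℝ => Real.exp (-(σ * v))) := by fun_prop
    exact (hF.mul h1.measurable).aestronglyMeasurable
  · refine (ae_restrict_iff' measurableSet_Ioi).2 (Eventually.of_forall fun v hv => ?_)
    have hv0 : 0 < v := hv
    rw [norm_mul, Real.norm_eq_abs, Real.norm_of_nonneg (Real.exp_pos _).le]
    unfold Er_D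
    rw [← mul_assoc]
    apply mul_le_mul_of_nonneg_right _ (Real.exp_pos _).le
    have h1 : 0 ≤ v ^ (-(1 / 2) : ℝ) := Real.rpow_nonneg hv0.le _
    have h2 : v ^ (2 : ℝ) = v ^ 2 := by
      rw [show (2 : ℝ) = ((2 : ℕ) : ℝ) by norm_num, Real.rpow_natCast]
    rw [h2]
    have h3 := hb v hv0
    nlinarith [sq_nonneg (v - 1), mul_nonneg hM h1, mul_nonneg hM (sq_nonneg v)]

theorem Ces_fub (e : ℝ → ℝ) (he : Measurable e) (s : ℂ) (hs : 0 < s.re)
    (hint : IntegrableOn (fun u : ℝ => e u * Real.exp (-(s.re * u))) (Set.Ioi 0)) :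
    s * ∫ U in Set.Ioi (0 : ℝ), ((∫ u in Set.Ioc 0 U, e u : ℝ) : ℂ) * Complex.exp (-(s * U)) =
      ∫ u in Set.Ioi (0 : ℝ), (e u : ℂ) * Complex.exp (-(s * u)) := by
  have hs0 : s ≠ 0 := by
    rintro rfl
    simp at hs
  set μ : Measure ℝ := volume.restrict (Set.Ioi (0 : ℝ)) with hμ
  set D : Set (ℝ × ℝ) := {p : ℝ × ℝ | p.2 ≤ p.1} with hD
  have hDm : MeasurableSet D := measurableSet_le measurable_snd measurable_fst
  set g : ℝ → ℝ → ℂ := fun U u => D.indicator
    (fun p : ℝ × ℝ => (e p.2 : ℂ) * Complex.exp (-(s * p.1))) (U, u) with hg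
  have hgm : Measurable (fun p : ℝ × ℝ => D.indicator
      (fun p : ℝ × ℝ => (e p.2 : ℂ) * Complex.exp (-(s * p.1))) p) := by
    apply Measurable.indicator _ hDm
    have h1 : Measurable (fun p : ℝ × ℝ => (e p.2 : ℂ)) :=
      Complex.measurable_ofReal.comp (he.comp measurable_snd)
    have h2 : Continuous (fun p : ℝ × ℝ => Complex.exp (-(s * p.1))) := by fun_prop
    exact h1.mul h2.measurable
  -- as a function of U
  have hg1 : ∀ u U : ℝ, g U u = (Set.Ici u).indicator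
      (fun U : ℝ => (e u : ℂ) * Complex.exp (-(s * U))) U := by
    intro u U
    by_cases h : u ≤ U
    · rw [Set.indicator_of_mem (show U ∈ Set.Ici u from h)]
      exact Set.indicator_of_mem (show (U, u) ∈ D from h) _
    · rw [Set.indicator_of_notMem (show U ∉ Set.Ici u from h)]
      exact Set.indicator_of_notMem (show (U, u) ∉ D from h) _
  have hg2 : ∀ U u : ℝ, g U u = (Set.Iic U).indicator
      (fun u : ℝ => (e u : ℂ) * Complex.exp (-(s * U))) u := by
    intro U u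
    by_cases h : u ≤ U
    · rw [Set.indicator_of_mem (show u ∈ Set.Iic U from h)]
      exact Set.indicator_of_mem (show (U, u) ∈ D from h) _
    · rw [Set.indicator_of_notMem (show u ∉ Set.Iic U from h)]
      exact Set.indicator_of_notMem (show (U, u) ∉ D from h) _
  have hset : ∀ u : ℝ, 0 < u → Set.Ioi (0 : ℝ) ∩ Set.Ici u = Set.Ici u := by
    intro u hu
    apply Set.inter_eq_right.2
    intro x hx
    exact lt_of_lt_of_le hu hx
  have hre : (-s).re < 0 := by rw [Complex.neg_re]; linarith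
  have hneg : ∀ U : ℝ, Complex.exp (-(s * U)) = Complex.exp (-s * U) := fun U => by rw [neg_mul]
  have hexpint : ∀ u : ℝ, IntegrableOn (fun U : ℝ => Complex.exp (-(s * U))) (Set.Ici u) := by
    intro u
    have h1 := integrableOn_exp_mul_complex_Ioi hre u
    rw [integrableOn_Ici_iff_integrableOn_Ioi]
    refine h1.congr_fun (fun U _ => (hneg U).symm) measurableSet_Ioi
  have hexpval : ∀ u : ℝ, ∫ U in Set.Ici u, Complex.exp (-(s * U)) = Complex.exp (-(s * u)) / s := by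
    intro u
    rw [integral_Ici_eq_integral_Ioi]
    have h1 := integral_exp_mul_complex_Ioi hre u
    have h2 : ∫ U in Set.Ioi u, Complex.exp (-(s * U)) = ∫ U in Set.Ioi u, Complex.exp (-s * U) := by
      simp only [hneg]
    rw [h2, h1, hneg u]
    field_simp
  -- integrability on the product
  have hint1 : ∀ u : ℝ, 0 < u → Integrable (fun U => g U u) μ := by
    intro u hu
    have h1 : (fun U => g U u) = (Set.Ici u).indicator
      (fun U : ℝ => (e u : ℂ) * Complex.exp (-(s * U))) := funext fun U => hg1 u U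
    rw [h1, hμ, integrable_indicator_iff measurableSet_Ici, IntegrableOn,
      Measure.restrict_restrict measurableSet_Ici, Set.inter_comm, hset u hu]
    exact (hexpint u).const_mul _
  have hnorm : ∀ u : ℝ, 0 < u → ∫ U, ‖g U u‖ ∂μ = |e u| * (Real.exp (-(s.re * u)) / s.re) := by
    intro u hu
    have h1 : (fun U => ‖g U u‖) = (Set.Ici u).indicator
      (fun U : ℝ => |e u| * Real.exp (-(s.re * U))) := by
      funext U
      rw [hg1 u U, norm_indicator_eq_indicator_norm]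
      congr 1
      funext U
      rw [norm_mul, Er_norm_exp, Complex.norm_real, Real.norm_eq_abs]
    rw [h1, hμ, setIntegral_indicator measurableSet_Ici, hset u hu, integral_const_mul,
      integral_Ici_eq_integral_Ioi]
    congr 1
    have h2 := integral_exp_mul_Ioi (a := -s.re) (by linarith) u
    have h3 : ∫ U in Set.Ioi u, Real.exp (-(s.re * U)) = ∫ U in Set.Ioi u, Real.exp (-s.re * U) := by
      simp only [neg_mul]
    rw [h3, h2, neg_mul]
    field_simp
  have hprod : Integrable (Function.uncurry g) (μ.prod μ) := by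
    have hae : AEStronglyMeasurable (Function.uncurry g) (μ.prod μ) := hgm.aestronglyMeasurable
    rw [integrable_prod_iff' hae]
    constructor
    · rw [hμ, ae_restrict_iff' measurableSet_Ioi]
      exact Eventually.of_forall fun u hu => hint1 u hu
    · have h1 : IntegrableOn (fun u : ℝ => ‖e u * Real.exp (-(s.re * u))‖ * (1 / s.re))
          (Set.Ioi 0) := hint.norm.mul_const _
      refine Integrable.congr h1 ?_
      rw [hμ]
      refine (ae_restrict_iff' measurableSet_Ioi).2 (Eventually.of_forall fun u hu => ?_)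
      show ‖e u * Real.exp (-(s.re * u))‖ * (1 / s.re) = ∫ U, ‖g U u‖ ∂μ
      rw [hnorm u hu, norm_mul, Real.norm_eq_abs, Real.norm_of_nonneg (Real.exp_pos _).le]
      ring
  have hswap := integral_integral_swap hprod
  have hL : ∫ U in Set.Ioi (0 : ℝ), ((∫ u in Set.Ioc 0 U, e u : ℝ) : ℂ) * Complex.exp (-(s * U)) =
      ∫ U, ∫ u, g U u ∂μ ∂μ := by
    apply setIntegral_congr_fun measurableSet_Ioi
    intro U hU
    have h1 : (fun u => g U u) = (Set.Iic U).indicator
      (fun u : ℝ => (e u : ℂ) * Complex.exp (-(s * U))) := funext fun u => hg2 U u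
    show ((∫ u in Set.Ioc 0 U, e u : ℝ) : ℂ) * Complex.exp (-(s * U)) = ∫ u, g U u ∂μ
    rw [h1, hμ, setIntegral_indicator measurableSet_Iic, integral_mul_const,
      Set.Ioi_inter_Iic, ← integral_complex_ofReal]
  have hR : ∫ u, ∫ U, g U u ∂μ ∂μ =
      ∫ u in Set.Ioi (0 : ℝ), (e u : ℂ) * (Complex.exp (-(s * u)) / s) := by
    apply setIntegral_congr_fun measurableSet_Ioi
    intro u hu
    have h1 : (fun U => g U u) = (Set.Ici u).indicator
      (fun U : ℝ => (e u : ℂ) * Complex.exp (-(s * U))) := funext fun U => hg1 u U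
    show ∫ U, g U u ∂μ = (e u : ℂ) * (Complex.exp (-(s * u)) / s)
    rw [h1, hμ, setIntegral_indicator measurableSet_Ici, hset u hu, integral_const_mul, hexpval]
  rw [hL, hswap, hR, ← integral_const_mul]
  apply setIntegral_congr_fun measurableSet_Ioi
  intro u _
  show s * ((e u : ℂ) * (Complex.exp (-(s * u)) / s)) = (e u : ℂ) * Complex.exp (-(s * u))
  field_simp

/-- If `e` is measurable, `∫_0^∞ |e u| e^{-σu} du < ∞` for `σ > 1/2` and `F(U) = ∫_0^U e = o(U)`, then
`E1 s = s ∫_0^∞ F(U) e^{-sU} dU` is holomorphic on `Re s > 0` (`lap_diff` for `F`: `F` is continuous,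
and `|F U| ≤ M (1 + U)`), and equals `∫_0^∞ e(u) e^{-su} du` for `Re s > 1/2` (Fubini for
`∫_0^∞ ∫_0^U e(u) e^{-sU} du dU`, `∫_u^∞ e^{-sU} dU = e^{-su}/s`). -/
theorem ces_cont (e : ℝ → ℝ) (he : Measurable e)
    (hint : ∀ σ : ℝ, 1 / 2 < σ →
      IntegrableOn (fun u : ℝ => e u * Real.exp (-(σ * u))) (Set.Ioi 0))
    (h : Tendsto (fun U : ℝ => U⁻¹ * ∫ u in Set.Ioc 0 U, e u) atTop (𝓝 0)) :
    ∃ E1 : ℂ → ℂ, DifferentiableOn ℂ E1 {s : ℂ | 0 < s.re} ∧
      ∀ s : ℂ, 1 / 2 < s.re →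
        E1 s = ∫ u in Set.Ioi (0 : ℝ), (e u : ℂ) * Complex.exp (-(s * u)) := by
  have hloc : ∀ U : ℝ, IntegrableOn e (Set.Ioc 0 U) := Ces_loc e (hint 1 (by norm_num))
  obtain ⟨M, hM, hb⟩ := Ces_Fbd e hloc h
  have hFm := Ces_Fmeas e he
  have hFi := Ces_Fint (fun U : ℝ => ∫ u in Set.Ioc 0 U, e u) hFm M hM hb
  have hd := lap_diff (fun U : ℝ => ∫ u in Set.Ioc 0 U, e u) hFm hFi
  refine ⟨fun s => s * ∫ v in Set.Ioi (0 : ℝ),
    ((∫ u in Set.Ioc 0 v, e u : ℝ) : ℂ) * Complex.exp (-(s * v)),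
    differentiableOn_id.mul hd, fun s hs => ?_⟩
  exact Ces_fub e he s (by linarith) (hint s.re hs)

/-- The mean of a square integrable function tends to zero. -/
theorem Ces_sq (e : ℝ → ℝ) (hloc : ∀ U : ℝ, IntegrableOn e (Set.Ioc 0 U))
    (h2 : IntegrableOn (fun u : ℝ => (e u) ^ 2) (Set.Ioi 0)) :
    Tendsto (fun U : ℝ => U⁻¹ * ∫ u in Set.Ioc 0 U, e u) atTop (𝓝 0) := by
  set I : ℝ := ∫ u in Set.Ioi (0 : ℝ), (e u) ^ 2 with hI
  have hI0 : 0 ≤ I := integral_nonneg fun u => sq_nonneg _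
  have hbd : ∀ ε : ℝ, 0 < ε → ∀ U : ℝ, 0 < U →
      |U⁻¹ * ∫ u in Set.Ioc 0 U, e u| ≤ ε + I / ε * U⁻¹ := by
    intro ε hε U hU
    have hs : IntegrableOn (fun u : ℝ => (e u) ^ 2) (Set.Ioc 0 U) :=
      h2.mono_set Set.Ioc_subset_Ioi_self
    have hc : IntegrableOn (fun _ : ℝ => ε) (Set.Ioc 0 U) := by
      apply integrableOn_const
      · rw [Real.volume_Ioc]; exact ENNReal.ofReal_ne_top
      · exact enorm_ne_top
    have h3 : |∫ u in Set.Ioc 0 U, e u| ≤ ∫ u in Set.Ioc 0 U, |e u| :=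
      abs_integral_le_integral_abs
    have h4 : ∫ u in Set.Ioc 0 U, |e u| ≤ ∫ u in Set.Ioc 0 U, (ε + (e u) ^ 2 / ε) := by
      apply integral_mono (hloc U).abs (hc.add (hs.div_const ε))
      intro u
      show |e u| ≤ ε + (e u) ^ 2 / ε
      have h5 : |e u| ^ 2 = (e u) ^ 2 := sq_abs _
      rw [← h5, ← sub_nonneg]
      have h6 : ε + |e u| ^ 2 / ε - |e u| = ((|e u| - ε) ^ 2 + |e u| * ε) / ε := by
        field_simp
        ring
      rw [h6]
      positivity
    have h5 : ∫ u in Set.Ioc 0 U, (ε + (e u) ^ 2 / ε) =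
        (∫ _u in Set.Ioc 0 U, ε) + ∫ u in Set.Ioc 0 U, (e u) ^ 2 / ε :=
      integral_add hc (hs.div_const ε)
    have h6 : ∫ _u in Set.Ioc 0 U, ε = U * ε := by
      rw [setIntegral_const, Real.volume_real_Ioc_of_le hU.le, sub_zero, smul_eq_mul]
    have h7 : ∫ u in Set.Ioc 0 U, (e u) ^ 2 / ε ≤ I / ε := by
      rw [integral_div]
      apply div_le_div_of_nonneg_right _ hε.le
      exact setIntegral_mono_set h2 (Eventually.of_forall fun u => sq_nonneg _)
        (HasSubset.Subset.eventuallyLE Set.Ioc_subset_Ioi_self)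
    rw [abs_mul, abs_of_pos (inv_pos.2 hU)]
    have h8 : |∫ u in Set.Ioc 0 U, e u| ≤ U * ε + I / ε := by linarith
    calc U⁻¹ * |∫ u in Set.Ioc 0 U, e u| ≤ U⁻¹ * (U * ε + I / ε) :=
          mul_le_mul_of_nonneg_left h8 (inv_pos.2 hU).le
      _ = ε + I / ε * U⁻¹ := by field_simp
  rw [Metric.tendsto_atTop]
  intro ε hε
  refine ⟨max 1 (I / (ε / 4) / (ε / 4)), fun U hU => ?_⟩
  have hU1 : 1 ≤ U := (le_max_left _ _).trans hU
  have hU2 := (le_max_right _ _).trans hU
  have hU0 : 0 < U := by linarith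
  rw [Real.dist_eq, sub_zero]
  have h3 := hbd (ε / 4) (by linarith) U hU0
  have h4 : I / (ε / 4) * U⁻¹ ≤ ε / 4 := by
    rw [← div_eq_mul_inv, div_le_iff₀ hU0]
    rw [div_le_iff₀ (by linarith : 0 < ε / 4)] at hU2
    linarith
  linarith

/-- The mean of a bounded function which vanishes for large arguments tends to zero. -/
theorem Ces_cpt (d : ℝ → ℝ) (u1 K : ℝ) (hu1 : 0 < u1) (hd : Measurable d) (hK : ∀ u, |d u| ≤ K)
    (h0 : ∀ u, u1 ≤ u → d u = 0) :
    (∀ U : ℝ, IntegrableOn d (Set.Ioc 0 U)) ∧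
      Tendsto (fun U : ℝ => U⁻¹ * ∫ u in Set.Ioc 0 U, d u) atTop (𝓝 0) := by
  have hloc : ∀ U : ℝ, IntegrableOn d (Set.Ioc 0 U) := by
    intro U
    refine Measure.integrableOn_of_bounded (M := K)
      (by rw [Real.volume_Ioc]; exact ENNReal.ofReal_ne_top) hd.aestronglyMeasurable ?_
    exact Eventually.of_forall fun u => by rw [Real.norm_eq_abs]; exact hK u
  refine ⟨hloc, ?_⟩
  have h1 : ∀ᶠ U : ℝ in atTop, U⁻¹ * ∫ u in Set.Ioc 0 u1, d u = U⁻¹ * ∫ u in Set.Ioc 0 U, d u := by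
    filter_upwards [eventually_ge_atTop u1] with U hU
    congr 1
    have h2 : Set.Ioc 0 U = Set.Ioc 0 u1 ∪ Set.Ioc u1 U :=
      (Set.Ioc_union_Ioc_eq_Ioc hu1.le hU).symm
    have h3 : IntegrableOn d (Set.Ioc u1 U) :=
      (hloc U).mono_set (Set.Ioc_subset_Ioc_left hu1.le)
    rw [h2, setIntegral_union (Set.Ioc_disjoint_Ioc_of_le le_rfl) measurableSet_Ioc (hloc u1) h3]
    have h4 : ∫ u in Set.Ioc u1 U, d u = 0 := by
      rw [setIntegral_congr_fun measurableSet_Ioc (g := fun _ => (0 : ℝ))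
        (fun u hu => h0 u hu.1.le)]
      simp
    rw [h4, add_zero]
  refine Tendsto.congr' h1 ?_
  have h2 := tendsto_inv_atTop_zero (𝕜 := ℝ)
  have h3 := h2.mul_const (∫ u in Set.Ioc 0 u1, d u)
  rw [zero_mul] at h3
  exact h3

/-- The Riemann hypothesis is the asymptotic in logarithmic mean.  `→`: `su_l2`; by Cauchy-Schwarz
`|U⁻¹ ∫_0^U er| ≤ U^{-1/2} (∫ er²)^{1/2} → 0`, and `U⁻¹ ∫_0^U d → 0` (`ces_near`).  `←`: the means of `er`
tend to `0`, `ces_cont` (`er_meas`, `er_int`) and `er_transform` give the continuation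
`Gt s = s E1 s - r (γ + log s) + κ0` of `GG` to `Re s > 0`; `logderF`. -/
theorem main_ces (k : ℕ) (c : ℤ) (n f i j : ℕ) (L : ℂ → ℂ) (r : ℕ) (l V : ℝ)
    (h : SU k c n f i j L r l V) :
    (∀ s : ℂ, 1 < s.re → L s ≠ 0) ↔
      Tendsto (fun U : ℝ => U⁻¹ * ∫ u in Set.Ioc 0 U,
        Real.log (bsdProd (c * k ^ 2) 0 (Real.exp u) /
          (Real.sqrt 2 * Real.exp (r * Real.eulerMascheroniConstant) / |l| * u ^ r)))
        atTop (𝓝 0) := by
  set C : ℝ := Real.sqrt 2 * Real.exp (r * Real.eulerMascheroniConstant) / |l| with hC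
  have hC0 : 0 < C := by
    rw [hC]
    have := abs_pos.2 h.hl
    have h2 : 0 < Real.sqrt 2 := Real.sqrt_pos.2 (by norm_num)
    positivity
  have hDF := dataF_fam n j h.hj h.hn h.hs
  set α : ℕ → ℂ := alF n j with hα
  set κ0 : ℝ := lGold (l / V) r with hκ0
  have hαn : ∀ p : ℕ, p.Prime → p ≠ 2 → ‖α p‖ ^ 2 = p := hDF.norm_α
  obtain ⟨d, u1, K, hu1, hdm, hdK, hd0, hdeq⟩ := ces_near (c * k ^ 2) 0 C hC0 r α hαn κ0 k h.hP
  obtain ⟨hdloc, hdlim⟩ := Ces_cpt d u1 K hu1 hdm hdK hd0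
  have hem : Measurable (er α κ0 r) := er_meas α κ0 r
  have hei := er_int α hαn κ0 r
  have heloc : ∀ U : ℝ, IntegrableOn (er α κ0 r) (Set.Ioc 0 U) :=
    Ces_loc (er α κ0 r) (hei 1 (by norm_num))
  have hsum : ∀ U : ℝ, ∫ u in Set.Ioc 0 U,
      Real.log (bsdProd (c * k ^ 2) 0 (Real.exp u) / (C * u ^ r)) =
      (∫ u in Set.Ioc 0 U, er α κ0 r u) + ∫ u in Set.Ioc 0 U, d u := by
    intro U
    rw [← integral_add (heloc U) (hdloc U)]
    exact setIntegral_congr_fun measurableSet_Ioc fun u hu => hdeq u hu.1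
  have hsum' : (fun U : ℝ => U⁻¹ * ∫ u in Set.Ioc 0 U,
      Real.log (bsdProd (c * k ^ 2) 0 (Real.exp u) / (C * u ^ r))) =
      fun U : ℝ => U⁻¹ * (∫ u in Set.Ioc 0 U, er α κ0 r u) + U⁻¹ * ∫ u in Set.Ioc 0 U, d u := by
    funext U
    rw [hsum, mul_add]
  rw [hsum']
  constructor
  · intro hRH
    have h1 := su_l2 k c n f i j L r l V h hRH
    have h2 := Ces_sq (er α κ0 r) heloc h1
    have h3 := h2.add hdlim
    rw [add_zero] at h3
    exact h3
  · intro ht
    have h1 : Tendsto (fun U : ℝ => U⁻¹ * ∫ u in Set.Ioc 0 U, er α κ0 r u) atTop (𝓝 0) := by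
      have h2 := ht.sub hdlim
      rw [sub_zero] at h2
      refine h2.congr fun U => ?_
      ring
    obtain ⟨E1, hE1, hE2⟩ := ces_cont (er α κ0 r) hem hei h1
    have hlog : DifferentiableOn ℂ (fun s : ℂ => Complex.log s) {s : ℂ | 0 < s.re} := fun s hs =>
      (Complex.differentiableAt_log (Or.inl hs)).differentiableWithinAt
    have hG : DifferentiableOn ℂ (fun s : ℂ => s * E1 s -
        r * ((Real.eulerMascheroniConstant : ℂ) + Complex.log s) + κ0) {s : ℂ | 0 < s.re} :=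
      ((differentiableOn_id.mul hE1).sub ((hlog.const_add _).const_mul _)).add_const _
    obtain ⟨q, _, hq⟩ := logderF α (LLF n j) WW hDF _ hG (fun s hs => by
      have h3 := er_transform α hαn κ0 r s hs
      show s * E1 s - r * ((Real.eulerMascheroniConstant : ℂ) + Complex.log s) + κ0 = GG α s
      rw [hE2 s hs, h3]
      ring)
    intro s hs h0
    have hs1 : 0 < (s - 1).re := by
      rw [Complex.sub_re, Complex.one_re]
      linarith
    apply (hq (s - 1) hs1).1
    have h4 := h.hzero (s - 1) hs1.le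
    rw [← h4, add_sub_cancel]
    exact h0

end W3283g
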