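import Mathlib

set_option autoImplicit false

namespace W3283g

open Complex MeasureTheory Filter Topology

/-- `∫ exp (-δ u²) exp (i u x) du = √(π/δ) exp (-x²/(4δ))` (`fourierIntegral_gaussian`). -/
theorem gau_four (δ : ℝ) (hδ : 0 < δ) (x : ℝ) :
    ∫ u : ℝ, (Real.exp (-(δ * u ^ 2)) : ℂ) * Complex.exp (u * x * I) =
      ((Real.sqrt (Real.pi / δ) * Real.exp (-(x ^ 2) / (4 * δ)) : ℝ) : ℂ) := by
  have h := fourierIntegral_gaussian (b := (δ : ℂ)) (by simpa using hδ) (x : ℂ)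
  have h1 : ∀ u : ℝ, (Real.exp (-(δ * u ^ 2)) : ℂ) * Complex.exp (u * x * I) =
      cexp (I * x * u) * cexp (-(δ : ℂ) * u ^ 2) := by
    intro u
    rw [mul_comm]
    congr 1
    · congr 1
      ring
    · push_cast
      congr 1
      ring
  simp_rw [h1]
  rw [h]
  push_cast
  congr 1
  · rw [Real.sqrt_eq_rpow, Complex.ofReal_cpow (by positivity)]
    push_cast
    rfl

theorem Pla_gint (δ : ℝ) (hδ : 0 < δ) : Integrable (fun u : ℝ => Real.exp (-(δ * u ^ 2))) := by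
  have h := integrable_exp_neg_mul_sq hδ
  refine h.congr (ae_of_all _ fun u => ?_)
  show Real.exp (-δ * u ^ 2) = Real.exp (-(δ * u ^ 2))
  rw [neg_mul]

theorem Pla_conj (w : ℝ → ℂ) (u : ℝ) :
    ∫ t : ℝ, (starRingEnd ℂ) (w t) * Complex.exp (-(u * t * I)) =
      (starRingEnd ℂ) (∫ t : ℝ, w t * Complex.exp (u * t * I)) := by
  rw [← integral_conj]
  refine integral_congr_ae (ae_of_all _ fun t => ?_)
  show (starRingEnd ℂ) (w t) * Complex.exp (-(u * t * I)) =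
    (starRingEnd ℂ) (w t * Complex.exp (u * t * I))
  rw [map_mul, ← Complex.exp_conj]
  congr 2
  simp

theorem Pla_F (w : ℝ → ℂ) (hw : Integrable w) (δ : ℝ) (hδ : 0 < δ) :
    Integrable (fun z : ℝ × (ℝ × ℝ) => (Real.exp (-(δ * z.1 ^ 2)) : ℂ) *
      ((w z.2.1 * Complex.exp (z.1 * z.2.1 * I)) *
        ((starRingEnd ℂ) (w z.2.2) * Complex.exp (-(z.1 * z.2.2 * I)))))
      ((volume : Measure ℝ).prod ((volume : Measure ℝ).prod (volume : Measure ℝ))) := by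
  have hc : Integrable (fun t => (starRingEnd ℂ) (w t)) := by
    have := (Complex.conjLIE.toContinuousLinearEquiv.toContinuousLinearMap).integrable_comp hw
    exact this
  have hg : Integrable (fun u : ℝ => ((Real.exp (-(δ * u ^ 2)) : ℝ) : ℂ)) := (Pla_gint δ hδ).ofReal
  have h1 : Integrable (fun z : ℝ × ℝ => w z.1 * (starRingEnd ℂ) (w z.2))
      ((volume : Measure ℝ).prod (volume : Measure ℝ)) := hw.mul_prod hc
  have h2 : Integrable (fun z : ℝ × (ℝ × ℝ) => ((Real.exp (-(δ * z.1 ^ 2)) : ℝ) : ℂ) *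
      (w z.2.1 * (starRingEnd ℂ) (w z.2.2)))
      ((volume : Measure ℝ).prod ((volume : Measure ℝ).prod (volume : Measure ℝ))) :=
    hg.mul_prod h1
  have hcont : Continuous (fun z : ℝ × (ℝ × ℝ) =>
      Complex.exp (z.1 * z.2.1 * I) * Complex.exp (-(z.1 * z.2.2 * I))) := by fun_prop
  have h3 := h2.bdd_mul (c := 1) hcont.aestronglyMeasurable (ae_of_all _ fun z => by
    rw [norm_mul]
    have e1 : ‖Complex.exp (z.1 * z.2.1 * I)‖ = 1 := by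
      rw [← Complex.ofReal_mul, Complex.norm_exp_ofReal_mul_I]
    have e2 : ‖Complex.exp (-(z.1 * z.2.2 * I))‖ = 1 := by
      have : -((z.1 : ℂ) * (z.2.2 : ℂ) * I) = ((-(z.1 * z.2.2) : ℝ) : ℂ) * I := by
        push_cast
        ring
      rw [this, Complex.norm_exp_ofReal_mul_I]
    rw [e1, e2, mul_one])
  refine h3.congr (ae_of_all _ fun z => ?_)
  show Complex.exp (z.1 * z.2.1 * I) * Complex.exp (-(z.1 * z.2.2 * I)) *
    (((Real.exp (-(δ * z.1 ^ 2)) : ℝ) : ℂ) * (w z.2.1 * (starRingEnd ℂ) (w z.2.2))) =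
    (Real.exp (-(δ * z.1 ^ 2)) : ℂ) *
      ((w z.2.1 * Complex.exp (z.1 * z.2.1 * I)) *
        ((starRingEnd ℂ) (w z.2.2) * Complex.exp (-(z.1 * z.2.2 * I))))
  ring

theorem Pla_inner (w : ℝ → ℂ) (δ u : ℝ) :
    ∫ z : ℝ × ℝ, (Real.exp (-(δ * u ^ 2)) : ℂ) *
      ((w z.1 * Complex.exp (u * z.1 * I)) *
        ((starRingEnd ℂ) (w z.2) * Complex.exp (-(u * z.2 * I))))
      ∂((volume : Measure ℝ).prod (volume : Measure ℝ)) =
    ((‖∫ t : ℝ, w t * Complex.exp (u * t * I)‖ ^ 2 * Real.exp (-(δ * u ^ 2)) : ℝ) : ℂ) := by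
  rw [integral_const_mul]
  have h := integral_prod_mul (μ := (volume : Measure ℝ)) (ν := (volume : Measure ℝ))
    (fun t : ℝ => w t * Complex.exp (u * t * I))
    (fun t : ℝ => (starRingEnd ℂ) (w t) * Complex.exp (-(u * t * I)))
  rw [h, Pla_conj, Complex.mul_conj, Complex.normSq_eq_norm_sq]
  push_cast
  ring

theorem Pla_outer (w : ℝ → ℂ) (δ : ℝ) (hδ : 0 < δ) (z : ℝ × ℝ) :
    ∫ u : ℝ, (Real.exp (-(δ * u ^ 2)) : ℂ) *
      ((w z.1 * Complex.exp (u * z.1 * I)) *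
        ((starRingEnd ℂ) (w z.2) * Complex.exp (-(u * z.2 * I)))) =
    (w z.1 * (starRingEnd ℂ) (w z.2)) *
      ((Real.sqrt (Real.pi / δ) * Real.exp (-((z.1 - z.2) ^ 2) / (4 * δ)) : ℝ) : ℂ) := by
  rw [← gau_four δ hδ, ← integral_const_mul]
  refine integral_congr_ae (ae_of_all _ fun u => ?_)
  show (Real.exp (-(δ * u ^ 2)) : ℂ) *
      ((w z.1 * Complex.exp (u * z.1 * I)) *
        ((starRingEnd ℂ) (w z.2) * Complex.exp (-(u * z.2 * I)))) =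
    (w z.1 * (starRingEnd ℂ) (w z.2)) * ((Real.exp (-(δ * u ^ 2)) : ℂ) *
      Complex.exp (u * ((z.1 - z.2 : ℝ) : ℂ) * I))
  have : Complex.exp (u * ((z.1 - z.2 : ℝ) : ℂ) * I) =
      Complex.exp (u * z.1 * I) * Complex.exp (-(u * z.2 * I)) := by
    rw [← Complex.exp_add]
    congr 1
    push_cast
    ring
  rw [this]
  ring

theorem Pla_mass (δ : ℝ) (hδ : 0 < δ) :
    ∫⁻ x : ℝ, ENNReal.ofReal (Real.sqrt (Real.pi / δ) * Real.exp (-(x ^ 2) / (4 * δ))) =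
      ENNReal.ofReal (2 * Real.pi) := by
  have e : ∀ x : ℝ, Real.sqrt (Real.pi / δ) * Real.exp (-(x ^ 2) / (4 * δ)) =
      Real.sqrt (Real.pi / δ) * Real.exp (-(1 / (4 * δ)) * x ^ 2) := by
    intro x
    congr 2
    ring
  simp_rw [e]
  have hi : Integrable (fun x : ℝ => Real.sqrt (Real.pi / δ) *
      Real.exp (-(1 / (4 * δ)) * x ^ 2)) :=
    (integrable_exp_neg_mul_sq (by positivity)).const_mul _
  rw [← ofReal_integral_eq_lintegral_ofReal hi (ae_of_all _ fun x => by positivity),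
    integral_const_mul, integral_gaussian, ← Real.sqrt_mul (by positivity)]
  congr 1
  have : Real.pi / δ * (Real.pi / (1 / (4 * δ))) = (2 * Real.pi) ^ 2 := by
    field_simp
    ring
  rw [this, Real.sqrt_sq (by positivity)]

theorem Pla_young (a b c : ℝ) (hc : 0 ≤ c) :
    ENNReal.ofReal (|a| * |b| * c) ≤
      ENNReal.ofReal (a ^ 2) * ENNReal.ofReal c / 2 + ENNReal.ofReal (b ^ 2) * ENNReal.ofReal c / 2
      := by
  have h2 : (2 : ENNReal) = ENNReal.ofReal 2 := by norm_num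
  rw [← ENNReal.ofReal_mul (by positivity), ← ENNReal.ofReal_mul (by positivity), h2,
    ← ENNReal.ofReal_div_of_pos (by norm_num), ← ENNReal.ofReal_div_of_pos (by norm_num),
    ← ENNReal.ofReal_add (by positivity) (by positivity)]
  apply ENNReal.ofReal_le_ofReal
  have h3 : |a| * |b| ≤ (a ^ 2 + b ^ 2) / 2 := by
    rw [← sq_abs a, ← sq_abs b]
    nlinarith [sq_nonneg (|a| - |b|)]
  calc |a| * |b| * c ≤ (a ^ 2 + b ^ 2) / 2 * c := mul_le_mul_of_nonneg_right h3 hc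
    _ = a ^ 2 * c / 2 + b ^ 2 * c / 2 := by ring

theorem Pla_dbl (w : ℝ → ℂ) (hw : Integrable w) (δ : ℝ) (hδ : 0 < δ) :
    ∫⁻ z : ℝ × ℝ, ‖(w z.1 * (starRingEnd ℂ) (w z.2)) *
      ((Real.sqrt (Real.pi / δ) * Real.exp (-((z.1 - z.2) ^ 2) / (4 * δ)) : ℝ) : ℂ)‖ₑ
      ∂((volume : Measure ℝ).prod (volume : Measure ℝ)) ≤
    ENNReal.ofReal (2 * Real.pi) * ∫⁻ t : ℝ, ‖w t‖ₑ ^ 2 := by
  set G : ℝ → ENNReal := fun x =>
    ENNReal.ofReal (Real.sqrt (Real.pi / δ) * Real.exp (-(x ^ 2) / (4 * δ))) with hG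
  have hGm : Measurable G := by
    rw [hG]
    fun_prop
  have hA : AEMeasurable (fun t : ℝ => ‖w t‖ₑ ^ 2) := hw.aestronglyMeasurable.enorm.pow_const 2
  have hbd : ∀ z : ℝ × ℝ, ‖(w z.1 * (starRingEnd ℂ) (w z.2)) *
      ((Real.sqrt (Real.pi / δ) * Real.exp (-((z.1 - z.2) ^ 2) / (4 * δ)) : ℝ) : ℂ)‖ₑ ≤
      ‖w z.1‖ₑ ^ 2 * G (z.1 - z.2) / 2 + ‖w z.2‖ₑ ^ 2 * G (z.1 - z.2) / 2 := by
    intro z
    have h := Pla_young ‖w z.1‖ ‖w z.2‖
      (Real.sqrt (Real.pi / δ) * Real.exp (-((z.1 - z.2) ^ 2) / (4 * δ))) (by positivity)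
    rw [abs_of_nonneg (norm_nonneg _), abs_of_nonneg (norm_nonneg _)] at h
    have e1 : ‖(w z.1 * (starRingEnd ℂ) (w z.2)) *
      ((Real.sqrt (Real.pi / δ) * Real.exp (-((z.1 - z.2) ^ 2) / (4 * δ)) : ℝ) : ℂ)‖ₑ =
      ENNReal.ofReal (‖w z.1‖ * ‖w z.2‖ *
        (Real.sqrt (Real.pi / δ) * Real.exp (-((z.1 - z.2) ^ 2) / (4 * δ)))) := by
      rw [← ofReal_norm, norm_mul, norm_mul, Complex.norm_conj, Complex.norm_real,
        Real.norm_of_nonneg (by positivity)]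
    have e2 : ∀ v : ℂ, ‖v‖ₑ ^ 2 = ENNReal.ofReal (‖v‖ ^ 2) := by
      intro v
      rw [← ofReal_norm, ENNReal.ofReal_pow (norm_nonneg _)]
    rw [e1, e2, e2]
    exact h
  have hm1 : AEMeasurable (fun z : ℝ × ℝ => ‖w z.1‖ₑ ^ 2 * G (z.1 - z.2))
      ((volume : Measure ℝ).prod (volume : Measure ℝ)) :=
    (hA.comp_fst).mul (hGm.comp (measurable_fst.sub measurable_snd)).aemeasurable
  have hm2 : AEMeasurable (fun z : ℝ × ℝ => ‖w z.2‖ₑ ^ 2 * G (z.1 - z.2))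
      ((volume : Measure ℝ).prod (volume : Measure ℝ)) :=
    (hA.comp_snd).mul (hGm.comp (measurable_fst.sub measurable_snd)).aemeasurable
  have i1 : ∫⁻ z : ℝ × ℝ, ‖w z.1‖ₑ ^ 2 * G (z.1 - z.2)
      ∂((volume : Measure ℝ).prod (volume : Measure ℝ)) =
      (∫⁻ t : ℝ, ‖w t‖ₑ ^ 2) * ENNReal.ofReal (2 * Real.pi) := by
    rw [lintegral_prod _ hm1, ← Pla_mass δ hδ, ← lintegral_mul_const'' _ hA]
    refine lintegral_congr fun t => ?_
    have : ∫⁻ y : ℝ, ‖w t‖ₑ ^ 2 * G (t - y) = ‖w t‖ₑ ^ 2 * ∫⁻ y : ℝ, G (t - y) :=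
      lintegral_const_mul _ (hGm.comp (measurable_const.sub measurable_id))
    rw [this, lintegral_sub_left_eq_self G t]
  have i2 : ∫⁻ z : ℝ × ℝ, ‖w z.2‖ₑ ^ 2 * G (z.1 - z.2)
      ∂((volume : Measure ℝ).prod (volume : Measure ℝ)) =
      (∫⁻ t : ℝ, ‖w t‖ₑ ^ 2) * ENNReal.ofReal (2 * Real.pi) := by
    rw [lintegral_prod_symm _ hm2, ← Pla_mass δ hδ, ← lintegral_mul_const'' _ hA]
    refine lintegral_congr fun t => ?_
    have : ∫⁻ y : ℝ, ‖w t‖ₑ ^ 2 * G (y - t) = ‖w t‖ₑ ^ 2 * ∫⁻ y : ℝ, G (y - t) :=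
      lintegral_const_mul _ (hGm.comp (measurable_id.sub measurable_const))
    rw [this, lintegral_sub_right_eq_self G t]
  calc ∫⁻ z : ℝ × ℝ, ‖(w z.1 * (starRingEnd ℂ) (w z.2)) *
      ((Real.sqrt (Real.pi / δ) * Real.exp (-((z.1 - z.2) ^ 2) / (4 * δ)) : ℝ) : ℂ)‖ₑ
      ∂((volume : Measure ℝ).prod (volume : Measure ℝ))
      ≤ ∫⁻ z : ℝ × ℝ, (‖w z.1‖ₑ ^ 2 * G (z.1 - z.2) / 2 + ‖w z.2‖ₑ ^ 2 * G (z.1 - z.2) / 2)
      ∂((volume : Measure ℝ).prod (volume : Measure ℝ)) := lintegral_mono hbd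
    _ = (∫⁻ z : ℝ × ℝ, ‖w z.1‖ₑ ^ 2 * G (z.1 - z.2) / 2
          ∂((volume : Measure ℝ).prod (volume : Measure ℝ))) +
        ∫⁻ z : ℝ × ℝ, ‖w z.2‖ₑ ^ 2 * G (z.1 - z.2) / 2
          ∂((volume : Measure ℝ).prod (volume : Measure ℝ)) :=
        lintegral_add_left' (hm1.div_const 2) _
    _ = (∫⁻ t : ℝ, ‖w t‖ₑ ^ 2) * ENNReal.ofReal (2 * Real.pi) / 2 +
        (∫⁻ t : ℝ, ‖w t‖ₑ ^ 2) * ENNReal.ofReal (2 * Real.pi) / 2 := by
        simp_rw [div_eq_mul_inv]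
        rw [lintegral_mul_const'' _ hm1, lintegral_mul_const'' _ hm2, i1, i2]
    _ = (∫⁻ t : ℝ, ‖w t‖ₑ ^ 2) * ENNReal.ofReal (2 * Real.pi) := ENNReal.add_halves _
    _ = ENNReal.ofReal (2 * Real.pi) * ∫⁻ t : ℝ, ‖w t‖ₑ ^ 2 := mul_comm _ _

/-- The Plancherel inequality with a Gaussian weight.  With `W u = ∫ w t e^{iut} dt` (bounded and
continuous), expand `‖W u‖² = ∫∫ w t conj (w t') e^{iu(t - t')} dt dt'`, multiply with
`exp (-δ u²)` and integrate (Fubini, everything is absolutely integrable since `w ∈ L¹`):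
`∫ ‖W u‖² e^{-δu²} du = ∫∫ w t conj (w t') √(π/δ) e^{-(t-t')²/(4δ)} dt dt'
≤ ∫∫ (‖w t‖² + ‖w t'‖²)/2 √(π/δ) e^{-(t-t')²/(4δ)} = √(π/δ) √(4πδ) ∫ ‖w‖² = 2π ∫ ‖w‖²`.
If `∫ ‖w‖² = ∞` there is nothing to prove. -/
theorem schur_gau (w : ℝ → ℂ) (hw : Integrable w) (δ : ℝ) (hδ : 0 < δ) :
    ∫⁻ u : ℝ, ‖∫ t : ℝ, w t * Complex.exp (u * t * I)‖ₑ ^ 2 *
        ENNReal.ofReal (Real.exp (-(δ * u ^ 2))) ≤
      ENNReal.ofReal (2 * Real.pi) * ∫⁻ t : ℝ, ‖w t‖ₑ ^ 2 := by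
  have hF := Pla_F w hw δ hδ
  have hsw := integral_integral_swap (μ := (volume : Measure ℝ))
    (ν := (volume : Measure ℝ).prod (volume : Measure ℝ))
    (f := fun (u : ℝ) (z : ℝ × ℝ) => (Real.exp (-(δ * u ^ 2)) : ℂ) *
      ((w z.1 * Complex.exp (u * z.1 * I)) *
        ((starRingEnd ℂ) (w z.2) * Complex.exp (-(u * z.2 * I))))) hF
  have hint := hF.integral_prod_left
  simp_rw [Pla_inner] at hsw
  simp_rw [Pla_outer w δ hδ] at hsw
  have hint2 : Integrable (fun u : ℝ =>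
      ((‖∫ t : ℝ, w t * Complex.exp (u * t * I)‖ ^ 2 * Real.exp (-(δ * u ^ 2)) : ℝ) : ℂ)) := by
    refine hint.congr (ae_of_all _ fun u => ?_)
    exact Pla_inner w δ u
  have hint3 : Integrable (fun u : ℝ =>
      ‖∫ t : ℝ, w t * Complex.exp (u * t * I)‖ ^ 2 * Real.exp (-(δ * u ^ 2))) := by
    have := hint2.re
    refine this.congr (ae_of_all _ fun u => ?_)
    exact Complex.ofReal_re _
  have e1 : ∫⁻ u : ℝ, ‖∫ t : ℝ, w t * Complex.exp (u * t * I)‖ₑ ^ 2 *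
        ENNReal.ofReal (Real.exp (-(δ * u ^ 2))) =
      ∫⁻ u : ℝ, ENNReal.ofReal
        (‖∫ t : ℝ, w t * Complex.exp (u * t * I)‖ ^ 2 * Real.exp (-(δ * u ^ 2))) := by
    refine lintegral_congr fun u => ?_
    rw [ENNReal.ofReal_mul (by positivity), ENNReal.ofReal_pow (norm_nonneg _),
      ofReal_norm]
  rw [e1, ← ofReal_integral_eq_lintegral_ofReal hint3 (ae_of_all _ fun x => by positivity)]
  have e2 : ENNReal.ofReal (∫ u : ℝ,
      ‖∫ t : ℝ, w t * Complex.exp (u * t * I)‖ ^ 2 * Real.exp (-(δ * u ^ 2))) =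
      ‖∫ u : ℝ, ((‖∫ t : ℝ, w t * Complex.exp (u * t * I)‖ ^ 2 *
        Real.exp (-(δ * u ^ 2)) : ℝ) : ℂ)‖ₑ := by
    have e3 : ∫ u : ℝ, ((‖∫ t : ℝ, w t * Complex.exp (u * t * I)‖ ^ 2 *
        Real.exp (-(δ * u ^ 2)) : ℝ) : ℂ) = ((∫ u : ℝ,
        ‖∫ t : ℝ, w t * Complex.exp (u * t * I)‖ ^ 2 * Real.exp (-(δ * u ^ 2)) : ℝ) : ℂ) :=
      integral_ofReal
    rw [e3, ← ofReal_norm, Complex.norm_real, Real.norm_of_nonneg]
    exact integral_nonneg fun u => by positivity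
  rw [e2, hsw]
  exact (enorm_integral_le_lintegral_enorm _).trans (Pla_dbl w hw δ hδ)

theorem Pla_contW (w : ℝ → ℂ) (hw : Integrable w) :
    Continuous (fun u : ℝ => ∫ t : ℝ, w t * Complex.exp (u * t * I)) := by
  refine continuous_of_dominated (bound := fun t => ‖w t‖) ?_ ?_ hw.norm ?_
  · intro u
    exact hw.aestronglyMeasurable.mul (Continuous.aestronglyMeasurable (by fun_prop))
  · intro u
    refine ae_of_all _ fun t => ?_
    rw [norm_mul, ← Complex.ofReal_mul, Complex.norm_exp_ofReal_mul_I, mul_one]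
  · exact ae_of_all _ fun t => by fun_prop

/-- Let `δ → 0` (Fatou or monotone convergence) in `schur_gau`. -/
theorem schur (w : ℝ → ℂ) (hw : Integrable w) :
    ∫⁻ u : ℝ, ‖∫ t : ℝ, w t * Complex.exp (u * t * I)‖ₑ ^ 2 ≤
      ENNReal.ofReal (2 * Real.pi) * ∫⁻ t : ℝ, ‖w t‖ₑ ^ 2 := by
  set f : ℕ → ℝ → ENNReal := fun n u => ‖∫ t : ℝ, w t * Complex.exp (u * t * I)‖ₑ ^ 2 *
    ENNReal.ofReal (Real.exp (-((1 / ((n : ℝ) + 1)) * u ^ 2))) with hf
  have hm : ∀ n, Measurable (f n) := by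
    intro n
    have h1 : Measurable (fun u : ℝ => ‖∫ t : ℝ, w t * Complex.exp (u * t * I)‖ₑ ^ 2) :=
      ((Pla_contW w hw).enorm.measurable).pow_const 2
    exact h1.mul (by fun_prop)
  have hlim : ∀ u : ℝ, Tendsto (fun n => f n u) atTop
      (𝓝 (‖∫ t : ℝ, w t * Complex.exp (u * t * I)‖ₑ ^ 2)) := by
    intro u
    have h1 : Tendsto (fun n : ℕ => Real.exp (-((1 / ((n : ℝ) + 1)) * u ^ 2))) atTop (𝓝 1) := by
      have h0 : Tendsto (fun n : ℕ => -((1 / ((n : ℝ) + 1)) * u ^ 2)) atTop (𝓝 0) := by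
        have := (tendsto_one_div_add_atTop_nhds_zero_nat (𝕜 := ℝ)).mul_const (u ^ 2)
        simpa using this.neg
      have := (Real.continuous_exp.tendsto 0).comp h0
      rw [Real.exp_zero] at this
      exact this
    have h2 : Tendsto (fun n : ℕ => ENNReal.ofReal (Real.exp (-((1 / ((n : ℝ) + 1)) * u ^ 2))))
        atTop (𝓝 1) := by
      have := ENNReal.tendsto_ofReal h1
      simpa using this
    have h3 := ENNReal.Tendsto.const_mul (a := ‖∫ t : ℝ, w t * Complex.exp (u * t * I)‖ₑ ^ 2) h2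
      (Or.inl one_ne_zero)
    rw [mul_one] at h3
    exact h3
  calc ∫⁻ u : ℝ, ‖∫ t : ℝ, w t * Complex.exp (u * t * I)‖ₑ ^ 2
      = ∫⁻ u : ℝ, liminf (fun n => f n u) atTop :=
        lintegral_congr fun u => (hlim u).liminf_eq.symm
    _ ≤ liminf (fun n => ∫⁻ u : ℝ, f n u) atTop := lintegral_liminf_le hm
    _ ≤ liminf (fun _ : ℕ => ENNReal.ofReal (2 * Real.pi) * ∫⁻ t : ℝ, ‖w t‖ₑ ^ 2) atTop :=
        liminf_le_liminf (Eventually.of_forall fun n =>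
          schur_gau w hw (1 / ((n : ℝ) + 1)) (by positivity))
    _ = ENNReal.ofReal (2 * Real.pi) * ∫⁻ t : ℝ, ‖w t‖ₑ ^ 2 := liminf_const _

end W3283g
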