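import Pool.Agent.W_3283e1_h53.L2lem

set_option autoImplicit false

namespace W3283g

open Complex MeasureTheory Filter Topology

theorem LapD_bound (e : ℝ → ℝ) (δ ρ x v : ℝ) (hδ : 0 < δ) (hρ : ρ + δ ≤ x) (hv : 0 < v) :
    |v * e v| * Real.exp (-(x * v)) ≤ δ⁻¹ * ‖e v * Real.exp (-(ρ * v))‖ := by
  rw [Real.norm_eq_abs, abs_mul, abs_mul, abs_of_pos hv, abs_of_pos (Real.exp_pos _)]
  have h1 : δ * v ≤ Real.exp (δ * v) := by
    have := Real.add_one_le_exp (δ * v)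
    linarith
  have h2 : Real.exp (-(x * v)) ≤ Real.exp (-(ρ * v)) * Real.exp (-(δ * v)) := by
    rw [← Real.exp_add]
    apply Real.exp_le_exp.2
    nlinarith
  have h3 : v * Real.exp (-(δ * v)) ≤ δ⁻¹ := by
    rw [Real.exp_neg, ← div_eq_mul_inv, div_le_iff₀ (Real.exp_pos _), inv_mul_eq_div,
      le_div_iff₀ hδ]
    linarith
  have h4 := abs_nonneg (e v)
  have h5 := Real.exp_pos (-(ρ * v))
  calc v * |e v| * Real.exp (-(x * v))
      ≤ v * |e v| * (Real.exp (-(ρ * v)) * Real.exp (-(δ * v))) :=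
        mul_le_mul_of_nonneg_left h2 (by positivity)
    _ = (|e v| * Real.exp (-(ρ * v))) * (v * Real.exp (-(δ * v))) := by ring
    _ ≤ (|e v| * Real.exp (-(ρ * v))) * δ⁻¹ := mul_le_mul_of_nonneg_left h3 (by positivity)
    _ = _ := by ring

/-- Differentiation of a Laplace transform on `Re s > a`
(`hasDerivAt_integral_of_dominated_loc_of_deriv_le`; `v e^{-σv} ≤ C e^{-σ'v}` for `a < σ' < σ`). -/
theorem lap_deriv (e : ℝ → ℝ) (he : Measurable e) (a : ℝ)
    (h : ∀ σ : ℝ, a < σ → IntegrableOn (fun v : ℝ => e v * Real.exp (-(σ * v))) (Set.Ioi 0))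
    (s : ℂ) (hs : a < s.re) :
    HasDerivAt (fun z : ℂ => ∫ v in Set.Ioi (0 : ℝ), (e v : ℂ) * Complex.exp (-(z * v)))
      (-∫ v in Set.Ioi (0 : ℝ), ((v * e v : ℝ) : ℂ) * Complex.exp (-(s * v))) s := by
  obtain ⟨δ, hδ, hδ2⟩ : ∃ δ : ℝ, 0 < δ ∧ a + 3 * δ = s.re :=
    ⟨(s.re - a) / 3, by linarith, by ring⟩
  have hmeas : ∀ z : ℂ, AEStronglyMeasurable
      (fun v : ℝ => (e v : ℂ) * Complex.exp (-(z * v))) (volume.restrict (Set.Ioi (0 : ℝ))) := by
    intro z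
    refine Measurable.aestronglyMeasurable ?_
    exact (Complex.measurable_ofReal.comp he).mul (by fun_prop)
  have hnorm : ∀ (z : ℂ) (v : ℝ), ‖Complex.exp (-(z * v))‖ = Real.exp (-(z.re * v)) := by
    intro z v
    rw [Complex.norm_exp]
    simp
  have key := hasDerivAt_integral_of_dominated_loc_of_deriv_le
    (μ := volume.restrict (Set.Ioi (0 : ℝ))) (x₀ := s) (s := Metric.ball s δ)
    (F := fun (z : ℂ) (v : ℝ) => (e v : ℂ) * Complex.exp (-(z * v)))
    (F' := fun (z : ℂ) (v : ℝ) => -(((v * e v : ℝ) : ℂ) * Complex.exp (-(z * v))))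
    (bound := fun v => δ⁻¹ * ‖e v * Real.exp (-((a + δ) * v))‖)
    (Metric.ball_mem_nhds s hδ) (Eventually.of_forall hmeas) ?_ ?_ ?_ ?_ ?_
  · rw [integral_neg] at key
    exact key.2
  · refine ((h s.re hs).norm.mono' (hmeas s) ?_)
    refine Eventually.of_forall fun v => ?_
    rw [norm_mul, hnorm, Complex.norm_real, norm_mul, Real.norm_eq_abs (Real.exp _),
      abs_of_pos (Real.exp_pos _)]
  · refine Measurable.aestronglyMeasurable (Measurable.neg ?_)
    exact (Complex.measurable_ofReal.comp (measurable_id.mul he)).mul (by fun_prop)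
  · refine (ae_restrict_mem measurableSet_Ioi).mono fun v hv z hz => ?_
    have hv0 : (0 : ℝ) < v := hv
    rw [norm_neg, norm_mul, hnorm, Complex.norm_real, Real.norm_eq_abs]
    apply LapD_bound e δ (a + δ) z.re v hδ _ hv0
    have h1 : ‖z - s‖ < δ := by
      rw [← dist_eq_norm]
      exact Metric.mem_ball.1 hz
    have h2 : |(z - s).re| ≤ ‖z - s‖ := Complex.abs_re_le_norm _
    rw [Complex.sub_re] at h2
    have h3 := (abs_le.1 (h2.trans h1.le)).1
    linarith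
  · exact ((h (a + δ) (by linarith)).norm).const_mul _
  · refine Eventually.of_forall fun v z _ => ?_
    have h0 : HasDerivAt (fun z : ℂ => z * (v : ℂ)) (v : ℂ) z := by
      simpa using (hasDerivAt_id z).mul_const (v : ℂ)
    have h1 : HasDerivAt (fun z : ℂ => -(z * (v : ℂ))) (-(v : ℂ)) z := h0.neg
    have h2 := (h1.cexp).const_mul (e v : ℂ)
    have h3 : -(((v * e v : ℝ) : ℂ) * Complex.exp (-(z * v))) =
        (e v : ℂ) * (Complex.exp (-(z * v)) * -(v : ℂ)) := by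
      push_cast
      ring
    rw [h3]
    exact h2

/-- `∫ |v e v| e^{-σv} < ∞` for `σ > a`. -/
theorem lap_mul_int (e : ℝ → ℝ) (he : Measurable e) (a : ℝ)
    (h : ∀ σ : ℝ, a < σ → IntegrableOn (fun v : ℝ => e v * Real.exp (-(σ * v))) (Set.Ioi 0))
    (σ : ℝ) (hσ : a < σ) :
    IntegrableOn (fun v : ℝ => (v * e v) * Real.exp (-(σ * v))) (Set.Ioi 0) := by
  obtain ⟨δ, hδ, hδ2⟩ : ∃ δ : ℝ, 0 < δ ∧ a + 2 * δ = σ :=
    ⟨(σ - a) / 2, by linarith, by ring⟩
  have h1 : IntegrableOn (fun v => δ⁻¹ * ‖e v * Real.exp (-((a + δ) * v))‖) (Set.Ioi 0) :=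
    ((h (a + δ) (by linarith)).norm).const_mul _
  refine Integrable.mono' h1 ?_ ?_
  · refine Measurable.aestronglyMeasurable ?_
    exact (measurable_id.mul he).mul (by fun_prop)
  · refine (ae_restrict_mem measurableSet_Ioi).mono fun v hv => ?_
    have hv0 : (0 : ℝ) < v := hv
    rw [norm_mul, Real.norm_eq_abs, Real.norm_eq_abs (Real.exp _), abs_of_pos (Real.exp_pos _)]
    exact LapD_bound e δ (a + δ) σ v hδ (by linarith) hv0

/-- The first half of the proof of `l2_crit` (module `L2lem`): for one fixed `σ`, let `ε → 0` in `l2_eps`. -/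
theorem l2_sig (e : ℝ → ℝ) (he : Measurable e)
    (hcont : ∀ᵐ u ∂(volume.restrict (Set.Ioi (0 : ℝ))), ContinuousAt e u)
    (hint : IntegrableOn (fun v : ℝ => e v * Real.exp (-v)) (Set.Ioi 0)) (E : ℂ → ℂ)
    (hE : DifferentiableOn ℂ E {s : ℂ | 0 < s.re})
    (hEe : ∀ t : ℝ, E ((1 : ℂ) + t * I) =
      ∫ v in Set.Ioi (0 : ℝ), (e v : ℂ) * Complex.exp (-(((1 : ℂ) + t * I) * v)))
    (σ : ℝ) (hσ : 0 < σ) (hσ1 : σ ≤ 1) (C : ℝ)
    (hC : ∀ s : ℂ, σ ≤ s.re → s.re ≤ 1 → ‖E s‖ ≤ C * (1 + |s.im|)) (B : ℝ)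
    (hB : ∫⁻ t : ℝ, ‖E ((σ : ℂ) + t * I)‖ₑ ^ 2 ≤ ENNReal.ofReal B) :
    ∫⁻ u in Set.Ioi (0 : ℝ), ENNReal.ofReal ((e u) ^ 2 * Real.exp (-(2 * σ * u))) ≤
      ENNReal.ofReal B := by
  have hn0 : ∀ n : ℕ, 0 < 1 / ((n : ℝ) + 1) := fun n => by positivity
  have hnt : Tendsto (fun n : ℕ => 1 / ((n : ℝ) + 1)) atTop (𝓝 0) :=
    tendsto_one_div_add_atTop_nhds_zero_nat
  set f : ℕ → ℝ → ENNReal := fun n u => ENNReal.ofReal
    (((Real.sqrt (2 * Real.pi * (1 / ((n : ℝ) + 1))))⁻¹ *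
    ∫ v in Set.Ioi (0 : ℝ), e v * Real.exp (-(v - u) ^ 2 / (2 * (1 / ((n : ℝ) + 1))))) ^ 2 *
      Real.exp (-(2 * σ * u))) with hf
  have hlim : ∀ᵐ u ∂(volume.restrict (Set.Ioi (0 : ℝ))), Tendsto (fun n => f n u) atTop
      (𝓝 (ENNReal.ofReal ((e u) ^ 2 * Real.exp (-(2 * σ * u))))) := by
    filter_upwards [hcont, ae_restrict_mem measurableSet_Ioi] with u hu hu0
    have h1 := moll e he hint u hu0 hu
    have h2 : Tendsto (fun n : ℕ => 1 / ((n : ℝ) + 1)) atTop (𝓝[>] 0) :=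
      tendsto_nhdsWithin_iff.2 ⟨hnt, Eventually.of_forall fun n => hn0 n⟩
    have h3 := h1.comp h2
    exact (ENNReal.continuous_ofReal.tendsto _).comp ((h3.pow 2).mul_const _)
  calc ∫⁻ u in Set.Ioi (0 : ℝ), ENNReal.ofReal ((e u) ^ 2 * Real.exp (-(2 * σ * u)))
      = ∫⁻ u in Set.Ioi (0 : ℝ), liminf (fun n => f n u) atTop :=
        lintegral_congr_ae (hlim.mono fun u hu => hu.liminf_eq.symm)
    _ ≤ liminf (fun n => ∫⁻ u in Set.Ioi (0 : ℝ), f n u) atTop :=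
        lintegral_liminf_le fun n => L2lem_meas e he _ _
    _ ≤ liminf (fun n : ℕ => ENNReal.ofReal (Real.exp (1 / ((n : ℝ) + 1)) * B)) atTop := by
        refine liminf_le_liminf (Eventually.of_forall fun n => ?_)
        exact (setLIntegral_le_lintegral _ _).trans
          (l2_eps e he hint E hE hEe σ hσ hσ1 C hC B hB _ (hn0 n))
    _ = ENNReal.ofReal B := by
        refine Tendsto.liminf_eq ?_
        have h1 : Tendsto (fun n : ℕ => Real.exp (1 / ((n : ℝ) + 1)) * B) atTop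
            (𝓝 (Real.exp 0 * B)) :=
          ((Real.continuous_exp.tendsto 0).comp hnt).mul_const B
        rw [Real.exp_zero, one_mul] at h1
        exact (ENNReal.continuous_ofReal.tendsto _).comp h1

/-- If the weighted integrals are at most `B/σ` for small `σ` then `∫_0^U e² ≤ B' U`: take `σ = min σ1 (1/U)`. -/
theorem l2_grow (e : ℝ → ℝ) (he : Measurable e) (B σ1 : ℝ) (hσ1 : 0 < σ1)
    (h : ∀ σ : ℝ, 0 < σ → σ ≤ σ1 →
      ∫⁻ u in Set.Ioi (0 : ℝ), ENNReal.ofReal ((e u) ^ 2 * Real.exp (-(2 * σ * u))) ≤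
        ENNReal.ofReal (B / σ)) :
    ∃ B' : ℝ, 0 ≤ B' ∧ ∀ U : ℝ, 1 ≤ U →
      IntegrableOn (fun u : ℝ => (e u) ^ 2) (Set.Ioc 0 U) ∧
        ∫ u in Set.Ioc 0 U, (e u) ^ 2 ≤ B' * U := by
  refine ⟨Real.exp 2 * (|B| * (σ1⁻¹ + 1)), by positivity, fun U hU => ?_⟩
  have hU0 : (0 : ℝ) < U := by linarith
  set σ : ℝ := min σ1 U⁻¹ with hσdef
  have hσ : 0 < σ := lt_min hσ1 (inv_pos.2 hU0)
  have hσU : σ * U ≤ 1 := by
    calc σ * U ≤ U⁻¹ * U := mul_le_mul_of_nonneg_right (min_le_right _ _) hU0.le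
      _ = 1 := inv_mul_cancel₀ hU0.ne'
  have hinv : σ⁻¹ ≤ (σ1⁻¹ + 1) * U := by
    rcases min_choice σ1 U⁻¹ with h1 | h1
    · rw [hσdef, h1]
      have h2 : 0 < σ1⁻¹ := inv_pos.2 hσ1
      nlinarith
    · rw [hσdef, h1, inv_inv]
      have h2 : 0 < σ1⁻¹ := inv_pos.2 hσ1
      nlinarith
  have hfin : ∫⁻ u in Set.Ioc 0 U, ENNReal.ofReal ((e u) ^ 2) ≤
      ENNReal.ofReal (Real.exp 2 * (|B| * (σ1⁻¹ + 1)) * U) := by
    calc ∫⁻ u in Set.Ioc 0 U, ENNReal.ofReal ((e u) ^ 2)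
        ≤ ∫⁻ u in Set.Ioc 0 U, ENNReal.ofReal (Real.exp 2) *
            ENNReal.ofReal ((e u) ^ 2 * Real.exp (-(2 * σ * u))) := by
          refine lintegral_mono_ae ((ae_restrict_mem measurableSet_Ioc).mono fun u hu => ?_)
          rw [← ENNReal.ofReal_mul (Real.exp_nonneg _)]
          apply ENNReal.ofReal_le_ofReal
          have h1 : 1 ≤ Real.exp 2 * Real.exp (-(2 * σ * u)) := by
            rw [← Real.exp_add]
            apply Real.one_le_exp
            have h2 : σ * u ≤ σ * U := mul_le_mul_of_nonneg_left hu.2 hσ.le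
            linarith
          have h3 := sq_nonneg (e u)
          nlinarith
      _ = ENNReal.ofReal (Real.exp 2) *
            ∫⁻ u in Set.Ioc 0 U, ENNReal.ofReal ((e u) ^ 2 * Real.exp (-(2 * σ * u))) :=
          lintegral_const_mul' _ _ ENNReal.ofReal_ne_top
      _ ≤ ENNReal.ofReal (Real.exp 2) *
            ∫⁻ u in Set.Ioi (0 : ℝ), ENNReal.ofReal ((e u) ^ 2 * Real.exp (-(2 * σ * u))) := by
          gcongr
          exact Set.Ioc_subset_Ioi_self
      _ ≤ ENNReal.ofReal (Real.exp 2) * ENNReal.ofReal (B / σ) := by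
          gcongr
          exact h σ hσ (min_le_left _ _)
      _ = ENNReal.ofReal (Real.exp 2 * (B / σ)) := (ENNReal.ofReal_mul (Real.exp_nonneg _)).symm
      _ ≤ _ := by
          apply ENNReal.ofReal_le_ofReal
          rw [mul_assoc, mul_assoc]
          apply mul_le_mul_of_nonneg_left _ (Real.exp_nonneg _)
          rw [div_eq_mul_inv]
          calc B * σ⁻¹ ≤ |B| * σ⁻¹ :=
                mul_le_mul_of_nonneg_right (le_abs_self B) (inv_nonneg.2 hσ.le)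
            _ ≤ |B| * ((σ1⁻¹ + 1) * U) := mul_le_mul_of_nonneg_left hinv (abs_nonneg B)
  have hmeas : AEStronglyMeasurable (fun u : ℝ => (e u) ^ 2) (volume.restrict (Set.Ioc 0 U)) :=
    (he.pow_const 2).aestronglyMeasurable
  refine ⟨⟨hmeas, ?_⟩, ?_⟩
  · rw [hasFiniteIntegral_iff_ofReal (Eventually.of_forall fun u => sq_nonneg _)]
    exact lt_of_le_of_lt hfin ENNReal.ofReal_lt_top
  · rw [integral_eq_lintegral_of_nonneg_ae (Eventually.of_forall fun u => sq_nonneg _) hmeas]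
    apply ENNReal.toReal_le_of_le_ofReal (by positivity) hfin

end W3283g
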