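import Mathlib

set_option autoImplicit false

namespace W3283g

open Complex MeasureTheory Filter Topology

theorem Fac_dslope (U : Set ℂ) (g : ℂ → ℂ) (hg : AnalyticOnNhd ℂ g U) (ρ : ℂ) (hρ : ρ ∈ U) :
    AnalyticOnNhd ℂ (dslope g ρ) U := by
  intro z hz
  by_cases hzρ : z = ρ
  · subst hzρ
    obtain ⟨p, hp⟩ := hg z hz
    exact ⟨p.fslope, hp.has_fpower_series_dslope_fslope⟩
  · have h1 : AnalyticAt ℂ (fun w => (w - ρ)⁻¹ * (g w - g ρ)) z :=
      ((analyticAt_id.sub analyticAt_const).inv (sub_ne_zero.2 hzρ)).mul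
        ((hg z hz).sub analyticAt_const)
    refine h1.congr ?_
    filter_upwards [isOpen_ne.mem_nhds hzρ] with w hw
    rw [dslope_of_ne _ hw, slope_def_field, div_eq_inv_mul]

theorem Fac_prod_analytic (a : ℂ → ℂ → ℂ) (hab : ∀ ρ z, AnalyticAt ℂ (fun w => a ρ w) z)
    (S : Multiset ℂ) (z : ℂ) : AnalyticAt ℂ (fun w => (S.map (fun ρ => a ρ w)).prod) z := by
  induction S using Multiset.induction_on with
  | empty => simpa using analyticAt_const
  | cons ρ S ih =>
    simp only [Multiset.map_cons, Multiset.prod_cons]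
    exact (hab ρ z).mul ih

theorem Fac_norm_prod (S : Multiset ℂ) (f : ℂ → ℂ) :
    ‖(S.map f).prod‖ = (S.map (fun ρ => ‖f ρ‖)).prod := by
  induction S using Multiset.induction_on with
  | empty => simp
  | cons ρ S ih =>
    simp only [Multiset.map_cons, Multiset.prod_cons, norm_mul, ih]

theorem Fac_prod_le (S : Multiset ℂ) (f : ℂ → ℝ) (r : ℝ) (h0 : ∀ ρ, 0 ≤ f ρ)
    (h : ∀ ρ ∈ S, f ρ ≤ r) : (S.map f).prod ≤ r ^ S.card := by
  induction S using Multiset.induction_on with
  | empty => simp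
  | cons ρ S ih =>
    simp only [Multiset.map_cons, Multiset.prod_cons, Multiset.card_cons]
    have h1 := h ρ (Multiset.mem_cons_self ρ S)
    have h2 := ih (fun x hx => h x (Multiset.mem_cons_of_mem hx))
    have h3 : 0 ≤ (S.map f).prod := by
      apply Multiset.prod_nonneg
      intro x hx
      obtain ⟨y, _, rfl⟩ := Multiset.mem_map.1 hx
      exact h0 y
    rw [pow_succ']
    exact mul_le_mul h1 h2 h3 ((h0 ρ).trans h1)

theorem Fac_card (c : ℂ) (r1 R M : ℝ) (hr : 0 < r1) (hR : r1 < R) (h : ℂ → ℂ)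
    (hb : ∀ z ∈ Metric.closedBall c R, ‖h z‖ ≤ Real.exp M) (hc : Real.exp (-M) ≤ ‖h c‖)
    (S : Multiset ℂ) (g : ℂ → ℂ) (hg : AnalyticOnNhd ℂ g (Metric.closedBall c R))
    (hf : ∀ z ∈ Metric.closedBall c R, h z = (S.map (fun ρ => z - ρ)).prod * g z)
    (hS : ∀ ρ ∈ S, ρ ∈ Metric.closedBall c r1) :
    (S.card : ℝ) ≤ 2 * M / Real.log (R / r1) := by
  have hR0 : 0 < R := hr.trans hR
  have hRc : (R : ℂ) ≠ 0 := by exact_mod_cast hR0.ne'
  set F : ℂ → ℂ := fun z =>
    (S.map (fun ρ => ((R : ℂ) ^ 2 - (starRingEnd ℂ) (ρ - c) * (z - c)) / R)).prod * g z with hF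
  have hFan : AnalyticOnNhd ℂ F (Metric.closedBall c R) := by
    intro z hz
    refine AnalyticAt.mul (Fac_prod_analytic
      (fun ρ w => ((R : ℂ) ^ 2 - (starRingEnd ℂ) (ρ - c) * (w - c)) / R) ?_ S z)
      (hg z hz)
    intro ρ w
    fun_prop
  have hFs : ∀ z ∈ Metric.sphere c R, ‖F z‖ ≤ Real.exp M := by
    intro z hz
    have hzn : ‖z - c‖ = R := by rwa [mem_sphere_iff_norm] at hz
    have hzb : z ∈ Metric.closedBall c R := Metric.sphere_subset_closedBall hz
    have h1 : ‖F z‖ = ‖h z‖ := by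
      rw [hf z hzb, hF]
      simp only
      rw [norm_mul, norm_mul, Fac_norm_prod, Fac_norm_prod]
      congr 2
      apply Multiset.map_congr rfl
      intro ρ _
      have h2 : ((R : ℂ) ^ 2 - (starRingEnd ℂ) (ρ - c) * (z - c)) =
          (z - c) * (starRingEnd ℂ) (z - ρ) := by
        have h3 : (R : ℂ) ^ 2 = (z - c) * (starRingEnd ℂ) (z - c) := by
          rw [Complex.mul_conj, Complex.normSq_eq_norm_sq, hzn]
          push_cast
          ring
        rw [h3]
        simp only [map_sub]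
        ring
      rw [h2, norm_div, norm_mul, hzn, RCLike.norm_conj, Complex.norm_real, Real.norm_eq_abs,
        abs_of_pos hR0]
      field_simp
    rw [h1]
    exact hb z hzb
  have hFc : ‖F c‖ ≤ Real.exp M := by
    refine Complex.norm_le_of_forall_mem_frontier_norm_le (U := Metric.ball c R)
      Metric.isBounded_ball ?_ ?_ ?_
    · refine DifferentiableOn.diffContOnCl ?_
      rw [closure_ball c hR0.ne']
      exact fun z hz => (hFan z hz).differentiableAt.differentiableWithinAt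
    · intro z hz
      rw [frontier_ball c hR0.ne'] at hz
      exact hFs z hz
    · exact subset_closure (Metric.mem_ball_self hR0)
  have hFc2 : ‖F c‖ = R ^ S.card * ‖g c‖ := by
    rw [hF]
    simp only
    rw [norm_mul, Fac_norm_prod]
    congr 1
    have h4 : S.map (fun ρ => ‖((R : ℂ) ^ 2 - (starRingEnd ℂ) (ρ - c) * (c - c)) / R‖) =
        S.map (fun _ => R) := by
      apply Multiset.map_congr rfl
      intro ρ _
      rw [sub_self, mul_zero, sub_zero, sq, mul_div_assoc, div_self hRc, mul_one,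
        Complex.norm_real, Real.norm_eq_abs, abs_of_pos hR0]
    rw [h4, Multiset.map_const', Multiset.prod_replicate]
  have hhc : ‖h c‖ ≤ r1 ^ S.card * ‖g c‖ := by
    rw [hf c (Metric.mem_closedBall_self hR0.le), norm_mul, Fac_norm_prod]
    refine mul_le_mul_of_nonneg_right ?_ (norm_nonneg _)
    apply Fac_prod_le
    · intro ρ; exact norm_nonneg _
    · intro ρ hρ
      have h5 := hS ρ hρ
      rw [Metric.mem_closedBall, dist_comm, dist_eq_norm] at h5
      exact h5
  have hlog : 0 < Real.log (R / r1) := Real.log_pos (by rw [one_lt_div hr]; exact hR)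
  rw [le_div_iff₀ hlog]
  have h6 : (R / r1) ^ S.card ≤ Real.exp (2 * M) := by
    rw [div_pow, div_le_iff₀ (pow_pos hr _)]
    have h7 : Real.exp (-M) ≤ r1 ^ S.card * ‖g c‖ := hc.trans hhc
    have h8 : R ^ S.card * ‖g c‖ ≤ Real.exp M := hFc2 ▸ hFc
    have h9 : 0 < ‖g c‖ := by
      rcases (norm_nonneg (g c)).eq_or_lt with h | h
      · rw [← h, mul_zero] at h7
        exact absurd h7 (not_le.2 (Real.exp_pos _))
      · exact h
    have h10 : R ^ S.card * ‖g c‖ * Real.exp (-M) ≤ Real.exp M * (r1 ^ S.card * ‖g c‖) :=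
      mul_le_mul h8 h7 (Real.exp_pos _).le (Real.exp_pos _).le
    have h11 : R ^ S.card * Real.exp (-M) ≤ Real.exp M * r1 ^ S.card := by
      have h12 : (R ^ S.card * Real.exp (-M)) * ‖g c‖ ≤ (Real.exp M * r1 ^ S.card) * ‖g c‖ := by
        linarith
      exact le_of_mul_le_mul_right h12 h9
    have h13 : R ^ S.card = (R ^ S.card * Real.exp (-M)) * Real.exp M := by
      rw [mul_assoc, ← Real.exp_add, neg_add_cancel, Real.exp_zero, mul_one]
    rw [h13]
    calc (R ^ S.card * Real.exp (-M)) * Real.exp M ≤ (Real.exp M * r1 ^ S.card) * Real.exp M :=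
          mul_le_mul_of_nonneg_right h11 (Real.exp_pos _).le
      _ = Real.exp (2 * M) * r1 ^ S.card := by
          rw [two_mul, Real.exp_add]; ring
  have h14 := Real.log_le_log (pow_pos (div_pos hR0 hr) _) h6
  rwa [Real.log_pow, Real.log_exp] at h14

/-- Splitting off the zeros in a disc.  The zeros of `h` in `closedBall c r1` are finitely many
(`h` is not identically zero since `h c ≠ 0`; compactness), and one can divide by `(z - ρ)` once for
each zero counted with multiplicity: either by induction, or by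
`MeromorphicOn.extract_zeros_poles` applied on `closedBall c r1`, or by the divisor of `h`.
`S` is the multiset of the zeros in `closedBall c r1` with multiplicity.  The number of its
elements is the sum of the divisor of `h` on `closedBall c r1`, bounded by Jensen's inequality
`AnalyticOnNhd.sum_divisor_le` by `log (exp M / ‖h c‖) / log (R / r1) ≤ 2 M / log (R / r1)`. -/
theorem fac_exists (c : ℂ) (r1 R M : ℝ) (hr : 0 < r1) (hR : r1 < R) (hM : 0 ≤ M) (h : ℂ → ℂ)
    (han : AnalyticOnNhd ℂ h (Metric.closedBall c R))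
    (hb : ∀ z ∈ Metric.closedBall c R, ‖h z‖ ≤ Real.exp M) (hc : Real.exp (-M) ≤ ‖h c‖) :
    ∃ (S : Multiset ℂ) (g : ℂ → ℂ), AnalyticOnNhd ℂ g (Metric.closedBall c R) ∧
      (∀ z ∈ Metric.closedBall c r1, g z ≠ 0) ∧
      (∀ z ∈ Metric.closedBall c R, h z = (S.map (fun ρ => z - ρ)).prod * g z) ∧
      (∀ ρ ∈ S, ρ ∈ Metric.closedBall c r1 ∧ h ρ = 0) ∧
      (S.card : ℝ) ≤ 2 * M / Real.log (R / r1) := by
  classical
  have hR0 : 0 < R := hr.trans hR
  have hsub : Metric.closedBall c r1 ⊆ Metric.closedBall c R :=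
    Metric.closedBall_subset_closedBall hR.le
  let P : ℕ → Prop := fun n => ∃ (S : Multiset ℂ) (g : ℂ → ℂ), S.card = n ∧
    AnalyticOnNhd ℂ g (Metric.closedBall c R) ∧
      (∀ z ∈ Metric.closedBall c R, h z = (S.map (fun ρ => z - ρ)).prod * g z) ∧
      (∀ ρ ∈ S, ρ ∈ Metric.closedBall c r1)
  have hP0 : P 0 := ⟨0, h, rfl, han, fun z _ => by simp, fun ρ hρ => absurd hρ (by simp)⟩
  have hPb : ∀ n, P n → n ≤ ⌊2 * M / Real.log (R / r1)⌋₊ := by
    rintro n ⟨S, g, hn, hg, hf, hS⟩
    apply Nat.le_floor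
    rw [← hn]
    exact Fac_card c r1 R M hr hR h hb hc S g hg hf hS
  have hmax : P (Nat.findGreatest P ⌊2 * M / Real.log (R / r1)⌋₊) :=
    Nat.findGreatest_spec (P := P) (Nat.zero_le _) hP0
  obtain ⟨S, g, hn, hg, hf, hS⟩ := hmax
  refine ⟨S, g, hg, ?_, hf, ?_, Fac_card c r1 R M hr hR h hb hc S g hg hf hS⟩
  · intro ρ hρ hgρ
    have h1 : P (S.card + 1) := by
      refine ⟨ρ ::ₘ S, dslope g ρ, by simp, Fac_dslope _ g hg ρ (hsub hρ), ?_, ?_⟩
      · intro z hz
        rw [hf z hz, Multiset.map_cons, Multiset.prod_cons]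
        have h2 := sub_smul_dslope g ρ z
        rw [hgρ, sub_zero, smul_eq_mul] at h2
        rw [← h2]
        ring
      · intro x hx
        rcases Multiset.mem_cons.1 hx with h3 | h3
        · rw [h3]; exact hρ
        · exact hS x h3
    have h2 := Nat.le_findGreatest (hPb _ h1) h1
    omega
  · intro ρ hρ
    refine ⟨hS ρ hρ, ?_⟩
    rw [hf ρ (hsub (hS ρ hρ))]
    have h3 : (S.map (fun ρ' => ρ - ρ')).prod = 0 := by
      apply Multiset.prod_eq_zero
      rw [Multiset.mem_map]
      exact ⟨ρ, hρ, sub_self ρ⟩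
    rw [h3, zero_mul]

end W3283g
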