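import Mathlib

set_option autoImplicit false

namespace W3283g

open Complex MeasureTheory Filter Topology

/-- two continuous logarithms which agree at a point of a preconnected set agree there -/
theorem LogExt_eqOn {V : Set ℂ} (hV : IsPreconnected V) {g₁ g₂ : ℂ → ℂ} (h₁ : ContinuousOn g₁ V)
    (h₂ : ContinuousOn g₂ V) (he : ∀ z ∈ V, Complex.exp (g₁ z) = Complex.exp (g₂ z)) {a : ℂ}
    (ha : a ∈ V) (h : g₁ a = g₂ a) : ∀ z ∈ V, g₁ z = g₂ z :=
  Complex.isCoveringMap_exp.eqOn_of_comp_eqOn hV h₁ h₂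
    (fun z hz => Subtype.ext (he z hz)) ha h

/-- A continuous logarithm of a holomorphic nonvanishing function is holomorphic.  Near `z0` the
functions `F` and `z ↦ F z0 + log (f z / f z0)` are both continuous logarithms of `f` which agree
at `z0`; their difference is continuous, takes values in `2πiℤ` and vanishes at `z0`, so it
vanishes near `z0`. -/
theorem log_analytic (U : Set ℂ) (hU : IsOpen U) (f F : ℂ → ℂ) (hf : AnalyticOnNhd ℂ f U)
    (hF : ContinuousOn F U) (hFf : ∀ z ∈ U, Complex.exp (F z) = f z) :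
    AnalyticOnNhd ℂ F U := by
  intro z0 hz0
  have hf0 : f z0 ≠ 0 := by
    rw [← hFf z0 hz0]
    exact Complex.exp_ne_zero _
  have hfa : AnalyticAt ℂ (fun z => f z / f z0) z0 :=
    (hf z0 hz0).div analyticAt_const hf0
  have hsl : f z0 / f z0 ∈ Complex.slitPlane := by
    rw [div_self hf0]
    exact Complex.one_mem_slitPlane
  have hev1 : ∀ᶠ z in 𝓝 z0, z ∈ U := hU.mem_nhds hz0
  have hev : ∀ᶠ z in 𝓝 z0, z ∈ U ∧ f z / f z0 ∈ Complex.slitPlane :=
    hev1.and (hfa.continuousAt.eventually_mem (Complex.isOpen_slitPlane.mem_nhds hsl))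
  obtain ⟨ε, hε, hball⟩ := Metric.eventually_nhds_iff_ball.1 hev
  have hconv : IsPreconnected (Metric.ball z0 ε) := (convex_ball z0 ε).isPreconnected
  have hGa : AnalyticAt ℂ (fun z => F z0 + Complex.log (f z / f z0)) z0 :=
    analyticAt_const.add (hfa.clog hsl)
  have hGc : ContinuousOn (fun z => F z0 + Complex.log (f z / f z0)) (Metric.ball z0 ε) := by
    refine continuousOn_const.add ?_
    refine ContinuousOn.clog ?_ (fun z hz => (hball z hz).2)
    exact ((hf.continuousOn).mono fun z hz => (hball z hz).1).div_const _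
  have hFc : ContinuousOn F (Metric.ball z0 ε) := hF.mono fun z hz => (hball z hz).1
  have heq := LogExt_eqOn hconv hFc hGc (fun z hz => by
    rw [hFf z (hball z hz).1, Complex.exp_add, hFf z0 hz0,
      Complex.exp_log (Complex.slitPlane_ne_zero (hball z hz).2), mul_div_cancel₀ _ hf0])
    (Metric.mem_ball_self hε) (by rw [div_self hf0, Complex.log_one, add_zero])
  refine hGa.congr ?_
  filter_upwards [Metric.ball_mem_nhds z0 hε] with z hz
  exact (heq z hz).symm

/-- Extension of a logarithm.  `U` is convex, hence (if nonempty) simply connected, so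
`Complex.exists_continuousOn_eqOn_exp_comp` gives a continuous `F` on `U` with `exp F = f`; it is
holomorphic by `log_analytic`.  On `V` we have `exp (2 G - F) = 1`, so `2 G - F` is continuous with
values in `2πiℤ` on the preconnected set `V`, hence constant `= 2πi n` there (`V ≠ ∅`); take
`g = F/2 + πi n`. -/
theorem log_ext (U V : Set ℂ) (hU : IsOpen U) (hUc : Convex ℝ U) (hVc : IsPreconnected V)
    (hVn : V.Nonempty) (hVU : V ⊆ U) (f G : ℂ → ℂ) (hf : AnalyticOnNhd ℂ f U)
    (hf0 : ∀ z ∈ U, f z ≠ 0) (hG : ContinuousOn G V)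
    (hGf : ∀ z ∈ V, Complex.exp (2 * G z) = f z) :
    ∃ g : ℂ → ℂ, AnalyticOnNhd ℂ g U ∧ (∀ z ∈ U, Complex.exp (2 * g z) = f z) ∧
      ∀ z ∈ V, g z = G z := by
  obtain ⟨z0, hz0⟩ := hVn
  have hfd : DifferentiableOn ℂ f U := hf.differentiableOn
  have hL : DifferentiableOn ℂ (fun z => deriv f z / f z) U :=
    (hfd.deriv hU).div hfd hf0
  obtain ⟨F₁, hF₁⟩ := hUc.exists_forall_hasDerivWithinAt hL
  have hF₁' : ∀ z ∈ U, HasDerivAt F₁ (deriv f z / f z) z := fun z hz =>
    (hF₁ z hz).hasDerivAt (hU.mem_nhds hz)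
  set F : ℂ → ℂ := fun z => F₁ z - F₁ z0 + 2 * G z0 with hFdef
  have hFd : ∀ z ∈ U, HasDerivAt F (deriv f z / f z) z := fun z hz =>
    ((hF₁' z hz).sub_const _).add_const _
  have hz0U : z0 ∈ U := hVU hz0
  -- `exp F = f`
  have hexp : ∀ z ∈ U, Complex.exp (F z) = f z := by
    have hd : ∀ z ∈ U, HasDerivAt (fun z => Complex.exp (F z) / f z) 0 z := by
      intro z hz
      have h1 := ((hFd z hz).cexp).div
        ((hfd.differentiableAt (hU.mem_nhds hz)).hasDerivAt) (hf0 z hz)
      have h2 : (Complex.exp (F z) * (deriv f z / f z) * f z - Complex.exp (F z) * deriv f z) /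
          f z ^ 2 = 0 := by
        have := hf0 z hz
        field_simp
        ring
      rw [h2] at h1
      exact h1
    intro z hz
    have h3 : Complex.exp (F z) / f z = Complex.exp (F z0) / f z0 := by
      refine hUc.is_const_of_fderivWithin_eq_zero (𝕜 := ℂ)
        (f := fun z => Complex.exp (F z) / f z)
        (fun w hw => (hd w hw).differentiableAt.differentiableWithinAt) (fun w hw => ?_) hz hz0U
      have h4 : HasFDerivWithinAt (fun z => Complex.exp (F z) / f z) (0 : ℂ →L[ℂ] ℂ) U w := by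
        have h5 := (hd w hw).hasFDerivAt.hasFDerivWithinAt (s := U)
        have h6 : (ContinuousLinearMap.toSpanSingleton ℂ (0 : ℂ) : ℂ →L[ℂ] ℂ) = 0 := by
          ext; simp
        rw [h6] at h5
        exact h5
      exact h4.fderivWithin (hU.uniqueDiffWithinAt hw)
    have h4 : F z0 = 2 * G z0 := by rw [hFdef]; ring
    rw [h4, hGf z0 hz0, div_self (hf0 z0 hz0U), div_eq_one_iff_eq (hf0 z hz)] at h3
    exact h3
  have hFc : ContinuousOn F U := fun z hz => (hFd z hz).continuousAt.continuousWithinAt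
  have hFa : AnalyticOnNhd ℂ F U := log_analytic U hU f F hf hFc hexp
  refine ⟨fun z => F z / 2, fun z hz => (hFa z hz).div analyticAt_const two_ne_zero,
    fun z hz => ?_, fun z hz => ?_⟩
  · rw [mul_div_cancel₀ _ (two_ne_zero' ℂ)]
    exact hexp z hz
  · have h2 : ContinuousOn (fun w => 2 * G w) V := continuousOn_const.mul hG
    have h1 := LogExt_eqOn hVc (hFc.mono hVU) h2 (fun w hw => by
      rw [hexp w (hVU hw), hGf w hw]) hz0 (by rw [hFdef]; ring) z hz
    change F z / 2 = G z
    rw [h1, mul_div_cancel_left₀ _ (two_ne_zero' ℂ)]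

end W3283g
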