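import Pool.Agent.W_3283e1_h53.Fac
import Pool.Agent.W_3283e1_h53.LogExt

set_option autoImplicit false

namespace W3283g

open Complex MeasureTheory Filter Topology

theorem FacLog_prod_ge (S : Multiset ℂ) (z : ℂ) (d : ℝ) (hd : 0 ≤ d)
    (h : ∀ ρ ∈ S, d ≤ ‖z - ρ‖) : d ^ S.card ≤ ‖(S.map (fun ρ => z - ρ)).prod‖ := by
  induction S using Multiset.induction_on with
  | empty => simp
  | cons a S ih =>
    rw [Multiset.card_cons, Multiset.map_cons, Multiset.prod_cons, norm_mul, pow_succ, mul_comm]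
    exact mul_le_mul (h a (Multiset.mem_cons_self a S))
      (ih (fun ρ hρ => h ρ (Multiset.mem_cons_of_mem hρ))) (pow_nonneg hd _) (norm_nonneg _)

theorem FacLog_prod_le (S : Multiset ℂ) (z : ℂ) (d : ℝ)
    (h : ∀ ρ ∈ S, ‖z - ρ‖ ≤ d) : ‖(S.map (fun ρ => z - ρ)).prod‖ ≤ d ^ S.card := by
  induction S using Multiset.induction_on with
  | empty => simp
  | cons a S ih =>
    have ha := h a (Multiset.mem_cons_self a S)
    rw [Multiset.card_cons, Multiset.map_cons, Multiset.prod_cons, norm_mul, pow_succ,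
      mul_comm (d ^ S.card)]
    exact mul_le_mul ha (ih (fun ρ hρ => h ρ (Multiset.mem_cons_of_mem hρ))) (norm_nonneg _)
      ((norm_nonneg _).trans ha)

theorem FacLog_pow_le {A M b : ℝ} (N : ℕ) (hb : 1 ≤ b) (hN : (N : ℝ) ≤ A * M) :
    b ^ N ≤ Real.exp (A * Real.log b * M) := by
  have hb0 : 0 < b := by linarith
  have h1 : b ^ N = Real.exp (N * Real.log b) := by
    rw [mul_comm, Real.exp_mul, Real.exp_log hb0, Real.rpow_natCast]
  rw [h1]
  apply Real.exp_le_exp.mpr
  have h2 := mul_le_mul_of_nonneg_right hN (Real.log_nonneg hb)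
  linarith [h2, mul_right_comm A M (Real.log b)]

/-- bounds for the cofactor -/
theorem FacLog_bounds (c : ℂ) (r1 R M A : ℝ) (hr : 0 < r1) (hR : r1 < R) (S : Multiset ℂ)
    (h g : ℂ → ℂ) (hg : AnalyticOnNhd ℂ g (Metric.closedBall c R))
    (hb : ∀ z ∈ Metric.closedBall c R, ‖h z‖ ≤ Real.exp M) (hc : Real.exp (-M) ≤ ‖h c‖)
    (hfac : ∀ z ∈ Metric.closedBall c R, h z = (S.map (fun ρ => z - ρ)).prod * g z)
    (hS : ∀ ρ ∈ S, ρ ∈ Metric.closedBall c r1) (hN : (S.card : ℝ) ≤ A * M) :
    (∀ z ∈ Metric.closedBall c R,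
      ‖g z‖ ≤ Real.exp ((1 + A * Real.log ((min 1 (R - r1))⁻¹)) * M)) ∧
    Real.exp (-((1 + A * Real.log (max r1 1)) * M)) ≤ ‖g c‖ := by
  have hR0 : 0 < R := hr.trans hR
  set d : ℝ := min 1 (R - r1) with hd
  have hd0 : 0 < d := lt_min one_pos (by linarith)
  have hd1 : 1 ≤ d⁻¹ := by
    rw [one_le_inv₀ hd0]
    exact min_le_left _ _
  constructor
  · have hclos : closure (Metric.ball c R) = Metric.closedBall c R := closure_ball c hR0.ne'
    have hdc : DiffContOnCl ℂ g (Metric.ball c R) := by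
      apply DifferentiableOn.diffContOnCl
      rw [hclos]
      exact hg.differentiableOn
    have hfr : ∀ z ∈ frontier (Metric.ball c R),
        ‖g z‖ ≤ Real.exp ((1 + A * Real.log (d⁻¹)) * M) := by
      intro z hz
      rw [frontier_ball c hR0.ne', mem_sphere_iff_norm] at hz
      have hzc : z ∈ Metric.closedBall c R := by
        rw [mem_closedBall_iff_norm, hz]
      have h1 : d ^ S.card ≤ ‖(S.map (fun ρ => z - ρ)).prod‖ := by
        apply FacLog_prod_ge S z d hd0.le
        intro ρ hρ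
        have h2 := hS ρ hρ
        rw [mem_closedBall_iff_norm] at h2
        have h3 : ‖z - c‖ ≤ ‖z - ρ‖ + ‖ρ - c‖ := norm_sub_le_norm_sub_add_norm_sub z ρ c
        have h4 : d ≤ R - r1 := min_le_right _ _
        linarith
      have h2 := hb z hzc
      rw [hfac z hzc, norm_mul] at h2
      have h3 : d ^ S.card * ‖g z‖ ≤ Real.exp M :=
        (mul_le_mul_of_nonneg_right h1 (norm_nonneg _)).trans h2
      have h4 : ‖g z‖ ≤ (d⁻¹) ^ S.card * Real.exp M := by
        rw [inv_pow, ← div_eq_inv_mul, le_div_iff₀ (pow_pos hd0 _)]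
        linarith
      have h5 := FacLog_pow_le S.card hd1 hN
      calc ‖g z‖ ≤ (d⁻¹) ^ S.card * Real.exp M := h4
        _ ≤ Real.exp (A * Real.log (d⁻¹) * M) * Real.exp M :=
            mul_le_mul_of_nonneg_right h5 (Real.exp_pos _).le
        _ = Real.exp ((1 + A * Real.log (d⁻¹)) * M) := by
            rw [← Real.exp_add]
            congr 1
            ring
    intro z hz
    rw [← hclos] at hz
    exact Complex.norm_le_of_forall_mem_frontier_norm_le Metric.isBounded_ball hdc hfr hz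
  · have hcc : c ∈ Metric.closedBall c R := Metric.mem_closedBall_self hR0.le
    have h1 : ‖(S.map (fun ρ => c - ρ)).prod‖ ≤ (max r1 1) ^ S.card := by
      apply FacLog_prod_le
      intro ρ hρ
      have h2 := hS ρ hρ
      rw [mem_closedBall_iff_norm'] at h2
      exact h2.trans (le_max_left _ _)
    have h5 := FacLog_pow_le S.card (le_max_right r1 1) hN
    rw [hfac c hcc, norm_mul] at hc
    have h6 : Real.exp (-M) ≤ Real.exp (A * Real.log (max r1 1) * M) * ‖g c‖ :=
      hc.trans (mul_le_mul_of_nonneg_right (h1.trans h5) (norm_nonneg _))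
    have h7 : Real.exp (-((1 + A * Real.log (max r1 1)) * M)) =
        Real.exp (-M) * Real.exp (-(A * Real.log (max r1 1) * M)) := by
      rw [← Real.exp_add]
      congr 1
      ring
    rw [h7, Real.exp_neg (A * Real.log (max r1 1) * M), ← div_eq_mul_inv,
      div_le_iff₀ (Real.exp_pos _)]
    linarith

/-- Local factorization with a bounded logarithm.  Apply `fac_exists` with `r1 < R`.  On the sphere
`‖z - c‖ = R` we have `‖z - ρ‖ ≥ R - r1`, so by the maximum principle
`‖g z‖ ≤ exp M * (min 1 (R - r1))^{-card S} ≤ exp (C1 M)` on `closedBall c R`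
(`card S ≤ 2 M / log (R/r1)`).  `g ≠ 0` on the ball of radius `r1`, so it has a holomorphic logarithm
`k` there (`log_ext`, or `exists_continuousOn_eqOn_exp_comp` and `log_analytic`), normalized by
`|Im k(c)| ≤ π`.  `Re k = log ‖g‖ ≤ C1 M` and `Re k(c) = log ‖h c‖ - ∑ log ‖c - ρ‖
≥ -M - card S * log (max r1 1)`, so `‖k c‖ ≤ C2 M` (use `1 ≤ M` for `π`), and
`Complex.borelCaratheodory` (after translating `c` to `0`) on the ball of radius `r1` gives
`‖k z‖ ≤ 2 C1 M r0/(r1 - r0) + C2 M (r1 + r0)/(r1 - r0)` for `‖z - c‖ ≤ r0`. -/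
theorem fac_log (r0 r1 R : ℝ) (h0 : 0 < r0) (h01 : r0 < r1) (h1R : r1 < R) :
    ∃ C : ℝ, 0 < C ∧ ∀ (c : ℂ) (M : ℝ) (h : ℂ → ℂ), 1 ≤ M →
      AnalyticOnNhd ℂ h (Metric.closedBall c R) →
      (∀ z ∈ Metric.closedBall c R, ‖h z‖ ≤ Real.exp M) → Real.exp (-M) ≤ ‖h c‖ →
      ∃ (S : Multiset ℂ) (k : ℂ → ℂ), AnalyticOnNhd ℂ k (Metric.ball c r1) ∧
        (S.card : ℝ) ≤ C * M ∧
        (∀ ρ ∈ S, ρ ∈ Metric.closedBall c r1 ∧ h ρ = 0) ∧
        (∀ z ∈ Metric.ball c r1, h z = (S.map (fun ρ => z - ρ)).prod * Complex.exp (k z)) ∧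
        ∀ z ∈ Metric.closedBall c r0, ‖k z‖ ≤ C * M := by
  have hr1 : 0 < r1 := h0.trans h01
  have hR0 : 0 < R := hr1.trans h1R
  have hlog : 0 < Real.log (R / r1) := Real.log_pos ((one_lt_div hr1).mpr h1R)
  set A : ℝ := 2 / Real.log (R / r1) with hA
  have hA0 : 0 < A := by positivity
  set d : ℝ := min 1 (R - r1) with hd
  have hd0 : 0 < d := lt_min one_pos (by linarith)
  have hd1 : 1 ≤ d⁻¹ := by
    rw [one_le_inv₀ hd0]
    exact min_le_left _ _
  set C1 : ℝ := 1 + A * Real.log (d⁻¹) with hC1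
  have hC1pos : 0 < C1 := by
    have := mul_nonneg hA0.le (Real.log_nonneg hd1)
    linarith
  set C3 : ℝ := 1 + A * Real.log (max r1 1) with hC3
  have hC3pos : 0 < C3 := by
    have := mul_nonneg hA0.le (Real.log_nonneg (le_max_right r1 1))
    linarith
  set C2 : ℝ := C1 + C3 + Real.pi with hC2
  have hC2pos : 0 < C2 := by
    have := Real.pi_pos
    linarith
  have hr10 : 0 < r1 - r0 := by linarith
  set C4 : ℝ := 2 * C1 * r0 / (r1 - r0) + C2 * (r1 + r0) / (r1 - r0) with hC4
  have hC4pos : 0 < C4 := by positivity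
  refine ⟨A + C4, by linarith, ?_⟩
  intro c M h hM han hb hc
  have hM0 : 0 ≤ M := by linarith
  obtain ⟨S, g, hg, hg0, hfac, hS, hN⟩ := fac_exists c r1 R M hr1 h1R hM0 h han hb hc
  have hN' : (S.card : ℝ) ≤ A * M := by
    refine hN.trans (le_of_eq ?_)
    rw [hA]
    ring
  obtain ⟨hup, hlo⟩ := FacLog_bounds c r1 R M A hr1 h1R S h g hg hb hc hfac
    (fun ρ hρ => (hS ρ hρ).1) hN'
  have hsub : Metric.ball c r1 ⊆ Metric.closedBall c R :=
    (Metric.ball_subset_ball h1R.le).trans Metric.ball_subset_closedBall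
  have hcb : c ∈ Metric.ball c r1 := Metric.mem_ball_self hr1
  have hgb0 : ∀ z ∈ Metric.ball c r1, g z ≠ 0 := fun z hz =>
    hg0 z (Metric.ball_subset_closedBall hz)
  obtain ⟨k', hk', hke, hkc⟩ := log_ext (Metric.ball c r1) {c} Metric.isOpen_ball
    (convex_ball c r1) isPreconnected_singleton (Set.singleton_nonempty c)
    (Set.singleton_subset_iff.mpr hcb) g (fun _ => Complex.log (g c) / 2)
    (fun z hz => hg z (hsub hz)) hgb0 continuousOn_const (by
      intro z hz
      rw [Set.mem_singleton_iff.mp hz, mul_div_cancel₀ _ (two_ne_zero), Complex.exp_log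
        (hgb0 c hcb)])
  have hkc' : 2 * k' c = Complex.log (g c) := by
    rw [hkc c rfl, mul_div_cancel₀ _ (two_ne_zero)]
  have hkan : AnalyticOnNhd ℂ (fun z => 2 * k' z) (Metric.ball c r1) := fun z hz =>
    analyticAt_const.mul (hk' z hz)
  refine ⟨S, fun z => 2 * k' z, hkan, ?_, hS, ?_, ?_⟩
  · refine hN'.trans ?_
    have := mul_nonneg hC4pos.le hM0
    linarith [add_mul A C4 M]
  · intro z hz
    rw [hfac z (hsub hz), hke z hz]
  · -- the bound
    have hre : ∀ z ∈ Metric.ball c r1, (2 * k' z).re ≤ C1 * M := by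
      intro z hz
      have h1 := hup z (hsub hz)
      rw [← hke z hz, Complex.norm_exp] at h1
      exact Real.exp_le_exp.mp h1
    have hkcb : ‖2 * k' c‖ ≤ C2 * M := by
      have h1 : (2 * k' c).re ≤ C1 * M := hre c hcb
      have h2 : -(C3 * M) ≤ (2 * k' c).re := by
        have h3 := hlo
        rw [← hke c hcb, Complex.norm_exp] at h3
        exact Real.exp_le_exp.mp h3
      have h3 : |(2 * k' c).im| ≤ Real.pi := by
        rw [hkc']
        rw [abs_le]
        exact ⟨(Complex.neg_pi_lt_log_im (g c)).le, Complex.log_im_le_pi (g c)⟩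
      have h4 : |(2 * k' c).re| ≤ C1 * M + C3 * M := by
        have h5 := mul_nonneg hC1pos.le hM0
        have h6 := mul_nonneg hC3pos.le hM0
        rw [abs_le]
        constructor <;> linarith
      have h5 := Complex.norm_le_abs_re_add_abs_im (2 * k' c)
      have h6 : Real.pi ≤ Real.pi * M := by
        have := Real.pi_pos
        nlinarith
      rw [hC2]
      linarith [add_mul (C1 + C3) Real.pi M, add_mul C1 C3 M]
    intro z hz
    rw [mem_closedBall_iff_norm] at hz
    have hzr : ‖z - c‖ < r1 := by linarith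
    have hmap : ∀ w : ℂ, w ∈ Metric.ball (0 : ℂ) r1 → c + w ∈ Metric.ball c r1 := by
      intro w hw
      rw [mem_ball_zero_iff] at hw
      rw [mem_ball_iff_norm, add_sub_cancel_left]
      exact hw
    have hdiff : DifferentiableOn ℂ (fun w : ℂ => 2 * k' (c + w)) (Metric.ball 0 r1) := by
      have h1 : DifferentiableOn ℂ (fun z => 2 * k' z) (Metric.ball c r1) := hkan.differentiableOn
      exact h1.comp (by fun_prop) hmap
    have hbc := Complex.borelCaratheodory (f := fun w : ℂ => 2 * k' (c + w)) (M := C1 * M)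
      (R := r1) (z := z - c) (by positivity) hdiff
      (fun w hw => hre _ (hmap w hw)) hr1 (by rw [mem_ball_zero_iff]; exact hzr)
    simp only [add_sub_cancel, add_zero] at hbc
    have hn0 := norm_nonneg (z - c)
    have h7 : 2 * (C1 * M) * ‖z - c‖ / (r1 - ‖z - c‖) ≤ 2 * (C1 * M) * r0 / (r1 - r0) := by
      apply div_le_div₀ (by positivity) _ hr10 (by linarith)
      exact mul_le_mul_of_nonneg_left hz (by positivity)
    have h8 : ‖2 * k' c‖ * (r1 + ‖z - c‖) / (r1 - ‖z - c‖) ≤
        C2 * M * (r1 + r0) / (r1 - r0) := by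
      apply div_le_div₀ (by positivity) _ hr10 (by linarith)
      exact mul_le_mul hkcb (by linarith) (by positivity) (by positivity)
    have h9 : 2 * (C1 * M) * r0 / (r1 - r0) + C2 * M * (r1 + r0) / (r1 - r0) = C4 * M := by
      rw [hC4]
      ring
    have h10 := mul_nonneg hA0.le hM0
    linarith [add_mul A C4 M]

end W3283g
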