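import Pool.Agent.W_3283e1_h53.SV
import Pool.Agent.W_3283e1_h53.FinH3

set_option autoImplicit false

namespace W3283g

open Complex W3283e1 W3283f MeasureTheory Filter Topology

/-- `log P x` in terms of `er`. -/
theorem FinH2_log (k : ℕ) (c : ℤ) (n f i j : ℕ) (L : ℂ → ℂ) (r : ℕ) (l V : ℝ)
    (h : SU k c n f i j L r l V) (x : ℝ) (hx : (k : ℝ) ≤ x) (hx1 : 1 < x) :
    Real.log (bsdProd (c * k ^ 2) 0 x) =
      Real.log (Real.sqrt 2 * Real.exp (r * Real.eulerMascheroniConstant) / |l|) +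
        r * Real.log (Real.log x) + er (alF n j) (lGold (l / V) r) r (Real.log x) := by
  have hl : 0 < |l| := abs_pos.2 h.hl
  have hC : 0 < Real.sqrt 2 * Real.exp (r * Real.eulerMascheroniConstant) / |l| := by positivity
  have hlog : 0 < Real.log x := Real.log_pos hx1
  rw [← h.hP x hx hx1, Real.log_div (bsd_pos _ _ _).ne' (by positivity),
    Real.log_mul hC.ne' (by positivity), Real.log_pow]
  ring

/-- `log P x` in terms of `AA`. -/
theorem FinH2_AA (k : ℕ) (c : ℤ) (n f i j : ℕ) (L : ℂ → ℂ) (r : ℕ) (l V : ℝ)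
    (h : SU k c n f i j L r l V) : ∃ c0 : ℝ, ∀ x : ℝ, (k : ℝ) ≤ x → 1 < x →
      Real.log (bsdProd (c * k ^ 2) 0 x) = AA (alF n j) x + c0 := by
  refine ⟨Real.log (Real.sqrt 2 * Real.exp (r * Real.eulerMascheroniConstant) / |l|) -
    lGold (l / V) r, fun x hx hx1 => ?_⟩
  rw [FinH2_log k c n f i j L r l V h x hx hx1, er, Real.exp_log (by linarith)]
  ring

theorem FinH2_L (k : ℕ) (c : ℤ) (n f i j : ℕ) (L : ℂ → ℂ) (r : ℕ) (l V : ℝ)
    (h : SU k c n f i j L r l V) (s : ℂ) (hs : 1 < s.re) (h1 : LLF n j s ≠ 0) : L s ≠ 0 := by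
  have h2 := h.hzero (s - 1) (by rw [Complex.sub_re, Complex.one_re]; linarith)
  rw [add_sub_cancel] at h2
  exact fun h3 => h1 (h2.1 h3)

theorem FinH2_bound (k : ℕ) (c : ℤ) (n f i j : ℕ) (L : ℂ → ℂ) (r : ℕ) (l V : ℝ)
    (h : SU k c n f i j L r l V) (B lam X η : ℝ) (hlam : 1 < lam)
    (hη : η = 1 ∨ (η = -1 ∧ ∀ σ : ℝ, 0 < σ → LR (LLF n j) σ ≠ 0))
    (hyp : ∀ x y : ℝ, X ≤ x → (k : ℝ) ≤ x → 1 < x → x ≤ y → y ≤ lam * x →
      η * AA (alF n j) y ≤ η * AA (alF n j) x + Real.log B) :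
    (∀ s : ℂ, 1 < s.re → L s ≠ 0) ∧ ∀ ε : ℝ, 0 < ε → ∃ u1 : ℝ, ∀ u : ℝ, u1 ≤ u →
      |er (alF n j) (lGold (l / V) r) r u| ≤ Real.log B + ε := by
  have hD := dataR_fam n j h.hj h.hn h.hs
  obtain ⟨X0, hX0⟩ : ∃ X0 : ℝ, X0 = max X (max k 2) := ⟨_, rfl⟩
  have hX1 : X ≤ X0 := hX0 ▸ le_max_left _ _
  have hX2 : (k : ℝ) ≤ X0 := hX0 ▸ (le_max_left _ _).trans (le_max_right _ _)
  have hX3 : (2 : ℝ) ≤ X0 := hX0 ▸ (le_max_right _ _).trans (le_max_right _ _)
  have hδ : 0 < Real.log lam := Real.log_pos hlam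
  have hkey : ∀ u v : ℝ, Real.log X0 ≤ u → u ≤ v → v ≤ u + Real.log lam →
      η * AA (alF n j) (Real.exp v) ≤ η * AA (alF n j) (Real.exp u) + Real.log B := by
    intro u v h1 h2 h3
    have h4 : X0 ≤ Real.exp u := by
      rw [← Real.exp_log (by linarith : (0 : ℝ) < X0)]
      exact Real.exp_le_exp.2 h1
    refine hyp _ _ (hX1.trans h4) (hX2.trans h4) (by linarith) (Real.exp_le_exp.2 h2) ?_
    have h5 : Real.exp v ≤ Real.exp (u + Real.log lam) := Real.exp_le_exp.2 h3
    rwa [Real.exp_add, Real.exp_log (by linarith), mul_comm] at h5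
  have hRH := sv_rh (alF n j) (LLF n j) WW hD η hη (Real.log B) (Real.log lam) (Real.log X0) hδ hkey
  have hRH' : ∀ s : ℂ, 1 < s.re → L s ≠ 0 := by
    intro s hs
    refine FinH2_L k c n f i j L r l V h s hs ?_
    have h1 := hRH (s - 1) (by rw [Complex.sub_re, Complex.one_re]; linarith)
    rwa [add_sub_cancel] at h1
  refine ⟨hRH', fun ε hε => ?_⟩
  have hη1 : η = 1 ∨ η = -1 := hη.imp id And.left
  have hη2 : |η| = 1 := by rcases hη1 with rfl | rfl <;> simp
  have hη3 : η ^ 2 = 1 := by rcases hη1 with rfl | rfl <;> norm_num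
  have hη4 : -1 ≤ η ∧ η ≤ 1 := by rcases hη1 with rfl | rfl <;> norm_num
  have hsq : IntegrableOn (fun u : ℝ => (η * er (alF n j) (lGold (l / V) r) r u) ^ 2)
      (Set.Ioi 0) := by
    have h1 := su_l2 k c n f i j L r l V h hRH'
    refine h1.congr_fun (fun u _ => ?_) measurableSet_Ioi
    show _ = (η * er (alF n j) (lGold (l / V) r) r u) ^ 2
    rw [mul_pow, hη3, one_mul]
  obtain ⟨u1, hu1⟩ := sv_bound (fun u => η * er (alF n j) (lGold (l / V) r) r u)
    ((er_meas _ _ _).const_mul η) hsq (Real.log B) (Real.log lam) hδ (by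
      intro ε' hε'
      refine ⟨max (Real.log X0) (max 1 (r * Real.log lam / ε')), fun u v h1 h2 h3 => ?_⟩
      have h4 : Real.log X0 ≤ u := (le_max_left _ _).trans h1
      have h5 : 1 ≤ u := ((le_max_left _ _).trans (le_max_right _ _)).trans h1
      have h6 : r * Real.log lam / ε' ≤ u := ((le_max_right _ _).trans (le_max_right _ _)).trans h1
      have h7 := hkey u v h4 h2 h3
      have h8 : 0 ≤ Real.log v - Real.log u := by
        have := Real.log_le_log (by linarith) h2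
        linarith
      have h9 : Real.log v - Real.log u ≤ Real.log lam / u := by
        rw [← Real.log_div (by linarith) (by linarith)]
        refine (Real.log_le_sub_one_of_pos (div_pos (by linarith) (by linarith))).trans ?_
        rw [div_sub_one (by linarith)]
        exact div_le_div_of_nonneg_right (by linarith) (by linarith)
      have h10 : (r : ℝ) * (Real.log v - Real.log u) ≤ ε' := by
        refine (mul_le_mul_of_nonneg_left h9 (Nat.cast_nonneg r)).trans ?_
        rw [← mul_div_assoc, div_le_iff₀ (by linarith)]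
        rw [div_le_iff₀ hε'] at h6
        linarith
      have h11 : 0 ≤ (r : ℝ) * (Real.log v - Real.log u) := mul_nonneg (Nat.cast_nonneg r) h8
      have h12 : -(η * ((r : ℝ) * (Real.log v - Real.log u))) ≤
          (r : ℝ) * (Real.log v - Real.log u) := by
        have := mul_le_mul_of_nonneg_right hη4.1 h11
        linarith
      show η * (AA (alF n j) (Real.exp v) - lGold (l / V) r - r * Real.log v) ≤
        η * (AA (alF n j) (Real.exp u) - lGold (l / V) r - r * Real.log u) + Real.log B + ε'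
      linarith) ε hε
  refine ⟨u1, fun u hu => ?_⟩
  have h1 : |η * er (alF n j) (lGold (l / V) r) r u| ≤ Real.log B + ε := hu1 u hu
  rwa [abs_mul, hη2, one_mul] at h1

/-- One sided variation of the product gives two sided bounds.  Put `u = log x`.  The
hypothesis (with `η = 1`: `P y ≤ B P x`, with `η = -1`: `P x ≤ B P y`, for `X ≤ x ≤ y ≤ λ x`) says
`η A(v) ≤ η A(u) + log B` for large `u ≤ v ≤ u + log λ`, `A(u) = AA (e^u)` (`h.hP`: `log P` and `A`
differ by a constant), so `sv_rh`, `su_l2` and `sv_bound` (for `e = η er`; the term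
`r (log v - log u) ≤ r δ/u` tends to `0`) give `|er u| ≤ log B + ε` for large `u`. -/
theorem main_sv (k : ℕ) (c : ℤ) (n f i j : ℕ) (L : ℂ → ℂ) (r : ℕ) (l V : ℝ)
    (h : SU k c n f i j L r l V) (B lam X : ℝ) (hlam : 1 < lam)
    (hyp : (∀ x y : ℝ, X ≤ x → x ≤ y → y ≤ lam * x →
        bsdProd (c * k ^ 2) 0 y ≤ B * bsdProd (c * k ^ 2) 0 x) ∨
      ((k ≤ 2 ∨ ∀ σ : ℝ, 1 < σ → L σ ≠ 0) ∧
        ∀ x y : ℝ, X ≤ x → x ≤ y → y ≤ lam * x →
          bsdProd (c * k ^ 2) 0 x ≤ B * bsdProd (c * k ^ 2) 0 y)) :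
    (∀ s : ℂ, 1 < s.re → L s ≠ 0) ∧
      ∀ B' : ℝ, B < B' → ∃ X' : ℝ, ∀ x : ℝ, X' ≤ x →
        Real.sqrt 2 * Real.exp (r * Real.eulerMascheroniConstant) / |l| *
          (Real.log x) ^ r ≤ B' * bsdProd (c * k ^ 2) 0 x ∧
        bsdProd (c * k ^ 2) 0 x ≤ B' *
          (Real.sqrt 2 * Real.exp (r * Real.eulerMascheroniConstant) / |l| *
            (Real.log x) ^ r) := by
  obtain ⟨c0, hc0⟩ := FinH2_AA k c n f i j L r l V h
  have hP : ∀ x, 0 < bsdProd (c * k ^ 2) 0 x := fun x => bsd_pos _ _ x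
  have hBpos : 0 < B := by
    obtain ⟨x, hx⟩ : ∃ x : ℝ, x = max X 1 := ⟨_, rfl⟩
    have hx1 : X ≤ x := hx ▸ le_max_left _ _
    have hx2 : 1 ≤ x := hx ▸ le_max_right _ _
    have h1 : bsdProd (c * k ^ 2) 0 x ≤ B * bsdProd (c * k ^ 2) 0 x := by
      rcases hyp with h1 | ⟨_, h1⟩ <;> exact h1 x x hx1 le_rfl (by nlinarith)
    by_contra hcon
    push Not at hcon
    have h2 := mul_nonpos_of_nonpos_of_nonneg hcon (hP x).le
    linarith [hP x]
  have hmain : (∀ s : ℂ, 1 < s.re → L s ≠ 0) ∧ ∀ ε : ℝ, 0 < ε → ∃ u1 : ℝ, ∀ u : ℝ, u1 ≤ u →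
      |er (alF n j) (lGold (l / V) r) r u| ≤ Real.log B + ε := by
    have hlog : ∀ a b : ℝ, 0 < a → 0 < b → a ≤ B * b → Real.log a ≤ Real.log b + Real.log B := by
      intro a b ha hb hab
      have h1 := Real.log_le_log ha hab
      rw [Real.log_mul hBpos.ne' hb.ne'] at h1
      linarith
    rcases hyp with h1 | ⟨h0, h1⟩
    · refine FinH2_bound k c n f i j L r l V h B lam X 1 hlam (Or.inl rfl) ?_
      intro x y hx hxk hx1 hxy hyl
      have h2 := hlog _ _ (hP y) (hP x) (h1 x y hx hxy hyl)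
      rw [hc0 x hxk hx1, hc0 y (hxk.trans hxy) (hx1.trans_le hxy)] at h2
      linarith
    · refine FinH2_bound k c n f i j L r l V h B lam X (-1) hlam (Or.inr ⟨rfl, h.hreal h0⟩) ?_
      intro x y hx hxk hx1 hxy hyl
      have h2 := hlog _ _ (hP x) (hP y) (h1 x y hx hxy hyl)
      rw [hc0 x hxk hx1, hc0 y (hxk.trans hxy) (hx1.trans_le hxy)] at h2
      linarith
  refine ⟨hmain.1, fun B' hB' => ?_⟩
  have hB'pos : 0 < B' := hBpos.trans hB'
  have hε : 0 < Real.log B' - Real.log B := by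
    have := Real.log_lt_log hBpos hB'
    linarith
  obtain ⟨u1, hu1⟩ := hmain.2 _ hε
  refine ⟨max (Real.exp u1) (max k 2), fun x hx => ?_⟩
  have hx1 : Real.exp u1 ≤ x := (le_max_left _ _).trans hx
  have hx2 : (k : ℝ) ≤ x := ((le_max_left _ _).trans (le_max_right _ _)).trans hx
  have hx3 : (2 : ℝ) ≤ x := ((le_max_right _ _).trans (le_max_right _ _)).trans hx
  have hx4 : u1 ≤ Real.log x := by
    rw [Real.le_log_iff_exp_le (by linarith)]
    exact hx1
  have h1 := hu1 _ hx4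
  rw [add_sub_cancel, abs_le] at h1
  have h2 := FinH2_log k c n f i j L r l V h x hx2 (by linarith)
  have hl : 0 < |l| := abs_pos.2 h.hl
  have hC : 0 < Real.sqrt 2 * Real.exp (r * Real.eulerMascheroniConstant) / |l| := by positivity
  have hlogx : 0 < Real.log x := Real.log_pos (by linarith)
  have hCr : 0 < Real.sqrt 2 * Real.exp (r * Real.eulerMascheroniConstant) / |l| *
    (Real.log x) ^ r := by positivity
  have h3 : Real.log (Real.sqrt 2 * Real.exp (r * Real.eulerMascheroniConstant) / |l| *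
      (Real.log x) ^ r) = Real.log (Real.sqrt 2 *
        Real.exp (r * Real.eulerMascheroniConstant) / |l|) + r * Real.log (Real.log x) := by
    rw [Real.log_mul hC.ne' (by positivity), Real.log_pow]
  constructor
  · rw [← Real.log_le_log_iff hCr (mul_pos hB'pos (hP x)), Real.log_mul hB'pos.ne' (hP x).ne', h3,
      h2]
    linarith [h1.1]
  · rw [← Real.log_le_log_iff (hP x) (mul_pos hB'pos hCr), Real.log_mul hB'pos.ne' hCr.ne', h3, h2]
    linarith [h1.2]

theorem FinH2_nint (e : ℝ → ℝ) (h : IntegrableOn (fun u : ℝ => (e u) ^ 2) (Set.Ioi 0)) (u2 : ℝ)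
    (h1 : ∀ u : ℝ, u2 ≤ u → 1 ≤ |e u|) : False := by
  have h2 : IntegrableOn (fun u : ℝ => (e u) ^ 2) (Set.Ioi (max u2 0)) :=
    h.mono_set (Set.Ioi_subset_Ioi (le_max_right _ _))
  have h3 : IntegrableOn (fun _ : ℝ => (1 : ℝ)) (Set.Ioi (max u2 0)) := by
    refine h2.mono' aestronglyMeasurable_const ?_
    filter_upwards [ae_restrict_mem measurableSet_Ioi] with u hu
    have hu' : max u2 0 < u := hu
    have h4 := h1 u ((le_max_left _ _).trans hu'.le)
    rw [norm_one, ← sq_abs]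
    nlinarith
  rw [integrableOn_const_iff] at h3
  rcases h3 with h3 | h3
  · simp at h3
  · rw [Real.volume_Ioi] at h3
    exact lt_irrefl _ h3

/-- The exponent.  An upper bound `P x ≤ (log x)^{ρ+ε}` gives the Riemann hypothesis by `rh_gen` with
`η = 1` (`(log x)^{ρ+ε} ≤ exp (x^δ)` for large `x`), so `er` is square integrable (`su_l2`).  If
`ρ < r`, take `ε = (r - ρ)/2`: `er u ≤ -ε log u + O(1) → -∞`, not square integrable, so `r ≤ ρ`; with the
lower bound and `ρ > r`, `er u ≥ (ρ - ε - r) log u - O(1) → ∞`, not square integrable. -/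
theorem main_exp (k : ℕ) (c : ℤ) (n f i j : ℕ) (L : ℂ → ℂ) (r : ℕ) (l V : ℝ)
    (h : SU k c n f i j L r l V) (ρ : ℝ)
    (hup : ∀ ε : ℝ, 0 < ε → ∃ X : ℝ, ∀ x : ℝ, X ≤ x →
      bsdProd (c * k ^ 2) 0 x ≤ (Real.log x) ^ (ρ + ε)) :
    (∀ s : ℂ, 1 < s.re → L s ≠ 0) ∧ (r : ℝ) ≤ ρ ∧
      ((∀ ε : ℝ, 0 < ε → ∃ X : ℝ, ∀ x : ℝ, X ≤ x →
        (Real.log x) ^ (ρ - ε) ≤ bsdProd (c * k ^ 2) 0 x) → ρ = r) := by
  obtain ⟨c0, hc0⟩ := FinH2_AA k c n f i j L r l V h
  have hP : ∀ x, 0 < bsdProd (c * k ^ 2) 0 x := fun x => bsd_pos _ _ x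
  have hD := dataR_fam n j h.hj h.hn h.hs
  have hll : Tendsto (fun x : ℝ => Real.log (Real.log x)) atTop atTop :=
    Real.tendsto_log_atTop.comp Real.tendsto_log_atTop
  have hRH : ∀ s : ℂ, 1 < s.re → L s ≠ 0 := by
    intro s hs
    obtain ⟨δ, hδ⟩ : ∃ δ : ℝ, δ = (s.re - 1) / 2 := ⟨_, rfl⟩
    have hδ0 : 0 < δ := by rw [hδ]; linarith
    obtain ⟨X, hX⟩ := hup 1 one_pos
    have h1 : ∀ᶠ x : ℝ in atTop, (ρ + 1) * Real.log (Real.log x) - c0 ≤ x ^ δ := by
      have h2 : Tendsto (fun x : ℝ => Real.log (Real.log x) / x ^ δ) atTop (𝓝 0) := by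
        have h3 : Tendsto (fun x : ℝ => Real.log x / x ^ δ) atTop (𝓝 0) :=
          (isLittleO_log_rpow_atTop hδ0).tendsto_div_nhds_zero
        refine tendsto_of_tendsto_of_tendsto_of_le_of_le' tendsto_const_nhds h3 ?_ ?_
        · filter_upwards [hll.eventually_ge_atTop 0, eventually_gt_atTop 0] with x h4 h5
          positivity
        · filter_upwards [eventually_gt_atTop 1] with x h4
          have h5 : 0 < Real.log x := Real.log_pos h4
          exact div_le_div_of_nonneg_right (Real.log_le_self h5.le)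
            (Real.rpow_nonneg (by linarith) _)
      have h3 : Tendsto (fun x : ℝ => c0 / x ^ δ) atTop (𝓝 0) :=
        tendsto_const_nhds.div_atTop (tendsto_rpow_atTop hδ0)
      have h4 := (h2.const_mul (ρ + 1)).sub h3
      rw [mul_zero, sub_zero] at h4
      filter_upwards [h4.eventually_lt_const one_pos, eventually_gt_atTop 0] with x h5 h6
      have h7 : 0 < x ^ δ := Real.rpow_pos_of_pos h6 _
      rw [← mul_div_assoc, ← sub_div, div_lt_one h7] at h5
      exact h5.le
    obtain ⟨X1, hX1⟩ := Filter.eventually_atTop.1 h1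
    have h2 := rh_gen (alF n j) (LLF n j) WW hD 1 δ (max (max X X1) (max k 2)) hδ0 (Or.inl rfl)
      (by
        have : (2 : ℝ) ≤ max (max X X1) (max k 2) := (le_max_right _ _).trans (le_max_right _ _)
        linarith) (by
        intro x hx
        have hx1 : X ≤ x := ((le_max_left _ _).trans (le_max_left _ _)).trans hx
        have hx2 : X1 ≤ x := ((le_max_right _ _).trans (le_max_left _ _)).trans hx
        have hx3 : (k : ℝ) ≤ x := ((le_max_left _ _).trans (le_max_right _ _)).trans hx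
        have hx4 : (2 : ℝ) ≤ x := ((le_max_right _ _).trans (le_max_right _ _)).trans hx
        have h3 := Real.log_le_log (hP x) (hX x hx1)
        have h4 : 0 < Real.log x := Real.log_pos (by linarith)
        rw [Real.log_rpow h4, hc0 x hx3 (by linarith)] at h3
        have h5 := hX1 x hx2
        linarith)
    refine FinH2_L k c n f i j L r l V h s hs (h2 s ?_)
    rw [hδ]
    linarith
  have hsq := su_l2 k c n f i j L r l V h hRH
  have hlogtop := Real.tendsto_log_atTop
  have hbig : ∀ (ε C : ℝ), 0 < ε → ∃ u2 : ℝ, ∀ u : ℝ, u2 ≤ u → C ≤ ε * Real.log u := by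
    intro ε C hε
    have h1 := (Real.tendsto_log_atTop.const_mul_atTop hε).eventually_ge_atTop C
    exact Filter.eventually_atTop.1 h1
  obtain ⟨lc, hlc⟩ : ∃ lc : ℝ, lc = Real.log (Real.sqrt 2 *
    Real.exp (r * Real.eulerMascheroniConstant) / |l|) := ⟨_, rfl⟩
  have her : ∀ u : ℝ, 0 < u → (k : ℝ) ≤ Real.exp u →
      er (alF n j) (lGold (l / V) r) r u =
        Real.log (bsdProd (c * k ^ 2) 0 (Real.exp u)) - lc - r * Real.log u := by
    intro u hu hk
    have h1 := FinH2_log k c n f i j L r l V h (Real.exp u) hk (Real.one_lt_exp_iff.2 hu)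
    rw [Real.log_exp, ← hlc] at h1
    linarith
  have hrρ : (r : ℝ) ≤ ρ := by
    by_contra hcon
    push Not at hcon
    obtain ⟨ε, hε⟩ : ∃ ε : ℝ, ε = (r - ρ) / 2 := ⟨_, rfl⟩
    have hε0 : 0 < ε := by rw [hε]; linarith
    obtain ⟨X, hX⟩ := hup ε hε0
    obtain ⟨u2, hu2⟩ := hbig ε (1 - lc) hε0
    refine FinH2_nint _ hsq (max (max u2 1) (Real.log (max (max X k) 1))) fun u hu => ?_
    have hu1 : u2 ≤ u := ((le_max_left _ _).trans (le_max_left _ _)).trans hu
    have hu3 : 1 ≤ u := ((le_max_right _ _).trans (le_max_left _ _)).trans hu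
    have hu4 : max (max X k) 1 ≤ Real.exp u := by
      rw [← Real.log_le_iff_le_exp (lt_of_lt_of_le one_pos (le_max_right _ _))]
      exact (le_max_right _ _).trans hu
    have hX' : X ≤ Real.exp u := ((le_max_left _ _).trans (le_max_left _ _)).trans hu4
    have hk' : (k : ℝ) ≤ Real.exp u := ((le_max_right _ _).trans (le_max_left _ _)).trans hu4
    have h1 := Real.log_le_log (hP _) (hX _ hX')
    rw [Real.log_exp, Real.log_rpow (by linarith)] at h1
    have h2 := hu2 u hu1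
    have h3 := her u (by linarith) hk'
    have h4 : (ρ + ε) * Real.log u = r * Real.log u - ε * Real.log u := by
      rw [hε]; ring
    rw [h4] at h1
    rw [le_abs]
    right
    linarith
  refine ⟨hRH, hrρ, fun hlow => ?_⟩
  by_contra hne
  have hlt : (r : ℝ) < ρ := lt_of_le_of_ne hrρ (Ne.symm hne)
  obtain ⟨ε, hε⟩ : ∃ ε : ℝ, ε = (ρ - r) / 2 := ⟨_, rfl⟩
  have hε0 : 0 < ε := by rw [hε]; linarith
  obtain ⟨X, hX⟩ := hlow ε hε0
  obtain ⟨u2, hu2⟩ := hbig ε (1 + lc) hε0
  refine FinH2_nint _ hsq (max (max u2 1) (Real.log (max (max X k) 1))) fun u hu => ?_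
  have hu1 : u2 ≤ u := ((le_max_left _ _).trans (le_max_left _ _)).trans hu
  have hu3 : 1 ≤ u := ((le_max_right _ _).trans (le_max_left _ _)).trans hu
  have hu4 : max (max X k) 1 ≤ Real.exp u := by
    rw [← Real.log_le_iff_le_exp (lt_of_lt_of_le one_pos (le_max_right _ _))]
    exact (le_max_right _ _).trans hu
  have hX' : X ≤ Real.exp u := ((le_max_left _ _).trans (le_max_left _ _)).trans hu4
  have hk' : (k : ℝ) ≤ Real.exp u := ((le_max_right _ _).trans (le_max_left _ _)).trans hu4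
  have h0 : 0 < Real.log (Real.exp u) ^ (ρ - ε) :=
    Real.rpow_pos_of_pos (by rw [Real.log_exp]; linarith) _
  have h1 := Real.log_le_log h0 (hX _ hX')
  rw [Real.log_exp, Real.log_rpow (by linarith)] at h1
  have h2 := hu2 u hu1
  have h3 := her u (by linarith) hk'
  have h4 : (ρ - ε) * Real.log u = r * Real.log u + ε * Real.log u := by
    rw [hε]; ring
  rw [h4] at h1
  rw [le_abs]
  left
  linarith

/-- The asymptotic is equivalent to (one sided) slow variation.  `→`: if `P x/(C (log x)^r) → 1` then for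
`λ = 2` and `x ≤ y ≤ 2 x`, `P y/P x ≤ (1 + ε)² (log (2x)/log x)^r → (1+ε)²`.  `←`: `main_sv` for every
`B > 1`. -/
theorem sv_iff (P : ℝ → ℝ) (hP : ∀ x, 0 < P x) (C : ℝ) (hC : 0 < C) (r : ℕ)
    (h : ∀ B lam X : ℝ, 1 < lam →
      (∀ x y : ℝ, X ≤ x → x ≤ y → y ≤ lam * x → P y ≤ B * P x) →
      ∀ B' : ℝ, B < B' → ∃ X' : ℝ, ∀ x : ℝ, X' ≤ x →
        C * (Real.log x) ^ r ≤ B' * P x ∧ P x ≤ B' * (C * (Real.log x) ^ r)) :
    Tendsto (fun x : ℝ => P x / (C * (Real.log x) ^ r)) atTop (𝓝 1) ↔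
      ∀ B : ℝ, 1 < B → ∃ lam X : ℝ, 1 < lam ∧
        ∀ x y : ℝ, X ≤ x → x ≤ y → y ≤ lam * x → P y ≤ B * P x := by
  constructor
  · intro ht B hB
    obtain ⟨b, hb⟩ : ∃ b : ℝ, b = B ^ ((1 : ℝ) / 3) := ⟨_, rfl⟩
    have hb1 : 1 < b := by
      rw [hb]
      exact Real.one_lt_rpow hB (by norm_num)
    have hb3 : b ^ 3 = B := by
      rw [hb, ← Real.rpow_natCast, ← Real.rpow_mul (by linarith)]
      norm_num
    have hb0 : 0 < b := by linarith
    have h1 := ht.eventually_lt_const hb1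
    have h2 := ht.eventually_const_lt (inv_lt_one_of_one_lt₀ hb1)
    have h3 : Tendsto (fun x : ℝ => (1 + Real.log 2 / Real.log x) ^ r) atTop (𝓝 1) := by
      have h4 : Tendsto (fun x : ℝ => Real.log 2 / Real.log x) atTop (𝓝 0) :=
        tendsto_const_nhds.div_atTop Real.tendsto_log_atTop
      have h5 := (h4.const_add 1).pow r
      rwa [add_zero, one_pow] at h5
    have h4 := h3.eventually_lt_const hb1
    obtain ⟨X, hX⟩ := Filter.eventually_atTop.1 (h1.and (h2.and (h4.and (eventually_gt_atTop 1))))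
    refine ⟨2, X, one_lt_two, fun x y hx hxy hy => ?_⟩
    obtain ⟨_, h6, h7, h8⟩ := hX x hx
    obtain ⟨h9, _, _, h10⟩ := hX y (hx.trans hxy)
    have hlx : 0 < Real.log x := Real.log_pos h8
    have hly : 0 < Real.log y := Real.log_pos h10
    have hCx : 0 < C * (Real.log x) ^ r := by positivity
    have hCy : 0 < C * (Real.log y) ^ r := by positivity
    rw [div_lt_iff₀ hCy] at h9
    rw [lt_div_iff₀ hCx, inv_mul_lt_iff₀ hb0] at h6
    have h11 : Real.log y ≤ Real.log x * (1 + Real.log 2 / Real.log x) := by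
      have h12 := Real.log_le_log (by linarith) hy
      rw [Real.log_mul (by norm_num) (by linarith)] at h12
      have h13 : Real.log x * (1 + Real.log 2 / Real.log x) = Real.log x + Real.log 2 := by
        field_simp
      rw [h13]
      linarith
    have h14 : (Real.log y) ^ r ≤ b * (Real.log x) ^ r := by
      have h15 := pow_le_pow_left₀ hly.le h11 r
      rw [mul_pow] at h15
      have h16 : 0 < (Real.log x) ^ r := by positivity
      nlinarith
    calc P y ≤ b * (C * (Real.log y) ^ r) := h9.le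
      _ ≤ b * (C * (b * (Real.log x) ^ r)) :=
          mul_le_mul_of_nonneg_left (mul_le_mul_of_nonneg_left h14 hC.le) hb0.le
      _ = b ^ 2 * (C * (Real.log x) ^ r) := by ring
      _ ≤ b ^ 2 * (b * P x) := mul_le_mul_of_nonneg_left h6.le (by positivity)
      _ = B * P x := by rw [← hb3]; ring
  · intro hsv
    have key : ∀ B' : ℝ, 1 < B' → ∀ᶠ x : ℝ in atTop,
        B'⁻¹ ≤ P x / (C * (Real.log x) ^ r) ∧ P x / (C * (Real.log x) ^ r) ≤ B' := by
      intro B' hB'
      obtain ⟨lam, X, hlam, hX⟩ := hsv ((1 + B') / 2) (by linarith)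
      obtain ⟨X', hX'⟩ := h _ lam X hlam hX B' (by linarith)
      filter_upwards [eventually_ge_atTop X', eventually_gt_atTop 1] with x hx hx1
      have hlx : 0 < Real.log x := Real.log_pos hx1
      have hCx : 0 < C * (Real.log x) ^ r := by positivity
      obtain ⟨h1, h2⟩ := hX' x hx
      refine ⟨?_, ?_⟩
      · rw [le_div_iff₀ hCx, inv_mul_le_iff₀ (by linarith)]
        exact h1
      · rw [div_le_iff₀ hCx]
        exact h2
    refine tendsto_order.2 ⟨fun a ha => ?_, fun b hb => ?_⟩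
    · rcases le_or_gt a 0 with ha0 | ha0
      · filter_upwards [eventually_gt_atTop 1] with x hx1
        have hlx : 0 < Real.log x := Real.log_pos hx1
        have h1 := hP x
        exact lt_of_le_of_lt ha0 (by positivity)
      · have h1 : 1 < 2 / (1 + a) := by
          rw [lt_div_iff₀ (by linarith)]
          linarith
        filter_upwards [key _ h1] with x hx
        refine lt_of_lt_of_le ?_ hx.1
        rw [inv_div, lt_div_iff₀ (by norm_num)]
        linarith
    · filter_upwards [key ((1 + b) / 2) (by linarith)] with x hx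
      linarith [hx.2]

end W3283g
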