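import Mathlib

set_option autoImplicit false

namespace W3283g

open Complex MeasureTheory Filter Topology

/-- `‖Γ(z)‖ ≤ Γ(Re z)` for `Re z > 0` (the integral), bounded on `1 ≤ Re z ≤ b`
(continuity of `Real.Gamma` on `[1,b]`). -/
theorem gamma_upper (b : ℝ) : ∃ C : ℝ, ∀ z : ℂ, 1 ≤ z.re → z.re ≤ b → ‖Complex.Gamma z‖ ≤ C := by
  rcases lt_or_ge b 1 with hb | hb
  · exact ⟨0, fun z h1 h2 => absurd (le_trans h1 h2) (not_le.mpr hb)⟩
  refine ⟨∫ x in Set.Ioi (0 : ℝ), (Real.exp (-x) * x ^ ((1 : ℝ) - 1) +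
    Real.exp (-x) * x ^ (b - 1)), fun z h1 h2 => ?_⟩
  rw [Complex.Gamma_eq_integral (by linarith : 0 < z.re), Complex.GammaIntegral]
  apply norm_integral_le_of_norm_le
  · exact (Real.GammaIntegral_convergent one_pos).add
      (Real.GammaIntegral_convergent (by linarith : 0 < b))
  · apply (ae_restrict_iff' measurableSet_Ioi).mpr
    filter_upwards with x hx
    have hx' : 0 < x := hx
    rw [norm_mul, Complex.norm_of_nonneg (Real.exp_pos _).le,
      Complex.norm_cpow_eq_rpow_re_of_pos hx' _, ← mul_add]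
    apply mul_le_mul_of_nonneg_left _ (Real.exp_pos _).le
    simp only [Complex.sub_re, Complex.one_re, sub_self, Real.rpow_zero]
    rcases le_total x 1 with hx1 | hx1
    · have := Real.rpow_le_one hx'.le hx1 (by linarith : 0 ≤ z.re - 1)
      have h3 := Real.rpow_nonneg hx'.le (b - 1)
      linarith
    · have := Real.rpow_le_rpow_of_exponent_le hx1 (by linarith : z.re - 1 ≤ b - 1)
      linarith

theorem norm_sin_le_exp (w : ℂ) : ‖Complex.sin w‖ ≤ Real.exp |w.im| := by
  rw [Complex.sin]
  rw [norm_div, norm_mul, Complex.norm_I, mul_one]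
  have h1 : ‖Complex.exp (-w * I)‖ ≤ Real.exp |w.im| := by
    rw [Complex.norm_exp]
    apply Real.exp_le_exp.mpr
    simp only [Complex.mul_re, Complex.neg_re, Complex.I_re, Complex.neg_im, Complex.I_im]
    have := le_abs_self w.im
    linarith
  have h2 : ‖Complex.exp (w * I)‖ ≤ Real.exp |w.im| := by
    rw [Complex.norm_exp]
    apply Real.exp_le_exp.mpr
    simp only [Complex.mul_re, Complex.I_re, Complex.I_im]
    have := neg_abs_le w.im
    linarith
  have h3 := norm_sub_le (Complex.exp (-w * I)) (Complex.exp (w * I))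
  have h4 : ‖(2 : ℂ)‖ = 2 := by simp
  rw [h4]
  linarith

theorem gamma_shift_le (z : ℂ) (hz : 1 ≤ |z.im|) (N : ℕ) :
    ‖Complex.Gamma z‖ ≤ ‖Complex.Gamma (z + N)‖ := by
  induction N with
  | zero => simp
  | succ n ih =>
    refine ih.trans ?_
    have hne : z + n ≠ 0 := by
      intro h
      have := congrArg Complex.im h
      simp at this
      rw [this] at hz
      simp at hz
      linarith
    have hn : 1 ≤ ‖z + n‖ := by
      have := Complex.abs_im_le_norm (z + n)
      simp at this
      linarith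
    have heq : z + ((n + 1 : ℕ) : ℂ) = (z + n) + 1 := by push_cast; ring
    rw [heq, Complex.Gamma_add_one _ hne, norm_mul]
    have := norm_nonneg (Complex.Gamma (z + n))
    nlinarith

/-- Growth of `1/Γ` in a vertical strip.  For `|Im s| ≤ 1` by compactness (`1/Γ` is entire:
`Complex.differentiable_one_div_Gamma`).  For `|Im s| ≥ 1`: by the reflection formula
`Complex.Gamma_mul_Gamma_one_sub`, `1/Γ(s) = Γ(1-s) sin(π s)/π`, `‖sin (π s)‖ ≤ exp (π |Im s|)`, and
with a natural number `N` such that `1 - b + N ≥ 1` the recurrence `Γ(z+1) = z Γ(z)` gives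
`Γ(1-s) = Γ(1-s+N) / ∏_{i<N} (1-s+i)` with every factor of norm at least `|Im s| ≥ 1`, so
`gamma_upper` applies. -/
theorem inv_gamma_growth (a b : ℝ) : ∃ C : ℝ, 0 < C ∧ ∀ s : ℂ, a ≤ s.re → s.re ≤ b →
    ‖(Complex.Gamma s)⁻¹‖ ≤ C * Real.exp (Real.pi * |s.im|) := by
  obtain ⟨C₁, hC₁⟩ := ((isCompact_Icc (a := a) (b := b)).reProdIm
    (isCompact_Icc (a := (-1 : ℝ)) (b := 1))).exists_bound_of_continuousOn
    Complex.differentiable_one_div_Gamma.continuous.continuousOn
  set N : ℕ := ⌈b⌉₊ with hN
  obtain ⟨C₂, hC₂⟩ := gamma_upper (1 - a + N)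
  refine ⟨|C₁| + |C₂| + 1, by positivity, fun s h1 h2 => ?_⟩
  have hexp : 1 ≤ Real.exp (Real.pi * |s.im|) := by
    apply Real.one_le_exp
    have := Real.pi_pos
    positivity
  rcases le_total |s.im| 1 with him | him
  · have h3 : ‖(Complex.Gamma s)⁻¹‖ ≤ C₁ := by
      apply hC₁
      rw [Complex.mem_reProdIm]
      exact ⟨⟨h1, h2⟩, abs_le.mp him⟩
    have h4 : C₁ ≤ |C₁| := le_abs_self _
    have h5 := abs_nonneg C₂
    have h6 := abs_nonneg C₁
    nlinarith
  · have him0 : s.im ≠ 0 := by
      intro h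
      rw [h] at him
      simp at him
      linarith
    have hG : Complex.Gamma s ≠ 0 := by
      apply Complex.Gamma_ne_zero
      intro m h
      apply him0
      rw [h]
      simp
    have hG' : Complex.Gamma (1 - s) ≠ 0 := by
      apply Complex.Gamma_ne_zero
      intro m h
      apply him0
      have := congrArg Complex.im h
      simp at this
      exact this
    have href := Complex.Gamma_mul_Gamma_one_sub s
    have hsin : Complex.sin (Real.pi * s) ≠ 0 := by
      intro h
      rw [h, div_zero] at href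
      exact (mul_ne_zero hG hG') href
    have hpi : (Real.pi : ℂ) ≠ 0 := by
      exact_mod_cast Real.pi_ne_zero
    have hinv : (Complex.Gamma s)⁻¹ = Complex.Gamma (1 - s) * Complex.sin (Real.pi * s) /
        Real.pi := by
      rw [eq_div_iff hsin] at href
      rw [eq_div_iff hpi, inv_mul_eq_iff_eq_mul₀ hG, ← mul_assoc]
      exact href.symm
    rw [hinv, norm_div, norm_mul]
    have h3 : ‖Complex.Gamma (1 - s)‖ ≤ C₂ := by
      refine (gamma_shift_le (1 - s) (by simpa using him) N).trans ?_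
      apply hC₂
      · simp only [Complex.add_re, Complex.sub_re, Complex.one_re, Complex.natCast_re]
        have := Nat.le_ceil b
        linarith
      · simp only [Complex.add_re, Complex.sub_re, Complex.one_re, Complex.natCast_re]
        linarith
    have h4 : ‖Complex.sin (Real.pi * s)‖ ≤ Real.exp (Real.pi * |s.im|) := by
      refine (norm_sin_le_exp _).trans ?_
      apply Real.exp_le_exp.mpr
      simp [abs_mul, abs_of_pos Real.pi_pos]
    have h5 : ‖(Real.pi : ℂ)‖ = Real.pi := by
      simp [abs_of_pos Real.pi_pos]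
    rw [h5]
    have h6 : 1 ≤ Real.pi := by linarith [Real.pi_gt_three]
    have h7 : ‖Complex.Gamma (1 - s)‖ * ‖Complex.sin (Real.pi * s)‖ / Real.pi ≤
        ‖Complex.Gamma (1 - s)‖ * ‖Complex.sin (Real.pi * s)‖ :=
      div_le_self (by positivity) h6
    refine h7.trans ?_
    have h8 : C₂ ≤ |C₂| := le_abs_self _
    have h9 := abs_nonneg C₁
    have h10 := norm_nonneg (Complex.Gamma (1 - s))
    calc ‖Complex.Gamma (1 - s)‖ * ‖Complex.sin (Real.pi * s)‖
        ≤ |C₂| * Real.exp (Real.pi * |s.im|) :=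
          mul_le_mul (h3.trans h8) h4 (norm_nonneg _) (abs_nonneg _)
      _ ≤ (|C₁| + |C₂| + 1) * Real.exp (Real.pi * |s.im|) := by
          apply mul_le_mul_of_nonneg_right _ (by positivity)
          linarith

/-- `(Γ s)⁻¹ = s (s+1) (s+2) (Γ (s+3))⁻¹` for every `s` (`Complex.one_div_Gamma_eq_self_mul_one_div_Gamma_add_one`
or a similar lemma, three times). -/
theorem inv_gamma_three (s : ℂ) :
    (Complex.Gamma s)⁻¹ = s * (s + 1) * (s + 2) * (Complex.Gamma (s + 3))⁻¹ := by
  have h1 := Complex.one_div_Gamma_eq_self_mul_one_div_Gamma_add_one s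
  have h2 := Complex.one_div_Gamma_eq_self_mul_one_div_Gamma_add_one (s + 1)
  have h3 := Complex.one_div_Gamma_eq_self_mul_one_div_Gamma_add_one (s + 2)
  rw [show s + 1 + 1 = s + 2 by ring] at h2
  rw [show s + 2 + 1 = s + 3 by ring] at h3
  rw [h1, h2, h3]
  ring

end W3283g
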