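import Pool.Agent.W_3283e1_h53.InvG
import Pool.Agent.W_3283e1_h53.GauDec

set_option autoImplicit false

namespace W3283g

open Complex MeasureTheory Filter Topology

/-- Measurability of a parameter integral (`StronglyMeasurable.integral_prod_right'` or
`MeasureTheory.StronglyMeasurable.integral_prod_left`). -/
theorem gm_meas (e : ℝ → ℝ) (he : Measurable e) (c : ℝ) : Measurable (gm e c) := by
  have h1 : Measurable (Function.uncurry fun u v : ℝ =>
      e v * Real.exp (-(v - u) ^ 2 / (2 * (c * u)))) := by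
    have h2 : Measurable fun p : ℝ × ℝ => e p.2 := he.comp measurable_snd
    exact h2.mul (by fun_prop)
  have h2 := (h1.stronglyMeasurable.integral_prod_right (ν := volume.restrict (Set.Ioi 0))).measurable
  have h3 : Measurable fun u : ℝ => (Real.sqrt (2 * Real.pi * (c * u)))⁻¹ := by fun_prop
  exact h3.mul h2

/-- The kernel of `ker_lap`. -/
noncomputable def GauLap_k (c s u v : ℝ) : ℝ :=
  (Real.sqrt (2 * Real.pi * (c * u)))⁻¹ *
      Real.exp (-(v - u) ^ 2 / (2 * (c * u))) * Real.exp (-((s + c * s ^ 2 / 2) * u))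

theorem GauLap_gm (e : ℝ → ℝ) (c s u : ℝ) :
    gm e c u * Real.exp (-((s + c * s ^ 2 / 2) * u)) =
      ∫ v in Set.Ioi (0 : ℝ), e v * GauLap_k c s u v := by
  unfold gm GauLap_k
  rw [mul_assoc, ← integral_mul_const, ← integral_const_mul]
  congr 1
  funext v
  ring

theorem GauLap_int (e : ℝ → ℝ) (he : Measurable e) (c s : ℝ) (hc : 0 < c) (hs : 0 < s)
    (hint : IntegrableOn (fun v : ℝ => e v * Real.exp (-(s * v))) (Set.Ioi 0)) :
    Integrable (Function.uncurry fun v u : ℝ => e v * GauLap_k c s u v)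
      ((volume.restrict (Set.Ioi (0 : ℝ))).prod (volume.restrict (Set.Ioi (0 : ℝ)))) := by
  have hm : Measurable (Function.uncurry fun v u : ℝ => e v * GauLap_k c s u v) := by
    have h2 : Measurable fun p : ℝ × ℝ => e p.1 := he.comp measurable_fst
    unfold GauLap_k
    exact h2.mul (by fun_prop)
  rw [integrable_prod_iff hm.aestronglyMeasurable]
  have hv : ∀ᵐ v : ℝ ∂(volume.restrict (Set.Ioi (0 : ℝ))), 0 < v :=
    ae_restrict_mem measurableSet_Ioi
  constructor
  · filter_upwards [hv] with v hv
    exact (ker_lap c v s hc hv hs).1.const_mul (e v)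
  · have h1 : Integrable (fun v : ℝ => ‖e v * Real.exp (-(s * v))‖ / (1 + c * s))
        (volume.restrict (Set.Ioi (0 : ℝ))) := hint.norm.div_const _
    refine h1.congr ?_
    filter_upwards [hv] with v hv
    have h2 : ∀ u : ℝ, ‖e v * GauLap_k c s u v‖ = |e v| * GauLap_k c s u v := by
      intro u
      have h3 : 0 ≤ GauLap_k c s u v := by
        unfold GauLap_k
        positivity
      rw [norm_mul, Real.norm_eq_abs, Real.norm_of_nonneg h3]
    simp only [Function.uncurry_apply_pair, h2]
    rw [integral_const_mul]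
    have h3 := (ker_lap c v s hc hv hs).2
    unfold GauLap_k
    rw [h3, norm_mul, Real.norm_eq_abs, Real.norm_of_nonneg (Real.exp_pos _).le]
    ring

/-- The Laplace transform of `u ↦ gm e c u` at `s + c s²/2` is the Laplace transform of `e` at `s` divided
by `1 + c s`: Fubini (`ker_lap` with `|e v|` gives absolute integrability over
`(0,∞) × (0,∞)`), `ker_lap`. -/
theorem gm_lap (e : ℝ → ℝ) (he : Measurable e) (c s : ℝ) (hc : 0 < c) (hs : 0 < s)
    (hint : IntegrableOn (fun v : ℝ => e v * Real.exp (-(s * v))) (Set.Ioi 0)) :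
    IntegrableOn (fun u : ℝ => gm e c u * Real.exp (-((s + c * s ^ 2 / 2) * u))) (Set.Ioi 0) ∧
    ∫ u in Set.Ioi (0 : ℝ), gm e c u * Real.exp (-((s + c * s ^ 2 / 2) * u)) =
      (∫ v in Set.Ioi (0 : ℝ), e v * Real.exp (-(s * v))) / (1 + c * s) := by
  have hI := GauLap_int e he c s hc hs hint
  simp only [GauLap_gm]
  refine ⟨hI.integral_prod_right, ?_⟩
  rw [← integral_integral_swap hI]
  rw [← integral_div]
  refine setIntegral_congr_fun measurableSet_Ioi fun v hv => ?_
  rw [integral_const_mul]
  have h3 := (ker_lap c v s hc hv hs).2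
  unfold GauLap_k
  rw [h3]
  ring

end W3283g
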