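import Pool.Agent.W_3283e1_h53.FinH1

set_option autoImplicit false

namespace W3283g

open Complex W3283e1 W3283f MeasureTheory Filter Topology

/-- The level of `s`: the real part of `s + c s²/2`. -/
noncomputable def lev (c : ℝ) (s : ℂ) : ℝ := s.re + c * (s.re ^ 2 - s.im ^ 2) / 2

theorem lev_re (c : ℝ) (s : ℂ) : (s + c * s ^ 2 / 2).re = lev c s := by
  have e2 : s + c * s ^ 2 / 2 = s + ((c / 2 : ℝ) : ℂ) * (s * s) := by
    push_cast; ring
  rw [e2, Complex.add_re, Complex.re_ofReal_mul, Complex.mul_re]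
  unfold lev
  ring

theorem lev_open (c lam : ℝ) : IsOpen {s : ℂ | 0 < s.re ∧ lam < lev c s} := by
  have h1 : Continuous (lev c) := by
    unfold lev
    have := Complex.continuous_re
    have := Complex.continuous_im
    fun_prop
  exact (isOpen_lt continuous_const Complex.continuous_re).inter (isOpen_lt continuous_const h1)

theorem lev_iff {c lam β : ℝ} (hc : 0 < c)
    (hβ2 : β ^ 2 = (1 / c) ^ 2 + 2 * (1 / c) * lam) {s : ℂ} (h0 : 0 < s.re) :
    lam < lev c s ↔ ‖((s.im : ℂ) + (β : ℝ) * I)‖ < s.re + 1 / c := by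
  have hb : 0 < 1 / c := by positivity
  rw [Complex.norm_add_mul_I, Real.sqrt_lt' (by positivity), hβ2]
  have h1 : c / 2 * ((s.re + 1 / c) ^ 2 - (s.im ^ 2 + ((1 / c) ^ 2 + 2 * (1 / c) * lam))) =
      lev c s - lam := by
    unfold lev
    field_simp
    ring
  have h2 : 0 < c / 2 := by positivity
  constructor
  · intro h
    have h3 : 0 < c / 2 * ((s.re + 1 / c) ^ 2 - (s.im ^ 2 + ((1 / c) ^ 2 + 2 * (1 / c) * lam))) := by
      rw [h1]; linarith
    have h4 := (mul_pos_iff_of_pos_left h2).1 h3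
    linarith
  · intro h
    have h3 := mul_pos h2 (sub_pos.2 h)
    rw [h1] at h3
    linarith

theorem lev_convex {c lam : ℝ} (hc : 0 < c) (hlam : -1 ≤ 2 * c * lam) :
    Convex ℝ {s : ℂ | 0 < s.re ∧ lam < lev c s} := by
  have hb : 0 < 1 / c := by positivity
  have ha : 0 ≤ (1 / c) ^ 2 + 2 * (1 / c) * lam := by
    have e : (1 / c) ^ 2 + 2 * (1 / c) * lam = (1 / c) ^ 2 * (1 + 2 * c * lam) := by
      field_simp
    rw [e]
    have : 0 ≤ 1 + 2 * c * lam := by linarith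
    positivity
  set β := Real.sqrt ((1 / c) ^ 2 + 2 * (1 / c) * lam) with hβ
  have hβ2 : β ^ 2 = (1 / c) ^ 2 + 2 * (1 / c) * lam := Real.sq_sqrt ha
  intro x hx y hy p q hp hq hpq
  have hx0 : 0 < x.re := hx.1
  have hy0 : 0 < y.re := hy.1
  have hx2 := (lev_iff hc hβ2 hx0).1 hx.2
  have hy2 := (lev_iff hc hβ2 hy0).1 hy.2
  have hre : (p • x + q • y).re = p * x.re + q * y.re := by
    simp
  have him : (p • x + q • y).im = p * x.im + q * y.im := by
    simp
  have h1 : 0 < (p • x + q • y).re := by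
    rw [hre]
    rcases hp.eq_or_lt with rfl | hp
    · have hq1 : q = 1 := by linarith
      subst hq1
      simpa using hy0
    · have e1 := mul_pos hp hx0
      have e2 := mul_nonneg hq hy0.le
      linarith
  refine ⟨h1, ?_⟩
  rw [lev_iff hc hβ2 h1, hre, him]
  have e3 : (((p * x.im + q * y.im : ℝ) : ℂ) + ((β : ℝ) : ℂ) * I) =
      (p : ℂ) * ((x.im : ℂ) + ((β : ℝ) : ℂ) * I) +
        (q : ℂ) * ((y.im : ℂ) + ((β : ℝ) : ℂ) * I) := by
    have e4 : (p : ℂ) + (q : ℂ) = 1 := by exact_mod_cast hpq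
    push_cast
    linear_combination (-(β : ℂ) * I) * e4
  rw [e3]
  have e5 := norm_add_le ((p : ℂ) * ((x.im : ℂ) + ((β : ℝ) : ℂ) * I))
    ((q : ℂ) * ((y.im : ℂ) + ((β : ℝ) : ℂ) * I))
  rw [norm_mul, norm_mul, Complex.norm_real, Complex.norm_real, Real.norm_of_nonneg hp,
    Real.norm_of_nonneg hq] at e5
  refine lt_of_le_of_lt e5 ?_
  have e6 : p * x.re + q * y.re + 1 / c = p * (x.re + 1 / c) + q * (y.re + 1 / c) := by
    linear_combination (-(1 / c)) * hpq
  rw [e6]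
  rcases hp.eq_or_lt with rfl | hp
  · have hq1 : q = 1 := by linarith
    subst hq1
    simpa using hy2
  · have e1 := mul_lt_mul_of_pos_left hx2 hp
    have e2 := mul_le_mul_of_nonneg_left hy2.le hq
    linarith

/-- A real point in the region. -/
theorem lev_pt (c lam : ℝ) (hc : 0 < c) :
    (((|lam| + 1 : ℝ)) : ℂ) ∈ {s : ℂ | 0 < s.re ∧ lam < lev c s} := by
  have h1 := abs_nonneg lam
  have h2 := le_abs_self lam
  refine ⟨by rw [Complex.ofReal_re]; linarith, ?_⟩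
  unfold lev
  rw [Complex.ofReal_re, Complex.ofReal_im]
  have h3 : 0 ≤ c * (|lam| + 1) ^ 2 := by positivity
  have h4 : c * ((|lam| + 1) ^ 2 - 0 ^ 2) / 2 = c * (|lam| + 1) ^ 2 / 2 := by ring
  rw [h4]
  linarith

/-- The region criterion for a general convex region, as `reg_crit`. -/
theorem reg_gen (α : ℕ → ℂ) (L W : ℂ → ℂ) (hD : DataF α L W) (Ω : Set ℂ) (ho : IsOpen Ω)
    (hcv : Convex ℝ Ω) (hpos : ∀ s ∈ Ω, 0 < s.re) (x0 : ℝ) (hx0 : 1 / 2 < x0)
    (hx0Ω : (x0 : ℂ) ∈ Ω) (Gt : ℂ → ℂ) (hG : DifferentiableOn ℂ Gt Ω)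
    (hGG : ∀ σ : ℝ, 1 / 2 < σ → (σ : ℂ) ∈ Ω → Gt σ = GG α σ) (s : ℂ) (hs : s ∈ Ω) :
    L (1 + s) ≠ 0 := by
  obtain ⟨Q, hQ, hid⟩ := QF_exists α L W hD
  have ho1 : IsOpen {s : ℂ | 1 / 2 < s.re} := isOpen_lt continuous_const Complex.continuous_re
  have ho2 : IsOpen (Ω ∩ {s : ℂ | 1 / 2 < s.re}) := ho.inter ho1
  have hcv2 : Convex ℝ (Ω ∩ {s : ℂ | 1 / 2 < s.re}) := hcv.inter (convex_halfSpace_re_gt (1 / 2))
  have hmem2 : (x0 : ℂ) ∈ Ω ∩ {s : ℂ | 1 / 2 < s.re} :=
    ⟨hx0Ω, by change 1 / 2 < ((x0 : ℝ) : ℂ).re; rw [Complex.ofReal_re]; exact hx0⟩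
  have hA1 : AnalyticOnNhd ℂ Gt (Ω ∩ {s : ℂ | 1 / 2 < s.re}) := fun z hz =>
    hG.analyticAt (ho.mem_nhds hz.1)
  have hA2 : AnalyticOnNhd ℂ (GG α) (Ω ∩ {s : ℂ | 1 / 2 < s.re}) := by
    have hd : DifferentiableOn ℂ (GG α) (Ω ∩ {s : ℂ | 1 / 2 < s.re}) :=
      fun z hz => (GauBwd_GG α hD.norm_α z hz.2).differentiableWithinAt
    exact hd.analyticOnNhd ho2
  have ht : Tendsto (fun σ : ℝ => (σ : ℂ)) (𝓝[≠] x0) (𝓝[≠] (x0 : ℂ)) := by
    refine tendsto_nhdsWithin_of_tendsto_nhds_of_eventually_within _ ?_ ?_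
    · exact (Complex.continuous_ofReal.tendsto x0).mono_left nhdsWithin_le_nhds
    · filter_upwards [self_mem_nhdsWithin] with σ hσ hσ1
      have h5 : (σ : ℂ) = x0 := hσ1
      have h6 : σ = x0 := by exact_mod_cast h5
      exact hσ h6
  have hfr : ∃ᶠ z in 𝓝[≠] (x0 : ℂ), Gt z = GG α z := by
    refine ht.frequently (Eventually.frequently ?_)
    have h3 : ∀ᶠ σ : ℝ in 𝓝 x0, 1 / 2 < σ := lt_mem_nhds hx0
    have h4 : ∀ᶠ σ : ℝ in 𝓝 x0, (σ : ℂ) ∈ Ω :=
      (Complex.continuous_ofReal.tendsto x0).eventually (ho.mem_nhds hx0Ω)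
    filter_upwards [nhdsWithin_le_nhds h3, nhdsWithin_le_nhds h4] with σ hσ hσ'
    exact hGG σ hσ hσ'
  have hEq : Set.EqOn Gt (GG α) (Ω ∩ {s : ℂ | 1 / 2 < s.re}) :=
    hA1.eqOn_of_preconnected_of_frequently_eq hA2 hcv2.isPreconnected hmem2 hfr
  have hf : AnalyticOnNhd ℂ (fun s => (L (1 + s)) ^ 2 * Complex.exp (2 * Gt s)) Ω := by
    intro z hz
    exact ((GauBwd_L L hD.L_diff z (hpos z hz)).pow 2).mul
      (analyticAt_const.mul (hG.analyticAt (ho.mem_nhds hz))).cexp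
  have hg : AnalyticOnNhd ℂ Q Ω := fun z hz => (hQ z (le_of_lt (hpos z hz))).1
  have he : (fun s => (L (1 + s)) ^ 2 * Complex.exp (2 * Gt s)) =ᶠ[nhds (x0 : ℂ)] Q := by
    filter_upwards [ho2.mem_nhds hmem2] with z hz
    rw [hEq hz]
    exact hid z hz.2
  have hfin := hf.eqOn_of_preconnected_of_eventuallyEq hg hcv.isPreconnected hx0Ω he hs
  intro hL0
  apply (hQ s (hpos s hs).le).2
  rw [← hfin]
  simp only
  rw [hL0]
  ring

/-- Integrability of the Gaussian mean against `e^{-σu}`, `σ > lam`. -/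
theorem gm_int_lev (α : ℕ → ℂ) (hα : ∀ p : ℕ, p.Prime → p ≠ 2 → ‖α p‖ ^ 2 = p) (κ0 : ℝ) (r : ℕ)
    (c : ℝ) (hc : 0 < c) (lam : ℝ)
    (h : ∀ ε : ℝ, 0 < ε → ∃ K : ℝ, ∀ u : ℝ, 1 ≤ u →
      |gm (er α κ0 r) c u| ≤ K * Real.exp ((lam + ε) * u)) (σ : ℝ) (hσ : lam < σ) :
    IntegrableOn (fun u : ℝ => gm (er α κ0 r) c u * Real.exp (-(σ * u))) (Set.Ioi 0) := by
  set e := er α κ0 r with he
  have hem : Measurable e := er_meas α κ0 r
  have hgm : Measurable (gm e c) := gm_meas e hem c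
  have hm : Measurable (fun u : ℝ => gm e c u * Real.exp (-(σ * u))) :=
    hgm.mul (by fun_prop)
  have hi := (gm_lap e hem c 1 hc one_pos (er_int α hα κ0 r 1 (by norm_num))).1
  rw [← Set.Ioc_union_Ioi_eq_Ioi (zero_le_one' ℝ)]
  refine IntegrableOn.union ?_ ?_
  · have h1 := hi.mono_set (Set.Ioc_subset_Ioi_self : Set.Ioc (0 : ℝ) 1 ⊆ Set.Ioi 0)
    refine Integrable.mono' (h1.norm.const_mul (Real.exp |1 + c / 2 - σ|))
      hm.aestronglyMeasurable ?_
    refine (ae_restrict_iff' measurableSet_Ioc).2 (Eventually.of_forall fun u hu => ?_)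
    have e1 : Real.exp (-(σ * u)) =
        Real.exp ((1 + c / 2 - σ) * u) * Real.exp (-((1 + c * 1 ^ 2 / 2) * u)) := by
      rw [← Real.exp_add]
      congr 1
      ring
    have e2 : (1 + c / 2 - σ) * u ≤ |1 + c / 2 - σ| := by
      have h3 := le_abs_self (1 + c / 2 - σ)
      have h4 := abs_nonneg (1 + c / 2 - σ)
      nlinarith [hu.1, hu.2]
    rw [e1, mul_left_comm, norm_mul]
    refine mul_le_mul_of_nonneg_right ?_ (norm_nonneg _)
    rw [Real.norm_eq_abs, abs_of_pos (Real.exp_pos _)]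
    exact Real.exp_le_exp.2 e2
  · obtain ⟨K, hK⟩ := h ((σ - lam) / 2) (by linarith)
    have h1 : IntegrableOn (fun u : ℝ => K * Real.exp (-((σ - lam) / 2) * u)) (Set.Ioi 1) :=
      (integrableOn_exp_mul_Ioi (by linarith) 1).const_mul K
    refine Integrable.mono' h1 hm.aestronglyMeasurable ?_
    refine (ae_restrict_iff' measurableSet_Ioi).2 (Eventually.of_forall fun u hu => ?_)
    have hu1 : (1 : ℝ) ≤ u := le_of_lt hu
    have e1 : K * Real.exp (-((σ - lam) / 2) * u) =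
        K * Real.exp ((lam + (σ - lam) / 2) * u) * Real.exp (-(σ * u)) := by
      rw [mul_assoc, ← Real.exp_add]
      congr 2
      ring
    rw [e1, norm_mul, Real.norm_eq_abs, Real.norm_eq_abs, abs_of_pos (Real.exp_pos _)]
    exact mul_le_mul_of_nonneg_right (hK u hu1) (Real.exp_pos _).le

/-- A bound for the means excludes zeros: any level `lam ≥ -1/(2c)`. -/
theorem lev_bwd (α : ℕ → ℂ) (L W : ℂ → ℂ) (hD : DataR α L W) (κ0 : ℝ) (r : ℕ) (c : ℝ)
    (hc : 0 < c) (lam : ℝ) (hlam : -1 ≤ 2 * c * lam)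
    (h : ∀ ε : ℝ, 0 < ε → ∃ K : ℝ, ∀ u : ℝ, 1 ≤ u →
      |gm (er α κ0 r) c u| ≤ K * Real.exp ((lam + ε) * u)) (s : ℂ) (h0 : 0 < s.re)
    (h1 : lam < lev c s) : L (1 + s) ≠ 0 := by
  have hα := hD.norm_α
  have hint := gm_int_lev α hα κ0 r c hc lam h
  set e := er α κ0 r with he
  have hem : Measurable e := er_meas α κ0 r
  have hgm : Measurable (gm e c) := gm_meas e hem c
  have hM := lap_diff (fun u : ℝ => gm e c u * Real.exp (-(lam * u))) (hgm.mul (by fun_prop))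
    (fun σ hσ => by
      refine (hint (lam + σ) (by linarith)).congr_fun ?_ measurableSet_Ioi
      intro u _
      simp only
      rw [mul_assoc, ← Real.exp_add]
      congr 2
      ring)
  have hoM : IsOpen {s : ℂ | 0 < s.re} := isOpen_lt continuous_const Complex.continuous_re
  set M : ℂ → ℂ := fun s : ℂ =>
    ∫ v in Set.Ioi (0 : ℝ), ((gm e c v * Real.exp (-(lam * v)) : ℝ) : ℂ) *
      Complex.exp (-(s * v)) with hMdef
  refine reg_gen α L W hD.toDataF {s : ℂ | 0 < s.re ∧ lam < lev c s} (lev_open c lam)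
    (lev_convex hc hlam) (fun s hs => hs.1) (|lam| + 1) (by have := abs_nonneg lam; linarith)
    (lev_pt c lam hc) (fun s => s * (1 + c * s) * M (s + c * s ^ 2 / 2 - lam) -
      r * ((Real.eulerMascheroniConstant : ℂ) + Complex.log s) + κ0) ?_ ?_ s ⟨h0, h1⟩
  · intro z hz
    have hz0 : 0 < z.re := hz.1
    have hre : 0 < (z + c * z ^ 2 / 2 - lam).re := by
      rw [Complex.sub_re, lev_re, Complex.ofReal_re]
      have := hz.2
      linarith
    have d1 : DifferentiableAt ℂ M (z + c * z ^ 2 / 2 - lam) :=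
      hM.differentiableAt (hoM.mem_nhds hre)
    have d2 : DifferentiableAt ℂ (fun s : ℂ => s + c * s ^ 2 / 2 - lam) z := by fun_prop
    have d3 : DifferentiableAt ℂ (fun s : ℂ => M (s + c * s ^ 2 / 2 - lam)) z :=
      DifferentiableAt.comp z (g := M) (f := fun s : ℂ => s + c * s ^ 2 / 2 - lam) d1 d2
    have d4 : DifferentiableAt ℂ Complex.log z :=
      (Complex.hasStrictDerivAt_log (Or.inl hz0)).hasDerivAt.differentiableAt
    have d5 : DifferentiableAt ℂ (fun s : ℂ => s * (1 + c * s)) z := by fun_prop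
    exact (((d5.mul d3).sub (((differentiableAt_const _).add d4).const_mul _)).add
      (differentiableAt_const _)).differentiableWithinAt
  · intro σ hσ _
    have hσ0 : 0 < σ := by linarith
    have hg := (gm_lap e hem c σ hc hσ0 (er_int α hα κ0 r σ hσ)).2
    have ht := er_transform α hα κ0 r (σ : ℂ) (by rw [Complex.ofReal_re]; exact hσ)
    have hr1 : M ((σ : ℂ) + c * (σ : ℂ) ^ 2 / 2 - lam) =
        ((∫ u in Set.Ioi (0 : ℝ), gm e c u * Real.exp (-((σ + c * σ ^ 2 / 2) * u)) : ℝ) : ℂ) := by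
      rw [← integral_complex_ofReal]
      simp only [hMdef]
      refine integral_congr_ae (Eventually.of_forall fun u => ?_)
      simp only
      push_cast
      rw [mul_assoc, ← Complex.exp_add]
      congr 2
      ring
    have hr2 : (∫ u in Set.Ioi (0 : ℝ), (e u : ℂ) * Complex.exp (-((σ : ℂ) * u))) =
        ((∫ u in Set.Ioi (0 : ℝ), e u * Real.exp (-(σ * u)) : ℝ) : ℂ) := by
      rw [← integral_complex_ofReal]
      refine integral_congr_ae (Eventually.of_forall fun u => ?_)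
      simp only
      push_cast
      rfl
    rw [hr2] at ht
    change (σ : ℂ) * (1 + c * σ) * M ((σ : ℂ) + c * (σ : ℂ) ^ 2 / 2 - lam) -
      r * ((Real.eulerMascheroniConstant : ℂ) + Complex.log σ) + κ0 = GG α σ
    rw [hr1, hg]
    have hne : (1 : ℂ) + c * σ ≠ 0 := by
      have : (1 : ℝ) + c * σ ≠ 0 := by positivity
      exact_mod_cast this
    push_cast at ht ⊢
    have e1 : (σ : ℂ) * (1 + c * σ) *
        (((∫ v in Set.Ioi (0 : ℝ), e v * Real.exp (-(σ * v)) : ℝ) : ℂ) / (1 + c * σ)) =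
        σ * ((∫ v in Set.Ioi (0 : ℝ), e v * Real.exp (-(σ * v)) : ℝ) : ℂ) := by
      rw [mul_assoc, mul_div_cancel₀ _ hne]
    rw [e1]
    linear_combination ht

end W3283g
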