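import Pool.Agent.W_3283e1_h53.GauLaw

set_option autoImplicit false

namespace W3283g

open Complex W3283e1 W3283f MeasureTheory Filter Topology

/-- The path on the level `lam > 0`. -/
theorem lev_path (σ0 c lam : ℝ) (hc : 0 < c) (hlam : 0 < lam) (hσ0 : 0 < σ0)
    (hσ : lam < σ0 + c * σ0 ^ 2 / 2) :
    ∃ (T : ℝ) (h h' : ℝ → ℝ), 0 < T ∧ h T = σ0 ∧ h (-T) = σ0 ∧
      (∀ t : ℝ, HasDerivAt h (h' t) t) ∧ Continuous h' ∧ (∀ t : ℝ, |h' t| ≤ 1) ∧
      (∀ t : ℝ, h t + c * ((h t) ^ 2 - t ^ 2) / 2 = lam) ∧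
      (∀ t : ℝ, 0 < h t) ∧ ∀ t ∈ Set.Icc (-T) T, lam ≤ σ0 + c * (σ0 ^ 2 - t ^ 2) / 2 := by
  obtain ⟨b, hb0, hbc⟩ : ∃ b : ℝ, 0 < b ∧ b * c = 1 :=
    ⟨1 / c, by positivity, by field_simp⟩
  obtain ⟨a, ha⟩ : ∃ a : ℝ, a = b ^ 2 + 2 * b * lam := ⟨_, rfl⟩
  have hbl : 0 < b * lam := by positivity
  have hab : b ^ 2 < a := by rw [ha]; linarith
  have ha0 : 0 < a := by
    have : 0 < b ^ 2 := by positivity
    linarith
  have hpos : ∀ t : ℝ, 0 < t ^ 2 + a := fun t => by positivity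
  have hkey : (σ0 + b) ^ 2 - a = 2 * b * (σ0 + c * σ0 ^ 2 / 2 - lam) := by
    rw [ha]
    have e1 : 2 * b * (σ0 + c * σ0 ^ 2 / 2 - lam) =
        2 * b * σ0 + (b * c) * σ0 ^ 2 - 2 * b * lam := by ring
    rw [e1, hbc]
    ring
  obtain ⟨T, hT, hTs⟩ : ∃ T : ℝ, 0 < T ∧ T ^ 2 = (σ0 + b) ^ 2 - a := by
    have h1 : 0 < (σ0 + b) ^ 2 - a := by
      rw [hkey]
      have : 0 < σ0 + c * σ0 ^ 2 / 2 - lam := by linarith
      positivity
    exact ⟨Real.sqrt ((σ0 + b) ^ 2 - a), Real.sqrt_pos.2 h1, Real.sq_sqrt h1.le⟩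
  refine ⟨T, fun t => Real.sqrt (t ^ 2 + a) - b, fun t => t / Real.sqrt (t ^ 2 + a), hT,
    ?_, ?_, ?_, ?_, ?_, ?_, ?_, ?_⟩
  · have : T ^ 2 + a = (σ0 + b) ^ 2 := by rw [hTs]; ring
    simp only [this]
    rw [Real.sqrt_sq (by positivity)]
    ring
  · have : (-T) ^ 2 + a = (σ0 + b) ^ 2 := by rw [neg_sq, hTs]; ring
    simp only [this]
    rw [Real.sqrt_sq (by positivity)]
    ring
  · intro t
    have h1 : HasDerivAt (fun t : ℝ => t ^ 2 + a) (2 * t) t := by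
      simpa using ((hasDerivAt_id t).pow 2).add_const a
    have h2 := (h1.sqrt (hpos t).ne').sub_const b
    refine h2.congr_deriv ?_
    have := Real.sqrt_pos.2 (hpos t)
    field_simp
  · refine Continuous.div continuous_id ?_ fun t => (Real.sqrt_pos.2 (hpos t)).ne'
    fun_prop
  · intro t
    have h1 := Real.sqrt_pos.2 (hpos t)
    simp only [abs_div, abs_of_pos h1]
    rw [div_le_one h1]
    refine Real.abs_le_sqrt ?_
    linarith
  · intro t
    have h1 : Real.sqrt (t ^ 2 + a) ^ 2 = t ^ 2 + a := Real.sq_sqrt (hpos t).le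
    have h2 : (Real.sqrt (t ^ 2 + a) - b) ^ 2 - t ^ 2 =
        2 * b ^ 2 + 2 * b * lam - 2 * b * Real.sqrt (t ^ 2 + a) := by
      rw [sub_sq, h1, ha]
      ring
    simp only []
    rw [h2]
    have h3 : c * (2 * b ^ 2 + 2 * b * lam - 2 * b * Real.sqrt (t ^ 2 + a)) / 2 =
        (b * c) * (b + lam - Real.sqrt (t ^ 2 + a)) := by ring
    rw [h3, hbc]
    ring
  · intro t
    simp only []
    have h1 : b < Real.sqrt (t ^ 2 + a) := by
      rw [Real.lt_sqrt hb0.le]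
      nlinarith [sq_nonneg t]
    linarith
  · intro t ht
    have h1 : t ^ 2 ≤ T ^ 2 := sq_le_sq' (by linarith [ht.1]) ht.2
    have h2 : c * T ^ 2 = 2 * (b * c) * (σ0 + c * σ0 ^ 2 / 2 - lam) := by rw [hTs, hkey]; ring
    rw [hbc] at h2
    have h3 : c * t ^ 2 ≤ c * T ^ 2 := mul_le_mul_of_nonneg_left h1 hc.le
    have h4 : σ0 + c * (σ0 ^ 2 - t ^ 2) / 2 = σ0 + c * σ0 ^ 2 / 2 - c * t ^ 2 / 2 := by ring
    rw [h4]
    linarith

/-- The bound of the Gaussian means by a path: the proof of `gau_dec` for a given path. -/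
theorem gau_gen (e : ℝ → ℝ) (he : Measurable e) (σ0 c : ℝ) (hc : 0 < c)
    (hint : IntegrableOn (fun v : ℝ => e v * Real.exp (-(σ0 * v))) (Set.Ioi 0))
    (U : Set ℂ) (hU : IsOpen U) (hUc : Convex ℝ U)
    (E : ℂ → ℂ) (hE : DifferentiableOn ℂ E U)
    (hEe : ∀ t : ℝ, (σ0 : ℂ) + t * I ∈ U → E ((σ0 : ℂ) + t * I) =
      ∫ v in Set.Ioi (0 : ℝ), (e v : ℂ) * Complex.exp (-(((σ0 : ℂ) + t * I) * v)))
    (κ T : ℝ) (h h' : ℝ → ℝ) (hT : 0 < T) (hhT : h T = σ0) (hhmT : h (-T) = σ0)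
    (hder : ∀ t : ℝ, HasDerivAt h (h' t) t) (hcont : Continuous h') (hh1 : ∀ t : ℝ, |h' t| ≤ 1)
    (hid : ∀ t : ℝ, h t + c * ((h t) ^ 2 - t ^ 2) / 2 = -κ)
    (hpath : ∀ t ∈ Set.Icc (-T) T, (h t : ℂ) + t * I ∈ U)
    (hseg : ∀ t ∈ Set.Icc (-T) T, (σ0 : ℂ) + t * I ∈ U) :
    ∃ K : ℝ, ∀ u : ℝ, 1 ≤ u → |gm e c u| ≤ K * Real.exp (-(κ * u)) := by
  have hcp0 : ContinuousOn (fun t : ℝ => (h t : ℂ) + t * I) (Set.Icc (-T) T) := by
    refine ContinuousOn.add ?_ (by fun_prop)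
    exact continuous_ofReal.comp_continuousOn fun t _ => (hder t).continuousAt.continuousWithinAt
  have hcp : ContinuousOn (fun t : ℝ => E ((h t : ℂ) + t * I)) (Set.Icc (-T) T) :=
    hE.continuousOn.comp hcp0 hpath
  obtain ⟨M, hM⟩ := isCompact_Icc.exists_bound_of_continuousOn hcp
  have hM0 : 0 ≤ M := (norm_nonneg _).trans (hM T ⟨by linarith, le_rfl⟩)
  set N : ℝ := ∫ v in Set.Ioi (0 : ℝ), ‖e v * Real.exp (-(σ0 * v))‖ with hN
  have hN0 : 0 ≤ N := integral_nonneg fun v => norm_nonneg _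
  have hGi : Integrable (fun t : ℝ => Real.exp (-(c * (t ^ 2 - T ^ 2) / 2))) := by
    have h1 := (integrable_exp_neg_mul_sq (b := c / 2) (by positivity)).mul_const
      (Real.exp (c * T ^ 2 / 2))
    refine h1.congr (Eventually.of_forall fun t => ?_)
    simp only []
    rw [← Real.exp_add]
    congr 1
    ring
  set G : ℝ := ∫ t : ℝ, Real.exp (-(c * (t ^ 2 - T ^ 2) / 2)) with hG
  refine ⟨(2 * Real.pi)⁻¹ * (N * G + M * 2 * (2 * T)), fun u hu => ?_⟩
  have hu0 : 0 < u := by linarith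
  obtain ⟨-, hFi, hrep⟩ := gauss_rep e he σ0 hint (c * u) (by positivity) u
  set L : ℝ → ℂ := fun t => ∫ v in Set.Ioi (0 : ℝ),
    (e v : ℂ) * Complex.exp (-(((σ0 : ℂ) + t * I) * v)) with hL
  set F : ℝ → ℂ := fun t => L t *
    Complex.exp (((σ0 : ℂ) + t * I) * u + ((c * u : ℝ) : ℂ) * ((σ0 : ℂ) + t * I) ^ 2 / 2) with hF
  have hLN : ∀ t : ℝ, ‖L t‖ ≤ N := by
    intro t
    refine (norm_integral_le_integral_norm _).trans (le_of_eq ?_)
    refine integral_congr_ae (Eventually.of_forall fun v => ?_)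
    simp only [norm_mul, Complex.norm_exp, Complex.norm_real, Real.norm_eq_abs, Real.abs_exp]
    congr 2
    simp
  have hid0 : σ0 + c * (σ0 ^ 2 - T ^ 2) / 2 = -κ := by rw [← hid T, hhT]
  have hexp : ∀ t : ℝ, ‖Complex.exp (((σ0 : ℂ) + t * I) * u +
      ((c * u : ℝ) : ℂ) * ((σ0 : ℂ) + t * I) ^ 2 / 2)‖ =
      Real.exp (-(κ * u)) * Real.exp (-(u * (c * (t ^ 2 - T ^ 2) / 2))) := by
    intro t
    rw [Complex.norm_exp, ← Real.exp_add]
    congr 1
    have h1 : (((σ0 : ℂ) + t * I) * u + ((c * u : ℝ) : ℂ) * ((σ0 : ℂ) + t * I) ^ 2 / 2) =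
        ((u * (σ0 + c * (σ0 ^ 2 - t ^ 2) / 2) : ℝ) : ℂ) +
          ((u * (t + c * σ0 * t) : ℝ) : ℂ) * I := by
      push_cast
      linear_combination (c * u * t ^ 2 / 2 : ℂ) * Complex.I_sq
    rw [h1]
    simp only [add_re, ofReal_re, mul_re, I_re, mul_zero, ofReal_im, I_im, mul_one, sub_self,
      add_zero]
    have h2 : σ0 + c * (σ0 ^ 2 - t ^ 2) / 2 = -κ - c * (t ^ 2 - T ^ 2) / 2 := by
      rw [← hid0]; ring
    rw [h2]
    ring
  have hsplit : ∫ t : ℝ, F t = (∫ t in Set.Ioc (-T) T, F t) + ∫ t in (Set.Ioc (-T) T)ᶜ, F t :=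
    (integral_add_compl measurableSet_Ioc hFi).symm
  -- the far part
  have hfar : ‖∫ t in (Set.Ioc (-T) T)ᶜ, F t‖ ≤ N * Real.exp (-(κ * u)) * G := by
    have h1 : ∀ᵐ t ∂(volume.restrict (Set.Ioc (-T) T)ᶜ), ‖F t‖ ≤
        N * Real.exp (-(κ * u)) * Real.exp (-(c * (t ^ 2 - T ^ 2) / 2)) := by
      refine (ae_restrict_iff' measurableSet_Ioc.compl).2 (Eventually.of_forall fun t ht => ?_)
      have ht2 : T ^ 2 ≤ t ^ 2 := by
        rw [Set.mem_compl_iff, Set.mem_Ioc, not_and_or] at ht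
        rcases ht with ht | ht
        · have : t ≤ -T := not_lt.1 ht
          nlinarith
        · have : T < t := not_le.1 ht
          nlinarith
      rw [hF]
      simp only []
      rw [norm_mul, hexp, mul_assoc]
      refine mul_le_mul (hLN t) ?_ (by positivity) hN0
      refine mul_le_mul_of_nonneg_left ?_ (Real.exp_nonneg _)
      refine Real.exp_le_exp.2 (neg_le_neg ?_)
      have h2 : 0 ≤ c * (t ^ 2 - T ^ 2) / 2 := by
        have := mul_nonneg hc.le (sub_nonneg.2 ht2)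
        linarith
      nlinarith
    refine (norm_integral_le_of_norm_le ((hGi.const_mul _).restrict) h1).trans ?_
    rw [hG, ← integral_const_mul]
    refine setIntegral_le_integral (hGi.const_mul _) (Eventually.of_forall fun t => ?_)
    positivity
  -- the near part
  have hnear : ‖∫ t in Set.Ioc (-T) T, F t‖ ≤ M * 2 * Real.exp (-(κ * u)) * (2 * T) := by
    set Q : ℂ → ℂ := fun s => E s * Complex.exp (s * u + ((c * u : ℝ) : ℂ) * s ^ 2 / 2) with hQ
    have hQd : DifferentiableOn ℂ Q U := by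
      refine hE.mul ?_
      refine DifferentiableOn.cexp ?_
      fun_prop
    have h1 := path_eq U hU hUc Q hQd σ0 T hT.le h h' (fun t _ => hder t) hcont.continuousOn
      hhT hhmT hpath hseg
    have h2 : (∫ t in Set.Ioc (-T) T, F t) * I = ∫ t in (-T)..T, Q ((σ0 : ℂ) + t * I) * I := by
      rw [intervalIntegral.integral_mul_const, intervalIntegral.integral_of_le (by linarith)]
      congr 1
      refine setIntegral_congr_fun measurableSet_Ioc fun t ht => ?_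
      have := hEe t (hseg t ⟨ht.1.le, ht.2⟩)
      simp only [hF, hQ, hL]
      rw [this]
    have h3 : ‖(∫ t in Set.Ioc (-T) T, F t)‖ = ‖(∫ t in Set.Ioc (-T) T, F t) * I‖ := by
      rw [norm_mul, Complex.norm_I, mul_one]
    rw [h3, h2, h1]
    have h4 : ∀ t ∈ Set.uIoc (-T) T, ‖Q ((h t : ℂ) + t * I) * ((h' t : ℂ) + I)‖ ≤
        M * 2 * Real.exp (-(κ * u)) := by
      intro t ht
      rw [Set.uIoc_of_le (by linarith)] at ht
      have ht' : t ∈ Set.Icc (-T) T := ⟨ht.1.le, ht.2⟩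
      have h5 : ‖(h' t : ℂ) + I‖ ≤ 2 := by
        refine (norm_add_le _ _).trans ?_
        rw [Complex.norm_real, Complex.norm_I, Real.norm_eq_abs]
        linarith [hh1 t]
      have h6 : ‖Complex.exp (((h t : ℂ) + t * I) * u +
          ((c * u : ℝ) : ℂ) * ((h t : ℂ) + t * I) ^ 2 / 2)‖ = Real.exp (-(κ * u)) := by
        rw [Complex.norm_exp]
        congr 1
        have h7 : (((h t : ℂ) + t * I) * u + ((c * u : ℝ) : ℂ) * ((h t : ℂ) + t * I) ^ 2 / 2) =
            ((u * (h t + c * ((h t) ^ 2 - t ^ 2) / 2) : ℝ) : ℂ) +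
              ((u * (t + c * h t * t) : ℝ) : ℂ) * I := by
          push_cast
          linear_combination (c * u * t ^ 2 / 2 : ℂ) * Complex.I_sq
        rw [h7, hid t]
        simp only [add_re, ofReal_re, mul_re, I_re, mul_zero, ofReal_im, I_im, mul_one, sub_self,
          add_zero]
        ring
      simp only [hQ]
      rw [norm_mul, norm_mul, h6]
      calc ‖E ((h t : ℂ) + t * I)‖ * Real.exp (-(κ * u)) * ‖(h' t : ℂ) + I‖
          ≤ M * Real.exp (-(κ * u)) * 2 := by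
            refine mul_le_mul (mul_le_mul_of_nonneg_right (hM t ht') (Real.exp_nonneg _)) h5
              (norm_nonneg _) (by positivity)
        _ = M * 2 * Real.exp (-(κ * u)) := by ring
    refine (intervalIntegral.norm_integral_le_of_norm_le_const h4).trans (le_of_eq ?_)
    rw [sub_neg_eq_add, abs_of_pos (by linarith)]
    ring
  -- assembly
  have hnorm : |∫ v in Set.Ioi (0 : ℝ), e v * Real.exp (-(v - u) ^ 2 / (2 * (c * u)))| =
      Real.sqrt (c * u / (2 * Real.pi)) * ‖∫ t : ℝ, F t‖ := by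
    have h1 := congrArg norm hrep
    rw [norm_mul, Complex.norm_real, Complex.norm_real, Real.norm_eq_abs, Real.norm_eq_abs,
      abs_of_nonneg (Real.sqrt_nonneg _)] at h1
    exact h1
  have hcoef : (Real.sqrt (2 * Real.pi * (c * u)))⁻¹ * Real.sqrt (c * u / (2 * Real.pi)) =
      (2 * Real.pi)⁻¹ := by
    have h1 : c * u / (2 * Real.pi) = (2 * Real.pi * (c * u)) / (2 * Real.pi) ^ 2 := by
      have := Real.pi_pos
      field_simp
    have h2 : 0 < Real.sqrt (2 * Real.pi * (c * u)) := Real.sqrt_pos.2 (by positivity)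
    rw [h1, Real.sqrt_div' _ (by positivity), Real.sqrt_sq (by positivity)]
    field_simp
  unfold gm
  rw [abs_mul, hnorm, abs_of_nonneg (inv_nonneg.2 (Real.sqrt_nonneg _)), ← mul_assoc, hcoef,
    mul_assoc]
  refine mul_le_mul_of_nonneg_left ?_ (by positivity)
  rw [hsplit]
  refine (norm_add_le _ _).trans ((add_le_add hnear hfar).trans (le_of_eq ?_))
  ring


/-- The continuation of `GG` to a convex region without zeros, as `Gt_exists`. -/
theorem Gt_gen (α : ℕ → ℂ) (L W : ℂ → ℂ) (hD : DataR α L W) (Ω : Set ℂ) (ho : IsOpen Ω)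
    (hcv : Convex ℝ Ω) (hpos : ∀ s ∈ Ω, 0 < s.re) (x0 : ℝ) (hx0 : 1 / 2 < x0)
    (hx0Ω : (x0 : ℂ) ∈ Ω) (hz : ∀ s ∈ Ω, s.re ≤ 1 / 2 → L (1 + s) ≠ 0) :
    ∃ Gt : ℂ → ℂ, DifferentiableOn ℂ Gt Ω ∧
      ∀ s ∈ Ω, 1 / 2 < s.re → Gt s = GG α s := by
  obtain ⟨Q, hQ, _, _, hid⟩ := Q_full α L W hD
  have hne : ∀ s ∈ Ω, L (1 + s) ≠ 0 := by
    intro s hs h0
    rcases le_or_gt s.re (1 / 2) with h6 | h6
    · exact hz s hs h6 h0
    · have h7 := hid s h6
      rw [h0] at h7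
      exact (hQ s (hpos s hs).le).2 (by rw [← h7]; ring)
  have hVc : IsPreconnected (Ω ∩ {s : ℂ | 1 / 2 < s.re}) :=
    (hcv.inter (convex_halfSpace_re_gt (1 / 2))).isPreconnected
  have hVn : (Ω ∩ {s : ℂ | 1 / 2 < s.re}).Nonempty :=
    ⟨(x0 : ℂ), hx0Ω, by change 1 / 2 < ((x0 : ℝ) : ℂ).re; rw [Complex.ofReal_re]; exact hx0⟩
  have c1 : AnalyticOnNhd ℂ (fun s => Q s / (L (1 + s)) ^ 2) Ω := by
    intro s hs
    exact (hQ s (hpos s hs).le).1.div ((NearR_L L hD.L_diff s (hpos s hs)).pow 2)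
      (pow_ne_zero 2 (hne s hs))
  have c2 : ∀ s ∈ Ω, (fun s => Q s / (L (1 + s)) ^ 2) s ≠ 0 := by
    intro s hs
    exact div_ne_zero (hQ s (hpos s hs).le).2 (pow_ne_zero 2 (hne s hs))
  have c3 : ContinuousOn (GG α) (Ω ∩ {s : ℂ | 1 / 2 < s.re}) := by
    intro s hs
    exact (NearR_GG α hD.norm_α s hs.2).continuousAt.continuousWithinAt
  have c4 : ∀ s ∈ Ω ∩ {s : ℂ | 1 / 2 < s.re},
      Complex.exp (2 * GG α s) = (fun s => Q s / (L (1 + s)) ^ 2) s := by
    intro s hs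
    change Complex.exp (2 * GG α s) = Q s / (L (1 + s)) ^ 2
    rw [← hid s hs.2, mul_div_cancel_left₀ _ (pow_ne_zero 2 (hne s hs.1))]
  obtain ⟨g, hg1, _, hg3⟩ := log_ext Ω (Ω ∩ {s : ℂ | 1 / 2 < s.re}) ho hcv hVc hVn
    Set.inter_subset_left (fun s => Q s / (L (1 + s)) ^ 2) (GG α) c1 c2 c3 c4
  exact ⟨g, hg1.differentiableOn, fun s hs hs2 => hg3 s ⟨hs, hs2⟩⟩

/-- No zeros above the level `lam ≥ 0` bounds the means. -/
theorem lev_fwd (α : ℕ → ℂ) (L W : ℂ → ℂ) (hD : DataR α L W) (κ0 : ℝ) (r : ℕ) (c : ℝ)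
    (hc : 0 < c) (lam : ℝ) (hlam : 0 ≤ lam)
    (hz : ∀ s : ℂ, 0 < s.re → s.re ≤ 1 / 2 → lam < lev c s → L (1 + s) ≠ 0) (lam' : ℝ)
    (hl : lam < lam') :
    ∃ K : ℝ, ∀ u : ℝ, 1 ≤ u → |gm (er α κ0 r) c u| ≤ K * Real.exp (lam' * u) := by
  have hα : ∀ p : ℕ, p.Prime → p ≠ 2 → ‖α p‖ ^ 2 = p := hD.norm_α
  obtain ⟨Gt, hGd, hGe⟩ := Gt_gen α L W hD {s : ℂ | 0 < s.re ∧ lam < lev c s} (lev_open c lam)
    (lev_convex hc (by nlinarith)) (fun s hs => hs.1) (|lam| + 1)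
    (by have := abs_nonneg lam; linarith) (lev_pt c lam hc) (fun s hs h2 => hz s hs.1 h2 hs.2)
  have hσ0 : 0 < lam' + 1 := by linarith
  have hσ : lam' < (lam' + 1) + c * (lam' + 1) ^ 2 / 2 := by
    have : 0 < c * (lam' + 1) ^ 2 := by positivity
    linarith
  obtain ⟨T, h, h', hT, hhT, hhmT, hder, hcont, hh1, hid, hp0, hseg⟩ :=
    lev_path (lam' + 1) c lam' hc (by linarith) hσ0 hσ
  have hlevpt : ∀ x t : ℝ, lev c ((x : ℂ) + t * I) = x + c * (x ^ 2 - t ^ 2) / 2 := by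
    intro x t
    unfold lev
    simp
  have hrept : ∀ x t : ℝ, ((x : ℂ) + t * I).re = x := by
    intro x t
    simp
  obtain ⟨K, hK⟩ := gau_gen (er α κ0 r) (er_meas α κ0 r) (lam' + 1) c hc
    (er_int α hα κ0 r (lam' + 1) (by linarith)) {s : ℂ | 0 < s.re ∧ lam < lev c s}
    (lev_open c lam) (lev_convex hc (by nlinarith))
    (fun s => (Gt s + r * ((Real.eulerMascheroniConstant : ℂ) + Complex.log s) - κ0) / s)
    (by
      intro z hzz
      have hz0 : 0 < z.re := hzz.1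
      have hzne : z ≠ 0 := fun h => by rw [h] at hz0; simp at hz0
      have d1 : DifferentiableAt ℂ Gt z := hGd.differentiableAt ((lev_open c lam).mem_nhds hzz)
      have d4 : DifferentiableAt ℂ Complex.log z :=
        (Complex.hasStrictDerivAt_log (Or.inl hz0)).hasDerivAt.differentiableAt
      exact (((d1.add (((differentiableAt_const _).add d4).const_mul _)).sub
        (differentiableAt_const _)).div differentiableAt_id hzne).differentiableWithinAt)
    (by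
      intro t ht
      set s : ℂ := ((lam' + 1 : ℝ) : ℂ) + t * I with hs
      have hre : s.re = lam' + 1 := hrept _ _
      have hs0 : s ≠ 0 := by
        intro h
        rw [h] at hre
        simp at hre
        linarith
      have h1 := er_transform α hα κ0 r s (by rw [hre]; linarith)
      rw [div_eq_iff hs0, hGe s ht (by rw [hre]; linarith), ← h1]
      ring)
    (-lam') T h h' hT hhT hhmT hder hcont hh1 (by intro t; rw [neg_neg]; exact hid t)
    (by
      intro t _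
      refine ⟨by rw [hrept]; exact hp0 t, ?_⟩
      rw [hlevpt, hid t]
      exact hl)
    (by
      intro t ht
      refine ⟨by rw [hrept]; exact hσ0, ?_⟩
      rw [hlevpt]
      exact lt_of_lt_of_le hl (hseg t ht))
  refine ⟨K, fun u hu => ?_⟩
  have := hK u hu
  rwa [neg_mul, neg_neg] at this

end W3283g
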