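import Mathlib

set_option autoImplicit false

namespace W3283g

open Filter Topology

/-- The limit superior from the growth law. -/
theorem limsup_law (M : ℝ → ℝ) (Z : Set ℝ) (y : ℝ) (hy : 0 ≤ y) (hyZ : y ∈ Z)
    (h1 : (∃ κ K : ℝ, 0 < κ ∧ ∀ U : ℝ, 1 ≤ U → |M U| ≤ K * Real.exp (-(κ * U))) →
      ∀ z ∈ Z, z < 0)
    (h2 : ∀ x : ℝ, 0 ≤ x → ((∀ ε : ℝ, 0 < ε → ∃ K : ℝ, ∀ U : ℝ, 1 ≤ U →
      |M U| ≤ K * Real.exp ((x + ε) * U)) ↔ ∀ z ∈ Z, z ≤ x))
    (hmax : ∀ z ∈ Z, z ≤ y) :
    Filter.limsup (fun U : ℝ => Real.log |M U| / U) Filter.atTop = y := by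
  have hup := (h2 y hy).2 hmax
  -- upper bounds
  have hev : ∀ δ : ℝ, 0 < δ → ∀ᶠ U : ℝ in atTop, Real.log |M U| / U ≤ y + δ := by
    intro δ hδ
    obtain ⟨K, hK⟩ := hup (δ / 2) (half_pos hδ)
    have hK1 : Tendsto (fun U : ℝ => Real.log (|K| + 1) / U) atTop (𝓝 0) :=
      tendsto_const_nhds.div_atTop tendsto_id
    filter_upwards [eventually_ge_atTop (1 : ℝ), hK1.eventually (gt_mem_nhds (half_pos hδ))]
      with U hU hU2
    have hU0 : 0 < U := by linarith
    rcases eq_or_ne (M U) 0 with h0 | h0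
    · rw [h0, abs_zero, Real.log_zero, zero_div]
      linarith
    · have h3 : |M U| ≤ (|K| + 1) * Real.exp ((y + δ / 2) * U) := by
        refine (hK U hU).trans (mul_le_mul_of_nonneg_right ?_ (Real.exp_pos _).le)
        have := le_abs_self K
        linarith
      have h4 := Real.log_le_log (abs_pos.2 h0) h3
      have hK0 : 0 < |K| + 1 := by positivity
      rw [Real.log_mul hK0.ne' (Real.exp_pos _).ne', Real.log_exp] at h4
      have h5 : Real.log |M U| / U ≤ (Real.log (|K| + 1) + (y + δ / 2) * U) / U :=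
        div_le_div_of_nonneg_right h4 hU0.le
      have h6 : (Real.log (|K| + 1) + (y + δ / 2) * U) / U =
          Real.log (|K| + 1) / U + (y + δ / 2) := by
        field_simp
      rw [h6] at h5
      linarith
  -- lower bounds
  have hfr : ∀ δ : ℝ, 0 < δ → ∃ᶠ U : ℝ in atTop, y - δ ≤ Real.log |M U| / U := by
    intro δ hδ hcon
    have hcon' : ∀ᶠ U : ℝ in atTop, Real.log |M U| / U < y - δ := by
      filter_upwards [hcon] with U hU
      exact not_le.1 hU
    obtain ⟨U0, hU0⟩ := hcon'.exists_forall_of_atTop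
    obtain ⟨K, hK⟩ := hup 1 one_pos
    set B : ℝ := |K| * Real.exp ((y + 1) * (|U0| + 1)) * Real.exp (|y - δ| * (|U0| + 1)) with hB
    have hbd : ∀ U : ℝ, 1 ≤ U → |M U| ≤ (B + 1) * Real.exp ((y - δ) * U) := by
      intro U hU
      have hUp : 0 < U := by linarith
      have hB0 : 0 ≤ B := by positivity
      rcases le_or_gt U0 U with h3 | h3
      · rcases eq_or_ne (M U) 0 with h0 | h0
        · rw [h0, abs_zero]
          positivity
        · have h4 := hU0 U h3
          rw [div_lt_iff₀ hUp] at h4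
          have h5 : |M U| ≤ Real.exp ((y - δ) * U) :=
            (Real.log_le_iff_le_exp (abs_pos.2 h0)).1 h4.le
          have h6 : 0 ≤ B * Real.exp ((y - δ) * U) := by positivity
          rw [add_mul, one_mul]
          linarith
      · have h4 : U ≤ |U0| + 1 := by
          have := le_abs_self U0
          linarith
        have h5 : |M U| ≤ |K| * Real.exp ((y + 1) * (|U0| + 1)) := by
          refine (hK U hU).trans ?_
          refine mul_le_mul (le_abs_self K) (Real.exp_le_exp.2 ?_) (Real.exp_pos _).le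
            (abs_nonneg _)
          exact mul_le_mul_of_nonneg_left h4 (by linarith)
        have h6 : 1 ≤ Real.exp (|y - δ| * (|U0| + 1)) * Real.exp ((y - δ) * U) := by
          rw [← Real.exp_add]
          refine Real.one_le_exp ?_
          have h7 : -|y - δ| ≤ y - δ := neg_abs_le _
          have h8 : |y - δ| * U ≤ |y - δ| * (|U0| + 1) :=
            mul_le_mul_of_nonneg_left h4 (abs_nonneg _)
          have h9 : -|y - δ| * U ≤ (y - δ) * U := mul_le_mul_of_nonneg_right h7 hUp.le
          linarith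
        have h7 : |K| * Real.exp ((y + 1) * (|U0| + 1)) ≤ B * Real.exp ((y - δ) * U) := by
          have h8 : 0 ≤ |K| * Real.exp ((y + 1) * (|U0| + 1)) := by positivity
          have h9 := mul_le_mul_of_nonneg_left h6 h8
          rw [hB]
          calc |K| * Real.exp ((y + 1) * (|U0| + 1))
              = |K| * Real.exp ((y + 1) * (|U0| + 1)) * 1 := by ring
            _ ≤ _ := h9
            _ = _ := by ring
        have h10 : 0 ≤ Real.exp ((y - δ) * U) := (Real.exp_pos _).le
        rw [add_mul, one_mul]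
        linarith
    rcases le_or_gt 0 (y - δ) with h3 | h3
    · have h4 := (h2 (y - δ) h3).1 (fun ε hε => ⟨B + 1, fun U hU => (hbd U hU).trans (by
        have hB0 : 0 ≤ B := by positivity
        refine mul_le_mul_of_nonneg_left (Real.exp_le_exp.2 ?_) (by linarith)
        have : 0 ≤ ε * U := by
          have : (0 : ℝ) ≤ U := by linarith
          positivity
        linarith)⟩) y hyZ
      linarith
    · have h4 := h1 ⟨-(y - δ), B + 1, by linarith, fun U hU => by
        have := hbd U hU
        rwa [neg_mul, neg_neg]⟩ y hyZ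
      linarith
  have hbdd : IsBoundedUnder (· ≤ ·) atTop (fun U : ℝ => Real.log |M U| / U) :=
    ⟨y + 1, by simpa using hev 1 one_pos⟩
  have hcob : IsCoboundedUnder (· ≤ ·) atTop (fun U : ℝ => Real.log |M U| / U) :=
    IsCoboundedUnder.of_frequently_ge (hfr 1 one_pos)
  refine le_antisymm ?_ ?_
  · refine le_of_forall_pos_le_add fun δ hδ => ?_
    exact limsup_le_of_le hcob (hev δ hδ)
  · refine le_of_forall_sub_le fun δ hδ => ?_
    exact le_limsup_of_frequently_le (hfr δ hδ) hbdd

/-- A zero of the largest level. -/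
theorem lev_max (L : ℂ → ℂ) (hL : Continuous L) (hne : ∀ s : ℂ, 3 / 2 < s.re → L s ≠ 0) (A : ℝ)
    (hA : 0 < A) (s1 : ℂ) (h1 : 1 < s1.re) (hs1 : L s1 = 0)
    (hl : 0 ≤ (s1.re - 1) + A * ((s1.re - 1) ^ 2 - s1.im ^ 2) / 2) :
    ∃ s0 : ℂ, 1 < s0.re ∧ L s0 = 0 ∧
      0 ≤ (s0.re - 1) + A * ((s0.re - 1) ^ 2 - s0.im ^ 2) / 2 ∧
      ∀ s : ℂ, 1 < s.re → L s = 0 → (s.re - 1) + A * ((s.re - 1) ^ 2 - s.im ^ 2) / 2 ≤
        (s0.re - 1) + A * ((s0.re - 1) ^ 2 - s0.im ^ 2) / 2 := by
  set lv : ℂ → ℝ := fun s => (s.re - 1) + A * ((s.re - 1) ^ 2 - s.im ^ 2) / 2 with hlv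
  have hcont : Continuous lv := by
    have := Complex.continuous_re
    have := Complex.continuous_im
    rw [hlv]
    fun_prop
  -- the positive case
  have hpos : ∀ s2 : ℂ, 1 < s2.re → L s2 = 0 → 0 < lv s2 →
      ∃ s0 : ℂ, 1 < s0.re ∧ L s0 = 0 ∧ 0 ≤ lv s0 ∧ ∀ s : ℂ, 1 < s.re → L s = 0 → lv s ≤ lv s0 := by
    intro s2 h2 hs2 hl2
    set S : Set ℂ := {s : ℂ | 1 ≤ s.re ∧ s.re ≤ 3 / 2 ∧ L s = 0 ∧ lv s2 ≤ lv s} with hS
    have hSc : IsCompact S := by
      refine Metric.isCompact_of_isClosed_isBounded ?_ ?_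
      · exact (isClosed_le continuous_const Complex.continuous_re).inter
          ((isClosed_le Complex.continuous_re continuous_const).inter
            ((isClosed_eq hL continuous_const).inter (isClosed_le continuous_const hcont)))
      · rw [isBounded_iff_forall_norm_le]
        refine ⟨3 / 2 + (1 + 2 / A), ?_⟩
        rintro s ⟨a1, a2, _, a4⟩
        refine (Complex.norm_le_abs_re_add_abs_im s).trans ?_
        rw [abs_of_nonneg (by linarith : 0 ≤ s.re)]
        have b1 : |s.im| ≤ 1 + 2 / A := by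
          rw [← Real.sqrt_sq_eq_abs, Real.sqrt_le_iff]
          refine ⟨by positivity, ?_⟩
          have b2 : 0 ≤ lv s := by linarith
          simp only [hlv] at b2
          have b3 : A * s.im ^ 2 ≤ A * (s.re - 1) ^ 2 + 2 * (s.re - 1) := by linarith
          have b4 : (s.re - 1) ^ 2 ≤ 1 := by nlinarith
          have b5 : A * (s.re - 1) ^ 2 ≤ A * 1 := mul_le_mul_of_nonneg_left b4 hA.le
          have b6 : A * s.im ^ 2 ≤ A * (1 + 2 / A) ^ 2 := by
            have e : A * (1 + 2 / A) ^ 2 = A + 4 + 4 / A := by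
              field_simp
              ring
            rw [e]
            have : 0 < 4 / A := by positivity
            linarith
          exact le_of_mul_le_mul_left b6 hA
        linarith
    have hs2S : s2 ∈ S := by
      refine ⟨h2.le, ?_, hs2, le_rfl⟩
      by_contra h
      exact hne s2 (not_le.1 h) hs2
    obtain ⟨s0, hs0, hm⟩ := hSc.exists_isMaxOn ⟨s2, hs2S⟩ hcont.continuousOn
    obtain ⟨c1, c2, c3, c4⟩ := hs0
    refine ⟨s0, ?_, c3, by linarith, ?_⟩
    · rcases c1.eq_or_lt with h | h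
      · exfalso
        have : lv s0 ≤ 0 := by
          simp only [hlv]
          rw [← h]
          have : 0 ≤ A * s0.im ^ 2 := by positivity
          nlinarith
        linarith
      · exact h
    · intro s hs hLs
      rcases le_or_gt (lv s2) (lv s) with h | h
      · have : s ∈ S := by
          refine ⟨hs.le, ?_, hLs, h⟩
          by_contra h'
          exact hne s (not_le.1 h') hLs
        exact hm this
      · linarith
  rcases hl.eq_or_lt with h | h
  · by_cases hex : ∃ s2 : ℂ, 1 < s2.re ∧ L s2 = 0 ∧ 0 < lv s2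
    · obtain ⟨s2, a, b, c⟩ := hex
      exact hpos s2 a b c
    · push Not at hex
      refine ⟨s1, h1, hs1, hl, fun s a b => ?_⟩
      rw [← h]
      exact hex s a b
  · exact hpos s1 h1 hs1 h

end W3283g
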