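import Pool.Agent.W_3283e1_h53.GauLawM
import Pool.Agent.W_3283e1_h53.GauLim

set_option autoImplicit false

namespace W3283g

open Complex W3283e1 W3283f MeasureTheory Filter Topology

/-- `L` has no zeros for `Re s > 3/2`. -/
theorem main_ne (k : ℕ) (c : ℤ) (n f i j : ℕ) (L : ℂ → ℂ) (r : ℕ) (l V : ℝ)
    (h : SU k c n f i j L r l V) (s : ℂ) (hs : 3 / 2 < s.re) : L s ≠ 0 := by
  intro h0
  obtain ⟨Q, hQ, _, _, hid⟩ := Q_full (alF n j) (LLF n j) WW (dataR_fam n j h.hj h.hn h.hs)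
  have h1 : 1 / 2 < (s - 1).re := by
    rw [Complex.sub_re, Complex.one_re]
    linarith
  have h2 : LLF n j (1 + (s - 1)) = 0 := by
    refine (h.hzero (s - 1) (by linarith)).1 ?_
    rw [add_sub_cancel]
    exact h0
  have h3 := hid (s - 1) h1
  rw [h2] at h3
  exact (hQ (s - 1) (by linarith)).2 (by rw [← h3]; ring)

/-- The exact growth exponent of the means: the largest level of a zero, if it is `≥ 0`. -/
theorem main_limsup (k : ℕ) (c : ℤ) (n f i j : ℕ) (L : ℂ → ℂ) (r : ℕ) (l V : ℝ)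
    (h : SU k c n f i j L r l V) (A : ℝ) (hA : 0 < A) (s1 : ℂ) (h1 : 1 < s1.re) (hs1 : L s1 = 0)
    (hl : A * s1.im ^ 2 ≤ A * (s1.re - 1) ^ 2 + 2 * (s1.re - 1)) :
    ∃ s0 : ℂ, 1 < s0.re ∧ L s0 = 0 ∧
      (∀ s : ℂ, 1 < s.re → L s = 0 → (s.re - 1) + A * ((s.re - 1) ^ 2 - s.im ^ 2) / 2 ≤
        (s0.re - 1) + A * ((s0.re - 1) ^ 2 - s0.im ^ 2) / 2) ∧
      limsup (fun U : ℝ => Real.log |gP (c * k ^ 2) 0
        (Real.sqrt 2 * Real.exp (r * Real.eulerMascheroniConstant) / |l|) r A U| / U) atTop =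
          (s0.re - 1) + A * ((s0.re - 1) ^ 2 - s0.im ^ 2) / 2 := by
  obtain ⟨s0, a1, a2, a3, a4⟩ := lev_max L h.hL.continuous
    (fun s hs => main_ne k c n f i j L r l V h s hs) A hA s1 h1 hs1 (by linarith)
  refine ⟨s0, a1, a2, a4, ?_⟩
  refine limsup_law (fun U : ℝ => gP (c * k ^ 2) 0
        (Real.sqrt 2 * Real.exp (r * Real.eulerMascheroniConstant) / |l|) r A U)
    {z : ℝ | ∃ s : ℂ, 1 < s.re ∧ L s = 0 ∧
      (s.re - 1) + A * ((s.re - 1) ^ 2 - s.im ^ 2) / 2 = z} _ a3 ⟨s0, a1, a2, rfl⟩ ?_ ?_ ?_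
  · intro hd z hz
    obtain ⟨s, b1, b2, b3⟩ := hz
    have h3 := (main_dec k c n f i j L r l V h A hA).1 hd s b1
    by_contra h4
    apply h3 _ b2
    rw [← b3] at h4
    linarith
  · intro x hx
    have h3 := main_law k c n f i j L r l V h A hA x hx
    refine h3.trans ?_
    constructor
    · rintro h4 z ⟨s, b1, b2, b3⟩
      by_contra h5
      exact h4 s b1 (by rw [b3]; exact not_le.1 h5) b2
    · intro h4 s b1 b2 b3
      have := h4 _ ⟨s, b1, b3, rfl⟩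
      linarith
  · rintro z ⟨s, b1, b2, b3⟩
    rw [← b3]
    exact a4 s b1 b2

end W3283g
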