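import Pool.Agent.W_3283e1_h53.GauLawF

set_option autoImplicit false

namespace W3283g

open Complex W3283e1 W3283f MeasureTheory Filter Topology

theorem law_tri (x y K K' κ lam' U : ℝ) (hU : 1 ≤ U) (h1 : |x - y| ≤ K * Real.exp (-(κ * U)))
    (h2 : |y| ≤ K' * Real.exp (lam' * U)) (h3 : -κ ≤ lam') :
    |x| ≤ (|K| + |K'|) * Real.exp (lam' * U) := by
  have h4 : K * Real.exp (-(κ * U)) ≤ |K| * Real.exp (lam' * U) := by
    refine mul_le_mul (le_abs_self K) (Real.exp_le_exp.2 ?_) (Real.exp_pos _).le (abs_nonneg _)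
    have := mul_le_mul_of_nonneg_right h3 (by linarith : (0 : ℝ) ≤ U)
    linarith
  have h5 : K' * Real.exp (lam' * U) ≤ |K'| * Real.exp (lam' * U) :=
    mul_le_mul_of_nonneg_right (le_abs_self K') (Real.exp_pos _).le
  have h8 : |x| ≤ |x - y| + |y| := by
    have := abs_add_le (x - y) y
    simpa using this
  rw [add_mul]
  linarith

/-- No zeros above the level `lam` bounds the means of the product. -/
theorem main_lev_fwd (k : ℕ) (c : ℤ) (n f i j : ℕ) (L : ℂ → ℂ) (r : ℕ) (l V : ℝ)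
    (h : SU k c n f i j L r l V) (A : ℝ) (hA : 0 < A) (lam : ℝ) (hlam : 0 ≤ lam)
    (hz : ∀ s : ℂ, 1 < s.re → lam < (s.re - 1) + A * ((s.re - 1) ^ 2 - s.im ^ 2) / 2 → L s ≠ 0)
    (lam' : ℝ) (hl : lam < lam') :
    ∃ K : ℝ, ∀ U : ℝ, 1 ≤ U →
      |gP (c * k ^ 2) 0 (Real.sqrt 2 * Real.exp (r * Real.eulerMascheroniConstant) / |l|)
        r A U| ≤ K * Real.exp (lam' * U) := by
  obtain ⟨κ₁, K₁, hκ₁, h1⟩ := FinH1_near k c n f i j L r l V h A hA
  obtain ⟨K₂, h2⟩ := lev_fwd (alF n j) (LLF n j) WW (dataR_fam n j h.hj h.hn h.hs)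
    (lGold (l / V) r) r A hA lam hlam (by
      intro s hs0 _ hs2 h0
      have h3 := (h.hzero s hs0.le).2 h0
      refine hz (1 + s) ?_ ?_ h3
      · rw [Complex.add_re, Complex.one_re]
        linarith
      · rw [Complex.add_re, Complex.one_re, Complex.add_im, Complex.one_im, zero_add]
        have h4 : 1 + s.re - 1 = s.re := by ring
        rw [h4]
        exact hs2) lam' hl
  exact ⟨|K₁| + |K₂|, fun U hU => law_tri _ _ K₁ K₂ κ₁ lam' U hU (h1 U hU) (h2 U hU)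
    (by linarith)⟩

/-- A bound for the means of the product excludes zeros: levels `lam ≥ -κ`, `κ > 0`. -/
theorem main_lev_bwd (k : ℕ) (c : ℤ) (n f i j : ℕ) (L : ℂ → ℂ) (r : ℕ) (l V : ℝ)
    (h : SU k c n f i j L r l V) (A : ℝ) (hA : 0 < A) :
    ∃ κ : ℝ, 0 < κ ∧ ∀ lam : ℝ, -κ ≤ lam →
      (∀ ε : ℝ, 0 < ε → ∃ K : ℝ, ∀ U : ℝ, 1 ≤ U →
        |gP (c * k ^ 2) 0 (Real.sqrt 2 * Real.exp (r * Real.eulerMascheroniConstant) / |l|)
          r A U| ≤ K * Real.exp ((lam + ε) * U)) →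
      ∀ s : ℂ, 1 < s.re → lam < (s.re - 1) + A * ((s.re - 1) ^ 2 - s.im ^ 2) / 2 → L s ≠ 0 := by
  obtain ⟨κ₁, K₁, hκ₁, h2⟩ := FinH1_near k c n f i j L r l V h A hA
  refine ⟨min κ₁ (1 / (2 * A)), lt_min hκ₁ (by positivity), ?_⟩
  intro lam hlam hyp s h0 h1
  have hl1 : -κ₁ ≤ lam := by
    have := min_le_left κ₁ (1 / (2 * A))
    linarith
  have hl2 : -1 ≤ 2 * A * lam := by
    have h3 := min_le_right κ₁ (1 / (2 * A))
    have h4 : -(1 / (2 * A)) ≤ lam := by linarith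
    have h5 := mul_le_mul_of_nonneg_left h4 (by positivity : 0 ≤ 2 * A)
    have h6 : 2 * A * -(1 / (2 * A)) = -1 := by
      field_simp
    linarith
  have h3 : ∀ ε : ℝ, 0 < ε → ∃ K : ℝ, ∀ u : ℝ, 1 ≤ u →
      |gm (er (alF n j) (lGold (l / V) r) r) A u| ≤ K * Real.exp ((lam + ε) * u) := by
    intro ε hε
    obtain ⟨K, hK⟩ := hyp ε hε
    refine ⟨|K₁| + |K|, fun U hU => ?_⟩
    refine law_tri _ _ K₁ K κ₁ (lam + ε) U hU ?_ (hK U hU) (by linarith)
    rw [abs_sub_comm]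
    exact h2 U hU
  have h4 := lev_bwd (alF n j) (LLF n j) WW (dataR_fam n j h.hj h.hn h.hs) (lGold (l / V) r) r A
    hA lam hl2 h3 (s - 1) (by
      rw [Complex.sub_re, Complex.one_re]
      linarith) (by
      unfold lev
      rw [Complex.sub_re, Complex.one_re, Complex.sub_im, Complex.one_im, sub_zero]
      exact h1)
  intro h5
  apply h4
  refine (h.hzero (s - 1) ?_).1 ?_
  · rw [Complex.sub_re, Complex.one_re]
    linarith
  · rw [add_sub_cancel]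
    exact h5

/-- The growth law at the levels `lam ≥ 0`. -/
theorem main_law (k : ℕ) (c : ℤ) (n f i j : ℕ) (L : ℂ → ℂ) (r : ℕ) (l V : ℝ)
    (h : SU k c n f i j L r l V) (A : ℝ) (hA : 0 < A) (lam : ℝ) (hlam : 0 ≤ lam) :
    (∀ ε : ℝ, 0 < ε → ∃ K : ℝ, ∀ U : ℝ, 1 ≤ U →
      |gP (c * k ^ 2) 0 (Real.sqrt 2 * Real.exp (r * Real.eulerMascheroniConstant) / |l|)
        r A U| ≤ K * Real.exp ((lam + ε) * U)) ↔
    ∀ s : ℂ, 1 < s.re → lam < (s.re - 1) + A * ((s.re - 1) ^ 2 - s.im ^ 2) / 2 → L s ≠ 0 := by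
  constructor
  · intro hyp
    obtain ⟨κ, hκ, hb⟩ := main_lev_bwd k c n f i j L r l V h A hA
    exact hb lam (by linarith) hyp
  · intro hz ε hε
    exact main_lev_fwd k c n f i j L r l V h A hA lam hlam hz (lam + ε) (by linarith)

/-- Exponential decay: no zeros of level `≥ 0`. -/
theorem main_dec (k : ℕ) (c : ℤ) (n f i j : ℕ) (L : ℂ → ℂ) (r : ℕ) (l V : ℝ)
    (h : SU k c n f i j L r l V) (A : ℝ) (hA : 0 < A) :
    (∃ κ K : ℝ, 0 < κ ∧ ∀ U : ℝ, 1 ≤ U →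
      |gP (c * k ^ 2) 0 (Real.sqrt 2 * Real.exp (r * Real.eulerMascheroniConstant) / |l|)
        r A U| ≤ K * Real.exp (-(κ * U))) ↔
    ∀ s : ℂ, 1 < s.re → A * s.im ^ 2 ≤ A * (s.re - 1) ^ 2 + 2 * (s.re - 1) → L s ≠ 0 := by
  constructor
  · rintro ⟨κ₂, K, hκ₂, hK⟩ s hs1 hs2
    obtain ⟨κ, hκ, hb⟩ := main_lev_bwd k c n f i j L r l V h A hA
    refine hb (-(min κ κ₂)) (by have := min_le_left κ κ₂; linarith) ?_ s hs1 ?_
    · intro ε hε
      refine ⟨|K|, fun U hU => (hK U hU).trans ?_⟩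
      refine mul_le_mul (le_abs_self K) (Real.exp_le_exp.2 ?_) (Real.exp_pos _).le (abs_nonneg _)
      have h3 : -κ₂ ≤ -(min κ κ₂) + ε := by
        have := min_le_right κ κ₂
        linarith
      have := mul_le_mul_of_nonneg_right h3 (by linarith : (0 : ℝ) ≤ U)
      linarith
    · have h3 : 0 < min κ κ₂ := lt_min hκ hκ₂
      linarith
  · intro hz
    exact main_fwd k c n f i j L r l V h A hA fun s hs1 _ hs3 => hz s hs1 hs3

end W3283g
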