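import Pool.Agent.W_3283e1_h53.GauLawM
import Pool.Agent.W_3283e1_h53.GauLim

set_option autoImplicit false

namespace W3283g

open Complex W3283e1 W3283f MeasureTheory Filter Topology

/-- `L` has no zeros for `Re s > 3/2`. -/
theorem lawX_ne (k : ℕ) (c : ℤ) (n f i j : ℕ) (L : ℂ → ℂ) (r : ℕ) (l V : ℝ)
    (h : SU k c n f i j L r l V) (s : ℂ) (hs : 3 / 2 < s.re) : L s ≠ 0 := by
  intro h0
  obtain ⟨Q, hQ, _, _, hid⟩ := Q_full (alF n j) (LLF n j) WW (dataR_fam n j h.hj h.hn h.hs)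
  have h1 : 1 / 2 < (s - 1).re := by
    rw [Complex.sub_re, Complex.one_re]
    linarith
  have h2 : LLF n j (1 + (s - 1)) = 0 := by
    refine (h.hzero (s - 1) (by linarith)).1 ?_
    rw [add_sub_cancel]
    exact h0
  have h3 := hid (s - 1) h1
  rw [h2] at h3
  exact (hQ (s - 1) (by linarith)).2 (by rw [← h3]; ring)

/-- The exact growth exponent of the means: the largest level of a zero, if it is `≥ 0`. -/
theorem main_exact (k : ℕ) (c : ℤ) (n f i j : ℕ) (L : ℂ → ℂ) (r : ℕ) (l V : ℝ)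
    (h : SU k c n f i j L r l V) (A : ℝ) (hA : 0 < A) (s1 : ℂ) (h1 : 1 < s1.re) (hs1 : L s1 = 0)
    (hl : A * s1.im ^ 2 ≤ A * (s1.re - 1) ^ 2 + 2 * (s1.re - 1)) :
    ∃ (s0 : ℂ) (y : ℝ), 1 < s0.re ∧ L s0 = 0 ∧
      y = (s0.re - 1) + A * ((s0.re - 1) ^ 2 - s0.im ^ 2) / 2 ∧
      (∀ s : ℂ, 1 < s.re → L s = 0 → (s.re - 1) + A * ((s.re - 1) ^ 2 - s.im ^ 2) / 2 ≤ y) ∧
      ∀ ε : ℝ, 0 < ε →
        (∃ K : ℝ, ∀ U : ℝ, 1 ≤ U → |gP (c * k ^ 2) 0
          (Real.sqrt 2 * Real.exp (r * Real.eulerMascheroniConstant) / |l|) r A U| ≤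
            K * Real.exp ((y + ε) * U)) ∧
        ¬ ∃ K : ℝ, ∀ U : ℝ, 1 ≤ U → |gP (c * k ^ 2) 0
          (Real.sqrt 2 * Real.exp (r * Real.eulerMascheroniConstant) / |l|) r A U| ≤
            K * Real.exp ((y - ε) * U) := by
  obtain ⟨s0, a1, a2, a3, a4⟩ := lev_max L h.hL.continuous
    (fun s hs => lawX_ne k c n f i j L r l V h s hs) A hA s1 h1 hs1 (by linarith)
  refine ⟨s0, _, a1, a2, rfl, a4, fun ε hε => ⟨?_, ?_⟩⟩
  · refine (main_law k c n f i j L r l V h A hA _ a3).2 (fun s b1 b2 b3 => ?_) ε hε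
    have := a4 s b1 b3
    linarith
  · rintro ⟨K, hK⟩
    set y : ℝ := (s0.re - 1) + A * ((s0.re - 1) ^ 2 - s0.im ^ 2) / 2 with hy
    rcases le_or_gt 0 (y - ε) with h3 | h3
    · refine (main_law k c n f i j L r l V h A hA (y - ε) h3).1 (fun δ hδ => ⟨|K|, fun U hU => ?_⟩)
        s0 a1 (by linarith) a2
      refine (hK U hU).trans ?_
      refine mul_le_mul (le_abs_self K) (Real.exp_le_exp.2 ?_) (Real.exp_pos _).le (abs_nonneg _)
      have h4 : y - ε ≤ y - ε + δ := by linarith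
      exact mul_le_mul_of_nonneg_right h4 (by linarith)
    · refine (main_dec k c n f i j L r l V h A hA).1 ⟨-(y - ε), K, by linarith, fun U hU => ?_⟩
        s0 a1 (by linarith) a2
      have := hK U hU
      rwa [neg_mul, neg_neg]

end W3283g
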