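import Pool.Agent.W_MP_3283e1_h19.FinH

set_option autoImplicit false

namespace W3283g

open Complex W3283e1 W3283f MeasureTheory Filter Topology

theorem GrZ_int (B : ℝ → ℝ) (hB : Measurable B) (h0 : ∀ t, 1 < t → 0 ≤ B t ∧ B t ≤ 1) (σ : ℝ)
    (hσ : 0 < σ) : IntegrableOn (fun t : ℝ => B t * t ^ (-(σ + 1))) (Set.Ioi 1) := by
  have h1 : IntegrableOn (fun t : ℝ => t ^ (-(σ + 1))) (Set.Ioi 1) :=
    integrableOn_Ioi_rpow_of_lt (by linarith) one_pos
  refine Integrable.mono' h1 ?_ ?_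
  · exact (hB.mul (measurable_id.pow_const _)).aestronglyMeasurable
  · refine (ae_restrict_iff' measurableSet_Ioi).2 (Filter.Eventually.of_forall fun t ht => ?_)
    have ht0 : 0 < t := one_pos.trans ht
    have h3 : 0 ≤ t ^ (-(σ + 1)) := Real.rpow_nonneg ht0.le _
    rw [norm_mul, Real.norm_eq_abs, Real.norm_eq_abs, abs_of_nonneg h3,
      abs_of_nonneg (h0 t ht).1]
    exact mul_le_of_le_one_left h3 (h0 t ht).2

/-- Two holomorphic functions on the right half plane which agree for `Re s > 1` agree. -/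
theorem GrZ_ident {f g : ℂ → ℂ} (hf : DifferentiableOn ℂ f {s : ℂ | 0 < s.re})
    (hg : DifferentiableOn ℂ g {s : ℂ | 0 < s.re}) (h : ∀ s : ℂ, 1 < s.re → f s = g s) (s : ℂ)
    (hs : 0 < s.re) : f s = g s := by
  have hU : IsOpen {s : ℂ | 0 < s.re} := isOpen_lt continuous_const Complex.continuous_re
  have hpre : IsPreconnected {s : ℂ | 0 < s.re} := (convex_halfSpace_re_gt 0).isPreconnected
  have h2 : (2 : ℂ) ∈ {s : ℂ | 0 < s.re} := by simp
  have hev : f =ᶠ[𝓝 2] g := by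
    have h3 : {s : ℂ | 1 < s.re} ∈ 𝓝 (2 : ℂ) :=
      (isOpen_lt continuous_const Complex.continuous_re).mem_nhds (by simp)
    filter_upwards [h3] with z hz
    exact h z hz
  exact (hf.analyticOnNhd hU).eqOn_of_preconnected_of_eventuallyEq (hg.analyticOnNhd hU) hpre h2
    hev hs

/-- For a nonnegative measurable `B ≤ 1` on `(1,∞)` the function `s ∫_1^∞ B(t) t^{-s-1} dt` is
holomorphic on `Re s > 0` (`W3283e1.param` with `σ0 = 0`) and for `Re s ≥ 1/2` of norm at most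
`2 ‖s‖`. -/
theorem abel_bd (B : ℝ → ℝ) (hB : Measurable B) (h0 : ∀ t, 1 < t → 0 ≤ B t ∧ B t ≤ 1) :
    DifferentiableOn ℂ (fun s : ℂ => s * ∫ t in Set.Ioi (1 : ℝ), (B t : ℂ) * (t : ℂ) ^ (-(s + 1)))
      {s : ℂ | 0 < s.re} ∧
    ∀ s : ℂ, 1 / 2 ≤ s.re →
      ‖s * ∫ t in Set.Ioi (1 : ℝ), (B t : ℂ) * (t : ℂ) ^ (-(s + 1))‖ ≤ 2 * ‖s‖ := by
  constructor
  · exact differentiableOn_id.mul (param B hB (fun t ht => (h0 t ht).1) 0
      (fun σ hσ => GrZ_int B hB h0 σ hσ))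
  · intro s hs
    have h1 : ‖∫ t in Set.Ioi (1 : ℝ), (B t : ℂ) * (t : ℂ) ^ (-(s + 1))‖ ≤
        ∫ t in Set.Ioi (1 : ℝ), t ^ (-(3 / 2) : ℝ) := by
      refine norm_integral_le_of_norm_le (integrableOn_Ioi_rpow_of_lt (by norm_num) one_pos) ?_
      refine (ae_restrict_iff' measurableSet_Ioi).2 (Filter.Eventually.of_forall fun t ht => ?_)
      have ht1 : 1 < t := ht
      have ht0 : 0 < t := one_pos.trans ht
      have h3 : 0 ≤ t ^ (-(s.re + 1)) := Real.rpow_nonneg ht0.le _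
      have h4 : ‖(B t : ℂ) * (t : ℂ) ^ (-(s + 1))‖ = B t * t ^ (-(s.re + 1)) := by
        rw [norm_mul, Complex.norm_cpow_eq_rpow_re_of_pos ht0, Complex.norm_real,
          Real.norm_of_nonneg (h0 t ht1).1]
        simp
      rw [h4]
      refine (mul_le_of_le_one_left h3 (h0 t ht1).2).trans ?_
      exact Real.rpow_le_rpow_of_exponent_le ht1.le (by linarith)
    have h2 : ∫ t in Set.Ioi (1 : ℝ), t ^ (-(3 / 2) : ℝ) = 2 := by
      rw [integral_Ioi_rpow_of_lt (by norm_num) one_pos]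
      norm_num
    rw [h2] at h1
    rw [norm_mul, mul_comm]
    exact mul_le_mul_of_nonneg_right h1 (norm_nonneg _)

/-- The partial sums of the character. -/
theorem GrZ_chi (n : ℕ) : (∑ k ∈ Finset.Icc 1 n, ZMod.χ₄ (k : ZMod 4)) =
    if n % 4 = 1 ∨ n % 4 = 2 then 1 else 0 := by
  induction n with
  | zero => simp
  | succ n ih =>
    rw [Finset.sum_Icc_succ_top (by omega), ih, ZMod.χ₄_nat_eq_if_mod_four]
    have h4 : n % 4 < 4 := Nat.mod_lt _ (by norm_num)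
    have h5 : (n + 1) % 4 = (n % 4 + 1) % 4 := by omega
    have h6 : (n + 1) % 2 = (n % 4 + 1) % 2 := by omega
    rw [h5, h6]
    generalize n % 4 = m at h4
    interval_cases m <;> simp

/-- The partial sums of the character as a function of a real variable. -/
noncomputable def GrZ_B (t : ℝ) : ℝ :=
  ((∑ k ∈ Finset.Icc 1 ⌊t⌋₊, ZMod.χ₄ (k : ZMod 4) : ℤ) : ℝ)

theorem GrZ_B_meas : Measurable GrZ_B := by
  have h : GrZ_B = (fun n : ℕ => ((∑ k ∈ Finset.Icc 1 n, ZMod.χ₄ (k : ZMod 4) : ℤ) : ℝ)) ∘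
      (fun x : ℝ => ⌊x⌋₊) := rfl
  rw [h]
  exact (measurable_of_countable _).comp Nat.measurable_floor

theorem GrZ_B_bd (t : ℝ) : 0 ≤ GrZ_B t ∧ GrZ_B t ≤ 1 := by
  unfold GrZ_B
  rw [GrZ_chi]
  split_ifs <;> simp

theorem GrZ_chi4 (k : ℕ) : chi4 (k : ZMod 4) = ((ZMod.χ₄ (k : ZMod 4) : ℤ) : ℂ) := by
  rw [chi4, MulChar.ringHomComp_apply]
  rfl

theorem GrZ_L4 (s : ℂ) (hs : 1 < s.re) :
    L4 s = s * ∫ t in Set.Ioi (1 : ℝ), (GrZ_B t : ℂ) * (t : ℂ) ^ (-(s + 1)) := by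
  have hsum : ∀ n : ℕ, ∑ k ∈ Finset.Icc 1 n, chi4 (k : ZMod 4) =
      (((∑ k ∈ Finset.Icc 1 n, ZMod.χ₄ (k : ZMod 4) : ℤ) : ℝ) : ℂ) := by
    intro n
    push_cast
    exact Finset.sum_congr rfl fun k _ => GrZ_chi4 k
  have hO : (fun n : ℕ => ∑ k ∈ Finset.Icc 1 n, (fun n : ℕ => chi4 (n : ZMod 4)) k)
      =O[Filter.atTop] fun n : ℕ => (n : ℝ) ^ (0 : ℝ) := by
    refine Asymptotics.IsBigO.of_bound 1 (Filter.Eventually.of_forall fun n => ?_)
    rw [hsum, Complex.norm_real, GrZ_chi]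
    split_ifs <;> simp
  have h1 : L4 s = LSeries (fun n : ℕ => chi4 (n : ZMod 4)) s :=
    DirichletCharacter.LFunction_eq_LSeries chi4 hs
  rw [h1, LSeries_eq_mul_integral (fun n : ℕ => chi4 (n : ZMod 4)) le_rfl (by linarith)
    (DirichletCharacter.LSeriesSummable_of_one_lt_re chi4 hs) hO]
  congr 1
  refine setIntegral_congr_fun measurableSet_Ioi fun t _ => ?_
  rw [hsum]
  rfl

/-- For `Re s > 1`, `L4 s = LSeries chi4 s = s ∫_1^∞ A(t) t^{-s-1} dt` with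
`A(t) = ∑_{n ≤ t} χ₄(n) ∈ {0, 1}` (`LSeries_eq_mul_integral`, as in `W3283e1.GG_int`); both sides are
holomorphic on `Re s > 0` (`abel_bd`, `L4_diff`), so they agree there by the identity theorem. -/
theorem L4_grow (s : ℂ) (hs : 1 / 2 ≤ s.re) : ‖L4 s‖ ≤ 2 * ‖s‖ := by
  have h1 := abel_bd GrZ_B GrZ_B_meas (fun t _ => GrZ_B_bd t)
  rw [GrZ_ident L4_diff.differentiableOn h1.1 (fun s hs => GrZ_L4 s hs) s (by linarith)]
  exact h1.2 s hs

theorem GrZ_zeta (s : ℂ) (hs : 1 < s.re) : riemannZeta s = s / (s - 1) -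
    s * ∫ t in Set.Ioi (1 : ℝ), ((Int.fract t : ℝ) : ℂ) * (t : ℂ) ^ (-(s + 1)) := by
  have hsum : ∀ n : ℕ, ∑ k ∈ Finset.Icc 1 n, (1 : ℕ → ℂ) k = (n : ℂ) := by
    intro n
    simp
  have hO : (fun n : ℕ => ∑ k ∈ Finset.Icc 1 n, (1 : ℕ → ℂ) k)
      =O[Filter.atTop] fun n : ℕ => (n : ℝ) ^ (1 : ℝ) := by
    refine Asymptotics.IsBigO.of_bound 1 (Filter.Eventually.of_forall fun n => ?_)
    rw [hsum]
    simp
  have hsm : LSeriesSummable (1 : ℕ → ℂ) s := LSeriesSummable_one_iff.2 hs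
  rw [← LSeries_one_eq_riemannZeta hs, LSeries_eq_mul_integral (1 : ℕ → ℂ) zero_le_one hs hsm hO]
  have hs1 : s - 1 ≠ 0 := by
    intro h
    rw [sub_eq_zero] at h
    rw [h, Complex.one_re] at hs
    exact lt_irrefl _ hs
  have hint1 : IntegrableOn (fun t : ℝ => (t : ℂ) ^ (-s)) (Set.Ioi 1) :=
    integrableOn_Ioi_cpow_of_lt (by rw [Complex.neg_re]; linarith) one_pos
  have hint2 : IntegrableOn (fun t : ℝ => ((Int.fract t : ℝ) : ℂ) * (t : ℂ) ^ (-(s + 1)))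
      (Set.Ioi 1) := by
    have h1 := GrZ_int (fun t => Int.fract t) measurable_fract
      (fun t _ => ⟨Int.fract_nonneg t, (Int.fract_lt_one t).le⟩) s.re (by linarith)
    refine Integrable.mono' h1 ?_ ?_
    · exact ((Complex.measurable_ofReal.comp measurable_fract).mul
        (Complex.measurable_ofReal.pow_const _)).aestronglyMeasurable
    · refine (ae_restrict_iff' measurableSet_Ioi).2 (Filter.Eventually.of_forall fun t ht => ?_)
      have ht0 : 0 < t := one_pos.trans ht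
      rw [norm_mul, Complex.norm_cpow_eq_rpow_re_of_pos ht0, Complex.norm_real,
        Real.norm_of_nonneg (Int.fract_nonneg t)]
      simp
  have h3 : ∫ t in Set.Ioi (1 : ℝ), (∑ k ∈ Finset.Icc 1 ⌊t⌋₊, (1 : ℕ → ℂ) k) *
      (t : ℂ) ^ (-(s + 1)) = (∫ t in Set.Ioi (1 : ℝ), (t : ℂ) ^ (-s)) -
        ∫ t in Set.Ioi (1 : ℝ), ((Int.fract t : ℝ) : ℂ) * (t : ℂ) ^ (-(s + 1)) := by
    rw [← integral_sub hint1 hint2]
    refine setIntegral_congr_fun measurableSet_Ioi fun t ht => ?_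
    have ht0 : 0 < t := one_pos.trans ht
    have htc : (t : ℂ) ≠ 0 := by exact_mod_cast ht0.ne'
    rw [hsum]
    have h4 : (⌊t⌋₊ : ℝ) = t - Int.fract t := by
      have h5 := natCast_floor_eq_intCast_floor ht0.le
      have h6 : (⌊t⌋₊ : ℝ) = ((⌊t⌋ : ℤ) : ℝ) := by
        simpa using h5
      rw [h6]
      have h7 := Int.floor_add_fract t
      linarith
    have h8 : ((⌊t⌋₊ : ℕ) : ℂ) = (t : ℂ) - ((Int.fract t : ℝ) : ℂ) := by
      have h9 : (((⌊t⌋₊ : ℝ)) : ℂ) = ((t - Int.fract t : ℝ) : ℂ) := by rw [h4]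
      rw [Complex.ofReal_sub] at h9
      simpa using h9
    rw [h8, sub_mul]
    congr 1
    have h10 : (t : ℂ) * (t : ℂ) ^ (-(s + 1)) = (t : ℂ) ^ (1 + -(s + 1)) := by
      rw [Complex.cpow_add _ _ htc, Complex.cpow_one]
    rw [h10]
    congr 1
    ring
  rw [h3, integral_Ioi_cpow_of_lt (by rw [Complex.neg_re]; linarith) one_pos, mul_sub]
  congr 1
  rw [Complex.ofReal_one, Complex.one_cpow]
  have h11 : -s + 1 ≠ 0 := by
    intro h
    apply hs1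
    linear_combination -h
  field_simp
  ring

/-- For `Re s > 1`, `ζ(s) = s ∫_1^∞ ⌊t⌋ t^{-s-1} dt = s/(s-1) - s ∫_1^∞ {t} t^{-s-1} dt`, so
`w ζ(1+w) = (1+w) - w (1+w) ∫ {t} t^{-(1+w)-1} dt` for `Re w > 0`, hence for `Re w > -1` by the
identity theorem (`ZZ_diff`, `abel_bd` with the fractional part); so
`‖ZZ w‖ ≤ ‖1+w‖ + 2 ‖w‖ ‖1+w‖` for `Re w ≥ -1/2`. -/
theorem ZZ_grow (w : ℂ) (hw : -(1 / 2) ≤ w.re) : ‖ZZ w‖ ≤ 3 * (1 + ‖w‖) ^ 2 := by
  have h1 := abel_bd (fun t => Int.fract t) measurable_fract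
      (fun t _ => ⟨Int.fract_nonneg t, (Int.fract_lt_one t).le⟩)
  have h2 : ∀ s : ℂ, 0 < s.re → ZZ (s - 1) = s - (s - 1) * (s * ∫ t in Set.Ioi (1 : ℝ),
      ((Int.fract t : ℝ) : ℂ) * (t : ℂ) ^ (-(s + 1))) := by
    refine GrZ_ident ?_ ?_ ?_
    · exact (ZZ_diff.comp (differentiable_id.sub_const 1)).differentiableOn
    · exact differentiableOn_id.sub ((differentiableOn_id.sub_const 1).mul h1.1)
    · intro s hs
      have hs1 : s - 1 ≠ 0 := by
        intro h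
        rw [sub_eq_zero] at h
        rw [h, Complex.one_re] at hs
        exact lt_irrefl _ hs
      have h3 : ZZ (s - 1) = (s - 1) * riemannZeta (1 + (s - 1)) := by
        unfold ZZ
        rw [if_neg hs1]
      rw [h3, add_sub_cancel, GrZ_zeta s hs, mul_sub]
      congr 1
      field_simp
  have hre : 1 / 2 ≤ (1 + w).re := by
    rw [Complex.add_re, Complex.one_re]
    linarith
  have h4 := h2 (1 + w) (by linarith)
  have h5 := h1.2 (1 + w) hre
  rw [add_sub_cancel_left] at h4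
  rw [h4]
  refine (norm_sub_le _ _).trans ?_
  rw [norm_mul]
  have h6 : ‖1 + w‖ ≤ 1 + ‖w‖ := by
    have := norm_add_le (1 : ℂ) w
    rwa [norm_one] at this
  have h7 := norm_nonneg w
  have h8 := norm_nonneg (1 + w)
  have h9 := mul_le_mul_of_nonneg_left h5 h7
  nlinarith

/-- `‖t2 w‖ ≤ 1 + 2^{-1-Re w} ≤ 2` for `Re w ≥ -1`; and `‖t2 w‖ ≥ 1/2` for `Re w ≥ 0`. -/
theorem t2_bd (w : ℂ) (hw : -1 ≤ w.re) : ‖t2 w‖ ≤ 2 ∧ (0 ≤ w.re → 1 / 2 ≤ ‖t2 w‖) := by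
  have h1 : ‖(2 : ℂ) ^ (-1 - w)‖ = (2 : ℝ) ^ (-1 - w.re) := by
    have h := Complex.norm_cpow_eq_rpow_re_of_pos (x := 2) (by norm_num) (-1 - w)
    simpa using h
  constructor
  · unfold t2
    refine (norm_sub_le _ _).trans ?_
    rw [h1, norm_one]
    have h2 : (2 : ℝ) ^ (-1 - w.re) ≤ (2 : ℝ) ^ (0 : ℝ) :=
      Real.rpow_le_rpow_of_exponent_le (by norm_num) (by linarith)
    rw [Real.rpow_zero] at h2
    linarith
  · intro hw0
    unfold t2
    have h3 := norm_sub_norm_le (1 : ℂ) ((2 : ℂ) ^ (-1 - w))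
    rw [h1, norm_one] at h3
    have h2 : (2 : ℝ) ^ (-1 - w.re) ≤ (2 : ℝ) ^ (-1 : ℝ) :=
      Real.rpow_le_rpow_of_exponent_le (by norm_num) (by linarith)
    rw [Real.rpow_neg_one] at h2
    linarith

end W3283g
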