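import Pool.Agent.W_MP_3283e1_h19.FinH

set_option autoImplicit false

namespace W3283g

open Complex W3283e1 W3283f MeasureTheory Filter Topology

lemma Low_term {f : ℕ → ℂ} {σ1 : ℝ} {k : ℕ} {s : ℂ} (hs : σ1 + k ≤ s.re) {n : ℕ} (hn : 2 ≤ n) :
    ‖LSeries.term f s n‖ ≤ (1 / 2 : ℝ) ^ k * ‖LSeries.term f (σ1 : ℂ) n‖ := by
  have hn0 : n ≠ 0 := by omega
  have hnpos : (0 : ℝ) < n := by exact_mod_cast Nat.pos_of_ne_zero hn0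
  have hn2 : (2 : ℝ) ≤ n := by exact_mod_cast hn
  rw [LSeries.norm_term_eq, LSeries.norm_term_eq, if_neg hn0, if_neg hn0, ofReal_re]
  have h1 : (2 : ℝ) ^ k * (n : ℝ) ^ σ1 ≤ (n : ℝ) ^ s.re := by
    have h2 : (n : ℝ) ^ (σ1 + k) ≤ (n : ℝ) ^ s.re :=
      Real.rpow_le_rpow_of_exponent_le (by linarith) hs
    refine le_trans ?_ h2
    rw [Real.rpow_add hnpos, Real.rpow_natCast, mul_comm]
    exact mul_le_mul_of_nonneg_left (pow_le_pow_left₀ (by norm_num) hn2 k)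
      (Real.rpow_nonneg hnpos.le _)
  have h3 : 0 < (n : ℝ) ^ σ1 := Real.rpow_pos_of_pos hnpos _
  have h4 : (1 / 2 : ℝ) ^ k * (‖f n‖ / (n : ℝ) ^ σ1) = ‖f n‖ / ((2 : ℝ) ^ k * (n : ℝ) ^ σ1) := by
    rw [one_div, inv_pow]
    field_simp
  rw [h4]
  exact div_le_div_of_nonneg_left (norm_nonneg _) (by positivity) h1

/-- Lower bound for a Dirichlet series far to the right: for `Re s ≥ σ1`,
`‖LSeries f s - 1‖ ≤ ∑_{n ≥ 2} ‖f n‖ n^{-Re s} ≤ 2^{-(Re s - σ1)} ∑_{n ≥ 2} ‖f n‖ n^{-σ1} ≤ 1/2` if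
`Re s` is large.  (Values of `LSeries` ignore `f 0`.) -/
theorem ls_low (f : ℕ → ℂ) (h1 : f 1 = 1) (σ1 : ℝ) (hs : LSeriesSummable f (σ1 : ℂ)) :
    ∃ K0 : ℝ, ∀ s : ℂ, K0 ≤ s.re → 1 / 2 ≤ ‖LSeries f s‖ := by
  have hsum : Summable (fun n => ‖LSeries.term f (σ1 : ℂ) n‖) := hs.norm
  set B : ℝ := ∑' n, ‖LSeries.term f (σ1 : ℂ) n‖ with hB
  have hB0 : 0 ≤ B := tsum_nonneg fun n => norm_nonneg _
  obtain ⟨k, hk⟩ : ∃ k : ℕ, (1 / 2 : ℝ) ^ k < 1 / (2 * (B + 1)) :=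
    exists_pow_lt_of_lt_one (by positivity) (by norm_num)
  have hkB : (1 / 2 : ℝ) ^ k * B ≤ 1 / 2 := by
    have h5 : (1 / 2 : ℝ) ^ k * (B + 1) ≤ 1 / 2 := by
      calc (1 / 2 : ℝ) ^ k * (B + 1) ≤ 1 / (2 * (B + 1)) * (B + 1) :=
            mul_le_mul_of_nonneg_right hk.le (by linarith)
        _ = 1 / 2 := by field_simp
    have h6 : 0 ≤ (1 / 2 : ℝ) ^ k := by positivity
    nlinarith
  refine ⟨σ1 + k, fun s hsk => ?_⟩
  have hk0 : (0 : ℝ) ≤ k := Nat.cast_nonneg k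
  have hs' : LSeriesSummable f s := LSeriesSummable.of_re_le_re
    (by rw [ofReal_re]; linarith) hs
  have hone : LSeries.term f s 1 = 1 := by
    rw [LSeries.term_of_ne_zero one_ne_zero, h1]
    simp
  have hd : HasSum (fun n : ℕ => if n = 1 then (1 : ℂ) else 0) 1 := hasSum_ite_eq 1 1
  have hg : LSeries f s - 1 = ∑' n, (LSeries.term f s n - if n = 1 then (1 : ℂ) else 0) :=
    ((hs'.hasSum.sub hd).tsum_eq).symm
  have hbound : ‖LSeries f s - 1‖ ≤ (1 / 2 : ℝ) ^ k * B := by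
    rw [hg]
    refine tsum_of_norm_bounded (hsum.hasSum.mul_left ((1 / 2 : ℝ) ^ k)) fun n => ?_
    have hnn : 0 ≤ (1 / 2 : ℝ) ^ k * ‖LSeries.term f (σ1 : ℂ) n‖ := by positivity
    rcases Nat.lt_or_ge n 2 with hn | hn
    · interval_cases n
      · rw [LSeries.term_zero, if_neg (by norm_num), sub_zero, norm_zero]
        exact mul_nonneg (by positivity) (norm_nonneg _)
      · rw [hone, if_pos rfl, sub_self, norm_zero]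
        exact hnn
    · rw [if_neg (by omega), sub_zero]
      exact Low_term hsk hn
  have h7 : ‖(1 : ℂ)‖ ≤ ‖LSeries f s‖ + ‖LSeries f s - 1‖ := by
    have h8 : (1 : ℂ) = LSeries f s - (LSeries f s - 1) := by ring
    calc ‖(1 : ℂ)‖ = ‖LSeries f s - (LSeries f s - 1)‖ := by rw [← h8]
      _ ≤ _ := norm_sub_le _ _
  rw [norm_one] at h7
  linarith

/-- `ls_low` for `aFam n j` (`LG_summable`, `LG_eq`, `h.a1`). -/
theorem LG_low (a : ℕ → ℝ) (κ ε : ℝ) (h : ThData a κ ε) :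
    ∃ K0 : ℝ, ∀ s : ℂ, K0 ≤ s.re → 1 / 2 ≤ ‖LG a κ s‖ := by
  obtain ⟨K0, hK⟩ := ls_low (fun m => (a m : ℂ)) (by simp [h.a1]) 2
    (LG_summable a κ ε h ((2 : ℝ) : ℂ) (by rw [ofReal_re]; norm_num))
  refine ⟨max K0 2, fun s hs => ?_⟩
  rw [(LG_eq a κ ε h s (by have := (le_max_right K0 2).trans hs; linarith)).2]
  exact hK s ((le_max_left K0 2).trans hs)

/-- `ls_low` for `cc 2` (`cc_summable`, `cc_one`, `LE_eq2`). -/
theorem LE2_low : ∃ K0 : ℝ, ∀ s : ℂ, K0 ≤ s.re → 1 / 2 ≤ ‖LE 2 s‖ := by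
  obtain ⟨K0, hK⟩ := ls_low (cc 2) (cc_one 2) 3
    (cc_summable 2 ((3 : ℝ) : ℂ) (by rw [ofReal_re]; norm_num))
  refine ⟨max K0 3, fun s hs => ?_⟩
  rw [LE_eq2 s (by have := (le_max_right K0 3).trans hs; linarith)]
  exact hK s ((le_max_left K0 3).trans hs)

/-- `ls_low` for `chi4` (`L4 s = LSeries chi4 s` for `Re s > 1`). -/
theorem L4_low : ∃ K0 : ℝ, ∀ s : ℂ, K0 ≤ s.re → 1 / 2 ≤ ‖L4 s‖ := by
  obtain ⟨K0, hK⟩ := ls_low (fun n => chi4 (n : ZMod 4)) (by simp) 2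
    (DirichletCharacter.LSeriesSummable_of_one_lt_re chi4 (by rw [ofReal_re]; norm_num))
  refine ⟨max K0 2, fun s hs => ?_⟩
  unfold L4
  rw [DirichletCharacter.LFunction_eq_LSeries chi4
    (by have := (le_max_right K0 2).trans hs; linarith)]
  exact hK s ((le_max_left K0 2).trans hs)

/-- `ls_low` for the constant `1`: `ζ`. -/
theorem zeta_low : ∃ K0 : ℝ, ∀ s : ℂ, K0 ≤ s.re → 1 / 2 ≤ ‖riemannZeta s‖ := by
  obtain ⟨K0, hK⟩ := ls_low 1 rfl 2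
    (LSeriesSummable_one_iff.2 (by rw [ofReal_re]; norm_num))
  refine ⟨max K0 2, fun s hs => ?_⟩
  rw [← LSeries_one_eq_riemannZeta (by have := (le_max_right K0 2).trans hs; linarith)]
  exact hK s ((le_max_left K0 2).trans hs)

lemma Low_q : (0 : ℝ) < 1 - (2 : ℝ) ^ (-(3 / 10) : ℝ) := by
  have : (2 : ℝ) ^ (-(3 / 10) : ℝ) < 1 :=
    Real.rpow_lt_one_of_one_lt_of_neg (by norm_num) (by norm_num)
  linarith

lemma Low_x {a : ℂ} {p : ℕ} (hp : p.Prime) (ha : ‖a‖ ^ 2 = p) {s : ℂ} (hs : 4 / 5 ≤ s.re) :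
    ‖a * (p : ℂ) ^ (-s)‖ ≤ (2 : ℝ) ^ (-(3 / 10) : ℝ) := by
  have hp2 : (2 : ℝ) ≤ p := by exact_mod_cast hp.two_le
  have hp0 : (0 : ℝ) < p := by linarith
  have ha' : ‖a‖ = (p : ℝ) ^ (1 / 2 : ℝ) := by
    rw [← Real.sqrt_eq_rpow, ← ha, Real.sqrt_sq (norm_nonneg _)]
  rw [norm_mul, Complex.norm_natCast_cpow_of_pos hp.pos, ha', ← Real.rpow_add hp0, neg_re]
  calc (p : ℝ) ^ (1 / 2 + -s.re) ≤ (p : ℝ) ^ (-(3 / 10) : ℝ) :=
        Real.rpow_le_rpow_of_exponent_le (by linarith) (by linarith)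
    _ ≤ (2 : ℝ) ^ (-(3 / 10) : ℝ) :=
        Real.rpow_le_rpow_of_nonpos (by norm_num) hp2 (by norm_num)

lemma Low_fac {x : ℂ} (hx : ‖x‖ ≤ (2 : ℝ) ^ (-(3 / 10) : ℝ)) :
    1 - (2 : ℝ) ^ (-(3 / 10) : ℝ) ≤ ‖1 - x‖ ∧ ‖1 - x‖ ≤ 2 := by
  have h1 : ‖(1 : ℂ)‖ - ‖x‖ ≤ ‖1 - x‖ := norm_sub_norm_le _ _
  have h2 : ‖(1 : ℂ) - x‖ ≤ ‖(1 : ℂ)‖ + ‖x‖ := norm_sub_le _ _
  rw [norm_one] at h1 h2
  have h3 := Low_q
  constructor <;> linarith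

lemma Low_fL {a : ℂ} {p : ℕ} (hp : p.Prime) (ha : ‖a‖ ^ 2 = p) {s : ℂ} (hs : 4 / 5 ≤ s.re) :
    (1 - (2 : ℝ) ^ (-(3 / 10) : ℝ)) ^ 2 ≤ ‖fL a p s‖ ∧ ‖fL a p s‖ ≤ 4 := by
  have ha' : ‖(starRingEnd ℂ) a‖ ^ 2 = p := by rw [RCLike.norm_conj]; exact ha
  obtain ⟨h1, h2⟩ := Low_fac (Low_x hp ha hs)
  obtain ⟨h3, h4⟩ := Low_fac (Low_x hp ha' hs)
  have h5 := Low_q
  unfold fL
  rw [norm_mul]
  constructor
  · rw [sq]
    exact mul_le_mul h1 h3 h5.le (norm_nonneg _)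
  · calc ‖1 - a * (p : ℂ) ^ (-s)‖ * ‖1 - (starRingEnd ℂ) a * (p : ℂ) ^ (-s)‖ ≤ 2 * 2 :=
          mul_le_mul h2 h4 (norm_nonneg _) (by norm_num)
      _ = 4 := by norm_num

/-- `‖uF n j s‖` is between positive constants on `Re s ≥ 4/5`: each factor
`fL a p s = (1 - a p^{-s})(1 - ā p^{-s})` has norm between `(1 - 3^{-3/10})²` and `4`, since
`‖a p^{-s}‖ = p^{1/2 - Re s} ≤ 3^{-3/10} < 1` (odd `p ≥ 3`; `n` odd). -/
theorem uF_bd (n j : ℕ) (hn : Odd n) :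
    ∃ C : ℝ, 0 < C ∧ ∀ s : ℂ, 4 / 5 ≤ s.re → ‖uF n j s‖ ≤ C ∧ C⁻¹ ≤ ‖uF n j s‖ := by
  have hq := Low_q
  obtain ⟨q, hqd⟩ : ∃ q : ℝ, q = 1 - (2 : ℝ) ^ (-(3 / 10) : ℝ) := ⟨_, rfl⟩
  rw [← hqd] at hq
  have hD4 : (4 : ℝ) ≤ max 4 ((q ^ 2)⁻¹) := le_max_left _ _
  have hDq : (q ^ 2)⁻¹ ≤ max 4 ((q ^ 2)⁻¹) := le_max_right _ _
  obtain ⟨D, hDd⟩ : ∃ D : ℝ, D = max 4 ((q ^ 2)⁻¹) := ⟨_, rfl⟩
  rw [← hDd] at hD4 hDq
  have hD0 : 0 < D := by linarith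
  refine ⟨D ^ n.primeFactors.card, pow_pos hD0 _, fun s hs => ?_⟩
  have hfac : ∀ p ∈ n.primeFactors, ‖(fL (alF n j p) p s)⁻¹‖ ≤ D ∧
      D⁻¹ ≤ ‖(fL (alF n j p) p s)⁻¹‖ := by
    intro p hp
    have hpp := Nat.prime_of_mem_primeFactors hp
    have hdvd := Nat.dvd_of_mem_primeFactors hp
    have hp2 : p ≠ 2 := by
      rintro rfl
      exact (Nat.not_even_iff_odd.2 hn) (even_iff_two_dvd.2 hdvd)
    obtain ⟨h1, h2⟩ := Low_fL hpp (norm_alF n j p hpp hp2) hs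
    rw [← hqd] at h1
    have hpos : 0 < ‖fL (alF n j p) p s‖ := lt_of_lt_of_le (by positivity) h1
    rw [norm_inv]
    constructor
    · refine le_trans ?_ hDq
      exact inv_anti₀ (by positivity) h1
    · exact inv_anti₀ hpos (h2.trans hD4)
  unfold uF
  rw [norm_prod]
  constructor
  · calc ∏ p ∈ n.primeFactors, ‖(fL (alF n j p) p s)⁻¹‖ ≤ ∏ _p ∈ n.primeFactors, D :=
          Finset.prod_le_prod (fun p _ => norm_nonneg _) fun p hp => (hfac p hp).1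
      _ = D ^ n.primeFactors.card := by rw [Finset.prod_const]
  · calc (D ^ n.primeFactors.card)⁻¹ = ∏ _p ∈ n.primeFactors, D⁻¹ := by
          rw [Finset.prod_const, inv_pow]
      _ ≤ ∏ p ∈ n.primeFactors, ‖(fL (alF n j p) p s)⁻¹‖ :=
          Finset.prod_le_prod (fun p _ => (inv_pos.2 hD0).le) fun p hp => (hfac p hp).2

end W3283g
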