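import Pool.Agent.W_3283e1_h53.GrL
import Pool.Agent.W_3283e1_h53.GrZ
import Pool.Agent.W_3283e1_h53.Low

set_option autoImplicit false

namespace W3283g

open Complex W3283e1 W3283f MeasureTheory Filter Topology

/-- Growth and lower bounds. -/
structure Grw (L W : ℂ → ℂ) (K A : ℝ) : Prop where
  hK : 2 ≤ K
  hA : 1 ≤ A
  Lg : ∀ s : ℂ, -(1 / 8) ≤ s.re → ‖L (1 + s)‖ ≤ A * (2 + ‖s‖) ^ 3
  Wg : ∀ w : ℂ, -(1 / 4) ≤ w.re → ‖W w‖ ≤ A * (2 + ‖w‖) ^ 4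
  Ll : ∀ s : ℂ, K ≤ s.re → A⁻¹ ≤ ‖L (1 + s)‖
  Wl : ∀ w : ℂ, K ≤ w.re → A⁻¹ ≤ ‖W w‖
  Zl : ∀ w : ℂ, K ≤ w.re → A⁻¹ ≤ ‖riemannZeta (1 + w)‖

/-- `LLF n j s = LG (aFam n j) (kF n j) s * uF n j s` (`LG_grow`, `LG_low`, `uF_bd`, `thData_fam`),
`WW w = LE 2 (2 + w) * L4 (1 + w)` (`LE2_grow`, `LE2_low`, `L4_grow`, `L4_low`), `zeta_low`. -/
theorem grw_fam (n j : ℕ) (hj : j = 0 ∨ j = 1) (hn : Odd n) (hs : Squarefree n) :
    ∃ K A : ℝ, Grw (LLF n j) WW K A := by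
  have hT := thData_fam n j hj hn hs
  obtain ⟨C1, hC1, g1⟩ := LG_grow _ _ _ hT
  obtain ⟨C2, hC2, g2⟩ := LE2_grow
  obtain ⟨C3, hC3, g3⟩ := uF_bd n j hn
  obtain ⟨K1, l1⟩ := LG_low _ _ _ hT
  obtain ⟨K2, l2⟩ := LE2_low
  obtain ⟨K3, l3⟩ := L4_low
  obtain ⟨K4, l4⟩ := zeta_low
  have hCC : 0 < C1 * C3 := mul_pos hC1 hC3
  set A : ℝ := 4 + 4 * C3 + 4 * (C1 * C3) + 16 * C2 with hA
  set K : ℝ := 2 + |K1| + |K2| + |K3| + |K4| with hK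
  have a1 := abs_nonneg K1
  have a2 := abs_nonneg K2
  have a3 := abs_nonneg K3
  have a4 := abs_nonneg K4
  have b1 := le_abs_self K1
  have b2 := le_abs_self K2
  have b3 := le_abs_self K3
  have b4 := le_abs_self K4
  have hA0 : 0 < A := by rw [hA]; positivity
  have hAle : ∀ x : ℝ, 1 / 4 ≤ x → A⁻¹ ≤ x := by
    intro x hx
    refine le_trans ?_ hx
    rw [one_div]
    exact inv_anti₀ (by norm_num) (by rw [hA]; nlinarith)
  refine ⟨K, A, ⟨by rw [hK]; linarith, by rw [hA]; nlinarith, ?_, ?_, ?_, ?_, ?_⟩⟩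
  · intro s hs'
    have e1 : (1 + s).re = 1 + s.re := by simp
    have h1 := g1 (1 + s) (by rw [e1]; linarith)
    have h2 := (g3 (1 + s) (by rw [e1]; linarith)).1
    have h3 : ‖(1 : ℂ) + s‖ ≤ 1 + ‖s‖ := (norm_add_le _ _).trans (by rw [norm_one])
    have h0 : 0 ≤ ‖s‖ := norm_nonneg s
    have h00 : 0 ≤ ‖(1 : ℂ) + s‖ := norm_nonneg _
    unfold LLF
    rw [norm_mul]
    have h4 : (2 + ‖(1 : ℂ) + s‖) ^ 3 ≤ (3 / 2 * (2 + ‖s‖)) ^ 3 :=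
      pow_le_pow_left₀ (by positivity) (by linarith) 3
    have h5 : ‖LG (aFam n j) (kF n j) (1 + s)‖ * ‖uF n j (1 + s)‖ ≤
        (C1 * (2 + ‖(1 : ℂ) + s‖) ^ 3) * C3 :=
      mul_le_mul h1 h2 (norm_nonneg _) (by positivity)
    refine h5.trans ?_
    have h6 : C1 * (2 + ‖(1 : ℂ) + s‖) ^ 3 * C3 ≤ (C1 * C3) * (3 / 2 * (2 + ‖s‖)) ^ 3 := by
      rw [mul_right_comm]
      exact mul_le_mul_of_nonneg_left h4 hCC.le
    refine h6.trans ?_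
    have h7 : (C1 * C3) * (3 / 2 * (2 + ‖s‖)) ^ 3 = (27 / 8 * (C1 * C3)) * (2 + ‖s‖) ^ 3 := by ring
    rw [h7]
    refine mul_le_mul_of_nonneg_right ?_ (by positivity)
    rw [hA]
    linarith
  · intro w hw
    have e1 : (2 + w).re = 2 + w.re := by simp
    have e2 : (1 + w).re = 1 + w.re := by simp
    have h1 := g2 (2 + w) (by rw [e1]; linarith)
    have h2 := L4_grow (1 + w) (by rw [e2]; linarith)
    have h0 : 0 ≤ ‖w‖ := norm_nonneg w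
    have h3 : ‖(1 : ℂ) + w‖ ≤ 1 + ‖w‖ := (norm_add_le _ _).trans (by rw [norm_one])
    have h3' : ‖(2 : ℂ) + w‖ ≤ 2 + ‖w‖ := (norm_add_le _ _).trans (by norm_num)
    have h00 : 0 ≤ ‖(2 : ℂ) + w‖ := norm_nonneg _
    unfold WW
    rw [norm_mul]
    have h4 : (2 + ‖(2 : ℂ) + w‖) ^ 3 ≤ (2 * (2 + ‖w‖)) ^ 3 :=
      pow_le_pow_left₀ (by positivity) (by linarith) 3
    have h5 : ‖LE 2 (2 + w)‖ * ‖L4 (1 + w)‖ ≤
        (C2 * (2 * (2 + ‖w‖)) ^ 3) * (2 * (2 + ‖w‖)) := by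
      refine mul_le_mul (h1.trans (mul_le_mul_of_nonneg_left h4 hC2.le)) ?_ (norm_nonneg _)
        (by positivity)
      linarith
    refine h5.trans ?_
    have h7 : (C2 * (2 * (2 + ‖w‖)) ^ 3) * (2 * (2 + ‖w‖)) = (16 * C2) * (2 + ‖w‖) ^ 4 := by ring
    rw [h7]
    refine mul_le_mul_of_nonneg_right ?_ (by positivity)
    rw [hA]
    linarith
  · intro s hs'
    have e1 : (1 + s).re = 1 + s.re := by simp
    have h1 := l1 (1 + s) (by rw [e1]; linarith)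
    have h2 := (g3 (1 + s) (by rw [e1]; linarith)).2
    unfold LLF
    rw [norm_mul]
    have h3 : 1 / 2 * C3⁻¹ ≤ ‖LG (aFam n j) (kF n j) (1 + s)‖ * ‖uF n j (1 + s)‖ :=
      mul_le_mul h1 h2 (inv_pos.mpr hC3).le (norm_nonneg _)
    refine le_trans ?_ h3
    rw [one_div, ← mul_inv]
    exact inv_anti₀ (by positivity) (by rw [hA]; linarith)
  · intro w hw
    have e1 : (2 + w).re = 2 + w.re := by simp
    have e2 : (1 + w).re = 1 + w.re := by simp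
    have h1 := l2 (2 + w) (by rw [e1]; linarith)
    have h2 := l3 (1 + w) (by rw [e2]; linarith)
    unfold WW
    rw [norm_mul]
    apply hAle
    calc (1 : ℝ) / 4 = 1 / 2 * (1 / 2) := by norm_num
      _ ≤ ‖LE 2 (2 + w)‖ * ‖L4 (1 + w)‖ := mul_le_mul h1 h2 (by norm_num) (norm_nonneg _)
  · intro w hw
    have e2 : (1 + w).re = 1 + w.re := by simp
    have h1 := l4 (1 + w) (by rw [e2]; linarith)
    apply hAle
    linarith

end W3283g
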