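import Pool.Agent.W_3283e1_h53.PLg
import Pool.Agent.W_MP_3283e1_h19.FinH

set_option autoImplicit false

namespace W3283g

open Complex W3283e1 W3283f MeasureTheory Filter Topology

/-- The Mellin transform of a function whose Mellin integral converges everywhere is bounded in
vertical strips. -/
theorem GrL_gen (f : ℝ → ℂ) (h : ∀ s : ℂ, MellinConvergent f s) (x y : ℝ) :
    ∃ B : ℝ, ∀ s : ℂ, x ≤ s.re → s.re ≤ y → ‖mellin f s‖ ≤ B := by
  have hx := (h (x : ℂ)).norm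
  have hy := (h (y : ℂ)).norm
  refine ⟨∫ t in Set.Ioi (0 : ℝ), (‖(t : ℂ) ^ ((x : ℂ) - 1) • f t‖ +
    ‖(t : ℂ) ^ ((y : ℂ) - 1) • f t‖), fun s h1 h2 => ?_⟩
  unfold mellin
  refine norm_integral_le_of_norm_le (hx.add hy) ?_
  filter_upwards [ae_restrict_mem measurableSet_Ioi] with t ht
  have ht' : 0 < t := ht
  rw [norm_smul, norm_smul, norm_smul, norm_cpow_eq_rpow_re_of_pos ht',
    norm_cpow_eq_rpow_re_of_pos ht', norm_cpow_eq_rpow_re_of_pos ht', ← add_mul]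
  refine mul_le_mul_of_nonneg_right ?_ (norm_nonneg _)
  simp only [sub_re, ofReal_re, one_re]
  have p1 : 0 ≤ t ^ (x - 1) := Real.rpow_nonneg ht'.le _
  have p2 : 0 ≤ t ^ (y - 1) := Real.rpow_nonneg ht'.le _
  rcases le_total 1 t with h3 | h3
  · have := Real.rpow_le_rpow_of_exponent_le h3 (show s.re - 1 ≤ y - 1 by linarith)
    linarith
  · have := Real.rpow_le_rpow_of_exponent_ge ht' h3 (show x - 1 ≤ s.re - 1 by linarith)
    linarith

/-- A Dirichlet series is bounded to the right of a point of absolute convergence. -/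
theorem GrL_edge (f : ℕ → ℂ) (σ : ℝ) (h : LSeriesSummable f (σ : ℂ)) :
    ∃ B : ℝ, ∀ s : ℂ, σ ≤ s.re → ‖LSeries f s‖ ≤ B := by
  refine ⟨∑' n, ‖LSeries.term f (σ : ℂ) n‖, fun s hs => ?_⟩
  have h1 : ∀ n, ‖LSeries.term f s n‖ ≤ ‖LSeries.term f (σ : ℂ) n‖ := fun n =>
    LSeries.norm_term_le_of_re_le_re f (by rw [ofReal_re]; exact hs) n
  have h2 : Summable fun n => ‖LSeries.term f (σ : ℂ) n‖ := h.norm
  have h3 : Summable fun n => ‖LSeries.term f s n‖ :=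
    Summable.of_nonneg_of_le (fun n => norm_nonneg _) h1 h2
  exact (norm_tsum_le_tsum_norm h3).trans (h3.tsum_le_tsum h1 h2)

/-- The Mellin transform of `Th` is bounded in vertical strips: for `a ≤ Re s ≤ b` its norm is at
most `∫ t^{Re s - 1} |Th t| dt ≤ ∫ (t^{a-1} + t^{b-1}) |Th t| dt` (`melS_conv`). -/
theorem mel_bd (a : ℕ → ℝ) (κ ε : ℝ) (h : ThData a κ ε) (x y : ℝ) :
    ∃ B : ℝ, ∀ s : ℂ, x ≤ s.re → s.re ≤ y → ‖mellin (fun t => (Th a κ t : ℂ)) s‖ ≤ B :=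
  GrL_gen _ (fun s => melS_conv a κ ε h s) x y

/-- The same for a self-dual function. -/
theorem mel_bd2 (F : ℝ → ℝ) (k : ℝ) (h : SelfDual F k) (x y : ℝ) :
    ∃ B : ℝ, ∀ s : ℂ, x ≤ s.re → s.re ≤ y → ‖mellin (fun t => (F t : ℂ)) s‖ ≤ B :=
  GrL_gen _ (fun s => mellin_conv F k h s) x y

/-- `grow_gen` with `k = 2`, `A = π κ`, `Λ = mellin Th` (`melS_diff`, `melS_fe`, `mel_bd`; on
`Re s ≥ 5/2` the function is `∑ a_m m^{-s}` by `LG_eq`, bounded by `∑ |a_m| m^{-5/2}`,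
`h.sum`). -/
theorem LG_grow (a : ℕ → ℝ) (κ ε : ℝ) (h : ThData a κ ε) :
    ∃ C : ℝ, 0 < C ∧ ∀ s : ℂ, -(1 / 2) ≤ s.re → ‖LG a κ s‖ ≤ C * (2 + ‖s‖) ^ 3 := by
  have hε : ‖(ε : ℂ)‖ = 1 := by
    rcases h.eps with h1 | h1
    · rw [h1]
      simp
    · rw [h1]
      simp
  have hedge : ∃ B : ℝ, ∀ s : ℂ, ((2 : ℝ) + 3) / 2 ≤ s.re →
      ‖((Real.pi * κ : ℝ) : ℂ) ^ s * (Complex.Gamma s)⁻¹ *
        mellin (fun t => (Th a κ t : ℂ)) s‖ ≤ B := by
    obtain ⟨B, hB⟩ := GrL_edge (fun m => (a m : ℂ)) (5 / 2)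
      (LG_summable a κ ε h _ (by rw [ofReal_re]; norm_num))
    refine ⟨B, fun s hs => ?_⟩
    have h2 := (LG_eq a κ ε h s (by linarith)).2
    unfold LG at h2
    rw [h2]
    exact hB s (by linarith)
  obtain ⟨C, hC, hC2⟩ := grow_gen (Real.pi * κ) (LG_pk_pos κ h.κpos) 2 le_rfl
    (mellin (fun t => (Th a κ t : ℂ))) (melS_diff a κ ε h) ε hε
    (fun s => by
      have h3 := melS_fe a κ ε h s
      rw [ofReal_ofNat]
      exact h3)
    (fun x y => mel_bd a κ ε h x y) hedge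
  exact ⟨C, hC, fun s hs => hC2 s (by linarith)⟩

/-- `grow_gen` with `k = 3`, `A = π kap 2`, `Λ = mellin (FF 2)` (`selfDual2`, `mellin_diff`,
`mellin_fe`, `mel_bd2`; on `Re s ≥ 3` the function is `∑ cc 2 m m^{-s}` by `LE_eq2`, bounded by the
absolute convergence `cc_summable 2` at `3`). -/
theorem LE2_grow :
    ∃ C : ℝ, 0 < C ∧ ∀ s : ℂ, 0 ≤ s.re → ‖LE 2 s‖ ≤ C * (2 + ‖s‖) ^ 3 := by
  have hedge : ∃ B : ℝ, ∀ s : ℂ, ((3 : ℝ) + 3) / 2 ≤ s.re →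
      ‖((Real.pi * kap 2 : ℝ) : ℂ) ^ s * (Complex.Gamma s)⁻¹ *
        mellin (fun t => (FF 2 t : ℂ)) s‖ ≤ B := by
    obtain ⟨B, hB⟩ := GrL_edge (cc 2) 3
      (cc_summable 2 _ (by rw [ofReal_re]; norm_num))
    refine ⟨B, fun s hs => ?_⟩
    have h2 := LE_eq2 s (by linarith)
    unfold W3283e1.LE at h2
    rw [h2]
    exact hB s (by linarith)
  obtain ⟨C, hC, hC2⟩ := grow_gen (Real.pi * kap 2)
    (mul_pos Real.pi_pos (lfun_kap_pos 2)) 3 (by norm_num)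
    (mellin (fun t => (FF 2 t : ℂ))) (mellin_diff (FF 2) 3 selfDual2) 1 norm_one
    (fun s => by
      rw [one_mul]
      exact mellin_fe (FF 2) 3 selfDual2 s)
    (fun x y => mel_bd2 (FF 2) 3 selfDual2 x y) hedge
  exact ⟨C, hC, fun s hs => hC2 s (by linarith)⟩

end W3283g
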