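import Pool.Agent.W_3283e1_h53.Loc

set_option autoImplicit false

namespace W3283g

open Complex MeasureTheory Filter Topology

/-! ### Auxiliary results -/

lemma LocL2_cont : Continuous (fun v : ℝ => v * Real.log v ^ 2) := by
  rw [continuous_iff_continuousAt]
  intro v
  by_cases hv : v = 0
  · subst hv
    have hG : Continuous (fun v : ℝ => 4 * (Real.sqrt |v| * Real.log (Real.sqrt |v|)) ^ 2) :=
      continuous_const.mul ((Real.continuous_mul_log.comp
        (Real.continuous_sqrt.comp continuous_abs)).pow 2)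
    have h0 : Tendsto (fun v : ℝ => 4 * (Real.sqrt |v| * Real.log (Real.sqrt |v|)) ^ 2) (𝓝 0)
        (𝓝 0) := by
      have h1 := hG.tendsto 0
      simpa using h1
    rw [ContinuousAt]
    simp only [zero_mul]
    refine squeeze_zero_norm (fun v => ?_) h0
    rw [Real.log_sqrt (abs_nonneg v), Real.log_abs, Real.norm_eq_abs, abs_mul,
      abs_of_nonneg (sq_nonneg (Real.log v)), mul_pow, Real.sq_sqrt (abs_nonneg v)]
    apply le_of_eq
    ring
  · exact continuousAt_id.mul ((Real.continuousAt_log hv).pow 2)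

lemma LocL2_deriv {v : ℝ} (hv : v ≠ 0) :
    HasDerivAt (fun v : ℝ => v * Real.log v ^ 2 - 2 * (v * Real.log v) + 2 * v)
      (Real.log v ^ 2) v := by
  have h1 := (hasDerivAt_id v).mul ((Real.hasDerivAt_log hv).pow 2)
  have h2 := ((hasDerivAt_id v).mul (Real.hasDerivAt_log hv)).const_mul 2
  have h3 := (hasDerivAt_id v).const_mul 2
  refine ((h1.sub h2).add h3).congr_deriv ?_
  simp only [id, Pi.pow_apply]
  field_simp
  ring

lemma LocL2_int :
    ∫⁻ v in Set.Icc (-1 : ℝ) 1, ENNReal.ofReal (Real.log v ^ 2) = ENNReal.ofReal 4 := by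
  have hc : Continuous (fun v : ℝ => v * Real.log v ^ 2 - 2 * (v * Real.log v) + 2 * v) :=
    (LocL2_cont.sub (continuous_const.mul Real.continuous_mul_log)).add
      (continuous_const.mul continuous_id)
  have i1 : IntegrableOn (fun v : ℝ => Real.log v ^ 2) (Set.Ioc (-1) 0) :=
    intervalIntegral.integrableOn_deriv_of_nonneg hc.continuousOn
      (fun x hx => LocL2_deriv (ne_of_lt hx.2)) (fun x _ => sq_nonneg _)
  have i2 : IntegrableOn (fun v : ℝ => Real.log v ^ 2) (Set.Ioc 0 1) :=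
    intervalIntegral.integrableOn_deriv_of_nonneg hc.continuousOn
      (fun x hx => LocL2_deriv (ne_of_gt hx.1)) (fun x _ => sq_nonneg _)
  have i3 : IntegrableOn (fun v : ℝ => Real.log v ^ 2) (Set.Ioc (-1) 1) := by
    rw [← Set.Ioc_union_Ioc_eq_Ioc (by norm_num : (-1 : ℝ) ≤ 0) (by norm_num : (0 : ℝ) ≤ 1)]
    exact i1.union i2
  have h1 : ∫ v in (-1 : ℝ)..1, Real.log v ^ 2 = 4 := by
    rw [MeasureTheory.integral_eq_of_hasDerivAt_off_countable_of_le
      (fun v : ℝ => v * Real.log v ^ 2 - 2 * (v * Real.log v) + 2 * v) (fun v => Real.log v ^ 2)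
      (by norm_num) (Set.countable_singleton (0 : ℝ)) hc.continuousOn
      (fun x hx => LocL2_deriv hx.2)
      ((intervalIntegrable_iff_integrableOn_Ioc_of_le (by norm_num)).2 i3)]
    simp
    norm_num
  rw [intervalIntegral.integral_of_le (by norm_num)] at h1
  have h2 := ofReal_integral_eq_lintegral_ofReal i3 (ae_of_all _ fun v => sq_nonneg (Real.log v))
  rw [h1] at h2
  rw [h2]
  exact (setLIntegral_congr Ioc_ae_eq_Icc).symm

lemma LocL2_point {D x v : ℝ} (hv : v ≠ 0) (hvx : |v| ≤ x) (hx : x ≤ D) :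
    ENNReal.ofReal (Real.log x ^ 2) ≤
      (Set.Icc (-1 : ℝ) 1).indicator (fun v => ENNReal.ofReal (Real.log v ^ 2)) v +
        ENNReal.ofReal (Real.log D ^ 2) := by
  have hv0 : 0 < |v| := abs_pos.2 hv
  have hx0 : 0 < x := hv0.trans_le hvx
  rcases le_or_gt 1 x with h | h
  · refine le_trans ?_ le_add_self
    apply ENNReal.ofReal_le_ofReal
    have h1 : 0 ≤ Real.log x := Real.log_nonneg h
    have h2 : Real.log x ≤ Real.log D := Real.log_le_log hx0 hx
    nlinarith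
  · refine le_trans ?_ le_self_add
    rw [Set.indicator_of_mem (Set.mem_Icc.2 (abs_le.1 (hvx.trans h.le)))]
    apply ENNReal.ofReal_le_ofReal
    have h1 : Real.log x < 0 := Real.log_neg hx0 h
    have h2 : Real.log |v| ≤ Real.log x := Real.log_le_log hv0 hvx
    rw [Real.log_abs] at h2
    nlinarith

lemma LocL2_fin (S : Multiset ℂ) : ∃ (n : ℕ) (g : Fin n → ℂ), n = S.card ∧ (∀ i, g i ∈ S) ∧
    ∀ f : ℂ → ℝ, (S.map f).sum = ∑ i, f (g i) := by
  obtain ⟨l, rfl⟩ := Quot.exists_rep S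
  refine ⟨l.length, fun i => l.get i, rfl, fun i => l.get_mem i, fun f => ?_⟩
  have h : ∑ i : Fin l.length, f (l.get i) = (l.map f).sum := Fin.sum_univ_fun_getElem l f
  rw [h]
  rfl

/-- `(log x)² ≤ 1_{|v| ≤ 1} (log |v|)² + (log D)²` for `|v| ≤ x ≤ D`, `1 ≤ D`, `v = t - Im ρ`,
`x = ‖σ + it - ρ‖`; and `∫_{-1}^{1} (log |v|)² dv = 4`. -/
theorem log_sq_int (D : ℝ) (hD : 1 ≤ D) (ρ : ℂ) (σ a b : ℝ) (hab : a ≤ b) (hb : b ≤ a + 1)
    (h : ∀ t ∈ Set.Icc a b, ‖(σ : ℂ) + t * I - ρ‖ ≤ D) :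
    ∫⁻ t in Set.Icc a b, ENNReal.ofReal ((Real.log ‖(σ : ℂ) + t * I - ρ‖) ^ 2) ≤
      ENNReal.ofReal (4 + (Real.log D) ^ 2) := by
  set G : ℝ → ENNReal := (Set.Icc (-1 : ℝ) 1).indicator (fun v => ENNReal.ofReal (Real.log v ^ 2))
    with hG
  have hGm : Measurable G := by
    refine Measurable.indicator ?_ measurableSet_Icc
    exact ENNReal.measurable_ofReal.comp (Real.measurable_log.pow_const 2)
  have h1 : ∫⁻ t in Set.Icc a b, ENNReal.ofReal ((Real.log ‖(σ : ℂ) + t * I - ρ‖) ^ 2) ≤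
      ∫⁻ t in Set.Icc a b, (G (t - ρ.im) + ENNReal.ofReal (Real.log D ^ 2)) := by
    refine lintegral_mono_ae ?_
    have h2 : ∀ᵐ t : ℝ ∂(volume.restrict (Set.Icc a b)), t ≠ ρ.im :=
      ae_restrict_of_ae (Measure.ae_ne volume ρ.im)
    filter_upwards [h2, ae_restrict_mem measurableSet_Icc] with t ht ht'
    refine LocL2_point (sub_ne_zero.2 ht) ?_ (h t ht')
    have h3 : t - ρ.im = ((σ : ℂ) + t * I - ρ).im := by simp
    rw [h3]
    exact Complex.abs_im_le_norm _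
  refine h1.trans ?_
  rw [lintegral_add_right _ measurable_const, setLIntegral_const, Real.volume_Icc]
  have h4 : ∫⁻ t in Set.Icc a b, G (t - ρ.im) ≤ ENNReal.ofReal 4 := by
    calc ∫⁻ t in Set.Icc a b, G (t - ρ.im) ≤ ∫⁻ t, G (t - ρ.im) := setLIntegral_le_lintegral _ _
      _ = ∫⁻ t, G t := lintegral_sub_right_eq_self G ρ.im
      _ = ∫⁻ v in Set.Icc (-1 : ℝ) 1, ENNReal.ofReal (Real.log v ^ 2) :=
          lintegral_indicator measurableSet_Icc _
      _ = ENNReal.ofReal 4 := LocL2_int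
  have h5 : ENNReal.ofReal (Real.log D ^ 2) * ENNReal.ofReal (b - a) ≤
      ENNReal.ofReal (Real.log D ^ 2) := by
    rw [← ENNReal.ofReal_mul (sq_nonneg _)]
    apply ENNReal.ofReal_le_ofReal
    exact mul_le_of_le_one_right (sq_nonneg _) (by linarith)
  rw [ENNReal.ofReal_add (by norm_num) (sq_nonneg _)]
  exact add_le_add h4 h5

/-- `L²` form of `loc_log`.  For `0 < σ ≤ 1/32` and `|t - τ| ≤ 1/4` the point `σ + it` is in
`closedBall (K + iτ) (K + 1/32)` (its distance is at most `√(K² + 1/16) ≤ K + 1/64`... use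
`(K - σ)² + 1/16 ≤ K² + 1/16 ≤ (K + 1/32)²`, as `K ≥ 2`).  By `loc_log`
`‖ℓ‖² ≤ 2 C² M² + 2 (card S) ∑_S (log ‖z - ρ‖)²` (Cauchy-Schwarz), and `log_sq_int` with
`D = 2 K + 1` bounds each integral; `card S ≤ C M`. -/
theorem loc_L2 (K : ℝ) (hK : 2 ≤ K) :
    ∃ C : ℝ, 0 < C ∧ ∀ (τ M : ℝ) (h1 h2 ℓ : ℂ → ℂ), 1 ≤ M →
      AnalyticOnNhd ℂ h1 (Metric.closedBall ((K : ℂ) + τ * I) (K + 1 / 8)) →
      AnalyticOnNhd ℂ h2 (Metric.closedBall ((K : ℂ) + τ * I) (K + 1 / 8)) →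
      (∀ z ∈ Metric.closedBall ((K : ℂ) + τ * I) (K + 1 / 8), ‖h1 z‖ ≤ Real.exp M) →
      (∀ z ∈ Metric.closedBall ((K : ℂ) + τ * I) (K + 1 / 8), ‖h2 z‖ ≤ Real.exp M) →
      Real.exp (-M) ≤ ‖h1 ((K : ℂ) + τ * I)‖ → Real.exp (-M) ≤ ‖h2 ((K : ℂ) + τ * I)‖ →
      (∀ z : ℂ, 0 < z.re → h1 z ≠ 0) → (∀ z : ℂ, 0 < z.re → h2 z ≠ 0) →
      ContinuousOn ℓ {z : ℂ | 0 < z.re} →
      (∀ z : ℂ, 0 < z.re → h1 z * Complex.exp (ℓ z) = h2 z) →
      ‖ℓ ((K : ℂ) + τ * I)‖ ≤ M →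
      (∀ σ : ℝ, 0 < σ → σ ≤ 1 / 32 →
        ∫⁻ t in Set.Icc (τ - 1 / 4) (τ + 1 / 4), ‖ℓ ((σ : ℂ) + t * I)‖ₑ ^ 2 ≤
          ENNReal.ofReal (C * M ^ 2)) ∧
      ∀ σ : ℝ, 0 < σ → σ ≤ 1 → ‖ℓ ((σ : ℂ) + τ * I)‖ ≤ C * M * (1 + |Real.log σ|) := by
  obtain ⟨C0, hC0, H⟩ := loc_log K hK
  set D : ℝ := 2 * K + 1 with hDdef
  have hD : 1 ≤ D := by rw [hDdef]; linarith
  have hlD : 0 ≤ Real.log D := Real.log_nonneg hD
  refine ⟨C0 ^ 2 * (9 + 2 * Real.log D ^ 2) + C0 * (1 + Real.log D), by positivity, ?_⟩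
  intro τ M h1 h2 ℓ hM a1 a2 b1 b2 c1 c2 d1 d2 hℓc hℓ hℓM
  obtain ⟨S, hcard, hS, hbd⟩ := H τ M h1 h2 ℓ hM a1 a2 b1 b2 c1 c2 d1 d2 hℓc hℓ hℓM
  obtain ⟨n, g, hn, hg, hsum⟩ := LocL2_fin S
  have hnM : (n : ℝ) ≤ C0 * M := by rw [hn]; exact hcard
  have hM0 : 0 < M := by linarith
  have hdist : ∀ z ∈ Metric.closedBall ((K : ℂ) + τ * I) (K + 1 / 32), ∀ i, ‖z - g i‖ ≤ D := by
    intro z hz i
    have h3 := (hS (g i) (hg i)).1
    rw [Metric.mem_closedBall, dist_eq_norm] at hz h3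
    have h4 : z - g i = (z - ((K : ℂ) + τ * I)) - (g i - ((K : ℂ) + τ * I)) := by ring
    rw [h4]
    refine (norm_sub_le _ _).trans ?_
    rw [hDdef]
    linarith
  have hre : ∀ i, (g i).re ≤ 0 := fun i => (hS (g i) (hg i)).2
  constructor
  · intro σ hσ hσ1
    have hball : ∀ t ∈ Set.Icc (τ - 1 / 4) (τ + 1 / 4),
        (σ : ℂ) + t * I ∈ Metric.closedBall ((K : ℂ) + τ * I) (K + 1 / 32) := by
      intro t ht
      rw [Metric.mem_closedBall, dist_eq_norm]
      have h3 : ((σ : ℂ) + t * I - ((K : ℂ) + τ * I)) = ((σ - K : ℝ) : ℂ) + ((t - τ : ℝ) : ℂ) * I := by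
        push_cast; ring
      rw [h3, Complex.norm_add_mul_I, Real.sqrt_le_left (by linarith)]
      have h4 : (t - τ) ^ 2 ≤ (1 / 4) ^ 2 :=
        sq_le_sq' (by linarith [ht.1]) (by linarith [ht.2])
      nlinarith
    set L : Fin n → ℝ → ℝ := fun i t => Real.log ‖(σ : ℂ) + t * I - g i‖ with hL
    have hLm : ∀ i, Measurable (fun t => ENNReal.ofReal (L i t ^ 2)) := by
      intro i
      refine ENNReal.measurable_ofReal.comp (Measurable.pow_const (Real.measurable_log.comp ?_) 2)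
      fun_prop
    have hpt : ∀ t ∈ Set.Icc (τ - 1 / 4) (τ + 1 / 4), ‖ℓ ((σ : ℂ) + t * I)‖ₑ ^ 2 ≤
        ENNReal.ofReal (2 * (C0 * M) ^ 2) +
          ENNReal.ofReal (2 * n) * ∑ i, ENNReal.ofReal (L i t ^ 2) := by
      intro t ht
      have h3 := hbd _ (hball t ht) (by simpa using hσ)
      rw [hsum] at h3
      have h4 : ‖ℓ ((σ : ℂ) + t * I)‖ ^ 2 ≤ 2 * (C0 * M) ^ 2 + 2 * n * ∑ i, L i t ^ 2 := by
        have h5 : (∑ i, |L i t|) ^ 2 ≤ n * ∑ i, L i t ^ 2 := by
          have h6 := sq_sum_le_card_mul_sum_sq (s := (Finset.univ : Finset (Fin n)))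
            (f := fun i => |L i t|)
          simpa using h6
        have h7 : ‖ℓ ((σ : ℂ) + t * I)‖ ≤ C0 * M + ∑ i, |L i t| := h3
        have h8 : 0 ≤ ∑ i, |L i t| := Finset.sum_nonneg fun i _ => abs_nonneg _
        have h9 : 0 ≤ C0 * M := by positivity
        have h10 : ‖ℓ ((σ : ℂ) + t * I)‖ ^ 2 ≤ (C0 * M + ∑ i, |L i t|) ^ 2 :=
          pow_le_pow_left₀ (norm_nonneg _) h7 2
        nlinarith [sq_nonneg (C0 * M - ∑ i, |L i t|)]
      rw [← ofReal_norm, ← ENNReal.ofReal_pow (norm_nonneg _),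
        ← ENNReal.ofReal_sum_of_nonneg (fun i _ => sq_nonneg _),
        ← ENNReal.ofReal_mul (by positivity), ← ENNReal.ofReal_add (by positivity)
          (mul_nonneg (by positivity) (Finset.sum_nonneg fun i _ => sq_nonneg _))]
      exact ENNReal.ofReal_le_ofReal h4
    calc ∫⁻ t in Set.Icc (τ - 1 / 4) (τ + 1 / 4), ‖ℓ ((σ : ℂ) + t * I)‖ₑ ^ 2
        ≤ ∫⁻ t in Set.Icc (τ - 1 / 4) (τ + 1 / 4), (ENNReal.ofReal (2 * (C0 * M) ^ 2) +
          ENNReal.ofReal (2 * n) * ∑ i, ENNReal.ofReal (L i t ^ 2)) :=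
          setLIntegral_mono' measurableSet_Icc hpt
      _ = ENNReal.ofReal (2 * (C0 * M) ^ 2) * ENNReal.ofReal (1 / 2) +
          ENNReal.ofReal (2 * n) * ∑ i, ∫⁻ t in Set.Icc (τ - 1 / 4) (τ + 1 / 4),
            ENNReal.ofReal (L i t ^ 2) := by
          rw [lintegral_add_left measurable_const, setLIntegral_const, Real.volume_Icc,
            lintegral_const_mul _ (Finset.measurable_sum _ fun i _ => hLm i),
            lintegral_finsetSum _ (fun i _ => hLm i)]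
          congr 3
          ring
      _ ≤ ENNReal.ofReal (2 * (C0 * M) ^ 2) * ENNReal.ofReal (1 / 2) +
          ENNReal.ofReal (2 * n) * ∑ _i : Fin n, ENNReal.ofReal (4 + Real.log D ^ 2) := by
          gcongr with i _
          exact log_sq_int D hD (g i) σ _ _ (by linarith) (by linarith)
            fun t ht => hdist _ (hball t ht) i
      _ = ENNReal.ofReal ((C0 * M) ^ 2 + 2 * n * (n * (4 + Real.log D ^ 2))) := by
          rw [Finset.sum_const, Finset.card_univ, Fintype.card_fin, nsmul_eq_mul,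
            ← ENNReal.ofReal_natCast, ← ENNReal.ofReal_mul (by positivity),
            ← ENNReal.ofReal_mul (by positivity), ← ENNReal.ofReal_mul (by positivity),
            ← ENNReal.ofReal_add (by positivity) (by positivity)]
          congr 1
          ring
      _ ≤ _ := by
          apply ENNReal.ofReal_le_ofReal
          have h5 : (n : ℝ) * n ≤ (C0 * M) * (C0 * M) :=
            mul_le_mul hnM hnM (Nat.cast_nonneg n) (by positivity)
          have h6 : 0 ≤ C0 * (1 + Real.log D) * M ^ 2 := by positivity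
          have h7 : 0 ≤ 4 + Real.log D ^ 2 := by positivity
          have h8 : (n : ℝ) * n * (4 + Real.log D ^ 2) ≤
              (C0 * M) * (C0 * M) * (4 + Real.log D ^ 2) := mul_le_mul_of_nonneg_right h5 h7
          nlinarith
  · intro σ hσ hσ1
    have hz : (σ : ℂ) + τ * I ∈ Metric.closedBall ((K : ℂ) + τ * I) (K + 1 / 32) := by
      rw [Metric.mem_closedBall, dist_eq_norm]
      have h3 : ((σ : ℂ) + τ * I - ((K : ℂ) + τ * I)) = ((σ - K : ℝ) : ℂ) := by push_cast; ring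
      rw [h3, Complex.norm_real, Real.norm_eq_abs, abs_le]
      constructor <;> linarith
    have h3 := hbd _ hz (by simpa using hσ)
    rw [hsum] at h3
    have h4 : ∀ i ∈ (Finset.univ : Finset (Fin n)),
        |Real.log ‖(σ : ℂ) + τ * I - g i‖| ≤ |Real.log σ| + Real.log D := by
      intro i _
      have h5 := hdist _ hz i
      have h6 : σ ≤ ‖(σ : ℂ) + τ * I - g i‖ := by
        have h7 := Complex.re_le_norm ((σ : ℂ) + τ * I - g i)
        have h8 : ((σ : ℂ) + τ * I - g i).re = σ - (g i).re := by simp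
        rw [h8] at h7
        linarith [hre i]
      have h9 := Real.log_le_log hσ h6
      have h10 := Real.log_le_log (hσ.trans_le h6) h5
      rw [abs_le]
      constructor
      · linarith [neg_abs_le (Real.log σ)]
      · linarith [abs_nonneg (Real.log σ)]
    have h5 := Finset.sum_le_sum h4
    rw [Finset.sum_const, Finset.card_univ, Fintype.card_fin, nsmul_eq_mul] at h5
    have h6 : 0 ≤ |Real.log σ| := abs_nonneg _
    have h7 : (n : ℝ) * (|Real.log σ| + Real.log D) ≤ C0 * M * (|Real.log σ| + Real.log D) :=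
      mul_le_mul_of_nonneg_right hnM (by positivity)
    have h8 : 0 ≤ C0 ^ 2 * (9 + 2 * Real.log D ^ 2) * M * (1 + |Real.log σ|) := by positivity
    have h9 : 0 ≤ C0 * M * (Real.log D * |Real.log σ|) := by positivity
    nlinarith

end W3283g
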