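import Pool.Agent.W_3283e1_h53.GrAll
import Pool.Agent.W_3283e1_h53.LocL2

set_option autoImplicit false

namespace W3283g

open Complex W3283e1 W3283f MeasureTheory Filter Topology

/-- The identity of `identF` with the bound for `R`. -/
theorem GtB_ident (α : ℕ → ℂ) (L W : ℂ → ℂ) (hD : DataF α L W) :
    ∃ (R : ℂ → ℂ) (C : ℝ), DifferentiableOn ℂ R {s : ℂ | -(1 / 10) < s.re} ∧
      (∀ s : ℂ, -(1 / 10) < s.re → ‖R s‖ ≤ C) ∧
      ∀ s : ℂ, 1 / 2 < s.re →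
        (L (1 + s)) ^ 2 * Complex.exp (2 * GG α s) * W s * ZZ (2 * s) * t2 (2 * s)
          = 2 * W (2 * s) * ZZ s * t2 s * Complex.exp (R s) := by
  obtain ⟨R, hRd, hR0, hRr, hRs⟩ := R_exists α hD.norm_α
  obtain ⟨C0, hC0, hb⟩ := rp_bound
  have hsum := summable_OP_rpow C0
  refine ⟨R, ∑' p : OP, C0 * ((p : ℕ) : ℝ) ^ (-(6 / 5) : ℝ), hRd, ?_, fun s hs => ?_⟩
  · intro s hs
    exact (hRs s hs).norm_le_of_bounded hsum.hasSum
      (fun p => hb (α p) p s p.2.1 (hD.norm_α p p.2.1 p.2.2) hs.le)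
  have hs0 : s ≠ 0 := by
    rintro rfl
    norm_num at hs
  have h2s0 : 2 * s ≠ 0 := mul_ne_zero two_ne_zero hs0
  have hre2 : (2 * s).re = 2 * s.re := by simp
  have hre1 : (1 + s).re = 1 + s.re := by simp
  have hζ1 : riemannZeta (1 + s) ≠ 0 :=
    riemannZeta_ne_zero_of_one_le_re (by rw [hre1]; linarith only [hs])
  have hζ2 : riemannZeta (1 + 2 * s) ≠ 0 :=
    riemannZeta_ne_zero_of_one_le_re (by simp only [Complex.add_re, Complex.one_re, hre2]; linarith)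
  have ht1 : t2 s ≠ 0 := t2_ne s (by linarith)
  have ht2 : t2 (2 * s) ≠ 0 := t2_ne (2 * s) (by rw [hre2]; linarith)
  have hW2 : W (2 * s) ≠ 0 := hD.W_ne (2 * s) (by rw [hre2]; linarith)
  have hA : HasProd (fun p : OP => Complex.exp (rp (α p) p s)) (Complex.exp (R s)) :=
    (hRs s (by linarith)).cexp
  have hB : HasProd (fun p : OP => Complex.exp (2 * ((ell (α p) p : ℂ) * (p : ℂ) ^ (-s))))
      (Complex.exp (2 * GG α s)) := ((hasSum_GG α hD.norm_α s hs).mul_left 2).cexp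
  have hC := hD.L_prod (1 + s) (by rw [hre1]; linarith)
  have hE := hD.W_prod s (by linarith)
  have hF := (hD.W_prod (2 * s) (by rw [hre2]; linarith only [hs])).inv₀
    (div_ne_zero hW2 (mul_ne_zero hζ2 ht2))
  have hG := ((hB.mul (hC.mul hC)).mul hE).mul hF
  have hfun : (fun p : OP => Complex.exp (rp (α p) p s)) = fun p : OP =>
      Complex.exp (2 * ((ell (α p) p : ℂ) * (p : ℂ) ^ (-s))) *
        ((fL (α p) p (1 + s))⁻¹ * (fL (α p) p (1 + s))⁻¹) * (fM (α p) p s)⁻¹ *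
        ((fM (α p) p (2 * s))⁻¹)⁻¹ := by
    funext p
    rw [rp_exp (α p) p p.2.1 (hD.norm_α p p.2.1 p.2.2) s (by linarith), inv_inv, sq]
  rw [hfun] at hA
  have hfin := hA.unique hG
  rw [hfin]
  have hZ1 : ZZ s = s * riemannZeta (1 + s) := if_neg hs0
  have hZ2 : ZZ (2 * s) = (2 * s) * riemannZeta (1 + 2 * s) := if_neg h2s0
  rw [hZ1, hZ2]
  have key : ∀ l e w1 z2 u2 w2 z1 u1 : ℂ, w2 ≠ 0 → z2 ≠ 0 → u2 ≠ 0 → z1 ≠ 0 → u1 ≠ 0 →
      l ^ 2 * e * w1 * (2 * s * z2) * u2 =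
        2 * w2 * (s * z1) * u1 * (e * (l * l) * (w1 / (z1 * u1)) * (w2 / (z2 * u2))⁻¹) := by
    intro l e w1 z2 u2 w2 z1 u1 h1 h2 h3 h4 h5
    field_simp
  exact key _ _ _ _ _ _ _ _ hW2 hζ2 ht2 hζ1 ht1

theorem GtB_L1 (L : ℂ → ℂ) (hL : DifferentiableOn ℂ L {s : ℂ | 3 / 4 < s.re}) (s : ℂ)
    (hs : -(1 / 4) < s.re) : AnalyticAt ℂ (fun s : ℂ => L (1 + s)) s := by
  have ho3 : IsOpen {s : ℂ | 3 / 4 < s.re} := isOpen_lt continuous_const Complex.continuous_re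
  have a1 : AnalyticAt ℂ L (1 + s) := by
    apply hL.analyticAt
    apply ho3.mem_nhds
    change 3 / 4 < (1 + s).re
    rw [Complex.add_re, Complex.one_re]
    linarith only [hs]
  have a2 : AnalyticAt ℂ (fun s : ℂ => 1 + s) s := analyticAt_const.add analyticAt_id
  exact a1.fun_comp a2

theorem GtB_two {f : ℂ → ℂ} (hf : Differentiable ℂ f) (s : ℂ) :
    AnalyticAt ℂ (fun s => f (2 * s)) s := by
  have h2 : Differentiable ℂ (fun s : ℂ => 2 * s) := (differentiable_const _).mul differentiable_id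
  exact (hf.comp h2).analyticAt s

/-- The identity of `identF`, extended to `Re s > 0`, with the bound for the remainder `R`
(`‖R s‖ ≤ ∑_p ‖rp‖ ≤ C ∑ p^{-6/5}`, `rp_bound`, `R_exists`; for the uniqueness of `R` repeat the proof
of `identF`, which takes `R` from `R_exists`).  Identity theorem on the half plane as in `extF`. -/
theorem ident_ext (α : ℕ → ℂ) (L W : ℂ → ℂ) (hD : DataF α L W) (Gt : ℂ → ℂ)
    (hG : DifferentiableOn ℂ Gt {s : ℂ | 0 < s.re})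
    (hGG : ∀ s : ℂ, 1 / 2 < s.re → Gt s = GG α s) :
    ∃ (R : ℂ → ℂ) (C : ℝ), DifferentiableOn ℂ R {s : ℂ | -(1 / 10) < s.re} ∧
      (∀ s : ℂ, -(1 / 10) < s.re → ‖R s‖ ≤ C) ∧
      ∀ s : ℂ, 0 < s.re →
        (L (1 + s)) ^ 2 * Complex.exp (2 * Gt s) * W s * ZZ (2 * s) * t2 (2 * s)
          = 2 * W (2 * s) * ZZ s * t2 s * Complex.exp (R s) := by
  obtain ⟨R, C, hRd, hRb, hid⟩ := GtB_ident α L W hD
  refine ⟨R, C, hRd, hRb, ?_⟩
  have ho : IsOpen {s : ℂ | 0 < s.re} := isOpen_lt continuous_const Complex.continuous_re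
  have ho1 : IsOpen {s : ℂ | -(1 / 10) < s.re} := isOpen_lt continuous_const Complex.continuous_re
  have ho2 : IsOpen {s : ℂ | 1 / 2 < s.re} := isOpen_lt continuous_const Complex.continuous_re
  have hf : AnalyticOnNhd ℂ (fun s => (L (1 + s)) ^ 2 * Complex.exp (2 * Gt s) * W s *
      ZZ (2 * s) * t2 (2 * s)) {s : ℂ | 0 < s.re} := by
    intro s hs
    have hs' : 0 < s.re := hs
    have a3 := GtB_L1 L hD.L_diff s (by linarith)
    have a4 : AnalyticAt ℂ Gt s := hG.analyticAt (ho.mem_nhds hs)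
    exact ((((a3.pow 2).mul (analyticAt_const.mul a4).cexp).mul (hD.W_diff.analyticAt s)).mul
      (GtB_two ZZ_diff s)).mul (GtB_two t2_diff s)
  have hg : AnalyticOnNhd ℂ (fun s => 2 * W (2 * s) * ZZ s * t2 s * Complex.exp (R s))
      {s : ℂ | 0 < s.re} := by
    intro s hs
    have hs' : 0 < s.re := hs
    have a4 : AnalyticAt ℂ R s := by
      apply hRd.analyticAt
      apply ho1.mem_nhds
      change -(1 / 10) < s.re
      linarith
    exact (((analyticAt_const.mul (GtB_two hD.W_diff s)).mul (ZZ_diff.analyticAt s)).mul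
      (t2_diff.analyticAt s)).mul a4.cexp
  have hc : IsPreconnected {s : ℂ | 0 < s.re} := (convex_halfSpace_re_gt 0).isPreconnected
  have h1 : (1 : ℂ) ∈ {s : ℂ | 0 < s.re} := by
    change 0 < (1 : ℂ).re
    rw [Complex.one_re]
    norm_num
  have he : (fun s => (L (1 + s)) ^ 2 * Complex.exp (2 * Gt s) * W s *
      ZZ (2 * s) * t2 (2 * s)) =ᶠ[nhds 1]
      (fun s => 2 * W (2 * s) * ZZ s * t2 s * Complex.exp (R s)) := by
    have h2 : (1 : ℂ) ∈ {s : ℂ | 1 / 2 < s.re} := by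
      change 1 / 2 < (1 : ℂ).re
      rw [Complex.one_re]
      norm_num
    filter_upwards [ho2.mem_nhds h2] with s hs
    have hs' : 1 / 2 < s.re := hs
    rw [hGG s hs']
    exact hid s hs'
  exact fun s hs => hf.eqOn_of_preconnected_of_eventuallyEq hg hc h1 he hs

/-- `GG` is bounded on vertical lines. -/
theorem GtB_GG (α : ℕ → ℂ) (hα : ∀ p : ℕ, p.Prime → p ≠ 2 → ‖α p‖ ^ 2 = p) (K : ℝ) (hK : 2 ≤ K) :
    ∃ G0 : ℝ, 0 ≤ G0 ∧ ∀ τ : ℝ, ‖GG α ((K : ℂ) + τ * I)‖ ≤ G0 := by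
  have hK' : 1 / 2 < ((K : ℝ) : ℂ).re := by
    rw [Complex.ofReal_re]
    linarith
  have h1 := (summable_el α hα (K : ℂ) hK').norm
  refine ⟨∑' n, ‖LSeries.term (fun n => (el α n : ℂ)) (K : ℂ) n‖,
    tsum_nonneg fun n => norm_nonneg _, fun τ => ?_⟩
  refine tsum_of_norm_bounded h1.hasSum fun n => ?_
  refine LSeries.norm_term_le_of_re_le_re _ ?_ n
  simp

/-- Upper bounds. -/
theorem GtB_up (L W : ℂ → ℂ) (K A : ℝ) (hG : Grw L W K A) (τ : ℝ) (z : ℂ)
    (hz : z ∈ Metric.closedBall ((K : ℂ) + τ * I) (K + 1 / 8)) :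
    -(1 / 8) ≤ z.re ∧
    ‖(L (1 + z)) ^ 2 * W z * ZZ (2 * z) * t2 (2 * z)‖ ≤
      192 * A ^ 3 * ((2 * K + 3) * (2 + |τ|)) ^ 12 ∧
    ‖2 * W (2 * z) * ZZ z * t2 z‖ ≤ 192 * A ^ 3 * ((2 * K + 3) * (2 + |τ|)) ^ 12 := by
  have hK := hG.hK
  have hA := hG.hA
  rw [Metric.mem_closedBall, dist_eq_norm] at hz
  have hre : -(1 / 8) ≤ z.re := by
    have h1 := Complex.abs_re_le_norm (z - ((K : ℂ) + τ * I))
    have h2 : (z - ((K : ℂ) + τ * I)).re = z.re - K := by simp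
    rw [h2] at h1
    have h3 := (abs_le.1 (h1.trans hz)).1
    linarith only [h3]
  have hre2 : (2 * z).re = 2 * z.re := by simp
  have hn : ‖z‖ ≤ 2 * K + 1 / 8 + |τ| := by
    have h1 : z = (z - ((K : ℂ) + τ * I)) + ((K : ℂ) + τ * I) := by ring
    have h2 : ‖(K : ℂ) + τ * I‖ ≤ K + |τ| := by
      refine (norm_add_le _ _).trans ?_
      rw [norm_mul, Complex.norm_I, mul_one, Complex.norm_real, Complex.norm_real,
        Real.norm_eq_abs, Real.norm_eq_abs, abs_of_nonneg (by linarith : (0 : ℝ) ≤ K)]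
    rw [h1]
    refine (norm_add_le _ _).trans ?_
    linarith only [hz, h2]
  have hτ := abs_nonneg τ
  set T : ℝ := 2 + |τ| with hT
  set P : ℝ := 2 * K + 3 with hP
  have hz0 := norm_nonneg z
  have hPT : 2 + ‖z‖ ≤ P * T := by
    rw [hP, hT]
    nlinarith only [hK, hn, hτ]
  have hPT1 : 1 ≤ P * T := by linarith only [hz0, hPT]
  have hn2 : ‖2 * z‖ = 2 * ‖z‖ := by rw [norm_mul, Complex.norm_ofNat]
  have b1 := hG.Lg z hre
  have b2 := hG.Wg z (by linarith only [hre])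
  have b3 := hG.Wg (2 * z) (by rw [hre2]; linarith)
  have b4 := ZZ_grow (2 * z) (by rw [hre2]; linarith only [hre])
  have b5 := ZZ_grow z (by linarith)
  have b6 := (t2_bd (2 * z) (by rw [hre2]; linarith)).1
  have b7 := (t2_bd z (by linarith)).1
  rw [hn2] at b3 b4
  have c1 : ‖L (1 + z)‖ ≤ A * (P * T) ^ 3 :=
    b1.trans (mul_le_mul_of_nonneg_left (pow_le_pow_left₀ (by linarith only [hz0]) hPT 3) (by linarith))
  have c2 : ‖W z‖ ≤ A * (P * T) ^ 4 :=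
    b2.trans (mul_le_mul_of_nonneg_left (pow_le_pow_left₀ (by linarith only [hz0]) hPT 4) (by linarith))
  have c3 : ‖W (2 * z)‖ ≤ A * (2 * (P * T)) ^ 4 :=
    b3.trans (mul_le_mul_of_nonneg_left (pow_le_pow_left₀ (by linarith only [hz0]) (by linarith only [hPT]) 4)
      (by linarith only [hA]))
  have c4 : ‖ZZ (2 * z)‖ ≤ 3 * (2 * (P * T)) ^ 2 :=
    b4.trans (mul_le_mul_of_nonneg_left (pow_le_pow_left₀ (by linarith only [hz0]) (by linarith only [hPT]) 2)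
      (by norm_num))
  have c5 : ‖ZZ z‖ ≤ 3 * (P * T) ^ 2 :=
    b5.trans (mul_le_mul_of_nonneg_left (pow_le_pow_left₀ (by linarith only [hz0]) (by linarith only [hPT]) 2)
      (by norm_num))
  set X : ℝ := P * T with hX
  have hX0 : 0 ≤ X := by linarith only [hPT1]
  have hA0 : 0 ≤ A := by linarith only [hA]
  refine ⟨hre, ?_, ?_⟩
  · rw [norm_mul, norm_mul, norm_mul, norm_pow]
    calc ‖L (1 + z)‖ ^ 2 * ‖W z‖ * ‖ZZ (2 * z)‖ * ‖t2 (2 * z)‖
        ≤ (A * X ^ 3) ^ 2 * (A * X ^ 4) * (3 * (2 * X) ^ 2) * 2 := by gcongr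
      _ = 24 * A ^ 3 * X ^ 12 := by ring
      _ ≤ 192 * A ^ 3 * X ^ 12 := by
          have : 0 ≤ A ^ 3 * X ^ 12 := by positivity
          linarith only [this]
  · rw [norm_mul, norm_mul, norm_mul, Complex.norm_ofNat]
    calc 2 * ‖W (2 * z)‖ * ‖ZZ z‖ * ‖t2 z‖
        ≤ 2 * (A * (2 * X) ^ 4) * (3 * X ^ 2) * 2 := by gcongr
      _ = 192 * (A * X ^ 6) := by ring
      _ ≤ 192 * (A ^ 3 * X ^ 12) := by
          have h1 : A ≤ A ^ 3 := le_self_pow₀ hA (by norm_num)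
          have h2 : X ^ 6 ≤ X ^ 12 := pow_le_pow_right₀ hPT1 (by norm_num)
          gcongr
      _ = 192 * A ^ 3 * X ^ 12 := by ring

/-- Lower bounds at the centre. -/
theorem GtB_low (L W : ℂ → ℂ) (K A : ℝ) (hG : Grw L W K A) (c : ℂ) (hc : K ≤ c.re) :
    (2 * A ^ 4)⁻¹ ≤ ‖(L (1 + c)) ^ 2 * W c * ZZ (2 * c) * t2 (2 * c)‖ ∧
    (2 * A ^ 4)⁻¹ ≤ ‖2 * W (2 * c) * ZZ c * t2 c‖ := by
  have hK := hG.hK
  have hA := hG.hA
  have hA0 : 0 < A := by linarith
  have hre2 : (2 * c).re = 2 * c.re := by simp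
  have hZ : ∀ w : ℂ, K ≤ w.re → A⁻¹ ≤ ‖ZZ w‖ := by
    intro w hw
    have hw0 : w ≠ 0 := by
      rintro rfl
      rw [Complex.zero_re] at hw
      linarith
    have h1 : ZZ w = w * riemannZeta (1 + w) := if_neg hw0
    rw [h1, norm_mul]
    have h2 := hG.Zl w hw
    have h3 := Complex.re_le_norm w
    have h4 : 0 < A⁻¹ := inv_pos.2 hA0
    nlinarith only [hK, hw, h2, h3, h4]
  have b1 := hG.Ll c hc
  have b2 := hG.Wl c hc
  have b3 := hG.Wl (2 * c) (by rw [hre2]; linarith)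
  have b4 := hZ (2 * c) (by rw [hre2]; linarith)
  have b5 := hZ c hc
  have b6 := (t2_bd (2 * c) (by rw [hre2]; linarith only [hc, hK])).2 (by rw [hre2]; linarith)
  have b7 := (t2_bd c (by linarith)).2 (by linarith)
  have hi : 0 ≤ A⁻¹ := (inv_pos.2 hA0).le
  have hi1 : A⁻¹ ≤ 1 := inv_le_one_of_one_le₀ hA
  refine ⟨?_, ?_⟩
  · rw [norm_mul, norm_mul, norm_mul, norm_pow]
    calc (2 * A ^ 4)⁻¹ = (A⁻¹) ^ 2 * A⁻¹ * A⁻¹ * (1 / 2) := by
          field_simp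
      _ ≤ ‖L (1 + c)‖ ^ 2 * ‖W c‖ * ‖ZZ (2 * c)‖ * ‖t2 (2 * c)‖ := by gcongr
  · rw [norm_mul, norm_mul, norm_mul, Complex.norm_ofNat]
    calc (2 * A ^ 4)⁻¹ = (1 / 2) * (A⁻¹) ^ 4 := by
          field_simp
      _ ≤ 1 * (A⁻¹) ^ 2 := by
          have h1 : (A⁻¹) ^ 4 ≤ (A⁻¹) ^ 2 := pow_le_pow_of_le_one hi hi1 (by norm_num)
          have h2 : 0 ≤ (A⁻¹) ^ 4 := by positivity
          linarith only [h1, h2]
      _ = 2 * A⁻¹ * A⁻¹ * (1 / 2) := by ring
      _ ≤ 2 * ‖W (2 * c)‖ * ‖ZZ c‖ * ‖t2 c‖ := by gcongr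

/-- Bounds for the continuation of `GG`, by `loc_L2` with centre `K + iτ`,
`h1 s = L(1+s)² W(s) ZZ(2s) t2(2s)`, `h2 s = 2 W(2s) ZZ(s) t2(s)`, `ℓ = 2 Gt - R` and
`M = B log (2 + |τ|)` with `B` large: on `closedBall (K + iτ) (K + 1/8)` we have `Re s ≥ -1/8` and
`‖s‖ ≤ 2K + 1 + |τ|`, so `hG.Lg`, `hG.Wg`, `ZZ_grow`, `t2_bd` bound `h1`, `h2` by a power of
`2 + |τ|`; at the centre `hG.Ll`, `hG.Wl`, `hG.Zl` (`ZZ w = w ζ(1+w)`, `‖w‖ ≥ K`) and `t2_bd`
bound them from below; `‖ℓ(K+iτ)‖ ≤ 2 ∑ ‖el‖ n^{-K} + C` (`summable_el`, `GG`).  No zeros for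
`Re s > 0`: `hRH`, `W_ne`, `ZZ_ne`, `t2_ne`.  Then `2 Gt = ℓ + R`. -/
theorem Gt_bounds (α : ℕ → ℂ) (L W : ℂ → ℂ) (hD : DataF α L W) (K A : ℝ) (hG : Grw L W K A)
    (hRH : ∀ s : ℂ, 0 < s.re → L (1 + s) ≠ 0) (Gt : ℂ → ℂ)
    (hGt : DifferentiableOn ℂ Gt {s : ℂ | 0 < s.re})
    (hGG : ∀ s : ℂ, 1 / 2 < s.re → Gt s = GG α s) :
    ∃ C : ℝ, 0 < C ∧
      (∀ τ σ : ℝ, 0 < σ → σ ≤ 1 / 32 →
        ∫⁻ t in Set.Icc (τ - 1 / 4) (τ + 1 / 4), ‖Gt ((σ : ℂ) + t * I)‖ₑ ^ 2 ≤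
          ENNReal.ofReal (C * (Real.log (2 + |τ|)) ^ 2)) ∧
      ∀ s : ℂ, 0 < s.re → s.re ≤ 1 →
        ‖Gt s‖ ≤ C * Real.log (2 + |s.im|) * (1 + |Real.log s.re|) := by
  obtain ⟨R, CR, hRd, hRb, hid⟩ := ident_ext α L W hD Gt hGt hGG
  obtain ⟨G0, hG0, hGb⟩ := GtB_GG α hD.norm_α K hG.hK
  obtain ⟨C, hC, hloc⟩ := loc_L2 K hG.hK
  have hK := hG.hK
  have hA := hG.hA
  have hA0 : 0 < A := by linarith
  have ho1 : IsOpen {s : ℂ | -(1 / 10) < s.re} := isOpen_lt continuous_const Complex.continuous_re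
  have hCR : 0 ≤ CR := (norm_nonneg _).trans (hRb 0 (by rw [Complex.zero_re]; norm_num))
  set l2 : ℝ := Real.log 2 with hl2
  have hl20 : 0 < l2 := Real.log_pos (by norm_num)
  set Q : ℝ := 192 * A ^ 3 * (2 * K + 3) ^ 12 with hQ
  have hQ1 : 1 ≤ Q := by
    have h1 : 1 ≤ A ^ 3 := one_le_pow₀ hA
    have h2 : 1 ≤ (2 * K + 3) ^ 12 := one_le_pow₀ (by linarith)
    rw [hQ]
    nlinarith only [h1, h2]
  have hQ0 : 0 ≤ Real.log Q := Real.log_nonneg hQ1
  have hA41 : 1 ≤ 2 * A ^ 4 := by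
    have h1 : 1 ≤ A ^ 4 := one_le_pow₀ hA
    linarith only [h1]
  have hA4 : 0 ≤ Real.log (2 * A ^ 4) := Real.log_nonneg hA41
  set B : ℝ := (12 * l2 + Real.log Q + Real.log (2 * A ^ 4) + 2 * G0 + CR + 1) / l2 with hB
  have hB0 : 0 < B := by positivity
  have hBl : B * l2 = 12 * l2 + Real.log Q + Real.log (2 * A ^ 4) + 2 * G0 + CR + 1 := by
    rw [hB]
    field_simp
  -- the local statement for all `τ`
  have key : ∀ τ : ℝ,
      (∀ σ : ℝ, 0 < σ → σ ≤ 1 / 32 →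
        ∫⁻ t in Set.Icc (τ - 1 / 4) (τ + 1 / 4),
          ‖(fun z => 2 * Gt z - R z) ((σ : ℂ) + t * I)‖ₑ ^ 2 ≤
          ENNReal.ofReal (C * (B * Real.log (2 + |τ|)) ^ 2)) ∧
      ∀ σ : ℝ, 0 < σ → σ ≤ 1 → ‖(fun z => 2 * Gt z - R z) ((σ : ℂ) + τ * I)‖ ≤
        C * (B * Real.log (2 + |τ|)) * (1 + |Real.log σ|) := by
    intro τ
    have hT2 : (2 : ℝ) ≤ 2 + |τ| := by linarith [abs_nonneg τ]
    set T : ℝ := 2 + |τ| with hT
    have hT0 : 0 < T := by linarith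
    have hlT : l2 ≤ Real.log T := Real.log_le_log (by norm_num) hT2
    have hM : Real.exp (B * Real.log T) = T ^ B := by
      rw [Real.rpow_def_of_pos hT0, mul_comm]
    have hBT : B * Real.log T = B * l2 + B * (Real.log T - l2) := by ring
    have hB12 : 12 ≤ B := by
      rw [hB, le_div_iff₀ hl20]
      linarith
    have hlow1 : 12 * Real.log T + Real.log Q ≤ B * Real.log T := by
      nlinarith only [hG0, hCR, hA4, hBl, hlT, hB12]
    have hgen : ∀ x : ℝ, x ≤ B * l2 → x ≤ B * Real.log T := by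
      intro x hx
      nlinarith only [hlT, hB12, hx]
    have hexp : Q * T ^ 12 ≤ Real.exp (B * Real.log T) := by
      have h1 : Q * T ^ 12 = Real.exp (12 * Real.log T + Real.log Q) := by
        rw [Real.exp_add, Real.exp_log (by linarith only [hQ1])]
        have h2 : Real.exp (12 * Real.log T) = T ^ 12 := by
          rw [mul_comm, Real.exp_mul, Real.exp_log hT0]
          norm_cast
        rw [h2, mul_comm]
      rw [h1]
      exact Real.exp_le_exp.2 hlow1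
    have hup : 192 * A ^ 3 * ((2 * K + 3) * T) ^ 12 ≤ Real.exp (B * Real.log T) := by
      have h1 : 192 * A ^ 3 * ((2 * K + 3) * T) ^ 12 = Q * T ^ 12 := by
        rw [hQ]
        ring
      rw [h1]
      exact hexp
    have hcl : Real.exp (-(B * Real.log T)) ≤ (2 * A ^ 4)⁻¹ := by
      rw [Real.exp_neg]
      apply inv_anti₀ (by positivity)
      have h1 : 2 * A ^ 4 = Real.exp (Real.log (2 * A ^ 4)) :=
        (Real.exp_log (by positivity)).symm
      rw [h1]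
      apply Real.exp_le_exp.2
      apply hgen
      rw [hBl]
      linarith only [hG0, hCR, hl20, hQ0]
    have hcre : ((K : ℂ) + τ * I).re = K := by simp
    have hlow := GtB_low L W K A hG ((K : ℂ) + τ * I) (by rw [hcre])
    refine hloc τ (B * Real.log T)
      (fun s => (L (1 + s)) ^ 2 * W s * ZZ (2 * s) * t2 (2 * s))
      (fun s => 2 * W (2 * s) * ZZ s * t2 s) (fun z => 2 * Gt z - R z) ?_ ?_ ?_ ?_ ?_ ?_ ?_ ?_ ?_
      ?_ ?_ ?_
    · apply hgen
      rw [hBl]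
      linarith only [hG0, hCR, hl20, hQ0, hA4]
    · intro z hz
      have h1 := (GtB_up L W K A hG τ z hz).1
      exact ((((GtB_L1 L hD.L_diff z (by linarith only [h1])).pow 2).mul (hD.W_diff.analyticAt z)).mul
        (GtB_two ZZ_diff z)).mul (GtB_two t2_diff z)
    · intro z hz
      exact ((analyticAt_const.mul (GtB_two hD.W_diff z)).mul (ZZ_diff.analyticAt z)).mul
        (t2_diff.analyticAt z)
    · intro z hz
      exact ((GtB_up L W K A hG τ z hz).2.1).trans hup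
    · intro z hz
      exact ((GtB_up L W K A hG τ z hz).2.2).trans hup
    · exact hcl.trans hlow.1
    · exact hcl.trans hlow.2
    · intro z hz
      have hre2 : (2 * z).re = 2 * z.re := by simp
      exact mul_ne_zero (mul_ne_zero (mul_ne_zero (pow_ne_zero 2 (hRH z hz)) (hD.W_ne z hz.le))
        (ZZ_ne _ (by rw [hre2]; linarith only [hz]))) (t2_ne _ (by rw [hre2]; linarith only [hz]))
    · intro z hz
      have hre2 : (2 * z).re = 2 * z.re := by simp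
      exact mul_ne_zero (mul_ne_zero (mul_ne_zero two_ne_zero
        (hD.W_ne _ (by rw [hre2]; linarith only [hz]))) (ZZ_ne _ hz.le)) (t2_ne _ (by linarith only [hz]))
    · refine (continuousOn_const.mul hGt.continuousOn).sub (hRd.continuousOn.mono ?_)
      intro z hz
      have hz' : 0 < z.re := hz
      change -(1 / 10) < z.re
      linarith only [hz']
    · intro z hz
      have h1 := hid z hz
      change (L (1 + z)) ^ 2 * W z * ZZ (2 * z) * t2 (2 * z) * Complex.exp (2 * Gt z - R z) =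
        2 * W (2 * z) * ZZ z * t2 z
      have hne := Complex.exp_ne_zero (R z)
      rw [Complex.exp_sub, mul_div_assoc', div_eq_iff hne]
      linear_combination h1
    · have hre : 1 / 2 < ((K : ℂ) + τ * I).re := by
        rw [hcre]
        linarith only [hK]
      change ‖2 * Gt ((K : ℂ) + τ * I) - R ((K : ℂ) + τ * I)‖ ≤ _
      rw [hGG _ hre]
      have h1 := hGb τ
      have h2 := hRb ((K : ℂ) + τ * I) (by rw [hcre]; linarith only [hcre, hre])
      have h3 : ‖2 * GG α ((K : ℂ) + τ * I)‖ = 2 * ‖GG α ((K : ℂ) + τ * I)‖ := by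
        rw [norm_mul, Complex.norm_ofNat]
      refine (norm_sub_le _ _).trans ?_
      rw [h3]
      apply le_trans (by linarith only [h1, h2] : _ ≤ 2 * G0 + CR)
      apply hgen
      rw [hBl]
      linarith only [hl20, hQ0, hA4]
  -- conclusion
  have hGt2 : ∀ z : ℂ, 0 < z.re → ‖Gt z‖ ≤ (‖2 * Gt z - R z‖ + CR) / 2 := by
    intro z hz
    have h1 : 2 * Gt z = (2 * Gt z - R z) + R z := by ring
    have h2 : 2 * ‖Gt z‖ = ‖2 * Gt z‖ := by rw [norm_mul, Complex.norm_ofNat]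
    have h3 := hRb z (by linarith)
    have h4 : ‖2 * Gt z‖ ≤ ‖2 * Gt z - R z‖ + ‖R z‖ := by
      conv_lhs => rw [h1]
      exact norm_add_le _ _
    linarith
  refine ⟨C * B ^ 2 + CR ^ 2 / l2 ^ 2 + C * B + CR / l2, by positivity, ?_, ?_⟩
  · intro τ σ hσ hσ1
    have hT2 : (2 : ℝ) ≤ 2 + |τ| := by linarith [abs_nonneg τ]
    have hlT : l2 ≤ Real.log (2 + |τ|) := Real.log_le_log (by norm_num) hT2
    have h1 := (key τ).1 σ hσ hσ1
    have h2 : ∀ t : ℝ, ‖Gt ((σ : ℂ) + t * I)‖ₑ ^ 2 ≤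
        ‖(fun z => 2 * Gt z - R z) ((σ : ℂ) + t * I)‖ₑ ^ 2 + ENNReal.ofReal (CR ^ 2) := by
      intro t
      have hre : 0 < ((σ : ℂ) + t * I).re := by simpa using hσ
      have h3 := hGt2 _ hre
      have h4 : ‖Gt ((σ : ℂ) + t * I)‖ ^ 2 ≤
          ‖(fun z => 2 * Gt z - R z) ((σ : ℂ) + t * I)‖ ^ 2 + CR ^ 2 := by
        change ‖Gt ((σ : ℂ) + t * I)‖ ^ 2 ≤
          ‖2 * Gt ((σ : ℂ) + t * I) - R ((σ : ℂ) + t * I)‖ ^ 2 + CR ^ 2
        have h5 := norm_nonneg (Gt ((σ : ℂ) + t * I))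
        have h6 := norm_nonneg (2 * Gt ((σ : ℂ) + t * I) - R ((σ : ℂ) + t * I))
        nlinarith only [h3, h5, sq_nonneg (‖2 * Gt ((σ : ℂ) + t * I) - R ((σ : ℂ) + t * I)‖ - CR)]
      rw [← ofReal_norm, ← ofReal_norm,
        ← ENNReal.ofReal_pow (norm_nonneg _), ← ENNReal.ofReal_pow (norm_nonneg _),
        ← ENNReal.ofReal_add (by positivity) (by positivity)]
      exact ENNReal.ofReal_le_ofReal h4
    calc ∫⁻ t in Set.Icc (τ - 1 / 4) (τ + 1 / 4), ‖Gt ((σ : ℂ) + t * I)‖ₑ ^ 2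
        ≤ ∫⁻ t in Set.Icc (τ - 1 / 4) (τ + 1 / 4),
          (‖(fun z => 2 * Gt z - R z) ((σ : ℂ) + t * I)‖ₑ ^ 2 + ENNReal.ofReal (CR ^ 2)) :=
          lintegral_mono h2
      _ = (∫⁻ t in Set.Icc (τ - 1 / 4) (τ + 1 / 4),
          ‖(fun z => 2 * Gt z - R z) ((σ : ℂ) + t * I)‖ₑ ^ 2) +
          ∫⁻ _t in Set.Icc (τ - 1 / 4) (τ + 1 / 4), ENNReal.ofReal (CR ^ 2) :=
          lintegral_add_right _ measurable_const
      _ ≤ ENNReal.ofReal (C * (B * Real.log (2 + |τ|)) ^ 2) + ENNReal.ofReal (CR ^ 2) := by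
          refine add_le_add h1 ?_
          rw [setLIntegral_const, Real.volume_Icc]
          have h3 : ENNReal.ofReal (τ + 1 / 4 - (τ - 1 / 4)) ≤ 1 := by
            rw [← ENNReal.ofReal_one]
            apply ENNReal.ofReal_le_ofReal
            linarith
          exact (mul_le_mul_right h3 _).trans (by rw [mul_one])
      _ = ENNReal.ofReal (C * (B * Real.log (2 + |τ|)) ^ 2 + CR ^ 2) := by
          rw [ENNReal.ofReal_add (by positivity) (by positivity)]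
      _ ≤ ENNReal.ofReal ((C * B ^ 2 + CR ^ 2 / l2 ^ 2 + C * B + CR / l2) *
          (Real.log (2 + |τ|)) ^ 2) := by
          apply ENNReal.ofReal_le_ofReal
          have h3 : CR ^ 2 ≤ CR ^ 2 / l2 ^ 2 * (Real.log (2 + |τ|)) ^ 2 := by
            have h4 : l2 ^ 2 ≤ (Real.log (2 + |τ|)) ^ 2 := pow_le_pow_left₀ hl20.le hlT 2
            rw [div_mul_eq_mul_div, le_div_iff₀ (by positivity)]
            exact mul_le_mul_of_nonneg_left h4 (by positivity)
          have h5 : 0 ≤ (C * B + CR / l2) * (Real.log (2 + |τ|)) ^ 2 := by positivity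
          have h6 : (C * B ^ 2 + CR ^ 2 / l2 ^ 2 + C * B + CR / l2) * (Real.log (2 + |τ|)) ^ 2 =
              C * (B * Real.log (2 + |τ|)) ^ 2 + CR ^ 2 / l2 ^ 2 * (Real.log (2 + |τ|)) ^ 2 +
                (C * B + CR / l2) * (Real.log (2 + |τ|)) ^ 2 := by ring
          rw [h6]
          linarith only [h3, h5]
  · intro s hs hs1
    have hT2 : (2 : ℝ) ≤ 2 + |s.im| := by linarith [abs_nonneg s.im]
    have hlT : l2 ≤ Real.log (2 + |s.im|) := Real.log_le_log (by norm_num) hT2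
    have hlT0 : 0 ≤ Real.log (2 + |s.im|) := hl20.le.trans hlT
    have h1 := (key s.im).2 s.re hs hs1
    rw [Complex.re_add_im] at h1
    have h2 := hGt2 s hs
    have h1' : ‖2 * Gt s - R s‖ ≤
        C * (B * Real.log (2 + |s.im|)) * (1 + |Real.log s.re|) := h1
    have hl : 0 ≤ |Real.log s.re| := abs_nonneg _
    have hX : 0 ≤ C * (B * Real.log (2 + |s.im|)) * (1 + |Real.log s.re|) := by positivity
    have h3 : CR ≤ CR / l2 * Real.log (2 + |s.im|) * (1 + |Real.log s.re|) := by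
      have h4 : CR ≤ CR / l2 * Real.log (2 + |s.im|) := by
        rw [div_mul_eq_mul_div, le_div_iff₀ hl20]
        exact mul_le_mul_of_nonneg_left hlT hCR
      have h5 : 0 ≤ CR / l2 * Real.log (2 + |s.im|) := by positivity
      nlinarith only [hl, h4, h5]
    have h4 : 0 ≤ (C * B ^ 2 + CR ^ 2 / l2 ^ 2) * Real.log (2 + |s.im|) *
        (1 + |Real.log s.re|) := by positivity
    have h5 : (C * B ^ 2 + CR ^ 2 / l2 ^ 2 + C * B + CR / l2) * Real.log (2 + |s.im|) *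
        (1 + |Real.log s.re|) =
        (C * B ^ 2 + CR ^ 2 / l2 ^ 2) * Real.log (2 + |s.im|) * (1 + |Real.log s.re|) +
        C * (B * Real.log (2 + |s.im|)) * (1 + |Real.log s.re|) +
        CR / l2 * Real.log (2 + |s.im|) * (1 + |Real.log s.re|) := by ring
    rw [h5]
    linarith only [hCR, h1, h2, hX, h3, h4]

end W3283g
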