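import Mathlib

set_option autoImplicit false

namespace W3283g

open Complex MeasureTheory Filter Topology

theorem InvG_deriv (k y : ℝ) (hy : 0 < y) :
    HasDerivAt (fun y : ℝ => y - k / y) (1 + k / y ^ 2) y := by
  have h1 : HasDerivAt (fun y : ℝ => y⁻¹) (-(y ^ 2)⁻¹) y := hasDerivAt_inv hy.ne'
  have h2 := (hasDerivAt_id y).sub (h1.const_mul k)
  have h3 : (1 : ℝ) - k * -(y ^ 2)⁻¹ = 1 + k / y ^ 2 := by
    rw [div_eq_mul_inv]; ring
  rw [h3] at h2
  refine h2.congr_of_eventuallyEq ?_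
  filter_upwards with z
  simp [div_eq_mul_inv]

theorem InvG_deriv2 (k y : ℝ) (hy : 0 < y) :
    HasDerivAt (fun y : ℝ => k / y) (-(k / y ^ 2)) y := by
  have h1 : HasDerivAt (fun y : ℝ => y⁻¹) (-(y ^ 2)⁻¹) y := hasDerivAt_inv hy.ne'
  have h2 := h1.const_mul k
  have h3 : k * -(y ^ 2)⁻¹ = -(k / y ^ 2) := by
    rw [div_eq_mul_inv]; ring
  rw [h3] at h2
  refine h2.congr_of_eventuallyEq ?_
  filter_upwards with z
  simp [div_eq_mul_inv]

theorem InvG_inj (k : ℝ) (hk : 0 < k) : Set.InjOn (fun y : ℝ => y - k / y) (Set.Ioi 0) := by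
  apply StrictMonoOn.injOn
  intro x hx y hy hxy
  have hx' : (0 : ℝ) < x := hx
  have h1 : k / y < k / x := div_lt_div_of_pos_left hk hx' hxy
  show x - k / x < y - k / y
  linarith

theorem InvG_img (k : ℝ) (hk : 0 < k) : (fun y : ℝ => y - k / y) '' Set.Ioi 0 = Set.univ := by
  apply Set.eq_univ_of_forall
  intro x
  have h1 : |x| < Real.sqrt (x ^ 2 + 4 * k) := by
    rw [← Real.sqrt_sq_eq_abs]
    exact Real.sqrt_lt_sqrt (sq_nonneg x) (by linarith)
  have h2 := abs_lt.1 h1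
  have h3 : Real.sqrt (x ^ 2 + 4 * k) ^ 2 = x ^ 2 + 4 * k :=
    Real.sq_sqrt (by positivity)
  have h0 : 0 < (x + Real.sqrt (x ^ 2 + 4 * k)) / 2 := by linarith [h2.1]
  refine ⟨(x + Real.sqrt (x ^ 2 + 4 * k)) / 2, h0, ?_⟩
  show (x + Real.sqrt (x ^ 2 + 4 * k)) / 2 - k / ((x + Real.sqrt (x ^ 2 + 4 * k)) / 2) = x
  set q := Real.sqrt (x ^ 2 + 4 * k) with hq
  have h4 : x + q ≠ 0 := by
    intro h
    rw [h] at h0
    norm_num at h0
  field_simp
  nlinarith [h3]

theorem InvG_img2 (k : ℝ) (hk : 0 < k) : (fun y : ℝ => k / y) '' Set.Ioi 0 = Set.Ioi 0 := by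
  ext x
  constructor
  · rintro ⟨y, hy, rfl⟩
    exact div_pos hk hy
  · intro hx
    exact ⟨k / x, div_pos hk hx, by field_simp⟩

theorem InvG_inj2 (k : ℝ) (hk : 0 < k) : Set.InjOn (fun y : ℝ => k / y) (Set.Ioi 0) := by
  intro x hx y hy hxy
  have hx' : (0 : ℝ) < x := hx
  have hy' : (0 : ℝ) < y := hy
  have h1 : k / x = k / y := hxy
  rw [div_eq_div_iff hx'.ne' hy'.ne'] at h1
  exact (mul_left_cancel₀ hk.ne' h1).symm

theorem InvG_sq_inj : Set.InjOn (fun y : ℝ => y ^ 2) (Set.Ioi 0) := by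
  intro x hx y hy hxy
  have hx' : (0 : ℝ) < x := hx
  have hy' : (0 : ℝ) < y := hy
  exact (pow_left_inj₀ hx'.le hy'.le two_ne_zero).1 hxy

theorem InvG_sq_img : (fun y : ℝ => y ^ 2) '' Set.Ioi 0 = Set.Ioi 0 := by
  ext x
  constructor
  · rintro ⟨y, hy, rfl⟩
    have hy' : (0 : ℝ) < y := hy
    exact pow_pos hy' 2
  · intro hx
    have hx' : (0 : ℝ) < x := hx
    exact ⟨Real.sqrt x, Real.sqrt_pos.2 hx', Real.sq_sqrt hx'.le⟩

/-- The substitution `x = y - k/y` is a bijection `(0,∞) → ℝ` with derivative `1 + k/y²`, so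
`∫_{y>0} exp (-b (y - k/y)²) (1 + k/y²) dy = √(π/b)` (`integral_gaussian`,
`MeasureTheory.integral_image_eq_integral_abs_deriv_smul`; in terms of `lintegral` integrability
comes for free); and the substitution `y → k/y` shows that the two parts are equal. -/
theorem invg_aux (b k : ℝ) (hb : 0 < b) (hk : 0 < k) :
    IntegrableOn (fun y : ℝ => Real.exp (-(b * (y - k / y) ^ 2))) (Set.Ioi 0) ∧
    ∫ y in Set.Ioi (0 : ℝ), Real.exp (-(b * (y - k / y) ^ 2)) = Real.sqrt (Real.pi / b) / 2 := by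
  have hgi : Integrable (fun x : ℝ => Real.exp (-(b * x ^ 2))) := by
    have := integrable_exp_neg_mul_sq hb
    refine this.congr ?_
    filter_upwards with x
    rw [neg_mul]
  have hgv : ∫ x : ℝ, Real.exp (-(b * x ^ 2)) = Real.sqrt (Real.pi / b) := by
    rw [← integral_gaussian b]
    congr 1
    ext x
    rw [neg_mul]
  have hd : ∀ y ∈ Set.Ioi (0 : ℝ), HasDerivWithinAt (fun y : ℝ => y - k / y) (1 + k / y ^ 2)
      (Set.Ioi 0) y := fun y hy => (InvG_deriv k y hy).hasDerivWithinAt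
  have hd2 : ∀ y ∈ Set.Ioi (0 : ℝ), HasDerivWithinAt (fun y : ℝ => k / y) (-(k / y ^ 2))
      (Set.Ioi 0) y := fun y hy => (InvG_deriv2 k y hy).hasDerivWithinAt
  have hI1 : IntegrableOn (fun y : ℝ => |1 + k / y ^ 2| • Real.exp (-(b * (y - k / y) ^ 2)))
      (Set.Ioi 0) := by
    have h := (integrableOn_image_iff_integrableOn_abs_deriv_smul measurableSet_Ioi hd
      (InvG_inj k hk) (fun x : ℝ => Real.exp (-(b * x ^ 2)))).1
    rw [InvG_img k hk] at h
    exact h hgi.integrableOn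
  have hV1 : ∫ y in Set.Ioi (0 : ℝ), |1 + k / y ^ 2| • Real.exp (-(b * (y - k / y) ^ 2)) =
      Real.sqrt (Real.pi / b) := by
    have h := integral_image_eq_integral_abs_deriv_smul measurableSet_Ioi hd
      (InvG_inj k hk) (fun x : ℝ => Real.exp (-(b * x ^ 2)))
    rw [InvG_img k hk, setIntegral_univ, hgv] at h
    exact h.symm
  have hmeas : AEStronglyMeasurable (fun y : ℝ => Real.exp (-(b * (y - k / y) ^ 2)))
      (volume.restrict (Set.Ioi 0)) := by
    apply Measurable.aestronglyMeasurable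
    fun_prop
  have hI0 : IntegrableOn (fun y : ℝ => Real.exp (-(b * (y - k / y) ^ 2))) (Set.Ioi 0) := by
    refine Integrable.mono' hI1 hmeas ?_
    filter_upwards with y
    rw [Real.norm_eq_abs, abs_of_pos (Real.exp_pos _), smul_eq_mul]
    have h1 : 0 ≤ k / y ^ 2 := by positivity
    rw [abs_of_nonneg (by linarith)]
    have h2 := Real.exp_pos (-(b * (y - k / y) ^ 2))
    nlinarith
  have hI2 : IntegrableOn (fun y : ℝ => k / y ^ 2 * Real.exp (-(b * (y - k / y) ^ 2)))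
      (Set.Ioi 0) := by
    have h := hI1.sub hI0
    refine h.congr ?_
    filter_upwards with y
    have h1 : 0 ≤ k / y ^ 2 := by positivity
    simp only [Pi.sub_apply, smul_eq_mul]
    rw [abs_of_nonneg (by linarith)]
    ring
  have hV2 : ∫ y in Set.Ioi (0 : ℝ), Real.exp (-(b * (y - k / y) ^ 2)) =
      ∫ y in Set.Ioi (0 : ℝ), k / y ^ 2 * Real.exp (-(b * (y - k / y) ^ 2)) := by
    have h := integral_image_eq_integral_abs_deriv_smul measurableSet_Ioi hd2
      (InvG_inj2 k hk) (fun y : ℝ => Real.exp (-(b * (y - k / y) ^ 2)))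
    rw [InvG_img2 k hk] at h
    rw [h]
    apply setIntegral_congr_fun measurableSet_Ioi
    intro y hy
    have hy' : (0 : ℝ) < y := hy
    have h1 : 0 ≤ k / y ^ 2 := by positivity
    simp only [smul_eq_mul]
    rw [abs_neg, abs_of_nonneg h1]
    have h2 : k / y - k / (k / y) = -(y - k / y) := by
      have : k / (k / y) = y := by field_simp
      rw [this]; ring
    rw [h2, neg_sq]
  refine ⟨hI0, ?_⟩
  have hV3 : ∫ y in Set.Ioi (0 : ℝ), |1 + k / y ^ 2| • Real.exp (-(b * (y - k / y) ^ 2)) =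
      (∫ y in Set.Ioi (0 : ℝ), Real.exp (-(b * (y - k / y) ^ 2))) +
      ∫ y in Set.Ioi (0 : ℝ), k / y ^ 2 * Real.exp (-(b * (y - k / y) ^ 2)) := by
    rw [← integral_add hI0 hI2]
    apply setIntegral_congr_fun measurableSet_Ioi
    intro y hy
    have h1 : 0 ≤ k / y ^ 2 := by positivity
    simp only [smul_eq_mul]
    rw [abs_of_nonneg (by linarith)]
    ring
  rw [hV1, ← hV2] at hV3
  linarith

/-- `∫_0^∞ u^{-1/2} exp (-a/u - b u) du = √(π/b) exp (-2 √(ab))`: put `u = y²`, so this is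
`2 ∫_{y>0} exp (-a/y² - b y²) dy`, and `a/y² + b y² = b (y - k/y)² + 2 √(ab)` with `k = √(a/b)`. -/
theorem invg (a b : ℝ) (ha : 0 < a) (hb : 0 < b) :
    IntegrableOn (fun u : ℝ => (Real.sqrt u)⁻¹ * Real.exp (-(a / u) - b * u)) (Set.Ioi 0) ∧
    ∫ u in Set.Ioi (0 : ℝ), (Real.sqrt u)⁻¹ * Real.exp (-(a / u) - b * u) =
      Real.sqrt (Real.pi / b) * Real.exp (-(2 * Real.sqrt (a * b))) := by
  set k := Real.sqrt (a / b) with hk
  have hk0 : 0 < k := Real.sqrt_pos.2 (div_pos ha hb)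
  have hk2 : k ^ 2 = a / b := Real.sq_sqrt (div_pos ha hb).le
  have hbk : b * k = Real.sqrt (a * b) := by
    rw [eq_comm, Real.sqrt_eq_iff_mul_self_eq (mul_pos ha hb).le (mul_pos hb hk0).le]
    have : b * k * (b * k) = b ^ 2 * k ^ 2 := by ring
    rw [this, hk2]
    field_simp
  obtain ⟨hI, hV⟩ := invg_aux b k hb hk0
  have hd : ∀ y ∈ Set.Ioi (0 : ℝ), HasDerivWithinAt (fun y : ℝ => y ^ 2) (2 * y)
      (Set.Ioi 0) y := by
    intro y _
    have := (hasDerivAt_pow 2 y).hasDerivWithinAt (s := Set.Ioi 0)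
    simpa using this
  have hkey : ∀ y ∈ Set.Ioi (0 : ℝ), |2 * y| • ((Real.sqrt (y ^ 2))⁻¹ *
      Real.exp (-(a / y ^ 2) - b * y ^ 2)) =
      (2 * Real.exp (-(2 * Real.sqrt (a * b)))) * Real.exp (-(b * (y - k / y) ^ 2)) := by
    intro y hy
    have hy' : (0 : ℝ) < y := hy
    rw [smul_eq_mul, abs_of_pos (by linarith), Real.sqrt_sq hy'.le,
      mul_assoc 2 (Real.exp (-(2 * Real.sqrt (a * b)))), ← Real.exp_add]
    have h1 : -(2 * Real.sqrt (a * b)) + -(b * (y - k / y) ^ 2) = -(a / y ^ 2) - b * y ^ 2 := by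
      rw [← hbk]
      have h2 : b * (y - k / y) ^ 2 = b * y ^ 2 - 2 * (b * k) + b * k ^ 2 / y ^ 2 := by
        field_simp
        ring
      have h3 : b * k ^ 2 = a := by rw [hk2]; field_simp
      rw [h2, h3]
      ring
    rw [h1]
    field_simp
  have hI1 := (integrableOn_image_iff_integrableOn_abs_deriv_smul measurableSet_Ioi hd
    InvG_sq_inj (fun u : ℝ => (Real.sqrt u)⁻¹ * Real.exp (-(a / u) - b * u)))
  rw [InvG_sq_img] at hI1
  have hV1 := integral_image_eq_integral_abs_deriv_smul measurableSet_Ioi hd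
    InvG_sq_inj (fun u : ℝ => (Real.sqrt u)⁻¹ * Real.exp (-(a / u) - b * u))
  rw [InvG_sq_img] at hV1
  refine ⟨hI1.2 ?_, ?_⟩
  · refine (integrableOn_congr_fun hkey measurableSet_Ioi).2 ?_
    exact hI.const_mul _
  · rw [hV1, setIntegral_congr_fun measurableSet_Ioi hkey, integral_const_mul, hV]
    ring

/-- The Laplace transform in `u` of the Gaussian kernel: the exponent is
`-(v-u)²/(2cu) - (s + c s²/2) u = v/c - (v²/(2c))/u - ((1 + c s)²/(2c)) u`; `invg` with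
`a = v²/(2c)`, `b = (1+cs)²/(2c)`, `√(ab) = v (1 + c s)/(2c)`. -/
theorem ker_lap (c v s : ℝ) (hc : 0 < c) (hv : 0 < v) (hs : 0 < s) :
    IntegrableOn (fun u : ℝ => (Real.sqrt (2 * Real.pi * (c * u)))⁻¹ *
      Real.exp (-(v - u) ^ 2 / (2 * (c * u))) * Real.exp (-((s + c * s ^ 2 / 2) * u)))
      (Set.Ioi 0) ∧
    ∫ u in Set.Ioi (0 : ℝ), (Real.sqrt (2 * Real.pi * (c * u)))⁻¹ *
      Real.exp (-(v - u) ^ 2 / (2 * (c * u))) * Real.exp (-((s + c * s ^ 2 / 2) * u)) =
      Real.exp (-(s * v)) / (1 + c * s) := by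
  have h1cs : 0 < 1 + c * s := by positivity
  have ha : 0 < v ^ 2 / (2 * c) := by positivity
  have hb : 0 < (1 + c * s) ^ 2 / (2 * c) := by positivity
  obtain ⟨hI, hV⟩ := invg (v ^ 2 / (2 * c)) ((1 + c * s) ^ 2 / (2 * c)) ha hb
  have hkey : ∀ u ∈ Set.Ioi (0 : ℝ), (Real.sqrt (2 * Real.pi * (c * u)))⁻¹ *
      Real.exp (-(v - u) ^ 2 / (2 * (c * u))) * Real.exp (-((s + c * s ^ 2 / 2) * u)) =
      ((Real.sqrt (2 * Real.pi * c))⁻¹ * Real.exp (v / c)) * ((Real.sqrt u)⁻¹ *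
        Real.exp (-(v ^ 2 / (2 * c) / u) - (1 + c * s) ^ 2 / (2 * c) * u)) := by
    intro u hu
    have hu' : (0 : ℝ) < u := hu
    have h1 : 2 * Real.pi * (c * u) = (2 * Real.pi * c) * u := by ring
    have h2 : Real.exp (-(v - u) ^ 2 / (2 * (c * u))) * Real.exp (-((s + c * s ^ 2 / 2) * u)) =
        Real.exp (v / c) * Real.exp (-(v ^ 2 / (2 * c) / u) - (1 + c * s) ^ 2 / (2 * c) * u) := by
      rw [← Real.exp_add, ← Real.exp_add]
      congr 1
      field_simp
      ring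
    rw [h1, Real.sqrt_mul (by positivity), mul_inv, mul_assoc, h2]
    ring
  refine ⟨?_, ?_⟩
  · refine (integrableOn_congr_fun hkey measurableSet_Ioi).2 ?_
    exact hI.const_mul _
  · rw [setIntegral_congr_fun measurableSet_Ioi hkey, integral_const_mul, hV]
    have h3 : Real.sqrt (Real.pi / ((1 + c * s) ^ 2 / (2 * c))) =
        Real.sqrt (2 * Real.pi * c) / (1 + c * s) := by
      have h4 : Real.pi / ((1 + c * s) ^ 2 / (2 * c)) = (2 * Real.pi * c) / (1 + c * s) ^ 2 := by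
        field_simp
      rw [h4, Real.sqrt_div' _ (by positivity), Real.sqrt_sq h1cs.le]
    have h5 : Real.sqrt (v ^ 2 / (2 * c) * ((1 + c * s) ^ 2 / (2 * c))) =
        v * (1 + c * s) / (2 * c) := by
      have h6 : v ^ 2 / (2 * c) * ((1 + c * s) ^ 2 / (2 * c)) =
          (v * (1 + c * s) / (2 * c)) ^ 2 := by
        field_simp
      rw [h6, Real.sqrt_sq (by positivity)]
    rw [h3, h5]
    have h7 : Real.sqrt (2 * Real.pi * c) ≠ 0 := by positivity
    have h8 : Real.exp (-(s * v)) = Real.exp (v / c) *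
        Real.exp (-(2 * (v * (1 + c * s) / (2 * c)))) := by
      rw [← Real.exp_add]
      congr 1
      field_simp
      ring
    rw [h8]
    field_simp

end W3283g
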