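import Pool.Agent.W_3283e1_h53.FacLog

set_option autoImplicit false

namespace W3283g

open Complex MeasureTheory Filter Topology

theorem Loc_sum_cont (S : Multiset ℂ) (D : Set ℂ) (h : ∀ ρ ∈ S, ∀ z ∈ D, 0 < (z - ρ).re) :
    ContinuousOn (fun z => (S.map (fun ρ => Complex.log (z - ρ))).sum) D := by
  induction S using Multiset.induction_on with
  | empty => simpa using continuousOn_const
  | cons a S ih =>
    simp only [Multiset.map_cons, Multiset.sum_cons]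
    apply ContinuousOn.add
    · apply ContinuousOn.clog (by fun_prop)
      intro z hz
      exact Or.inl (h a (Multiset.mem_cons_self a S) z hz)
    · exact ih fun ρ hρ => h ρ (Multiset.mem_cons_of_mem hρ)

theorem Loc_sum_exp (S : Multiset ℂ) (z : ℂ) (h : ∀ ρ ∈ S, z - ρ ≠ 0) :
    Complex.exp (S.map (fun ρ => Complex.log (z - ρ))).sum = (S.map (fun ρ => z - ρ)).prod := by
  induction S using Multiset.induction_on with
  | empty => simp
  | cons a S ih =>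
    simp only [Multiset.map_cons, Multiset.sum_cons, Multiset.prod_cons]
    rw [Complex.exp_add, Complex.exp_log (h a (Multiset.mem_cons_self a S)),
      ih fun ρ hρ => h ρ (Multiset.mem_cons_of_mem hρ)]

theorem Loc_log_norm (w : ℂ) : ‖Complex.log w‖ ≤ |Real.log ‖w‖| + Real.pi := by
  have h1 := Complex.norm_le_abs_re_add_abs_im (Complex.log w)
  rw [Complex.log_re, Complex.log_im] at h1
  have h2 := Complex.abs_arg_le_pi w
  linarith

theorem Loc_sum_norm (S : Multiset ℂ) (z : ℂ) :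
    ‖(S.map (fun ρ => Complex.log (z - ρ))).sum‖ ≤
      (S.map (fun ρ => |Real.log ‖z - ρ‖|)).sum + S.card * Real.pi := by
  induction S using Multiset.induction_on with
  | empty => simp
  | cons a S ih =>
    simp only [Multiset.map_cons, Multiset.sum_cons, Multiset.card_cons]
    have h1 := norm_add_le (Complex.log (z - a)) (S.map (fun ρ => Complex.log (z - ρ))).sum
    have h2 := Loc_log_norm (z - a)
    push_cast
    linarith

theorem Loc_sum_const (S : Multiset ℂ) (z : ℂ) (L : ℝ) (h : ∀ ρ ∈ S, |Real.log ‖z - ρ‖| ≤ L) :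
    (S.map (fun ρ => |Real.log ‖z - ρ‖|)).sum ≤ S.card * L := by
  induction S using Multiset.induction_on with
  | empty => simp
  | cons a S ih =>
    simp only [Multiset.map_cons, Multiset.sum_cons, Multiset.card_cons]
    have h1 := h a (Multiset.mem_cons_self a S)
    have h2 := ih fun ρ hρ => h ρ (Multiset.mem_cons_of_mem hρ)
    push_cast
    linarith

/-- Local bound for a logarithm of a quotient.  Radii `r0 = K + 1/32`, `r1 = K + 1/16`,
`R = K + 1/8` about the centre `c = K + iτ`.  Apply `fac_log` to `h1` and to `h2`: multisets `S1`,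
`S2` and functions `k1`, `k2`.  On `D = {z ∈ ball c r1 : 0 < Re z}` (convex, hence connected) the
zeros `ρ ∈ S1 + S2` satisfy `Re ρ ≤ 0` (since `h1`, `h2` do not vanish for `Re z > 0`), so
`z - ρ` is in the right half plane and `Complex.log (z - ρ)` is continuous on `D` with
`|Im| ≤ π/2`.  The function
`ℓ - ∑_{S2} log (z - ρ) - k2 + ∑_{S1} log (z - ρ) + k1` is continuous on `D` with exponential `1`, so
it is a constant `κ`; at `c ∈ D` we get `‖κ‖ ≤ ‖ℓ c‖ + ∑ ‖log (c - ρ)‖ + ‖k1 c‖ + ‖k2 c‖ ≤ C M`,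
since `‖c - ρ‖` lies between `K` (as `Re ρ ≤ 0`) and `r1`.  Hence, for `z ∈ closedBall c r0` with
`Re z > 0`, `‖ℓ z‖ ≤ C M + ∑_{S1 + S2} (|log ‖z - ρ‖| + π/2)`.  `S = S1 + S2`. -/
theorem loc_log (K : ℝ) (hK : 2 ≤ K) :
    ∃ C : ℝ, 0 < C ∧ ∀ (τ M : ℝ) (h1 h2 ℓ : ℂ → ℂ), 1 ≤ M →
      AnalyticOnNhd ℂ h1 (Metric.closedBall ((K : ℂ) + τ * I) (K + 1 / 8)) →
      AnalyticOnNhd ℂ h2 (Metric.closedBall ((K : ℂ) + τ * I) (K + 1 / 8)) →
      (∀ z ∈ Metric.closedBall ((K : ℂ) + τ * I) (K + 1 / 8), ‖h1 z‖ ≤ Real.exp M) →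
      (∀ z ∈ Metric.closedBall ((K : ℂ) + τ * I) (K + 1 / 8), ‖h2 z‖ ≤ Real.exp M) →
      Real.exp (-M) ≤ ‖h1 ((K : ℂ) + τ * I)‖ → Real.exp (-M) ≤ ‖h2 ((K : ℂ) + τ * I)‖ →
      (∀ z : ℂ, 0 < z.re → h1 z ≠ 0) → (∀ z : ℂ, 0 < z.re → h2 z ≠ 0) →
      ContinuousOn ℓ {z : ℂ | 0 < z.re} →
      (∀ z : ℂ, 0 < z.re → h1 z * Complex.exp (ℓ z) = h2 z) →
      ‖ℓ ((K : ℂ) + τ * I)‖ ≤ M →
      ∃ S : Multiset ℂ, (S.card : ℝ) ≤ C * M ∧
        (∀ ρ ∈ S, ρ ∈ Metric.closedBall ((K : ℂ) + τ * I) (K + 1 / 16) ∧ ρ.re ≤ 0) ∧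
        ∀ z ∈ Metric.closedBall ((K : ℂ) + τ * I) (K + 1 / 32), 0 < z.re →
          ‖ℓ z‖ ≤ C * M + (S.map (fun ρ => |Real.log ‖z - ρ‖|)).sum := by
  obtain ⟨Cf, hCf, hfac⟩ := fac_log (K + 1 / 32) (K + 1 / 16) (K + 1 / 8) (by linarith)
    (by linarith) (by linarith)
  set L : ℝ := Real.log (K + 1 / 16) with hL
  have hL0 : 0 ≤ L := Real.log_nonneg (by linarith)
  have hpi := Real.pi_pos
  refine ⟨1 + 2 * Cf * (L + Real.pi) + 2 * Cf + 2 * Cf + 2 * Cf * Real.pi, by positivity, ?_⟩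
  intro τ M h1 h2 ℓ hM han1 han2 hb1 hb2 hc1 hc2 hn1 hn2 hℓ hexp hℓc
  set c : ℂ := (K : ℂ) + τ * I with hc
  have hcre : c.re = K := by simp [hc]
  obtain ⟨S1, k1, hk1, hS1, hS1m, hf1, hk1b⟩ := hfac c M h1 hM han1 hb1 hc1
  obtain ⟨S2, k2, hk2, hS2, hS2m, hf2, hk2b⟩ := hfac c M h2 hM han2 hb2 hc2
  have hz1 : ∀ ρ ∈ S1, ρ.re ≤ 0 := by
    intro ρ hρ
    by_contra hcon
    exact hn1 ρ (not_le.mp hcon) (hS1m ρ hρ).2
  have hz2 : ∀ ρ ∈ S2, ρ.re ≤ 0 := by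
    intro ρ hρ
    by_contra hcon
    exact hn2 ρ (not_le.mp hcon) (hS2m ρ hρ).2
  set D : Set ℂ := Metric.ball c (K + 1 / 16) ∩ {z : ℂ | 0 < z.re} with hD
  have hDp : IsPreconnected D := by
    apply Convex.isPreconnected
    apply (convex_ball c _).inter
    exact convex_halfSpace_re_gt 0
  have hcD : c ∈ D := ⟨Metric.mem_ball_self (by linarith), by
    show 0 < c.re
    rw [hcre]
    linarith⟩
  have hre : ∀ S : Multiset ℂ, (∀ ρ ∈ S, ρ.re ≤ 0) → ∀ ρ ∈ S, ∀ z ∈ D, 0 < (z - ρ).re := by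
    intro S hS ρ hρ z hz
    have h1 := hS ρ hρ
    have h2 : 0 < z.re := hz.2
    rw [Complex.sub_re]
    linarith
  have hne : ∀ S : Multiset ℂ, (∀ ρ ∈ S, ρ.re ≤ 0) → ∀ z ∈ D, ∀ ρ ∈ S, z - ρ ≠ 0 := by
    intro S hS z hz ρ hρ h
    have := hre S hS ρ hρ z hz
    rw [h] at this
    simp at this
  have hsum1 := Loc_sum_cont S1 D (hre S1 hz1)
  have hsum2 := Loc_sum_cont S2 D (hre S2 hz2)
  set L1 : ℂ → ℂ := fun z => (S1.map (fun ρ => Complex.log (z - ρ))).sum with hL1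
  set L2 : ℂ → ℂ := fun z => (S2.map (fun ρ => Complex.log (z - ρ))).sum with hL2
  have hk1c : ContinuousOn k1 D := hk1.continuousOn.mono Set.inter_subset_left
  have hk2c : ContinuousOn k2 D := hk2.continuousOn.mono Set.inter_subset_left
  have hℓD : ContinuousOn ℓ D := hℓ.mono Set.inter_subset_right
  set κ : ℂ := ℓ c + L1 c + k1 c - L2 c - k2 c with hκ
  have hE : ∀ z ∈ D, Complex.exp (ℓ z + L1 z + k1 z) = Complex.exp (L2 z + k2 z) := by
    intro z hz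
    rw [Complex.exp_add, Complex.exp_add, Complex.exp_add]
    simp only [hL1, hL2]
    rw [Loc_sum_exp S1 z (hne S1 hz1 z hz), Loc_sum_exp S2 z (hne S2 hz2 z hz),
      mul_assoc, ← hf1 z hz.1, ← hf2 z hz.1, mul_comm]
    exact hexp z hz.2
  have hκexp : Complex.exp κ = 1 := by
    have h3 := hE c hcD
    have h4 : κ = (ℓ c + L1 c + k1 c) - (L2 c + k2 c) := by
      rw [hκ]
      ring
    rw [h4, Complex.exp_sub, h3, div_self (Complex.exp_ne_zero _)]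
  have heq := LogExt_eqOn hDp (g₁ := fun z => ℓ z + L1 z + k1 z)
    (g₂ := fun z => L2 z + k2 z + κ) ((hℓD.add hsum1).add hk1c)
    ((hsum2.add hk2c).add continuousOn_const)
    (fun z hz => by
      show Complex.exp (ℓ z + L1 z + k1 z) = Complex.exp (L2 z + k2 z + κ)
      rw [hE z hz, Complex.exp_add _ κ, hκexp, mul_one]) hcD (by
      show ℓ c + L1 c + k1 c = L2 c + k2 c + κ
      rw [hκ]
      ring)
  -- bound of κ
  have hdist : ∀ S : Multiset ℂ, (∀ ρ ∈ S, ρ ∈ Metric.closedBall c (K + 1 / 16) ∧ ρ.re ≤ 0) →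
      ∀ ρ ∈ S, |Real.log ‖c - ρ‖| ≤ L := by
    intro S hS ρ hρ
    have h3 := (hS ρ hρ).1
    have h4 := (hS ρ hρ).2
    rw [Metric.mem_closedBall, dist_comm, dist_eq_norm] at h3
    have h5 : K ≤ ‖c - ρ‖ := by
      have := Complex.re_le_norm (c - ρ)
      rw [Complex.sub_re, hcre] at this
      linarith
    have h6 : 0 ≤ Real.log ‖c - ρ‖ := Real.log_nonneg (by linarith)
    rw [abs_of_nonneg h6]
    exact Real.log_le_log (by linarith) h3
  have hS1' : ∀ ρ ∈ S1, ρ ∈ Metric.closedBall c (K + 1 / 16) ∧ ρ.re ≤ 0 := fun ρ hρ =>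
    ⟨(hS1m ρ hρ).1, hz1 ρ hρ⟩
  have hS2' : ∀ ρ ∈ S2, ρ ∈ Metric.closedBall c (K + 1 / 16) ∧ ρ.re ≤ 0 := fun ρ hρ =>
    ⟨(hS2m ρ hρ).1, hz2 ρ hρ⟩
  have hbL : ∀ S : Multiset ℂ, (S.card : ℝ) ≤ Cf * M →
      (∀ ρ ∈ S, ρ ∈ Metric.closedBall c (K + 1 / 16) ∧ ρ.re ≤ 0) →
      ‖(S.map (fun ρ => Complex.log (c - ρ))).sum‖ ≤ Cf * M * (L + Real.pi) := by
    intro S hcard hS
    have h3 := Loc_sum_norm S c
    have h4 := Loc_sum_const S c L (hdist S hS)
    have h5 : (S.card : ℝ) * (L + Real.pi) ≤ Cf * M * (L + Real.pi) := by gcongr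
    linarith
  have hcc : c ∈ Metric.closedBall c (K + 1 / 32) := Metric.mem_closedBall_self (by linarith)
  have hκb : ‖κ‖ ≤ M + 2 * (Cf * M * (L + Real.pi)) + 2 * (Cf * M) := by
    have h3 := hbL S1 hS1 hS1'
    have h4 := hbL S2 hS2 hS2'
    have h5 := hk1b c hcc
    have h6 := hk2b c hcc
    have h7 : ‖κ‖ ≤ ‖ℓ c‖ + ‖L1 c‖ + ‖k1 c‖ + ‖L2 c‖ + ‖k2 c‖ := by
      rw [hκ]
      have a1 := norm_sub_le (ℓ c + L1 c + k1 c - L2 c) (k2 c)
      have a2 := norm_sub_le (ℓ c + L1 c + k1 c) (L2 c)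
      have a3 := norm_add_le (ℓ c + L1 c) (k1 c)
      have a4 := norm_add_le (ℓ c) (L1 c)
      linarith
    simp only [hL1, hL2] at h7
    linarith
  refine ⟨S1 + S2, ?_, ?_, ?_⟩
  · rw [Multiset.card_add]
    push_cast
    have h3 : 0 ≤ 1 + 2 * Cf * (L + Real.pi) + 2 * Cf + 2 * Cf * Real.pi := by positivity
    have h4 : 0 ≤ M := by linarith
    nlinarith
  · intro ρ hρ
    rw [Multiset.mem_add] at hρ
    rcases hρ with hρ | hρ
    · exact hS1' ρ hρ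
    · exact hS2' ρ hρ
  · intro z hz hzre
    have hzD : z ∈ D := ⟨Metric.closedBall_subset_ball (by linarith) hz, hzre⟩
    have h3 : ℓ z + L1 z + k1 z = L2 z + k2 z + κ := heq z hzD
    have h4 : ℓ z = L2 z + k2 z + κ - L1 z - k1 z := by
      rw [← h3]
      ring
    have h5 : ‖ℓ z‖ ≤ ‖L2 z‖ + ‖k2 z‖ + ‖κ‖ + ‖L1 z‖ + ‖k1 z‖ := by
      rw [h4]
      have a1 := norm_sub_le (L2 z + k2 z + κ - L1 z) (k1 z)
      have a2 := norm_sub_le (L2 z + k2 z + κ) (L1 z)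
      have a3 := norm_add_le (L2 z + k2 z) κ
      have a4 := norm_add_le (L2 z) (k2 z)
      linarith
    have h6 := Loc_sum_norm S1 z
    have h7 := Loc_sum_norm S2 z
    have h8 := hk1b z hz
    have h9 := hk2b z hz
    rw [Multiset.map_add, Multiset.sum_add]
    simp only [hL1, hL2] at h5
    have h10 : (S1.card : ℝ) * Real.pi ≤ Cf * M * Real.pi := by gcongr
    have h11 : (S2.card : ℝ) * Real.pi ≤ Cf * M * Real.pi := by gcongr
    have h12 : (1 + 2 * Cf * (L + Real.pi) + 2 * Cf + 2 * Cf + 2 * Cf * Real.pi) * M =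
        (M + 2 * (Cf * M * (L + Real.pi)) + 2 * (Cf * M)) + 2 * (Cf * M) +
          2 * (Cf * M * Real.pi) := by ring
    rw [h12]
    linarith

end W3283g
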