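import Pool.Agent.W_MP_3283e1_h19.LG

set_option autoImplicit false

namespace W3283g

open Complex W3283e1 W3283f MeasureTheory Filter Topology

/-- The part of the Mellin integral over `(0,1)` is moved to `(1,∞)` by `t → 1/t` and `h.inv`. -/
theorem lam_split (a : ℕ → ℝ) (κ ε : ℝ) (h : ThData a κ ε) (s : ℂ) :
    IntegrableOn (fun t : ℝ => ((t : ℂ) ^ s + ε * (t : ℂ) ^ (-s)) * (Th a κ t : ℂ)) (Set.Ioi 1) ∧
    LamG a κ s = ∫ t in Set.Ioi (1 : ℝ), ((t : ℂ) ^ s + ε * (t : ℂ) ^ (-s)) * (Th a κ t : ℂ) := by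
  have hP : ∀ z : ℂ, IntegrableOn (fun t : ℝ => (t : ℂ) ^ z * (Th a κ t : ℂ)) (Set.Ioi 0) := by
    intro z
    have h0 := melS_conv a κ ε h (1 + z)
    unfold MellinConvergent at h0
    simpa only [smul_eq_mul, add_sub_cancel_left] using h0
  have h1 : ∀ z : ℂ, IntegrableOn (fun t : ℝ => (t : ℂ) ^ z * (Th a κ t : ℂ)) (Set.Ioi 1) :=
    fun z => (hP z).mono_set (Set.Ioi_subset_Ioi zero_le_one)
  have h2 : ∀ z : ℂ, IntegrableOn (fun t : ℝ => (t : ℂ) ^ z * (Th a κ t : ℂ)) (Set.Ioc 0 1) :=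
    fun z => (hP z).mono_set Set.Ioc_subset_Ioi_self
  have h3 : IntegrableOn (fun t : ℝ => (ε : ℂ) * ((t : ℂ) ^ (-s) * (Th a κ t : ℂ)))
      (Set.Ioi 1) := (h1 (-s)).const_mul (ε : ℂ)
  have hfun : (fun t : ℝ => ((t : ℂ) ^ s + ε * (t : ℂ) ^ (-s)) * (Th a κ t : ℂ)) =
      fun t : ℝ => (t : ℂ) ^ s * (Th a κ t : ℂ) + (ε : ℂ) * ((t : ℂ) ^ (-s) * (Th a κ t : ℂ)) := by
    funext t
    ring
  rw [hfun]
  refine ⟨(h1 s).add h3, ?_⟩
  rw [integral_add (h1 s) h3]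
  have h4 : LamG a κ s = ∫ t in Set.Ioi (0 : ℝ), (t : ℂ) ^ s * (Th a κ t : ℂ) := by
    unfold LamG mellin
    simp only [smul_eq_mul, add_sub_cancel_left]
  rw [h4, ← Set.Ioc_union_Ioi_eq_Ioi (zero_le_one (α := ℝ)),
    setIntegral_union (Set.Ioc_disjoint_Ioi le_rfl) measurableSet_Ioi (h2 s) (h1 s), add_comm]
  congr 1
  -- the part over the unit interval
  obtain ⟨f, hf⟩ : ∃ f : ℝ → ℂ, f = Set.indicator (Set.Ioo (0 : ℝ) 1) (fun t => (Th a κ t : ℂ)) :=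
    ⟨_, rfl⟩
  have h5 : ∫ t in Set.Ioc (0 : ℝ) 1, (t : ℂ) ^ s * (Th a κ t : ℂ) = mellin f (1 + s) := by
    rw [integral_Ioc_eq_integral_Ioo, ← integral_indicator measurableSet_Ioo]
    unfold mellin
    rw [← integral_indicator measurableSet_Ioi]
    congr 1
    funext t
    rw [hf]
    by_cases ht : t ∈ Set.Ioo (0 : ℝ) 1
    · rw [Set.indicator_of_mem ht, Set.indicator_of_mem (show t ∈ Set.Ioi (0 : ℝ) from ht.1),
        Set.indicator_of_mem ht, smul_eq_mul, add_sub_cancel_left]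
    · rw [Set.indicator_of_notMem ht]
      by_cases ht' : t ∈ Set.Ioi (0 : ℝ)
      · rw [Set.indicator_of_mem ht', Set.indicator_of_notMem ht, smul_zero]
      · rw [Set.indicator_of_notMem ht']
  have h6 := mellin_comp_inv f (-(1 + s))
  rw [neg_neg] at h6
  rw [h5, ← h6, ← integral_indicator measurableSet_Ioi]
  unfold mellin
  rw [← integral_indicator measurableSet_Ioi]
  congr 1
  funext t
  by_cases ht : t ∈ Set.Ioi (1 : ℝ)
  · have ht1 : (1 : ℝ) < t := ht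
    have ht0 : (0 : ℝ) < t := lt_trans one_pos ht1
    have htc : (t : ℂ) ≠ 0 := by exact_mod_cast ht0.ne'
    have hm : t⁻¹ ∈ Set.Ioo (0 : ℝ) 1 := ⟨inv_pos.mpr ht0, inv_lt_one_of_one_lt₀ ht1⟩
    have hinv := h.inv t ht0
    rw [one_div] at hinv
    rw [Set.indicator_of_mem ht, Set.indicator_of_mem (show t ∈ Set.Ioi (0 : ℝ) from ht0), hf]
    beta_reduce
    rw [Set.indicator_of_mem hm, hinv, smul_eq_mul]
    have h7 : (t : ℂ) ^ (-s) = (t : ℂ) ^ (-(1 + s) - 1) * (t : ℂ) ^ 2 := by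
      have h8 : (t : ℂ) ^ 2 = (t : ℂ) ^ (2 : ℂ) := by
        have := Complex.cpow_natCast (t : ℂ) 2
        exact_mod_cast this.symm
      rw [h8, ← Complex.cpow_add _ _ htc]
      congr 1
      ring
    rw [h7]
    push_cast
    ring
  · rw [Set.indicator_of_notMem ht]
    by_cases ht' : t ∈ Set.Ioi (0 : ℝ)
    · have ht0 : (0 : ℝ) < t := ht'
      have hn : t⁻¹ ∉ Set.Ioo (0 : ℝ) 1 := by
        intro hc
        have h8 : t ≤ 1 := not_lt.mp ht
        have h9 : 1 ≤ t⁻¹ := (one_le_inv₀ ht0).mpr h8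
        exact absurd hc.2 (not_lt.mpr h9)
      rw [Set.indicator_of_mem ht', hf]
      beta_reduce
      rw [Set.indicator_of_notMem hn, smul_zero]
    · rw [Set.indicator_of_notMem ht']

/-- The bound for the tail of the exponential series. -/
noncomputable def tl (X : ℝ) : ℝ :=
  3 / 2 * X ^ 13 * (13 / (1 - X ^ 4) + 4 * X ^ 4 / (1 - X ^ 4) ^ 2)

/-- `Th t` is close to its first term.  With `X = e^{-πκ}`: the terms `m ≡ 1 mod 4`, `m ≥ 13`, are at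
most `(3m/2) e^{-πκmt} ≤ (3m/2) X^m e^{-13πκ(t-1)}`, and
`∑_{k ≥ 0} (13 + 4k) X^{13 + 4k} = X^13 (13/(1-X⁴) + 4X⁴/(1-X⁴)²)`. -/
theorem th_near (a : ℕ → ℝ) (κ ε : ℝ) (h : ThData a κ ε) (ha : ∀ m : ℕ, m % 4 ≠ 1 → a m = 0)
    (h5 : |a 5| ≤ 2) (h9 : |a 9| ≤ 3) (hm : ∀ m : ℕ, 13 ≤ m → |a m| ≤ 3 / 2 * m) (t : ℝ)
    (ht : 1 ≤ t) :
    |Th a κ t - Real.exp (-(Real.pi * κ * t))| ≤
      2 * Real.exp (-(5 * (Real.pi * κ) * t)) + 3 * Real.exp (-(9 * (Real.pi * κ) * t)) +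
        tl (Real.exp (-(Real.pi * κ))) * Real.exp (-(13 * (Real.pi * κ) * (t - 1))) := by
  have h5' := h5
  have ht0 : 0 < t := lt_of_lt_of_le one_pos ht
  have hk : 0 < Real.pi * κ := mul_pos Real.pi_pos h.κpos
  obtain ⟨c, hc⟩ : ∃ c, c = Real.pi * κ := ⟨_, rfl⟩
  obtain ⟨X, hX⟩ : ∃ X, X = Real.exp (-c) := ⟨_, rfl⟩
  rw [← hc] at hk
  have hX0 : 0 < X := by rw [hX]; exact Real.exp_pos _
  have hX1 : X < 1 := by rw [hX, ← Real.exp_zero]; exact Real.exp_lt_exp.mpr (by linarith)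
  obtain ⟨E, hE⟩ : ∃ E, E = Real.exp (-(13 * c * (t - 1))) := ⟨_, rfl⟩
  have hE0 : 0 < E := by rw [hE]; exact Real.exp_pos _
  have hs := Th_summable' a κ ε h t ht0
  have h1 := hs.sum_add_tsum_nat_add 13
  have ha0 := h.a0
  have ha1 := h.a1
  have ha2 := ha 2 (by norm_num)
  have ha3 := ha 3 (by norm_num)
  have ha4 := ha 4 (by norm_num)
  have ha6 := ha 6 (by norm_num)
  have ha7 := ha 7 (by norm_num)
  have ha8 := ha 8 (by norm_num)
  have ha10 := ha 10 (by norm_num)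
  have ha11 := ha 11 (by norm_num)
  have ha12 := ha 12 (by norm_num)
  simp only [Finset.sum_range_succ, Finset.sum_range_zero, ha0, ha1, ha2, ha3, ha4, ha6, ha7, ha8,
    ha10, ha11, ha12, zero_mul, zero_add, add_zero, one_mul] at h1
  -- the tail
  have h2 : ∑' m : ℕ, a (m + 13) * Real.exp (-Real.pi * (κ * ((m + 13 : ℕ) : ℝ)) * t) =
      ∑' k : ℕ, a (4 * k + 13) * Real.exp (-Real.pi * (κ * ((4 * k + 13 : ℕ) : ℝ)) * t) := by
    refine (Function.Injective.tsum_eq (g := fun k : ℕ => 4 * k) (fun x y hxy => ?_)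
      (f := fun m : ℕ => a (m + 13) * Real.exp (-Real.pi * (κ * ((m + 13 : ℕ) : ℝ)) * t))
      (fun m hm' => ?_)).symm
    · simp only at hxy
      omega
    · by_contra hcon
      apply hm'
      have h3 : m % 4 ≠ 0 := by
        intro h4
        apply hcon
        exact ⟨m / 4, by simp only; omega⟩
      have h4 : (m + 13) % 4 ≠ 1 := by omega
      simp only
      rw [ha _ h4, zero_mul]
  have hY0 : 0 ≤ X ^ 4 := by positivity
  have hY1 : X ^ 4 < 1 := pow_lt_one₀ hX0.le hX1 (by norm_num)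
  have h3 : HasSum (fun k : ℕ => 3 / 2 * X ^ 13 * E * (13 * (X ^ 4) ^ k + 4 * (k * (X ^ 4) ^ k)))
      (3 / 2 * X ^ 13 * E * (13 * (1 - X ^ 4)⁻¹ + 4 * (X ^ 4 / (1 - X ^ 4) ^ 2))) := by
    refine HasSum.mul_left _ (HasSum.add (HasSum.mul_left _ ?_) (HasSum.mul_left _ ?_))
    · exact hasSum_geometric_of_lt_one hY0 hY1
    · exact hasSum_coe_mul_geometric_of_norm_lt_one (by
        rw [Real.norm_eq_abs, abs_of_nonneg hY0]; exact hY1)
  have h4 : ∀ k : ℕ, ‖a (4 * k + 13) * Real.exp (-Real.pi * (κ * ((4 * k + 13 : ℕ) : ℝ)) * t)‖ ≤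
      3 / 2 * X ^ 13 * E * (13 * (X ^ 4) ^ k + 4 * (k * (X ^ 4) ^ k)) := by
    intro k
    rw [Real.norm_eq_abs, abs_mul, Real.abs_exp]
    have h5 := hm (4 * k + 13) (by omega)
    have h6 : Real.exp (-Real.pi * (κ * ((4 * k + 13 : ℕ) : ℝ)) * t) ≤ X ^ (4 * k + 13) * E := by
      rw [hX, hE, ← Real.exp_nat_mul, ← Real.exp_add]
      refine Real.exp_le_exp.mpr ?_
      have hk0 : (0 : ℝ) ≤ k := Nat.cast_nonneg k
      have h7 : 0 ≤ c * k * (t - 1) := mul_nonneg (mul_nonneg hk.le hk0) (by linarith)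
      have h8 : -Real.pi * (κ * ((4 * k + 13 : ℕ) : ℝ)) * t = -(c * (4 * k + 13) * t) := by
        rw [hc]
        push_cast
        ring
      rw [h8]
      push_cast
      nlinarith [h7]
    calc |a (4 * k + 13)| * Real.exp (-Real.pi * (κ * ((4 * k + 13 : ℕ) : ℝ)) * t)
        ≤ (3 / 2 * ((4 * k + 13 : ℕ) : ℝ)) * (X ^ (4 * k + 13) * E) :=
          mul_le_mul h5 h6 (Real.exp_pos _).le (by positivity)
      _ = 3 / 2 * X ^ 13 * E * (13 * (X ^ 4) ^ k + 4 * (k * (X ^ 4) ^ k)) := by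
          rw [pow_add, pow_mul]
          push_cast
          ring
  have h5 := tsum_of_norm_bounded h3 h4
  rw [Real.norm_eq_abs] at h5
  have h6 : 3 / 2 * X ^ 13 * E * (13 * (1 - X ^ 4)⁻¹ + 4 * (X ^ 4 / (1 - X ^ 4) ^ 2)) = tl X * E := by
    unfold tl
    ring
  rw [h6] at h5
  have h7 : Th a κ t - Real.exp (-(c * t)) =
      a 5 * Real.exp (-(5 * c * t)) + a 9 * Real.exp (-(9 * c * t)) +
      ∑' k : ℕ, a (4 * k + 13) * Real.exp (-Real.pi * (κ * ((4 * k + 13 : ℕ) : ℝ)) * t) := by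
    rw [← h2]
    have e1 : -Real.pi * (κ * ((1 : ℕ) : ℝ)) * t = -(c * t) := by rw [hc]; push_cast; ring
    have e5 : -Real.pi * (κ * ((5 : ℕ) : ℝ)) * t = -(5 * c * t) := by rw [hc]; push_cast; ring
    have e9 : -Real.pi * (κ * ((9 : ℕ) : ℝ)) * t = -(9 * c * t) := by rw [hc]; push_cast; ring
    rw [e1, e5, e9] at h1
    unfold Th
    linarith [h1]
  have e0 : Real.pi * κ * t = c * t := by rw [hc]
  rw [← hc, ← hX, ← hE, h7]
  have h8 : |a 5 * Real.exp (-(5 * c * t))| ≤ 2 * Real.exp (-(5 * c * t)) := by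
    rw [abs_mul, Real.abs_exp]
    exact mul_le_mul_of_nonneg_right h5' (Real.exp_pos _).le
  have h9' : |a 9 * Real.exp (-(9 * c * t))| ≤ 3 * Real.exp (-(9 * c * t)) := by
    rw [abs_mul, Real.abs_exp]
    exact mul_le_mul_of_nonneg_right h9 (Real.exp_pos _).le
  calc _ ≤ |a 5 * Real.exp (-(5 * c * t)) + a 9 * Real.exp (-(9 * c * t))| + _ := abs_add_le _ _
    _ ≤ |a 5 * Real.exp (-(5 * c * t))| + |a 9 * Real.exp (-(9 * c * t))| + _ :=
        add_le_add (abs_add_le _ _) le_rfl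
    _ ≤ _ := add_le_add (add_le_add h8 h9') h5

end W3283g
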