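import Pool.Agent.W_3283e1_h53.NumA

set_option autoImplicit false

namespace W3283g

open Complex MeasureTheory Filter Topology

/-- integrable on `(1,∞)` with integral `v` -/
def NumI_HI (f : ℝ → ℝ) (v : ℝ) : Prop :=
  IntegrableOn f (Set.Ioi 1) ∧ ∫ t in Set.Ioi (1 : ℝ), f t = v

lemma NumI_HI.add {f g : ℝ → ℝ} {v w : ℝ} (hf : NumI_HI f v) (hg : NumI_HI g w) :
    NumI_HI (fun t => f t + g t) (v + w) :=
  ⟨hf.1.add hg.1, by rw [integral_add hf.1 hg.1, hf.2, hg.2]⟩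

lemma NumI_HI.sub {f g : ℝ → ℝ} {v w : ℝ} (hf : NumI_HI f v) (hg : NumI_HI g w) :
    NumI_HI (fun t => f t - g t) (v - w) :=
  ⟨hf.1.sub hg.1, by rw [integral_sub hf.1 hg.1, hf.2, hg.2]⟩

lemma NumI_HI.smul {f : ℝ → ℝ} {v : ℝ} (hf : NumI_HI f v) (c : ℝ) :
    NumI_HI (fun t => c * f t) (c * v) :=
  ⟨hf.1.const_mul c, by rw [integral_const_mul, hf.2]⟩

lemma NumI_HI.congr {f g : ℝ → ℝ} {v : ℝ} (hf : NumI_HI f v) (h : ∀ t, g t = f t) :
    NumI_HI g v := by
  have : g = f := funext h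
  rw [this]
  exact hf

lemma NumI_tend {β : ℝ} (hβ : 0 < β) (p q : ℝ) :
    Tendsto (fun t : ℝ => Real.exp (-(β * t)) * (p + q * t)) atTop (𝓝 0) := by
  have h1 : (fun t : ℝ => t ^ 1) =o[atTop] fun t => Real.exp (β * t) :=
    isLittleO_pow_exp_pos_mul_atTop 1 hβ
  have h0 : (fun t : ℝ => t ^ 0) =o[atTop] fun t => Real.exp (β * t) :=
    isLittleO_pow_exp_pos_mul_atTop 0 hβ
  have h2 := (h0.const_mul_left p).add (h1.const_mul_left q)
  have h3 := h2.tendsto_div_nhds_zero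
  refine h3.congr ?_
  intro t
  rw [Real.exp_neg, pow_zero, pow_one, div_eq_mul_inv]
  ring

lemma NumI_isO {β : ℝ} (hβ : 0 < β) (p q : ℝ) :
    (fun t : ℝ => Real.exp (-(β * t)) * (p + q * t)) =O[atTop]
      fun t => Real.exp (-(β / 2) * t) := by
  have h1 := NumI_tend (half_pos hβ) p q
  have h2 : (fun t : ℝ => Real.exp (-(β / 2 * t)) * (p + q * t)) =O[atTop] fun _ => (1 : ℝ) :=
    h1.isBigO_one ℝ
  have h3 := (Asymptotics.isBigO_refl (fun t : ℝ => Real.exp (-(β / 2) * t)) atTop).mul h2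
  refine (h3.congr_left ?_).trans ?_
  · intro t
    show Real.exp (-(β / 2) * t) * (Real.exp (-(β / 2 * t)) * (p + q * t)) = _
    rw [← mul_assoc, ← Real.exp_add]
    congr 2
    ring
  · simp only [mul_one]
    exact Asymptotics.isBigO_refl _ _

lemma NumI_lin {β : ℝ} (hβ : 0 < β) (a p q : ℝ) :
    IntegrableOn (fun t : ℝ => Real.exp (-(β * t)) * (p + q * t)) (Set.Ioi a) ∧
    ∫ t in Set.Ioi a, Real.exp (-(β * t)) * (p + q * t) =
      Real.exp (-(β * a)) * ((p + q * a) / β + q / β ^ 2) := by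
  have hi : IntegrableOn (fun t : ℝ => Real.exp (-(β * t)) * (p + q * t)) (Set.Ioi a) := by
    apply integrable_of_isBigO_exp_neg (half_pos hβ) _ (NumI_isO hβ p q)
    fun_prop
  refine ⟨hi, ?_⟩
  have hd : ∀ x ∈ Set.Ici a, HasDerivAt
      (fun t : ℝ => Real.exp (-(β * t)) * (-(p / β + q / β ^ 2) + -(q / β) * t))
      (Real.exp (-(β * x)) * (p + q * x)) x := by
    intro x _
    have h1 : HasDerivAt (fun t : ℝ => Real.exp (-(β * t))) (Real.exp (-(β * x)) * (-β)) x := by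
      have h2 : HasDerivAt (fun t : ℝ => -(β * t)) (-β) x := by
        have h3 : (fun t : ℝ => -(β * t)) = fun t : ℝ => (-β) * t := by ext t; ring
        rw [h3]
        simpa using (hasDerivAt_id x).const_mul (-β)
      exact h2.exp
    have h4 : HasDerivAt (fun t : ℝ => -(p / β + q / β ^ 2) + -(q / β) * t) (-(q / β)) x := by
      have h5 : HasDerivAt (fun t : ℝ => -(q / β) * t) (-(q / β)) x := by
        simpa using (hasDerivAt_id x).const_mul (-(q / β))
      exact h5.const_add _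
    refine (h1.mul h4).congr_deriv ?_
    field_simp
    ring
  rw [integral_Ioi_of_hasDerivAt_of_tendsto' hd hi (NumI_tend hβ _ _)]
  field_simp
  ring

/-- the basic pieces: `1_{t > a} (p + q t) e^{-βt}` -/
lemma NumI_piece {β a : ℝ} (hβ : 0 < β) (ha : 1 ≤ a) (p q : ℝ) :
    NumI_HI (fun t => (if a < t then p + q * t else 0) * Real.exp (-(β * t)))
      (Real.exp (-(β * a)) * ((p + q * a) / β + q / β ^ 2)) := by
  have h1 := NumI_lin hβ a p q
  have h2 : (fun t => (if a < t then p + q * t else 0) * Real.exp (-(β * t))) =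
      (Set.Ioi a).indicator (fun t : ℝ => Real.exp (-(β * t)) * (p + q * t)) := by
    ext t
    rw [Set.indicator_apply]
    simp only [Set.mem_Ioi]
    split_ifs <;> ring
  have hsub : Set.Ioi (1 : ℝ) ∩ Set.Ioi a = Set.Ioi a := by
    rw [Set.Ioi_inter_Ioi, max_eq_right ha]
  rw [h2]
  constructor
  · have h3 : Integrable ((Set.Ioi a).indicator
        (fun t : ℝ => Real.exp (-(β * t)) * (p + q * t))) := h1.1.integrable_indicator measurableSet_Ioi
    exact h3.integrableOn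
  · rw [setIntegral_indicator measurableSet_Ioi, hsub, h1.2]

lemma NumI_piece0 {β : ℝ} (hβ : 0 < β) (p q : ℝ) :
    NumI_HI (fun t => (p + q * t) * Real.exp (-(β * t)))
      (Real.exp (-β) * ((p + q) / β + q / β ^ 2)) := by
  have h1 := NumI_lin hβ 1 p q
  rw [mul_one, mul_one] at h1
  constructor
  · refine h1.1.congr_fun ?_ measurableSet_Ioi
    intro t _
    show Real.exp (-(β * t)) * (p + q * t) = (p + q * t) * Real.exp (-(β * t))
    ring
  · rw [← h1.2]
    apply setIntegral_congr_fun measurableSet_Ioi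
    intro t _
    show (p + q * t) * Real.exp (-(β * t)) = Real.exp (-(β * t)) * (p + q * t)
    ring

lemma NumI_exp (α : ℝ) (n : ℕ) : Real.exp (-(α * n)) = Real.exp (-α) ^ n := by
  rw [← Real.exp_nat_mul]
  congr 1
  ring

/-- the shifted term `e^{-13α(t-1)}` -/
lemma NumI_shift (α t : ℝ) : Real.exp (-(13 * α * (t - 1))) =
    Real.exp (13 * α) * Real.exp (-(13 * α * t)) := by
  rw [← Real.exp_add]
  congr 1
  ring

/-- general comparison -/
lemma NumI_gen (α T p q : ℝ) (hα : 0 < α) (w F c : ℝ → ℝ)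
    (hw : ContinuousOn w (Set.Ici 1)) (hF : ContinuousOn F (Set.Ici 1))
    (hb : ∀ t : ℝ, 1 ≤ t → |w t| ≤ p + q * t)
    (hc : ∀ t : ℝ, 1 < t → c t ≤ w t)
    (hFb : ∀ t : ℝ, 1 ≤ t → |F t - Real.exp (-(α * t))| ≤ 2 * Real.exp (-(5 * α * t)) +
      3 * Real.exp (-(9 * α * t)) + T * Real.exp (-(13 * α * (t - 1))))
    (A : ℝ) (hA : NumI_HI (fun t => c t * Real.exp (-(α * t))) A) :
    IntegrableOn (fun t : ℝ => w t * F t) (Set.Ioi 1) ∧
    A - (2 * (Real.exp (-α) ^ 5 * ((p + q) / (5 * α) + q / (5 * α) ^ 2)) +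
      3 * (Real.exp (-α) ^ 9 * ((p + q) / (9 * α) + q / (9 * α) ^ 2)) +
      T * ((p + q) / (13 * α) + q / (13 * α) ^ 2)) ≤ ∫ t in Set.Ioi (1 : ℝ), w t * F t := by
  have h5 := NumI_piece0 (show 0 < 5 * α by linarith) p q
  have h9 := NumI_piece0 (show 0 < 9 * α by linarith) p q
  have h13 := (NumI_piece0 (show 0 < 13 * α by linarith) p q).smul (Real.exp (13 * α))
  have h1 := NumI_piece0 hα p q
  have e5 : Real.exp (-(5 * α)) = Real.exp (-α) ^ 5 := by
    have := NumI_exp α 5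
    rw [← this]; congr 1; push_cast; ring
  have e9 : Real.exp (-(9 * α)) = Real.exp (-α) ^ 9 := by
    have := NumI_exp α 9
    rw [← this]; congr 1; push_cast; ring
  have e13 : Real.exp (13 * α) * (Real.exp (-(13 * α)) * ((p + q) / (13 * α) + q / (13 * α) ^ 2)) =
      (p + q) / (13 * α) + q / (13 * α) ^ 2 := by
    rw [← mul_assoc, ← Real.exp_add, add_neg_cancel, Real.exp_zero, one_mul]
  rw [e5] at h5
  rw [e9] at h9
  rw [e13] at h13
  -- the error term
  have hE := ((h5.smul 2).add (h9.smul 3)).add (h13.smul T)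
  have hL := hA.sub hE
  have hEeq : ∀ t : ℝ, 2 * ((p + q * t) * Real.exp (-(5 * α * t))) +
      3 * ((p + q * t) * Real.exp (-(9 * α * t))) +
      T * (Real.exp (13 * α) * ((p + q * t) * Real.exp (-(13 * α * t)))) =
      (p + q * t) * (2 * Real.exp (-(5 * α * t)) + 3 * Real.exp (-(9 * α * t)) +
        T * Real.exp (-(13 * α * (t - 1)))) := by
    intro t
    rw [NumI_shift]
    ring
  have hmeas : AEStronglyMeasurable (fun t : ℝ => w t * F t) (volume.restrict (Set.Ioi 1)) :=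
    ((hw.mul hF).mono Set.Ioi_subset_Ici_self).aestronglyMeasurable measurableSet_Ioi
  have hint : IntegrableOn (fun t : ℝ => w t * F t) (Set.Ioi 1) := by
    refine Integrable.mono' (h1.add hE).1 hmeas ?_
    rw [ae_restrict_iff' measurableSet_Ioi]
    apply Eventually.of_forall
    intro t ht
    have ht1 : 1 ≤ t := le_of_lt ht
    show ‖w t * F t‖ ≤ (p + q * t) * Real.exp (-(α * t)) +
      (2 * ((p + q * t) * Real.exp (-(5 * α * t))) +
      3 * ((p + q * t) * Real.exp (-(9 * α * t))) +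
      T * (Real.exp (13 * α) * ((p + q * t) * Real.exp (-(13 * α * t)))))
    rw [hEeq, norm_mul, Real.norm_eq_abs, Real.norm_eq_abs, ← mul_add]
    apply mul_le_mul (hb t ht1) _ (abs_nonneg _) ((abs_nonneg _).trans (hb t ht1))
    have h2 := hFb t ht1
    have h3 : F t = Real.exp (-(α * t)) + (F t - Real.exp (-(α * t))) := by ring
    rw [h3]
    refine (abs_add_le _ _).trans ?_
    rw [abs_of_pos (Real.exp_pos _)]
    linarith
  refine ⟨hint, ?_⟩
  rw [← hL.2]
  apply setIntegral_mono_on hL.1 hint measurableSet_Ioi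
  intro t ht
  have ht1 : 1 ≤ t := le_of_lt ht
  show c t * Real.exp (-(α * t)) - (2 * ((p + q * t) * Real.exp (-(5 * α * t))) +
      3 * ((p + q * t) * Real.exp (-(9 * α * t))) +
      T * (Real.exp (13 * α) * ((p + q * t) * Real.exp (-(13 * α * t))))) ≤ w t * F t
  rw [hEeq]
  have h2 := hFb t ht1
  have h3 : |w t * (F t - Real.exp (-(α * t)))| ≤ (p + q * t) *
      (2 * Real.exp (-(5 * α * t)) + 3 * Real.exp (-(9 * α * t)) +
        T * Real.exp (-(13 * α * (t - 1)))) := by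
    rw [abs_mul]
    exact mul_le_mul (hb t ht1) h2 (abs_nonneg _) ((abs_nonneg _).trans (hb t ht1))
  have h4 := (abs_le.1 h3).1
  have h6 : c t * Real.exp (-(α * t)) ≤ w t * Real.exp (-(α * t)) :=
    mul_le_mul_of_nonneg_right (hc t ht) (Real.exp_pos _).le
  linarith

/-- Positivity of a weighted integral, first kind (weights of size `t - 1`).  With `X = e^{-α}`:
`∫ w F ≥ ∫ w e^{-αt} - ∫ |w| |F - e^{-αt}|`.  First part: `w ≥ 0` on `[1,65]`, so it is at least
`0.64 (X² - X³)/α + 0.94 (X³ - X⁴)/α + 1.1 (X⁴ - X^16)/α - ∫_65^∞ (t-1) e^{-αt} dt` and the last integral is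
`X^65 (64/α + 1/α²)`.  Second part: `∫_1^∞ (t-1) e^{-βt} dt = e^{-β}/β²`, so it is at most
`2 X⁵/(25α²) + 3 X⁹/(81α²) + T/(169α²)`. -/
theorem int_neg (α T : ℝ) (hα : 0 < α) (hT : 0 ≤ T) (w F : ℝ → ℝ)
    (hw : ContinuousOn w (Set.Ici 1)) (hF : ContinuousOn F (Set.Ici 1))
    (hb : ∀ t : ℝ, 1 ≤ t → |w t| ≤ t - 1) (h0 : ∀ t : ℝ, 1 ≤ t → t ≤ 65 → 0 ≤ w t)
    (h1 : ∀ t : ℝ, 2 ≤ t → t ≤ 3 → 64 / 100 ≤ w t) (h2 : ∀ t : ℝ, 3 ≤ t → t ≤ 4 → 94 / 100 ≤ w t)
    (h3 : ∀ t : ℝ, 4 ≤ t → t ≤ 16 → 11 / 10 ≤ w t)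
    (hFb : ∀ t : ℝ, 1 ≤ t → |F t - Real.exp (-(α * t))| ≤ 2 * Real.exp (-(5 * α * t)) +
      3 * Real.exp (-(9 * α * t)) + T * Real.exp (-(13 * α * (t - 1)))) :
    IntegrableOn (fun t : ℝ => w t * F t) (Set.Ioi 1) ∧
    64 / 100 * (Real.exp (-α) ^ 2 - Real.exp (-α) ^ 3) / α +
      94 / 100 * (Real.exp (-α) ^ 3 - Real.exp (-α) ^ 4) / α +
      11 / 10 * (Real.exp (-α) ^ 4 - Real.exp (-α) ^ 16) / α -
      Real.exp (-α) ^ 65 * (64 / α + 1 / α ^ 2) -
      (2 * Real.exp (-α) ^ 5 / (25 * α ^ 2) + 3 * Real.exp (-α) ^ 9 / (81 * α ^ 2) +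
        T / (169 * α ^ 2)) ≤ ∫ t in Set.Ioi (1 : ℝ), w t * F t := by
  have p2 := NumI_piece hα (show (1 : ℝ) ≤ ((2 : ℕ) : ℝ) by norm_num) (64 / 100) 0
  have p3 := NumI_piece hα (show (1 : ℝ) ≤ ((3 : ℕ) : ℝ) by norm_num) (30 / 100) 0
  have p4 := NumI_piece hα (show (1 : ℝ) ≤ ((4 : ℕ) : ℝ) by norm_num) (16 / 100) 0
  have p16 := NumI_piece hα (show (1 : ℝ) ≤ ((16 : ℕ) : ℝ) by norm_num) (11 / 10) 0
  have p65 := NumI_piece hα (show (1 : ℝ) ≤ ((65 : ℕ) : ℝ) by norm_num) (-1) 1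
  rw [NumI_exp] at p2 p3 p4 p16 p65
  have hA := (((p2.add p3).add p4).sub p16).sub p65
  have hc : ∀ t : ℝ, 1 < t → (if ((2 : ℕ) : ℝ) < t then (64 / 100 : ℝ) + 0 * t else 0) +
      (if ((3 : ℕ) : ℝ) < t then (30 / 100 : ℝ) + 0 * t else 0) +
      (if ((4 : ℕ) : ℝ) < t then (16 / 100 : ℝ) + 0 * t else 0) -
      (if ((16 : ℕ) : ℝ) < t then (11 / 10 : ℝ) + 0 * t else 0) -
      (if ((65 : ℕ) : ℝ) < t then (-1 : ℝ) + 1 * t else 0) ≤ w t := by
    intro t ht
    have ht1 : 1 ≤ t := ht.le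
    have b := (abs_le.1 (hb t ht1)).1
    push_cast
    rcases le_or_gt t 2 with c2 | c2
    · have := h0 t ht1 (by linarith)
      rw [if_neg (by linarith), if_neg (by linarith), if_neg (by linarith), if_neg (by linarith),
        if_neg (by linarith)]
      linarith
    rcases le_or_gt t 3 with c3 | c3
    · have := h1 t c2.le c3
      rw [if_pos (by linarith), if_neg (by linarith), if_neg (by linarith), if_neg (by linarith),
        if_neg (by linarith)]
      linarith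
    rcases le_or_gt t 4 with c4 | c4
    · have := h2 t c3.le c4
      rw [if_pos (by linarith), if_pos (by linarith), if_neg (by linarith), if_neg (by linarith),
        if_neg (by linarith)]
      linarith
    rcases le_or_gt t 16 with c16 | c16
    · have := h3 t c4.le c16
      rw [if_pos (by linarith), if_pos (by linarith), if_pos (by linarith), if_neg (by linarith),
        if_neg (by linarith)]
      linarith
    rcases le_or_gt t 65 with c65 | c65
    · have := h0 t ht1 c65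
      rw [if_pos (by linarith), if_pos (by linarith), if_pos (by linarith), if_pos (by linarith),
        if_neg (by linarith)]
      linarith
    · rw [if_pos (by linarith), if_pos (by linarith), if_pos (by linarith), if_pos (by linarith),
        if_pos (by linarith)]
      linarith
  obtain ⟨hI, hv⟩ := NumI_gen α T (-1) 1 hα w F
    (fun t => (if ((2 : ℕ) : ℝ) < t then (64 / 100 : ℝ) + 0 * t else 0) +
      (if ((3 : ℕ) : ℝ) < t then (30 / 100 : ℝ) + 0 * t else 0) +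
      (if ((4 : ℕ) : ℝ) < t then (16 / 100 : ℝ) + 0 * t else 0) -
      (if ((16 : ℕ) : ℝ) < t then (11 / 10 : ℝ) + 0 * t else 0) -
      (if ((65 : ℕ) : ℝ) < t then (-1 : ℝ) + 1 * t else 0)) hw hF
    (fun t ht => by have := hb t ht; linarith) hc hFb _
    (hA.congr (fun t => by ring))
  refine ⟨hI, le_trans (le_of_eq ?_) hv⟩
  push_cast
  field_simp
  ring

/-- Positivity of a weighted integral, second kind (weights of size `(1 + t)/2`, and at most `t/5` for
`t ≥ 8`).  With `X = e^{-α}`: first part at least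
`0.86 (X - X²)/α + 0.66 (X² - X³)/α + 0.45 (X³ - X⁴)/α + 0.27 (X⁴ - X⁵)/α - ∫_8^∞ (t/5) e^{-αt} dt`, the last
integral being `X⁸ (8/(5α) + 1/(5α²))`.  Second part: `∫_1^∞ (1+t)/2 e^{-βt} dt
= e^{-β} (1/β + 1/(2β²))`. -/
theorem int_pos (α T : ℝ) (hα : 0 < α) (hT : 0 ≤ T) (w F : ℝ → ℝ)
    (hw : ContinuousOn w (Set.Ici 1)) (hF : ContinuousOn F (Set.Ici 1))
    (hb : ∀ t : ℝ, 1 ≤ t → |w t| ≤ (1 + t) / 2) (hb8 : ∀ t : ℝ, 8 ≤ t → |w t| ≤ t / 5)
    (h0 : ∀ t : ℝ, 1 ≤ t → t ≤ 8 → 0 ≤ w t)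
    (h1 : ∀ t : ℝ, 1 ≤ t → t ≤ 2 → 86 / 100 ≤ w t) (h2 : ∀ t : ℝ, 2 ≤ t → t ≤ 3 → 66 / 100 ≤ w t)
    (h3 : ∀ t : ℝ, 3 ≤ t → t ≤ 4 → 45 / 100 ≤ w t) (h4 : ∀ t : ℝ, 4 ≤ t → t ≤ 5 → 27 / 100 ≤ w t)
    (hFb : ∀ t : ℝ, 1 ≤ t → |F t - Real.exp (-(α * t))| ≤ 2 * Real.exp (-(5 * α * t)) +
      3 * Real.exp (-(9 * α * t)) + T * Real.exp (-(13 * α * (t - 1)))) :
    IntegrableOn (fun t : ℝ => w t * F t) (Set.Ioi 1) ∧
    86 / 100 * (Real.exp (-α) - Real.exp (-α) ^ 2) / α +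
      66 / 100 * (Real.exp (-α) ^ 2 - Real.exp (-α) ^ 3) / α +
      45 / 100 * (Real.exp (-α) ^ 3 - Real.exp (-α) ^ 4) / α +
      27 / 100 * (Real.exp (-α) ^ 4 - Real.exp (-α) ^ 5) / α -
      Real.exp (-α) ^ 8 * (8 / (5 * α) + 1 / (5 * α ^ 2)) -
      (2 * Real.exp (-α) ^ 5 * (1 / (5 * α) + 1 / (50 * α ^ 2)) +
        3 * Real.exp (-α) ^ 9 * (1 / (9 * α) + 1 / (162 * α ^ 2)) +
        T * (1 / (13 * α) + 1 / (338 * α ^ 2))) ≤ ∫ t in Set.Ioi (1 : ℝ), w t * F t := by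
  have p1 := NumI_piece hα (show (1 : ℝ) ≤ ((1 : ℕ) : ℝ) by norm_num) (86 / 100) 0
  have p2 := NumI_piece hα (show (1 : ℝ) ≤ ((2 : ℕ) : ℝ) by norm_num) (20 / 100) 0
  have p3 := NumI_piece hα (show (1 : ℝ) ≤ ((3 : ℕ) : ℝ) by norm_num) (21 / 100) 0
  have p4 := NumI_piece hα (show (1 : ℝ) ≤ ((4 : ℕ) : ℝ) by norm_num) (18 / 100) 0
  have p5 := NumI_piece hα (show (1 : ℝ) ≤ ((5 : ℕ) : ℝ) by norm_num) (27 / 100) 0
  have p8 := NumI_piece hα (show (1 : ℝ) ≤ ((8 : ℕ) : ℝ) by norm_num) 0 (1 / 5)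
  rw [NumI_exp] at p1 p2 p3 p4 p5 p8
  have hA := ((((p1.sub p2).sub p3).sub p4).sub p5).sub p8
  have hc : ∀ t : ℝ, 1 < t → (if ((1 : ℕ) : ℝ) < t then (86 / 100 : ℝ) + 0 * t else 0) -
      (if ((2 : ℕ) : ℝ) < t then (20 / 100 : ℝ) + 0 * t else 0) -
      (if ((3 : ℕ) : ℝ) < t then (21 / 100 : ℝ) + 0 * t else 0) -
      (if ((4 : ℕ) : ℝ) < t then (18 / 100 : ℝ) + 0 * t else 0) -
      (if ((5 : ℕ) : ℝ) < t then (27 / 100 : ℝ) + 0 * t else 0) -
      (if ((8 : ℕ) : ℝ) < t then (0 : ℝ) + 1 / 5 * t else 0) ≤ w t := by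
    intro t ht
    have ht1 : 1 ≤ t := ht.le
    push_cast
    rcases le_or_gt t 2 with c2 | c2
    · have := h1 t ht1 c2
      rw [if_pos (by linarith), if_neg (by linarith), if_neg (by linarith), if_neg (by linarith),
        if_neg (by linarith), if_neg (by linarith)]
      linarith
    rcases le_or_gt t 3 with c3 | c3
    · have := h2 t c2.le c3
      rw [if_pos (by linarith), if_pos (by linarith), if_neg (by linarith), if_neg (by linarith),
        if_neg (by linarith), if_neg (by linarith)]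
      linarith
    rcases le_or_gt t 4 with c4 | c4
    · have := h3 t c3.le c4
      rw [if_pos (by linarith), if_pos (by linarith), if_pos (by linarith), if_neg (by linarith),
        if_neg (by linarith), if_neg (by linarith)]
      linarith
    rcases le_or_gt t 5 with c5 | c5
    · have := h4 t c4.le c5
      rw [if_pos (by linarith), if_pos (by linarith), if_pos (by linarith), if_pos (by linarith),
        if_neg (by linarith), if_neg (by linarith)]
      linarith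
    rcases le_or_gt t 8 with c8 | c8
    · have := h0 t ht1 c8
      rw [if_pos (by linarith), if_pos (by linarith), if_pos (by linarith), if_pos (by linarith),
        if_pos (by linarith), if_neg (by linarith)]
      linarith
    · have b := (abs_le.1 (hb8 t c8.le)).1
      rw [if_pos (by linarith), if_pos (by linarith), if_pos (by linarith), if_pos (by linarith),
        if_pos (by linarith), if_pos (by linarith)]
      linarith
  obtain ⟨hI, hv⟩ := NumI_gen α T (1 / 2) (1 / 2) hα w F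
    (fun t => (if ((1 : ℕ) : ℝ) < t then (86 / 100 : ℝ) + 0 * t else 0) -
      (if ((2 : ℕ) : ℝ) < t then (20 / 100 : ℝ) + 0 * t else 0) -
      (if ((3 : ℕ) : ℝ) < t then (21 / 100 : ℝ) + 0 * t else 0) -
      (if ((4 : ℕ) : ℝ) < t then (18 / 100 : ℝ) + 0 * t else 0) -
      (if ((5 : ℕ) : ℝ) < t then (27 / 100 : ℝ) + 0 * t else 0) -
      (if ((8 : ℕ) : ℝ) < t then (0 : ℝ) + 1 / 5 * t else 0)) hw hF
    (fun t ht => by have := hb t ht; linarith) hc hFb _
    (hA.congr (fun t => by ring))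
  refine ⟨hI, le_trans (le_of_eq ?_) hv⟩
  push_cast
  field_simp
  ring

end W3283g
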