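import Pool.Agent.W_3283e1_h53.GamB

set_option autoImplicit false

namespace W3283g

open Complex MeasureTheory Filter Topology

/-- Polynomial growth from the functional equation (Phragmén-Lindelöf).  `Λ` is entire, bounded in
vertical strips, `Λ(k - s) = ε Λ(s)`, and `Lf s = A^s Γ(s)⁻¹ Λ(s)` is bounded on
`Re s ≥ (k+3)/2`.  On the line `Re s = (k-3)/2` put `s' = k - s̄`... precisely: for
`s = (k-3)/2 + it`, `s + 3 = (k+3)/2 + it` and `k - s = (k+3)/2 - it`, so `‖Γ(s+3)‖ = ‖Γ(k - s)‖`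
(`Complex.Gamma_conj`), `‖A^s‖ = A^{(k-3)/2}`, and by `inv_gamma_three`
`‖Lf s‖ = A^{(k-3)/2} ‖s(s+1)(s+2)‖ ‖Γ(k-s)‖⁻¹ ‖Λ(k-s)‖ = A^{-3} ‖s(s+1)(s+2)‖ ‖Lf(k-s)‖
≤ C ‖s+2‖^3`-like.  In the strip `(k-3)/2 ≤ Re s ≤ (k+3)/2` the function
`F s = Lf s / (s + 2)^3` (`Re (s+2) ≥ 3/2` as `k ≥ 2`) is bounded on both edges, and
`‖F s‖ ≤ C exp (π |Im s|)` inside (`inv_gamma_growth`), which is `O(exp (B exp (c |Im s|)))` with
`c = 1/2 < π/3`; so `PhragmenLindelof.vertical_strip` gives `‖Lf s‖ ≤ C ‖s + 2‖^3` there. -/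
theorem grow_gen (A : ℝ) (hA : 0 < A) (k : ℝ) (hk : 2 ≤ k) (Λ : ℂ → ℂ)
    (hΛ : Differentiable ℂ Λ) (ε : ℂ) (hε : ‖ε‖ = 1) (hfe : ∀ s : ℂ, Λ (k - s) = ε * Λ s)
    (hbd : ∀ a b : ℝ, ∃ B : ℝ, ∀ s : ℂ, a ≤ s.re → s.re ≤ b → ‖Λ s‖ ≤ B)
    (hedge : ∃ B : ℝ, ∀ s : ℂ, (k + 3) / 2 ≤ s.re →
      ‖(A : ℂ) ^ s * (Complex.Gamma s)⁻¹ * Λ s‖ ≤ B) :
    ∃ C : ℝ, 0 < C ∧ ∀ s : ℂ, (k - 3) / 2 ≤ s.re →
      ‖(A : ℂ) ^ s * (Complex.Gamma s)⁻¹ * Λ s‖ ≤ C * (2 + ‖s‖) ^ 3 := by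
  obtain ⟨B₀, hB₀⟩ := hedge
  set B : ℝ := |B₀| + 1 with hB
  have hBpos : 0 < B := by positivity
  have hB₁ : ∀ s : ℂ, (k + 3) / 2 ≤ s.re →
      ‖(A : ℂ) ^ s * (Complex.Gamma s)⁻¹ * Λ s‖ ≤ B := by
    intro s hs
    have := hB₀ s hs
    have := le_abs_self B₀
    linarith
  obtain ⟨B', hB'⟩ := hbd ((k - 3) / 2) ((k + 3) / 2)
  obtain ⟨CG, hCG, hCG'⟩ := inv_gamma_growth ((k - 3) / 2) ((k + 3) / 2)
  have hA0 : (A : ℂ) ≠ 0 := by exact_mod_cast hA.ne'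
  set Lf : ℂ → ℂ := fun s => (A : ℂ) ^ s * (Complex.Gamma s)⁻¹ * Λ s with hLf
  have hLfd : Differentiable ℂ Lf := by
    intro s
    exact ((differentiableAt_id.const_cpow (Or.inl hA0)).mul
      (Complex.differentiable_one_div_Gamma s)).mul (hΛ s)
  set F : ℂ → ℂ := fun s => Lf s / (s + 2) ^ 3 with hF
  set C : ℝ := 6 * (A ^ (3 : ℕ))⁻¹ * B + B with hC
  have hA3 : 0 < A ^ (3 : ℕ) := by positivity
  have hCpos : 0 < C := by positivity
  have hn2 : ∀ s : ℂ, (k - 3) / 2 ≤ s.re → 1 ≤ ‖s + 2‖ := by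
    intro s hs
    have h1 := Complex.re_le_norm (s + 2)
    simp at h1
    linarith
  -- left edge
  have hleft : ∀ z : ℂ, z.re = (k - 3) / 2 → ‖F z‖ ≤ C := by
    intro z hz
    have hnz := hn2 z hz.ge
    have hG : ‖(Complex.Gamma z)⁻¹‖ =
        ‖z * (z + 1) * (z + 2)‖ * ‖(Complex.Gamma (k - z))⁻¹‖ := by
      rw [inv_gamma_three z, norm_mul]
      congr 1
      have h1 : z + 3 = (starRingEnd ℂ) (k - z) := by
        apply Complex.ext
        · simp [hz]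
          ring
        · simp
      rw [h1, Complex.Gamma_conj, norm_inv, norm_inv, Complex.norm_conj]
    have hΛn : ‖Λ z‖ = ‖Λ (k - z)‖ := by
      rw [hfe, norm_mul, hε, one_mul]
    have hAn : ‖(A : ℂ) ^ z‖ = (A ^ (3 : ℕ))⁻¹ * ‖(A : ℂ) ^ ((k : ℂ) - z)‖ := by
      rw [Complex.norm_cpow_eq_rpow_re_of_pos hA, Complex.norm_cpow_eq_rpow_re_of_pos hA]
      have h2 : ((k : ℂ) - z).re = z.re + 3 := by
        simp [hz]
        ring
      rw [h2, Real.rpow_add hA]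
      have h3 : A ^ (3 : ℝ) = A ^ (3 : ℕ) := by
        exact_mod_cast Real.rpow_natCast A 3
      rw [h3]
      field_simp
    have hLz : ‖Lf z‖ = (A ^ (3 : ℕ))⁻¹ * ‖z * (z + 1) * (z + 2)‖ * ‖Lf (k - z)‖ := by
      simp only [hLf, norm_mul] at *
      rw [hG, hΛn, hAn]
      ring
    have hLk : ‖Lf (k - z)‖ ≤ B := by
      apply hB₁
      simp [hz]
      linarith
    have hz0 : ‖z‖ ≤ 3 * ‖z + 2‖ := by
      have h1 : ‖z‖ ≤ ‖z + 2‖ + ‖(2 : ℂ)‖ := by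
        calc ‖z‖ = ‖(z + 2) - 2‖ := by ring_nf
          _ ≤ _ := norm_sub_le _ _
      have h2 : ‖(2 : ℂ)‖ = 2 := by simp
      rw [h2] at h1
      linarith
    have hz1 : ‖z + 1‖ ≤ 2 * ‖z + 2‖ := by
      have h1 : ‖z + 1‖ ≤ ‖z + 2‖ + ‖(1 : ℂ)‖ := by
        calc ‖z + 1‖ = ‖(z + 2) - 1‖ := by ring_nf
          _ ≤ _ := norm_sub_le _ _
      have h2 : ‖(1 : ℂ)‖ = 1 := by simp
      rw [h2] at h1
      linarith
    have hprod : ‖z * (z + 1) * (z + 2)‖ ≤ 6 * ‖z + 2‖ ^ 3 := by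
      rw [norm_mul, norm_mul]
      have h0 : 0 ≤ ‖z + 2‖ := norm_nonneg _
      calc ‖z‖ * ‖z + 1‖ * ‖z + 2‖ ≤ (3 * ‖z + 2‖) * (2 * ‖z + 2‖) * ‖z + 2‖ := by
            gcongr
        _ = 6 * ‖z + 2‖ ^ 3 := by ring
    simp only [hF]
    rw [norm_div, norm_pow, div_le_iff₀ (by positivity), hLz]
    calc (A ^ (3 : ℕ))⁻¹ * ‖z * (z + 1) * (z + 2)‖ * ‖Lf (k - z)‖
        ≤ (A ^ (3 : ℕ))⁻¹ * (6 * ‖z + 2‖ ^ 3) * B := by gcongr
      _ = (6 * (A ^ (3 : ℕ))⁻¹ * B) * ‖z + 2‖ ^ 3 := by ring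
      _ ≤ C * ‖z + 2‖ ^ 3 := by
          apply mul_le_mul_of_nonneg_right _ (by positivity)
          rw [hC]
          linarith
  have hright : ∀ z : ℂ, z.re = (k + 3) / 2 → ‖F z‖ ≤ C := by
    intro z hz
    have hnz := hn2 z (by rw [hz]; linarith)
    have h1 := hB₁ z hz.ge
    simp only [hF]
    rw [norm_div, norm_pow, div_le_iff₀ (by positivity)]
    have h2 : (1 : ℝ) ≤ ‖z + 2‖ ^ 3 := one_le_pow₀ hnz
    have h3 : B ≤ C := by
      rw [hC]
      have : 0 ≤ 6 * (A ^ (3 : ℕ))⁻¹ * B := by positivity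
      linarith
    calc ‖Lf z‖ ≤ B := h1
      _ ≤ C * 1 := by linarith
      _ ≤ C * ‖z + 2‖ ^ 3 := by gcongr
  have hstrip : ∀ z : ℂ, (k - 3) / 2 ≤ z.re → z.re ≤ (k + 3) / 2 → ‖F z‖ ≤ C := by
    intro z hz1 hz2
    apply PhragmenLindelof.vertical_strip (a := (k - 3) / 2) (b := (k + 3) / 2) _ _ hleft hright
      hz1 hz2
    · apply DifferentiableOn.diffContOnCl
      rw [Complex.closure_preimage_re, closure_Ioo (by intro h; linarith)]
      intro w hw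
      have hw1 : (k - 3) / 2 ≤ w.re := hw.1
      have hw2 : w + 2 ≠ 0 := by
        have := hn2 w hw1
        intro h
        rw [h] at this
        simp at this
        linarith
      apply DifferentiableAt.differentiableWithinAt
      have hd : DifferentiableAt ℂ (fun s : ℂ => (s + 2) ^ 3) w :=
        (differentiableAt_id.add_const _).pow 3
      exact (hLfd w).div hd (pow_ne_zero 3 hw2)
    · refine ⟨1 / 2, ?_, 2 * Real.pi, ?_⟩
      · rw [show (k + 3) / 2 - (k - 3) / 2 = 3 by ring, div_lt_div_iff₀ (by norm_num) (by norm_num)]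
        linarith [Real.pi_gt_three]
      · apply Asymptotics.IsBigO.of_bound ((A ^ ((k - 3) / 2) + A ^ ((k + 3) / 2)) * CG * |B'|)
        have hmem : (Complex.re ⁻¹' Set.Ioo ((k - 3) / 2) ((k + 3) / 2)) ∈
            (comap (_root_.abs ∘ Complex.im) atTop ⊓
              𝓟 (Complex.re ⁻¹' Set.Ioo ((k - 3) / 2) ((k + 3) / 2))) :=
          mem_inf_of_right (mem_principal_self _)
        filter_upwards [hmem] with w hw
        have hw1 : (k - 3) / 2 ≤ w.re := hw.1.le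
        have hw2 : w.re ≤ (k + 3) / 2 := hw.2.le
        have hn := hn2 w hw1
        have hp3 : (1 : ℝ) ≤ ‖w + 2‖ ^ 3 := one_le_pow₀ hn
        have hFle : ‖F w‖ ≤ ‖Lf w‖ := by
          simp only [hF]
          rw [norm_div, norm_pow]
          exact div_le_self (norm_nonneg _) hp3
        refine hFle.trans ?_
        have e1 : ‖(A : ℂ) ^ w‖ ≤ A ^ ((k - 3) / 2) + A ^ ((k + 3) / 2) := by
          rw [Complex.norm_cpow_eq_rpow_re_of_pos hA]
          have p1 : 0 < A ^ ((k - 3) / 2) := Real.rpow_pos_of_pos hA _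
          have p2 : 0 < A ^ ((k + 3) / 2) := Real.rpow_pos_of_pos hA _
          rcases le_total 1 A with h | h
          · have := Real.rpow_le_rpow_of_exponent_le h hw2
            linarith
          · have := Real.rpow_le_rpow_of_exponent_ge hA h hw1
            linarith
        have e2 := hCG' w hw1 hw2
        have e3 : ‖Λ w‖ ≤ |B'| := (hB' w hw1 hw2).trans (le_abs_self _)
        have e4 : Real.exp (Real.pi * |w.im|) ≤
            Real.exp (2 * Real.pi * Real.exp (1 / 2 * |w.im|)) := by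
          apply Real.exp_le_exp.mpr
          have h1 := Real.add_one_le_exp (1 / 2 * |w.im|)
          have h2 := Real.pi_pos
          nlinarith
        simp only [hLf]
        rw [norm_mul, norm_mul, Real.norm_eq_abs, Real.abs_exp]
        calc ‖(A : ℂ) ^ w‖ * ‖(Complex.Gamma w)⁻¹‖ * ‖Λ w‖
            ≤ (A ^ ((k - 3) / 2) + A ^ ((k + 3) / 2)) *
              (CG * Real.exp (2 * Real.pi * Real.exp (1 / 2 * |w.im|))) * |B'| := by
              gcongr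
              exact e2.trans (mul_le_mul_of_nonneg_left e4 hCG.le)
          _ = _ := by ring
  refine ⟨C, hCpos, fun s hs => ?_⟩
  have hn := hn2 s hs
  have hle : ‖s + 2‖ ≤ 2 + ‖s‖ := by
    have := norm_add_le s 2
    have h2 : ‖(2 : ℂ)‖ = 2 := by simp
    rw [h2] at this
    linarith
  rcases le_total s.re ((k + 3) / 2) with h | h
  · have h1 := hstrip s hs h
    simp only [hF] at h1
    rw [norm_div, norm_pow, div_le_iff₀ (by positivity)] at h1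
    refine h1.trans ?_
    gcongr
  · have h1 := hB₁ s h
    refine h1.trans ?_
    have h2 : (1 : ℝ) ≤ (2 + ‖s‖) ^ 3 := one_le_pow₀ (by linarith)
    have h3 : B ≤ C := by
      rw [hC]
      have : 0 ≤ 6 * (A ^ (3 : ℕ))⁻¹ * B := by positivity
      linarith
    nlinarith

end W3283g
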