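import Mathlib

set_option autoImplicit false

namespace W3283g

open Complex MeasureTheory Filter Topology

/-- Primitives on convex open sets.  If `U = ∅` nothing to prove; otherwise fix `z0 ∈ U` and put
`Φ z = (z - z0) ∫_0^1 F (z0 + θ (z - z0)) dθ`.  Differentiating under the integral sign
(`F` is analytic on `U`, all the points involved lie in a compact subset of `U` for `z` near a given
point; `hasDerivAt_integral_of_dominated_loc_of_deriv_le` or its `intervalIntegral` version) gives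
`Φ'(z) = ∫_0^1 (F(z0 + θ(z-z0)) + θ F'(z0 + θ(z-z0)) (z - z0)) dθ
= ∫_0^1 (d/dθ) (θ F(z0 + θ (z - z0))) dθ = F z`.
(Or: `F` is continuous on `U`, and by Cauchy's theorem for triangles/rectangles; or Mathlib, which has
the case of discs `DifferentiableOn.isExactOn_ball`.) -/
theorem prim_convex (U : Set ℂ) (hU : IsOpen U) (hUc : Convex ℝ U) (F : ℂ → ℂ)
    (hF : DifferentiableOn ℂ F U) : ∃ Φ : ℂ → ℂ, ∀ z ∈ U, HasDerivAt Φ (F z) z := by
  obtain ⟨Φ, hΦ⟩ := hUc.exists_forall_hasDerivWithinAt hF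
  exact ⟨Φ, fun z hz => (hΦ z hz).hasDerivAt (hU.mem_nhds hz)⟩

/-- the fundamental theorem of calculus along a graph -/
theorem PrimC_ftc {U : Set ℂ} {F Φ : ℂ → ℂ} (hF : ContinuousOn F U)
    (hΦ : ∀ z ∈ U, HasDerivAt Φ (F z) z) {T : ℝ} (hT : 0 ≤ T) {h h' : ℝ → ℝ}
    (hh : ∀ t ∈ Set.Icc (-T) T, HasDerivAt h (h' t) t) (hc : ContinuousOn h' (Set.Icc (-T) T))
    (hu : ∀ t ∈ Set.Icc (-T) T, (h t : ℂ) + t * I ∈ U) :
    (∫ t in (-T)..T, F ((h t : ℂ) + t * I) * ((h' t : ℂ) + I)) =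
      Φ ((h T : ℂ) + T * I) - Φ ((h (-T) : ℂ) + (-T : ℝ) * I) := by
  have hle : -T ≤ T := by linarith
  have hcont : ContinuousOn (fun t : ℝ => (h t : ℂ) + t * I) (Set.Icc (-T) T) := by
    refine ContinuousOn.add ?_ (by fun_prop)
    exact continuous_ofReal.comp_continuousOn fun t ht => (hh t ht).continuousAt.continuousWithinAt
  refine intervalIntegral.integral_eq_sub_of_hasDerivAt
    (f := fun t : ℝ => Φ ((h t : ℂ) + t * I)) (fun t ht => ?_) ?_
  · rw [Set.uIcc_of_le hle] at ht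
    have h1 : HasDerivAt (fun t : ℝ => (h t : ℂ)) (h' t : ℂ) t := (hh t ht).ofReal_comp
    have h2 : HasDerivAt (fun t : ℝ => (t : ℂ) * I) I t := by
      simpa using (Complex.ofRealCLM.hasDerivAt (x := t)).mul_const I
    have h3 := (hΦ _ (hu t ht)).scomp t (h1.add h2)
    rw [smul_eq_mul, mul_comm] at h3
    exact h3
  · refine ContinuousOn.intervalIntegrable ?_
    rw [Set.uIcc_of_le hle]
    refine ContinuousOn.mul (hF.comp hcont hu) ?_
    exact (continuous_ofReal.comp_continuousOn hc).add continuousOn_const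

/-- Two paths with the same end points in a convex open set: both integrals are
`Φ(σ0 + iT) - Φ(σ0 - iT)` (`prim_convex`, the fundamental theorem of calculus
`intervalIntegral.integral_eq_sub_of_hasDerivAt`, the chain rule). -/
theorem path_eq (U : Set ℂ) (hU : IsOpen U) (hUc : Convex ℝ U) (F : ℂ → ℂ)
    (hF : DifferentiableOn ℂ F U) (σ0 T : ℝ) (hT : 0 ≤ T) (h h' : ℝ → ℝ)
    (hh : ∀ t ∈ Set.Icc (-T) T, HasDerivAt h (h' t) t) (hc : ContinuousOn h' (Set.Icc (-T) T))
    (h1 : h T = σ0) (h2 : h (-T) = σ0)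
    (hu : ∀ t ∈ Set.Icc (-T) T, (h t : ℂ) + t * I ∈ U)
    (hs : ∀ t ∈ Set.Icc (-T) T, (σ0 : ℂ) + t * I ∈ U) :
    (∫ t in (-T)..T, F ((σ0 : ℂ) + t * I) * I) =
      ∫ t in (-T)..T, F ((h t : ℂ) + t * I) * ((h' t : ℂ) + I) := by
  obtain ⟨Φ, hΦ⟩ := prim_convex U hU hUc F hF
  rw [PrimC_ftc hF.continuousOn hΦ hT hh hc hu, h1, h2]
  have h3 := PrimC_ftc hF.continuousOn hΦ hT (h := fun _ => σ0) (h' := fun _ => 0)
    (fun t _ => hasDerivAt_const t σ0) continuousOn_const hs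
  rw [← h3]
  refine intervalIntegral.integral_congr fun t _ => ?_
  simp

end W3283g
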