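import Pool.Agent.W_3283e1_h53.NearZ

set_option autoImplicit false

namespace W3283g

open Complex W3283e1 W3283f MeasureTheory Filter Topology

/-- the region -/
def RegExt_R (c : ℝ) : Set ℂ :=
  {s : ℂ | 0 ≤ s.re ∧ s.re ≤ 1 ∧ c * s.im ^ 2 ≤ c * s.re ^ 2 + 2 * s.re}

theorem RegExt_compact {c : ℝ} (hc : 0 < c) : IsCompact (RegExt_R c) := by
  refine Metric.isCompact_of_isClosed_isBounded ?_ ?_
  · have h1 : IsClosed {s : ℂ | 0 ≤ s.re} := isClosed_le continuous_const Complex.continuous_re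
    have h2 : IsClosed {s : ℂ | s.re ≤ 1} := isClosed_le Complex.continuous_re continuous_const
    have h3 : IsClosed {s : ℂ | c * s.im ^ 2 ≤ c * s.re ^ 2 + 2 * s.re} :=
      isClosed_le (by fun_prop) (by fun_prop)
    exact h1.inter (h2.inter h3)
  · refine Bornology.IsBounded.subset (Metric.isBounded_closedBall (x := (0 : ℂ))
      (r := Real.sqrt (2 + 2 / c))) fun s hs => ?_
    obtain ⟨h1, h2, h3⟩ := hs
    rw [mem_closedBall_zero_iff]
    apply Real.le_sqrt_of_sq_le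
    rw [← Complex.normSq_eq_norm_sq, Complex.normSq_apply]
    have h4 : s.im ^ 2 ≤ s.re ^ 2 + 2 / c * s.re := by
      have h5 : c * (s.re ^ 2 + 2 / c * s.re) = c * s.re ^ 2 + 2 * s.re := by
        field_simp
      rw [← h5] at h3
      exact le_of_mul_le_mul_left h3 hc
    have h6 : 2 / c * s.re ≤ 2 / c := by
      have : 0 < 2 / c := by positivity
      nlinarith
    nlinarith

theorem RegExt_aux {A₁ A₂ t₁ t₂ a b : ℝ} (h₁ : t₁ ^ 2 + 1 ≤ A₁ ^ 2) (h₂ : t₂ ^ 2 + 1 ≤ A₂ ^ 2)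
    (hA₁ : 0 ≤ A₁) (hA₂ : 0 ≤ A₂) (ha : 0 ≤ a) (hb : 0 ≤ b) (hab : a + b = 1) :
    (a * t₁ + b * t₂) ^ 2 + 1 ≤ (a * A₁ + b * A₂) ^ 2 := by
  have h3 : t₁ * t₂ + 1 ≤ A₁ * A₂ := by
    have h4 := mul_le_mul h₁ h₂ (by positivity) (by positivity)
    have h5 : (t₁ * t₂ + 1) ^ 2 ≤ (A₁ * A₂) ^ 2 := by nlinarith [sq_nonneg (t₁ - t₂)]
    exact (abs_le_of_sq_le_sq' h5 (mul_nonneg hA₁ hA₂)).2
  have h4 : 0 ≤ a * b := mul_nonneg ha hb
  have h5 : (1 : ℝ) = a ^ 2 + b ^ 2 + 2 * (a * b) := by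
    have : (a + b) ^ 2 = 1 := by rw [hab]; norm_num
    nlinarith
  have h6 := mul_le_mul_of_nonneg_left h3 h4
  have h7 := mul_le_mul_of_nonneg_left h₁ (sq_nonneg a)
  have h8 := mul_le_mul_of_nonneg_left h₂ (sq_nonneg b)
  nlinarith

theorem RegExt_convex {c : ℝ} (hc : 0 < c) : Convex ℝ (RegExt_R c) := by
  intro x hx y hy a b ha hb hab
  obtain ⟨h1, h2, h3⟩ := hx
  obtain ⟨h4, h5, h6⟩ := hy
  have hre : (a • x + b • y).re = a * x.re + b * y.re := by simp
  have him : (a • x + b • y).im = a * x.im + b * y.im := by simp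
  refine ⟨?_, ?_, ?_⟩
  · rw [hre]
    positivity
  · rw [hre]
    nlinarith
  · rw [hre, him]
    have hx1 : (c * x.im) ^ 2 + 1 ≤ (c * x.re + 1) ^ 2 := by nlinarith
    have hy1 : (c * y.im) ^ 2 + 1 ≤ (c * y.re + 1) ^ 2 := by nlinarith
    have h7 := RegExt_aux hx1 hy1 (by positivity) (by positivity) ha hb hab
    have h8 : (a * (c * x.re + 1) + b * (c * y.re + 1)) = c * (a * x.re + b * y.re) + 1 := by
      linear_combination hab
    rw [h8] at h7
    have h9 : c * (c * (a * x.im + b * y.im) ^ 2) ≤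
        c * (c * (a * x.re + b * y.re) ^ 2 + 2 * (a * x.re + b * y.re)) := by
      nlinarith
    exact le_of_mul_le_mul_left h9 hc

theorem RegExt_GG (α : ℕ → ℂ) (hα : ∀ p : ℕ, p.Prime → p ≠ 2 → ‖α p‖ ^ 2 = p) :
    ContinuousOn (GG α) {s : ℂ | 1 / 2 < s.re} := by
  have hx : LSeries.abscissaOfAbsConv (fun n => (el α n : ℂ)) ≤ ((1 / 2 : ℝ) : EReal) :=
    LSeries.abscissaOfAbsConv_le_of_forall_lt_LSeriesSummable fun y hy =>
      summable_el α hα y (by simpa using hy)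
  intro s hs
  have h1 : LSeries.abscissaOfAbsConv (fun n => (el α n : ℂ)) < (s.re : EReal) :=
    lt_of_le_of_lt hx (by exact_mod_cast hs)
  exact (LSeries_analyticOnNhd (fun n => (el α n : ℂ)) s h1).continuousAt.continuousWithinAt

/-- The logarithm near the region `{c t² ≤ c σ² + 2 σ, 0 ≤ σ ≤ 1}`.  This region `R` is compact and
convex (`√(t² + b²) ≤ σ + b` with `b = 1/c`; the norm is convex).  The set `G` of the points `s` with
`Re s > -1/4`, `Q` analytic and nonzero at `s` and `L1 s ≠ 0` is a neighbourhood of each point of `R`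
(analyticity and non-vanishing are open conditions): for `Re s > 1/2` the identity of `Q_full` gives
`L(1+s) ≠ 0`, for `0 < Re s ≤ 1/2` this is `hz`, and `Re s = 0` forces `s = 0`, where
`L1 0 = l ≠ 0`.  So some open thickening `U` of `R` is contained in `G`
(`IsCompact.exists_thickening_subset_open`); it is convex (`Convex.thickening`).  Apply `ext_at`
with `V = U ∩ {Re s > 1/2}` (convex), `G = GG + r log s`, `σ1 = 1`;
`exp (2 GG + 2 r log s) = s^{2r} Q/L(1+s)² = Q/L1²`; `GG` is continuous on `Re s > 1/2`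
(LSeries) and real at `1` (`Greal_real`). -/
theorem reg_ext (α : ℕ → ℂ) (L W : ℂ → ℂ) (hD : DataR α L W) (r : ℕ) (l : ℝ) (hl : l ≠ 0)
    (hlim : Tendsto (fun s : ℂ => L (1 + s) / s ^ r) (𝓝[≠] 0) (𝓝 (l : ℂ))) (c : ℝ)
    (hc : 0 < c)
    (hz : ∀ s : ℂ, 0 < s.re → s.re ≤ 1 / 2 → c * s.im ^ 2 ≤ c * s.re ^ 2 + 2 * s.re →
      L (1 + s) ≠ 0) :
    ∃ (U : Set ℂ) (Λ : ℂ → ℂ), IsOpen U ∧ Convex ℝ U ∧
      (∀ s : ℂ, 0 ≤ s.re → s.re ≤ 1 → c * s.im ^ 2 ≤ c * s.re ^ 2 + 2 * s.re → s ∈ U) ∧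
      AnalyticOnNhd ℂ Λ U ∧ Λ 0 = (Real.log (Real.sqrt 2 / |l|) : ℂ) ∧
      ∀ s ∈ U, 1 / 2 < s.re → GG α s + r * Complex.log s = Λ s := by
  obtain ⟨Q, hQa, hQ0, hQp, hQ⟩ := Q_full α L W hD
  obtain ⟨L1, hL1a, hL10, hL1⟩ := L1_exists L hD.L_diff r (l : ℂ) hlim
  have hlC : (l : ℂ) ≠ 0 := Complex.ofReal_ne_zero.2 hl
  -- `L1` does not vanish on the region
  have hL1ne : ∀ s ∈ RegExt_R c, L1 s ≠ 0 := by
    rintro s ⟨h1, h2, h3⟩ h0
    rcases h1.eq_or_lt with h4 | h4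
    · rw [← h4] at h3
      have h5 : s.im = 0 := by
        have h6 : c * s.im ^ 2 ≤ 0 := by simpa using h3
        have h7 : s.im ^ 2 ≤ 0 := by
          by_contra h8
          have h9 : 0 < c * s.im ^ 2 := mul_pos hc (not_le.1 h8)
          linarith
        nlinarith
      have h6 : s = 0 := Complex.ext h4.symm h5
      rw [h6, hL10] at h0
      exact hlC h0
    · have hs0 : s ≠ 0 := fun h => by rw [h] at h4; exact lt_irrefl _ h4
      have h5 := hL1 s (by linarith) hs0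
      rw [h0, mul_zero] at h5
      rcases le_or_gt s.re (1 / 2) with h6 | h6
      · exact hz s h4 h6 h3 h5
      · have h7 := hQ s h6
        rw [h5] at h7
        exact (hQa s h1).2 (by rw [← h7]; ring)
  -- the neighbourhood
  set G : Set ℂ := {s : ℂ | AnalyticAt ℂ Q s ∧ Q s ≠ 0 ∧ -(1 / 4) < s.re ∧ L1 s ≠ 0} with hG
  have hRG : RegExt_R c ⊆ interior G := by
    intro s hs
    rw [mem_interior_iff_mem_nhds]
    have hs1 : -(1 / 4) < s.re := by linarith [hs.1]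
    have e1 : ∀ᶠ z in 𝓝 s, AnalyticAt ℂ Q z := (hQa s hs.1).1.eventually_analyticAt
    have e2 : ∀ᶠ z in 𝓝 s, Q z ≠ 0 := (hQa s hs.1).1.continuousAt.eventually_ne (hQa s hs.1).2
    have e3 : ∀ᶠ z : ℂ in 𝓝 s, -(1 / 4) < z.re :=
      (isOpen_lt continuous_const Complex.continuous_re).mem_nhds hs1
    have e4 : ∀ᶠ z in 𝓝 s, L1 z ≠ 0 := (hL1a s hs1).continuousAt.eventually_ne (hL1ne s hs)
    filter_upwards [e1, e2, e3, e4] with z h1 h2 h3 h4
    exact ⟨h1, h2, h3, h4⟩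
  obtain ⟨δ, hδ, hδG⟩ := (RegExt_compact hc).exists_thickening_subset_open isOpen_interior hRG
  set U : Set ℂ := Metric.thickening δ (RegExt_R c) with hU
  have hUo : IsOpen U := Metric.isOpen_thickening
  have hUc : Convex ℝ U := (RegExt_convex hc).thickening δ
  have hRU : RegExt_R c ⊆ U := Metric.self_subset_thickening hδ _
  have hUG : ∀ s ∈ U, AnalyticAt ℂ Q s ∧ Q s ≠ 0 ∧ -(1 / 4) < s.re ∧ L1 s ≠ 0 := by
    intro s hs
    have h1 : s ∈ G := interior_subset (hδG hs)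
    exact h1
  have h0R : (0 : ℂ) ∈ RegExt_R c := by
    refine ⟨?_, ?_, ?_⟩ <;> simp
  have h1R : ((1 : ℝ) : ℂ) ∈ RegExt_R c := by
    refine ⟨?_, ?_, ?_⟩
    · simp
    · simp
    · rw [Complex.ofReal_im, Complex.ofReal_re]
      nlinarith
  set V : Set ℂ := U ∩ {s : ℂ | 1 / 2 < s.re} with hV
  have hVc : Convex ℝ V := hUc.inter (convex_halfSpace_re_gt (1 / 2))
  have hGc : ContinuousOn (fun s => GG α s + r * Complex.log s) V := by
    refine ContinuousOn.add ((RegExt_GG α hD.norm_α).mono fun s hs => hs.2) ?_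
    refine continuousOn_const.mul (continuousOn_id.clog fun s hs => ?_)
    left
    have : 1 / 2 < s.re := hs.2
    simp only [id]
    linarith
  have hGf : ∀ z ∈ V, Complex.exp (2 * (GG α z + r * Complex.log z)) = Q z / (L1 z) ^ 2 := by
    intro z hz
    have h1 : 1 / 2 < z.re := hz.2
    have hz0 : z ≠ 0 := fun h => by rw [h] at h1; norm_num at h1
    have h2 := hQ z h1
    rw [hL1 z (by linarith) hz0] at h2
    have h3 : Complex.exp (r * Complex.log z) = z ^ r := by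
      rw [Complex.exp_nat_mul, Complex.exp_log hz0]
    have h4 : Complex.exp (2 * (GG α z + r * Complex.log z)) =
        Complex.exp (2 * GG α z) * (z ^ r) ^ 2 := by
      rw [← h3, ← Complex.exp_nat_mul, ← Complex.exp_add]
      congr 1
      push_cast
      ring
    rw [h4, ← h2]
    have h5 : L1 z ≠ 0 := (hUG z hz.1).2.2.2
    field_simp
  obtain ⟨Λ, hΛa, hΛV, hΛ0⟩ := ext_at α L W hD r l hl Q hQ0 hQp L1 hL1a hL10 hL1 U V hUo hUc
    (hRU h0R) hUG Set.inter_subset_left hVc.isPreconnected 1 one_pos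
    ⟨hRU h1R, by
      change 1 / 2 < ((1 : ℝ) : ℂ).re
      rw [Complex.ofReal_re]; norm_num⟩
    (fun s => GG α s + r * Complex.log s) hGc hGf (by
      have h1 := Greal_real α hD.norm_α 1 (by norm_num)
      rw [Complex.add_im, h1]
      simp)
  exact ⟨U, Λ, hUo, hUc, fun s h1 h2 h3 => hRU ⟨h1, h2, h3⟩, hΛa, hΛ0,
    fun s hs hs2 => (hΛV s ⟨hs, hs2⟩).symm⟩

end W3283g
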