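import Pool.Agent.W_MP_3283e1_h19.FinH

set_option autoImplicit false

namespace W3283g

open Complex W3283e1 W3283f MeasureTheory Filter Topology

/-- Local averages of a square integrable function tend to `0`: by Cauchy-Schwarz
`∫_{u}^{u+δ} |e| ≤ √δ (∫_u^∞ e²)^{1/2}`, and the tail of a convergent integral tends to `0`. -/
theorem sv_avg (e : ℝ → ℝ) (he : Measurable e)
    (h2 : IntegrableOn (fun u : ℝ => (e u) ^ 2) (Set.Ioi 0)) (δ η : ℝ) (hδ : 0 < δ)
    (hη : 0 < η) :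
    ∃ u1 : ℝ, 0 < u1 ∧ ∀ u : ℝ, u1 ≤ u →
      IntegrableOn e (Set.Icc u (u + δ)) ∧ ∫ t in Set.Icc u (u + δ), |e t| ≤ η * δ := by
  have ht := intervalIntegral_tendsto_integral_Ioi (0 : ℝ) h2 tendsto_id
  have hε : 0 < η ^ 2 * δ := by positivity
  have ht2 := (Metric.tendsto_nhds.1 ht) (η ^ 2 * δ) hε
  obtain ⟨u1, hu1⟩ := (ht2.and (eventually_ge_atTop 1)).exists_forall_of_atTop
  refine ⟨max u1 1, lt_max_of_lt_right one_pos, fun u hu => ?_⟩
  have hu1' : u1 ≤ u := (le_max_left _ _).trans hu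
  have hu0 : 1 ≤ u := (le_max_right _ _).trans hu
  obtain ⟨hd, -⟩ := hu1 u hu1'
  rw [Real.dist_eq, id_eq, intervalIntegral.integral_of_le (by linarith)] at hd
  have hsub : Set.Ioi (0 : ℝ) = Set.Ioc 0 u ∪ Set.Ioi u :=
    (Set.Ioc_union_Ioi_eq_Ioi (by linarith)).symm
  have i1 : IntegrableOn (fun u : ℝ => (e u) ^ 2) (Set.Ioc 0 u) :=
    h2.mono_set Set.Ioc_subset_Ioi_self
  have i2 : IntegrableOn (fun u : ℝ => (e u) ^ 2) (Set.Ioi u) :=
    h2.mono_set (Set.Ioi_subset_Ioi (by linarith))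
  have hsplit : ∫ t in Set.Ioi (0 : ℝ), (e t) ^ 2 =
      (∫ t in Set.Ioc 0 u, (e t) ^ 2) + ∫ t in Set.Ioi u, (e t) ^ 2 := by
    conv_lhs => rw [hsub]
    exact setIntegral_union (Set.Ioc_disjoint_Ioi le_rfl) measurableSet_Ioi i1 i2
  rw [hsplit] at hd
  have htail : ∫ t in Set.Ioi u, (e t) ^ 2 ≤ η ^ 2 * δ := by
    have := (abs_lt.1 hd).1
    linarith
  have hicc : ∫ t in Set.Icc u (u + δ), (e t) ^ 2 ≤ η ^ 2 * δ := by
    rw [integral_Icc_eq_integral_Ioc]
    refine (setIntegral_mono_set i2 ?_ ?_).trans htail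
    · exact Filter.Eventually.of_forall fun t => sq_nonneg _
    · exact (Set.Ioc_subset_Ioi_self).eventuallyLE
  have hI : IntegrableOn (fun t : ℝ => (e t) ^ 2) (Set.Icc u (u + δ)) :=
    h2.mono_set fun t ht => by
      rw [Set.mem_Icc] at ht
      rw [Set.mem_Ioi]
      linarith
  have hc : IntegrableOn (fun _ : ℝ => η / 2) (Set.Icc u (u + δ)) := by
    rw [integrableOn_const_iff]
    right
    rw [Real.volume_Icc]
    exact ENNReal.ofReal_lt_top
  have hdom : IntegrableOn (fun t : ℝ => η / 2 + (2 * η)⁻¹ * (e t) ^ 2) (Set.Icc u (u + δ)) :=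
    hc.add (hI.const_mul _)
  have hpt : ∀ t : ℝ, |e t| ≤ η / 2 + (2 * η)⁻¹ * (e t) ^ 2 := by
    intro t
    have h3 : 0 ≤ (2 * η)⁻¹ * (|e t| - η) ^ 2 := by positivity
    have h4 : (2 * η)⁻¹ * (|e t| - η) ^ 2 = η / 2 + (2 * η)⁻¹ * (e t) ^ 2 - |e t| := by
      rw [sub_sq, sq_abs]
      field_simp
      ring
    linarith
  have hei : IntegrableOn e (Set.Icc u (u + δ)) := by
    refine Integrable.mono' hdom he.aestronglyMeasurable ?_
    exact Filter.Eventually.of_forall fun t => by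
      rw [Real.norm_eq_abs]
      exact hpt t
  refine ⟨hei, ?_⟩
  calc ∫ t in Set.Icc u (u + δ), |e t|
      ≤ ∫ t in Set.Icc u (u + δ), (η / 2 + (2 * η)⁻¹ * (e t) ^ 2) :=
        integral_mono hei.abs hdom fun t => hpt t
    _ = η / 2 * δ + (2 * η)⁻¹ * ∫ t in Set.Icc u (u + δ), (e t) ^ 2 := by
        rw [integral_add hc (hI.const_mul _), integral_const_mul, setIntegral_const,
          Measure.real, Real.volume_Icc, ENNReal.toReal_ofReal (by linarith), smul_eq_mul]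
        ring
    _ ≤ η / 2 * δ + (2 * η)⁻¹ * (η ^ 2 * δ) := by gcongr
    _ = η * δ := by
        field_simp
        ring

/-- One sided variation and square integrability give a bound.  For large `u`:
`e u ≤ e t + V + η/2` for `t ∈ [u - δ, u]` (integrate over `t`), and `e t ≤ e u + V + η/2` for
`t ∈ [u, u + δ]`; the averages of `|e|` are at most `η/2` by `sv_avg`. -/
theorem sv_bound (e : ℝ → ℝ) (he : Measurable e)
    (h2 : IntegrableOn (fun u : ℝ => (e u) ^ 2) (Set.Ioi 0)) (V δ : ℝ) (hδ : 0 < δ)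
    (hV : ∀ η : ℝ, 0 < η → ∃ u0 : ℝ, ∀ u v : ℝ, u0 ≤ u → u ≤ v → v ≤ u + δ →
      e v ≤ e u + V + η) (η : ℝ) (hη : 0 < η) :
    ∃ u1 : ℝ, ∀ u : ℝ, u1 ≤ u → |e u| ≤ V + η := by
  obtain ⟨u0, hu0⟩ := hV (η / 2) (by positivity)
  obtain ⟨u1, hu1, h1⟩ := sv_avg e he h2 δ (η / 2) hδ (by positivity)
  -- a constant below `|e|` on a window is at most `η / 2`
  have key : ∀ a c : ℝ, u1 ≤ a → (∀ t ∈ Set.Icc a (a + δ), c ≤ |e t|) → c ≤ η / 2 := by
    intro a c ha hc
    obtain ⟨hi, hle⟩ := h1 a ha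
    have hci : IntegrableOn (fun _ : ℝ => c) (Set.Icc a (a + δ)) := by
      rw [integrableOn_const_iff]
      right
      rw [Real.volume_Icc]
      exact ENNReal.ofReal_lt_top
    have h3 := setIntegral_mono_on hci hi.abs measurableSet_Icc hc
    rw [setIntegral_const, Measure.real, Real.volume_Icc,
      ENNReal.toReal_ofReal (by linarith), smul_eq_mul] at h3
    have h4 : (a + δ - a) * c ≤ η / 2 * δ := h3.trans hle
    have h5 : δ * c ≤ δ * (η / 2) := by linarith [h4]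
    exact le_of_mul_le_mul_left h5 hδ
  refine ⟨max u0 u1 + δ, fun u hu => ?_⟩
  have ha : u0 ≤ u - δ := by
    have := le_max_left u0 u1
    linarith
  have hb : u1 ≤ u - δ := by
    have := le_max_right u0 u1
    linarith
  rw [abs_le]
  constructor
  · have h6 := key u (-(e u + V + η / 2)) (by linarith) fun t ht => by
      rw [Set.mem_Icc] at ht
      have h7 := hu0 u t (by linarith) ht.1 ht.2
      have h8 := neg_abs_le (e t)
      linarith
    linarith
  · have h6 := key (u - δ) (e u - V - η / 2) hb fun t ht => by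
      rw [Set.mem_Icc] at ht
      have h7 := hu0 t u (by linarith) (by linarith) (by linarith)
      have h8 := le_abs_self (e t)
      linarith
    linarith

/-- One sided variation gives the Riemann hypothesis: `η A(v) ≤ η A(u) + V` for
`u0 ≤ u ≤ v ≤ u + δ` (`A(u) = AA α (e^u)`) gives `η A(u) ≤ M + max V 0 ((u - u0)/δ + 1)` for `u ≥ u0`
with `M = 14 e^{(u0 + δ)/2}` (induction, `abs_AA_le`), so `η AA x ≤ x^{δ'}` for large `x` and
every `δ' > 0`; `rh_gen` with `δ' < Re s`. -/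
theorem sv_rh (α : ℕ → ℂ) (L W : ℂ → ℂ) (hD : DataR α L W) (η : ℝ)
    (hη : η = 1 ∨ (η = -1 ∧ ∀ σ : ℝ, 0 < σ → LR L σ ≠ 0)) (V δ u0 : ℝ) (hδ : 0 < δ)
    (h : ∀ u v : ℝ, u0 ≤ u → u ≤ v → v ≤ u + δ →
      η * AA α (Real.exp v) ≤ η * AA α (Real.exp u) + V) :
    ∀ s : ℂ, 0 < s.re → L (1 + s) ≠ 0 := by
  intro s hs
  have hηabs : |η| = 1 := by
    rcases hη with rfl | ⟨rfl, -⟩
    · exact abs_one
    · rw [abs_neg, abs_one]
  obtain ⟨M, hM⟩ : ∃ M : ℝ, M = 14 * Real.sqrt (Real.exp (u0 + δ)) := ⟨_, rfl⟩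
  have hM0 : 0 ≤ M := by rw [hM]; positivity
  have hbase : ∀ w : ℝ, w ≤ u0 + δ → η * AA α (Real.exp w) ≤ M := by
    intro w hw
    have h1 := abs_AA_le α hD.norm_α (Real.exp w) (Real.exp_pos w).le
    have h2 : Real.sqrt (Real.exp w) ≤ Real.sqrt (Real.exp (u0 + δ)) :=
      Real.sqrt_le_sqrt (Real.exp_le_exp.2 hw)
    calc η * AA α (Real.exp w) ≤ |η * AA α (Real.exp w)| := le_abs_self _
      _ = |AA α (Real.exp w)| := by rw [abs_mul, hηabs, one_mul]
      _ ≤ 14 * Real.sqrt (Real.exp w) := h1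
      _ ≤ M := by rw [hM]; linarith
  have hstep : ∀ (n : ℕ) (w : ℝ), u0 ≤ w →
      η * AA α (Real.exp (w + n * δ)) ≤ η * AA α (Real.exp w) + n * V := by
    intro n w hw
    induction n with
    | zero => simp
    | succ n ih =>
      have h3 : 0 ≤ (n : ℝ) * δ := by positivity
      have h4 := h (w + n * δ) (w + (n + 1 : ℕ) * δ) (by linarith)
        (by push_cast; linarith) (by push_cast; linarith)
      push_cast at h4 ⊢
      linarith
  obtain ⟨V', hV'⟩ : ∃ V' : ℝ, V' = max V 0 := ⟨_, rfl⟩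
  have hV0 : 0 ≤ V' := by rw [hV']; exact le_max_right _ _
  have hVV : V ≤ V' := by rw [hV']; exact le_max_left _ _
  have hlin : ∀ u : ℝ, u0 ≤ u → η * AA α (Real.exp u) ≤ M + V' * ((u - u0) / δ) := by
    intro u hu
    obtain ⟨n, hn⟩ : ∃ n : ℕ, n = ⌊(u - u0) / δ⌋₊ := ⟨_, rfl⟩
    have h0 : 0 ≤ (u - u0) / δ := div_nonneg (by linarith) hδ.le
    have h5 : (n : ℝ) ≤ (u - u0) / δ := by rw [hn]; exact Nat.floor_le h0
    have h6 : (u - u0) / δ < n + 1 := by rw [hn]; exact Nat.lt_floor_add_one _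
    have h7 : (n : ℝ) * δ ≤ u - u0 := by rwa [le_div_iff₀ hδ] at h5
    have h8 : u - u0 < (n + 1) * δ := by rwa [div_lt_iff₀ hδ] at h6
    have h9 := hstep n (u - n * δ) (by linarith)
    have h10 : u - n * δ + n * δ = u := by ring
    rw [h10] at h9
    have h11 := hbase (u - n * δ) (by linarith)
    have h12 : (n : ℝ) * V ≤ V' * ((u - u0) / δ) := by
      calc (n : ℝ) * V ≤ n * V' := by gcongr
        _ = V' * n := by ring
        _ ≤ V' * ((u - u0) / δ) := by gcongr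
    linarith
  -- the exponent
  obtain ⟨r, hr⟩ : ∃ r : ℝ, r = s.re / 4 := ⟨_, rfl⟩
  have hr0 : 0 < r := by rw [hr]; positivity
  obtain ⟨a, ha⟩ : ∃ a : ℝ, a = M + V' * (|u0| / δ) := ⟨_, rfl⟩
  have ha0 : 0 ≤ a := by rw [ha]; positivity
  obtain ⟨b, hb⟩ : ∃ b : ℝ, b = V' / δ / r := ⟨_, rfl⟩
  have hb0 : 0 ≤ b := by rw [hb]; positivity
  obtain ⟨X, hX⟩ : ∃ X : ℝ, X = max (max 1 (Real.exp u0)) ((a + b + 1) ^ (1 / r)) := ⟨_, rfl⟩
  have hX1 : 1 ≤ X := by rw [hX]; exact (le_max_left _ _).trans (le_max_left _ _)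
  have hXu : Real.exp u0 ≤ X := by rw [hX]; exact (le_max_right _ _).trans (le_max_left _ _)
  have hXa : (a + b + 1) ^ (1 / r) ≤ X := by rw [hX]; exact le_max_right _ _
  have hbound : ∀ x : ℝ, X ≤ x → η * AA α x ≤ x ^ (2 * r) := by
    intro x hx
    have hx1 : 1 ≤ x := hX1.trans hx
    have hx0 : 0 < x := by linarith
    have hlogu : u0 ≤ Real.log x := by
      rw [Real.le_log_iff_exp_le hx0]
      exact hXu.trans hx
    have h1 := hlin (Real.log x) hlogu
    rw [Real.exp_log hx0] at h1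
    have hy : a + b + 1 ≤ x ^ r := by
      calc a + b + 1 = ((a + b + 1) ^ (1 / r)) ^ r := by
            rw [← Real.rpow_mul (by positivity), one_div, inv_mul_cancel₀ hr0.ne', Real.rpow_one]
        _ ≤ x ^ r := Real.rpow_le_rpow (by positivity) (hXa.trans hx) hr0.le
    have hlog : Real.log x ≤ x ^ r / r := Real.log_le_rpow_div hx0.le hr0
    have h2 : V' * ((Real.log x - u0) / δ) ≤ V' * (|u0| / δ) + b * x ^ r := by
      have h3 : (Real.log x - u0) / δ ≤ |u0| / δ + x ^ r / r / δ := by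
        rw [← add_div]
        apply div_le_div_of_nonneg_right _ hδ.le
        have := neg_abs_le u0
        linarith
      calc V' * ((Real.log x - u0) / δ) ≤ V' * (|u0| / δ + x ^ r / r / δ) := by gcongr
        _ = V' * (|u0| / δ) + b * x ^ r := by
          rw [hb]
          field_simp
    have h4 : x ^ (2 * r) = x ^ r * x ^ r := by
      rw [← Real.rpow_add hx0]
      congr 1
      ring
    obtain ⟨y, hyy⟩ : ∃ y : ℝ, y = x ^ r := ⟨_, rfl⟩
    rw [← hyy] at hy h2 h4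
    rw [h4]
    have h5 : 1 ≤ y := by linarith
    have h6 : a + b * y ≤ (a + b + 1) * y := by nlinarith
    have h7 : (a + b + 1) * y ≤ y * y := by gcongr
    have h8 : M + V' * ((Real.log x - u0) / δ) ≤ a + b * y := by
      rw [ha]
      linarith
    linarith
  have h9 := rh_gen α L W hD η (2 * r) X (by linarith)
    (hη.imp id fun h => ⟨h.1, fun σ hσ => h.2 σ (by linarith)⟩) hX1 hbound (1 + s)
  apply h9
  rw [Complex.add_re, Complex.one_re, hr]
  linarith

end W3283g
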