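import Pool.Agent.W_3283e1_h53.Er

set_option autoImplicit false

namespace W3283g

open Complex W3283e1 W3283f MeasureTheory Filter Topology

/-- `W3283f.Lk_exists` (module `FinH` of the folder W_MP_3283e1_h19) with the given `n`, `f`, `i`, `j`
instead of those of `k_form`: the same proof. -/
theorem Lkx (n f i k : ℕ) (c : ℤ) (j : ℕ) (hn : Odd n) (hs : Squarefree n)
    (hkf : k = 2 ^ i * n * f ^ 2) (hk : 0 < k)
    (hj : (c = -1 ∧ i = 0 ∧ j = 0) ∨ (c = -1 ∧ i = 1 ∧ j = 1) ∨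
      (c = 1 ∧ i = 0 ∧ j = 1) ∨ (c = 1 ∧ i = 1 ∧ j = 0)) :
    ∃ (L v : ℂ → ℂ),
      (∀ p : ℕ, p.Prime → p ≠ 2 → ¬ p ∣ k →
        (npts (c * k ^ 2) 0 p : ℝ) = p + 1 - 2 * (alF n j p).re) ∧
      Differentiable ℂ L ∧
      (∀ s : ℂ, 3 / 2 < s.re → HasProd (fun p : {p : ℕ // p.Prime ∧ ¬ p ∣ 2 * k} =>
        (1 - ((p : ℂ) + 1 - (npts (c * k ^ 2) 0 p : ℂ)) * (p : ℂ) ^ (-s)
          + (p : ℂ) ^ (1 - 2 * s))⁻¹) (L s)) ∧
      (∀ s : ℂ, 3 / 4 < s.re → L s = LLF n j s * v s ∧ AnalyticAt ℂ v s ∧ v s ≠ 0) ∧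
      (∀ σ : ℝ, 3 / 4 < σ → 0 < (v σ).re ∧ (v σ).im = 0) ∧
      (v 1).re = ∏ p ∈ k.primeFactors.erase 2, (((p : ℝ) + 1 - 2 * (alF n j p).re) / p) := by
  classical
  have hj' : j = 0 ∨ j = 1 := by omega
  have hcount : ∀ p : ℕ, p.Prime → p ≠ 2 → ¬ p ∣ k →
      (npts (c * k ^ 2) 0 p : ℝ) = p + 1 - 2 * (alF n j p).re :=
    fun p hp h2 hpk => npts_fam n f i k c j hn hkf hk hj p hp h2 hpk
  have hnk : n ∣ k := by
    rw [hkf]
    exact Dvd.dvd.mul_right (Dvd.intro_left _ rfl) _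
  have hnle : n ≤ k := Nat.le_of_dvd hk hnk
  have hn0 : n ≠ 0 := by
    rintro rfl
    exact absurd hn (by decide)
  have hT := thData_fam n j hj' hn hs
  set D : Finset ℕ := k.primeFactors.erase 2 with hD
  have hmemD : ∀ p, p ∈ D ↔ p.Prime ∧ p ≠ 2 ∧ p ∣ k := by
    intro p
    rw [hD, Finset.mem_erase, Nat.mem_primeFactors]
    constructor
    · rintro ⟨h1, h2, h3, -⟩
      exact ⟨h2, h1, h3⟩
    · rintro ⟨h1, h2, h3⟩
      exact ⟨h2, h1, h3, hk.ne'⟩
  have hnD : n.primeFactors ⊆ D := by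
    intro p hp
    have hpp := Nat.prime_of_mem_primeFactors hp
    have hdvd := Nat.dvd_of_mem_primeFactors hp
    rw [hmemD]
    refine ⟨hpp, ?_, hdvd.trans hnk⟩
    rintro rfl
    exact (Nat.not_even_iff_odd.2 hn) (even_iff_two_dvd.2 hdvd)
  have hfne : ∀ p ∈ D, ∀ s : ℂ, 3 / 4 < s.re → fL (alF n j p) p s ≠ 0 := by
    intro p hp s h3
    obtain ⟨h1, h2, -⟩ := (hmemD p).1 hp
    exact fL_ne _ p h1 (norm_alF n j p h1 h2) s h3
  set v : ℂ → ℂ := fun s => ∏ p ∈ D, fL (alF n j p) p s with hv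
  set w : ℂ → ℂ := fun s => ∏ p ∈ D \ n.primeFactors, fL (alF n j p) p s with hw
  have hfan : ∀ p ∈ D, ∀ s : ℂ, AnalyticAt ℂ (fL (alF n j p) p) s :=
    fun p hp s => fL_an _ p ((hmemD p).1 hp).1 s
  have hvan : ∀ s : ℂ, AnalyticAt ℂ v s := by
    intro s
    exact Finset.analyticAt_fun_prod _ fun p hp => hfan p hp s
  have hwan : ∀ s : ℂ, AnalyticAt ℂ w s := by
    intro s
    exact Finset.analyticAt_fun_prod _ fun p hp => hfan p (Finset.sdiff_subset hp) s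
  have huv : ∀ s : ℂ, 3 / 4 < s.re → uF n j s * v s = w s := by
    intro s h3
    have h1 : w s * ∏ p ∈ n.primeFactors, fL (alF n j p) p s = v s :=
      Finset.prod_sdiff hnD
    rw [← h1]
    unfold uF
    rw [Finset.prod_inv_distrib]
    have h2 : ∏ p ∈ n.primeFactors, fL (alF n j p) p s ≠ 0 := by
      rw [Finset.prod_ne_zero_iff]
      intro p hp
      exact hfne p (hnD hp) s h3
    field_simp
  have hLv : ∀ s : ℂ, 3 / 4 < s.re →
      LG (aFam n j) (kF n j) s * w s = LLF n j s * v s := by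
    intro s h3
    unfold LLF
    rw [mul_assoc, huv s h3]
  refine ⟨fun s => LG (aFam n j) (kF n j) s * w s, v, hcount, ?_, ?_, ?_, ?_, ?_⟩
  · intro s
    exact (LG_diff _ _ _ hT s).mul (hwan s).differentiableAt
  · intro s h3
    have h34 : 3 / 4 < s.re := by linarith
    show HasProd _ (LG (aFam n j) (kF n j) s * w s)
    rw [hLv s h34]
    have h5 : HasProd (fun p : OP => (fL (alF n j p) p s)⁻¹) (LLF n j s) := by
      have h4 := euler_full n j hn s h3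
      rw [← (LG_eq _ _ _ hT s h3).2] at h4
      exact h4
    -- the finite correction
    let T : Finset OP := D.attach.image (fun p => ⟨p.1, ((hmemD p.1).1 p.2).1,
      ((hmemD p.1).1 p.2).2.1⟩)
    have hT' : ∀ p : OP, p ∈ T ↔ (p : ℕ) ∣ k := by
      intro p
      constructor
      · intro h
        obtain ⟨q, _, hq⟩ := Finset.mem_image.1 h
        rw [← hq]
        exact ((hmemD q.1).1 q.2).2.2
      · intro h
        exact Finset.mem_image.2 ⟨⟨p.1, (hmemD p.1).2 ⟨p.2.1, p.2.2, h⟩⟩,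
          Finset.mem_attach _ _, rfl⟩
    have h6 : HasProd (fun p : OP => (if (p : ℕ) ∣ k then fL (alF n j p) p s else 1)) (v s) := by
      have h7 : HasProd (fun p : OP => (if (p : ℕ) ∣ k then fL (alF n j p) p s else 1))
          (∏ p ∈ T, (if (p : ℕ) ∣ k then fL (alF n j p) p s else 1)) := by
        refine hasProd_prod_of_ne_finset_one ?_
        intro p hp
        rw [if_neg]
        intro h
        exact hp ((hT' p).2 h)
      have h8 : (∏ p ∈ T, (if (p : ℕ) ∣ k then fL (alF n j p) p s else 1)) = v s := by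
        rw [hv]
        show _ = ∏ p ∈ D, fL (alF n j p) p s
        rw [← Finset.prod_attach D]
        rw [Finset.prod_image]
        · refine Finset.prod_congr rfl ?_
          intro q _
          rw [if_pos]
          exact ((hmemD q.1).1 q.2).2.2
        · intro a _ b _ hab
          apply Subtype.ext
          exact congrArg (fun q : OP => (q : ℕ)) hab
      rw [← h8]
      exact h7
    have h9 := h5.mul h6
    let g : {p : ℕ // p.Prime ∧ ¬ p ∣ 2 * k} → OP := fun p =>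
      ⟨p.1, p.2.1, fun h => p.2.2 (by rw [h]; exact Dvd.intro _ rfl)⟩
    have hg : Function.Injective g := by
      intro a b hab
      apply Subtype.ext
      exact congrArg (fun q : OP => (q : ℕ)) hab
    rw [← hg.hasProd_iff] at h9
    · refine h9.congr_fun ?_
      intro p
      have hp2 : (p : ℕ) ≠ 2 := fun h => p.2.2 (by rw [h]; exact Dvd.intro _ rfl)
      have hpk : ¬ (p : ℕ) ∣ k := fun h => p.2.2 (Dvd.dvd.mul_left h 2)
      show _ = (fL (alF n j (p : ℕ)) (p : ℕ) s)⁻¹ * (if (p : ℕ) ∣ k then _ else 1)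
      rw [if_neg hpk, mul_one,
        finH_factor (alF n j (p : ℕ)) (p : ℕ) p.2.1 (norm_alF n j _ p.2.1 hp2) _
          (hcount p p.2.1 hp2 hpk) s]
    · intro p hp
      have hpk : (p : ℕ) ∣ k := by
        by_contra h
        apply hp
        refine ⟨⟨p.1, p.2.1, ?_⟩, rfl⟩
        rw [p.2.1.dvd_mul]
        rintro (h' | h')
        · exact p.2.2 ((Nat.prime_dvd_prime_iff_eq p.2.1 Nat.prime_two).1 h')
        · exact h h'
      have hf := hfne p ((hmemD _).2 ⟨p.2.1, p.2.2, hpk⟩) s h34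
      rw [if_pos hpk]
      exact inv_mul_cancel₀ hf
  · intro s h3
    refine ⟨hLv s h3, hvan s, ?_⟩
    rw [hv]
    show ∏ p ∈ D, fL (alF n j p) p s ≠ 0
    rw [Finset.prod_ne_zero_iff]
    exact fun p hp => hfne p hp s h3
  · intro σ h3
    have h4 : v σ = ((∏ p ∈ D, ‖1 - alF n j p * (p : ℂ) ^ (-(σ : ℂ))‖ ^ 2 : ℝ) : ℂ) := by
      rw [hv]
      show ∏ p ∈ D, fL (alF n j p) p σ = _
      rw [Complex.ofReal_prod]
      exact Finset.prod_congr rfl fun p _ => finH_real _ p σ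
    rw [h4, Complex.ofReal_re, Complex.ofReal_im]
    refine ⟨Finset.prod_pos ?_, rfl⟩
    intro p hp
    obtain ⟨h1, h2, -⟩ := (hmemD p).1 hp
    have h5 := fac_ne (alF n j p) p h1 (norm_alF n j p h1 h2) σ (by simpa using h3)
    positivity
  · have h4 : v 1 = ((∏ p ∈ D, (((p : ℝ) + 1 - 2 * (alF n j p).re) / p) : ℝ) : ℂ) := by
      rw [hv]
      show ∏ p ∈ D, fL (alF n j p) p 1 = _
      rw [Complex.ofReal_prod]
      refine Finset.prod_congr rfl fun p hp => ?_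
      obtain ⟨h1, h2, -⟩ := (hmemD p).1 hp
      exact finH_one _ p h1 (norm_alF n j p h1 h2)
    rw [h4, Complex.ofReal_re]

/-- The product is positive: every factor is, since `npts ≥ 1` (the point at infinity). -/
theorem bsd_pos (a b : ℤ) (x : ℝ) : 0 < bsdProd a b x := by
  unfold bsdProd
  refine Finset.prod_pos fun p hp => ?_
  have hp' := (Finset.mem_filter.1 hp).2.1
  have h1 : 0 < npts a b p := by
    unfold npts
    exact Nat.succ_pos _
  exact div_pos (by exact_mod_cast h1) (by exact_mod_cast hp'.pos)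

/-- The limit in `Lkx` passes to `LLF`: for `s` near `0`, `s ≠ 0`,
`LLF n j (1+s)/s^r = (L(1+s)/((1+s) - 1)^r)/v(1+s)`, and `v 1` is real. -/
theorem lim_LLF (n j : ℕ) (L v : ℂ → ℂ)
    (hLv : ∀ s : ℂ, 3 / 4 < s.re → L s = LLF n j s * v s ∧ AnalyticAt ℂ v s ∧ v s ≠ 0)
    (hv : ∀ σ : ℝ, 3 / 4 < σ → 0 < (v σ).re ∧ (v σ).im = 0) (r : ℕ) (l : ℝ)
    (hlim : Tendsto (fun s : ℂ => L s / (s - 1) ^ r) (𝓝[≠] 1) (𝓝 (l : ℂ))) :
    Tendsto (fun s : ℂ => LLF n j (1 + s) / s ^ r) (𝓝[≠] 0) (𝓝 ((l / (v 1).re : ℝ) : ℂ)) := by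
  have h1 : Tendsto (fun s : ℂ => 1 + s) (𝓝[≠] 0) (𝓝[≠] 1) := by
    rw [tendsto_nhdsWithin_iff]
    constructor
    · have h2 : Continuous (fun s : ℂ => 1 + s) := by fun_prop
      have h3 := h2.tendsto 0
      rw [add_zero] at h3
      exact h3.mono_left nhdsWithin_le_nhds
    · filter_upwards [self_mem_nhdsWithin] with s hs
      intro h
      apply hs
      have h3 : (1 : ℂ) + s = 1 := h
      simpa using h3
  have h2 : Tendsto v (𝓝[≠] 1) (𝓝 (v 1)) :=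
    (hLv 1 (by norm_num)).2.1.continuousAt.tendsto.mono_left nhdsWithin_le_nhds
  have hv1 : v 1 ≠ 0 := (hLv 1 (by norm_num)).2.2
  have hvim : (v 1).im = 0 := by
    have := (hv 1 (by norm_num)).2
    rwa [Complex.ofReal_one] at this
  have hvre : (((v 1).re : ℝ) : ℂ) = v 1 := by
    apply Complex.ext
    · rw [Complex.ofReal_re]
    · rw [Complex.ofReal_im, hvim]
  have h3 := (hlim.div h2 hv1).comp h1
  have h4 : (l : ℂ) / v 1 = ((l / (v 1).re : ℝ) : ℂ) := by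
    rw [Complex.ofReal_div, hvre]
  rw [h4] at h3
  refine h3.congr' ?_
  have h5 : ∀ᶠ s : ℂ in 𝓝[≠] 0, 3 / 4 < (1 + s).re := by
    have h6 : ContinuousAt (fun s : ℂ => (1 + s).re) 0 := by fun_prop
    have h7 : (3 / 4 : ℝ) < ((fun s : ℂ => (1 + s).re) 0) := by
      show (3 / 4 : ℝ) < ((1 : ℂ) + 0).re
      rw [add_zero, Complex.one_re]
      norm_num
    have h8 := h6.eventually (lt_mem_nhds h7)
    exact h8.filter_mono nhdsWithin_le_nhds
  filter_upwards [h5, self_mem_nhdsWithin] with s hs hs0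
  show L (1 + s) / (1 + s - 1) ^ r / v (1 + s) = LLF n j (1 + s) / s ^ r
  have h9 := (hLv _ hs).2.2
  rw [(hLv _ hs).1, add_sub_cancel_left]
  field_simp

/-- `prod_const'` and the definitions of `er` and `lGold`: for `x ≥ k`, `x > 1`, with `V = v(1)`,
`log (P x / (C (log x)^r)) = AA x - log V - log (√2/|l|) - r γ - r log log x`. -/
theorem er_prod (n j k : ℕ) (c : ℤ) (hk : 0 < k) (hc : c = 1 ∨ c = -1)
    (hcount : ∀ p : ℕ, p.Prime → p ≠ 2 → ¬ p ∣ k →
      (npts (c * k ^ 2) 0 p : ℝ) = p + 1 - 2 * (alF n j p).re) (V l : ℝ) (hV : 0 < V)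
    (hV1 : V = ∏ p ∈ k.primeFactors.erase 2, (((p : ℝ) + 1 - 2 * (alF n j p).re) / p))
    (hl : l ≠ 0) (r : ℕ) (x : ℝ) (hx : (k : ℝ) ≤ x) (hx1 : 1 < x) :
    Real.log (bsdProd (c * k ^ 2) 0 x /
      (Real.sqrt 2 * Real.exp (r * Real.eulerMascheroniConstant) / |l| * (Real.log x) ^ r)) =
      er (alF n j) (lGold (l / V) r) r (Real.log x) := by
  have hx0 : 0 < x := by linarith
  have hlog : 0 < Real.log x := Real.log_pos hx1
  have h1 := prod_const' n j k c hk hc hcount x hx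
  rw [← hV1] at h1
  have hP : 0 < bsdProd (c * k ^ 2) 0 x := bsd_pos _ _ _
  have habs : 0 < |l| := abs_pos.2 hl
  have h2 : Real.log (bsdProd (c * k ^ 2) 0 x) + Real.log V = AA (alF n j) x := by
    rw [← Real.log_mul hP.ne' hV.ne', h1, Real.log_exp]
  have hs2 : 0 < Real.sqrt 2 := by positivity
  have hlr : 0 < (Real.log x) ^ r := by positivity
  have hC : 0 < Real.sqrt 2 * Real.exp (r * Real.eulerMascheroniConstant) / |l| := by positivity
  unfold er lGold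
  rw [Real.exp_log hx0, Real.log_div hP.ne' (mul_pos hC hlr).ne', Real.log_mul hC.ne' hlr.ne',
    Real.log_div (mul_pos hs2 (Real.exp_pos _)).ne' habs.ne',
    Real.log_mul hs2.ne' (Real.exp_pos _).ne', Real.log_exp, Real.log_pow, abs_div,
    abs_of_pos hV, Real.log_div hs2.ne' (div_pos habs hV).ne', Real.log_div habs.ne' hV.ne']
  linarith

/-- The data of the curve `y² = x³ + c k² x`: `L` is its L-function (Euler factors at the primes not
dividing `2k`), `r` and `l` the order and the leading coefficient at `1`. -/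
structure SU (k : ℕ) (c : ℤ) (n f i j : ℕ) (L : ℂ → ℂ) (r : ℕ) (l V : ℝ) : Prop where
  hk : 0 < k
  hc : c = 1 ∨ c = -1
  hn : Odd n
  hs : Squarefree n
  hkf : k = 2 ^ i * n * f ^ 2
  hj : j = 0 ∨ j = 1
  hcase : (c = -1 ∧ i = 0 ∧ j = 0) ∨ (c = -1 ∧ i = 1 ∧ j = 1) ∨
    (c = 1 ∧ i = 0 ∧ j = 1) ∨ (c = 1 ∧ i = 1 ∧ j = 0)
  hL : Differentiable ℂ L
  hprod : ∀ s : ℂ, 3 / 2 < s.re → HasProd (fun p : {p : ℕ // p.Prime ∧ ¬ p ∣ 2 * k} =>
    (1 - ((p : ℂ) + 1 - (npts (c * k ^ 2) 0 p : ℂ)) * (p : ℂ) ^ (-s)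
      + (p : ℂ) ^ (1 - 2 * s))⁻¹) (L s)
  hl : l ≠ 0
  hV : 0 < V
  hlim : Tendsto (fun s : ℂ => L s / (s - 1) ^ r) (𝓝[≠] 1) (𝓝 (l : ℂ))
  hlim' : Tendsto (fun s : ℂ => LLF n j (1 + s) / s ^ r) (𝓝[≠] 0) (𝓝 ((l / V : ℝ) : ℂ))
  hzero : ∀ s : ℂ, 0 ≤ s.re → (L (1 + s) = 0 ↔ LLF n j (1 + s) = 0)
  hreal : (k ≤ 2 ∨ ∀ σ : ℝ, 1 < σ → L σ ≠ 0) → ∀ σ : ℝ, 0 < σ → LR (LLF n j) σ ≠ 0
  hP : ∀ x : ℝ, (k : ℝ) ≤ x → 1 < x →
    Real.log (bsdProd (c * k ^ 2) 0 x /
      (Real.sqrt 2 * Real.exp (r * Real.eulerMascheroniConstant) / |l| * (Real.log x) ^ r)) =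
        er (alF n j) (lGold (l / V) r) r (Real.log x)

/-- Everything together: `k_form`, `Lkx`, `finH_lead`, `lim_LLF`, `finH_noreal`, `bsd_pos`, `er_prod`
(`V = (v 1).re`). -/
theorem setup (k : ℕ) (hk : 0 < k) (c : ℤ) (hc : c = 1 ∨ c = -1) :
    ∃ (n f i j : ℕ) (L : ℂ → ℂ) (r : ℕ) (l V : ℝ), SU k c n f i j L r l V := by
  obtain ⟨n, f, i, hn, hs, hi, hkf⟩ := k_form k hk
  obtain ⟨j, hj, hj'⟩ : ∃ j : ℕ, ((c = -1 ∧ i = 0 ∧ j = 0) ∨ (c = -1 ∧ i = 1 ∧ j = 1) ∨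
      (c = 1 ∧ i = 0 ∧ j = 1) ∨ (c = 1 ∧ i = 1 ∧ j = 0)) ∧ (j = 0 ∨ j = 1) := by
    rcases hc with rfl | rfl <;> rcases hi with rfl | rfl
    · exact ⟨1, by omega, by omega⟩
    · exact ⟨0, by omega, by omega⟩
    · exact ⟨0, by omega, by omega⟩
    · exact ⟨1, by omega, by omega⟩
  obtain ⟨L, v, hcount, hLd, hLp, hLv, hv, hv1⟩ := Lkx n f i k c j hn hs hkf hk hj
  obtain ⟨r, l, hl, hlim1, -⟩ := finH_lead n j hn hs hj' L v hLd hLv hv
  have hV : 0 < (v 1).re := by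
    have := (hv 1 (by norm_num)).1
    rwa [Complex.ofReal_one] at this
  have hn1 : k ≤ 2 → n = 1 := by
    intro h2
    have hnk : n ∣ k := by
      rw [hkf]
      exact Dvd.dvd.mul_right (Dvd.intro_left _ rfl) _
    have hnle : n ≤ k := Nat.le_of_dvd hk hnk
    obtain ⟨m, hm⟩ := hn
    omega
  refine ⟨n, f, i, j, L, r, l, (v 1).re, ⟨hk, hc, hn, hs, hkf, hj', hj, hLd, hLp, hl, hV, hlim1,
    lim_LLF n j L v hLv hv r l hlim1, ?_, ?_, ?_⟩⟩
  · intro s hs0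
    have h3 : 3 / 4 < (1 + s).re := by
      rw [Complex.add_re, Complex.one_re]
      linarith
    obtain ⟨h4, -, h5⟩ := hLv (1 + s) h3
    rw [h4, mul_eq_zero]
    exact or_iff_left h5
  · intro hcond σ hσ
    exact finH_noreal n j k hn hs hj' hn1 L v hLv hcond σ hσ
  · intro x hx hx1
    exact er_prod n j k c hk hc hcount _ l hV hv1 hl r x hx hx1

end W3283g
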